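import Pool.Agent.H303.DEE.Stm3

/-!
Bounds of test fields (helper322 for helper303).
-/

set_option autoImplicit false

open MeasureTheory Set Filter Topology
open scoped ContDiff ENNReal

namespace Pool.Agent.H303.DEE

namespace C2x

/-- the joint function of a component -/
def Ph (φ : ℝ → V → V) (i : Fin 3) (z : ℝ × V) : ℝ := φ z.1 z.2 i

/-- the time derivative up to the time `0` -/
noncomputable def D (φ : ℝ → V → V) (i : Fin 3) (z : ℝ × V) : ℝ :=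
  fderivWithin ℝ (Ph φ i) (Ici (0 : ℝ) ×ˢ (univ : Set V)) z ((1 : ℝ), (0 : V))

theorem smooth {φ : ℝ → V → V} (h : Test φ) (i : Fin 3) :
    ContDiffOn ℝ ∞ (Ph φ i) (Ici (0 : ℝ) ×ˢ (univ : Set V)) :=
  contDiffOn_pi.1 h.smooth i

theorem cont_D {φ : ℝ → V → V} (h : Test φ) (i : Fin 3) :
    ContinuousOn (D φ i) (Ici (0 : ℝ) ×ˢ (univ : Set V)) := by
  have hS : UniqueDiffOn ℝ (Ici (0 : ℝ) ×ˢ (univ : Set V)) :=
    (uniqueDiffOn_Ici 0).prod uniqueDiffOn_univ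
  have h1 := (smooth h i).continuousOn_fderivWithin hS (by norm_cast)
  exact h1.clm_apply continuousOn_const

theorem deriv_eq {φ : ℝ → V → V} (h : Test φ) (i : Fin 3) {s : ℝ} (hs : 0 < s) (x : V) :
    deriv (fun r => φ r x i) s = D φ i (s, x) := by
  have hmem : Ici (0 : ℝ) ×ˢ (univ : Set V) ∈ 𝓝 ((s, x) : ℝ × V) :=
    prod_mem_nhds (Ici_mem_nhds hs) univ_mem
  have h1 : DifferentiableAt ℝ (Ph φ i) (s, x) :=
    ((smooth h i).contDiffAt hmem).differentiableAt (by norm_cast)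
  have h2 : HasDerivAt (fun r : ℝ => ((r, x) : ℝ × V)) ((1 : ℝ), (0 : V)) s :=
    (hasDerivAt_id s).prodMk (hasDerivAt_const s x)
  have h3 := h1.hasFDerivAt.comp_hasDerivAt s h2
  have h4 : deriv (fun r => φ r x i) s = (fderiv ℝ (Ph φ i) (s, x)) ((1 : ℝ), (0 : V)) := h3.deriv
  rw [h4]
  unfold D
  rw [fderivWithin_of_mem_nhds hmem]

end C2x

theorem c2 (h0 : A0) : C2 := by
  intro n T φ hφ
  obtain ⟨-, hg, hp⟩ := h0 φ hφ.smooth
  have hsub : Icc (0 : ℝ) T ×ˢ Q ⊆ Ici (0 : ℝ) ×ˢ (univ : Set V) :=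
    fun z hz => ⟨hz.1.1, mem_univ _⟩
  have hsub' : Ioc (0 : ℝ) T ×ˢ Q ⊆ Ici (0 : ℝ) ×ˢ (univ : Set V) :=
    fun z hz => ⟨hz.1.1.le, mem_univ _⟩
  let F : ℝ × V → Fin 3 → Fin 3 → ℝ × ℝ × ℝ := fun z i j =>
    (C2x.D φ i z, grd φ z.1 z.2 i j, partialD n j (fun y => φ z.1 y i) z.2)
  have hF : ContinuousOn F (Icc (0 : ℝ) T ×ˢ Q) := by
    refine continuousOn_pi.2 fun i => continuousOn_pi.2 fun j => ?_
    exact ((C2x.cont_D hφ i).mono hsub).prodMk
      (((hg i j).mono hsub).prodMk ((hp i j n).mono hsub))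
  have hK : IsCompact (Icc (0 : ℝ) T ×ˢ Q) := isCompact_Icc.prod isCompact_Icc
  obtain ⟨C, hC⟩ := hK.exists_bound_of_continuousOn hF
  have hb : ∀ z ∈ Icc (0 : ℝ) T ×ˢ Q, ∀ i j, ‖F z i j‖ ≤ max C 0 := fun z hz i j =>
    (norm_le_pi_norm (F z i) j).trans ((norm_le_pi_norm (F z) i).trans
      ((hC z hz).trans (le_max_left _ _)))
  refine ⟨max C 0, le_max_right _ _, ?_, ?_⟩
  · intro s hs x hx i j
    have h1 := hb (s, x) ⟨⟨hs.1.le, hs.2⟩, hx⟩ i j
    refine ⟨?_, ?_, ?_⟩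
    · rw [C2x.deriv_eq hφ i hs.1 x]
      exact (norm_fst_le (F (s, x) i j)).trans h1
    · exact (norm_fst_le (F (s, x) i j).2).trans ((norm_snd_le (F (s, x) i j)).trans h1)
    · exact (norm_snd_le (F (s, x) i j).2).trans ((norm_snd_le (F (s, x) i j)).trans h1)
  · intro i j
    have hm : MeasurableSet (Ioc (0 : ℝ) T ×ˢ Q) := measurableSet_Ioc.prod measurableSet_Icc
    refine ⟨?_, ?_, ?_⟩
    · refine ContinuousOn.aestronglyMeasurable ?_ hm
      refine ((C2x.cont_D hφ i).mono hsub').congr fun z hz => ?_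
      exact C2x.deriv_eq hφ i hz.1.1 z.2
    · exact ((hg i j).mono hsub').aestronglyMeasurable hm
    · exact ((hp i j n).mono hsub').aestronglyMeasurable hm

end Pool.Agent.H303.DEE
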