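import Pool.Agent.H303.DEE.Stm4

/-!
Fourier coefficients of smooth solutions are Lipschitz in time (D1).
-/

open MeasureTheory Set Filter Topology
open scoped ContDiff ENNReal

namespace Pool.Agent.H303.DEE

namespace D1L

theorem pD1 (f : V → ℝ) (j : Fin 3) (x : V) :
    partialD 1 j f x = fderiv ℝ f x (Pi.single j 1) := by
  unfold partialD
  rw [iteratedFDeriv_one_apply]

theorem cont_pD (n : ℕ) (j : Fin 3) {f : V → ℝ} (hf : ContDiff ℝ ∞ f) :
    Continuous (partialD n j f) := by
  unfold partialD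
  have h := hf.continuous_iteratedFDeriv (m := n) (by exact_mod_cast le_top)
  exact (ContinuousMultilinearMap.apply ℝ (fun _ : Fin n => V) ℝ
    (fun _ => Pi.single j 1)).continuous.comp h

theorem smooth_pD1 (j : Fin 3) {f : V → ℝ} (hf : ContDiff ℝ ∞ f) :
    ContDiff ℝ ∞ (partialD 1 j f) := by
  have h1 : partialD 1 j f = fun x => fderiv ℝ f x (Pi.single j 1) := funext (pD1 f j)
  rw [h1]
  exact (hf.fderiv_right (m := ∞) (by norm_cast)).clm_apply contDiff_const

theorem per_pD1 (j : Fin 3) {f : V → ℝ} (hf : Periodic f) : Periodic (partialD 1 j f) := by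
  intro l x
  rw [pD1, pD1]
  have h1 : (fun y => f (y + Pi.single l 1)) = f := funext fun y => hf l y
  have h2 := fderiv_comp_add_right (𝕜 := ℝ) (f := f) (x := x) (Pi.single l 1)
  rw [h1] at h2
  rw [h2]

theorem comp_smooth {v : V → V} (hv : ContDiff ℝ ∞ v) (i : Fin 3) :
    ContDiff ℝ ∞ (fun y => v y i) := (contDiff_pi.1 hv) i

theorem intQ {f : V → ℝ} (hf : Continuous f) : Integrable f mQ :=
  hf.continuousOn.integrableOn_compact isCompact_Icc

theorem int_sum2 {f : Fin 3 → Fin 3 → V → ℝ} (hf : ∀ i j, Continuous (f i j)) :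
    ∫ x in Q, ∑ i, ∑ j, f i j x = ∑ i, ∑ j, ∫ x in Q, f i j x := by
  rw [integral_finsetSum _ fun i _ => intQ (continuous_finsetSum _ fun j _ => hf i j)]
  refine Finset.sum_congr rfl fun i _ => ?_
  rw [integral_finsetSum _ fun j _ => intQ (hf i j)]

theorem int3 {a b c : V → ℝ} (r : ℝ) (ha : Continuous a) (hb : Continuous b) (hc : Continuous c) :
    ∫ x in Q, (a x - r * b x - c x) =
      (∫ x in Q, a x) - r * (∫ x in Q, b x) - ∫ x in Q, c x := by
  have hrb : Continuous fun x => r * b x := continuous_const.mul hb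
  rw [integral_sub (f := fun x => a x - r * b x) (intQ (ha.sub hrb)) (intQ hc),
    integral_sub (g := fun x => r * b x) (intQ ha) (intQ hrb), integral_const_mul]

theorem int3' {a b c : V → ℝ} (r : ℝ) (ha : Continuous a) (hb : Continuous b)
    (hc : Continuous c) : ∫ x in Q, (a x + r * b x - c x) =
      (∫ x in Q, a x) + r * (∫ x in Q, b x) - ∫ x in Q, c x := by
  have hrb : Continuous fun x => r * b x := continuous_const.mul hb
  rw [integral_sub (f := fun x => a x + r * b x) (intQ (ha.add hrb)) (intQ hc),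
    integral_add (g := fun x => r * b x) (intQ ha) (intQ hrb), integral_const_mul]

/-! ### trigonometric functions -/

/-- the linear form -/
noncomputable def ell (k : Fin 3 → ℤ) : V →L[ℝ] ℝ :=
  ∑ j, (k j : ℝ) • (ContinuousLinearMap.proj j : V →L[ℝ] ℝ)

theorem ell_apply (k : Fin 3 → ℤ) (x : V) : ell k x = ∑ j, (k j : ℝ) * x j := by
  simp [ell]

theorem ell_single (k : Fin 3 → ℤ) (j : Fin 3) : ell k (Pi.single j 1) = k j := by
  rw [ell_apply]
  simp [Pi.single_apply]

/-- the sign -/
def sg (b : Bool) : ℝ := if b then -1 else 1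

theorem sg_sq (b : Bool) : sg b * sg b = 1 := by
  cases b <;> simp [sg]

theorem hasF (k : Fin 3 → ℤ) (x : V) :
    HasFDerivAt (fun y : V => 2 * Real.pi * ∑ j, (k j : ℝ) * y j) ((2 * Real.pi) • ell k) x := by
  have h := (ell k).hasFDerivAt (x := x).const_mul (2 * Real.pi)
  refine h.congr_of_eventuallyEq (Filter.Eventually.of_forall fun y => ?_)
  simp only [ell_apply]

theorem hasD (b : Bool) (k : Fin 3 → ℤ) (x : V) :
    HasFDerivAt (trg b k) ((sg b * trg (!b) k x) • ((2 * Real.pi) • ell k)) x := by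
  cases b
  · have h := (hasF k x).sin
    have h1 : trg false k = fun y : V => Real.sin (2 * Real.pi * ∑ j, (k j : ℝ) * y j) := by
      funext y
      rfl
    have h2 : sg false * trg (!false) k x = Real.cos (2 * Real.pi * ∑ j, (k j : ℝ) * x j) := by
      simp [sg, trg]
    rw [h1, h2]
    exact h
  · have h := (hasF k x).cos
    have h1 : trg true k = fun y : V => Real.cos (2 * Real.pi * ∑ j, (k j : ℝ) * y j) := by
      funext y
      rfl
    have h2 : sg true * trg (!true) k x = -Real.sin (2 * Real.pi * ∑ j, (k j : ℝ) * x j) := by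
      simp [sg, trg]
    rw [h1, h2]
    exact h

theorem pD_trg (b : Bool) (k : Fin 3 → ℤ) (j : Fin 3) (c : ℝ) (x : V) :
    partialD 1 j (fun y => c * trg b k y) x = c * (sg b * trg (!b) k x * (2 * Real.pi * k j)) := by
  rw [pD1, ((hasD b k x).const_mul c).fderiv]
  change c * ((sg b * trg (!b) k x) * (2 * Real.pi * ell k (Pi.single j 1))) = _
  rw [ell_single]

theorem smooth_trg (b : Bool) (k : Fin 3 → ℤ) : ContDiff ℝ ∞ (trg b k) := by
  have h0 : ContDiff ℝ ∞ (fun y : V => 2 * Real.pi * ∑ j, (k j : ℝ) * y j) := by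
    fun_prop
  cases b
  · exact Real.contDiff_sin.comp h0
  · exact Real.contDiff_cos.comp h0

theorem per_trg (b : Bool) (k : Fin 3 → ℤ) : Periodic (trg b k) := by
  intro j x
  have h : 2 * Real.pi * ∑ l, (k l : ℝ) * (x + Pi.single j 1 : V) l =
      2 * Real.pi * (∑ l, (k l : ℝ) * x l) + (k j : ℤ) * (2 * Real.pi) := by
    rw [← ell_apply, ← ell_apply, map_add, ell_single]
    ring
  cases b
  · have h1 : ∀ y, trg false k y = Real.sin (2 * Real.pi * ∑ j, (k j : ℝ) * y j) := fun _ => rfl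
    rw [h1, h1, h, Real.sin_add_int_mul_two_pi]
  · have h1 : ∀ y, trg true k y = Real.cos (2 * Real.pi * ∑ j, (k j : ℝ) * y j) := fun _ => rfl
    rw [h1, h1, h, Real.cos_add_int_mul_two_pi]

/-! ### the test field -/

/-- the square of the length -/
noncomputable def nn (k : Fin 3 → ℤ) : ℝ := ∑ l, (k l : ℝ) ^ 2

/-- coefficients -/
noncomputable def cf (k : Fin 3 → ℤ) (i l : Fin 3) : ℝ :=
  (if l = i then 1 else 0) - k i * k l / nn k

/-- the test field -/
noncomputable def ww (b : Bool) (k : Fin 3 → ℤ) (i : Fin 3) (x : V) : V :=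
  fun l => cf k i l * trg b k x

/-- the potential -/
noncomputable def qq (b : Bool) (k : Fin 3 → ℤ) (i : Fin 3) (x : V) : ℝ :=
  (sg (!b) * (k i / (2 * Real.pi * nn k))) * trg (!b) k x

theorem nn_zero {k : Fin 3 → ℤ} (h : nn k = 0) (i : Fin 3) : (k i : ℝ) = 0 := by
  unfold nn at h
  have h1 := (Finset.sum_eq_zero_iff_of_nonneg (fun l _ => sq_nonneg (k l : ℝ))).1 h i
    (Finset.mem_univ i)
  exact pow_eq_zero_iff two_ne_zero |>.1 h1

theorem cf_sum (k : Fin 3 → ℤ) (i : Fin 3) : ∑ l, cf k i l * k l = 0 := by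
  have h1 : ∑ l, cf k i l * k l = k i - k i / nn k * nn k := by
    unfold cf
    have h2 : ∀ l, ((if l = i then (1 : ℝ) else 0) - k i * k l / nn k) * k l =
        (if l = i then (k l : ℝ) else 0) - k i / nn k * (k l : ℝ) ^ 2 := by
      intro l
      split_ifs <;> ring
    simp only [h2]
    rw [Finset.sum_sub_distrib, Finset.sum_ite_eq' Finset.univ i, if_pos (Finset.mem_univ i),
      ← Finset.mul_sum]
    rfl
  rw [h1]
  by_cases h : nn k = 0
  · rw [h, nn_zero h i]
    ring
  · rw [div_mul_cancel₀ _ h, sub_self]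

theorem smooth_ww (b : Bool) (k : Fin 3 → ℤ) (i : Fin 3) : Smooth (ww b k i) := by
  refine ⟨?_, ?_, ?_⟩
  · rw [contDiff_pi]
    intro l
    exact contDiff_const.mul (smooth_trg b k)
  · intro j x
    funext l
    change cf k i l * trg b k (x + Pi.single j 1) = cf k i l * trg b k x
    rw [per_trg b k j x]
  · intro x
    have h1 : ∀ j, partialD 1 j (fun y => ww b k i y j) x =
        (sg b * trg (!b) k x * (2 * Real.pi)) * (cf k i j * k j) := by
      intro j
      have := pD_trg b k j (cf k i j) x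
      unfold ww
      rw [this]
      ring
    simp only [h1]
    rw [← Finset.mul_sum, cf_sum, mul_zero]

theorem smooth_qq (b : Bool) (k : Fin 3 → ℤ) (i : Fin 3) : ContDiff ℝ ∞ (qq b k i) :=
  contDiff_const.mul (smooth_trg (!b) k)

theorem per_qq (b : Bool) (k : Fin 3 → ℤ) (i : Fin 3) : Periodic (qq b k i) := by
  intro j x
  unfold qq
  rw [per_trg (!b) k j x]

theorem pD_qq (b : Bool) (k : Fin 3 → ℤ) (i l : Fin 3) (x : V) :
    partialD 1 l (qq b k i) x = k i * k l / nn k * trg b k x := by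
  have h := pD_trg (!b) k l (sg (!b) * (k i / (2 * Real.pi * nn k))) x
  have h1 : qq b k i = fun y => (sg (!b) * (k i / (2 * Real.pi * nn k))) * trg (!b) k y := rfl
  rw [h1, h, Bool.not_not]
  have h2 : sg (!b) * (k i / (2 * Real.pi * nn k)) * (sg (!b) * trg b k x * (2 * Real.pi * k l)) =
      (sg (!b) * sg (!b)) * (k i / (2 * Real.pi * nn k) * (2 * Real.pi * k l) * trg b k x) := by
    ring
  rw [h2, sg_sq, one_mul]
  by_cases h3 : nn k = 0
  · rw [nn_zero h3 i]
    simp
  · have hp := Real.pi_pos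
    field_simp

theorem decomp (b : Bool) (k : Fin 3 → ℤ) (i : Fin 3) (y : V) (x : V) :
    y i * trg b k x = (∑ l, y l * ww b k i x l) + ∑ l, y l * partialD 1 l (qq b k i) x := by
  rw [← Finset.sum_add_distrib]
  have h1 : ∀ l, y l * ww b k i x l + y l * partialD 1 l (qq b k i) x =
      if l = i then y l * trg b k x else 0 := by
    intro l
    rw [pD_qq]
    unfold ww cf
    split_ifs <;> ring
  simp only [h1]
  rw [Finset.sum_ite_eq' Finset.univ i, if_pos (Finset.mem_univ i)]

theorem test_const {w : V → V} (hw : Smooth w) : Test (fun _ => w) := by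
  refine ⟨?_, fun _ _ => hw.per, fun _ _ => hw.divfree⟩
  exact (hw.smooth.comp contDiff_snd).contDiffOn

/-! ### time shift and energy -/

theorem shift {n : ℕ} {ν : ℝ} {α : Fin 3 → ℝ} {v : ℝ → V → V} {p : ℝ → V → ℝ}
    (h : IsSol n ν α (Ici 0) v p) {s : ℝ} (hs : 0 ≤ s) :
    IsSol n ν α (Ici 0) (fun t => v (s + t)) (fun t => p (s + t)) := by
  have hmem : ∀ t ∈ Ici (0 : ℝ), s + t ∈ Ici (0 : ℝ) := by
    intro t ht
    have : (0 : ℝ) ≤ t := ht
    change (0 : ℝ) ≤ s + t
    linarith
  have hc : ContDiff ℝ ∞ (fun z : ℝ × V => ((s + z.1, z.2) : ℝ × V)) := by fun_prop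
  refine ⟨?_, ?_, fun t ht => h.per_u _ (hmem t ht), fun t ht => h.per_p _ (hmem t ht),
    fun t ht => h.divfree _ (hmem t ht), fun t ht h0 x i => ?_⟩
  · exact h.smooth_u.comp hc.contDiffOn fun z hz => ⟨hmem _ hz.1, hz.2⟩
  · exact h.smooth_p.comp hc.contDiffOn fun z hz => ⟨hmem _ hz.1, hz.2⟩
  · have h1 := h.momentum (s + t) (hmem t ht) (by linarith) x i
    rw [← h1]
    congr 1
    exact deriv_comp_const_add s (f := fun r => v r x i) (x := t)

theorem energy (h4 : A4) {n : ℕ} {ν : ℝ} (hν : 0 < ν) {α : Fin 3 → ℝ} {v : ℝ → V → V}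
    {p : ℝ → V → ℝ} (hn : Odd n) (h : IsSol n ν α (Ici 0) v p) {t : ℝ} (ht : 0 ≤ t) :
    ∫ x in Q, ∑ i, v t x i ^ 2 ≤ ∫ x in Q, ∑ i, v 0 x i ^ 2 := by
  have h1 := h4 n ν α v p hn h t ht
  unfold EnergyEq at h1
  have h2 : 0 ≤ ∫ s in (0 : ℝ)..t, ∫ x in Q, ∑ i, ∑ j, grd v s x i j ^ 2 := by
    refine intervalIntegral.integral_nonneg ht fun s _ => ?_
    exact integral_nonneg fun x => Finset.sum_nonneg fun i _ => Finset.sum_nonneg fun j _ =>
      sq_nonneg _
  have h3 := mul_nonneg hν.le h2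
  linarith

/-! ### the bound at one time -/

theorem sum9 (f : Fin 3 → Fin 3 → ℝ) (K : ℝ) (h : ∀ i j, |f i j| ≤ K) :
    |∑ i, ∑ j, f i j| ≤ 9 * K := by
  refine (Finset.abs_sum_le_sum_abs _ _).trans ?_
  refine (Finset.sum_le_sum fun i _ => (Finset.abs_sum_le_sum_abs _ _).trans
    (Finset.sum_le_sum fun j _ => h i j)).trans (le_of_eq ?_)
  simp only [Finset.sum_const, Finset.card_univ, Fintype.card_fin, nsmul_eq_mul]
  norm_num
  ring

theorem bound {n : ℕ} {ν : ℝ} {α : Fin 3 → ℝ} {A M : ℝ} (hν : 0 < ν) (hA : ∀ j, |α j| ≤ A)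
    {w : V → V} (hw : Smooth w)
    (hb : ∀ x ∈ Q, ∀ i j, |partialD 1 j (fun y => w y i) x| ≤ M ∧
      |partialD 1 j (partialD 1 j (fun y => w y i)) x| ≤ M ∧
      |partialD n j (fun y => w y i) x| ≤ M)
    {u : V → V} {G : V → Fin 3 → Fin 3 → ℝ} (hu : Continuous u)
    (hG : ∀ i j, Continuous fun x => G x i j)
    (hgr : ∀ ψ : V → ℝ, ContDiff ℝ ∞ ψ → Periodic ψ → ∀ i j,
      ∫ x in Q, u x i * partialD 1 j ψ x = -∫ x in Q, G x i j * ψ x)
    {r : ℝ} :
    |∫ x in Q, ((∑ i, u x i * deriv (fun _ : ℝ => w x i) r)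
          + (∑ i, ∑ j, u x i * u x j * partialD 1 j (fun y => w y i) x)
          - ν * (∑ i, ∑ j, G x i j * partialD 1 j (fun y => w y i) x)
          - ∑ i, ∑ j, α j * (u x i * partialD n j (fun y => w y i) x))| ≤
      9 * M * (1 + ν + A) * ((volume Q).toReal + ∫ x in Q, ∑ i, u x i ^ 2) := by
  have hA0 : 0 ≤ A := (abs_nonneg _).trans (hA 0)
  have hui : ∀ i, Continuous fun x => u x i := fun i => (continuous_apply i).comp hu
  have hws : ∀ i, ContDiff ℝ ∞ (fun y => w y i) := comp_smooth hw.smooth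
  have hw1 : ∀ i j, Continuous (partialD 1 j (fun y => w y i)) := fun i j => cont_pD 1 j (hws i)
  have hw2 : ∀ i j, Continuous (partialD 1 j (partialD 1 j (fun y => w y i))) := fun i j =>
    cont_pD 1 j (smooth_pD1 j (hws i))
  have hwn : ∀ i j, Continuous (partialD n j (fun y => w y i)) := fun i j => cont_pD n j (hws i)
  -- the terms
  have cb : Continuous fun x => ∑ i, ∑ j, u x i * u x j * partialD 1 j (fun y => w y i) x :=
    continuous_finsetSum _ fun i _ => continuous_finsetSum _ fun j _ =>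
      ((hui i).mul (hui j)).mul (hw1 i j)
  have cc : Continuous fun x => ∑ i, ∑ j, G x i j * partialD 1 j (fun y => w y i) x :=
    continuous_finsetSum _ fun i _ => continuous_finsetSum _ fun j _ => (hG i j).mul (hw1 i j)
  have cc' : Continuous fun x =>
      ∑ i, ∑ j, u x i * partialD 1 j (partialD 1 j (fun y => w y i)) x :=
    continuous_finsetSum _ fun i _ => continuous_finsetSum _ fun j _ => (hui i).mul (hw2 i j)
  have cd : Continuous fun x => ∑ i, ∑ j, α j * (u x i * partialD n j (fun y => w y i) x) :=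
    continuous_finsetSum _ fun i _ => continuous_finsetSum _ fun j _ =>
      continuous_const.mul ((hui i).mul (hwn i j))
  have cS : Continuous fun x => ∑ i, u x i ^ 2 :=
    continuous_finsetSum _ fun i _ => (hui i).pow 2
  have hc : ∫ x in Q, ∑ i, ∑ j, G x i j * partialD 1 j (fun y => w y i) x =
      -∫ x in Q, ∑ i, ∑ j, u x i * partialD 1 j (partialD 1 j (fun y => w y i)) x := by
    rw [int_sum2 (f := fun i j x => G x i j * partialD 1 j (fun y => w y i) x)
        fun i j => (hG i j).mul (hw1 i j),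
      int_sum2 (f := fun i j x => u x i * partialD 1 j (partialD 1 j (fun y => w y i)) x)
        fun i j => (hui i).mul (hw2 i j), ← Finset.sum_neg_distrib]
    refine Finset.sum_congr rfl fun i _ => ?_
    rw [← Finset.sum_neg_distrib]
    refine Finset.sum_congr rfl fun j _ => ?_
    have hp : Periodic (fun y => w y i) := fun l x => congrFun (hw.per l x) i
    rw [hgr _ (smooth_pD1 j (hws i)) (per_pD1 j hp) i j, neg_neg]
  have hF : ∫ x in Q, ((∑ i, u x i * deriv (fun _ : ℝ => w x i) r)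
          + (∑ i, ∑ j, u x i * u x j * partialD 1 j (fun y => w y i) x)
          - ν * (∑ i, ∑ j, G x i j * partialD 1 j (fun y => w y i) x)
          - ∑ i, ∑ j, α j * (u x i * partialD n j (fun y => w y i) x)) =
      ∫ x in Q, ((∑ i, ∑ j, u x i * u x j * partialD 1 j (fun y => w y i) x)
          + ν * (∑ i, ∑ j, u x i * partialD 1 j (partialD 1 j (fun y => w y i)) x)
          - ∑ i, ∑ j, α j * (u x i * partialD n j (fun y => w y i) x)) := by
    simp only [deriv_const, mul_zero, Finset.sum_const_zero, zero_add]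
    rw [int3 ν cb cc cd, int3' ν cb cc' cd, hc]
    ring
  rw [hF]
  have hvol : (volume Q).toReal = ∫ _ in Q, (1 : ℝ) := by
    rw [setIntegral_const, smul_eq_mul, mul_one]
    rfl
  rw [hvol, ← integral_add (intQ continuous_const) (intQ cS), ← integral_const_mul]
  refine abs_integral_le_integral_abs.trans ?_
  refine setIntegral_mono_on
    (intQ ((cb.add (continuous_const.mul cc')).sub cd)).abs
    (intQ (continuous_const.mul (continuous_const.add cS))) measurableSet_Icc fun x hx => ?_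
  obtain ⟨S, hS⟩ : ∃ S, S = ∑ i, u x i ^ 2 := ⟨_, rfl⟩
  have hS0 : 0 ≤ S := by
    rw [hS]
    exact Finset.sum_nonneg fun i _ => sq_nonneg _
  have hSi : ∀ i, u x i ^ 2 ≤ S := fun i => by
    rw [hS]
    exact Finset.single_le_sum (f := fun i => u x i ^ 2) (fun l _ => sq_nonneg _)
      (Finset.mem_univ i)
  have h1 : ∀ i, |u x i| ≤ 1 + S := by
    intro i
    have := hSi i
    have h2 := sq_abs (u x i)
    nlinarith [sq_nonneg (|u x i| - 1), abs_nonneg (u x i)]
  have h2 : ∀ i j, |u x i * u x j| ≤ 1 + S := by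
    intro i j
    have e1 := hSi i
    have e2 := hSi j
    rw [abs_mul]
    have h3 := sq_abs (u x i)
    have h4 := sq_abs (u x j)
    nlinarith [sq_nonneg (|u x i| - |u x j|)]
  have t1 := sum9 (fun i j => u x i * u x j * partialD 1 j (fun y => w y i) x) ((1 + S) * M)
    (fun i j => by
      rw [abs_mul]
      exact mul_le_mul (h2 i j) (hb x hx i j).1 (abs_nonneg _) (by linarith))
  have t2 := sum9 (fun i j => u x i * partialD 1 j (partialD 1 j (fun y => w y i)) x)
    ((1 + S) * M) (fun i j => by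
      rw [abs_mul]
      exact mul_le_mul (h1 i) (hb x hx i j).2.1 (abs_nonneg _) (by linarith))
  have t3 := sum9 (fun i j => α j * (u x i * partialD n j (fun y => w y i) x))
    (A * ((1 + S) * M)) (fun i j => by
      rw [abs_mul, abs_mul]
      refine mul_le_mul (hA j) ?_ (by positivity) hA0
      exact mul_le_mul (h1 i) (hb x hx i j).2.2 (abs_nonneg _) (by linarith))
  rw [← hS]
  have t4 : |ν * ∑ i, ∑ j, u x i * partialD 1 j (partialD 1 j (fun y => w y i)) x| ≤
      ν * (9 * ((1 + S) * M)) := by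
    rw [abs_mul, abs_of_pos hν]
    exact mul_le_mul_of_nonneg_left t2 hν.le
  have t5 := abs_sub ((∑ i, ∑ j, u x i * u x j * partialD 1 j (fun y => w y i) x)
      + ν * (∑ i, ∑ j, u x i * partialD 1 j (partialD 1 j (fun y => w y i)) x))
      (∑ i, ∑ j, α j * (u x i * partialD n j (fun y => w y i) x))
  have t6 := abs_add_le (∑ i, ∑ j, u x i * u x j * partialD 1 j (fun y => w y i) x)
    (ν * (∑ i, ∑ j, u x i * partialD 1 j (partialD 1 j (fun y => w y i)) x))
  have t7 : 9 * M * (1 + ν + A) * (1 + S) = 9 * ((1 + S) * M) + ν * (9 * ((1 + S) * M)) +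
      9 * (A * ((1 + S) * M)) := by ring
  linarith

theorem exM (n : ℕ) {w : V → V} (hw : Smooth w) : ∃ M : ℝ, 0 ≤ M ∧
    ∀ x ∈ Q, ∀ i j, |partialD 1 j (fun y => w y i) x| ≤ M ∧
      |partialD 1 j (partialD 1 j (fun y => w y i)) x| ≤ M ∧
      |partialD n j (fun y => w y i) x| ≤ M := by
  have hws : ∀ i, ContDiff ℝ ∞ (fun y => w y i) := comp_smooth hw.smooth
  have hbd : ∀ f : V → ℝ, Continuous f → ∃ M : ℝ, ∀ x ∈ Q, |f x| ≤ M := fun f hf =>
    (isCompact_Icc : IsCompact Q).exists_bound_of_continuousOn hf.continuousOn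
  choose M1 hM1 using fun (p : Fin 3 × Fin 3) => hbd _ (cont_pD 1 p.2 (hws p.1))
  choose M2 hM2 using fun (p : Fin 3 × Fin 3) => hbd _ (cont_pD 1 p.2 (smooth_pD1 p.2 (hws p.1)))
  choose M3 hM3 using fun (p : Fin 3 × Fin 3) => hbd _ (cont_pD n p.2 (hws p.1))
  refine ⟨∑ p, (|M1 p| + |M2 p| + |M3 p|), Finset.sum_nonneg fun p _ => by positivity,
    fun x hx i j => ?_⟩
  have h1 : |M1 (i, j)| + |M2 (i, j)| + |M3 (i, j)| ≤ ∑ p, (|M1 p| + |M2 p| + |M3 p|) :=
    Finset.single_le_sum (f := fun p => |M1 p| + |M2 p| + |M3 p|) (fun p _ => by positivity)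
      (Finset.mem_univ (i, j))
  have e1 := abs_nonneg (M1 (i, j))
  have e2 := abs_nonneg (M2 (i, j))
  have e3 := abs_nonneg (M3 (i, j))
  refine ⟨?_, ?_, ?_⟩
  · have := (hM1 (i, j) x hx).trans (le_abs_self _)
    linarith
  · have := (hM2 (i, j) x hx).trans (le_abs_self _)
    linarith
  · have := (hM3 (i, j) x hx).trans (le_abs_self _)
    linarith

end D1L

open D1L in
theorem d1 (h0 : A0) (h4 : A4) (h9 : A9) : D1 := by
  intro n ν α E b k i hν hn
  obtain ⟨M, hM0, hM⟩ := exM n (smooth_ww b k i)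
  obtain ⟨A, hA⟩ : ∃ A, A = ∑ j, |α j| := ⟨_, rfl⟩
  have hAj : ∀ j, |α j| ≤ A := fun j => by
    rw [hA]
    exact Finset.single_le_sum (f := fun j => |α j|) (fun l _ => abs_nonneg _)
      (Finset.mem_univ j)
  have hA0 : 0 ≤ A := (abs_nonneg _).trans (hAj 0)
  refine ⟨9 * M * (1 + ν + A) * ((volume Q).toReal + |E|), by positivity, ?_⟩
  intro v p hv hE s t hs hst
  have hv' := shift hv hs
  have hL := h9 n ν α _ _ (t - s) hn hv'
  have hw := smooth_ww b k i
  obtain ⟨a1, -, -⟩ := h0 (fun t => v (s + t)) hv'.smooth_u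
  have hT : t - s ∈ Icc 0 (t - s) := ⟨by linarith, le_rfl⟩
  have hT0 : (0 : ℝ) ∈ Icc 0 (t - s) := ⟨le_rfl, by linarith⟩
  -- Fourier coefficients are the pairings with the test field
  have hpair : ∀ r ∈ Icc 0 (t - s), ∫ x in Q, v (s + r) x i * trg b k x =
      ∫ x in Q, ∑ l, v (s + r) x l * ww b k i x l := by
    intro r hr
    have h1 := hL.divfree r hr (qq b k i) (smooth_qq b k i) (per_qq b k i)
    rw [max_eq_left hr.1] at h1
    have hc := (a1 r hr.1).continuous
    have hci : ∀ l, Continuous fun x => v (s + r) x l := fun l => (continuous_apply l).comp hc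
    have h2 : ∫ x in Q, v (s + r) x i * trg b k x =
        ∫ x in Q, ((∑ l, v (s + r) x l * ww b k i x l) +
          ∑ l, v (s + r) x l * partialD 1 l (qq b k i) x) := by
      refine integral_congr_ae (Filter.Eventually.of_forall fun x => ?_)
      exact decomp b k i (v (s + r) x) x
    have c1 : Continuous fun x => ∑ l, v (s + r) x l * ww b k i x l :=
      continuous_finsetSum _ fun l _ => (hci l).mul (comp_smooth hw.smooth l).continuous
    have c2 : Continuous fun x => ∑ l, v (s + r) x l * partialD 1 l (qq b k i) x :=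
      continuous_finsetSum _ fun l _ => (hci l).mul (cont_pD 1 l (smooth_qq b k i))
    rw [h2, integral_add (intQ c1) (intQ c2), h1, add_zero]
  have hweak := hL.weak (fun _ => ww b k i) (test_const hw) (t - s) hT
  rw [max_eq_left hT.1] at hweak
  have e1 := hpair (t - s) hT
  have e2 := hpair 0 hT0
  rw [add_sub_cancel] at e1
  rw [add_zero] at e2
  rw [e1, e2]
  rw [add_sub_cancel, add_zero] at hweak
  rw [hweak]
  have hfin := intervalIntegral.norm_integral_le_of_norm_le_const_ae (a := 0) (b := t - s)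
    (C := 9 * M * (1 + ν + A) * ((volume Q).toReal + |E|))
    (f := fun r : ℝ => ∫ x in Q,
      ((∑ l, v (s + max r 0) x l * deriv (fun _ : ℝ => ww b k i x l) r)
          + (∑ l, ∑ j, v (s + max r 0) x l * v (s + max r 0) x j *
            partialD 1 j (fun y => ww b k i y l) x)
          - ν * (∑ l, ∑ j, grd (fun t => v (s + t)) (max r 0) x l j *
            partialD 1 j (fun y => ww b k i y l) x)
          - ∑ l, ∑ j, α j * (v (s + max r 0) x l * partialD n j (fun y => ww b k i y l) x))) ?_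
  · rw [sub_zero, abs_of_nonneg (by linarith : 0 ≤ t - s)] at hfin
    exact hfin
  · have hg := (ae_restrict_iff' measurableSet_Icc).1 hL.grad
    filter_upwards [hg] with r hr hri
    rw [uIoc_of_le hT.1] at hri
    have hr' : r ∈ Icc 0 (t - s) := ⟨hri.1.le, hri.2⟩
    have hr0 : (0 : ℝ) ≤ max r 0 := le_max_right _ _
    have hsm : Continuous (v (s + max r 0)) := (a1 _ hr0).continuous
    have hgc : ∀ l j, Continuous fun x => grd (fun t => v (s + t)) (max r 0) x l j := by
      intro l j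
      exact cont_pD 1 j (comp_smooth (a1 _ hr0) l)
    have hbd := bound (n := n) (ν := ν) (α := α) (A := A) (M := M) hν hAj hw hM hsm hgc
      (hr hr') (r := r)
    rw [Real.norm_eq_abs]
    refine hbd.trans ?_
    refine mul_le_mul_of_nonneg_left ?_ (by positivity)
    have hen := energy h4 hν hn hv (t := s + max r 0) (by linarith)
    have := le_abs_self E
    linarith

end Pool.Agent.H303.DEE
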