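import Pool.Agent.H303.DEE.Stm
import Pool.Graph.R_seed8.H459R3.NS.Evo

/-!
A smooth solution is a Leray-Hopf solution.
-/

set_option autoImplicit false

open MeasureTheory Set Filter Topology
open scoped ContDiff ENNReal
open H459R3.NS (SP Per pd cube ibp integral_pd)

namespace Pool.Agent.H303.DEE.T9

/-! ### partial derivatives -/

theorem pD_zero (j : Fin 3) (f : V → ℝ) : partialD 0 j f = f := by
  funext x
  unfold partialD
  rw [iteratedFDeriv_zero_apply]

theorem pD_succ {f : V → ℝ} (hf : ContDiff ℝ ∞ f) (n : ℕ) (j : Fin 3) :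
    partialD (n + 1) j f = pd j (partialD n j f) := by
  funext x
  unfold partialD
  rw [iteratedFDeriv_succ_apply_left]
  unfold H459R3.NS.pd
  have hd : DifferentiableAt ℝ (iteratedFDeriv ℝ n f) x :=
    (hf.differentiable_iteratedFDeriv (by exact_mod_cast WithTop.coe_lt_top n)) x
  have h1 : HasFDerivAt (fun y => iteratedFDeriv ℝ n f y
      (fun _ => Pi.single j (1 : ℝ)))
      ((ContinuousMultilinearMap.apply ℝ (fun _ : Fin n => V) ℝ
        (fun _ => Pi.single j (1 : ℝ))).comp
          (fderiv ℝ (iteratedFDeriv ℝ n f) x)) x :=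
    (ContinuousMultilinearMap.apply ℝ (fun _ : Fin n => V) ℝ
        (fun _ => Pi.single j (1 : ℝ))).hasFDerivAt.comp x hd.hasFDerivAt
  rw [h1.fderiv]
  rfl

theorem pD_one {f : V → ℝ} (hf : ContDiff ℝ ∞ f) (j : Fin 3) : partialD 1 j f = pd j f := by
  rw [pD_succ hf, pD_zero]

theorem pD_two {f : V → ℝ} (hf : ContDiff ℝ ∞ f) (j : Fin 3) :
    partialD 2 j f = pd j (pd j f) := by
  rw [pD_succ hf, pD_one hf]

theorem sp_pD {f : V → ℝ} (hf : SP f) (n : ℕ) (j : Fin 3) : SP (partialD n j f) := by
  induction n with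
  | zero => rw [pD_zero]; exact hf
  | succ n ih =>
    rw [pD_succ hf.smooth]
    exact ih.pd j

theorem pD_pd {f : V → ℝ} (hf : SP f) (n : ℕ) (j : Fin 3) :
    partialD n j (pd j f) = pd j (partialD n j f) := by
  induction n with
  | zero => rw [pD_zero, pD_zero]
  | succ n ih => rw [pD_succ (hf.pd j).smooth, ih, pD_succ hf.smooth]

theorem ibp_n (n : ℕ) (j : Fin 3) : ∀ {f g : V → ℝ}, SP f → SP g →
    ∫ x in cube, partialD n j f x * g x = (-1) ^ n * ∫ x in cube, f x * partialD n j g x := by
  induction n with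
  | zero =>
    intro f g hf hg
    rw [pD_zero, pD_zero, pow_zero, one_mul]
  | succ n ih =>
    intro f g hf hg
    rw [pD_succ hf.smooth, ibp (sp_pD hf n j) hg j, ih hf (hg.pd j), pD_pd hg,
      pD_succ hg.smooth, pow_succ]
    ring

theorem int_sum2 {f : Fin 3 → Fin 3 → V → ℝ} (hf : ∀ i j, Continuous (f i j)) :
    ∫ x in cube, ∑ i, ∑ j, f i j x = ∑ i, ∑ j, ∫ x in cube, f i j x := by
  rw [integral_finsetSum _ fun i _ => H459R3.NS.integrableOn_cube
    (continuous_finsetSum _ fun j _ => hf i j)]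
  refine Finset.sum_congr rfl fun i _ => ?_
  rw [integral_finsetSum _ fun j _ => H459R3.NS.integrableOn_cube (hf i j)]

theorem int_sum1 {f : Fin 3 → V → ℝ} (hf : ∀ i, Continuous (f i)) :
    ∫ x in cube, ∑ i, f i x = ∑ i, ∫ x in cube, f i x := by
  rw [integral_finsetSum _ fun i _ => H459R3.NS.integrableOn_cube (hf i)]

theorem int4 {a b c d : V → ℝ} (ha : Continuous a) (hb : Continuous b) (hc : Continuous c)
    (hd : Continuous d) : ∫ x in cube, (a x + b x - c x - d x) =
      (∫ x in cube, a x) + (∫ x in cube, b x) - (∫ x in cube, c x) - ∫ x in cube, d x := by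
  rw [integral_sub (f := fun x => a x + b x - c x)
      (H459R3.NS.integrableOn_cube ((ha.add hb).sub hc)) (H459R3.NS.integrableOn_cube hd),
    integral_sub (f := fun x => a x + b x) (H459R3.NS.integrableOn_cube (ha.add hb))
      (H459R3.NS.integrableOn_cube hc),
    integral_add (H459R3.NS.integrableOn_cube ha) (H459R3.NS.integrableOn_cube hb)]

theorem int3 {a b c : V → ℝ} (ha : Continuous a) (hb : Continuous b) (hc : Continuous c) :
    ∫ x in cube, (a x - b x - c x) =
      (∫ x in cube, a x) - (∫ x in cube, b x) - ∫ x in cube, c x := by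
  rw [integral_sub (f := fun x => a x - b x)
      (H459R3.NS.integrableOn_cube (ha.sub hb)) (H459R3.NS.integrableOn_cube hc),
    integral_sub (H459R3.NS.integrableOn_cube ha) (H459R3.NS.integrableOn_cube hb)]

/-! ### the identity at one time -/

section fixed

variable {n : ℕ} {ν : ℝ} {α : Fin 3 → ℝ} {v φ dv : Fin 3 → V → ℝ} {p : V → ℝ}

theorem conv_id (hv : ∀ i, SP (v i)) (hφ : ∀ i, SP (φ i))
    (hdiv : ∀ x, ∑ i, pd i (v i) x = 0) (i : Fin 3) :
    ∑ j, ∫ x in cube, v j x * pd j (v i) x * φ i x =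
      -∑ j, ∫ x in cube, v i x * v j x * pd j (φ i) x := by
  have h1 : ∀ j, ∫ x in cube, v j x * pd j (v i) x * φ i x =
      -(∫ x in cube, v i x * v j x * pd j (φ i) x) -
        ∫ x in cube, pd j (v j) x * (v i x * φ i x) := by
    intro j
    have e1 : ∫ x in cube, v j x * pd j (v i) x * φ i x =
        ∫ x in cube, pd j (v i) x * (v j x * φ i x) := by
      congr 1
      funext x
      ring
    rw [e1, ibp (hv i) ((hv j).mul (hφ i)) j]
    have e2 : ∀ x, v i x * pd j (fun y => v j y * φ i y) x =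
        v i x * v j x * pd j (φ i) x + pd j (v j) x * (v i x * φ i x) := by
      intro x
      rw [H459R3.NS.pd_mul (hv j) (hφ i)]
      ring
    simp_rw [e2]
    rw [integral_add (((hv i).mul (hv j)).mul ((hφ i).pd j)).int
      (((hv j).pd j).mul ((hv i).mul (hφ i))).int]
    ring
  simp_rw [h1]
  rw [Finset.sum_sub_distrib, Finset.sum_neg_distrib]
  have h2 : ∑ j, ∫ x in cube, pd j (v j) x * (v i x * φ i x) = 0 := by
    rw [← int_sum1 fun j => (((hv j).pd j).mul ((hv i).mul (hφ i))).cont]
    simp_rw [← Finset.sum_mul, hdiv]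
    simp
  rw [h2, sub_zero]

theorem weak_id (hn : Odd n) (hv : ∀ i, SP (v i)) (hφ : ∀ i, SP (φ i)) (hp : SP p)
    (hdiv : ∀ x, ∑ i, pd i (v i) x = 0) (hdivφ : ∀ x, ∑ i, pd i (φ i) x = 0)
    (hmom : ∀ x i, dv i x + ∑ j, v j x * pd j (v i) x =
      ν * ∑ j, pd j (pd j (v i)) x + ∑ j, α j * partialD n j (v i) x - pd i p x) :
    ∫ x in cube, ∑ i, dv i x * φ i x =
      ∫ x in cube, ((∑ i, ∑ j, v i x * v j x * pd j (φ i) x) -
        ν * (∑ i, ∑ j, pd j (v i) x * pd j (φ i) x) -
        ∑ i, ∑ j, α j * (v i x * partialD n j (φ i) x)) := by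
  have c1 : ∀ i j, Continuous fun x => pd j (pd j (v i)) x * φ i x := fun i j =>
    (((((hv i).pd j).pd j)).mul (hφ i)).cont
  have c2 : ∀ i j, Continuous fun x => partialD n j (v i) x * φ i x := fun i j =>
    ((sp_pD (hv i) n j).mul (hφ i)).cont
  have c3 : ∀ i, Continuous fun x => φ i x * pd i p x := fun i => ((hφ i).mul (hp.pd i)).cont
  have c4 : ∀ i j, Continuous fun x => v j x * pd j (v i) x * φ i x := fun i j =>
    (((hv j).mul ((hv i).pd j)).mul (hφ i)).cont
  have d1 : ∀ i j, Continuous fun x => pd j (v i) x * pd j (φ i) x := fun i j =>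
    (((hv i).pd j).mul ((hφ i).pd j)).cont
  have d2 : ∀ i j, Continuous fun x => v i x * partialD n j (φ i) x := fun i j =>
    ((hv i).mul (sp_pD (hφ i) n j)).cont
  have d4 : ∀ i j, Continuous fun x => v i x * v j x * pd j (φ i) x := fun i j =>
    (((hv i).mul (hv j)).mul ((hφ i).pd j)).cont
  -- left side
  have e1 : ∀ x, ∑ i, dv i x * φ i x = ν * (∑ i, ∑ j, pd j (pd j (v i)) x * φ i x) +
      (∑ i, ∑ j, α j * (partialD n j (v i) x * φ i x)) - (∑ i, φ i x * pd i p x) -
      ∑ i, ∑ j, v j x * pd j (v i) x * φ i x := by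
    intro x
    have h1 : ∀ i, dv i x * φ i x = ν * (∑ j, pd j (pd j (v i)) x * φ i x) +
      (∑ j, α j * (partialD n j (v i) x * φ i x)) - φ i x * pd i p x -
      ∑ j, v j x * pd j (v i) x * φ i x := by
      intro i
      have h2 : dv i x = ν * ∑ j, pd j (pd j (v i)) x + ∑ j, α j * partialD n j (v i) x -
          pd i p x - ∑ j, v j x * pd j (v i) x := by
        have := hmom x i
        linarith
      rw [h2, ← Finset.sum_mul, ← Finset.sum_mul]
      have h3 : ∑ j, α j * (partialD n j (v i) x * φ i x) =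
          (∑ j, α j * partialD n j (v i) x) * φ i x := by
        rw [Finset.sum_mul]
        exact Finset.sum_congr rfl fun j _ => by ring
      rw [h3]
      ring
    simp_rw [h1]
    rw [Finset.sum_sub_distrib, Finset.sum_sub_distrib, Finset.sum_add_distrib, ← Finset.mul_sum]
  simp_rw [e1]
  have i1 : Continuous fun x => ν * (∑ i, ∑ j, pd j (pd j (v i)) x * φ i x) :=
    continuous_const.mul (continuous_finsetSum _ fun i _ => continuous_finsetSum _ fun j _ =>
      c1 i j)
  have i2 : Continuous fun x => ∑ i, ∑ j, α j * (partialD n j (v i) x * φ i x) :=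
    continuous_finsetSum _ fun i _ => continuous_finsetSum _ fun j _ =>
      continuous_const.mul (c2 i j)
  have i3 : Continuous fun x => ∑ i, φ i x * pd i p x := continuous_finsetSum _ fun i _ => c3 i
  have i4 : Continuous fun x => ∑ i, ∑ j, v j x * pd j (v i) x * φ i x :=
    continuous_finsetSum _ fun i _ => continuous_finsetSum _ fun j _ => c4 i j
  have k1 : Continuous fun x => ν * (∑ i, ∑ j, pd j (v i) x * pd j (φ i) x) :=
    continuous_const.mul (continuous_finsetSum _ fun i _ => continuous_finsetSum _ fun j _ =>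
      d1 i j)
  have k2 : Continuous fun x => ∑ i, ∑ j, α j * (v i x * partialD n j (φ i) x) :=
    continuous_finsetSum _ fun i _ => continuous_finsetSum _ fun j _ =>
      continuous_const.mul (d2 i j)
  have k4 : Continuous fun x => ∑ i, ∑ j, v i x * v j x * pd j (φ i) x :=
    continuous_finsetSum _ fun i _ => continuous_finsetSum _ fun j _ => d4 i j
  have c2' : ∀ i j, Continuous fun x => α j * (partialD n j (v i) x * φ i x) := fun i j =>
    continuous_const.mul (c2 i j)
  have d2' : ∀ i j, Continuous fun x => α j * (v i x * partialD n j (φ i) x) := fun i j =>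
    continuous_const.mul (d2 i j)
  rw [int4 i1 i2 i3 i4, int3 k4 k1 k2, integral_const_mul, integral_const_mul, int_sum2 c1,
    int_sum2 c2', int_sum1 c3, int_sum2 c4, int_sum2 d4,
    int_sum2 d1, int_sum2 d2']
  simp_rw [integral_const_mul]
  have f1 : ∀ i j, ∫ x in cube, pd j (pd j (v i)) x * φ i x =
      -∫ x in cube, pd j (v i) x * pd j (φ i) x := fun i j => ibp ((hv i).pd j) (hφ i) j
  have f2 : ∀ i j, ∫ x in cube, partialD n j (v i) x * φ i x =
      -∫ x in cube, v i x * partialD n j (φ i) x := fun i j => by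
    rw [ibp_n n j (hv i) (hφ i), hn.neg_one_pow]
    ring
  have f3 : ∑ i, ∫ x in cube, φ i x * pd i p x = 0 := H459R3.NS.int_press hφ hdivφ hp
  have f4 : ∀ i, ∑ j, ∫ x in cube, v j x * pd j (v i) x * φ i x =
      -∑ j, ∫ x in cube, v i x * v j x * pd j (φ i) x := conv_id hv hφ hdiv
  simp_rw [f1, f2, f3, f4]
  simp only [mul_neg, Finset.sum_neg_distrib]
  ring

end fixed

/-! ### space-time -/

/-- the half space -/
abbrev HS : Set (ℝ × V) := Ici 0 ×ˢ univ

theorem uniqueHS : UniqueDiffOn ℝ HS := (uniqueDiffOn_Ici 0).prod uniqueDiffOn_univ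

/-- the time derivative up to the boundary -/
noncomputable def Dt (F : ℝ → V → ℝ) (z : ℝ × V) : ℝ :=
  fderivWithin ℝ (fun z : ℝ × V => F z.1 z.2) HS z (1, 0)

theorem cont_Dt {F : ℝ → V → ℝ} (hF : ContDiffOn ℝ ∞ (fun z : ℝ × V => F z.1 z.2) HS) :
    ContinuousOn (Dt F) HS :=
  (hF.continuousOn_fderivWithin uniqueHS (by norm_cast)).clm_apply continuousOn_const

theorem Dt_eq {F : ℝ → V → ℝ} (hF : ContDiffOn ℝ ∞ (fun z : ℝ × V => F z.1 z.2) HS) {t : ℝ}
    (ht : 0 < t) (x : V) : HasDerivAt (fun s => F s x) (Dt F (t, x)) t := by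
  have hF1 : ContDiffOn ℝ 1 (fun z : ℝ × V => F z.1 z.2) (Ioo 0 (t + 1) ×ˢ univ) :=
    (hF.of_le (by norm_cast)).mono (prod_mono (fun s hs => hs.1.le) subset_rfl)
  have h1 := H459R3.NS.hasDerivAt_slice hF1 (t := t) ⟨ht, by linarith⟩ x
  have h2 : fderivWithin ℝ (fun z : ℝ × V => F z.1 z.2) HS (t, x) =
      fderiv ℝ (fun z : ℝ × V => F z.1 z.2) (t, x) := by
    rw [fderivWithin_of_mem_nhds]
    exact prod_mem_nhds (Ici_mem_nhds ht) Filter.univ_mem
  unfold Dt
  rw [h2]
  exact h1

theorem comp_smooth {w : ℝ → V → V} (hw : ContDiffOn ℝ ∞ (fun z : ℝ × V => w z.1 z.2) HS)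
    (i : Fin 3) : ContDiffOn ℝ ∞ (fun z : ℝ × V => w z.1 z.2 i) HS :=
  (contDiffOn_pi.1 hw) i

theorem sp_comp {w : V → V} (hw : ContDiff ℝ ∞ w) (hper : Periodic w) (i : Fin 3) :
    SP (fun y => w y i) :=
  ⟨(contDiff_pi.1 hw) i, fun j x => congrFun (hper j x) i⟩

theorem slice {f : ℝ → V → ℝ} (hf : ContDiffOn ℝ ∞ (fun z : ℝ × V => f z.1 z.2) HS) {t : ℝ}
    (ht : 0 ≤ t) : ContDiff ℝ ∞ (f t) := by
  rw [← contDiffOn_univ]
  exact hf.comp (contDiff_const.prodMk contDiff_id).contDiffOn (fun x _ => ⟨ht, mem_univ _⟩)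

theorem max_cont : Continuous (fun z : ℝ × V => ((max z.1 0, z.2) : ℝ × V)) := by fun_prop

theorem comp_cont {E : Type*} [TopologicalSpace E] {F : ℝ × V → E} (hF : ContinuousOn F HS) :
    Continuous (fun z : ℝ × V => F (max z.1 0, z.2)) :=
  hF.comp_continuous max_cont fun z => ⟨show (0 : ℝ) ≤ max z.1 0 from le_max_right _ _,
    mem_univ _⟩

theorem memLp_compact {X : Type*} [TopologicalSpace X] [T2Space X] [MeasurableSpace X]
    [OpensMeasurableSpace X] [SecondCountableTopology X]
    {μ : Measure X} [IsFiniteMeasureOnCompacts μ]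
    {K : Set X} (hK : IsCompact K) {f : X → ℝ} (hf : Continuous f) :
    MemLp f 2 (μ.restrict K) := by
  obtain ⟨C, hC⟩ := hK.exists_bound_of_continuousOn hf.continuousOn
  have : IsFiniteMeasure (μ.restrict K) := ⟨by
    rw [Measure.restrict_apply_univ]
    exact hK.measure_lt_top⟩
  refine MemLp.of_bound hf.aestronglyMeasurable C ?_
  exact (ae_restrict_iff' hK.measurableSet).2 (Filter.Eventually.of_forall fun x hx => hC x hx)

end T9

open T9 in
theorem t9 (h0 : A0) (h4 : A4) : A9 := by
  intro n ν α v p T hn hs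
  obtain ⟨hv1, hv2, hv3⟩ := h0 v hs.smooth_u
  have hQ : Q = cube := rfl
  have hSPv : ∀ t, 0 ≤ t → ∀ i, SP (fun y => v t y i) := fun t ht i =>
    sp_comp (hv1 t ht) (hs.per_u t ht) i
  have hSPp : ∀ t, 0 ≤ t → SP (p t) := fun t ht => ⟨slice hs.smooth_p ht, hs.per_p t ht⟩
  have hdivv : ∀ t, 0 ≤ t → ∀ x, ∑ i, pd i (fun y => v t y i) x = 0 := by
    intro t ht x
    rw [← hs.divfree t ht x]
    exact Finset.sum_congr rfl fun i _ => (congrFun (pD_one (hSPv t ht i).smooth i) x).symm
  refine ⟨?_, ?_, ?_, ?_, ?_, ?_, ?_, ?_⟩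
  · exact (comp_cont hs.smooth_u.continuousOn).measurable
  · refine measurable_pi_iff.2 fun i => measurable_pi_iff.2 fun j => ?_
    exact (comp_cont (hv2 i j)).measurable
  · intro t ht i
    have hc : Continuous fun x : V => v (max t 0) x i :=
      (hSPv (max t 0) (le_max_right _ _) i).cont
    exact memLp_compact (isCompact_Icc) hc
  · intro i j
    exact memLp_compact (isCompact_Icc.prod isCompact_Icc) (comp_cont (hv2 i j))
  · intro t ht ψ hψ hψp
    have h1 := H459R3.NS.int_press (hSPv (max t 0) (le_max_right _ _))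
      (hdivv (max t 0) (le_max_right _ _)) (q := ψ) ⟨hψ, hψp⟩
    rw [← int_sum1 fun i => ((hSPv (max t 0) (le_max_right _ _) i).mul
      (SP.pd ⟨hψ, hψp⟩ i)).cont] at h1
    rw [hQ]
    simp only [pD_one hψ]
    exact h1
  · refine Filter.Eventually.of_forall fun t ψ hψ hψp i j => ?_
    have h1 := ibp (hSPv (max t 0) (le_max_right _ _) i) (g := ψ) ⟨hψ, hψp⟩ j
    have h2 : grd v (max t 0) = fun x i j => pd j (fun y => v (max t 0) y i) x := by
      funext x i j
      unfold grd
      rw [pD_one (hSPv (max t 0) (le_max_right _ _) i).smooth j]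
    rw [hQ, h2]
    simp only [pD_one hψ]
    linarith
  · intro φ hφ t ht
    obtain ⟨hφ1, hφ2, hφ3⟩ := h0 φ hφ.smooth
    have ht0 : 0 ≤ t := ht.1
    have hSPφ : ∀ t, 0 ≤ t → ∀ i, SP (fun y => φ t y i) := fun t ht i =>
      sp_comp (hφ1 t ht) (hφ.per t ht) i
    have hdivφ : ∀ t, 0 ≤ t → ∀ x, ∑ i, pd i (fun y => φ t y i) x = 0 := by
      intro t ht x
      rw [← hφ.divfree t ht x]
      exact Finset.sum_congr rfl fun i _ => (congrFun (pD_one (hSPφ t ht i).smooth i) x).symm
    -- the right side with the time derivative up to the boundary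
    let H : ℝ → V → ℝ := fun s x => (∑ i, v s x i * Dt (fun s x => φ s x i) (s, x))
          + (∑ i, ∑ j, v s x i * v s x j * partialD 1 j (fun y => φ s y i) x)
          - ν * (∑ i, ∑ j, grd v s x i j * partialD 1 j (fun y => φ s y i) x)
          - ∑ i, ∑ j, α j * (v s x i * partialD n j (fun y => φ s y i) x)
    have hcv : ∀ i, ContinuousOn (fun z : ℝ × V => v z.1 z.2 i) HS := fun i =>
      (comp_smooth hs.smooth_u i).continuousOn
    have hH : ContinuousOn (fun z : ℝ × V => H z.1 z.2) HS := by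
      refine ((ContinuousOn.add ?_ ?_).sub ?_).sub ?_
      · exact continuousOn_finsetSum _ fun i _ => (hcv i).mul
          (cont_Dt (comp_smooth hφ.smooth i))
      · exact continuousOn_finsetSum _ fun i _ => continuousOn_finsetSum _ fun j _ =>
          ((hcv i).mul (hcv j)).mul (hφ3 i j 1)
      · exact continuousOn_const.mul (continuousOn_finsetSum _ fun i _ =>
          continuousOn_finsetSum _ fun j _ => (hv2 i j).mul (hφ3 i j 1))
      · exact continuousOn_finsetSum _ fun i _ => continuousOn_finsetSum _ fun j _ =>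
          continuousOn_const.mul ((hcv i).mul (hφ3 i j n))
    -- the product
    let F : ℝ → V → ℝ := fun s x => ∑ i, v s x i * φ s x i
    have hF : ContDiffOn ℝ ∞ (fun z : ℝ × V => F z.1 z.2) HS :=
      ContDiffOn.sum fun i _ => (comp_smooth hs.smooth_u i).mul (comp_smooth hφ.smooth i)
    have hsub : Ico 0 (t + 1) ×ˢ (univ : Set V) ⊆ HS := prod_mono (fun s hs => hs.1) subset_rfl
    have hsubo : Ioo 0 (t + 1) ×ˢ (univ : Set V) ⊆ HS :=
      prod_mono (fun s hs => hs.1.le) subset_rfl
    have hE : ContinuousOn (fun s => ∫ x in cube, F s x) (Icc 0 t) :=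
      (H459R3.NS.continuousOn_int (hF.continuousOn.mono hsub)).mono
        fun s hs => ⟨hs.1, by linarith [hs.2]⟩
    have hR : ContinuousOn (fun s => ∫ x in cube, H s x) (Icc 0 t) :=
      (H459R3.NS.continuousOn_int (hH.mono hsub)).mono fun s hs => ⟨hs.1, by linarith [hs.2]⟩
    have hder : ∀ s ∈ Ioo 0 t, HasDerivAt (fun s => ∫ x in cube, F s x)
        (∫ x in cube, H s x) s := by
      intro s hst
      have h1 := H459R3.NS.hasDerivAt_int (F := F)
        ((hF.of_le (by norm_cast)).mono hsubo : ContDiffOn ℝ 1 _ _) (t := s)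
        ⟨hst.1, by linarith [hst.2]⟩
      have hs0 : 0 ≤ s := hst.1.le
      have e1 : ∀ x, deriv (fun s => F s x) s =
          (∑ i, Dt (fun s x => v s x i) (s, x) * φ s x i) +
            ∑ i, v s x i * Dt (fun s x => φ s x i) (s, x) := by
        intro x
        have h2 : HasDerivAt (fun s => F s x) (∑ i, (Dt (fun s x => v s x i) (s, x) * φ s x i +
            v s x i * Dt (fun s x => φ s x i) (s, x))) s :=
          HasDerivAt.fun_sum fun i _ => HasDerivAt.fun_mul
            (Dt_eq (F := fun s x => v s x i) (comp_smooth hs.smooth_u i) hst.1 x)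
            (Dt_eq (F := fun s x => φ s x i) (comp_smooth hφ.smooth i) hst.1 x)
        rw [h2.deriv, Finset.sum_add_distrib]
      have hsl : ∀ {G : ℝ × V → ℝ}, ContinuousOn G HS → Continuous fun x : V => G (s, x) := by
        intro G hG
        exact hG.comp_continuous (by fun_prop) fun x => ⟨hs0, mem_univ _⟩
      have c1 : Continuous fun x => ∑ i, Dt (fun s x => v s x i) (s, x) * φ s x i :=
        continuous_finsetSum _ fun i _ => (hsl (cont_Dt (comp_smooth hs.smooth_u i))).mul
          (hSPφ s hs0 i).cont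
      have c2 : Continuous fun x => ∑ i, v s x i * Dt (fun s x => φ s x i) (s, x) :=
        continuous_finsetSum _ fun i _ => (hSPv s hs0 i).cont.mul
          (hsl (cont_Dt (comp_smooth hφ.smooth i)))
      have hmom : ∀ x i, Dt (fun s x => v s x i) (s, x) +
          ∑ j, v s x j * pd j (fun y => v s y i) x =
          ν * ∑ j, pd j (pd j (fun y => v s y i)) x + ∑ j, α j * partialD n j (fun y => v s y i) x
            - pd i (p s) x := by
        intro x i
        have h2 := hs.momentum s hs0 hst.1 x i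
        rw [(Dt_eq (F := fun s x => v s x i) (comp_smooth hs.smooth_u i) hst.1 x).deriv] at h2
        simp only [pD_one (hSPv s hs0 i).smooth, pD_two (hSPv s hs0 i).smooth,
          pD_one (hSPp s hs0).smooth] at h2
        exact h2
      have h3 := weak_id (v := fun i y => v s y i) (φ := fun i y => φ s y i)
        (dv := fun i x => Dt (fun s x => v s x i) (s, x)) hn (hSPv s hs0) (hSPφ s hs0)
        (hSPp s hs0) (hdivv s hs0) (hdivφ s hs0) hmom
      have c3 : Continuous fun x => ((∑ i, ∑ j, v s x i * v s x j * pd j (fun y => φ s y i) x) -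
        ν * (∑ i, ∑ j, pd j (fun y => v s y i) x * pd j (fun y => φ s y i) x) -
        ∑ i, ∑ j, α j * (v s x i * partialD n j (fun y => φ s y i) x)) := by
        refine (Continuous.sub ?_ ?_).sub ?_
        · exact continuous_finsetSum _ fun i _ => continuous_finsetSum _ fun j _ =>
            (((hSPv s hs0 i).mul (hSPv s hs0 j)).mul ((hSPφ s hs0 i).pd j)).cont
        · exact continuous_const.mul (continuous_finsetSum _ fun i _ =>
            continuous_finsetSum _ fun j _ =>
              (((hSPv s hs0 i).pd j).mul ((hSPφ s hs0 i).pd j)).cont)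
        · exact continuous_finsetSum _ fun i _ => continuous_finsetSum _ fun j _ =>
            continuous_const.mul ((hSPv s hs0 i).mul (sp_pD (hSPφ s hs0 i) n j)).cont
      have e2 : (∫ x in cube, deriv (fun s => F s x) s) = ∫ x in cube, H s x := by
        simp_rw [e1]
        rw [integral_add (H459R3.NS.integrableOn_cube c1) (H459R3.NS.integrableOn_cube c2), h3,
          add_comm, ← integral_add (H459R3.NS.integrableOn_cube c2)
            (H459R3.NS.integrableOn_cube c3)]
        refine integral_congr_ae (Filter.Eventually.of_forall fun x => ?_)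
        simp only [H, grd, pD_one (hSPφ s hs0 _).smooth, pD_one (hSPv s hs0 _).smooth]
        ring
      rw [← e2]
      exact h1
    have hftc := intervalIntegral.integral_eq_sub_of_hasDerivAt_of_le ht0 hE hder
      (ContinuousOn.intervalIntegrable (by rwa [uIcc_of_le ht0]))
    have e3 : ∫ s in (0 : ℝ)..t, ∫ x in Q,
          ((∑ i, v (max s 0) x i * deriv (fun r => φ r x i) s)
          + (∑ i, ∑ j, v (max s 0) x i * v (max s 0) x j * partialD 1 j (fun y => φ s y i) x)
          - ν * (∑ i, ∑ j, grd v (max s 0) x i j * partialD 1 j (fun y => φ s y i) x)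
          - ∑ i, ∑ j, α j * (v (max s 0) x i * partialD n j (fun y => φ s y i) x)) =
        ∫ s in (0 : ℝ)..t, ∫ x in cube, H s x := by
      refine intervalIntegral.integral_congr_ae (Filter.Eventually.of_forall fun s hst => ?_)
      rw [uIoc_of_le ht0] at hst
      rw [max_eq_left hst.1.le, hQ]
      refine integral_congr_ae (Filter.Eventually.of_forall fun x => ?_)
      have h5 : ∀ i, deriv (fun r => φ r x i) s = Dt (fun s x => φ s x i) (s, x) := fun i =>
        (Dt_eq (F := fun s x => φ s x i) (comp_smooth hφ.smooth i) hst.1 x).deriv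
      simp only [H, h5]
    rw [e3, hftc, max_eq_left ht0]
    rfl
  · intro t ht
    have h1 := h4 n ν α v p hn hs t ht.1
    unfold EnergyEq at h1
    have e1 : ∫ s in (0 : ℝ)..t, ∫ x in Q, ∑ i, ∑ j, grd v (max s 0) x i j ^ 2 =
        ∫ s in (0 : ℝ)..t, ∫ x in Q, ∑ i, ∑ j, grd v s x i j ^ 2 := by
      refine intervalIntegral.integral_congr fun s hst => ?_
      rw [uIcc_of_le ht.1] at hst
      change ∫ x in Q, ∑ i, ∑ j, grd v (max s 0) x i j ^ 2 =
        ∫ x in Q, ∑ i, ∑ j, grd v s x i j ^ 2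
      rw [max_eq_left hst.1]
    rw [e1, max_eq_left ht.1]
    exact h1.le

end Pool.Agent.H303.DEE
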