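import Pool.Agent.H303.DEE.Stm4
import Pool.Agent.H303.DEE.T9

/-!
The limit of the smooth solutions is a Leray-Hopf solution.
-/

set_option autoImplicit false

open MeasureTheory Set Filter Topology
open scoped ContDiff ENNReal
open H459R3.NS (SP Per pd cube)

namespace Pool.Agent.H303.DEE.D10p

/-- the divergence of a smooth solution, tested with a smooth periodic function -/
theorem div_sol (h0 : A0) {n : ℕ} {ν : ℝ} {α : Fin 3 → ℝ} {v : ℝ → V → V} {p : ℝ → V → ℝ}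
    (hs : IsSol n ν α (Ici 0) v p) {t : ℝ} (ht : 0 ≤ t) {ψ : V → ℝ} (hψ : ContDiff ℝ ∞ ψ)
    (hψp : Periodic ψ) : ∑ j, ∫ x in Q, v t x j * partialD 1 j ψ x = 0 := by
  have hv1 := (h0 v hs.smooth_u).1
  have hSPv : ∀ i, SP (fun y => v t y i) := fun i => T9.sp_comp (hv1 t ht) (hs.per_u t ht) i
  have hdivv : ∀ x, ∑ i, pd i (fun y => v t y i) x = 0 := by
    intro x
    rw [← hs.divfree t ht x]
    exact Finset.sum_congr rfl fun i _ => (congrFun (T9.pD_one (hSPv i).smooth i) x).symm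
  have h1 := H459R3.NS.int_press hSPv hdivv (q := ψ) ⟨hψ, hψp⟩
  simp only [T9.pD_one hψ]
  exact h1

theorem memLp_pD {ψ : V → ℝ} (hψ : ContDiff ℝ ∞ ψ) (hψp : Periodic ψ) (j : Fin 3) :
    MemLp (partialD 1 j ψ) 2 mQ :=
  T9.memLp_compact isCompact_Icc (T9.sp_pD ⟨hψ, hψp⟩ 1 j).cont

end D10p

open D10p in
theorem d10 (h0 : A0) (d7 : D7) (d8 : D8) (d9 : D9) : D10 := by
  intro n ν α T f v p u G hν hn hc
  refine ⟨hc.meas_u, hc.meas_G, hc.l2_u, hc.l2_G, ?_, d7 n ν α T f v p u G hc,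
    d8 n ν α T f v p u G hn hc, d9 n ν α T f v p u G hν hn hc⟩
  intro t ht ψ hψ hψp
  have hm : ∀ j, MemLp (partialD 1 j ψ) 2 mQ := memLp_pD hψ hψp
  have h1 : Tendsto (fun k => ∑ j, ∫ x in Q, v k t x j * partialD 1 j ψ x) atTop
      (𝓝 (∑ j, ∫ x in Q, u t x j * partialD 1 j ψ x)) :=
    tendsto_finsetSum _ fun j _ => hc.wk t ht j _ (hm j)
  have h2 : (fun k => ∑ j, ∫ x in Q, v k t x j * partialD 1 j ψ x) = fun _ => (0 : ℝ) := by
    funext k
    exact div_sol h0 (hc.sol k) ht.1 hψ hψp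
  rw [h2] at h1
  have h3 : ∑ j, ∫ x in Q, u t x j * partialD 1 j ψ x = 0 :=
    tendsto_nhds_unique h1 tendsto_const_nhds
  have h4 : ∫ x in Q, ∑ j, u t x j * partialD 1 j ψ x = ∑ j, ∫ x in Q, u t x j * partialD 1 j ψ x :=
    integral_finsetSum (f := fun (j : Fin 3) (x : V) => u t x j * partialD 1 j ψ x) Finset.univ
      (fun j _ => (hc.l2_u t ht j).integrable_mul (hm j))
  exact h4.trans h3

end Pool.Agent.H303.DEE
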