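import Pool.Agent.H303.DEE.Stm4

/-!
Project DEE, D11: restart of the limit at almost every time (helper745).
-/

set_option autoImplicit false

open MeasureTheory Set Filter Topology
open scoped ContDiff ENNReal

namespace Pool.Agent.H303.DEE

namespace D11L

/-- translation in time -/
def tr (s : ℝ) (z : ℝ × V) : ℝ × V := (s + z.1, z.2)

theorem tr_mp (s : ℝ) : MeasurePreserving (tr s) (volume : Measure (ℝ × V)) volume :=
  (measurePreserving_add_left (volume : Measure ℝ) s).prod (MeasurePreserving.id (volume : Measure V))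

theorem tr_tr (s : ℝ) (z : ℝ × V) : tr (-s) (tr s z) = z := by
  unfold tr
  ext1
  · simp
  · rfl

theorem tr_tr' (s : ℝ) (z : ℝ × V) : tr s (tr (-s) z) = z := by
  have h := tr_tr (-s) z
  rwa [neg_neg] at h

theorem tr_emb (s : ℝ) : MeasurableEmbedding (tr s) := by
  have h1 : ∀ s : ℝ, Measurable (tr s) := fun s => (tr_mp s).measurable
  let e : (ℝ × V) ≃ᵐ (ℝ × V) := ⟨⟨tr s, tr (-s), tr_tr s, tr_tr' s⟩, h1 s, h1 (-s)⟩
  exact e.measurableEmbedding

theorem tr_pre (s c d : ℝ) : tr s ⁻¹' (Icc c d ×ˢ Q) = Icc (c - s) (d - s) ×ˢ Q := by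
  ext z
  simp only [tr, mem_preimage, mem_prod, mem_Icc]
  constructor
  · rintro ⟨⟨a, b⟩, c⟩
    exact ⟨⟨by linarith, by linarith⟩, c⟩
  · rintro ⟨⟨a, b⟩, c⟩
    exact ⟨⟨by linarith, by linarith⟩, c⟩

theorem mS (c d : ℝ) : MeasurableSet (Icc c d ×ˢ Q : Set (ℝ × V)) :=
  measurableSet_Icc.prod measurableSet_Icc

theorem int_tr (s T : ℝ) (F : ℝ × V → ℝ) :
    ∫ z in Icc 0 (T - s) ×ˢ Q, F (tr s z) = ∫ z in Icc s T ×ˢ Q, F z := by
  have h := (tr_mp s).setIntegral_preimage_emb (tr_emb s) F (Icc s T ×ˢ Q)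
  rwa [tr_pre, sub_self] at h

theorem mp_res (s c d : ℝ) : MeasurePreserving (tr s) (volume.restrict (Icc (c - s) (d - s) ×ˢ Q))
    (volume.restrict (Icc c d ×ˢ Q)) := by
  have h := (tr_mp s).restrict_preimage (mS c d)
  rwa [tr_pre] at h

theorem memLp_tr {s T : ℝ} (hs : 0 ≤ s) {F : ℝ × V → ℝ}
    (hF : MemLp F 2 (volume.restrict (Icc 0 T ×ˢ Q))) :
    MemLp (fun z => F (tr s z)) 2 (volume.restrict (Icc 0 (T - s) ×ˢ Q)) := by
  have h1 : MemLp F 2 (volume.restrict (Icc s T ×ˢ Q)) :=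
    hF.mono_measure (Measure.restrict_mono (prod_mono (Icc_subset_Icc_left hs) subset_rfl) le_rfl)
  have h2 := mp_res s s T
  rw [sub_self] at h2
  exact h1.comp_measurePreserving h2

theorem memLp_rt {s T : ℝ} {g : ℝ × V → ℝ}
    (hg : MemLp g 2 (volume.restrict (Icc 0 (T - s) ×ˢ Q))) :
    MemLp (fun z => g (tr (-s) z)) 2 (volume.restrict (Icc s T ×ˢ Q)) := by
  have h2 := mp_res (-s) 0 (T - s)
  rw [show (0 : ℝ) - -s = s by ring, show T - s - -s = T by ring] at h2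
  exact hg.comp_measurePreserving h2

/-- the test function -/
noncomputable def ext (s T : ℝ) (g : ℝ × V → ℝ) : ℝ × V → ℝ :=
  (Icc s T ×ˢ Q).indicator fun z => g (tr (-s) z)

theorem memLp_ext {s T : ℝ} (hs : 0 ≤ s) {g : ℝ × V → ℝ}
    (hg : MemLp g 2 (volume.restrict (Icc 0 (T - s) ×ˢ Q))) :
    MemLp (ext s T g) 2 (volume.restrict (Icc 0 T ×ˢ Q)) := by
  unfold ext
  rw [memLp_indicator_iff_restrict (mS s T), Measure.restrict_restrict_of_subset
    (prod_mono (Icc_subset_Icc_left hs) subset_rfl)]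
  exact memLp_rt hg

theorem int_ext {s T : ℝ} (hs : 0 ≤ s) (H g : ℝ × V → ℝ) :
    ∫ z in Icc 0 T ×ˢ Q, H z * ext s T g z = ∫ z in Icc 0 (T - s) ×ˢ Q, H (tr s z) * g z := by
  have h1 : (fun z => H z * ext s T g z) =
      (Icc s T ×ˢ Q).indicator (fun z => H z * g (tr (-s) z)) := by
    funext z
    unfold ext
    by_cases hz : z ∈ (Icc s T ×ˢ Q : Set (ℝ × V))
    · rw [indicator_of_mem hz, indicator_of_mem hz]
    · rw [indicator_of_notMem hz, indicator_of_notMem hz, mul_zero]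
  rw [h1, setIntegral_indicator (mS s T),
    inter_eq_right.2 (prod_mono (Icc_subset_Icc_left hs) subset_rfl),
    ← int_tr s T (fun z => H z * g (tr (-s) z))]
  simp only [tr_tr]

theorem sol_tr {n : ℕ} {ν : ℝ} {α : Fin 3 → ℝ} {v : ℝ → V → V} {p : ℝ → V → ℝ}
    (h : IsSol n ν α (Ici 0) v p) {s : ℝ} (hs : 0 ≤ s) :
    IsSol n ν α (Ici 0) (fun t => v (s + t)) (fun t => p (s + t)) := by
  have hI : ∀ t ∈ Ici (0 : ℝ), s + t ∈ Ici (0 : ℝ) := fun t ht => by
    rw [mem_Ici] at ht ⊢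
    linarith
  have hc : ContDiffOn ℝ ∞ (fun z : ℝ × V => ((s + z.1, z.2) : ℝ × V)) (Ici 0 ×ˢ univ) :=
    ContDiff.contDiffOn (by fun_prop)
  have hm : MapsTo (fun z : ℝ × V => ((s + z.1, z.2) : ℝ × V)) (Ici 0 ×ˢ univ)
      (Ici 0 ×ˢ univ) := fun z hz => ⟨hI _ hz.1, mem_univ _⟩
  refine ⟨h.smooth_u.comp hc hm, h.smooth_p.comp hc hm, fun t ht => h.per_u _ (hI t ht),
    fun t ht => h.per_p _ (hI t ht), fun t ht => h.divfree _ (hI t ht), fun t ht h0 x i => ?_⟩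
  have h1 := h.momentum (s + t) (hI t ht) (by linarith) x i
  have h2 : deriv (fun r => v (s + r) x i) t = deriv (fun r => v r x i) (s + t) :=
    deriv_comp_const_add (f := fun r => v r x i) s t
  rw [h2]
  exact h1

/-- the subsequence -/
theorem sub {T : ℝ} {u : ℝ → V → V} {v : ℕ → ℝ → V → V}
    (hu : ∀ i, MemLp (fun z : ℝ × V => u z.1 z.2 i) 2 (volume.restrict (Icc 0 T ×ˢ Q)))
    (hv : ∀ k i, MemLp (fun z : ℝ × V => v k z.1 z.2 i) 2 (volume.restrict (Icc 0 T ×ˢ Q)))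
    (st : ∀ i, Tendsto (fun k => ∫ z in Icc 0 T ×ˢ Q, (u z.1 z.2 i - v k z.1 z.2 i) ^ 2)
      atTop (𝓝 0)) :
    ∃ φ : ℕ → ℕ, StrictMono φ ∧ ∀ᵐ s ∂(volume.restrict (Icc 0 T)),
      Tendsto (fun k => ∫ x in Q, ∑ i, (u s x i - v (φ k) s x i) ^ 2) atTop (𝓝 0) := by
  have iD : ∀ k, Integrable (fun z : ℝ × V => ∑ i, (u z.1 z.2 i - v k z.1 z.2 i) ^ 2)
      (volume.restrict (Icc 0 T ×ˢ Q)) := fun k =>
    integrable_finsetSum _ fun i _ => ((hu i).sub (hv k i)).integrable_sq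
  have lim : Tendsto (fun k => ∫ z in Icc 0 T ×ˢ Q, ∑ i, (u z.1 z.2 i - v k z.1 z.2 i) ^ 2)
      atTop (𝓝 0) := by
    have h1 : (fun k => ∫ z in Icc 0 T ×ˢ Q, ∑ i, (u z.1 z.2 i - v k z.1 z.2 i) ^ 2) =
        fun k => ∑ i, ∫ z in Icc 0 T ×ˢ Q, (u z.1 z.2 i - v k z.1 z.2 i) ^ 2 := by
      funext k
      exact integral_finsetSum _ fun i _ => ((hu i).sub (hv k i)).integrable_sq
    rw [h1]
    have h2 := tendsto_finsetSum Finset.univ (fun i _ => st i)
    simpa using h2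
  have hprod : (volume.restrict (Icc 0 T ×ˢ Q) : Measure (ℝ × V)) =
      (volume.restrict (Icc 0 T)).prod mQ := by
    rw [Measure.prod_restrict]
    rfl
  have iD' : ∀ k, Integrable (fun z : ℝ × V => ∑ i, (u z.1 z.2 i - v k z.1 z.2 i) ^ 2)
      ((volume.restrict (Icc 0 T)).prod mQ) := fun k => by
    rw [← hprod]
    exact iD k
  have iF : ∀ k, Integrable (fun s => ∫ x in Q, ∑ i, (u s x i - v k s x i) ^ 2)
      (volume.restrict (Icc 0 T)) := fun k => (iD' k).integral_prod_left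
  have F0 : ∀ k s, 0 ≤ ∫ x in Q, ∑ i, (u s x i - v k s x i) ^ 2 := fun k s =>
    integral_nonneg fun x => Finset.sum_nonneg fun i _ => sq_nonneg _
  have hF : ∀ k, ∫ s in Icc 0 T, (∫ x in Q, ∑ i, (u s x i - v k s x i) ^ 2) =
      ∫ z in Icc 0 T ×ˢ Q, ∑ i, (u z.1 z.2 i - v k z.1 z.2 i) ^ 2 := by
    intro k
    rw [hprod]
    exact (integral_prod _ (iD' k)).symm
  have hm : TendstoInMeasure (volume.restrict (Icc 0 T))
      (fun k s => ∫ x in Q, ∑ i, (u s x i - v k s x i) ^ 2) atTop (fun _ => (0 : ℝ)) := by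
    refine tendstoInMeasure_of_tendsto_eLpNorm (p := 1) one_ne_zero
      (fun k => (iF k).aestronglyMeasurable) aestronglyMeasurable_const ?_
    have h2 : (fun k => eLpNorm ((fun s => ∫ x in Q, ∑ i, (u s x i - v k s x i) ^ 2) -
        fun _ => (0 : ℝ)) 1 (volume.restrict (Icc 0 T))) =
        fun k => ENNReal.ofReal
          (∫ z in Icc 0 T ×ˢ Q, ∑ i, (u z.1 z.2 i - v k z.1 z.2 i) ^ 2) := by
      funext k
      have h3 : ((fun s => ∫ x in Q, ∑ i, (u s x i - v k s x i) ^ 2) - fun _ => (0 : ℝ)) =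
          fun s => ∫ x in Q, ∑ i, (u s x i - v k s x i) ^ 2 := by
        funext s
        exact sub_zero _
      rw [h3, eLpNorm_one_eq_lintegral_enorm, ← hF k,
        ofReal_integral_eq_lintegral_ofReal (iF k) (ae_of_all _ (F0 k))]
      refine lintegral_congr fun s => ?_
      rw [Real.enorm_of_nonneg (F0 k s)]
    rw [h2]
    have h4 := ENNReal.tendsto_ofReal lim
    rwa [ENNReal.ofReal_zero] at h4
  obtain ⟨φ, hφ, h⟩ := hm.exists_seq_tendsto_ae
  exact ⟨φ, hφ, h⟩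

end D11L

open D11L in
theorem d11 (_h0 : A0) : D11 := by
  intro n ν α T f v p u G h
  have hv : ∀ k i, MemLp (fun z : ℝ × V => v k z.1 z.2 i) 2
      (volume.restrict (Icc 0 T ×ˢ Q)) := by
    intro k i
    refine T8.memLp_of_cont (isCompact_Icc.prod isCompact_Icc) ?_
    have h1 : ContinuousOn (fun z : ℝ × V => v k z.1 z.2) (Icc 0 T ×ˢ Q) :=
      (h.sol k).smooth_u.continuousOn.mono (prod_mono Icc_subset_Ici_self (subset_univ _))
    exact (continuous_apply i).comp_continuousOn h1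
  obtain ⟨φ, hφ, hae⟩ := D11L.sub h.l2_us hv h.st
  filter_upwards [hae, ae_restrict_mem measurableSet_Icc] with s hs hsI
  have hst : ∀ t ∈ Icc 0 (T - s), s + t ∈ Icc 0 T := fun t ht =>
    ⟨add_nonneg hsI.1 ht.1, by linarith [ht.2]⟩
  have hmt : Measurable (tr s) := (tr_mp s).measurable
  refine ⟨φ, hφ, ?_⟩
  refine ⟨fun k => sol_tr (h.sol (φ k)) hsI.1, h.l2_u s hsI, ?_, h.meas_u.comp hmt,
    h.meas_G.comp hmt, fun t ht => h.l2_u _ (hst t ht), fun i => memLp_tr hsI.1 (h.l2_us i),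
    fun i j => memLp_tr hsI.1 (h.l2_G i j), fun t ht i g hg => ?_, fun i => ?_,
    fun i j g hg => ?_⟩
  · simp only [add_zero]
    exact hs
  · exact (h.wk (s + t) (hst t ht) i g hg).comp hφ.tendsto_atTop
  · have h1 := (h.st i).comp hφ.tendsto_atTop
    refine squeeze_zero (fun k => integral_nonneg fun z => sq_nonneg _) (fun k => ?_) h1
    have h2 := int_tr s T (fun z => (u z.1 z.2 i - v (φ k) z.1 z.2 i) ^ 2)
    refine le_of_eq_of_le h2 ?_
    exact setIntegral_mono_set ((h.l2_us i).sub (hv (φ k) i)).integrable_sq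
      (ae_of_all _ fun z => sq_nonneg _)
      (prod_mono (Icc_subset_Icc_left hsI.1) subset_rfl).eventuallyLE
  · have h1 := (h.wg i j _ (memLp_ext hsI.1 hg)).comp hφ.tendsto_atTop
    have h2 := int_ext (T := T) hsI.1 (fun z => G z.1 z.2 i j) g
    have h3 : ∀ k, ∫ z in Icc 0 T ×ˢ Q, grd (v (φ k)) z.1 z.2 i j * D11L.ext s T g z =
        ∫ z in Icc 0 (T - s) ×ˢ Q, grd (v (φ k)) (tr s z).1 (tr s z).2 i j * g z := fun k =>
      int_ext (T := T) hsI.1 (fun z => grd (v (φ k)) z.1 z.2 i j) g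
    have h4 : ((fun k => ∫ z in Icc 0 T ×ˢ Q, grd (v k) z.1 z.2 i j * D11L.ext s T g z) ∘ φ) =
        fun k => ∫ z in Icc 0 (T - s) ×ˢ Q, grd (v (φ k)) (tr s z).1 (tr s z).2 i j * g z := by
      funext k
      exact h3 k
    rw [h4, h2] at h1
    exact h1

end Pool.Agent.H303.DEE
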