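import Pool.Agent.H303.DEE.Stm4

/-!
helper297: convergence of a subsequence of smooth solutions (D12).
-/

set_option autoImplicit false

open MeasureTheory Set Filter Topology
open scoped ContDiff ENNReal

namespace Pool.Agent.H303.DEE

namespace XD12

/-- the half space -/
abbrev HS : Set (ℝ × V) := Ici 0 ×ˢ univ

theorem max_cont : Continuous (fun z : ℝ × V => ((max z.1 0, z.2) : ℝ × V)) := by fun_prop

theorem comp_cont {E : Type*} [TopologicalSpace E] {F : ℝ × V → E} (hF : ContinuousOn F HS) :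
    Continuous (fun z : ℝ × V => F (max z.1 0, z.2)) :=
  hF.comp_continuous max_cont fun z => ⟨show (0 : ℝ) ≤ max z.1 0 from le_max_right _ _,
    mem_univ _⟩

theorem approx (f : L2s) (k : ℕ) : ∃ v₀ : V → V, Smooth v₀ ∧
    ∫ x in Q, ∑ i, ((f.1 : V → V) x i - v₀ x i) ^ 2 ≤ 1 / ((k : ℝ) + 1) := by
  have h : f.1 ∈ closure {f : Lp V 2 mQ | ∃ v : V → V, Smooth v ∧ f =ᵐ[mQ] v} := f.2
  rw [Metric.mem_closure_iff] at h
  have hk : (0 : ℝ) < (k : ℝ) + 1 := by positivity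
  obtain ⟨g, ⟨v₀, hv, hg⟩, hd⟩ := h (1 / (3 * ((k : ℝ) + 1))) (by positivity)
  refine ⟨v₀, hv, (T8.dist_bd hg).trans ?_⟩
  have h1 : dist f.1 g ^ 2 ≤ (1 / (3 * ((k : ℝ) + 1))) ^ 2 :=
    pow_le_pow_left₀ dist_nonneg hd.le 2
  have h3 : 3 * (1 / (3 * ((k : ℝ) + 1))) ^ 2 =
      1 / ((k : ℝ) + 1) * (1 / (3 * ((k : ℝ) + 1))) := by
    field_simp
  have h4 : 1 / (3 * ((k : ℝ) + 1)) ≤ 1 := by
    rw [div_le_one (by positivity)]
    have : (0 : ℝ) ≤ k := Nat.cast_nonneg k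
    linarith
  calc 3 * dist f.1 g ^ 2 ≤ 3 * (1 / (3 * ((k : ℝ) + 1))) ^ 2 := by linarith
    _ = 1 / ((k : ℝ) + 1) * (1 / (3 * ((k : ℝ) + 1))) := h3
    _ ≤ 1 / ((k : ℝ) + 1) := mul_le_of_le_one_right (by positivity) h4

theorem bd0 {f v : V → V} (hf : ∀ i, MemLp (fun x => f x i) 2 mQ)
    (hv : ∀ i, MemLp (fun x => v x i) 2 mQ)
    (h : ∫ x in Q, ∑ i, (f x i - v x i) ^ 2 ≤ 1) :
    ∫ x in Q, ∑ i, v x i ^ 2 ≤ 2 * (∫ x in Q, ∑ i, f x i ^ 2) + 2 := by
  have i1 : Integrable (fun x => ∑ i, f x i ^ 2) mQ :=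
    integrable_finsetSum _ fun i _ => (hf i).integrable_sq
  have i2 : Integrable (fun x => ∑ i, v x i ^ 2) mQ :=
    integrable_finsetSum _ fun i _ => (hv i).integrable_sq
  have i3 : Integrable (fun x => ∑ i, (f x i - v x i) ^ 2) mQ :=
    integrable_finsetSum _ fun i _ => ((hf i).sub (hv i)).integrable_sq
  have h1 : ∫ x in Q, ∑ i, v x i ^ 2 ≤
      ∫ x in Q, (2 * (∑ i, f x i ^ 2) + 2 * ∑ i, (f x i - v x i) ^ 2) := by
    refine integral_mono i2 ((i1.const_mul 2).add (i3.const_mul 2)) fun x => ?_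
    show ∑ i, v x i ^ 2 ≤ 2 * (∑ i, f x i ^ 2) + 2 * ∑ i, (f x i - v x i) ^ 2
    rw [Finset.mul_sum, Finset.mul_sum, ← Finset.sum_add_distrib]
    refine Finset.sum_le_sum fun i _ => ?_
    nlinarith [sq_nonneg (f x i + (f x i - v x i))]
  rw [integral_add (i1.const_mul 2) (i3.const_mul 2), integral_const_mul,
    integral_const_mul] at h1
  linarith

theorem trg_le (b : Bool) (m : Fin 3 → ℤ) (x : V) : |trg b m x| ≤ 1 := by
  unfold trg
  split_ifs
  · exact Real.abs_cos_le_one _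
  · exact Real.abs_sin_le_one _

theorem coef_bd {w : V → ℝ} (hw : MemLp w 2 mQ) {E : ℝ} (hE : ∫ x in Q, w x ^ 2 ≤ E)
    (b : Bool) (m : Fin 3 → ℤ) :
    |∫ x in Q, w x * trg b m x| ≤ (1 / 2) * (E + ∫ _x in Q, (1 : ℝ)) := by
  have : IsFiniteMeasure (mQ) := ⟨by
    rw [Measure.restrict_apply_univ]
    exact T8.Q_compact.measure_lt_top⟩
  refine abs_integral_le_integral_abs.trans ?_
  have i1 : Integrable (fun x => w x ^ 2) mQ := hw.integrable_sq
  have i2 : Integrable (fun _ : V => (1 : ℝ)) mQ := integrable_const 1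
  have h1 : ∫ x in Q, |w x * trg b m x| ≤ ∫ x in Q, (1 / 2) * (w x ^ 2 + 1) := by
    refine integral_mono_of_nonneg (Eventually.of_forall fun x => abs_nonneg _)
      ((i1.add i2).const_mul _) (Eventually.of_forall fun x => ?_)
    show |w x * trg b m x| ≤ (1 / 2) * (w x ^ 2 + 1)
    rw [abs_mul]
    have h2 := trg_le b m x
    have h3 := abs_nonneg (w x)
    have h4 : |w x| * |trg b m x| ≤ |w x| := mul_le_of_le_one_right h3 h2
    have h5 := sq_abs (w x)
    nlinarith [sq_nonneg (|w x| - 1)]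
  rw [integral_const_mul, integral_add i1 i2] at h1
  linarith

theorem one_le {w : V → V} (hw : ∀ i, MemLp (fun x => w x i) 2 mQ) (i : Fin 3) :
    ∫ x in Q, w x i ^ 2 ≤ ∫ x in Q, ∑ i, w x i ^ 2 := by
  have i2 : Integrable (fun x => ∑ i, w x i ^ 2) mQ :=
    integrable_finsetSum _ fun i _ => (hw i).integrable_sq
  refine integral_mono (hw i).integrable_sq i2 fun x => ?_
  exact Finset.single_le_sum (f := fun i => w x i ^ 2) (fun i _ => sq_nonneg _)
    (Finset.mem_univ i)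

theorem cell_eq {T : ℝ} {F F' : ℝ → V → ℝ} (h : ∀ t ∈ Icc 0 T, F t = F' t) :
    ∫ z in Icc 0 T ×ˢ Q, F z.1 z.2 = ∫ z in Icc 0 T ×ˢ Q, F' z.1 z.2 := by
  refine setIntegral_congr_fun (measurableSet_Icc.prod T8.Q_meas) fun z hz => ?_
  show F z.1 z.2 = F' z.1 z.2
  rw [h z.1 hz.1]

theorem grd_bd {v : ℝ → V → V}
    (hg : ∀ i j, ContinuousOn (fun z : ℝ × V => grd v z.1 z.2 i j) (Ici 0 ×ˢ univ))
    {T B : ℝ} (hB : 0 ≤ B)
    (h : 0 ≤ T → ∫ s in (0 : ℝ)..T, ∫ x in Q, ∑ i, ∑ j, grd v s x i j ^ 2 ≤ B) (i j : Fin 3) :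
    MemLp (fun z : ℝ × V => grd v z.1 z.2 i j) 2 (volume.restrict (Icc 0 T ×ˢ Q)) ∧
      ∫ z in Icc 0 T ×ˢ Q, grd v z.1 z.2 i j ^ 2 ≤ B := by
  have mg : ∀ i j, MemLp (fun z : ℝ × V => grd v z.1 z.2 i j) 2
      (volume.restrict (Icc 0 T ×ˢ Q)) := fun i j =>
    T8.memLp_of_cont (isCompact_Icc.prod T8.Q_compact)
      ((hg i j).mono (prod_mono (fun s hs => hs.1) (subset_univ _)))
  refine ⟨mg i j, ?_⟩
  rcases lt_or_ge T 0 with hT | hT
  · rw [Icc_eq_empty (not_le.2 hT), empty_prod, Measure.restrict_empty, integral_zero_measure]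
    exact hB
  · have hI : IntegrableOn (fun z : ℝ × V => ∑ i, ∑ j, grd v z.1 z.2 i j ^ 2)
        (Icc 0 T ×ˢ Q) :=
      integrable_finsetSum _ fun i _ => integrable_finsetSum _ fun j _ => (mg i j).integrable_sq
    have h1 := T8.fub hT hI
    have h2 : ∫ z in Icc 0 T ×ˢ Q, grd v z.1 z.2 i j ^ 2 ≤
        ∫ z in Icc 0 T ×ˢ Q, ∑ i, ∑ j, grd v z.1 z.2 i j ^ 2 := by
      refine integral_mono (mg i j).integrable_sq hI fun z => ?_
      have h3 : grd v z.1 z.2 i j ^ 2 ≤ ∑ j, grd v z.1 z.2 i j ^ 2 :=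
        Finset.single_le_sum (f := fun j => grd v z.1 z.2 i j ^ 2) (fun j _ => sq_nonneg _)
          (Finset.mem_univ j)
      have h4 : ∑ j, grd v z.1 z.2 i j ^ 2 ≤ ∑ i, ∑ j, grd v z.1 z.2 i j ^ 2 :=
        Finset.single_le_sum (f := fun i => ∑ j, grd v z.1 z.2 i j ^ 2)
          (fun i _ => Finset.sum_nonneg fun j _ => sq_nonneg _) (Finset.mem_univ i)
      exact h3.trans h4
    have h5 := h hT
    rw [← h1] at h2
    exact h2.trans h5

end XD12

open XD12 in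
/-- convergence of a subsequence of smooth solutions -/
theorem d12 (h0 : A0) (h4 : A4) (d1 : D1) (d2 : D2) (d4 : D4) (d5a : D5a) (d5b : D5b) (d6 : D6)
    (d13 : D13) : D12 := by
  intro n ν α hν hn hG T f
  have hfi : ∀ i, MemLp (fun x => (f.1 : V → V) x i) 2 mQ := T8.memLp_comp (Lp.memLp f.1)
  choose g hgs hgd using approx f
  choose v p hv hv0 using fun k => hG (g k) (hgs k)
  have hdat : ∀ k : ℕ, ∫ x in Q, ∑ i, ((f.1 : V → V) x i - v k 0 x i) ^ 2 ≤
      1 / ((k : ℝ) + 1) := by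
    intro k
    rw [hv0 k]
    exact hgd k
  have mv : ∀ k t, 0 ≤ t → ∀ i, MemLp (fun x => v k t x i) 2 mQ := fun k t ht i =>
    T8.memLp_of_cont T8.Q_compact (((continuous_apply i).comp
      ((h0 (v k) (hv k).smooth_u).1 t ht).continuous).continuousOn)
  obtain ⟨E, hE0, hE⟩ : ∃ E : ℝ, 0 ≤ E ∧ ∀ k, ∫ x in Q, ∑ i, v k 0 x i ^ 2 ≤ E := by
    refine ⟨2 * (∫ x in Q, ∑ i, (f.1 : V → V) x i ^ 2) + 2, ?_, fun k => ?_⟩
    · have : 0 ≤ ∫ x in Q, ∑ i, (f.1 : V → V) x i ^ 2 :=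
        integral_nonneg fun x => Finset.sum_nonneg fun i _ => sq_nonneg _
      linarith
    · refine bd0 hfi (mv k 0 le_rfl) ((hdat k).trans ?_)
      rw [div_le_one (by positivity)]
      have : (0 : ℝ) ≤ k := Nat.cast_nonneg k
      linarith
  have en : ∀ k t, 0 ≤ t → (∫ x in Q, ∑ i, v k t x i ^ 2) ≤ E ∧
      (∫ s in (0 : ℝ)..t, ∫ x in Q, ∑ i, ∑ j, grd (v k) s x i j ^ 2) ≤ E / (2 * ν) := by
    intro k t ht
    have h1 := h4 n ν α (v k) (p k) hn (hv k) t ht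
    unfold EnergyEq at h1
    have h2 : 0 ≤ ∫ x in Q, ∑ i, v k t x i ^ 2 :=
      integral_nonneg fun x => Finset.sum_nonneg fun i _ => sq_nonneg _
    have h3 : 0 ≤ ∫ s in (0 : ℝ)..t, ∫ x in Q, ∑ i, ∑ j, grd (v k) s x i j ^ 2 :=
      intervalIntegral.integral_nonneg ht fun s _ =>
        integral_nonneg fun x => Finset.sum_nonneg fun i _ =>
          Finset.sum_nonneg fun j _ => sq_nonneg _
    have h5 := hE k
    have h6 := mul_nonneg hν.le h3
    constructor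
    · linarith
    · rw [le_div_iff₀ (by positivity)]
      nlinarith
  have eni : ∀ k t, 0 ≤ t → ∀ i, ∫ x in Q, v k t x i ^ 2 ≤ E := fun k t ht i =>
    (one_le (mv k t ht) i).trans (en k t ht).1
  -- the first subsequence
  obtain ⟨φ, hφ, hφc⟩ := d2 T (Bool × (Fin 3 → ℤ) × Fin 3)
    (fun k c t => ∫ x in Q, v k t x c.2.2 * trg c.1 c.2.1 x) (by
      intro c
      obtain ⟨L, hL0, hL⟩ := d1 n ν α E c.1 c.2.1 c.2.2 hν hn
      refine ⟨L, fun k s hs t ht => ?_⟩
      rcases le_total s t with h | h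
      · rw [abs_of_nonneg (sub_nonneg.2 h)]
        exact hL (v k) (p k) (hv k) (hE k) s t hs.1 h
      · rw [abs_sub_comm, abs_sub_comm t s, abs_of_nonneg (sub_nonneg.2 h)]
        exact hL (v k) (p k) (hv k) (hE k) t s ht.1 h) (by
      intro c
      exact ⟨(1 / 2) * (E + ∫ _x in Q, (1 : ℝ)), fun k t ht =>
        coef_bd (mv k t ht.1 c.2.2) (eni k t ht.1 c.2.2) c.1 c.2.1⟩)
  have hst := d4 n ν α T E (fun k => v (φ k)) (fun k => p (φ k)) hν hn (fun k => hv _)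
    (fun k => hE _) (fun b m i ε hε => hφc (b, m, i) ε hε)
  have hw : ∀ t ∈ Icc 0 T, ∀ i, ∀ g : V → ℝ, MemLp g 2 mQ →
      CauchySeq fun k => ∫ x in Q, v (φ k) t x i * g x := by
    intro t ht i
    refine d5b E (fun k x => v (φ k) t x i) (fun k => mv _ t ht.1 i) (fun k => eni _ t ht.1 i)
      fun b m => ?_
    rw [Metric.cauchySeq_iff]
    intro ε hε
    obtain ⟨K, hK⟩ := hφc (b, m, i) (ε / 2) (by positivity)
    refine ⟨K, fun k hk l hl => ?_⟩
    rw [Real.dist_eq]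
    have h1 := hK k l hk hl t ht
    exact lt_of_le_of_lt h1 (by linarith)
  -- the limits
  have hcont : ∀ k i, Continuous fun z : ℝ × V => v (φ k) (max z.1 0) z.2 i := fun k i =>
    (continuous_apply i).comp (comp_cont (hv (φ k)).smooth_u.continuousOn)
  have hux : ∀ i : Fin 3, ∃ u : ℝ → V → ℝ, (Measurable fun z : ℝ × V => u z.1 z.2) ∧
      ∀ t ∈ Icc 0 T, MemLp (u t) 2 mQ ∧ ∀ g : V → ℝ, MemLp g 2 mQ →
        Tendsto (fun k => ∫ x in Q, v (φ k) (max t 0) x i * g x) atTop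
          (𝓝 (∫ x in Q, u t x * g x)) := by
    intro i
    refine d5a T E (fun k t x => v (φ k) (max t 0) x i) (fun k => (hcont k i).measurable)
      (fun k t ht => mv _ _ (le_max_right _ _) i) (fun k t ht => eni _ _ (le_max_right _ _) i)
      (fun t ht => ?_)
    have h1 := hw t ht i
    have h2 : max t 0 = t := max_eq_left ht.1
    simp only [h2]
    exact h1
  choose u hum hu using hux
  have h13 : ∀ i, MemLp (fun z : ℝ × V => u i z.1 z.2) 2 (volume.restrict (Icc 0 T ×ˢ Q)) ∧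
      Tendsto (fun k => ∫ z in Icc 0 T ×ˢ Q, (u i z.1 z.2 - v (φ k) (max z.1 0) z.2 i) ^ 2)
        atTop (𝓝 0) := by
    intro i
    refine d13 T (fun k t x => v (φ k) (max t 0) x i) (u i) (fun k => (hcont k i).measurable)
      (hum i) (fun k => T8.memLp_of_cont (isCompact_Icc.prod T8.Q_compact)
        (hcont k i).continuousOn) (fun k t ht => mv _ _ (le_max_right _ _) i)
      (fun t ht => (hu i t ht).1) (fun t ht => (hu i t ht).2) (fun ε hε => ?_)
    obtain ⟨K, hK⟩ := hst ε hε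
    refine ⟨K, fun k l hk hl => ?_⟩
    have h1 := hK k l hk hl i
    have h2 := cell_eq (T := T)
      (F := fun t x => (v (φ l) (max t 0) x i - v (φ k) (max t 0) x i) ^ 2)
      (F' := fun t x => (v (φ l) t x i - v (φ k) t x i) ^ 2) (fun t ht => by
        simp only [max_eq_left ht.1])
    exact h2.le.trans h1
  -- the gradients
  have hgr : ∀ k i j, MemLp (fun z : ℝ × V => grd (v (φ k)) z.1 z.2 i j) 2
      (volume.restrict (Icc 0 T ×ˢ Q)) ∧
      ∫ z in Icc 0 T ×ˢ Q, grd (v (φ k)) z.1 z.2 i j ^ 2 ≤ E / (2 * ν) := fun k i j =>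
    grd_bd (h0 (v (φ k)) (hv (φ k)).smooth_u).2.1 (by positivity)
      (fun hT => (en (φ k) T hT).2) i j
  obtain ⟨ψ, G, hψ, hGm, hGl, hGt⟩ := d6 T (E / (2 * ν))
    (fun k i j z => grd (v (φ k)) z.1 z.2 i j) (fun k i j => (hgr k i j).1)
    (fun k i j => (hgr k i j).2)
  refine ⟨fun k => v (φ (ψ k)), fun k => p (φ (ψ k)), fun t x i => u i t x,
    fun t x i j => G i j (t, x), ?_⟩
  have hψt : Tendsto ψ atTop atTop := hψ.tendsto_atTop
  have hφt : Tendsto φ atTop atTop := hφ.tendsto_atTop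
  refine
    { sol := fun k => hv _
      data_l2 := hfi
      data := ?_
      meas_u := ?_
      meas_G := ?_
      l2_u := fun t ht i => (hu i t ht).1
      l2_us := fun i => (h13 i).1
      l2_G := fun i j => hGl i j
      wk := ?_
      st := ?_
      wg := fun i j g hg => hGt i j g hg }
  · have h1 : Tendsto (fun k : ℕ => 1 / ((φ (ψ k) : ℝ) + 1)) atTop (𝓝 0) :=
      tendsto_one_div_add_atTop_nhds_zero_nat.comp (hφt.comp hψt)
    exact squeeze_zero (fun k => integral_nonneg fun x => Finset.sum_nonneg fun i _ =>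
      sq_nonneg _) (fun k => hdat (φ (ψ k))) h1
  · exact measurable_pi_iff.2 fun i => hum i
  · exact measurable_pi_iff.2 fun i => measurable_pi_iff.2 fun j => hGm i j
  · intro t ht i g hg
    have h1 := ((hu i t ht).2 g hg).comp hψt
    have h2 : max t 0 = t := max_eq_left ht.1
    rw [h2] at h1
    exact h1
  · intro i
    have h1 := ((h13 i).2).comp hψt
    refine h1.congr fun k => ?_
    exact cell_eq (T := T) (F := fun t x => (u i t x - v (φ (ψ k)) (max t 0) x i) ^ 2)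
      (F' := fun t x => (u i t x - v (φ (ψ k)) t x i) ^ 2) (fun t ht => by
        simp only [max_eq_left ht.1])

end Pool.Agent.H303.DEE
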