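import Pool.Agent.H303.DEE.Stm4

/-! Step D13 of the project DEE: strong convergence to the weak limits. -/

open MeasureTheory Set Filter Topology
open scoped ContDiff ENNReal

namespace Pool.Agent.H303.DEE

namespace D13L

/-- weak lower semicontinuity of the norm, for the lower integrals -/
theorem wlsc {X : Type*} [MeasurableSpace X] (μ : Measure X) (w : ℕ → X → ℝ) (u c : X → ℝ)
    (hw : ∀ k, MemLp (w k) 2 μ) (hu : MemLp u 2 μ) (hc : MemLp c 2 μ)
    (h : ∀ g : X → ℝ, MemLp g 2 μ →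
      Tendsto (fun k => ∫ x, w k x * g x ∂μ) atTop (𝓝 (∫ x, u x * g x ∂μ))) :
    ∫⁻ x, ENNReal.ofReal ((u x - c x) ^ 2) ∂μ
      ≤ liminf (fun l => ∫⁻ x, ENNReal.ofReal ((w l x - c x) ^ 2) ∂μ) atTop := by
  have hD : MemLp (fun x => u x - c x) 2 μ := hu.sub hc
  have hE : ∀ l, MemLp (fun x => w l x - c x) 2 μ := fun l => (hw l).sub hc
  have hDi := hD.integrable_sq
  have hEi := fun l => (hE l).integrable_sq
  have e1 : ∫⁻ x, ENNReal.ofReal ((u x - c x) ^ 2) ∂μ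
      = ENNReal.ofReal (∫ x, (u x - c x) ^ 2 ∂μ) :=
    (ofReal_integral_eq_lintegral_ofReal hDi (ae_of_all _ fun x => sq_nonneg _)).symm
  have e2 : ∀ l, ∫⁻ x, ENNReal.ofReal ((w l x - c x) ^ 2) ∂μ
      = ENNReal.ofReal (∫ x, (w l x - c x) ^ 2 ∂μ) := fun l =>
    (ofReal_integral_eq_lintegral_ofReal (hEi l) (ae_of_all _ fun x => sq_nonneg _)).symm
  -- the cross term
  have h1 := h (fun x => u x - c x) hD
  have i1 : ∀ l, Integrable (fun x => w l x * (u x - c x)) μ := fun l =>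
    (hw l).integrable_mul hD
  have i2 : Integrable (fun x => c x * (u x - c x)) μ := hc.integrable_mul hD
  have i3 : Integrable (fun x => u x * (u x - c x)) μ := hu.integrable_mul hD
  have h2 : Tendsto (fun l => ∫ x, (w l x - c x) * (u x - c x) ∂μ) atTop
      (𝓝 (∫ x, (u x - c x) ^ 2 ∂μ)) := by
    have h3 := h1.sub (tendsto_const_nhds (x := ∫ x, c x * (u x - c x) ∂μ))
    have e3 : (∫ x, u x * (u x - c x) ∂μ) - ∫ x, c x * (u x - c x) ∂μ
        = ∫ x, (u x - c x) ^ 2 ∂μ := by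
      rw [← integral_sub i3 i2]
      exact integral_congr_ae (ae_of_all _ fun x => by simp only; ring)
    rw [e3] at h3
    refine h3.congr fun l => ?_
    rw [← integral_sub (i1 l) i2]
    exact integral_congr_ae (ae_of_all _ fun x => by simp only; ring)
  have h4 : Tendsto (fun l => 2 * (∫ x, (w l x - c x) * (u x - c x) ∂μ)
      - ∫ x, (u x - c x) ^ 2 ∂μ) atTop (𝓝 (∫ x, (u x - c x) ^ 2 ∂μ)) := by
    have h5 := (h2.const_mul 2).sub (tendsto_const_nhds (x := ∫ x, (u x - c x) ^ 2 ∂μ))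
    have e4 : 2 * (∫ x, (u x - c x) ^ 2 ∂μ) - ∫ x, (u x - c x) ^ 2 ∂μ
        = ∫ x, (u x - c x) ^ 2 ∂μ := by ring
    rwa [e4] at h5
  have h6 : ∀ l, 2 * (∫ x, (w l x - c x) * (u x - c x) ∂μ) - ∫ x, (u x - c x) ^ 2 ∂μ
      ≤ ∫ x, (w l x - c x) ^ 2 ∂μ := by
    intro l
    have i4 : Integrable (fun x => (w l x - c x) * (u x - c x)) μ := (hE l).integrable_mul hD
    have e5 : 2 * (∫ x, (w l x - c x) * (u x - c x) ∂μ) - ∫ x, (u x - c x) ^ 2 ∂μ
        = ∫ x, (2 * ((w l x - c x) * (u x - c x)) - (u x - c x) ^ 2) ∂μ := by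
      rw [integral_sub (i4.const_mul 2) hDi, integral_const_mul]
    rw [e5]
    refine integral_mono ((i4.const_mul 2).sub hDi) (hEi l) fun x => ?_
    simp only
    nlinarith [sq_nonneg ((w l x - c x) - (u x - c x))]
  have h7 := (ENNReal.continuous_ofReal.tendsto (∫ x, (u x - c x) ^ 2 ∂μ)).comp h4
  rw [e1, ← h7.liminf_eq]
  refine liminf_le_liminf (Eventually.of_forall fun l => ?_)
  rw [e2 l]
  exact ENNReal.ofReal_le_ofReal (h6 l)

theorem prod_eq (T : ℝ) : (volume : Measure (ℝ × V)).restrict (Icc 0 T ×ˢ Q)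
    = (volume.restrict (Icc 0 T)).prod mQ := by
  rw [Measure.volume_eq_prod, Measure.prod_restrict]

theorem lint (T : ℝ) (f : ℝ → V → ℝ) (hf : Measurable fun z : ℝ × V => f z.1 z.2) :
    ∫⁻ z in Icc 0 T ×ˢ Q, ENNReal.ofReal (f z.1 z.2 ^ 2)
      = ∫⁻ t in Icc 0 T, ∫⁻ x in Q, ENNReal.ofReal (f t x ^ 2) := by
  rw [prod_eq]
  exact lintegral_prod _ ((hf.pow_const 2).ennreal_ofReal).aemeasurable

theorem main (T : ℝ) (w : ℕ → ℝ → V → ℝ) (u : ℝ → V → ℝ)
    (hwm : ∀ k, Measurable fun z : ℝ × V => w k z.1 z.2)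
    (hum : Measurable fun z : ℝ × V => u z.1 z.2)
    (hwL : ∀ k, MemLp (fun z : ℝ × V => w k z.1 z.2) 2 (volume.restrict (Icc 0 T ×ˢ Q)))
    (hwt : ∀ k, ∀ t ∈ Icc 0 T, MemLp (w k t) 2 mQ) (hut : ∀ t ∈ Icc 0 T, MemLp (u t) 2 mQ)
    (hwk : ∀ t ∈ Icc 0 T, ∀ g : V → ℝ, MemLp g 2 mQ →
      Tendsto (fun k => ∫ x in Q, w k t x * g x) atTop (𝓝 (∫ x in Q, u t x * g x)))
    (k : ℕ) (ε : ℝ) (K : ℕ)
    (hK : ∀ l, K ≤ l → ∫ z in Icc 0 T ×ˢ Q, (w l z.1 z.2 - w k z.1 z.2) ^ 2 ≤ ε) :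
    ∫⁻ z in Icc 0 T ×ˢ Q, ENNReal.ofReal ((u z.1 z.2 - w k z.1 z.2) ^ 2) ≤ ENNReal.ofReal ε := by
  rw [lint T (fun t x => u t x - w k t x) (hum.sub (hwm k))]
  have hm : ∀ l, Measurable fun z : ℝ × V => ENNReal.ofReal ((w l z.1 z.2 - w k z.1 z.2) ^ 2) :=
    fun l => (((hwm l).sub (hwm k)).pow_const 2).ennreal_ofReal
  calc ∫⁻ t in Icc 0 T, ∫⁻ x in Q, ENNReal.ofReal ((u t x - w k t x) ^ 2)
      ≤ ∫⁻ t in Icc 0 T, liminf (fun l => ∫⁻ x in Q, ENNReal.ofReal ((w l t x - w k t x) ^ 2))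
          atTop := by
        refine lintegral_mono_ae ?_
        filter_upwards [ae_restrict_mem measurableSet_Icc] with t ht
        exact wlsc mQ (fun l => w l t) (u t) (w k t) (fun l => hwt l t ht) (hut t ht)
          (hwt k t ht) (hwk t ht)
    _ ≤ liminf (fun l => ∫⁻ t in Icc 0 T, ∫⁻ x in Q, ENNReal.ofReal ((w l t x - w k t x) ^ 2))
          atTop := by
        refine lintegral_liminf_le fun l => ?_
        exact (hm l).lintegral_prod_right'
    _ ≤ ENNReal.ofReal ε := by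
        refine liminf_le_of_frequently_le' (Eventually.frequently ?_)
        filter_upwards [eventually_ge_atTop K] with l hl
        rw [← lint T (fun t x => w l t x - w k t x) ((hwm l).sub (hwm k))]
        have hi : Integrable (fun z : ℝ × V => (w l z.1 z.2 - w k z.1 z.2) ^ 2)
            (volume.restrict (Icc 0 T ×ˢ Q)) := ((hwL l).sub (hwL k)).integrable_sq
        rw [← ofReal_integral_eq_lintegral_ofReal hi (ae_of_all _ fun z => sq_nonneg _)]
        exact ENNReal.ofReal_le_ofReal (hK l hl)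

end D13L

/-- strong convergence to the weak limits -/
theorem d13 : D13 := by
  intro T w u hwm hum hwL hwt hut hwk hC
  have key : ∀ ε : ℝ, 0 < ε → ∃ K : ℕ, ∀ k, K ≤ k →
      ∫⁻ z in Icc 0 T ×ˢ Q, ENNReal.ofReal ((u z.1 z.2 - w k z.1 z.2) ^ 2)
        ≤ ENNReal.ofReal ε := by
    intro ε hε
    obtain ⟨K, hK⟩ := hC ε hε
    exact ⟨K, fun k hk => D13L.main T w u hwm hum hwL hwt hut hwk k ε K fun l hl => hK k l hk hl⟩
  have hint : ∀ k, ∫⁻ z in Icc 0 T ×ˢ Q, ENNReal.ofReal ((u z.1 z.2 - w k z.1 z.2) ^ 2) ≠ (⊤ : ℝ≥0∞) →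
      Integrable (fun z : ℝ × V => (u z.1 z.2 - w k z.1 z.2) ^ 2)
        (volume.restrict (Icc 0 T ×ˢ Q)) := by
    intro k hk
    have hm : Measurable fun z : ℝ × V => (u z.1 z.2 - w k z.1 z.2) ^ 2 :=
      (hum.sub (hwm k)).pow_const 2
    exact (lintegral_ofReal_ne_top_iff_integrable hm.aestronglyMeasurable
      (ae_of_all _ fun z => sq_nonneg _)).1 hk
  constructor
  · obtain ⟨K, hK⟩ := key 1 one_pos
    have h1 := hint K (ne_top_of_le_ne_top ENNReal.ofReal_ne_top (hK K le_rfl))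
    have h2 : MemLp (fun z : ℝ × V => u z.1 z.2 - w K z.1 z.2) 2
        (volume.restrict (Icc 0 T ×ˢ Q)) :=
      (memLp_two_iff_integrable_sq (hum.sub (hwm K)).aestronglyMeasurable).2 h1
    have h3 := h2.add (hwL K)
    refine h3.congr_norm hum.aestronglyMeasurable (ae_of_all _ fun z => ?_)
    simp
  · rw [Metric.tendsto_atTop]
    intro ε hε
    obtain ⟨K, hK⟩ := key (ε / 2) (half_pos hε)
    refine ⟨K, fun k hk => ?_⟩
    have h1 := hint k (ne_top_of_le_ne_top ENNReal.ofReal_ne_top (hK k hk))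
    have h2 := hK k hk
    rw [← ofReal_integral_eq_lintegral_ofReal h1 (ae_of_all _ fun z => sq_nonneg _)] at h2
    have h3 := (ENNReal.ofReal_le_ofReal_iff (half_pos hε).le).1 h2
    have h4 : 0 ≤ ∫ z in Icc 0 T ×ˢ Q, (u z.1 z.2 - w k z.1 z.2) ^ 2 :=
      integral_nonneg fun z => sq_nonneg _
    rw [Real.dist_eq, sub_zero, abs_of_nonneg h4]
    linarith

end Pool.Agent.H303.DEE
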