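import Pool.Agent.H303.DEE.Stm4

/-!
Extraction of a subsequence (project DEE, part D2; helper887)
-/

open MeasureTheory Set Filter Topology
open scoped ContDiff ENNReal

namespace Pool.Agent.H303.DEE

namespace Dk2

/-- the projection of `j / M` to `[0, T]` -/
noncomputable def pr (T : ℝ) (j M : ℕ) : ℝ := max 0 (min ((j : ℝ) / M) T)

theorem pr_mem {T : ℝ} (hT : 0 ≤ T) (j M : ℕ) : pr T j M ∈ Icc 0 T :=
  ⟨le_max_left _ _, max_le hT (min_le_right _ _)⟩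

theorem pr_eq {T : ℝ} {j M : ℕ} (h : (j : ℝ) / M ≤ T) : pr T j M = (j : ℝ) / M := by
  unfold pr
  rw [min_eq_left h, max_eq_right (by positivity)]

/-- extraction of a subsequence which converges at countably many points -/
theorem extract (J : Type) [Countable J] (b : ℕ → J → ℝ) (B : J → ℝ) (hB : ∀ k j, |b k j| ≤ B j) :
    ∃ φ : ℕ → ℕ, StrictMono φ ∧ ∀ j, ∀ ε : ℝ, 0 < ε → ∃ K : ℕ, ∀ k l, K ≤ k → K ≤ l →
      |b (φ k) j - b (φ l) j| ≤ ε := by
  obtain ⟨x, φ, hφ, hlim⟩ := CompactSpace.tendsto_subseq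
    (fun (k : ℕ) (j : J) => (⟨b k j, abs_le.1 (hB k j)⟩ : Icc (-(B j)) (B j)))
  refine ⟨φ, hφ, fun j ε hε => ?_⟩
  have h1 := (tendsto_pi_nhds.1 hlim) j
  have h2 : Tendsto (fun k => b (φ k) j) atTop (𝓝 (x j : ℝ)) :=
    (continuous_subtype_val.tendsto _).comp h1
  have h3 := h2.cauchySeq
  rw [Metric.cauchySeq_iff] at h3
  obtain ⟨K, hK⟩ := h3 ε hε
  refine ⟨K, fun k l hk hl => ?_⟩
  have h4 := hK k hk l hl
  rw [Real.dist_eq] at h4
  exact h4.le

end Dk2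

open Dk2 in
theorem d2 : D2 := by
  intro T ι _ a hLip hbd
  rcases lt_or_ge T 0 with hT | hT
  · refine ⟨id, strictMono_id, fun i ε hε => ⟨0, fun k l _ _ t ht => ?_⟩⟩
    exact absurd (ht.1.trans ht.2) (not_le.2 hT)
  choose L hL using hLip
  choose B hB using hbd
  obtain ⟨φ, hφ, hconv⟩ := extract (ι × ℕ × ℕ) (fun k p => a k p.1 (pr T p.2.1 p.2.2))
    (fun p => B p.1) (fun k p => hB p.1 k _ (pr_mem hT _ _))
  refine ⟨φ, hφ, fun i ε hε => ?_⟩
  -- the mesh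
  set L' : ℝ := max (L i) 0 with hL'
  have hL0 : 0 ≤ L' := le_max_right _ _
  obtain ⟨M, hM⟩ := exists_nat_gt (3 * L' / ε)
  have hM0 : (0 : ℝ) < M := lt_of_le_of_lt (by positivity) hM
  have hLM : L' / M ≤ ε / 3 := by
    rw [div_lt_iff₀ hε] at hM
    rw [div_le_iff₀ hM0]
    linarith
  have hcv : ∀ j : ℕ, ∃ K : ℕ, ∀ k l, K ≤ k → K ≤ l →
      |a (φ k) i (pr T j M) - a (φ l) i (pr T j M)| ≤ ε / 3 := fun j =>
    hconv (i, j, M) (ε / 3) (by positivity)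
  choose K hK using hcv
  refine ⟨(Finset.range (⌊T * M⌋₊ + 1)).sup K, fun k l hk hl t ht => ?_⟩
  set j : ℕ := ⌊t * M⌋₊ with hj
  have htM : 0 ≤ t * M := mul_nonneg ht.1 hM0.le
  have hjT : j ∈ Finset.range (⌊T * M⌋₊ + 1) := by
    rw [Finset.mem_range, Nat.lt_succ_iff]
    exact Nat.floor_mono (mul_le_mul_of_nonneg_right ht.2 hM0.le)
  have h1 : (j : ℝ) / M ≤ t := by
    rw [div_le_iff₀ hM0]
    exact Nat.floor_le htM
  have h2 : t - (j : ℝ) / M ≤ 1 / M := by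
    have h3 := (Nat.lt_floor_add_one (t * M)).le
    rw [← hj] at h3
    rw [sub_le_iff_le_add, ← add_div, le_div_iff₀ hM0]
    linarith
  have hpr := pr_eq (T := T) (h1.trans ht.2)
  have hmem := pr_mem hT j M
  rw [hpr] at hmem
  have hKj := hK j k l ((Finset.le_sup hjT).trans hk) ((Finset.le_sup hjT).trans hl)
  rw [hpr] at hKj
  have hd : ∀ m : ℕ, |a m i t - a m i ((j : ℝ) / M)| ≤ ε / 3 := by
    intro m
    have h3 := hL i m _ hmem t ht
    have h4 : |t - (j : ℝ) / M| ≤ 1 / M := by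
      rw [abs_of_nonneg (by linarith)]
      exact h2
    calc |a m i t - a m i ((j : ℝ) / M)| ≤ L i * |t - (j : ℝ) / M| := h3
      _ ≤ L' * |t - (j : ℝ) / M| := mul_le_mul_of_nonneg_right (le_max_left _ _) (abs_nonneg _)
      _ ≤ L' * (1 / M) := mul_le_mul_of_nonneg_left h4 hL0
      _ = L' / M := by ring
      _ ≤ ε / 3 := hLM
  have e1 := abs_le.1 (hd (φ k))
  have e2 := abs_le.1 (hd (φ l))
  have e3 := abs_le.1 hKj
  rw [abs_le]
  constructor <;> linarith [e1.1, e1.2, e2.1, e2.2, e3.1, e3.2]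

end Pool.Agent.H303.DEE
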