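import Pool.Agent.H303.DEE.Stm4
import Pool.Graph.R_seed8.H459R3.NS.Evo
import Pool.Graph.R_seed8.H459R3.NS.Tril2
import Pool.Graph.R_seed8.H459R3.NS.Phys2

/-!
The inequality of Friedrichs (`D3`).
-/

set_option autoImplicit false

open MeasureTheory Set Filter Topology
open scoped ContDiff ENNReal
open H459R3.NS (SP Per pd cube K3 ee ph fc fr N n2)

namespace Pool.Agent.H303.DEE.D3L

theorem ph_eq (k : K3) (x : V) : ph k x = ∑ j, (k j : ℝ) * x j := rfl

theorem ee_neg_eq (k : K3) (x : V) :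
    ee (-k) x = (Real.cos (2 * Real.pi * ph k x) : ℂ) - (Real.sin (2 * Real.pi * ph k x) : ℂ)
      * Complex.I := by
  have h2 : ee (-k) x = Complex.exp ((-(2 * Real.pi * ph k x : ℝ) : ℂ) * Complex.I) := by
    rw [H459R3.NS.ee, H459R3.NS.ph_neg]; congr 1; push_cast; ring
  rw [h2, Complex.exp_mul_I, Complex.cos_neg, Complex.sin_neg, ← Complex.ofReal_cos,
    ← Complex.ofReal_sin]
  ring

theorem pD_one {f : V → ℝ} (hf : ContDiff ℝ ∞ f) (j : Fin 3) : partialD 1 j f = pd j f := by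
  funext x
  rw [partialD, iteratedFDeriv_one_apply]
  rfl

theorem trg_cont (b : Bool) (k : K3) : Continuous (trg b k) := by
  have h1 : Continuous fun x : V => 2 * Real.pi * ∑ j, (k j : ℝ) * x j := by fun_prop
  cases b
  · have e : trg false k = fun x => Real.sin (2 * Real.pi * ∑ j, (k j : ℝ) * x j) := by
      funext x
      simp [trg]
    rw [e]
    exact Real.continuous_sin.comp h1
  · have e : trg true k = fun x => Real.cos (2 * Real.pi * ∑ j, (k j : ℝ) * x j) := by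
      funext x
      simp [trg]
    rw [e]
    exact Real.continuous_cos.comp h1

/-- the coefficients -/
theorem fr_eq {h : V → ℝ} (hc : Continuous h) (k : K3) :
    fr h k = ((∫ x in Q, h x * trg true k x : ℝ) : ℂ)
      - ((∫ x in Q, h x * trg false k x : ℝ) : ℂ) * Complex.I := by
  have i1 : Integrable (fun x => ((h x * trg true k x : ℝ) : ℂ)) (volume.restrict cube) :=
    (H459R3.NS.integrableOn_cube (hc.mul (trg_cont true k))).ofReal
  have i2 : Integrable (fun x => ((h x * trg false k x : ℝ) : ℂ) * Complex.I)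
      (volume.restrict cube) :=
    ((H459R3.NS.integrableOn_cube (hc.mul (trg_cont false k))).ofReal).mul_const _
  have e : fr h k = ∫ x in cube, (((h x * trg true k x : ℝ) : ℂ)
      - ((h x * trg false k x : ℝ) : ℂ) * Complex.I) := by
    unfold H459R3.NS.fr H459R3.NS.fc
    congr 1
    funext x
    rw [ee_neg_eq, ph_eq]
    simp only [trg, if_true, Bool.false_eq_true, if_false]
    push_cast
    ring
  rw [e, integral_sub i1 i2, integral_mul_const, integral_complex_ofReal, integral_complex_ofReal]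
  rfl

theorem norm_fr {h : V → ℝ} (hc : Continuous h) (k : K3) :
    ‖fr h k‖ ^ 2 = (∫ x in Q, h x * trg true k x) ^ 2 + (∫ x in Q, h x * trg false k x) ^ 2 := by
  rw [fr_eq hc, ← Complex.normSq_eq_norm_sq, Complex.normSq_apply]
  simp
  ring

theorem norm_D (m : Fin 3) (a : K3 → ℂ) (k : K3) :
    ‖H459R3.NS.D m a k‖ ^ 2 = (2 * Real.pi) ^ 2 * ((k m : ℝ) ^ 2 * ‖a k‖ ^ 2) := by
  rw [H459R3.NS.D, norm_mul, norm_mul, norm_mul, norm_mul, Complex.norm_I, mul_one,
    Complex.norm_real, Real.norm_eq_abs, abs_of_pos Real.pi_pos, Complex.norm_ofNat,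
    Complex.norm_intCast]
  rw [mul_pow, mul_pow, sq_abs]
  ring

theorem main (δ : ℝ) (hδ : 0 < δ) : ∃ F : Finset (Fin 3 → ℤ), ∀ h : V → ℝ, ContDiff ℝ ∞ h →
    Periodic h → ∫ x in Q, h x ^ 2 ≤
    (∑ k ∈ F, ((∫ x in Q, h x * trg true k x) ^ 2 + (∫ x in Q, h x * trg false k x) ^ 2))
      + δ * ∫ x in Q, ∑ j, partialD 1 j h x ^ 2 := by
  obtain ⟨r, hr⟩ := exists_nat_gt (1 / δ)
  have hr0 : (0 : ℝ) < r := lt_trans (by positivity) hr
  have hr1 : (1 : ℝ) ≤ r := by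
    have : 0 < r := by exact_mod_cast hr0
    exact_mod_cast this
  refine ⟨(H459R3.NS.finite_box 0 r).toFinset, ?_⟩
  intro h hh hper
  have hsp : SP h := ⟨hh, hper⟩
  have hc : Continuous h := hh.continuous
  have hF : ∀ k : K3, k ∈ (H459R3.NS.finite_box 0 r).toFinset ↔ N k ≤ r := by
    intro k
    rw [Set.Finite.mem_toFinset, Set.mem_setOf_eq, sub_zero]
  have hs0 : Summable fun k => ‖fr h k‖ ^ 2 :=
    H459R3.NS.summable_sq (H459R3.NS.rap_fr hsp).summable
  have hsD : ∀ j, Summable fun k => ‖H459R3.NS.D j (fr h) k‖ ^ 2 := fun j =>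
    H459R3.NS.summable_sq ((H459R3.NS.rap_fr hsp).D j).summable
  have hL : ∫ x in Q, h x ^ 2 = ∑' k, ‖fr h k‖ ^ 2 := by
    rw [← H459R3.NS.n2_sq]
    exact (H459R3.NS.n2_fr hsp).symm
  have hR : ∫ x in Q, ∑ j, partialD 1 j h x ^ 2 = ∑' k, ∑ j, ‖H459R3.NS.D j (fr h) k‖ ^ 2 := by
    rw [Summable.tsum_finsetSum fun j _ => hsD j]
    have e1 : ∫ x in Q, ∑ j, partialD 1 j h x ^ 2 = ∑ j, ∫ x in cube, partialD 1 j h x ^ 2 := by
      refine integral_finsetSum _ fun j _ => H459R3.NS.integrableOn_cube ?_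
      rw [pD_one hh]
      exact (hsp.pd j).smooth.continuous.pow 2
    rw [e1]
    refine Finset.sum_congr rfl fun j _ => ?_
    rw [pD_one hh, ← H459R3.NS.n2_fr (hsp.pd j), H459R3.NS.n2_sq, H459R3.NS.fr_pd hsp j]
  rw [hL, hR]
  have hsum : ∑ k ∈ (H459R3.NS.finite_box 0 r).toFinset,
      ((∫ x in Q, h x * trg true k x) ^ 2 + (∫ x in Q, h x * trg false k x) ^ 2)
      = ∑' k, (if k ∈ (H459R3.NS.finite_box 0 r).toFinset then ‖fr h k‖ ^ 2 else 0) := by
    rw [tsum_eq_sum (s := (H459R3.NS.finite_box 0 r).toFinset)]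
    · refine Finset.sum_congr rfl fun k hk => ?_
      rw [if_pos hk, norm_fr hc]
    · intro k hk
      rw [if_neg hk]
  have hsF : Summable fun k : K3 =>
      (if k ∈ (H459R3.NS.finite_box 0 r).toFinset then ‖fr h k‖ ^ 2 else 0) := by
    refine summable_of_ne_finset_zero (s := (H459R3.NS.finite_box 0 r).toFinset) ?_
    intro k hk
    rw [if_neg hk]
  have hsS : Summable fun k => ∑ j, ‖H459R3.NS.D j (fr h) k‖ ^ 2 := summable_sum fun j _ => hsD j
  rw [hsum, ← tsum_mul_left, ← hsF.tsum_add (hsS.mul_left δ)]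
  refine hs0.tsum_le_tsum ?_ (hsF.add (hsS.mul_left δ))
  intro k
  have hnn : 0 ≤ ∑ j, ‖H459R3.NS.D j (fr h) k‖ ^ 2 :=
    Finset.sum_nonneg fun j _ => by positivity
  by_cases hk : k ∈ (H459R3.NS.finite_box 0 r).toFinset
  · rw [if_pos hk]
    have : 0 ≤ δ * ∑ j, ‖H459R3.NS.D j (fr h) k‖ ^ 2 := mul_nonneg hδ.le hnn
    linarith
  · rw [if_neg hk, zero_add]
    have hN : r < N k := by
      rw [hF] at hk
      omega
    have hNr : (r : ℝ) ≤ N k := by exact_mod_cast hN.le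
    have h1 := H459R3.NS.N_sq_le k
    have h2 : (r : ℝ) ≤ ∑ l, (k l : ℝ) ^ 2 := by nlinarith
    have h3 : ∑ j, ‖H459R3.NS.D j (fr h) k‖ ^ 2
        = (2 * Real.pi) ^ 2 * ((∑ l, (k l : ℝ) ^ 2) * ‖fr h k‖ ^ 2) := by
      rw [Finset.sum_mul, Finset.mul_sum]
      exact Finset.sum_congr rfl fun j _ => norm_D j (fr h) k
    rw [h3]
    have h4 : (1 : ℝ) ≤ (2 * Real.pi) ^ 2 := by
      have := Real.pi_gt_three
      nlinarith
    have h5 : 1 ≤ δ * r := by
      rw [div_lt_iff₀ hδ] at hr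
      linarith
    have h6 : 0 ≤ ‖fr h k‖ ^ 2 := by positivity
    calc ‖fr h k‖ ^ 2 = 1 * (1 * (‖fr h k‖ ^ 2)) := by ring
      _ ≤ (2 * Real.pi) ^ 2 * ((δ * r) * ‖fr h k‖ ^ 2) := by gcongr
      _ ≤ (2 * Real.pi) ^ 2 * ((δ * ∑ l, (k l : ℝ) ^ 2) * ‖fr h k‖ ^ 2) := by gcongr
      _ = δ * ((2 * Real.pi) ^ 2 * ((∑ l, (k l : ℝ) ^ 2) * ‖fr h k‖ ^ 2)) := by ring

end Pool.Agent.H303.DEE.D3L

namespace Pool.Agent.H303.DEE

theorem d3 : D3 := D3L.main

end Pool.Agent.H303.DEE
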