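import Pool.Agent.H303.DEE.Stm4

/-! Strong convergence in space-time (step D4 of project DEE). -/

open MeasureTheory Set Filter Topology
open scoped ContDiff ENNReal

namespace Pool.Agent.H303.DEE

namespace D4L

theorem cont_comp {v : ℝ → V → V}
    (h : ContDiffOn ℝ ∞ (fun z : ℝ × V => v z.1 z.2) (Ici 0 ×ˢ univ)) (i : Fin 3) (T : ℝ) :
    ContinuousOn (fun z : ℝ × V => v z.1 z.2 i) (Icc 0 T ×ˢ Q) := by
  have h1 : ContinuousOn (fun z : ℝ × V => v z.1 z.2 i) (Ici 0 ×ˢ univ) :=
    (continuous_apply i).comp_continuousOn h.continuousOn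
  exact h1.mono (prod_mono Icc_subset_Ici_self (subset_univ _))

theorem cont_grd (h0 : A0) {v : ℝ → V → V}
    (h : ContDiffOn ℝ ∞ (fun z : ℝ × V => v z.1 z.2) (Ici 0 ×ˢ univ)) (T : ℝ) :
    ContinuousOn (fun z : ℝ × V => ∑ i, ∑ j, grd v z.1 z.2 i j ^ 2) (Icc 0 T ×ˢ Q) := by
  refine continuousOn_finsetSum _ fun i _ => continuousOn_finsetSum _ fun j _ => ?_
  exact (((h0 v h).2.1 i j).mono (prod_mono Icc_subset_Ici_self (subset_univ _))).pow 2

theorem K_compact (T : ℝ) : IsCompact (Icc (0 : ℝ) T ×ˢ Q) := isCompact_Icc.prod T8.Q_compact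

theorem int_grd (h0 : A0) {v : ℝ → V → V}
    (h : ContDiffOn ℝ ∞ (fun z : ℝ × V => v z.1 z.2) (Ici 0 ×ˢ univ)) (T : ℝ) :
    IntegrableOn (fun z : ℝ × V => ∑ i, ∑ j, grd v z.1 z.2 i j ^ 2) (Icc 0 T ×ˢ Q) :=
  (cont_grd h0 h T).integrableOn_compact (K_compact T)

/-- the energy bound of the gradient -/
theorem en_bd (h4 : A4) {n : ℕ} {ν : ℝ} {α : Fin 3 → ℝ} {T E : ℝ} {v : ℝ → V → V}
    {p : ℝ → V → ℝ} (hν : 0 < ν) (hn : Odd n) (hv : IsSol n ν α (Ici 0) v p)
    (hE : (∫ x in Q, ∑ i, v 0 x i ^ 2) ≤ E) (hT : 0 ≤ T) :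
    (∫ s in (0 : ℝ)..T, ∫ x in Q, ∑ i, ∑ j, grd v s x i j ^ 2) ≤ E / (2 * ν) := by
  have h := h4 n ν α v p hn hv T hT
  unfold EnergyEq at h
  have h1 : 0 ≤ ∫ x in Q, ∑ i, v T x i ^ 2 :=
    integral_nonneg fun x => Finset.sum_nonneg fun i _ => sq_nonneg _
  rw [le_div_iff₀ (by positivity)]
  nlinarith

theorem partialD_one (j : Fin 3) (f : V → ℝ) (x : V) :
    partialD 1 j f x = fderiv ℝ f x (Pi.single j 1) := by
  unfold partialD
  rw [iteratedFDeriv_one_apply]

theorem partialD_sub {f g : V → ℝ} (hf : ContDiff ℝ ∞ f) (hg : ContDiff ℝ ∞ g) (j : Fin 3) (x : V) :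
    partialD 1 j (fun y => f y - g y) x = partialD 1 j f x - partialD 1 j g x := by
  rw [partialD_one, partialD_one, partialD_one]
  have h1 : DifferentiableAt ℝ f x := (hf.differentiable (by simp)).differentiableAt
  have h2 : DifferentiableAt ℝ g x := (hg.differentiable (by simp)).differentiableAt
  rw [fderiv_fun_sub h1 h2]
  rfl

theorem cont_partialD {f : V → ℝ} (hf : ContDiff ℝ ∞ f) (j : Fin 3) :
    Continuous fun x => partialD 1 j f x := by
  have h : (fun x => partialD 1 j f x) = fun x => fderiv ℝ f x (Pi.single j 1) := by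
    funext x
    exact partialD_one j f x
  rw [h]
  exact (hf.continuous_fderiv (by simp)).clm_apply continuous_const

theorem cont_trg (b : Bool) (m : Fin 3 → ℤ) : Continuous (trg b m) := by
  unfold trg
  cases b <;> simp <;> fun_prop

theorem intQ {f : V → ℝ} (hf : Continuous f) : IntegrableOn f Q :=
  hf.continuousOn.integrableOn_compact T8.Q_compact

/-- the inequality at one time -/
theorem slice (h0 : A0) {δ : ℝ} (hδ : 0 < δ) {F : Finset (Fin 3 → ℤ)}
    (hF : ∀ h : V → ℝ, ContDiff ℝ ∞ h → Periodic h → ∫ x in Q, h x ^ 2 ≤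
    (∑ k ∈ F, ((∫ x in Q, h x * trg true k x) ^ 2 + (∫ x in Q, h x * trg false k x) ^ 2))
      + δ * ∫ x in Q, ∑ j, partialD 1 j h x ^ 2)
    {n : ℕ} {ν : ℝ} {α : Fin 3 → ℝ} {v w : ℝ → V → V} {p q : ℝ → V → ℝ}
    (hv : IsSol n ν α (Ici 0) v p) (hw : IsSol n ν α (Ici 0) w q) {t : ℝ} (ht : 0 ≤ t) {e : ℝ}
    (he : ∀ (b : Bool), ∀ m ∈ F, ∀ i : Fin 3,
      |(∫ x in Q, v t x i * trg b m x) - ∫ x in Q, w t x i * trg b m x| ≤ e) (i : Fin 3) :
    ∫ x in Q, (w t x i - v t x i) ^ 2 ≤ 2 * F.card * e ^ 2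
      + δ * (2 * (∫ x in Q, ∑ i, ∑ j, grd v t x i j ^ 2)
        + 2 * ∫ x in Q, ∑ i, ∑ j, grd w t x i j ^ 2) := by
  have cv : ContDiff ℝ ∞ (v t) := (h0 v hv.smooth_u).1 t ht
  have cw : ContDiff ℝ ∞ (w t) := (h0 w hw.smooth_u).1 t ht
  have cvi : ∀ i, ContDiff ℝ ∞ (fun x => v t x i) := fun i => contDiff_pi.1 cv i
  have cwi : ∀ i, ContDiff ℝ ∞ (fun x => w t x i) := fun i => contDiff_pi.1 cw i
  have hper : Periodic fun x => w t x i - v t x i := by
    intro j x
    show w t (x + Pi.single j 1) i - v t (x + Pi.single j 1) i = _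
    rw [hw.per_u t ht j x, hv.per_u t ht j x]
  refine (hF (fun x => w t x i - v t x i) ((cwi i).sub (cvi i)) hper).trans ?_
  have he0 : ∀ (b : Bool), ∀ m ∈ F, (∫ x in Q, (w t x i - v t x i) * trg b m x) ^ 2 ≤ e ^ 2 := by
    intro b m hm
    have h1 : ∫ x in Q, (w t x i - v t x i) * trg b m x =
        (∫ x in Q, w t x i * trg b m x) - ∫ x in Q, v t x i * trg b m x := by
      have ia : IntegrableOn (fun x => w t x i * trg b m x) Q :=
        intQ ((cwi i).continuous.mul (cont_trg b m))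
      have ib : IntegrableOn (fun x => v t x i * trg b m x) Q :=
        intQ ((cvi i).continuous.mul (cont_trg b m))
      rw [← integral_sub ia ib]
      refine integral_congr_ae (Filter.Eventually.of_forall fun x => ?_)
      simp only
      ring
    rw [h1, ← sq_abs]
    have h2 := he b m hm i
    rw [abs_sub_comm] at h2
    exact pow_le_pow_left₀ (abs_nonneg _) h2 2
  refine add_le_add ?_ (mul_le_mul_of_nonneg_left ?_ hδ.le)
  · calc _ ≤ ∑ _k ∈ F, (e ^ 2 + e ^ 2) :=
          Finset.sum_le_sum fun k hk => add_le_add (he0 true k hk) (he0 false k hk)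
      _ = 2 * F.card * e ^ 2 := by
          rw [Finset.sum_const, nsmul_eq_mul]
          ring
  · have gv : ∀ i j, Continuous fun x => grd v t x i j := fun i j => cont_partialD (cvi i) j
    have gw : ∀ i j, Continuous fun x => grd w t x i j := fun i j => cont_partialD (cwi i) j
    have sv : Continuous fun x => ∑ i, ∑ j, grd v t x i j ^ 2 :=
      continuous_finsetSum _ fun i _ => continuous_finsetSum _ fun j _ => (gv i j).pow 2
    have sw : Continuous fun x => ∑ i, ∑ j, grd w t x i j ^ 2 :=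
      continuous_finsetSum _ fun i _ => continuous_finsetSum _ fun j _ => (gw i j).pow 2
    rw [← integral_const_mul, ← integral_const_mul, ← integral_add ((intQ sv).const_mul 2)
      ((intQ sw).const_mul 2)]
    refine integral_mono (intQ ?_) (((intQ sv).const_mul 2).add ((intQ sw).const_mul 2)) ?_
    · exact continuous_finsetSum _ fun j _ => (cont_partialD ((cwi i).sub (cvi i)) j).pow 2
    · intro x
      simp only
      have h1 : ∀ j, partialD 1 j (fun y => w t y i - v t y i) x ^ 2 ≤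
          2 * grd v t x i j ^ 2 + 2 * grd w t x i j ^ 2 := by
        intro j
        rw [partialD_sub (cwi i) (cvi i)]
        show (grd w t x i j - grd v t x i j) ^ 2 ≤ _
        nlinarith [sq_nonneg (grd w t x i j + grd v t x i j)]
      have h2 : ∀ u : ℝ → V → V, ∑ j, grd u t x i j ^ 2 ≤ ∑ i, ∑ j, grd u t x i j ^ 2 :=
        fun u => Finset.single_le_sum (f := fun i => ∑ j, grd u t x i j ^ 2)
          (fun i _ => Finset.sum_nonneg fun j _ => sq_nonneg _) (Finset.mem_univ i)
      calc _ ≤ ∑ j, (2 * grd v t x i j ^ 2 + 2 * grd w t x i j ^ 2) :=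
            Finset.sum_le_sum fun j _ => h1 j
        _ = 2 * ∑ j, grd v t x i j ^ 2 + 2 * ∑ j, grd w t x i j ^ 2 := by
            rw [Finset.sum_add_distrib, Finset.mul_sum, Finset.mul_sum]
        _ ≤ _ := by
            have := h2 v
            have := h2 w
            linarith

theorem int_slice {T : ℝ} (hT : 0 ≤ T) {F : ℝ × V → ℝ} (hF : IntegrableOn F (Icc 0 T ×ˢ Q)) :
    IntervalIntegrable (fun s => ∫ x in Q, F (s, x)) volume 0 T := by
  rw [intervalIntegrable_iff_integrableOn_Icc_of_le hT]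
  have h : Integrable F ((volume.restrict (Icc 0 T)).prod (volume.restrict Q)) := by
    rw [Measure.prod_restrict]
    exact hF
  exact h.integral_prod_left

end D4L

open D4L in
theorem d4 (h0 : A0) (h4 : A4) (d3 : D3) : D4 := by
  intro n ν α T E v p hν hn hsol hE hC ε hε
  rcases lt_or_ge T 0 with hT | hT
  · refine ⟨0, fun k l _ _ i => ?_⟩
    rw [Icc_eq_empty (not_le.2 hT), empty_prod, Measure.restrict_empty, integral_zero_measure]
    exact hε.le
  have hE0 : 0 ≤ E := le_trans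
    (integral_nonneg fun x => Finset.sum_nonneg fun i _ => sq_nonneg _) (hE 0)
  set δ : ℝ := ε / (2 * (1 + 2 * E / ν)) with hδdef
  have hden : 0 < 1 + 2 * E / ν := by positivity
  have hδ : 0 < δ := by positivity
  have hδ2 : δ * (2 * E / ν) ≤ ε / 2 := by
    rw [hδdef, div_mul_eq_mul_div, div_le_div_iff₀ (by positivity) (by norm_num)]
    nlinarith
  obtain ⟨F, hF⟩ := d3 δ hδ
  set e : ℝ := √(ε / (4 * (T * F.card + 1))) with hedef
  have hpos : 0 < T * F.card + 1 := by positivity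
  have he : 0 < e := Real.sqrt_pos.2 (by positivity)
  have he2 : e ^ 2 = ε / (4 * (T * F.card + 1)) := Real.sq_sqrt (by positivity)
  have he3 : T * (2 * F.card * e ^ 2) ≤ ε / 2 := by
    rw [he2]
    have : T * (2 * F.card * (ε / (4 * (T * F.card + 1)))) =
        (T * F.card) * ε / (2 * (T * F.card + 1)) := by
      field_simp
      ring
    rw [this, div_le_div_iff₀ (by positivity) (by norm_num)]
    nlinarith
  choose K hK using fun (b : Bool) (m : Fin 3 → ℤ) (i : Fin 3) => hC b m i e he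
  refine ⟨F.sup fun m => (Finset.univ : Finset (Bool × Fin 3)).sup fun y => K y.1 m y.2,
    fun k l hk hl i => ?_⟩
  have hKle : ∀ (b : Bool), ∀ m ∈ F, ∀ i : Fin 3, K b m i ≤
      F.sup fun m => (Finset.univ : Finset (Bool × Fin 3)).sup fun y => K y.1 m y.2 := by
    intro b m hm i
    refine le_trans ?_ (Finset.le_sup
      (f := fun m => (Finset.univ : Finset (Bool × Fin 3)).sup fun y => K y.1 m y.2) hm)
    exact Finset.le_sup (f := fun y : Bool × Fin 3 => K y.1 m y.2) (Finset.mem_univ (b, i))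
  have hcont : ContinuousOn (fun z : ℝ × V => (v l z.1 z.2 i - v k z.1 z.2 i) ^ 2)
      (Icc 0 T ×ˢ Q) :=
    ((cont_comp (hsol l).smooth_u i T).sub (cont_comp (hsol k).smooth_u i T)).pow 2
  have hint : IntegrableOn (fun z : ℝ × V => (v l z.1 z.2 i - v k z.1 z.2 i) ^ 2)
      (Icc 0 T ×ˢ Q) := hcont.integrableOn_compact (K_compact T)
  rw [← T8.fub hT hint]
  have gl := int_slice hT (int_grd h0 (hsol l).smooth_u T)
  have gk := int_slice hT (int_grd h0 (hsol k).smooth_u T)
  simp only at gl gk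
  have hmono : ∫ s in (0 : ℝ)..T, ∫ x in Q, (v l s x i - v k s x i) ^ 2 ≤
      ∫ s in (0 : ℝ)..T, (2 * F.card * e ^ 2
        + δ * (2 * (∫ x in Q, ∑ i, ∑ j, grd (v k) s x i j ^ 2)
        + 2 * ∫ x in Q, ∑ i, ∑ j, grd (v l) s x i j ^ 2)) := by
    refine intervalIntegral.integral_mono_on hT (int_slice hT hint)
      (intervalIntegrable_const.add (((gk.const_mul 2).add (gl.const_mul 2)).const_mul δ)) ?_
    intro s hs
    refine slice h0 hδ hF (hsol k) (hsol l) hs.1 (fun b m hm i => ?_) i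
    exact hK b m i k l ((hKle b m hm i).trans hk) ((hKle b m hm i).trans hl) s hs
  refine hmono.trans ?_
  rw [intervalIntegral.integral_add intervalIntegrable_const
    (((gk.const_mul 2).add (gl.const_mul 2)).const_mul δ), intervalIntegral.integral_const,
    intervalIntegral.integral_const_mul, intervalIntegral.integral_add (gk.const_mul 2)
    (gl.const_mul 2), intervalIntegral.integral_const_mul, intervalIntegral.integral_const_mul]
  have bl := en_bd h4 hν hn (hsol l) (hE l) hT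
  have bk := en_bd h4 hν hn (hsol k) (hE k) hT
  have h3 : δ * (2 * (∫ s in (0 : ℝ)..T, ∫ x in Q, ∑ i, ∑ j, grd (v k) s x i j ^ 2) +
      2 * ∫ s in (0 : ℝ)..T, ∫ x in Q, ∑ i, ∑ j, grd (v l) s x i j ^ 2) ≤ ε / 2 := by
    refine le_trans (mul_le_mul_of_nonneg_left ?_ hδ.le) hδ2
    have : 2 * E / ν = 2 * (E / (2 * ν)) + 2 * (E / (2 * ν)) := by
      field_simp
      ring
    rw [this]
    linarith
  rw [sub_zero, smul_eq_mul]
  linarith

end Pool.Agent.H303.DEE
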