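import Pool.Agent.H303.DEE.Stm4

/-!
Weak limits for every time: `D5a` from `D5r`.
-/

open MeasureTheory Set Filter Topology
open scoped ContDiff ENNReal

namespace Pool.Agent.H303.DEE

namespace D5aL

/-- weak limits in a Hilbert space -/
theorem wl {H : Type*} [NormedAddCommGroup H] [InnerProductSpace ℝ H] [CompleteSpace H]
    (x : ℕ → H) (hx : ∀ g, CauchySeq fun k => inner ℝ (x k) g) :
    ∃ U : H, ∀ g, Tendsto (fun k => inner ℝ (x k) g) atTop (𝓝 (inner ℝ U g)) := by
  have h1 : ∀ g, ∃ a : ℝ, Tendsto (fun k => inner ℝ (x k) g) atTop (𝓝 a) := fun g =>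
    cauchySeq_tendsto_of_complete (hx g)
  choose f hf using h1
  have h2 : Tendsto (fun (k : ℕ) (g : H) => (innerSL ℝ (x k)) g) atTop (𝓝 f) := by
    rw [tendsto_pi_nhds]
    intro g
    exact hf g
  let L : H →L[ℝ] ℝ := continuousLinearMapOfTendsto (fun k => innerSL ℝ (x k)) h2
  refine ⟨(InnerProductSpace.toDual ℝ H).symm L, fun g => ?_⟩
  have h3 : inner ℝ ((InnerProductSpace.toDual ℝ H).symm L) g = L g :=
    InnerProductSpace.toDual_symm_apply
  rw [h3]
  exact hf g

/-- orthonormal sets in separable spaces are countable -/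
theorem oc {H : Type*} [NormedAddCommGroup H] [InnerProductSpace ℝ H]
    [TopologicalSpace.SeparableSpace H] {w : Set H} (hw : Orthonormal ℝ ((↑) : w → H)) :
    Countable w := by
  have h1 : (univ : Set w).PairwiseDisjoint fun a : w => Metric.ball (a : H) (1 / 2) := by
    intro a _ b _ hab
    refine Metric.ball_disjoint_ball ?_
    have h2 : ‖(a : H) - b‖ * ‖(a : H) - b‖ = 2 := by
      rw [norm_sub_mul_self_real, hw.1 a, hw.1 b, hw.2 hab]
      norm_num
    rw [dist_eq_norm]
    have h3 : 0 ≤ ‖(a : H) - b‖ := norm_nonneg _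
    nlinarith
  have h4 : (univ : Set w).Countable := h1.countable_of_isOpen (fun a _ => Metric.isOpen_ball)
    (fun a _ => ⟨a, Metric.mem_ball_self (by norm_num)⟩)
  exact Set.countable_univ_iff.1 h4

/-- weakly measurable functions are measurable -/
theorem pettis {X H : Type*} [MeasurableSpace X] [NormedAddCommGroup H] [InnerProductSpace ℝ H]
    [CompleteSpace H] [TopologicalSpace.SeparableSpace H] (U : X → H)
    (hU : ∀ e : H, Measurable fun t => inner ℝ (U t) e) : StronglyMeasurable U := by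
  obtain ⟨w, b, hb⟩ := exists_hilbertBasis ℝ H
  have hc : Countable w := by
    refine oc (w := w) ?_
    rw [← hb]
    exact b.orthonormal
  have h1 : ∀ t, HasSum (fun i => inner ℝ (b i) (U t) • b i) (U t) := fun t => by
    have := b.hasSum_repr (U t)
    simpa [b.repr_apply_apply] using this
  refine stronglyMeasurable_of_tendsto (u := (atTop : Filter (Finset w)))
    (f := fun F t => ∑ i ∈ F, inner ℝ (b i) (U t) • b i) (fun F => ?_) ?_
  · refine Finset.stronglyMeasurable_fun_sum _ fun i _ => ?_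
    refine StronglyMeasurable.smul_const ?_ _
    have : (fun t => inner ℝ (b i) (U t)) = fun t => inner ℝ (U t) (b i) := by
      funext t
      exact real_inner_comm _ _
    rw [this]
    exact (hU _).stronglyMeasurable
  · rw [tendsto_pi_nhds]
    intro t
    exact h1 t

theorem inner_toLp {f g : V → ℝ} (hf : MemLp f 2 mQ) (hg : MemLp g 2 mQ) :
    inner ℝ (hf.toLp f) (hg.toLp g) = ∫ x in Q, f x * g x := by
  rw [L2.inner_def]
  refine integral_congr_ae ?_
  filter_upwards [hf.coeFn_toLp, hg.coeFn_toLp] with x h1 h2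
  rw [h1, h2]
  simp [mul_comm]

theorem inner_Lp (f g : Lp ℝ 2 mQ) : inner ℝ f g = ∫ x in Q, f x * g x := by
  rw [L2.inner_def]
  refine integral_congr_ae (Eventually.of_forall fun x => ?_)
  simp [mul_comm]

end D5aL

open D5aL in
theorem d5a (hr : D5r) : D5a := by
  intro T E w hwm hw2 hwE hc
  have hex : ∀ t ∈ Icc 0 T, ∃ U : Lp ℝ 2 mQ, ∀ g : Lp ℝ 2 mQ,
      Tendsto (fun k => ∫ x in Q, w k t x * g x) atTop (𝓝 (inner ℝ U g)) := by
    intro t ht
    have h0 : ∀ k (g : Lp ℝ 2 mQ),
        inner ℝ ((hw2 k t ht).toLp (w k t)) g = ∫ x in Q, w k t x * g x := by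
      intro k g
      have h1 := inner_toLp (hw2 k t ht) (Lp.memLp g)
      rwa [Lp.toLp_coeFn] at h1
    obtain ⟨U, hU⟩ := wl (fun k => (hw2 k t ht).toLp (w k t)) (fun g => by
      simp only [h0]
      exact hc t ht g (Lp.memLp g))
    refine ⟨U, fun g => ?_⟩
    have := hU g
    simpa only [h0] using this
  classical
  let U : ℝ → Lp ℝ 2 mQ := fun t => if ht : t ∈ Icc 0 T then (hex t ht).choose else 0
  have hU : ∀ t ∈ Icc 0 T, ∀ g : Lp ℝ 2 mQ,
      Tendsto (fun k => ∫ x in Q, w k t x * g x) atTop (𝓝 (inner ℝ (U t) g)) := by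
    intro t ht g
    have h1 : U t = (hex t ht).choose := dif_pos ht
    rw [h1]
    exact (hex t ht).choose_spec g
  have hU0 : ∀ t ∉ Icc 0 T, U t = 0 := fun t ht => dif_neg ht
  have hUm : StronglyMeasurable U := by
    have : Fact ((2 : ℝ≥0∞) ≠ (⊤ : ℝ≥0∞)) := ⟨by norm_num⟩
    have : SecondCountableTopology (Lp ℝ 2 mQ) := Lp.SecondCountableTopology
    refine pettis U fun e => ?_
    have h1 : ∀ k, Measurable ((Icc (0 : ℝ) T).indicator fun t => ∫ x in Q, w k t x * e x) := by
      intro k
      refine Measurable.indicator ?_ measurableSet_Icc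
      have h2 : StronglyMeasurable fun z : ℝ × V => w k z.1 z.2 * e z.2 :=
        ((hwm k).mul ((Lp.stronglyMeasurable e).measurable.comp measurable_snd)).stronglyMeasurable
      exact (h2.integral_prod_right' (ν := mQ)).measurable
    refine measurable_of_tendsto_metrizable h1 ?_
    rw [tendsto_pi_nhds]
    intro t
    by_cases ht : t ∈ Icc 0 T
    · simp only [Set.indicator_of_mem ht]
      exact hU t ht e
    · simp only [Set.indicator_of_notMem ht, hU0 t ht, inner_zero_left]
      exact tendsto_const_nhds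
  obtain ⟨u, hum, hu⟩ := hr U hUm
  refine ⟨u, hum, fun t ht => ⟨(memLp_congr_ae (hu t)).2 (Lp.memLp (U t)), fun g hg => ?_⟩⟩
  have h1 := hU t ht (hg.toLp g)
  have h2 : ∀ k, ∫ x in Q, w k t x * (hg.toLp g) x = ∫ x in Q, w k t x * g x := by
    intro k
    refine integral_congr_ae ?_
    filter_upwards [hg.coeFn_toLp] with x hx
    rw [hx]
  have h3 : inner ℝ (U t) (hg.toLp g) = ∫ x in Q, u t x * g x := by
    rw [inner_Lp]
    refine integral_congr_ae ?_
    filter_upwards [hg.coeFn_toLp, hu t] with x hx hx2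
    rw [hx, hx2]
  rw [← h3]
  simpa only [h2] using h1

end Pool.Agent.H303.DEE
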