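import Pool.Agent.H303.DEE.Stm2
import Pool.Graph.R_seed8.H459R3.NS.Four

/-!
Smooth fields are dense in `H¹_σ` (`B8`), by truncation of the Fourier series.
-/

open MeasureTheory Set Filter Topology
open scoped ContDiff ENNReal

namespace Pool.Agent.H303.DEE.TS8

open H459R3.NS (K3 ee cov fc ph)

attribute [local instance] instMeasureSpaceUnitAddCircle

local instance : IsProbabilityMeasure (volume : Measure UnitAddCircle) :=
  inferInstanceAs (IsProbabilityMeasure AddCircle.haarAddCircle)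

/-- The points of the cell. -/
noncomputable def sec (t : UnitAddTorus (Fin 3)) : V :=
  (UnitAddTorus.measurableEquivPiIoc (0 : V) t).1

theorem cov_sec (t : UnitAddTorus (Fin 3)) : cov (sec t) = t :=
  (UnitAddTorus.measurableEquivPiIoc (0 : V)).symm_apply_apply t

theorem cell_meas : MeasurableSet {x : V | ∀ i, x i ∈ Ioc ((0 : V) i) ((0 : V) i + 1)} :=
  MeasurableSet.univ_pi' (fun _ => measurableSet_Ioc)

theorem sec_emb : MeasurableEmbedding sec :=
  (MeasurableEmbedding.subtype_coe cell_meas).comp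
    (UnitAddTorus.measurableEquivPiIoc (0 : V)).measurableEmbedding

theorem sec_mp : MeasurePreserving sec volume mQ := by
  have h1 := UnitAddTorus.measurePreserving_equivPiIoc (0 : Fin 3 → ℝ)
  have h2 := measurePreserving_subtype_coe (μa := (volume : Measure V)) cell_meas
  have h3 : (volume : Measure V).restrict {x : V | ∀ i, x i ∈ Ioc ((0 : V) i) ((0 : V) i + 1)} =
      mQ := Measure.restrict_congr_set H459R3.NS.cell_ae
  rw [← h3]
  exact h2.comp h1

theorem norm_sq_L2 (h : Lp ℂ 2 (volume : Measure (UnitAddTorus (Fin 3)))) :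
    ‖h‖ ^ 2 = ∫ t, ‖h t‖ ^ 2 := by
  rw [← inner_self_eq_norm_sq (𝕜 := ℂ), L2.inner_def, ← integral_re (L2.integrable_inner h h)]
  apply integral_congr_ae
  filter_upwards with t
  exact inner_self_eq_norm_sq (𝕜 := ℂ) (h t)

/-- Truncations of the Fourier series converge in `L²(Q)`. -/
theorem trunc (F : V → ℂ) (hF : MemLp F 2 mQ) (ε : ℝ) (hε : 0 < ε) :
    ∃ S₀ : Finset K3, ∀ S : Finset K3, S₀ ⊆ S →
      ∫ x in Q, ‖F x - ∑ k ∈ S, fc F k * ee k x‖ ^ 2 ≤ ε := by
  have hF' : MemLp (F ∘ sec) 2 (volume : Measure (UnitAddTorus (Fin 3))) :=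
    hF.comp_measurePreserving sec_mp
  obtain ⟨f, hf⟩ : ∃ f : Lp ℂ 2 (volume : Measure (UnitAddTorus (Fin 3))), f = hF'.toLp := ⟨_, rfl⟩
  have hfa : ⇑f =ᵐ[volume] F ∘ sec := by
    rw [hf]
    exact hF'.coeFn_toLp
  have hmF : ∀ (k : K3) (t : UnitAddTorus (Fin 3)), UnitAddTorus.mFourier k t = ee k (sec t) := by
    intro k t
    conv_lhs => rw [← cov_sec t]
    exact H459R3.NS.mFourier_cov k (sec t)
  have hco : ∀ k, UnitAddTorus.mFourierCoeff (⇑f) k = fc F k := by
    intro k
    have h1 : UnitAddTorus.mFourierCoeff (⇑f) k =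
        ∫ t, (fun x => ee (-k) x * F x) (sec t) := by
      apply integral_congr_ae
      filter_upwards [hfa] with t ht
      rw [ht, smul_eq_mul, hmF]
      rfl
    rw [h1]
    exact sec_mp.integral_comp sec_emb (fun x => ee (-k) x * F x)
  have hs := UnitAddTorus.hasSum_mFourier_series_L2 f
  have hs2 : Tendsto (fun S : Finset K3 => ‖f - ∑ k ∈ S,
      UnitAddTorus.mFourierCoeff (⇑f) k • UnitAddTorus.mFourierLp 2 k‖ ^ 2) atTop (𝓝 0) := by
    have h1 : Tendsto (fun S : Finset K3 => f - ∑ k ∈ S,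
        UnitAddTorus.mFourierCoeff (⇑f) k • UnitAddTorus.mFourierLp 2 k) atTop (𝓝 (f - f)) :=
      tendsto_const_nhds.sub hs
    rw [sub_self] at h1
    have h2 := (h1.norm).pow 2
    simpa using h2
  have hev := hs2.eventually_le_const hε
  obtain ⟨S₀, hS₀⟩ := eventually_atTop.mp hev
  refine ⟨S₀, fun S hS => ?_⟩
  have h3 := hS₀ S hS
  refine le_trans (le_of_eq ?_) h3
  rw [norm_sq_L2]
  have h4 : (∑ k ∈ S, UnitAddTorus.mFourierCoeff (⇑f) k • UnitAddTorus.mFourierLp 2 k) =
      ContinuousMap.toLp (E := ℂ) 2 (volume : Measure (UnitAddTorus (Fin 3))) ℂ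
        (∑ k ∈ S, fc F k • UnitAddTorus.mFourier k) := by
    rw [map_sum]
    apply Finset.sum_congr rfl
    intro k _
    rw [map_smul, hco]
  rw [h4]
  have h5 : ∫ t, ‖(f - ContinuousMap.toLp (E := ℂ) 2 (volume : Measure (UnitAddTorus (Fin 3))) ℂ
      (∑ k ∈ S, fc F k • UnitAddTorus.mFourier k)) t‖ ^ 2 =
      ∫ t, (fun x => ‖F x - ∑ k ∈ S, fc F k * ee k x‖ ^ 2) (sec t) := by
    apply integral_congr_ae
    filter_upwards [hfa, Lp.coeFn_sub f (ContinuousMap.toLp (E := ℂ) 2
      (volume : Measure (UnitAddTorus (Fin 3))) ℂ (∑ k ∈ S, fc F k • UnitAddTorus.mFourier k)),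
      ContinuousMap.coeFn_toLp (𝕜 := ℂ) (p := 2) (volume : Measure (UnitAddTorus (Fin 3)))
        (∑ k ∈ S, fc F k • UnitAddTorus.mFourier k)] with t h1 h2 h3
    rw [h2, Pi.sub_apply, h1, h3]
    show ‖F (sec t) - (∑ k ∈ S, fc F k • UnitAddTorus.mFourier k) t‖ ^ 2 = _
    rw [ContinuousMap.coe_sum, Finset.sum_apply]
    congr 3
    apply Finset.sum_congr rfl
    intro k _
    show fc F k • UnitAddTorus.mFourier k t = _
    rw [smul_eq_mul, hmF]
  rw [h5]
  exact (sec_mp.integral_comp sec_emb (fun x => ‖F x - ∑ k ∈ S, fc F k * ee k x‖ ^ 2)).symm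

/-! ### derivatives -/

/-- The factor `2 π i k_j`. -/
noncomputable def dk (k : K3) (j : Fin 3) : ℂ := 2 * Real.pi * Complex.I * ((k j : ℝ) : ℂ)

theorem dk_neg (k : K3) (j : Fin 3) : dk (-k) j = -dk k j := by
  simp [dk]

/-- The linear form `k · x`. -/
noncomputable def lf (k : K3) : V →L[ℝ] ℝ :=
  ∑ j, (k j : ℝ) • (ContinuousLinearMap.proj j : V →L[ℝ] ℝ)

theorem lf_apply (k : K3) (x : V) : lf k x = ph k x := by
  simp [lf, ph, ContinuousLinearMap.sum_apply]

theorem hasFDerivAt_ee (k : K3) (x : V) :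
    HasFDerivAt (ee k) (ee k x • ((2 * Real.pi * Complex.I : ℂ) •
      (Complex.ofRealCLM.comp (lf k)))) x := by
  have h0 : HasFDerivAt (fun y : V => ((lf k y : ℝ) : ℂ)) (Complex.ofRealCLM.comp (lf k)) x :=
    Complex.ofRealCLM.hasFDerivAt.comp x (lf k).hasFDerivAt
  have h1 := (h0.const_mul (2 * Real.pi * Complex.I : ℂ)).cexp
  have h2 : (fun y : V => Complex.exp (2 * Real.pi * Complex.I * ((lf k y : ℝ) : ℂ))) = ee k := by
    funext y
    rw [lf_apply]
    rfl
  rw [h2] at h1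
  have h3 : Complex.exp (2 * Real.pi * Complex.I * ((lf k x : ℝ) : ℂ)) = ee k x := by
    rw [lf_apply]
    rfl
  rw [h3] at h1
  exact h1

theorem pD (S : Finset K3) (a : K3 → ℂ) (j : Fin 3) (x : V) :
    partialD 1 j (fun x => (∑ k ∈ S, a k * ee k x).re) x =
      (∑ k ∈ S, a k * (dk k j * ee k x)).re := by
  have h1 : HasFDerivAt (fun x => ∑ k ∈ S, a k * ee k x)
      (∑ k ∈ S, a k • (ee k x • ((2 * Real.pi * Complex.I : ℂ) •
        (Complex.ofRealCLM.comp (lf k))))) x :=
    HasFDerivAt.fun_sum (fun k _ => (hasFDerivAt_ee k x).const_mul (a k))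
  have h2 : HasFDerivAt (fun x => (∑ k ∈ S, a k * ee k x).re)
      (Complex.reCLM.comp (∑ k ∈ S, a k • (ee k x • ((2 * Real.pi * Complex.I : ℂ) •
        (Complex.ofRealCLM.comp (lf k)))))) x := Complex.reCLM.hasFDerivAt.comp x h1
  rw [partialD, iteratedFDeriv_one_apply, h2.fderiv, ContinuousLinearMap.comp_apply,
    ContinuousLinearMap.sum_apply, Complex.reCLM_apply]
  congr 1
  apply Finset.sum_congr rfl
  intro k _
  have h3 : lf k (Pi.single j 1) = (k j : ℝ) := by
    rw [lf_apply, H459R3.NS.ph_single, mul_one]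
  rw [ContinuousLinearMap.smul_apply, ContinuousLinearMap.smul_apply,
    ContinuousLinearMap.smul_apply, ContinuousLinearMap.comp_apply, h3, Complex.ofRealCLM_apply,
    smul_eq_mul, smul_eq_mul, smul_eq_mul, dk]
  ring

theorem smooth_re (S : Finset K3) (a : K3 → ℂ) :
    ContDiff ℝ ∞ (fun x : V => (∑ k ∈ S, a k * ee k x).re) :=
  Complex.reCLM.contDiff.comp
    (ContDiff.sum fun k _ => contDiff_const.mul (H459R3.NS.ee_contDiff k))

theorem per_re (S : Finset K3) (a : K3 → ℂ) :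
    Periodic (fun x : V => (∑ k ∈ S, a k * ee k x).re) := by
  intro j x
  show (∑ k ∈ S, a k * ee k (x + Pi.single j 1)).re = (∑ k ∈ S, a k * ee k x).re
  congr 1
  exact Finset.sum_congr rfl (fun k _ => by rw [H459R3.NS.ee_per k j x])

/-! ### coefficients -/

/-- The Fourier coefficients of a real function. -/
noncomputable def cf (F : V → ℝ) (k : K3) : ℂ := fc (fun x => (F x : ℂ)) k

theorem int_ee (F : V → ℝ) (hF : MemLp F 2 mQ) (k : K3) :
    Integrable (fun x => ee k x * (F x : ℂ)) mQ := by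
  haveI : IsFiniteMeasure mQ := H459R3.NS.cube_finite
  have h1 : Integrable (fun x => (F x : ℂ)) mQ := (hF.integrable (by norm_num)).ofReal
  refine h1.bdd_mul (c := 1) (H459R3.NS.ee_continuous k).aestronglyMeasurable ?_
  filter_upwards with x
  exact (H459R3.NS.norm_ee k x).le

theorem re_cf (F : V → ℝ) (hF : MemLp F 2 mQ) (k : K3) (c : ℂ) :
    (c * cf F k).re = ∫ x in Q, F x * (c * ee (-k) x).re := by
  have h1 : c * cf F k = ∫ x in Q, c * (ee (-k) x * (F x : ℂ)) := by
    rw [integral_const_mul]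
    rfl
  have h2 := (Complex.reCLM.integral_comp_comm ((int_ee F hF (-k)).const_mul c))
  rw [h1]
  have h3 : (∫ x in Q, c * (ee (-k) x * (F x : ℂ))).re =
      ∫ x in Q, Complex.reCLM (c * (ee (-k) x * (F x : ℂ))) := h2.symm
  rw [h3]
  apply integral_congr_ae
  filter_upwards with x
  rw [Complex.reCLM_apply, ← mul_assoc, Complex.re_mul_ofReal, mul_comm]

theorem int_re (F : V → ℝ) (hF : MemLp F 2 mQ) (k : K3) (c : ℂ) :
    Integrable (fun x => F x * (c * ee k x).re) mQ := by
  have h1 := ((int_ee F hF k).const_mul c).re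
  refine h1.congr ?_
  filter_upwards with x
  show (c * (ee k x * (F x : ℂ))).re = F x * (c * ee k x).re
  rw [← mul_assoc, Complex.re_mul_ofReal, mul_comm]

theorem eq_zero_of_re (z : ℂ) (h : ∀ c : ℂ, (c * z).re = 0) : z = 0 := by
  have h1 := h 1
  have h2 := h Complex.I
  rw [one_mul] at h1
  rw [Complex.I_mul_re] at h2
  exact Complex.ext h1 (by rw [Complex.zero_im]; linarith)

theorem pD1 (k : K3) (c : ℂ) (j : Fin 3) (x : V) :
    partialD 1 j (fun x => (c * ee k x).re) x = ((c * dk k j) * ee k x).re := by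
  have h := pD {k} (fun _ => c) j x
  simp only [Finset.sum_singleton] at h
  rw [h, mul_assoc]

variable {f : V → V} {g : V → Fin 3 → Fin 3 → ℝ}

theorem cf_grad (hfg : H1s f g) (i j : Fin 3) (k : K3) :
    cf (fun x => g x i j) k = cf (fun x => f x i) k * dk k j := by
  have h1 : cf (fun x => g x i j) k - cf (fun x => f x i) k * dk k j = 0 := by
    apply eq_zero_of_re
    intro c
    have h2 := hfg.grad (fun x => (c * ee (-k) x).re)
      (by
        have := smooth_re {-k} (fun _ => c)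
        simpa only [Finset.sum_singleton] using this)
      (by
        have := per_re {-k} (fun _ => c)
        simpa only [Finset.sum_singleton] using this) i j
    simp only [pD1] at h2
    rw [← re_cf _ (hfg.l2g i j) k c, ← re_cf _ (hfg.l2 i) k (c * dk (-k) j), dk_neg] at h2
    have h3 : c * (cf (fun x => g x i j) k - cf (fun x => f x i) k * dk k j) =
        c * cf (fun x => g x i j) k + c * -dk k j * cf (fun x => f x i) k := by ring
    rw [h3, Complex.add_re, h2]
    ring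
  exact sub_eq_zero.mp h1

theorem cf_div (hfg : H1s f g) (k : K3) : ∑ j, cf (fun x => f x j) k * dk k j = 0 := by
  apply eq_zero_of_re
  intro c
  have h2 := hfg.div (fun x => (c * ee (-k) x).re)
    (by
      have := smooth_re {-k} (fun _ => c)
      simpa only [Finset.sum_singleton] using this)
    (by
      have := per_re {-k} (fun _ => c)
      simpa only [Finset.sum_singleton] using this)
  simp only [pD1] at h2
  rw [integral_finset_sum _ (fun j _ => int_re _ (hfg.l2 j) (-k) (c * dk (-k) j))] at h2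
  have h3 : ∀ j, ∫ x in Q, f x j * (c * dk (-k) j * ee (-k) x).re =
      -(c * (cf (fun x => f x j) k * dk k j)).re := by
    intro j
    rw [← re_cf _ (hfg.l2 j) k (c * dk (-k) j), dk_neg, ← Complex.neg_re]
    congr 1
    ring
  rw [Finset.sum_congr rfl (fun j _ => h3 j), Finset.sum_neg_distrib, neg_eq_zero] at h2
  rw [Finset.mul_sum, Complex.re_sum]
  exact h2

/-! ### the estimate -/

theorem memLp_sum (S : Finset K3) (a : K3 → ℂ) :
    MemLp (fun x : V => ∑ k ∈ S, a k * ee k x) 2 mQ := by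
  haveI : IsFiniteMeasure mQ := H459R3.NS.cube_finite
  refine MemLp.of_bound (C := ∑ k ∈ S, ‖a k‖) ?_ ?_
  · exact (continuous_finset_sum _ fun k _ =>
      continuous_const.mul (H459R3.NS.ee_continuous k)).aestronglyMeasurable
  · filter_upwards with x
    refine (norm_sum_le _ _).trans (Finset.sum_le_sum fun k _ => ?_)
    rw [norm_mul, H459R3.NS.norm_ee, mul_one]

theorem est (F : V → ℝ) (hF : MemLp F 2 mQ) (S : Finset K3) (a : K3 → ℂ) :
    Integrable (fun x => (F x - (∑ k ∈ S, a k * ee k x).re) ^ 2) mQ ∧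
      ∫ x in Q, (F x - (∑ k ∈ S, a k * ee k x).re) ^ 2 ≤
        ∫ x in Q, ‖(F x : ℂ) - ∑ k ∈ S, a k * ee k x‖ ^ 2 := by
  have h1 : MemLp (fun x => (F x : ℂ) - ∑ k ∈ S, a k * ee k x) 2 mQ :=
    hF.ofReal.sub (memLp_sum S a)
  have h2 : Integrable (fun x => ‖(F x : ℂ) - ∑ k ∈ S, a k * ee k x‖ ^ 2) mQ :=
    (memLp_two_iff_integrable_sq_norm h1.1).mp h1
  have h3 : Integrable (fun x => (F x - (∑ k ∈ S, a k * ee k x).re) ^ 2) mQ := by
    have h4 := h1.re.integrable_sq
    refine h4.congr ?_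
    filter_upwards with x
    show ((F x : ℂ) - ∑ k ∈ S, a k * ee k x).re ^ 2 = _
    rw [Complex.sub_re, Complex.ofReal_re]
  refine ⟨h3, integral_mono h3 h2 ?_⟩
  intro x
  show (F x - (∑ k ∈ S, a k * ee k x).re) ^ 2 ≤ ‖(F x : ℂ) - ∑ k ∈ S, a k * ee k x‖ ^ 2
  have h5 := Complex.abs_re_le_norm ((F x : ℂ) - ∑ k ∈ S, a k * ee k x)
  rw [Complex.sub_re, Complex.ofReal_re] at h5
  rw [← sq_abs (F x - (∑ k ∈ S, a k * ee k x).re)]
  exact pow_le_pow_left₀ (abs_nonneg _) h5 2

theorem main (f : V → V) (g : V → Fin 3 → Fin 3 → ℝ) (hfg : H1s f g) (ε : ℝ) (hε : 0 < ε) :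
    ∃ v : V → V, Smooth v ∧ (∫ x in Q, ∑ i, (f x i - v x i) ^ 2) ≤ ε ∧
      (∫ x in Q, ∑ i, ∑ j, (g x i j - partialD 1 j (fun y => v y i) x) ^ 2) ≤ ε := by
  classical
  have hA : ∀ i, ∃ S₀ : Finset K3, ∀ S : Finset K3, S₀ ⊆ S →
      ∫ x in Q, ‖(f x i : ℂ) - ∑ k ∈ S, cf (fun x => f x i) k * ee k x‖ ^ 2 ≤ ε / 3 := fun i =>
    trunc (fun x => (f x i : ℂ)) (hfg.l2 i).ofReal (ε / 3) (by positivity)
  have hB : ∀ i j, ∃ S₀ : Finset K3, ∀ S : Finset K3, S₀ ⊆ S →
      ∫ x in Q, ‖(g x i j : ℂ) - ∑ k ∈ S, cf (fun x => g x i j) k * ee k x‖ ^ 2 ≤ ε / 9 :=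
    fun i j => trunc (fun x => (g x i j : ℂ)) (hfg.l2g i j).ofReal (ε / 9) (by positivity)
  choose SA hSA using hA
  choose SB hSB using hB
  obtain ⟨S, hS⟩ : ∃ S : Finset K3, S = (Finset.univ.biUnion SA) ∪
      (Finset.univ.biUnion fun i => Finset.univ.biUnion (SB i)) := ⟨_, rfl⟩
  have hS1 : ∀ i, SA i ⊆ S := by
    intro i k hk
    rw [hS]
    exact Finset.mem_union_left _ (Finset.mem_biUnion.mpr ⟨i, Finset.mem_univ _, hk⟩)
  have hS2 : ∀ i j, SB i j ⊆ S := by
    intro i j k hk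
    rw [hS]
    exact Finset.mem_union_right _ (Finset.mem_biUnion.mpr ⟨i, Finset.mem_univ _,
      Finset.mem_biUnion.mpr ⟨j, Finset.mem_univ _, hk⟩⟩)
  have hpd : ∀ i j x, partialD 1 j (fun y => (∑ k ∈ S, cf (fun x => f x i) k * ee k y).re) x =
      (∑ k ∈ S, cf (fun x => g x i j) k * ee k x).re := by
    intro i j x
    rw [pD]
    congr 1
    apply Finset.sum_congr rfl
    intro k _
    rw [cf_grad hfg, mul_assoc]
  refine ⟨fun x i => (∑ k ∈ S, cf (fun x => f x i) k * ee k x).re, ⟨?_, ?_, ?_⟩, ?_, ?_⟩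
  · exact contDiff_pi.mpr fun i => smooth_re S _
  · intro j x
    funext i
    exact per_re S (cf (fun x => f x i)) j x
  · intro x
    have h1 : ∀ j, partialD 1 j (fun y => (∑ k ∈ S, cf (fun x => f x j) k * ee k y).re) x =
        (∑ k ∈ S, cf (fun x => f x j) k * (dk k j * ee k x)).re := fun j => pD S _ j x
    show ∑ j, partialD 1 j (fun y => (∑ k ∈ S, cf (fun x => f x j) k * ee k y).re) x = 0
    rw [Finset.sum_congr rfl (fun j _ => h1 j), ← Complex.re_sum, Finset.sum_comm]
    have h2 : ∀ k ∈ S, ∑ j, cf (fun x => f x j) k * (dk k j * ee k x) = 0 := by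
      intro k _
      have h3 := cf_div hfg k
      have h4 : ∑ j, cf (fun x => f x j) k * (dk k j * ee k x) =
          (∑ j, cf (fun x => f x j) k * dk k j) * ee k x := by
        rw [Finset.sum_mul]
        exact Finset.sum_congr rfl (fun j _ => by ring)
      rw [h4, h3, zero_mul]
    rw [Finset.sum_eq_zero h2, Complex.zero_re]
  · have h1 := fun i => est (fun x => f x i) (hfg.l2 i) S (cf (fun x => f x i))
    rw [integral_finset_sum _ (fun i _ => (h1 i).1)]
    have h2 : ∀ i ∈ Finset.univ, ∫ x in Q, (f x i - (∑ k ∈ S, cf (fun x => f x i) k * ee k x).re) ^ 2 ≤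
        ε / 3 := fun i _ => (h1 i).2.trans (hSA i S (hS1 i))
    refine (Finset.sum_le_sum h2).trans ?_
    simp only [Finset.sum_const, Finset.card_univ, Fintype.card_fin, nsmul_eq_mul]
    push_cast
    linarith
  · have h1 := fun i j => est (fun x => g x i j) (hfg.l2g i j) S (cf (fun x => g x i j))
    simp only [hpd]
    rw [integral_finset_sum _ (fun i _ => integrable_finset_sum _ (fun j _ => (h1 i j).1))]
    have h2 : ∀ i ∈ Finset.univ, ∫ x in Q, ∑ j,
        (g x i j - (∑ k ∈ S, cf (fun x => g x i j) k * ee k x).re) ^ 2 ≤ ε / 3 := by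
      intro i _
      rw [integral_finset_sum _ (fun j _ => (h1 i j).1)]
      have h3 : ∀ j ∈ Finset.univ, ∫ x in Q,
          (g x i j - (∑ k ∈ S, cf (fun x => g x i j) k * ee k x).re) ^ 2 ≤ ε / 9 :=
        fun j _ => (h1 i j).2.trans (hSB i j S (hS2 i j))
      refine (Finset.sum_le_sum h3).trans ?_
      simp only [Finset.sum_const, Finset.card_univ, Fintype.card_fin, nsmul_eq_mul]
      push_cast
      linarith
    refine (Finset.sum_le_sum h2).trans ?_
    simp only [Finset.sum_const, Finset.card_univ, Fintype.card_fin, nsmul_eq_mul]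
    push_cast
    linarith

end Pool.Agent.H303.DEE.TS8

namespace Pool.Agent.H303.DEE

theorem s8 : B8 := TS8.main

end Pool.Agent.H303.DEE
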