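import Pool.Agent.H303.DEE.Stm4
import Pool.Agent.H303.DEE.S8

/-!
From trigonometric functions to all square integrable functions (`D5b`).
-/

open MeasureTheory Set Filter Topology
open scoped ContDiff ENNReal

namespace Pool.Agent.H303.DEE.D5bL

open H459R3.NS (K3 ee fc ph)

theorem finQ : IsFiniteMeasure mQ := H459R3.NS.cube_finite

theorem trg_cont (b : Bool) (m : Fin 3 → ℤ) : Continuous (trg b m) := by
  unfold trg
  cases b
  · simp only [Bool.false_eq_true, if_false]
    fun_prop
  · simp only [if_true]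
    fun_prop

theorem trg_le (b : Bool) (m : Fin 3 → ℤ) (x : V) : |trg b m x| ≤ 1 := by
  unfold trg
  cases b
  · simp only [Bool.false_eq_true, if_false]
    exact Real.abs_sin_le_one _
  · simp only [if_true]
    exact Real.abs_cos_le_one _

theorem trg_memLp (b : Bool) (m : Fin 3 → ℤ) : MemLp (trg b m) 2 mQ := by
  have := finQ
  refine MemLp.of_bound (C := 1) (trg_cont b m).aestronglyMeasurable ?_
  filter_upwards with x
  exact trg_le b m x

theorem re_ee (a : ℂ) (k : K3) (x : V) :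
    (a * ee k x).re = a.re * trg true k x - a.im * trg false k x := by
  have h1 : ee k x = Complex.exp (((2 * Real.pi * ph k x : ℝ) : ℂ) * Complex.I) := by
    rw [ee]
    congr 1
    push_cast
    ring
  rw [h1, Complex.mul_re, Complex.exp_ofReal_mul_I_re, Complex.exp_ofReal_mul_I_im]
  simp only [trg, if_true, Bool.false_eq_true, if_false, ph]

/-- the inequality of Cauchy and Schwarz, in the form needed -/
theorem cs {w h : V → ℝ} (hw : MemLp w 2 mQ) (hh : MemLp h 2 mQ) {E δ η : ℝ} (hη : 0 < η)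
    (h1 : ∫ x in Q, w x ^ 2 ≤ E) (h2 : ∫ x in Q, h x ^ 2 ≤ δ) :
    |∫ x in Q, w x * h x| ≤ (η * E + δ / η) / 2 := by
  have i1 : Integrable (fun x => w x ^ 2) mQ := hw.integrable_sq
  have i2 : Integrable (fun x => h x ^ 2) mQ := hh.integrable_sq
  have h3 : |∫ x in Q, w x * h x| ≤ ∫ x in Q, (η * w x ^ 2 + η⁻¹ * h x ^ 2) / 2 := by
    rw [← Real.norm_eq_abs]
    refine norm_integral_le_of_norm_le (((i1.const_mul η).add (i2.const_mul η⁻¹)).div_const 2) ?_
    filter_upwards with x
    rw [Real.norm_eq_abs, abs_mul]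
    have e1 : |w x| ^ 2 = w x ^ 2 := sq_abs _
    have e2 : |h x| ^ 2 = h x ^ 2 := sq_abs _
    have e3 : 0 ≤ η⁻¹ * (η * |w x| - |h x|) ^ 2 := by positivity
    have e4 : η⁻¹ * (η * |w x| - |h x|) ^ 2 = η * |w x| ^ 2 - 2 * (|w x| * |h x|) +
        η⁻¹ * |h x| ^ 2 := by
      field_simp
      ring
    rw [e4, e1, e2] at e3
    linarith
  refine h3.trans ?_
  rw [integral_div, integral_add (i1.const_mul η) (i2.const_mul η⁻¹), integral_const_mul,
    integral_const_mul]
  have e1 := mul_le_mul_of_nonneg_left h1 hη.le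
  have e2 := mul_le_mul_of_nonneg_left h2 (inv_pos.2 hη).le
  have e3 : δ / η = η⁻¹ * δ := by ring
  rw [e3]
  linarith

theorem main (E : ℝ) (w : ℕ → V → ℝ) (hw : ∀ k, MemLp (w k) 2 mQ)
    (hE : ∀ k, ∫ x in Q, w k x ^ 2 ≤ E)
    (hC : ∀ b m, CauchySeq fun k => ∫ x in Q, w k x * trg b m x)
    (g : V → ℝ) (hg : MemLp g 2 mQ) : CauchySeq fun k => ∫ x in Q, w k x * g x := by
  have := finQ
  have hL : ∀ b m, ∃ L, Tendsto (fun k => ∫ x in Q, w k x * trg b m x) atTop (𝓝 L) :=
    fun b m => cauchySeq_tendsto_of_complete (hC b m)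
  choose L hL using hL
  rw [Metric.cauchySeq_iff]
  intro ε hε
  have hE' : 0 < |E| + 1 := by positivity
  obtain ⟨η, hη⟩ : ∃ η : ℝ, η = ε / (4 * (|E| + 1)) := ⟨_, rfl⟩
  have hη0 : 0 < η := by
    rw [hη]
    positivity
  obtain ⟨δ, hδ⟩ : ∃ δ : ℝ, δ = η * (ε / 4) := ⟨_, rfl⟩
  have hδ0 : 0 < δ := by
    rw [hδ]
    positivity
  have hbd : (η * E + δ / η) / 2 ≤ ε / 4 := by
    have e1 : δ / η = ε / 4 := by
      rw [hδ]
      field_simp
    have e2 : η * (|E| + 1) = ε / 4 := by
      rw [hη]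
      field_simp
    have e3 : η * E ≤ η * (|E| + 1) :=
      mul_le_mul_of_nonneg_left (by linarith [le_abs_self E]) hη0.le
    rw [e1]
    linarith
  obtain ⟨S, hS⟩ := TS8.trunc (fun x => (g x : ℂ)) hg.ofReal δ hδ0
  obtain ⟨a, ha⟩ : ∃ a : K3 → ℂ, a = fc (fun x => (g x : ℂ)) := ⟨_, rfl⟩
  have h1 := hS S subset_rfl
  rw [← ha] at h1
  obtain ⟨P, hP⟩ : ∃ P : V → ℝ, P = fun x => (∑ k ∈ S, a k * ee k x).re := ⟨_, rfl⟩
  have hPm : MemLp P 2 mQ := by
    rw [hP]
    exact (TS8.memLp_sum S a).re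
  have h2 : ∫ x in Q, (g x - P x) ^ 2 ≤ δ := by
    rw [hP]
    exact (TS8.est g hg S a).2.trans h1
  have hPe : ∀ x, P x = ∑ k ∈ S, ((a k).re * trg true k x - (a k).im * trg false k x) := by
    intro x
    rw [hP]
    simp only
    rw [Complex.re_sum]
    exact Finset.sum_congr rfl fun k _ => re_ee (a k) k x
  have hint : ∀ n b m, Integrable (fun x => w n x * trg b m x) mQ := fun n b m =>
    (hw n).integrable_mul (trg_memLp b m)
  have hwP : ∀ n, ∫ x in Q, w n x * P x = ∑ k ∈ S, ((a k).re * (∫ x in Q, w n x * trg true k x) -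
      (a k).im * ∫ x in Q, w n x * trg false k x) := by
    intro n
    have e1 : ∀ x, w n x * P x = ∑ k ∈ S, ((a k).re * (w n x * trg true k x) -
        (a k).im * (w n x * trg false k x)) := by
      intro x
      rw [hPe, Finset.mul_sum]
      exact Finset.sum_congr rfl fun k _ => by ring
    simp_rw [e1]
    rw [integral_finsetSum]
    · refine Finset.sum_congr rfl fun k _ => ?_
      rw [integral_sub ((hint n true k).const_mul _) ((hint n false k).const_mul _),
        integral_const_mul, integral_const_mul]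
    · intro k _
      exact ((hint n true k).const_mul _).sub ((hint n false k).const_mul _)
  have hlim : Tendsto (fun n => ∫ x in Q, w n x * P x) atTop
      (𝓝 (∑ k ∈ S, ((a k).re * L true k - (a k).im * L false k))) := by
    simp_rw [hwP]
    exact tendsto_finsetSum _ fun k _ => ((hL true k).const_mul _).sub ((hL false k).const_mul _)
  have hcP := Metric.cauchySeq_iff.1 hlim.cauchySeq (ε / 2) (by positivity)
  obtain ⟨N, hN⟩ := hcP
  have happ : ∀ n, |(∫ x in Q, w n x * g x) - ∫ x in Q, w n x * P x| ≤ ε / 4 := by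
    intro n
    have e1 : (∫ x in Q, w n x * g x) - ∫ x in Q, w n x * P x =
        ∫ x in Q, w n x * (g x - P x) := by
      have i1 : Integrable (fun x => w n x * g x) mQ := (hw n).integrable_mul hg
      have i2 : Integrable (fun x => w n x * P x) mQ := (hw n).integrable_mul hPm
      rw [← integral_sub i1 i2]
      congr 1
      funext x
      ring
    rw [e1]
    exact (cs (hw n) (hg.sub hPm) hη0 (hE n) h2).trans hbd
  refine ⟨N, fun m hm n hn => ?_⟩
  have h3 := hN m hm n hn
  rw [Real.dist_eq] at h3 ⊢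
  have h4 := happ m
  have h5 := happ n
  rw [abs_lt] at h3 ⊢
  rw [abs_le] at h4 h5
  constructor <;> linarith [h3.1, h3.2, h4.1, h4.2, h5.1, h5.2]

end Pool.Agent.H303.DEE.D5bL

namespace Pool.Agent.H303.DEE

theorem d5b : D5b := D5bL.main

end Pool.Agent.H303.DEE
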