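import Pool.Agent.H303.DEE.Stm4

/-!
A measurable representative, for every time (helper977 for helper303, project DEE, statement D5r).
-/

set_option autoImplicit false

open MeasureTheory Set Filter Topology
open scoped ContDiff ENNReal

namespace Pool.Agent.H303.DEE

namespace D5rN

theorem simple_meas (s : SimpleFunc ℝ (Lp ℝ 2 mQ)) :
    Measurable fun z : ℝ × V => (s z.1 : V → ℝ) z.2 := by
  intro B hB
  have h : (fun z : ℝ × V => (s z.1 : V → ℝ) z.2) ⁻¹' B =
      ⋃ y ∈ s.range, (s ⁻¹' {y}) ×ˢ ((y : V → ℝ) ⁻¹' B) := by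
    ext z
    simp only [mem_preimage, mem_iUnion, mem_prod, mem_singleton_iff, exists_prop]
    constructor
    · intro hz
      exact ⟨s z.1, s.mem_range_self z.1, rfl, hz⟩
    · rintro ⟨y, -, hy, hz⟩
      rw [hy]
      exact hz
  rw [h]
  exact Finset.measurableSet_biUnion _ fun y _ =>
    (s.measurableSet_fiber y).prod ((Lp.stronglyMeasurable y).measurable hB)

theorem ae_lim (g : ℕ → Lp ℝ 2 mQ) (v : Lp ℝ 2 mQ) (hg : ∀ m, dist (g m) v ≤ (1 / 2 : ℝ) ^ (m + 2)) :
    ∀ᵐ x ∂mQ, Tendsto (fun m => (g m : V → ℝ) x) atTop (𝓝 ((v : V → ℝ) x)) := by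
  have h1 : Tendsto g atTop (𝓝 v) := by
    rw [tendsto_iff_dist_tendsto_zero]
    refine squeeze_zero (fun _ => dist_nonneg) hg ?_
    exact (tendsto_pow_atTop_nhds_zero_of_lt_one (by norm_num) (by norm_num)).comp
      (tendsto_add_atTop_nat 2)
  have h2 : ∀ᵐ x ∂mQ, ∃ l : ℝ, Tendsto (fun m => (g m : V → ℝ) x) atTop (𝓝 l) := by
    refine Lp.ae_tendsto_of_cauchy_eLpNorm (f := fun m => (g m : V → ℝ)) (p := 2)
      (fun n => Lp.aestronglyMeasurable (g n)) (by norm_num)
      (B := fun N => ENNReal.ofReal ((1 / 2 : ℝ) ^ N)) ?_ ?_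
    · rw [← ENNReal.ofReal_tsum_of_nonneg (fun _ => by positivity) summable_geometric_two]
      exact ENNReal.ofReal_ne_top
    · intro N n m hn hm
      have h3 : eLpNorm ((g n : V → ℝ) - (g m : V → ℝ)) 2 mQ = edist (g n) (g m) :=
        (Lp.edist_def (g n) (g m)).symm
      show eLpNorm ((g n : V → ℝ) - (g m : V → ℝ)) 2 mQ < ENNReal.ofReal ((1 / 2 : ℝ) ^ N)
      rw [h3, edist_dist]
      refine (ENNReal.ofReal_lt_ofReal_iff (by positivity)).mpr ?_
      have h4 : dist (g n) (g m) ≤ (1 / 2 : ℝ) ^ (n + 2) + (1 / 2) ^ (m + 2) :=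
        (dist_triangle_right _ _ v).trans (add_le_add (hg n) (hg m))
      have h5 : (1 / 2 : ℝ) ^ n ≤ (1 / 2) ^ N :=
        pow_le_pow_of_le_one (by norm_num) (by norm_num) hn
      have h6 : (1 / 2 : ℝ) ^ m ≤ (1 / 2) ^ N :=
        pow_le_pow_of_le_one (by norm_num) (by norm_num) hm
      have h7 : (0 : ℝ) < (1 / 2) ^ N := by positivity
      rw [pow_add, pow_add] at h4
      linarith
  obtain ⟨ns, hns, h3⟩ := (tendstoInMeasure_of_tendsto_Lp h1).exists_seq_tendsto_ae
  filter_upwards [h2, h3] with x hx hx'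
  obtain ⟨l, hl⟩ := hx
  have h4 := tendsto_nhds_unique (hl.comp hns.tendsto_atTop) hx'
  rwa [← h4]

end D5rN

open D5rN in
/-- a measurable representative, for every time -/
theorem d5r : D5r := by
  intro U hU
  have hex : ∀ (m : ℕ) (t : ℝ), ∃ N, dist (hU.approx N t) (U t) ≤ (1 / 2 : ℝ) ^ (m + 2) := by
    intro m t
    have h1 := (tendsto_iff_dist_tendsto_zero.mp (hU.tendsto_approx t)).eventually_le_const
      (show (0 : ℝ) < (1 / 2) ^ (m + 2) by positivity)
    exact h1.exists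
  classical
  obtain ⟨w, hw⟩ : ∃ w : ℕ → ℝ × V → ℝ,
      w = fun m z => (hU.approx (Nat.find (hex m z.1)) z.1 : V → ℝ) z.2 := ⟨_, rfl⟩
  have hwm : ∀ m, Measurable (w m) := by
    intro m
    rw [hw]
    refine Measurable.find (f := fun n (z : ℝ × V) => (hU.approx n z.1 : V → ℝ) z.2)
      (p := fun n (z : ℝ × V) => dist (hU.approx n z.1) (U z.1) ≤ (1 / 2 : ℝ) ^ (m + 2))
      (fun n => simple_meas (hU.approx n)) (fun n => ?_) (fun z => hex m z.1)
    have h1 : Measurable fun t : ℝ => dist (hU.approx n t) (U t) :=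
      ((hU.approx n).stronglyMeasurable.dist hU).measurable
    exact measurableSet_le (h1.comp measurable_fst) measurable_const
  refine ⟨fun t x => limsup (fun m => w m (t, x)) atTop, Measurable.limsup hwm, fun t => ?_⟩
  have h1 := ae_lim (fun m => hU.approx (Nat.find (hex m t)) t) (U t)
    (fun m => Nat.find_spec (hex m t))
  filter_upwards [h1] with x hx
  rw [hw]
  exact hx.limsup_eq

end Pool.Agent.H303.DEE
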