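import Pool.Agent.H303.DEE.Stm4

/-!
# Weak compactness in space-time (statement `D6`)
-/

open MeasureTheory Set Filter Topology
open scoped ContDiff ENNReal

namespace Pool.Agent.H303.DEE

namespace D6L

open scoped InnerProductSpace

/-- a bounded sequence of a separable Hilbert space has a weakly convergent subsequence -/
lemma weak_one {E : Type*} [NormedAddCommGroup E] [InnerProductSpace ℝ E] [CompleteSpace E]
    [TopologicalSpace.SeparableSpace E] (h : ℕ → E) (R : ℝ) (hR : ∀ k, ‖h k‖ ≤ R) :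
    ∃ (φ : ℕ → ℕ) (g : E), StrictMono φ ∧
      ∀ f : E, Tendsto (fun k => ⟪h (φ k), f⟫_ℝ) atTop (𝓝 ⟪g, f⟫_ℝ) := by
  have hc := WeakDual.isSeqCompact_closedBall ℝ E (0 : StrongDual ℝ E) R
  obtain ⟨x, hx⟩ : ∃ x : ℕ → WeakDual ℝ E, ∀ k f, x k f = ⟪h k, f⟫_ℝ ∧
      x k ∈ (⇑WeakDual.toStrongDual ⁻¹' Metric.closedBall (0 : StrongDual ℝ E) R) := by
    refine ⟨fun k => StrongDual.toWeakDual (InnerProductSpace.toDual ℝ E (h k)), ?_⟩
    intro k f
    refine ⟨?_, ?_⟩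
    · exact InnerProductSpace.toDual_apply_apply
    · rw [mem_preimage, mem_closedBall_zero_iff]
      calc ‖WeakDual.toStrongDual (StrongDual.toWeakDual (InnerProductSpace.toDual ℝ E (h k)))‖
          = ‖InnerProductSpace.toDual ℝ E (h k)‖ := rfl
        _ = ‖h k‖ := LinearIsometryEquiv.norm_map _ _
        _ ≤ R := hR k
  obtain ⟨a, -, φ, hφ, hlim⟩ := hc (fun k => (hx k 0).2)
  refine ⟨φ, (InnerProductSpace.toDual ℝ E).symm (WeakDual.toStrongDual a), hφ, ?_⟩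
  intro f
  rw [InnerProductSpace.toDual_symm_apply]
  have h1 : Tendsto (fun k => (x (φ k)) f) atTop (𝓝 (a f)) :=
    ((WeakDual.eval_continuous f).tendsto a).comp hlim
  have h2 : (fun k => (x (φ k)) f) = fun k => ⟪h (φ k), f⟫_ℝ := by
    funext k
    exact (hx (φ k) f).1
  rw [h2] at h1
  exact h1

/-- finitely many sequences at once -/
lemma weak_fin {E ι : Type*} [NormedAddCommGroup E] [InnerProductSpace ℝ E] [CompleteSpace E]
    [TopologicalSpace.SeparableSpace E] (h : ℕ → ι → E) (R : ℝ) (hR : ∀ k i, ‖h k i‖ ≤ R)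
    (s : Finset ι) :
    ∃ φ : ℕ → ℕ, StrictMono φ ∧ ∀ i ∈ s, ∃ g : E,
      ∀ f : E, Tendsto (fun k => ⟪h (φ k) i, f⟫_ℝ) atTop (𝓝 ⟪g, f⟫_ℝ) := by
  classical
  induction s using Finset.induction_on with
  | empty => exact ⟨id, strictMono_id, fun i hi => absurd hi (Finset.notMem_empty i)⟩
  | insert i0 s _ ih =>
    obtain ⟨φ, hφ, hs⟩ := ih
    obtain ⟨ψ, g, hψ, hg⟩ := weak_one (fun k => h (φ k) i0) R (fun k => hR _ _)
    refine ⟨φ ∘ ψ, hφ.comp hψ, ?_⟩
    intro i hi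
    rw [Finset.mem_insert] at hi
    rcases hi with rfl | hi
    · exact ⟨g, hg⟩
    · obtain ⟨g', hg'⟩ := hs i hi
      exact ⟨g', fun f => (hg' f).comp hψ.tendsto_atTop⟩

lemma inner_eq {α : Type*} [MeasurableSpace α] {μ : Measure α} (f g : Lp ℝ 2 μ) :
    ⟪f, g⟫_ℝ = ∫ a, f a * g a ∂μ := by
  rw [L2.inner_def]
  refine integral_congr_ae (Eventually.of_forall fun a => ?_)
  change g a * f a = f a * g a
  exact mul_comm _ _

lemma inner_toLp {α : Type*} [MeasurableSpace α] {μ : Measure α} {f g : α → ℝ}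
    (hf : MemLp f 2 μ) (hg : MemLp g 2 μ) : ⟪hf.toLp f, hg.toLp g⟫_ℝ = ∫ a, f a * g a ∂μ := by
  rw [inner_eq]
  refine integral_congr_ae ?_
  filter_upwards [hf.coeFn_toLp, hg.coeFn_toLp] with a h1 h2
  rw [h1, h2]

lemma inner_toLp' {α : Type*} [MeasurableSpace α] {μ : Measure α} {g : α → ℝ} (f : Lp ℝ 2 μ)
    (hg : MemLp g 2 μ) : ⟪f, hg.toLp g⟫_ℝ = ∫ a, f a * g a ∂μ := by
  rw [inner_eq]
  refine integral_congr_ae ?_
  filter_upwards [hg.coeFn_toLp] with a h2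
  rw [h2]

lemma norm_toLp_le {α : Type*} [MeasurableSpace α] {μ : Measure α} {f : α → ℝ} {E : ℝ}
    (hf : MemLp f 2 μ) (hE : ∫ a, f a ^ 2 ∂μ ≤ E) : ‖hf.toLp f‖ ≤ Real.sqrt E := by
  apply Real.le_sqrt_of_sq_le
  rw [← real_inner_self_eq_norm_sq, inner_toLp hf hf]
  refine le_trans (le_of_eq ?_) hE
  refine integral_congr_ae (Eventually.of_forall fun a => ?_)
  change f a * f a = f a ^ 2
  ring

end D6L

open scoped InnerProductSpace in
theorem d6 : D6 := by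
  intro T E H hH hE
  have : Fact ((2 : ℝ≥0∞) ≠ ⊤) := ⟨ENNReal.ofNat_ne_top⟩
  obtain ⟨φ, hφ, h1⟩ := D6L.weak_fin
    (E := Lp ℝ 2 ((volume : Measure (ℝ × V)).restrict (Icc 0 T ×ˢ Q))) (ι := Fin 3 × Fin 3)
    (fun k i => (hH k i.1 i.2).toLp (H k i.1 i.2)) (Real.sqrt E)
    (fun k i => D6L.norm_toLp_le (hH k i.1 i.2) (hE k i.1 i.2)) Finset.univ
  choose g hg using fun i : Fin 3 × Fin 3 => h1 i (Finset.mem_univ i)
  refine ⟨φ, fun i j => ⇑(g (i, j)), hφ, ?_, ?_, ?_⟩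
  · intro i j
    exact (Lp.stronglyMeasurable (g (i, j))).measurable
  · intro i j
    exact Lp.memLp (g (i, j))
  · intro i j f hf
    have h2 := hg (i, j) (hf.toLp f)
    rw [D6L.inner_toLp' (g (i, j)) hf] at h2
    have h3 : (fun k => ⟪(hH (φ k) i j).toLp (H (φ k) i j), hf.toLp f⟫_ℝ) =
        fun k => ∫ z in Icc 0 T ×ˢ Q, H (φ k) i j z * f z := by
      funext k
      exact D6L.inner_toLp (hH (φ k) i j) hf
    rw [← h3]
    exact h2

end Pool.Agent.H303.DEE
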