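import Pool.Agent.H303.DEE.Stm2

/-!
Project DEE, S9: initial values in `H¹_σ`.
-/

set_option autoImplicit false

open MeasureTheory Set Filter Topology
open scoped ContDiff ENNReal

namespace Pool.Agent.H303.DEE

namespace S9L

lemma pt (a b δ : ℝ) (hδ : 0 < δ) : |a ^ 2 - b ^ 2| ≤ δ * a ^ 2 + (1 + 1 / δ) * (a - b) ^ 2 := by
  have h2 : 0 ≤ (δ * a - (a - b)) ^ 2 / δ := by positivity
  have h3 : 0 ≤ (δ * a + (a - b)) ^ 2 / δ := by positivity
  have h4 : (δ * a - (a - b)) ^ 2 / δ = δ * a ^ 2 + 1 / δ * (a - b) ^ 2 - 2 * a * (a - b) := by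
    field_simp
    ring
  have h5 : (δ * a + (a - b)) ^ 2 / δ = δ * a ^ 2 + 1 / δ * (a - b) ^ 2 + 2 * a * (a - b) := by
    field_simp
    ring
  have h6 : a ^ 2 - b ^ 2 = 2 * a * (a - b) - (a - b) ^ 2 := by ring
  have h7 : 0 ≤ (a - b) ^ 2 := sq_nonneg _
  have h8 : (1 + 1 / δ) * (a - b) ^ 2 = (a - b) ^ 2 + 1 / δ * (a - b) ^ 2 := by ring
  rw [h6, h8, abs_le]
  constructor <;> linarith

lemma pt_sum {ι : Type*} [Fintype ι] (p q r : ι → ℝ) (δ c : ℝ)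
    (h : ∀ i, |p i - q i| ≤ δ * p i + c * r i) :
    |∑ i, p i - ∑ i, q i| ≤ δ * ∑ i, p i + c * ∑ i, r i := by
  rw [← Finset.sum_sub_distrib, Finset.mul_sum, Finset.mul_sum, ← Finset.sum_add_distrib]
  exact (Finset.abs_sum_le_sum_abs _ _).trans (Finset.sum_le_sum fun i _ => h i)

lemma int_diff {X : Type*} [MeasurableSpace X] {μ : Measure X} {A B D : X → ℝ}
    (hA : Integrable A μ) (hB : Integrable B μ) (hD : Integrable D μ) (δ c : ℝ)
    (h : ∀ x, |A x - B x| ≤ δ * A x + c * D x) :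
    |∫ x, A x ∂μ - ∫ x, B x ∂μ| ≤ δ * ∫ x, A x ∂μ + c * ∫ x, D x ∂μ := by
  rw [← integral_sub hA hB, ← integral_const_mul, ← integral_const_mul,
    ← integral_add (hA.const_mul δ) (hD.const_mul c)]
  refine abs_integral_le_integral_abs.trans (integral_mono (hA.sub hB).abs
    ((hA.const_mul δ).add (hD.const_mul c)) h)

/-- vectors -/
lemma diff1 {X : Type*} [MeasurableSpace X] {μ : Measure X} {f g : X → Fin 3 → ℝ}
    (hf : ∀ i, MemLp (fun x => f x i) 2 μ) (hg : ∀ i, MemLp (fun x => g x i) 2 μ) (δ : ℝ)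
    (hδ : 0 < δ) :
    |∫ x, ∑ i, f x i ^ 2 ∂μ - ∫ x, ∑ i, g x i ^ 2 ∂μ| ≤
      δ * ∫ x, ∑ i, f x i ^ 2 ∂μ + (1 + 1 / δ) * ∫ x, ∑ i, (f x i - g x i) ^ 2 ∂μ :=
  int_diff (integrable_finsetSum _ fun i _ => (hf i).integrable_sq)
    (integrable_finsetSum _ fun i _ => (hg i).integrable_sq)
    (integrable_finsetSum _ fun i _ => ((hf i).sub (hg i)).integrable_sq) δ _
    fun _ => pt_sum _ _ _ _ _ fun _ => pt _ _ δ hδ

/-- matrices -/
lemma diff2 {X : Type*} [MeasurableSpace X] {μ : Measure X} {f g : X → Fin 3 → Fin 3 → ℝ}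
    (hf : ∀ i j, MemLp (fun x => f x i j) 2 μ) (hg : ∀ i j, MemLp (fun x => g x i j) 2 μ) (δ : ℝ)
    (hδ : 0 < δ) :
    |∫ x, ∑ i, ∑ j, f x i j ^ 2 ∂μ - ∫ x, ∑ i, ∑ j, g x i j ^ 2 ∂μ| ≤
      δ * ∫ x, ∑ i, ∑ j, f x i j ^ 2 ∂μ +
        (1 + 1 / δ) * ∫ x, ∑ i, ∑ j, (f x i j - g x i j) ^ 2 ∂μ :=
  int_diff (integrable_finsetSum _ fun i _ => integrable_finsetSum _ fun j _ =>
      (hf i j).integrable_sq)
    (integrable_finsetSum _ fun i _ => integrable_finsetSum _ fun j _ => (hg i j).integrable_sq)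
    (integrable_finsetSum _ fun i _ => integrable_finsetSum _ fun j _ =>
      ((hf i j).sub (hg i j)).integrable_sq) δ _
    fun _ => pt_sum _ _ _ _ _ fun _ => pt_sum _ _ _ _ _ fun _ => pt _ _ δ hδ

lemma memLp_cont {X : Type*} [TopologicalSpace X] [MeasurableSpace X] [OpensMeasurableSpace X]
    [SecondCountableTopology X] {μ : Measure X} [IsFiniteMeasureOnCompacts μ] {S : Set X}
    (hS : IsCompact S) (hSm : MeasurableSet S) {f : X → ℝ} (hf : ContinuousOn f S) :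
    MemLp f 2 (μ.restrict S) := by
  obtain ⟨C, hC⟩ := hS.exists_bound_of_continuousOn hf
  have : IsFiniteMeasure (μ.restrict S) := ⟨by
    rw [Measure.restrict_apply_univ]; exact hS.measure_lt_top⟩
  exact MemLp.of_bound (hf.aestronglyMeasurable hSm) C
    ((ae_restrict_iff' hSm).2 (ae_of_all _ hC))

lemma Q_compact : IsCompact Q := isCompact_Icc

lemma Q_meas : MeasurableSet Q := measurableSet_Icc

lemma cont_partialD (n : ℕ) (j : Fin 3) {f : V → ℝ} (hf : ContDiff ℝ ∞ f) :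
    Continuous (partialD n j f) := by
  unfold partialD
  have h := hf.continuous_iteratedFDeriv (m := n) (by exact_mod_cast le_top)
  exact (ContinuousMultilinearMap.apply ℝ (fun _ : Fin n => V) ℝ
    (fun _ => Pi.single j 1)).continuous.comp h

lemma comp_smooth {v : V → V} (hv : ContDiff ℝ ∞ v) (i : Fin 3) :
    ContDiff ℝ ∞ (fun y => v y i) := (contDiff_pi.1 hv) i

/-- iterated integrals -/
lemma iter {T t : ℝ} (ht : t ∈ Icc 0 T) (F : ℝ × V → ℝ)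
    (hF : Integrable F (volume.restrict (Icc 0 T ×ˢ Q))) :
    ∫ s in (0 : ℝ)..t, ∫ x in Q, F (s, x) = ∫ z in Ioc 0 t ×ˢ Q, F z := by
  rw [intervalIntegral.integral_of_le ht.1]
  have h1 : IntegrableOn F (Ioc 0 t ×ˢ Q) := IntegrableOn.mono_set hF
    (prod_mono (Ioc_subset_Icc_self.trans (Icc_subset_Icc_right ht.2)) subset_rfl)
  rw [Measure.volume_eq_prod] at h1 ⊢
  exact (setIntegral_prod F h1).symm

/-- squares of smooth approximations -/
lemma sq_bound {X : Type*} [MeasurableSpace X] {μ : Measure X} {A B D : X → ℝ}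
    (hA : Integrable A μ) (hB : Integrable B μ) (hD : Integrable D μ)
    (h : ∀ x, |A x - B x| ≤ 1 * A x + 2 * D x) :
    ∫ x, B x ∂μ ≤ 2 * ∫ x, A x ∂μ + 2 * ∫ x, D x ∂μ := by
  have h1 := int_diff hA hB hD 1 2 h
  rw [abs_le] at h1
  linarith [h1.1]

/-- the approximations -/
lemma approx (k7 : B7) (k8 : B8) {n : ℕ} {ν : ℝ} {α : Fin 3 → ℝ} (hν : 0 < ν) (hn : Odd n)
    (hG : GlobB n ν α) (T : ℝ) {u₀ : V → V} {g₀ : V → Fin 3 → Fin 3 → ℝ} (h0 : H1s u₀ g₀) :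
    ∃ C : ℝ, 0 ≤ C ∧ ∀ ε : ℝ, 0 < ε → ε ≤ 1 → ∃ (v : ℝ → V → V) (p : ℝ → V → ℝ),
      IsSol n ν α (Ici 0) v p ∧ Smooth (v 0) ∧ (∫ x in Q, ∑ i, (u₀ x i - v 0 x i) ^ 2) ≤ ε ∧
      ∀ (u : ℝ → V → V) (G : ℝ → V → Fin 3 → Fin 3 → ℝ), IsLerayHopf n ν α T u₀ u G →
        ∀ t ∈ Icc 0 T, (∫ x in Q, ∑ i, (u t x i - v t x i) ^ 2)
          + (∫ s in (0 : ℝ)..t, ∫ x in Q, ∑ i, ∑ j, (G s x i j - grd v s x i j) ^ 2) ≤ C * ε := by
  obtain ⟨R, hR⟩ : ∃ R : ℝ, R = 2 * (∫ x in Q, ∑ i, u₀ x i ^ 2) +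
    2 * (∫ x in Q, ∑ i, ∑ j, g₀ x i j ^ 2) + 4 := ⟨_, rfl⟩
  obtain ⟨M, hM⟩ := hG R T
  obtain ⟨C, hC, hC7⟩ := k7 n ν α R M T hν hn
  refine ⟨C, hC, fun ε hε hε1 => ?_⟩
  obtain ⟨w, hw, hw1, hw2⟩ := k8 u₀ g₀ h0 ε hε
  have hwc : ∀ i, ContinuousOn (fun x => w x i) Q := fun i =>
    (comp_smooth hw.smooth i).continuous.continuousOn
  have hwp : ∀ i, MemLp (fun x => w x i) 2 (volume.restrict Q) := fun i =>
    memLp_cont Q_compact Q_meas (hwc i)
  have hwg : ∀ i j, MemLp (fun x => partialD 1 j (fun y => w y i) x) 2 (volume.restrict Q) :=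
    fun i j => memLp_cont Q_compact Q_meas
      (cont_partialD 1 j (comp_smooth hw.smooth i)).continuousOn
  have e1 : (∫ x in Q, ∑ i, w x i ^ 2) ≤ 2 * (∫ x in Q, ∑ i, u₀ x i ^ 2) +
      2 * ∫ x in Q, ∑ i, (u₀ x i - w x i) ^ 2 := by
    have h := diff1 h0.l2 hwp 1 one_pos
    rw [abs_le] at h
    norm_num at h
    linarith [h.1]
  have e2 : (∫ x in Q, ∑ i, ∑ j, partialD 1 j (fun y => w y i) x ^ 2) ≤
      2 * (∫ x in Q, ∑ i, ∑ j, g₀ x i j ^ 2) +
      2 * ∫ x in Q, ∑ i, ∑ j, (g₀ x i j - partialD 1 j (fun y => w y i) x) ^ 2 := by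
    have h := diff2 (g := fun x i j => partialD 1 j (fun y => w y i) x) h0.l2g hwg 1 one_pos
    rw [abs_le] at h
    norm_num at h
    linarith [h.1]
  have e3 : 0 ≤ ∫ x in Q, ∑ i, ∑ j, partialD 1 j (fun y => w y i) x ^ 2 :=
    integral_nonneg fun x => Finset.sum_nonneg fun i _ => Finset.sum_nonneg fun j _ => sq_nonneg _
  obtain ⟨v, p, hsol, hv0, hvM⟩ := hM w hw (by rw [hR]; linarith)
  refine ⟨v, p, hsol, by rw [hv0]; exact hw, by rw [hv0]; exact hw1, fun u G hL t ht => ?_⟩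
  refine (hC7 v p hsol (by rw [hv0, hR]; linarith) hvM u₀ u G h0.l2 hL t ht).trans ?_
  rw [hv0]
  exact mul_le_mul_of_nonneg_left hw1 hC

/-- a number which is small -/
lemma small {x K K' : ℝ} (hK : 0 ≤ K) (hK' : 0 ≤ K')
    (h : ∀ δ ε : ℝ, 0 < δ → 0 < ε → ε ≤ 1 → |x| ≤ δ * K + (1 + 1 / δ) * (K' * ε)) : x = 0 := by
  have h1 : ∀ δ : ℝ, 0 < δ → |x| ≤ δ * K := by
    intro δ hδ
    refine le_of_forall_pos_le_add fun e he => ?_
    have hd : 0 < (1 + 1 / δ) * (K' + 1) := by positivity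
    have h2 := h δ (min 1 (e / ((1 + 1 / δ) * (K' + 1)))) hδ (lt_min one_pos (by positivity))
      (min_le_left _ _)
    refine h2.trans (add_le_add le_rfl ?_)
    calc (1 + 1 / δ) * (K' * min 1 (e / ((1 + 1 / δ) * (K' + 1)))) ≤
          (1 + 1 / δ) * ((K' + 1) * (e / ((1 + 1 / δ) * (K' + 1)))) := by
            gcongr
            · linarith
            · exact min_le_right _ _
      _ = e := by field_simp
  have h2 : |x| ≤ 0 := by
    refine le_of_forall_pos_le_add fun e he => ?_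
    refine (h1 (e / (K + 1)) (by positivity)).trans ?_
    rw [zero_add, div_mul_eq_mul_div, div_le_iff₀ (by positivity)]
    nlinarith
  exact abs_eq_zero.1 (le_antisymm h2 (abs_nonneg x))

/-- the facts about the smooth solution -/
lemma sol_memLp (h0 : A0) {n : ℕ} {ν : ℝ} {α : Fin 3 → ℝ} {v : ℝ → V → V} {p : ℝ → V → ℝ}
    (hs : IsSol n ν α (Ici 0) v p) (T : ℝ) :
    (∀ t ∈ Icc 0 T, ∀ i, MemLp (fun x => v t x i) 2 (volume.restrict Q)) ∧
    ∀ i j, MemLp (fun z : ℝ × V => grd v z.1 z.2 i j) 2 (volume.restrict (Icc 0 T ×ˢ Q)) := by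
  obtain ⟨a1, a2, -⟩ := h0 v hs.smooth_u
  refine ⟨fun t ht i => memLp_cont Q_compact Q_meas
    (comp_smooth (a1 t ht.1) i).continuous.continuousOn, fun i j => ?_⟩
  exact memLp_cont (isCompact_Icc.prod Q_compact) (measurableSet_Icc.prod Q_meas)
    ((a2 i j).mono (prod_mono Icc_subset_Ici_self (subset_univ _)))

end S9L

open S9L

theorem s9 (h0 : A0) (h4 : A4) (k7 : B7) (k8 : B8) : B9 := by
  intro n ν α hν hn hG T u₀ g₀ u G hH hL
  obtain ⟨C, hC, happ⟩ := approx k7 k8 hν hn hG T hH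
  constructor
  · intro t ht
    have hIoc : Ioc 0 t ×ˢ Q ⊆ Icc 0 T ×ˢ Q :=
      prod_mono (Ioc_subset_Icc_self.trans (Icc_subset_Icc_right ht.2)) subset_rfl
    have hGm : ∀ i j, MemLp (fun z : ℝ × V => G z.1 z.2 i j) 2 (volume.restrict (Ioc 0 t ×ˢ Q)) :=
      fun i j => (hL.l2_G i j).mono_measure (Measure.restrict_mono hIoc le_rfl)
    obtain ⟨Au, hAu⟩ : ∃ Au : ℝ, Au = ∫ x in Q, ∑ i, u t x i ^ 2 := ⟨_, rfl⟩
    obtain ⟨A0', hA0⟩ : ∃ A0' : ℝ, A0' = ∫ x in Q, ∑ i, u₀ x i ^ 2 := ⟨_, rfl⟩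
    obtain ⟨AG, hAG⟩ : ∃ AG : ℝ, AG = ∫ z in Ioc 0 t ×ˢ Q, ∑ i, ∑ j, G z.1 z.2 i j ^ 2 :=
      ⟨_, rfl⟩
    have hAu0 : 0 ≤ Au := by
      rw [hAu]; exact integral_nonneg fun x => Finset.sum_nonneg fun i _ => sq_nonneg _
    have hA00 : 0 ≤ A0' := by
      rw [hA0]; exact integral_nonneg fun x => Finset.sum_nonneg fun i _ => sq_nonneg _
    have hAG0 : 0 ≤ AG := by
      rw [hAG]
      exact integral_nonneg fun x => Finset.sum_nonneg fun i _ =>
        Finset.sum_nonneg fun j _ => sq_nonneg _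
    have itG : (∫ s in (0 : ℝ)..t, ∫ x in Q, ∑ i, ∑ j, G s x i j ^ 2) = AG := by
      rw [hAG]
      exact iter ht (fun z : ℝ × V => ∑ i, ∑ j, G z.1 z.2 i j ^ 2)
        (integrable_finsetSum _ fun i _ => integrable_finsetSum _ fun j _ =>
          (hL.l2_G i j).integrable_sq)
    unfold EnergyEq
    rw [itG, ← hAu, ← hA0]
    have hz : (1 / 2) * Au + ν * AG - (1 / 2) * A0' = 0 := by
      refine small (K := (1 / 2) * Au + ν * AG + (1 / 2) * A0')
        (K' := (1 / 2 + ν) * C + 1 / 2) (by positivity) (by positivity) fun δ ε hδ hε hε1 => ?_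
      obtain ⟨v, p, hs, hv0, hv1, hv2⟩ := happ ε hε hε1
      have hv3 := hv2 u G hL t ht
      obtain ⟨m1, m2⟩ := sol_memLp h0 hs T
      have hgm : ∀ i j, MemLp (fun z : ℝ × V => grd v z.1 z.2 i j) 2
          (volume.restrict (Ioc 0 t ×ˢ Q)) :=
        fun i j => (m2 i j).mono_measure (Measure.restrict_mono hIoc le_rfl)
      have itv : (∫ s in (0 : ℝ)..t, ∫ x in Q, ∑ i, ∑ j, grd v s x i j ^ 2) =
          ∫ z in Ioc 0 t ×ˢ Q, ∑ i, ∑ j, grd v z.1 z.2 i j ^ 2 :=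
        iter ht (fun z : ℝ × V => ∑ i, ∑ j, grd v z.1 z.2 i j ^ 2)
          (integrable_finsetSum _ fun i _ => integrable_finsetSum _ fun j _ =>
            (m2 i j).integrable_sq)
      have itd : (∫ s in (0 : ℝ)..t, ∫ x in Q, ∑ i, ∑ j, (G s x i j - grd v s x i j) ^ 2) =
          ∫ z in Ioc 0 t ×ˢ Q, ∑ i, ∑ j, (G z.1 z.2 i j - grd v z.1 z.2 i j) ^ 2 :=
        iter ht (fun z : ℝ × V => ∑ i, ∑ j, (G z.1 z.2 i j - grd v z.1 z.2 i j) ^ 2)
          (integrable_finsetSum _ fun i _ => integrable_finsetSum _ fun j _ =>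
            ((hL.l2_G i j).sub (m2 i j)).integrable_sq)
      have hE := h4 n ν α v p hn hs t ht.1
      unfold EnergyEq at hE
      rw [itv] at hE
      rw [itd] at hv3
      have d1 := diff1 (hL.l2_u t ht) (m1 t ht) δ hδ
      have d2 := diff2 (f := fun z : ℝ × V => G z.1 z.2) (g := fun z : ℝ × V => grd v z.1 z.2)
        hGm hgm δ hδ
      have h00 : (0 : ℝ) ∈ Icc 0 T := ⟨le_rfl, ht.1.trans ht.2⟩
      have d3 := diff1 hH.l2 (m1 0 h00) δ hδ
      rw [← hAu] at d1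
      rw [← hAG] at d2
      rw [← hA0] at d3
      obtain ⟨Bv, hBv⟩ : ∃ Bv : ℝ, Bv = ∫ x in Q, ∑ i, v t x i ^ 2 := ⟨_, rfl⟩
      obtain ⟨B0, hB0⟩ : ∃ B0 : ℝ, B0 = ∫ x in Q, ∑ i, v 0 x i ^ 2 := ⟨_, rfl⟩
      obtain ⟨BG, hBG⟩ : ∃ BG : ℝ, BG = ∫ z in Ioc 0 t ×ˢ Q, ∑ i, ∑ j, grd v z.1 z.2 i j ^ 2 :=
        ⟨_, rfl⟩
      obtain ⟨D1, hD1⟩ : ∃ D1 : ℝ, D1 = ∫ x in Q, ∑ i, (u t x i - v t x i) ^ 2 := ⟨_, rfl⟩
      obtain ⟨D0, hD0⟩ : ∃ D0 : ℝ, D0 = ∫ x in Q, ∑ i, (u₀ x i - v 0 x i) ^ 2 := ⟨_, rfl⟩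
      obtain ⟨DG, hDG⟩ : ∃ DG : ℝ, DG =
        ∫ z in Ioc 0 t ×ˢ Q, ∑ i, ∑ j, (G z.1 z.2 i j - grd v z.1 z.2 i j) ^ 2 := ⟨_, rfl⟩
      have hD10 : 0 ≤ D1 := by
        rw [hD1]; exact integral_nonneg fun x => Finset.sum_nonneg fun i _ => sq_nonneg _
      have hDG0 : 0 ≤ DG := by
        rw [hDG]
        exact integral_nonneg fun x => Finset.sum_nonneg fun i _ =>
          Finset.sum_nonneg fun j _ => sq_nonneg _
      rw [← hBv, ← hD1] at d1
      rw [← hBG, ← hDG] at d2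
      rw [← hB0, ← hD0] at d3
      rw [← hD1, ← hDG] at hv3
      rw [← hBv, ← hBG, ← hB0] at hE
      rw [← hD0] at hv1
      have c0 : 0 ≤ 1 + 1 / δ := by positivity
      have q1 : (1 + 1 / δ) * D1 ≤ (1 + 1 / δ) * (C * ε) :=
        mul_le_mul_of_nonneg_left (by linarith) c0
      have q2 : ν * ((1 + 1 / δ) * DG) ≤ ν * ((1 + 1 / δ) * (C * ε)) :=
        mul_le_mul_of_nonneg_left (mul_le_mul_of_nonneg_left (by linarith) c0) hν.le
      have q3 : (1 + 1 / δ) * D0 ≤ (1 + 1 / δ) * ε := mul_le_mul_of_nonneg_left hv1 c0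
      have q4 : |ν * (AG - BG)| ≤ ν * (δ * AG + (1 + 1 / δ) * DG) := by
        rw [abs_mul, abs_of_pos hν]
        exact mul_le_mul_of_nonneg_left d2 hν.le
      have e : (1 / 2) * Au + ν * AG - (1 / 2) * A0' =
          (1 / 2) * (Au - Bv) + ν * (AG - BG) - (1 / 2) * (A0' - B0) := by linarith
      rw [e]
      have q5 : ν * (δ * AG + (1 + 1 / δ) * DG) = δ * (ν * AG) + ν * ((1 + 1 / δ) * DG) := by ring
      have q6 : δ * ((1 / 2) * Au + ν * AG + (1 / 2) * A0') +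
          (1 + 1 / δ) * (((1 / 2 + ν) * C + 1 / 2) * ε) = (1 / 2) * (δ * Au) + δ * (ν * AG) +
          (1 / 2) * (δ * A0') + (1 / 2) * ((1 + 1 / δ) * (C * ε)) + ν * ((1 + 1 / δ) * (C * ε)) +
          (1 / 2) * ((1 + 1 / δ) * ε) := by ring
      rw [q6]
      rw [q5] at q4
      rw [abs_le] at d1 d3 q4 ⊢
      constructor <;> linarith [d1.1, d1.2, d3.1, d3.2, q4.1, q4.2]
    linarith
  · intro u' G' hL' t ht
    have hz : (∫ x in Q, ∑ i, (u' t x i - u t x i) ^ 2) = 0 := by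
      refine small (K := 0) (K' := 4 * C) le_rfl (by positivity) fun δ ε hδ hε hε1 => ?_
      obtain ⟨v, p, hs, hv0, hv1, hv2⟩ := happ ε hε hε1
      have a1 := hv2 u G hL t ht
      have a2 := hv2 u' G' hL' t ht
      obtain ⟨m1, m2⟩ := sol_memLp h0 hs T
      have n1 : ∀ (W : ℝ → V → Fin 3 → Fin 3 → ℝ),
          0 ≤ ∫ s in (0 : ℝ)..t, ∫ x in Q, ∑ i, ∑ j, (W s x i j - grd v s x i j) ^ 2 := by
        intro W
        refine intervalIntegral.integral_nonneg ht.1 fun s _ => integral_nonneg fun x =>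
          Finset.sum_nonneg fun i _ => Finset.sum_nonneg fun j _ => sq_nonneg _
      have b1 := n1 G
      have b2 := n1 G'
      have i1 : Integrable (fun x => ∑ i, (u t x i - v t x i) ^ 2) (volume.restrict Q) :=
        integrable_finsetSum _ fun i _ => ((hL.l2_u t ht i).sub (m1 t ht i)).integrable_sq
      have i2 : Integrable (fun x => ∑ i, (u' t x i - v t x i) ^ 2) (volume.restrict Q) :=
        integrable_finsetSum _ fun i _ => ((hL'.l2_u t ht i).sub (m1 t ht i)).integrable_sq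
      have i3 : Integrable (fun x => ∑ i, (u' t x i - u t x i) ^ 2) (volume.restrict Q) :=
        integrable_finsetSum _ fun i _ => ((hL'.l2_u t ht i).sub (hL.l2_u t ht i)).integrable_sq
      have c1 : (∫ x in Q, ∑ i, (u' t x i - u t x i) ^ 2) ≤
          2 * (∫ x in Q, ∑ i, (u' t x i - v t x i) ^ 2) +
          2 * ∫ x in Q, ∑ i, (u t x i - v t x i) ^ 2 := by
        rw [← integral_const_mul, ← integral_const_mul,
          ← integral_add (i2.const_mul 2) (i1.const_mul 2)]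
        refine integral_mono i3 ((i2.const_mul 2).add (i1.const_mul 2)) fun x => ?_
        simp only
        rw [Finset.mul_sum, Finset.mul_sum, ← Finset.sum_add_distrib]
        refine Finset.sum_le_sum fun i _ => ?_
        nlinarith [sq_nonneg ((u' t x i - v t x i) + (u t x i - v t x i))]
      have c2 : 0 ≤ ∫ x in Q, ∑ i, (u' t x i - u t x i) ^ 2 :=
        integral_nonneg fun x => Finset.sum_nonneg fun i _ => sq_nonneg _
      rw [abs_of_nonneg c2, mul_zero, zero_add]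
      have c3 : 0 ≤ 4 * C * ε := by positivity
      have c4 : 0 ≤ 1 / δ * (4 * C * ε) := by positivity
      have c5 : (1 + 1 / δ) * (4 * C * ε) = 4 * C * ε + 1 / δ * (4 * C * ε) := by ring
      rw [c5]
      linarith
    have i3 : Integrable (fun x => ∑ i, (u' t x i - u t x i) ^ 2) (volume.restrict Q) :=
      integrable_finsetSum _ fun i _ => ((hL'.l2_u t ht i).sub (hL.l2_u t ht i)).integrable_sq
    have h1 := (integral_eq_zero_iff_of_nonneg (fun x => Finset.sum_nonneg fun i _ =>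
      sq_nonneg _) i3).1 hz
    filter_upwards [h1] with x hx
    have h2 := (Finset.sum_eq_zero_iff_of_nonneg (fun i _ => sq_nonneg _)).1 hx
    funext i
    have h3 := h2 i (Finset.mem_univ i)
    have h4 := pow_eq_zero_iff (two_ne_zero) |>.1 h3
    linarith

end Pool.Agent.H303.DEE
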