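import Pool.Agent.H303.DEE.Stm4
import Pool.Agent.H303.DEE.T9
import Pool.Agent.H303.DEE.S9

/-!
The limit of the gradients is the gradient.
-/

set_option autoImplicit false

open MeasureTheory Set Filter Topology
open scoped ContDiff ENNReal
open H459R3.NS (SP Per pd cube ibp integral_pd)

namespace Pool.Agent.H303.DEE.Dk7

theorem trg_smooth (b : Bool) (k : Fin 3 → ℤ) : ContDiff ℝ ∞ (trg b k) := by
  have h1 : ContDiff ℝ ∞ (fun x : V => 2 * Real.pi * ∑ j, (k j : ℝ) * x j) := by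
    fun_prop
  cases b
  · exact h1.sin
  · exact h1.cos

theorem trg_per (b : Bool) (k : Fin 3 → ℤ) : Periodic (trg b k) := by
  intro j x
  have h1 : 2 * Real.pi * ∑ i, (k i : ℝ) * (x + Pi.single j 1 : V) i =
      2 * Real.pi * ∑ i, (k i : ℝ) * x i + (k j : ℝ) * (2 * Real.pi) := by
    have h2 : ∑ i, (k i : ℝ) * (x + Pi.single j 1 : V) i = ∑ i, (k i : ℝ) * x i + k j := by
      simp only [Pi.add_apply, mul_add, Finset.sum_add_distrib, Pi.single_apply, mul_ite, mul_one,
        mul_zero, Finset.sum_ite_eq', Finset.mem_univ, if_true]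
    rw [h2]
    ring
  unfold trg
  rw [h1]
  cases b
  · simp [Real.sin_add_int_mul_two_pi]
  · simp [Real.cos_add_int_mul_two_pi]

/-- strong convergence implies weak convergence -/
theorem lim_mul {X : Type*} [MeasurableSpace X] {μ : Measure X} {u : X → ℝ} {v : ℕ → X → ℝ}
    {g : X → ℝ} (hu : MemLp u 2 μ) (hv : ∀ k, MemLp (v k) 2 μ) (hg : MemLp g 2 μ)
    (h : Tendsto (fun k => ∫ x, (u x - v k x) ^ 2 ∂μ) atTop (𝓝 0)) :
    Tendsto (fun k => ∫ x, v k x * g x ∂μ) atTop (𝓝 (∫ x, u x * g x ∂μ)) := by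
  rw [tendsto_iff_norm_sub_tendsto_zero]
  have e2 : ENNReal.ofReal 2 = 2 := by norm_num
  have hb : ∀ k, ‖(∫ x, v k x * g x ∂μ) - ∫ x, u x * g x ∂μ‖ ≤
      (∫ x, (u x - v k x) ^ 2 ∂μ) ^ (1 / (2 : ℝ)) * (∫ x, g x ^ 2 ∂μ) ^ (1 / (2 : ℝ)) := by
    intro k
    have i1 : Integrable (fun x => v k x * g x) μ := (hv k).integrable_mul hg
    have i2 : Integrable (fun x => u x * g x) μ := hu.integrable_mul hg
    rw [← integral_sub i1 i2]
    refine (norm_integral_le_integral_norm _).trans ?_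
    have h1 := integral_mul_norm_le_Lp_mul_Lq (μ := μ) (f := fun x => u x - v k x) (g := g)
      (p := 2) (q := 2) Real.HolderConjugate.two_two (by rw [e2]; exact hu.sub (hv k))
      (by rw [e2]; exact hg)
    have e3 : ∀ (w : X → ℝ), ∫ x, ‖w x‖ ^ (2 : ℝ) ∂μ = ∫ x, w x ^ 2 ∂μ := by
      intro w
      refine integral_congr_ae (Eventually.of_forall fun x => ?_)
      show ‖w x‖ ^ (2 : ℝ) = w x ^ 2
      rw [Real.rpow_two, Real.norm_eq_abs, sq_abs]
    rw [e3, e3] at h1
    refine le_trans (le_of_eq ?_) h1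
    refine integral_congr_ae (Eventually.of_forall fun x => ?_)
    show ‖v k x * g x - u x * g x‖ = ‖u x - v k x‖ * ‖g x‖
    rw [← sub_mul, norm_mul, norm_sub_rev]
  have hl : Tendsto (fun k => (∫ x, (u x - v k x) ^ 2 ∂μ) ^ (1 / (2 : ℝ)) *
      (∫ x, g x ^ 2 ∂μ) ^ (1 / (2 : ℝ))) atTop (𝓝 (0 ^ (1 / (2 : ℝ)) *
      (∫ x, g x ^ 2 ∂μ) ^ (1 / (2 : ℝ)))) :=
    (h.rpow_const (Or.inr (by norm_num))).mul_const _
  rw [Real.zero_rpow (by norm_num), zero_mul] at hl
  exact squeeze_zero (fun k => norm_nonneg _) hb hl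

theorem prod_eq (T : ℝ) : (volume.restrict (Icc 0 T ×ˢ Q) : Measure (ℝ × V)) =
    (volume.restrict (Icc 0 T)).prod mQ := by
  rw [Measure.volume_eq_prod, Measure.prod_restrict]

/-- iterated integrals -/
theorem slab {T : ℝ} {F : ℝ × V → ℝ} (hF : Integrable F (volume.restrict (Icc 0 T ×ˢ Q)))
    (S : Set ℝ) :
    ∫ z in S ×ˢ univ, F z ∂(volume.restrict (Icc 0 T ×ˢ Q)) =
      ∫ t in S, (∫ x in Q, F (t, x)) ∂(volume.restrict (Icc 0 T)) := by
  rw [prod_eq] at hF ⊢
  rw [setIntegral_prod _ hF.integrableOn]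
  simp only [setIntegral_univ]

theorem slab_int {T : ℝ} {F : ℝ × V → ℝ} (hF : Integrable F (volume.restrict (Icc 0 T ×ˢ Q))) :
    Integrable (fun t => ∫ x in Q, F (t, x)) (volume.restrict (Icc 0 T)) := by
  rw [prod_eq] at hF
  exact hF.integral_prod_left

theorem ind_mul {X : Type*} [MeasurableSpace X] {μ : Measure X} (w g : X → ℝ) {A : Set X}
    (hA : MeasurableSet A) : ∫ z, w z * A.indicator g z ∂μ = ∫ z in A, w z * g z ∂μ := by
  rw [← integral_indicator hA]
  refine integral_congr_ae (Eventually.of_forall fun z => ?_)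
  show w z * A.indicator g z = A.indicator (fun z => w z * g z) z
  by_cases hz : z ∈ A
  · rw [indicator_of_mem hz, indicator_of_mem hz]
  · rw [indicator_of_notMem hz, indicator_of_notMem hz, mul_zero]

theorem key (h0 : A0) {n : ℕ} {ν : ℝ} {α : Fin 3 → ℝ} {T : ℝ} {f : V → V} {v : ℕ → ℝ → V → V}
    {p : ℕ → ℝ → V → ℝ} {u : ℝ → V → V} {G : ℝ → V → Fin 3 → Fin 3 → ℝ}
    (h : Conv n ν α T f v p u G) {ψ : V → ℝ} (hψ : ContDiff ℝ ∞ ψ) (hper : Periodic ψ)
    (i j : Fin 3) : ∀ᵐ t ∂(volume.restrict (Icc 0 T)),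
      ∫ x in Q, u t x i * partialD 1 j ψ x = -∫ x in Q, G t x i j * ψ x := by
  have hQ : Q = cube := rfl
  have hSP : SP ψ := ⟨hψ, hper⟩
  have hψc : Continuous ψ := hψ.continuous
  have hψ' : Continuous (partialD 1 j ψ) := by
    rw [T9.pD_one hψ]
    exact (hSP.pd j).cont
  have hK : IsCompact (Icc 0 T ×ˢ Q : Set (ℝ × V)) := isCompact_Icc.prod T8.Q_compact
  have m1 : MemLp (fun z : ℝ × V => partialD 1 j ψ z.2) 2 (volume.restrict (Icc 0 T ×ˢ Q)) :=
    T9.memLp_compact hK (hψ'.comp continuous_snd)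
  have m2 : MemLp (fun z : ℝ × V => ψ z.2) 2 (volume.restrict (Icc 0 T ×ˢ Q)) :=
    T9.memLp_compact hK (hψc.comp continuous_snd)
  have mv : ∀ k, MemLp (fun z : ℝ × V => v k z.1 z.2 i) 2 (volume.restrict (Icc 0 T ×ˢ Q)) := by
    intro k
    refine T8.memLp_of_cont hK ?_
    have h1 := (contDiffOn_pi.1 (h.sol k).smooth_u i).continuousOn
    exact h1.mono (prod_mono Icc_subset_Ici_self (subset_univ _))
  have mg : ∀ k, MemLp (fun z : ℝ × V => grd (v k) z.1 z.2 i j) 2
      (volume.restrict (Icc 0 T ×ˢ Q)) := fun k => (S9L.sol_memLp h0 (h.sol k) T).2 i j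
  have i1 : Integrable (fun z : ℝ × V => u z.1 z.2 i * partialD 1 j ψ z.2)
      (volume.restrict (Icc 0 T ×ˢ Q)) := (h.l2_us i).integrable_mul m1
  have i2 : Integrable (fun z : ℝ × V => G z.1 z.2 i j * ψ z.2)
      (volume.restrict (Icc 0 T ×ˢ Q)) := (h.l2_G i j).integrable_mul m2
  have i3 : ∀ k, Integrable (fun z : ℝ × V => v k z.1 z.2 i * partialD 1 j ψ z.2)
      (volume.restrict (Icc 0 T ×ˢ Q)) := fun k => (mv k).integrable_mul m1
  have i4 : ∀ k, Integrable (fun z : ℝ × V => grd (v k) z.1 z.2 i j * ψ z.2)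
      (volume.restrict (Icc 0 T ×ˢ Q)) := fun k => (mg k).integrable_mul m2
  -- integration by parts
  have hib : ∀ k, ∀ t ∈ Icc 0 T, ∫ x in Q, v k t x i * partialD 1 j ψ x =
      -∫ x in Q, grd (v k) t x i j * ψ x := by
    intro k t ht
    have hv1 := (h0 (v k) (h.sol k).smooth_u).1 t ht.1
    have hSPv : SP (fun y => v k t y i) := T9.sp_comp hv1 ((h.sol k).per_u t ht.1) i
    have h1 := ibp hSPv hSP j
    have h2 : ∀ x, grd (v k) t x i j = pd j (fun y => v k t y i) x := by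
      intro x
      unfold grd
      rw [T9.pD_one hSPv.smooth j]
    rw [hQ, T9.pD_one hψ]
    simp only [h2]
    rw [h1]
    ring
  -- the difference
  have hD : Integrable (fun t => (∫ x in Q, u t x i * partialD 1 j ψ x) +
      ∫ x in Q, G t x i j * ψ x) (volume.restrict (Icc 0 T)) := (slab_int i1).add (slab_int i2)
  have hz := hD.ae_eq_zero_of_forall_setIntegral_eq_zero (by
    intro S hS _
    have hA : MeasurableSet (S ×ˢ (univ : Set V)) := hS.prod MeasurableSet.univ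
    rw [integral_add (slab_int i1).integrableOn (slab_int i2).integrableOn,
      ← slab i1 S, ← slab i2 S]
    have l1 := lim_mul (h.l2_us i) mv (m1.indicator hA) (h.st i)
    have l2 := h.wg i j _ (m2.indicator hA)
    simp only [ind_mul _ _ hA] at l1 l2
    have l3 := l1.add l2
    have e : ∀ k, (∫ z in S ×ˢ univ, v k z.1 z.2 i * partialD 1 j ψ z.2
          ∂(volume.restrict (Icc 0 T ×ˢ Q))) +
        ∫ z in S ×ˢ univ, grd (v k) z.1 z.2 i j * ψ z.2
          ∂(volume.restrict (Icc 0 T ×ˢ Q)) = 0 := by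
      intro k
      rw [slab (i3 k) S, slab (i4 k) S, add_eq_zero_iff_eq_neg, ← integral_neg]
      refine integral_congr_ae ?_
      have h5 : ∀ᵐ t ∂(volume.restrict (Icc 0 T)), t ∈ Icc 0 T := ae_restrict_mem measurableSet_Icc
      filter_upwards [ae_restrict_of_ae h5] with t ht
      exact hib k t ht
    simp only [e] at l3
    exact tendsto_nhds_unique l3 tendsto_const_nhds)
  filter_upwards [hz] with t ht
  simp only [Pi.zero_apply] at ht
  linarith

end Dk7

open Dk7 in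
/-- the limit of the gradients is the gradient -/
theorem d7 (h0 : A0) (h7 : D7a) : D7 := by
  intro n ν α T f v p u G h
  have h1 : ∀ᵐ t ∂(volume.restrict (Icc 0 T)), ∀ (b : Bool) (m : Fin 3 → ℤ) (i j : Fin 3),
      ∫ x in Q, u t x i * partialD 1 j (trg b m) x = -∫ x in Q, G t x i j * trg b m x := by
    rw [ae_all_iff]
    intro b
    rw [ae_all_iff]
    intro m
    rw [ae_all_iff]
    intro i
    rw [ae_all_iff]
    intro j
    exact key h0 h (trg_smooth b m) (trg_per b m) i j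
  have h2 : ∀ᵐ t ∂(volume.restrict (Icc 0 T)), ∀ (i j : Fin 3),
      MemLp (fun x => G t x i j) 2 mQ := by
    rw [ae_all_iff]
    intro i
    rw [ae_all_iff]
    intro j
    have h3 := (h.l2_G i j).integrable_sq
    rw [Dk7.prod_eq] at h3
    filter_upwards [h3.prod_right_ae] with t ht
    have hm : Measurable fun x => G t x i j := by
      have h4 : Measurable fun x : V => G t x := h.meas_G.comp measurable_prodMk_left
      exact (measurable_pi_iff.1 ((measurable_pi_iff.1 h4) i)) j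
    exact (memLp_two_iff_integrable_sq hm.aestronglyMeasurable).2 ht
  filter_upwards [h1, h2, ae_restrict_mem measurableSet_Icc] with t k1 k2 k3
  intro ψ hψ hp i j
  exact h7 _ _ j (h.l2_u t k3 i) (k2 i j) (fun b m => k1 b m i j) ψ hψ hp

end Pool.Agent.H303.DEE
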