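import Pool.Agent.H303.DEE.Stm4
import Pool.Agent.H303.DEE.S8
import Pool.Graph.R_seed8.H459R3.NS.Ibp

/-!
Weak derivatives tested with trigonometric functions (`D7a`).
-/

open MeasureTheory Set Filter Topology
open scoped ContDiff ENNReal

namespace Pool.Agent.H303.DEE.D7aP

open H459R3.NS (K3 ee cov fc ph SP Per pd ibp)
open Pool.Agent.H303.DEE.TS8

/-- Young's inequality in `L²`. -/
theorem cs (u v : V → ℝ) (hu : MemLp u 2 mQ) (hv : MemLp v 2 mQ) (δ : ℝ) (hδ : 0 < δ) :
    |∫ x in Q, u x * v x| ≤ δ * (∫ x in Q, u x ^ 2) + δ⁻¹ * ∫ x in Q, v x ^ 2 := by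
  have h1 : Integrable (fun x => u x * v x) mQ := hu.integrable_mul hv
  have h2 : Integrable (fun x => δ * u x ^ 2) mQ := hu.integrable_sq.const_mul _
  have h3 : Integrable (fun x => δ⁻¹ * v x ^ 2) mQ := hv.integrable_sq.const_mul _
  have h4 : |∫ x in Q, u x * v x| ≤ ∫ x in Q, |u x * v x| := abs_integral_le_integral_abs
  refine h4.trans ?_
  rw [← integral_const_mul, ← integral_const_mul, ← integral_add h2 h3]
  refine integral_mono h1.abs (h2.add h3) ?_
  intro x
  show |u x * v x| ≤ δ * u x ^ 2 + δ⁻¹ * v x ^ 2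
  have h5 : δ * δ⁻¹ = 1 := mul_inv_cancel₀ hδ.ne'
  have h6 : 0 < δ⁻¹ := inv_pos.mpr hδ
  have h7 : 0 ≤ δ⁻¹ * (δ * u x - v x) ^ 2 := by positivity
  have h8 : 0 ≤ δ⁻¹ * (δ * u x + v x) ^ 2 := by positivity
  have h9 : δ⁻¹ * (δ * u x - v x) ^ 2 = δ * u x ^ 2 - 2 * (u x * v x) + δ⁻¹ * v x ^ 2 := by
    field_simp
    ring
  have h10 : δ⁻¹ * (δ * u x + v x) ^ 2 = δ * u x ^ 2 + 2 * (u x * v x) + δ⁻¹ * v x ^ 2 := by
    field_simp
    ring
  have h11 : 0 ≤ δ * u x ^ 2 + δ⁻¹ * v x ^ 2 := by positivity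
  rw [abs_le]
  constructor <;> linarith

/-- `∂_j` of order one. -/
theorem pD_one (f : V → ℝ) (j : Fin 3) : partialD 1 j f = pd j f := by
  funext x
  rw [partialD, iteratedFDeriv_one_apply]
  rfl

theorem memLp_cont {f : V → ℝ} (hf : Continuous f) : MemLp f 2 mQ := by
  have hfin : IsFiniteMeasure mQ := H459R3.NS.cube_finite
  obtain ⟨C, hC⟩ := (isCompact_Icc (a := (0 : V)) (b := 1)).exists_bound_of_continuousOn
    hf.continuousOn
  refine MemLp.of_bound (C := C) hf.aestronglyMeasurable ?_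
  exact (ae_restrict_iff' measurableSet_Icc).mpr (Eventually.of_forall fun x hx => hC x hx)

theorem trg_true (k : K3) : trg true k = fun x => ((1 : ℂ) * ee k x).re := by
  funext x
  rw [one_mul]
  show Real.cos (2 * Real.pi * ∑ j, (k j : ℝ) * x j) = _
  have h : ee k x = Complex.exp (((2 * Real.pi * ∑ j, (k j : ℝ) * x j : ℝ) : ℂ) * Complex.I) := by
    rw [ee, ph]
    congr 1
    push_cast
    ring
  rw [h, Complex.exp_ofReal_mul_I_re]

theorem trg_false (k : K3) : trg false k = fun x => ((-Complex.I : ℂ) * ee k x).re := by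
  funext x
  show Real.sin (2 * Real.pi * ∑ j, (k j : ℝ) * x j) = _
  have h : ee k x = Complex.exp (((2 * Real.pi * ∑ j, (k j : ℝ) * x j : ℝ) : ℂ) * Complex.I) := by
    rw [ee, ph]
    congr 1
    push_cast
    ring
  rw [h, neg_mul, Complex.neg_re, Complex.I_mul_re, Complex.exp_ofReal_mul_I_im, neg_neg]

/-- the coefficients of the weak derivative -/
theorem cf_of_trg {f g : V → ℝ} {j : Fin 3} (hf : MemLp f 2 mQ) (hg : MemLp g 2 mQ)
    (h : ∀ b m, ∫ x in Q, f x * partialD 1 j (trg b m) x = -∫ x in Q, g x * trg b m x) (k : K3) :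
    cf g k = cf f k * dk k j := by
  have e1 := h true (-k)
  have e2 := h false (-k)
  rw [trg_true] at e1
  rw [trg_false] at e2
  simp only [pD1] at e1 e2
  rw [← re_cf f hf k, ← re_cf g hg k, dk_neg] at e1 e2
  have h1 : cf g k - cf f k * dk k j = 0 := by
    apply Complex.ext
    · rw [Complex.zero_re]
      have h2 : (1 * -dk k j * cf f k).re = -(cf f k * dk k j).re := by
        rw [← Complex.neg_re]
        congr 1
        ring
      rw [h2, one_mul] at e1
      rw [Complex.sub_re]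
      linarith
    · rw [Complex.zero_im]
      have h2 : (-Complex.I * -dk k j * cf f k).re = -(cf f k * dk k j).im := by
        have h3 : -Complex.I * -dk k j * cf f k = Complex.I * (cf f k * dk k j) := by ring
        rw [h3, Complex.I_mul_re]
      have h4 : (-Complex.I * cf g k).re = (cf g k).im := by
        rw [neg_mul, Complex.neg_re, Complex.I_mul_re, neg_neg]
      rw [h2, h4] at e2
      rw [Complex.sub_im]
      linarith
  exact sub_eq_zero.mp h1

/-- the coefficients of the derivative of a smooth function -/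
theorem cf_smooth {ψ : V → ℝ} (hψ : ContDiff ℝ ∞ ψ) (hp : Periodic ψ) (j : Fin 3) (k : K3) :
    cf (partialD 1 j ψ) k = cf ψ k * dk k j := by
  have hs : SP ψ := ⟨hψ, hp⟩
  have hd : SP (partialD 1 j ψ) := by
    rw [pD_one]
    exact hs.pd j
  refine cf_of_trg (memLp_cont hs.cont) (memLp_cont hd.cont) ?_ k
  intro b m
  have ht : SP (trg b m) := by
    cases b
    · rw [trg_false]
      refine ⟨?_, ?_⟩
      · have := smooth_re {m} (fun _ => -Complex.I)
        simpa only [Finset.sum_singleton] using this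
      · have h5 := per_re {m} (fun _ => -Complex.I)
        simp only [Finset.sum_singleton] at h5
        exact h5
    · rw [trg_true]
      refine ⟨?_, ?_⟩
      · have := smooth_re {m} (fun _ => 1)
        simpa only [Finset.sum_singleton] using this
      · have h5 := per_re {m} (fun _ => 1)
        simp only [Finset.sum_singleton] at h5
        exact h5
  rw [pD_one, pD_one]
  have h1 := ibp hs ht j
  have h2 : (∫ x in Q, ψ x * pd j (trg b m) x) = -∫ x in Q, pd j ψ x * trg b m x := by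
    rw [show (∫ x in Q, pd j ψ x * trg b m x) = -∫ x in Q, ψ x * pd j (trg b m) x from h1, neg_neg]
  exact h2

/-- the identity for trigonometric polynomials -/
theorem poly {f g : V → ℝ} {j : Fin 3} (hf : MemLp f 2 mQ) (hg : MemLp g 2 mQ)
    (h : ∀ k, cf g k = cf f k * dk k j) (S : Finset K3) (a : K3 → ℂ) :
    (∫ x in Q, f x * (∑ k ∈ S, a k * dk k j * ee k x).re) +
      ∫ x in Q, g x * (∑ k ∈ S, a k * ee k x).re = 0 := by
  have h1 : (∫ x in Q, f x * (∑ k ∈ S, a k * dk k j * ee k x).re) =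
      ∑ k ∈ S, (a k * dk k j * cf f (-k)).re := by
    have e : ∀ x, f x * (∑ k ∈ S, a k * dk k j * ee k x).re =
        ∑ k ∈ S, f x * (a k * dk k j * ee k x).re := by
      intro x
      rw [Complex.re_sum, Finset.mul_sum]
    simp only [e]
    rw [integral_finsetSum _ (fun k _ => int_re f hf k (a k * dk k j))]
    apply Finset.sum_congr rfl
    intro k _
    have := re_cf f hf (-k) (a k * dk k j)
    rw [neg_neg] at this
    exact this.symm
  have h2 : (∫ x in Q, g x * (∑ k ∈ S, a k * ee k x).re) =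
      ∑ k ∈ S, (a k * cf g (-k)).re := by
    have e : ∀ x, g x * (∑ k ∈ S, a k * ee k x).re =
        ∑ k ∈ S, g x * (a k * ee k x).re := by
      intro x
      rw [Complex.re_sum, Finset.mul_sum]
    simp only [e]
    rw [integral_finsetSum _ (fun k _ => int_re g hg k (a k))]
    apply Finset.sum_congr rfl
    intro k _
    have := re_cf g hg (-k) (a k)
    rw [neg_neg] at this
    exact this.symm
  rw [h1, h2, ← Finset.sum_add_distrib]
  apply Finset.sum_eq_zero
  intro k _
  rw [h, dk_neg, ← Complex.add_re]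
  have h3 : a k * dk k j * cf f (-k) + a k * (cf f (-k) * -dk k j) = 0 := by ring
  rw [h3, Complex.zero_re]

theorem main (f g : V → ℝ) (j : Fin 3) (hf : MemLp f 2 mQ) (hg : MemLp g 2 mQ)
    (h : ∀ b m, ∫ x in Q, f x * partialD 1 j (trg b m) x = -∫ x in Q, g x * trg b m x)
    (ψ : V → ℝ) (hψ : ContDiff ℝ ∞ ψ) (hp : Periodic ψ) :
    ∫ x in Q, f x * partialD 1 j ψ x = -∫ x in Q, g x * ψ x := by
  have hs : SP ψ := ⟨hψ, hp⟩
  have hd : SP (partialD 1 j ψ) := by
    rw [pD_one]
    exact hs.pd j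
  have hm0 : MemLp ψ 2 mQ := memLp_cont hs.cont
  have hm1 : MemLp (partialD 1 j ψ) 2 mQ := memLp_cont hd.cont
  have hc := cf_of_trg hf hg h
  have key : ∀ δ : ℝ, 0 < δ →
      |(∫ x in Q, f x * partialD 1 j ψ x) + ∫ x in Q, g x * ψ x| ≤
        δ * ((∫ x in Q, f x ^ 2) + (∫ x in Q, g x ^ 2) + 2) := by
    intro δ hδ
    obtain ⟨SA, hSA⟩ := trunc (fun x => (ψ x : ℂ)) hm0.ofReal (δ ^ 2) (by positivity)
    obtain ⟨SB, hSB⟩ := trunc (fun x => (partialD 1 j ψ x : ℂ)) hm1.ofReal (δ ^ 2) (by positivity)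
    have hA := hSA (SA ∪ SB) Finset.subset_union_left
    have hB := hSB (SA ∪ SB) Finset.subset_union_right
    generalize SA ∪ SB = S at hA hB
    have eA := est ψ hm0 S (fun k => cf ψ k)
    have eB := est (partialD 1 j ψ) hm1 S (fun k => cf ψ k * dk k j)
    have eA' : ∫ x in Q, (ψ x - (∑ k ∈ S, cf ψ k * ee k x).re) ^ 2 ≤ δ ^ 2 := eA.2.trans hA
    have eB' : ∫ x in Q, (partialD 1 j ψ x - (∑ k ∈ S, cf ψ k * dk k j * ee k x).re) ^ 2 ≤
        δ ^ 2 := by
      refine eB.2.trans (le_trans (le_of_eq ?_) hB)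
      congr 1
      funext x
      congr 3
      apply Finset.sum_congr rfl
      intro k _
      rw [← cf_smooth hψ hp j k]
      rfl
    have hP : MemLp (fun x => (∑ k ∈ S, cf ψ k * ee k x).re) 2 mQ :=
      memLp_cont (smooth_re S (fun k => cf ψ k)).continuous
    have hP' : MemLp (fun x => (∑ k ∈ S, cf ψ k * dk k j * ee k x).re) 2 mQ :=
      memLp_cont (smooth_re S (fun k => cf ψ k * dk k j)).continuous
    have h0 := poly hf hg hc S (fun k => cf ψ k)
    have c1 := cs f (fun x => partialD 1 j ψ x - (∑ k ∈ S, cf ψ k * dk k j * ee k x).re) hf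
      (hm1.sub hP') δ hδ
    have c2 := cs g (fun x => ψ x - (∑ k ∈ S, cf ψ k * ee k x).re) hg (hm0.sub hP) δ hδ
    have i1 : (∫ x in Q, f x * (partialD 1 j ψ x - (∑ k ∈ S, cf ψ k * dk k j * ee k x).re)) =
        (∫ x in Q, f x * partialD 1 j ψ x) -
          ∫ x in Q, f x * (∑ k ∈ S, cf ψ k * dk k j * ee k x).re := by
      have j1 : Integrable (fun x => f x * partialD 1 j ψ x) mQ := hf.integrable_mul hm1
      have j2 : Integrable (fun x => f x * (∑ k ∈ S, cf ψ k * dk k j * ee k x).re) mQ :=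
        hf.integrable_mul hP'
      rw [← integral_sub j1 j2]
      congr 1
      funext x
      show _ = f x * partialD 1 j ψ x - f x * (∑ k ∈ S, cf ψ k * dk k j * ee k x).re
      ring
    have i2 : (∫ x in Q, g x * (ψ x - (∑ k ∈ S, cf ψ k * ee k x).re)) =
        (∫ x in Q, g x * ψ x) - ∫ x in Q, g x * (∑ k ∈ S, cf ψ k * ee k x).re := by
      have j1 : Integrable (fun x => g x * ψ x) mQ := hg.integrable_mul hm0
      have j2 : Integrable (fun x => g x * (∑ k ∈ S, cf ψ k * ee k x).re) mQ :=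
        hg.integrable_mul hP
      rw [← integral_sub j1 j2]
      congr 1
      funext x
      show _ = g x * ψ x - g x * (∑ k ∈ S, cf ψ k * ee k x).re
      ring
    have h1 : (∫ x in Q, f x * partialD 1 j ψ x) + ∫ x in Q, g x * ψ x =
        (∫ x in Q, f x * (partialD 1 j ψ x - (∑ k ∈ S, cf ψ k * dk k j * ee k x).re)) +
          ∫ x in Q, g x * (ψ x - (∑ k ∈ S, cf ψ k * ee k x).re) := by
      rw [i1, i2]
      linarith
    rw [h1]
    have h2 : δ⁻¹ * δ ^ 2 = δ := by
      field_simp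
    have h3 : 0 < δ⁻¹ := inv_pos.mpr hδ
    have b1 := mul_le_mul_of_nonneg_left eB' h3.le
    have b2 := mul_le_mul_of_nonneg_left eA' h3.le
    rw [h2] at b1 b2
    refine (abs_add_le _ _).trans ?_
    have c1' := c1.trans (add_le_add_right b1 _)
    have c2' := c2.trans (add_le_add_right b2 _)
    linarith
  have hK : 0 < (∫ x in Q, f x ^ 2) + (∫ x in Q, g x ^ 2) + 2 := by
    have h1 : 0 ≤ ∫ x in Q, f x ^ 2 := integral_nonneg fun x => sq_nonneg _
    have h2 : 0 ≤ ∫ x in Q, g x ^ 2 := integral_nonneg fun x => sq_nonneg _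
    linarith
  have h0 : (∫ x in Q, f x * partialD 1 j ψ x) + ∫ x in Q, g x * ψ x = 0 := by
    by_contra hne
    have hpos := abs_pos.mpr hne
    have := key (|(∫ x in Q, f x * partialD 1 j ψ x) + ∫ x in Q, g x * ψ x| / 2 /
      ((∫ x in Q, f x ^ 2) + (∫ x in Q, g x ^ 2) + 2)) (by positivity)
    rw [div_mul_cancel₀ _ hK.ne'] at this
    linarith
  linarith

end Pool.Agent.H303.DEE.D7aP

namespace Pool.Agent.H303.DEE

theorem d7a : D7a := D7aP.main

end Pool.Agent.H303.DEE
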