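import Pool.Agent.H303.DEE.Stm4

/-!
Project DEE, D8 (helper808): the weak formulation for the limit. (Model: the proof of C3 by helper342.)
-/

set_option autoImplicit false

open MeasureTheory Set Filter Topology
open scoped ContDiff ENNReal

namespace Pool.Agent.H303.DEE

namespace D8L

/-- convergence to zero from a family of bounds -/
lemma squeeze {x y : ℕ → ℝ} {K : ℝ} (hx : ∀ k, 0 ≤ x k)
    (h : ∀ δ : ℝ, 0 < δ → ∃ c : ℝ, ∀ k, x k ≤ δ * K + c * y k)
    (hy : Tendsto y atTop (𝓝 0)) : Tendsto x atTop (𝓝 0) := by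
  rw [Metric.tendsto_atTop]
  intro ε hε
  have hK : 0 < 2 * (|K| + 1) := by positivity
  obtain ⟨c, hc⟩ := h (ε / (2 * (|K| + 1))) (by positivity)
  have h1 : Tendsto (fun k => c * y k) atTop (𝓝 0) := by
    have := hy.const_mul c
    rwa [mul_zero] at this
  obtain ⟨N, hN⟩ := (Metric.tendsto_atTop.1 h1) (ε / 2) (by positivity)
  refine ⟨N, fun k hk => ?_⟩
  rw [Real.dist_eq, sub_zero, abs_of_nonneg (hx k)]
  have h2 := hN k hk
  rw [Real.dist_eq, sub_zero] at h2
  have h3 := (le_abs_self _).trans_lt h2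
  have h4 : ε / (2 * (|K| + 1)) * K ≤ ε / 2 := by
    have h5 : ε / (2 * (|K| + 1)) * K ≤ ε / (2 * (|K| + 1)) * (|K| + 1) := by
      refine mul_le_mul_of_nonneg_left ?_ (by positivity)
      linarith [le_abs_self K]
    refine h5.trans (le_of_eq ?_)
    field_simp
  linarith [hc k]

variable {X : Type*} [MeasurableSpace X] {m : Measure X}

/-- convergence of the integrals -/
def Cv (m : Measure X) (F : ℕ → X → ℝ) (f : X → ℝ) : Prop :=
  (∀ k, Integrable (F k) m) ∧ Integrable f m ∧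
    Tendsto (fun k => ∫ x, F k x ∂m) atTop (𝓝 (∫ x, f x ∂m))

lemma Cv.add {F F' : ℕ → X → ℝ} {f f' : X → ℝ} (h : Cv m F f) (h' : Cv m F' f') :
    Cv m (fun k x => F k x + F' k x) (fun x => f x + f' x) := by
  refine ⟨fun k => (h.1 k).add (h'.1 k), h.2.1.add h'.2.1, ?_⟩
  rw [integral_add h.2.1 h'.2.1]
  refine (h.2.2.add h'.2.2).congr fun k => ?_
  exact (integral_add (h.1 k) (h'.1 k)).symm

lemma Cv.sub {F F' : ℕ → X → ℝ} {f f' : X → ℝ} (h : Cv m F f) (h' : Cv m F' f') :
    Cv m (fun k x => F k x - F' k x) (fun x => f x - f' x) := by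
  refine ⟨fun k => (h.1 k).sub (h'.1 k), h.2.1.sub h'.2.1, ?_⟩
  rw [integral_sub h.2.1 h'.2.1]
  refine (h.2.2.sub h'.2.2).congr fun k => ?_
  exact (integral_sub (h.1 k) (h'.1 k)).symm

lemma Cv.const_mul {F : ℕ → X → ℝ} {f : X → ℝ} (h : Cv m F f) (c : ℝ) :
    Cv m (fun k x => c * F k x) (fun x => c * f x) := by
  refine ⟨fun k => (h.1 k).const_mul c, h.2.1.const_mul c, ?_⟩
  rw [integral_const_mul]
  refine (h.2.2.const_mul c).congr fun k => ?_
  exact (integral_const_mul _ _).symm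

lemma Cv.sum {F : Fin 3 → ℕ → X → ℝ} {f : Fin 3 → X → ℝ} (h : ∀ i, Cv m (F i) (f i)) :
    Cv m (fun k x => ∑ i, F i k x) (fun x => ∑ i, f i x) := by
  refine ⟨fun k => integrable_finsetSum _ fun i _ => (h i).1 k,
    integrable_finsetSum _ fun i _ => (h i).2.1, ?_⟩
  rw [integral_finsetSum _ fun i _ => (h i).2.1]
  refine (tendsto_finsetSum _ fun i _ => (h i).2.2).congr fun k => ?_
  exact (integral_finsetSum _ fun i _ => (h i).1 k).symm

/-- products of two strongly convergent sequences and a bounded function -/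
lemma Cv.quad {A B : ℕ → X → ℝ} {a b g : X → ℝ} {M : ℝ} (hA : ∀ k, MemLp (A k) 2 m)
    (hB : ∀ k, MemLp (B k) 2 m) (ha : MemLp a 2 m) (hb : MemLp b 2 m)
    (hAa : Tendsto (fun k => ∫ x, (a x - A k x) ^ 2 ∂m) atTop (𝓝 0))
    (hBb : Tendsto (fun k => ∫ x, (b x - B k x) ^ 2 ∂m) atTop (𝓝 0))
    (hg : AEStronglyMeasurable g m) (_hM0 : 0 ≤ M) (hM : ∀ᵐ x ∂m, |g x| ≤ M) :
    Cv m (fun k x => A k x * B k x * g x) (fun x => a x * b x * g x) := by
  have key : ∀ {p q : X → ℝ}, MemLp p 2 m → MemLp q 2 m →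
      Integrable (fun x => p x * q x * g x) m := by
    intro p q hp hq
    have h1 : Integrable (fun x => p x * q x) m := hp.integrable_mul hq
    refine Integrable.mono' (h1.abs.const_mul M) (h1.aestronglyMeasurable.mul hg) ?_
    filter_upwards [hM] with x hx
    rw [Real.norm_eq_abs, abs_mul, mul_comm]
    exact mul_le_mul_of_nonneg_right hx (abs_nonneg _)
  refine ⟨fun k => key (hA k) (hB k), key ha hb, ?_⟩
  rw [tendsto_iff_dist_tendsto_zero]
  have hy : Tendsto (fun k => (∫ x, (a x - A k x) ^ 2 ∂m) + ∫ x, (b x - B k x) ^ 2 ∂m) atTop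
      (𝓝 0) := by
    have := hAa.add hBb
    rwa [add_zero] at this
  refine squeeze (K := M * ((∫ x, a x ^ 2 ∂m) + ∫ x, b x ^ 2 ∂m)) (fun k => dist_nonneg) ?_ hy
  intro δ hδ
  refine ⟨M * (1 / 2 + 1 / (4 * δ)), fun k => ?_⟩
  have i1 : Integrable (fun x => a x ^ 2) m := ha.integrable_sq
  have i2 : Integrable (fun x => b x ^ 2) m := hb.integrable_sq
  have i3 : Integrable (fun x => (a x - A k x) ^ 2) m := (ha.sub (hA k)).integrable_sq
  have i4 : Integrable (fun x => (b x - B k x) ^ 2) m := (hb.sub (hB k)).integrable_sq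
  have i12 : Integrable (fun x => a x ^ 2 + b x ^ 2) m := i1.add i2
  have i34 : Integrable (fun x => (a x - A k x) ^ 2 + (b x - B k x) ^ 2) m := i3.add i4
  rw [Real.dist_eq, ← integral_sub (key (hA k) (hB k)) (key ha hb)]
  refine abs_integral_le_integral_abs.trans ?_
  have h1 : ∫ x, |A k x * B k x * g x - a x * b x * g x| ∂m ≤
      ∫ x, (M * δ * (a x ^ 2 + b x ^ 2) +
        M * (1 / 2 + 1 / (4 * δ)) * ((a x - A k x) ^ 2 + (b x - B k x) ^ 2)) ∂m := by
    refine integral_mono_ae ((key (hA k) (hB k)).sub (key ha hb)).abs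
      ((i12.const_mul _).add (i34.const_mul _)) ?_
    filter_upwards [hM] with x hx
    have e : A k x * B k x * g x - a x * b x * g x =
        ((a x - A k x) * (b x - B k x) - a x * (b x - B k x) - (a x - A k x) * b x) * g x := by
      ring
    rw [e, abs_mul]
    have hp : ∀ p q : ℝ, |p * q| ≤ δ * p ^ 2 + 1 / (4 * δ) * q ^ 2 := by
      intro p q
      have h2 : 0 ≤ (2 * δ * p - q) ^ 2 / (4 * δ) := by positivity
      have h3 : 0 ≤ (2 * δ * p + q) ^ 2 / (4 * δ) := by positivity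
      have e2 : (2 * δ * p - q) ^ 2 / (4 * δ) = δ * p ^ 2 + 1 / (4 * δ) * q ^ 2 - p * q := by
        field_simp
        ring
      have e3 : (2 * δ * p + q) ^ 2 / (4 * δ) = δ * p ^ 2 + 1 / (4 * δ) * q ^ 2 + p * q := by
        field_simp
        ring
      rw [e2] at h2
      rw [e3] at h3
      rw [abs_le]
      constructor <;> linarith
    have hp' : ∀ p q : ℝ, |p * q| ≤ 1 / 2 * (p ^ 2 + q ^ 2) := by
      intro p q
      rw [abs_le]
      constructor <;> nlinarith [sq_nonneg (p - q), sq_nonneg (p + q)]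
    have h4 : |(a x - A k x) * (b x - B k x) - a x * (b x - B k x) - (a x - A k x) * b x| ≤
        δ * (a x ^ 2 + b x ^ 2) +
          (1 / 2 + 1 / (4 * δ)) * ((a x - A k x) ^ 2 + (b x - B k x) ^ 2) := by
      have k1 := hp' (a x - A k x) (b x - B k x)
      have k2 := hp (a x) (b x - B k x)
      have k3 := hp (b x) (a x - A k x)
      rw [mul_comm (b x)] at k3
      have k4 : |(a x - A k x) * (b x - B k x) - a x * (b x - B k x) - (a x - A k x) * b x| ≤
          |(a x - A k x) * (b x - B k x)| + |a x * (b x - B k x)| + |(a x - A k x) * b x| :=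
        (abs_sub _ _).trans (add_le_add (abs_sub _ _) le_rfl)
      linarith
    calc |(a x - A k x) * (b x - B k x) - a x * (b x - B k x) - (a x - A k x) * b x| * |g x| ≤
          (δ * (a x ^ 2 + b x ^ 2) +
          (1 / 2 + 1 / (4 * δ)) * ((a x - A k x) ^ 2 + (b x - B k x) ^ 2)) * M :=
          mul_le_mul h4 hx (abs_nonneg _) (by positivity)
      _ = _ := by ring
  refine h1.trans (le_of_eq ?_)
  rw [integral_add (i12.const_mul _) (i34.const_mul _), integral_const_mul,
    integral_const_mul, integral_add i1 i2, integral_add i3 i4]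
  ring

lemma Cv.lin [IsFiniteMeasure m] {A : ℕ → X → ℝ} {a g : X → ℝ} {M : ℝ}
    (hA : ∀ k, MemLp (A k) 2 m) (ha : MemLp a 2 m)
    (hAa : Tendsto (fun k => ∫ x, (a x - A k x) ^ 2 ∂m) atTop (𝓝 0))
    (hg : AEStronglyMeasurable g m) (hM0 : 0 ≤ M) (hM : ∀ᵐ x ∂m, |g x| ≤ M) :
    Cv m (fun k x => A k x * g x) (fun x => a x * g x) := by
  have h := Cv.quad (B := fun _ _ => 1) (b := fun _ => 1) hA (fun _ => memLp_const 1) ha
    (memLp_const 1) hAa (by simp) hg hM0 hM
  simpa only [mul_one] using h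

/-- iterated integrals -/
lemma iter' {t : ℝ} (ht : 0 ≤ t) (F : ℝ × V → ℝ)
    (hF : Integrable F (volume.restrict (Ioc 0 t ×ˢ Q))) :
    ∫ s in (0 : ℝ)..t, ∫ x in Q, F (s, x) = ∫ z in Ioc 0 t ×ˢ Q, F z := by
  rw [intervalIntegral.integral_of_le ht]
  have h1 : IntegrableOn F (Ioc 0 t ×ˢ Q) := hF
  rw [Measure.volume_eq_prod] at h1 ⊢
  exact (setIntegral_prod F h1).symm


/-- weak convergence on a larger set -/
lemma Cv.weak {S S' : Set (ℝ × V)} (hS : MeasurableSet S) (hSS : S ⊆ S')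
    (hfin : IsFiniteMeasure (volume.restrict S))
    {A : ℕ → ℝ × V → ℝ} {a g : ℝ × V → ℝ} {M : ℝ}
    (hA : ∀ k, MemLp (A k) 2 (volume.restrict S')) (ha : MemLp a 2 (volume.restrict S'))
    (hw : ∀ g : ℝ × V → ℝ, MemLp g 2 (volume.restrict S') →
      Tendsto (fun k => ∫ z in S', A k z * g z) atTop (𝓝 (∫ z in S', a z * g z)))
    (hg : AEStronglyMeasurable g (volume.restrict S))
    (hM : ∀ᵐ x ∂(volume.restrict S), |g x| ≤ M) :
    Cv (volume.restrict S) (fun k x => A k x * g x) (fun x => a x * g x) := by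
  have hle : (volume.restrict S : Measure (ℝ × V)) ≤ volume.restrict S' :=
    Measure.restrict_mono hSS le_rfl
  have g2 : MemLp g 2 (volume.restrict S) := MemLp.of_bound hg M hM
  have g2' : MemLp (S.indicator g) 2 (volume.restrict S') := by
    have h1 : MemLp (S.indicator g) 2 (volume.restrict S' : Measure (ℝ × V)) ↔
        MemLp g 2 ((volume.restrict S').restrict S) := memLp_indicator_iff_restrict hS
    rw [h1, Measure.restrict_restrict hS, inter_eq_left.2 hSS]
    exact g2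
  have key : ∀ b : ℝ × V → ℝ, ∫ z in S', b z * S.indicator g z = ∫ z in S, b z * g z := by
    intro b
    have e : (fun z => b z * S.indicator g z) = S.indicator fun z => b z * g z := by
      funext z
      by_cases hz : z ∈ S
      · rw [indicator_of_mem hz, indicator_of_mem hz]
      · rw [indicator_of_notMem hz, indicator_of_notMem hz, mul_zero]
    rw [e, setIntegral_indicator hS, inter_eq_right.2 hSS]
  refine ⟨fun k => ?_, ?_, ?_⟩
  · exact ((hA k).mono_measure hle).integrable_mul g2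
  · exact (ha.mono_measure hle).integrable_mul g2
  · have h1 := hw _ g2'
    simp only [key] at h1
    exact h1

end D8L

open D8L

theorem d8 (h0 : A0) (h9 : A9) (h2 : C2) : D8 := by
  intro n ν α T f v p u G hn h φ hφ t ht
  obtain ⟨M, hM0, hM, hmeas⟩ := h2 n T φ hφ
  have hT : 0 ≤ T := ht.1.trans ht.2
  have hsub : Ioc 0 t ×ˢ Q ⊆ Ioc 0 T ×ˢ Q :=
    prod_mono (Ioc_subset_Ioc_right ht.2) subset_rfl
  have hsub' : Ioc 0 t ×ˢ Q ⊆ Icc 0 T ×ˢ Q :=
    hsub.trans (prod_mono Ioc_subset_Icc_self subset_rfl)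
  have hms : MeasurableSet (Ioc 0 t ×ˢ Q) := measurableSet_Ioc.prod measurableSet_Icc
  have hms' : MeasurableSet (Icc 0 T ×ˢ Q) := measurableSet_Icc.prod measurableSet_Icc
  have hcT : IsCompact (Icc 0 T ×ˢ Q) := isCompact_Icc.prod isCompact_Icc
  have hfin0 : IsFiniteMeasure (volume.restrict (Ioc 0 t ×ˢ Q) : Measure (ℝ × V)) := by
    refine ⟨?_⟩
    rw [Measure.restrict_apply_univ]
    exact (measure_mono hsub').trans_lt hcT.measure_lt_top
  obtain ⟨m, hm⟩ : ∃ m : Measure (ℝ × V), m = volume.restrict (Ioc 0 t ×ˢ Q) := ⟨_, rfl⟩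
  have hfin : IsFiniteMeasure m := by rw [hm]; exact hfin0
  have mle : m ≤ volume.restrict (Icc 0 T ×ˢ Q) := by
    rw [hm]
    exact Measure.restrict_mono hsub' le_rfl
  have mle' : m ≤ volume.restrict (Ioc 0 T ×ˢ Q) := by
    rw [hm]
    exact Measure.restrict_mono hsub le_rfl
  -- bounds of the test functions
  have hae : ∀ᵐ z ∂m, z.1 ∈ Ioc 0 T ∧ z.2 ∈ Q := by
    rw [hm]
    refine (ae_restrict_iff' hms).2 (Eventually.of_forall fun z hz => ?_)
    exact hsub hz
  have m1 : ∀ i, AEStronglyMeasurable (fun z : ℝ × V => deriv (fun r => φ r z.2 i) z.1) m :=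
    fun i => ((hmeas i i).1).mono_measure mle'
  have m2 : ∀ i j, AEStronglyMeasurable
      (fun z : ℝ × V => partialD 1 j (fun y => φ z.1 y i) z.2) m :=
    fun i j => ((hmeas i j).2.1).mono_measure mle'
  have m3 : ∀ i j, AEStronglyMeasurable
      (fun z : ℝ × V => partialD n j (fun y => φ z.1 y i) z.2) m :=
    fun i j => ((hmeas i j).2.2).mono_measure mle'
  have b1 : ∀ i, ∀ᵐ z ∂m, |deriv (fun r => φ r z.2 i) z.1| ≤ M := by
    intro i
    filter_upwards [hae] with z hz
    exact (hM z.1 hz.1 z.2 hz.2 i i).1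
  have b2 : ∀ i j, ∀ᵐ z ∂m, |partialD 1 j (fun y => φ z.1 y i) z.2| ≤ M := by
    intro i j
    filter_upwards [hae] with z hz
    exact (hM z.1 hz.1 z.2 hz.2 i j).2.1
  have b3 : ∀ i j, ∀ᵐ z ∂m, |partialD n j (fun y => φ z.1 y i) z.2| ≤ M := by
    intro i j
    filter_upwards [hae] with z hz
    exact (hM z.1 hz.1 z.2 hz.2 i j).2.2
  -- the approximating solutions
  have LH := fun k => h9 n ν α (v k) (p k) T hn (h.sol k)
  have hmax : ∀ z : ℝ × V, z ∈ Icc 0 T ×ˢ Q → max z.1 0 = z.1 := fun z hz => max_eq_left hz.1.1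
  have vcont : ∀ k, Continuous fun z : ℝ × V => v k (max z.1 0) z.2 := by
    intro k
    have h1 := (h.sol k).smooth_u.continuousOn
    have h3 : Continuous fun z : ℝ × V => (max z.1 0, z.2) := by fun_prop
    refine h1.comp_continuous h3 fun z => ⟨?_, mem_univ _⟩
    show (0 : ℝ) ≤ max z.1 0
    exact le_max_right _ _
  have UT : ∀ i k, MemLp (fun z : ℝ × V => v k (max z.1 0) z.2 i) 2
      (volume.restrict (Icc 0 T ×ˢ Q)) := by
    intro i k
    refine T8.memLp_of_cont hcT ?_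
    exact ((continuous_apply i).comp (vcont k)).continuousOn
  have HT : ∀ i j k, MemLp (fun z : ℝ × V => grd (v k) (max z.1 0) z.2 i j) 2
      (volume.restrict (Icc 0 T ×ˢ Q)) := fun i j k => (LH k).l2_G i j
  have cUT : ∀ i, Tendsto (fun k => ∫ z in Icc 0 T ×ˢ Q,
      (u z.1 z.2 i - v k (max z.1 0) z.2 i) ^ 2) atTop (𝓝 0) := by
    intro i
    refine (h.st i).congr fun k => ?_
    refine setIntegral_congr_fun hms' fun z hz => ?_
    simp only [hmax z hz]
  have cHT : ∀ i j, ∀ g : ℝ × V → ℝ, MemLp g 2 (volume.restrict (Icc 0 T ×ˢ Q)) →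
      Tendsto (fun k => ∫ z in Icc 0 T ×ˢ Q, grd (v k) (max z.1 0) z.2 i j * g z) atTop
        (𝓝 (∫ z in Icc 0 T ×ˢ Q, G z.1 z.2 i j * g z)) := by
    intro i j g hg
    refine (h.wg i j g hg).congr fun k => ?_
    refine setIntegral_congr_fun hms' fun z hz => ?_
    simp only [hmax z hz]
  have conv : ∀ {A : ℕ → ℝ × V → ℝ} {a : ℝ × V → ℝ},
      (∀ k, MemLp (A k) 2 (volume.restrict (Icc 0 T ×ˢ Q))) →
      MemLp a 2 (volume.restrict (Icc 0 T ×ˢ Q)) →
      Tendsto (fun k => ∫ z in Icc 0 T ×ˢ Q, (a z - A k z) ^ 2) atTop (𝓝 0) →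
      Tendsto (fun k => ∫ z, (a z - A k z) ^ 2 ∂m) atTop (𝓝 0) := by
    intro A a hA ha hc
    refine squeeze_zero (fun k => integral_nonneg fun z => sq_nonneg _) (fun k => ?_) hc
    refine integral_mono_measure mle (Eventually.of_forall fun z => sq_nonneg _) ?_
    exact (ha.sub (hA k)).integrable_sq
  have U2 : ∀ i k, MemLp (fun z : ℝ × V => v k (max z.1 0) z.2 i) 2 m :=
    fun i k => (UT i k).mono_measure mle
  have u2 : ∀ i, MemLp (fun z : ℝ × V => u z.1 z.2 i) 2 m := fun i => (h.l2_us i).mono_measure mle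
  have cU : ∀ i, Tendsto (fun k => ∫ z, (u z.1 z.2 i - v k (max z.1 0) z.2 i) ^ 2 ∂m) atTop (𝓝 0) :=
    fun i => conv (fun k => UT i k) (h.l2_us i) (cUT i)
  have t1 := Cv.sum (fun i => Cv.lin (U2 i) (u2 i) (cU i) (m1 i) hM0 (b1 i))
  have t2 := Cv.sum (fun i => Cv.sum (fun j => Cv.quad (U2 i) (U2 j) (u2 i) (u2 j) (cU i) (cU j)
    (m2 i j) hM0 (b2 i j)))
  have t3' : ∀ i j, Cv m (fun k z => grd (v k) (max z.1 0) z.2 i j *
      partialD 1 j (fun y => φ z.1 y i) z.2)
      (fun z => G z.1 z.2 i j * partialD 1 j (fun y => φ z.1 y i) z.2) := by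
    intro i j
    have m2' := m2 i j
    have b2' := b2 i j
    rw [hm] at m2' b2' ⊢
    exact Cv.weak hms hsub' hfin0 (fun k => HT i j k) (h.l2_G i j) (cHT i j) m2' b2'
  have t3 := (Cv.sum (fun i => Cv.sum (fun j => t3' i j))).const_mul ν
  have t4 := Cv.sum (fun i => Cv.sum (fun j => (Cv.lin (U2 i) (u2 i) (cU i)
    (m3 i j) hM0 (b3 i j)).const_mul (α j)))
  obtain ⟨c1, c2, c3⟩ := ((t1.add t2).sub t3).sub t4
  rw [hm] at c1 c2 c3
  have e1 := iter' ht.1 _ c2
  have e2 := fun k => iter' ht.1 _ (c1 k)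
  rw [← e1] at c3
  simp only [← e2] at c3
  -- the boundary terms
  have φc : ∀ s, 0 ≤ s → ∀ i, ContinuousOn (fun x => φ s x i) Q := by
    intro s hs i
    have h1 := ((h0 φ hφ.smooth).1 s hs).continuous
    exact ((continuous_apply i).comp h1).continuousOn
  have φ2 : ∀ s, 0 ≤ s → ∀ i, MemLp (fun x => φ s x i) 2 mQ := fun s hs i =>
    T8.memLp_of_cont T8.Q_compact (φc s hs i)
  have v2 : ∀ k s, 0 ≤ s → ∀ i, MemLp (fun x => v k s x i) 2 mQ := by
    intro k s hs i
    have h1 := ((h0 (v k) (h.sol k).smooth_u).1 s hs).continuous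
    exact T8.memLp_of_cont T8.Q_compact ((continuous_apply i).comp h1).continuousOn
  have mt : max t 0 = t := max_eq_left ht.1
  have B1 : Tendsto (fun k => ∫ x in Q, ∑ i, v k (max t 0) x i * φ t x i) atTop
      (𝓝 (∫ x in Q, ∑ i, u t x i * φ t x i)) := by
    rw [mt]
    have i1 : ∀ i, Integrable (fun x => u t x i * φ t x i) mQ :=
      fun i => (h.l2_u t ht i).integrable_mul (φ2 t ht.1 i)
    have i2 : ∀ k i, Integrable (fun x => v k t x i * φ t x i) mQ :=
      fun k i => (v2 k t ht.1 i).integrable_mul (φ2 t ht.1 i)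
    rw [integral_finsetSum _ fun i _ => i1 i]
    refine (tendsto_finsetSum _ fun i _ => h.wk t ht i _ (φ2 t ht.1 i)).congr fun k => ?_
    exact (integral_finsetSum _ fun i _ => i2 k i).symm
  have hfinQ : IsFiniteMeasure mQ := ⟨by
    rw [Measure.restrict_apply_univ]
    exact T8.Q_compact.measure_lt_top⟩
  have B2 : Tendsto (fun k => ∫ x in Q, ∑ i, v k 0 x i * φ 0 x i) atTop
      (𝓝 (∫ x in Q, ∑ i, f x i * φ 0 x i)) := by
    have h1 : ∀ i, Cv mQ (fun k x => v k 0 x i * φ 0 x i) (fun x => f x i * φ 0 x i) := by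
      intro i
      obtain ⟨K, hK⟩ := T8.Q_compact.exists_bound_of_continuousOn (φc 0 le_rfl i)
      refine Cv.lin (M := max K 0) (fun k => v2 k 0 le_rfl i) (h.data_l2 i) ?_
        (φ2 0 le_rfl i).aestronglyMeasurable (le_max_right _ _) ?_
      · refine squeeze_zero (fun k => integral_nonneg fun z => sq_nonneg _) (fun k => ?_) h.data
        refine integral_mono ((h.data_l2 i).sub (v2 k 0 le_rfl i)).integrable_sq
          (integrable_finsetSum _ fun j _ =>
            ((h.data_l2 j).sub (v2 k 0 le_rfl j)).integrable_sq) fun x => ?_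
        exact Finset.single_le_sum (f := fun j => (f x j - v k 0 x j) ^ 2)
          (fun j _ => sq_nonneg _) (Finset.mem_univ i)
      · refine (ae_restrict_iff' T8.Q_meas).2 (Eventually.of_forall fun x hx => ?_)
        exact (hK x hx).trans (le_max_left _ _)
    exact (Cv.sum h1).2.2
  have eqs : ∀ k, _ := fun k => (LH k).weak φ hφ t ht
  have lim := B1.sub B2
  refine tendsto_nhds_unique lim ?_
  refine c3.congr fun k => ?_
  exact (eqs k).symm

end Pool.Agent.H303.DEE
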