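import Pool.Agent.H303.DEE.Stm4
import Pool.Agent.H303.DEE.S9

/-!
Project DEE: the energy inequality for the limit (`D9`).
-/

set_option autoImplicit false

open MeasureTheory Set Filter Topology
open scoped ContDiff ENNReal

namespace Pool.Agent.H303.DEE

namespace D9L

lemma low {X : Type*} [MeasurableSpace X] {μ : Measure X} {a b : X → ℝ} (ha : MemLp a 2 μ)
    (hb : MemLp b 2 μ) :
    2 * (∫ x, a x * b x ∂μ) - (∫ x, b x ^ 2 ∂μ) ≤ ∫ x, a x ^ 2 ∂μ := by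
  have i1 : Integrable (fun x => a x * b x) μ := ha.integrable_mul hb
  have i2 : Integrable (fun x => a x ^ 2) μ := ha.integrable_sq
  have i3 : Integrable (fun x => b x ^ 2) μ := hb.integrable_sq
  rw [← integral_const_mul, ← integral_sub (i1.const_mul 2) i3]
  refine integral_mono ((i1.const_mul 2).sub i3) i2 fun x => ?_
  show 2 * (a x * b x) - b x ^ 2 ≤ a x ^ 2
  nlinarith [sq_nonneg (a x - b x)]

lemma data_lim {X : Type*} [MeasurableSpace X] {μ : Measure X} {f : X → Fin 3 → ℝ}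
    {w : ℕ → X → Fin 3 → ℝ} (hf : ∀ i, MemLp (fun x => f x i) 2 μ)
    (hw : ∀ k i, MemLp (fun x => w k x i) 2 μ)
    (h : Tendsto (fun k => ∫ x, ∑ i, (f x i - w k x i) ^ 2 ∂μ) atTop (𝓝 0)) :
    Tendsto (fun k => ∫ x, ∑ i, w k x i ^ 2 ∂μ) atTop (𝓝 (∫ x, ∑ i, f x i ^ 2 ∂μ)) := by
  rw [Metric.tendsto_atTop]
  intro ε hε
  obtain ⟨K, hK⟩ : ∃ K : ℝ, K = ∫ x, ∑ i, f x i ^ 2 ∂μ := ⟨_, rfl⟩
  have hK0 : 0 ≤ K := by
    rw [hK]
    exact integral_nonneg fun x => Finset.sum_nonneg fun i _ => sq_nonneg _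
  obtain ⟨δ, hδd⟩ : ∃ δ : ℝ, δ = ε / (2 * (K + 1)) := ⟨_, rfl⟩
  have hδ : 0 < δ := by rw [hδd]; positivity
  have hδK : δ * K ≤ ε / 2 := by
    rw [hδd, div_mul_eq_mul_div, div_le_div_iff₀ (by positivity) (by norm_num)]
    nlinarith
  have hc : 0 < 1 + 1 / δ := by positivity
  obtain ⟨N, hN⟩ := Metric.tendsto_atTop.1 h (ε / 2 / (1 + 1 / δ)) (by positivity)
  refine ⟨N, fun k hk => ?_⟩
  have h1 := hN k hk
  rw [Real.dist_eq, sub_zero, abs_of_nonneg (integral_nonneg fun x =>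
    Finset.sum_nonneg fun i _ => sq_nonneg _), lt_div_iff₀ hc] at h1
  have h2 := S9L.diff1 hf (hw k) δ hδ
  rw [← hK] at h2
  rw [Real.dist_eq, ← hK, abs_sub_comm]
  linarith

end D9L

open D9L in
theorem d9 (h0 : A0) (h4 : A4) : D9 := by
  intro n ν α T f v p u G hν hn hC t ht
  have hsub : Ioc 0 t ×ˢ Q ⊆ Icc 0 T ×ˢ Q :=
    prod_mono (Ioc_subset_Icc_self.trans (Icc_subset_Icc_right ht.2)) subset_rfl
  have hSm : MeasurableSet (Ioc 0 t ×ˢ Q) := measurableSet_Ioc.prod T8.Q_meas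
  have hmono : (volume.restrict (Ioc 0 t ×ˢ Q) : Measure (ℝ × V)) ≤
      volume.restrict (Icc 0 T ×ˢ Q) := Measure.restrict_mono hsub le_rfl
  have h00 : (0 : ℝ) ∈ Icc 0 T := ⟨le_rfl, ht.1.trans ht.2⟩
  have hGm : ∀ i j, MemLp (fun z : ℝ × V => G z.1 z.2 i j) 2 (volume.restrict (Ioc 0 t ×ˢ Q)) :=
    fun i j => (hC.l2_G i j).mono_measure hmono
  have hv : ∀ k, ∀ s ∈ Icc 0 T, ∀ i, MemLp (fun x => v k s x i) 2 mQ := fun k =>
    (S9L.sol_memLp h0 (hC.sol k) T).1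
  have hgT : ∀ k i j, MemLp (fun z : ℝ × V => grd (v k) z.1 z.2 i j) 2
      (volume.restrict (Icc 0 T ×ˢ Q)) := fun k => (S9L.sol_memLp h0 (hC.sol k) T).2
  have hg : ∀ k i j, MemLp (fun z : ℝ × V => grd (v k) z.1 z.2 i j) 2
      (volume.restrict (Ioc 0 t ×ˢ Q)) := fun k i j => (hgT k i j).mono_measure hmono
  have itG : (∫ s in (0 : ℝ)..t, ∫ x in Q, ∑ i, ∑ j, G s x i j ^ 2) =
      ∑ i, ∑ j, ∫ z in Ioc 0 t ×ˢ Q, G z.1 z.2 i j ^ 2 := by
    rw [S9L.iter ht (fun z : ℝ × V => ∑ i, ∑ j, G z.1 z.2 i j ^ 2)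
      (integrable_finsetSum _ fun i _ => integrable_finsetSum _ fun j _ =>
        (hC.l2_G i j).integrable_sq)]
    rw [integral_finsetSum _ fun i _ => integrable_finsetSum _ fun j _ => (hGm i j).integrable_sq]
    refine Finset.sum_congr rfl fun i _ => ?_
    rw [integral_finsetSum _ fun j _ => (hGm i j).integrable_sq]
  have itv : ∀ k, (∫ s in (0 : ℝ)..t, ∫ x in Q, ∑ i, ∑ j, grd (v k) s x i j ^ 2) =
      ∑ i, ∑ j, ∫ z in Ioc 0 t ×ˢ Q, grd (v k) z.1 z.2 i j ^ 2 := by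
    intro k
    rw [S9L.iter ht (fun z : ℝ × V => ∑ i, ∑ j, grd (v k) z.1 z.2 i j ^ 2)
      (integrable_finsetSum _ fun i _ => integrable_finsetSum _ fun j _ =>
        (hgT k i j).integrable_sq)]
    rw [integral_finsetSum _ fun i _ => integrable_finsetSum _ fun j _ => (hg k i j).integrable_sq]
    refine Finset.sum_congr rfl fun i _ => ?_
    rw [integral_finsetSum _ fun j _ => (hg k i j).integrable_sq]
  have isu : (∫ x in Q, ∑ i, u t x i ^ 2) = ∑ i, ∫ x in Q, u t x i ^ 2 :=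
    integral_finsetSum _ fun i _ => (hC.l2_u t ht i).integrable_sq
  have isv : ∀ k, (∫ x in Q, ∑ i, v k t x i ^ 2) = ∑ i, ∫ x in Q, v k t x i ^ 2 := fun k =>
    integral_finsetSum _ fun i _ => (hv k t ht i).integrable_sq
  -- the inequality for the approximations
  have hk : ∀ k, (1 / 2) * (∑ i, (2 * (∫ x in Q, v k t x i * u t x i) - ∫ x in Q, u t x i ^ 2)) +
      ν * (∑ i, ∑ j, (2 * (∫ z in Ioc 0 t ×ˢ Q, grd (v k) z.1 z.2 i j * G z.1 z.2 i j) -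
        ∫ z in Ioc 0 t ×ˢ Q, G z.1 z.2 i j ^ 2)) ≤ (1 / 2) * ∫ x in Q, ∑ i, v k 0 x i ^ 2 := by
    intro k
    have hE := h4 n ν α (v k) (p k) hn (hC.sol k) t ht.1
    unfold EnergyEq at hE
    rw [itv k, isv k] at hE
    rw [← hE]
    refine add_le_add (mul_le_mul_of_nonneg_left ?_ (by norm_num))
      (mul_le_mul_of_nonneg_left ?_ hν.le)
    · exact Finset.sum_le_sum fun i _ => low (hv k t ht i) (hC.l2_u t ht i)
    · exact Finset.sum_le_sum fun i _ => Finset.sum_le_sum fun j _ => low (hg k i j) (hGm i j)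
  -- the limits
  have l1 : ∀ i, Tendsto (fun k => ∫ x in Q, v k t x i * u t x i) atTop
      (𝓝 (∫ x in Q, u t x i ^ 2)) := by
    intro i
    have h := hC.wk t ht i (fun x => u t x i) (hC.l2_u t ht i)
    simp only [← sq] at h
    exact h
  have hind : ∀ (a b : ℝ × V → ℝ), ∫ z in Icc 0 T ×ˢ Q, a z * (Ioc 0 t ×ˢ Q).indicator b z =
      ∫ z in Ioc 0 t ×ˢ Q, a z * b z := by
    intro a b
    have h1 : (fun z => a z * (Ioc 0 t ×ˢ Q).indicator b z) =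
        (Ioc 0 t ×ˢ Q).indicator fun z => a z * b z := by
      funext z
      by_cases hz : z ∈ Ioc 0 t ×ˢ Q
      · rw [indicator_of_mem hz, indicator_of_mem hz]
      · rw [indicator_of_notMem hz, indicator_of_notMem hz, mul_zero]
    rw [h1, setIntegral_indicator hSm, inter_eq_right.2 hsub]
  have l2 : ∀ i j, Tendsto (fun k => ∫ z in Ioc 0 t ×ˢ Q, grd (v k) z.1 z.2 i j * G z.1 z.2 i j)
      atTop (𝓝 (∫ z in Ioc 0 t ×ˢ Q, G z.1 z.2 i j ^ 2)) := by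
    intro i j
    have h := hC.wg i j ((Ioc 0 t ×ˢ Q).indicator fun z => G z.1 z.2 i j)
      ((hC.l2_G i j).indicator hSm)
    have h1 : (∫ z in Icc 0 T ×ˢ Q, G z.1 z.2 i j *
        (Ioc 0 t ×ˢ Q).indicator (fun z => G z.1 z.2 i j) z) =
        ∫ z in Ioc 0 t ×ˢ Q, G z.1 z.2 i j ^ 2 := by
      rw [hind (fun z => G z.1 z.2 i j) fun z => G z.1 z.2 i j]
      simp only [← sq]
    rw [h1] at h
    refine h.congr fun k => ?_
    exact hind (fun z => grd (v k) z.1 z.2 i j) fun z => G z.1 z.2 i j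
  have l3 : Tendsto (fun k => (1 / 2) *
      (∑ i, (2 * (∫ x in Q, v k t x i * u t x i) - ∫ x in Q, u t x i ^ 2)) +
      ν * (∑ i, ∑ j, (2 * (∫ z in Ioc 0 t ×ˢ Q, grd (v k) z.1 z.2 i j * G z.1 z.2 i j) -
        ∫ z in Ioc 0 t ×ˢ Q, G z.1 z.2 i j ^ 2))) atTop
      (𝓝 ((1 / 2) * (∑ i, (2 * (∫ x in Q, u t x i ^ 2) - ∫ x in Q, u t x i ^ 2)) +
      ν * (∑ i, ∑ j, (2 * (∫ z in Ioc 0 t ×ˢ Q, G z.1 z.2 i j ^ 2) -
        ∫ z in Ioc 0 t ×ˢ Q, G z.1 z.2 i j ^ 2)))) := by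
    refine ((tendsto_finsetSum _ fun i _ => ((l1 i).const_mul 2).sub_const _).const_mul _).add
      ((tendsto_finsetSum _ fun i _ => tendsto_finsetSum _ fun j _ =>
        ((l2 i j).const_mul 2).sub_const _).const_mul _)
  have l4 : Tendsto (fun k => (1 / 2) * ∫ x in Q, ∑ i, v k 0 x i ^ 2) atTop
      (𝓝 ((1 / 2) * ∫ x in Q, ∑ i, f x i ^ 2)) :=
    (data_lim hC.data_l2 (fun k => hv k 0 h00) hC.data).const_mul _
  have h := le_of_tendsto_of_tendsto' l3 l4 hk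
  rw [itG, isu]
  have e : ∀ x : ℝ, 2 * x - x = x := fun x => by ring
  simp only [e] at h
  exact h

end Pool.Agent.H303.DEE
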