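import Mathlib

/-!
Definitions for `MP_a38b17_an.DispersiveEnergy`: the three-dimensional periodic Navier-Stokes
equations with the additional skew-adjoint term `∑_j α_j ∂_j^n u`, `n` odd.
-/

open MeasureTheory Set Filter Topology
open scoped ContDiff

namespace Pool.Agent.H303.DEE

/-- The space `ℝ³`. -/
abbrev V := Fin 3 → ℝ

/-- The period cell `[0, 1]³`. -/
def Q : Set V := Icc 0 1

/-- `f` is `1`-periodic in each of the three coordinates. -/
def Periodic {F : Type*} (f : V → F) : Prop :=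
  ∀ (j : Fin 3) (x : V), f (x + Pi.single j 1) = f x

/-- The partial derivative `∂_j^n f` of order `n` in the coordinate `j`. -/
noncomputable def partialD (n : ℕ) (j : Fin 3) (f : V → ℝ) (x : V) : ℝ :=
  iteratedFDeriv ℝ n f x fun _ => Pi.single j 1

/-- `(u, p)` is a smooth `1`-periodic solution, for the times in `I`, of
`∂ₜ uᵢ + ∑_j u_j ∂_j uᵢ = ν ∑_j ∂_j² uᵢ + ∑_j α_j ∂_j^n uᵢ - ∂ᵢ p`, `div u = 0`: `u` and `p` are
`C^∞` on `I × ℝ³` and `1`-periodic in each coordinate of `x`. For `α = 0` these are the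
Navier-Stokes equations. -/
structure IsSol (n : ℕ) (ν : ℝ) (α : Fin 3 → ℝ) (I : Set ℝ) (u : ℝ → V → V) (p : ℝ → V → ℝ) :
    Prop where
  smooth_u : ContDiffOn ℝ ∞ (fun z : ℝ × V => u z.1 z.2) (I ×ˢ univ)
  smooth_p : ContDiffOn ℝ ∞ (fun z : ℝ × V => p z.1 z.2) (I ×ˢ univ)
  per_u : ∀ t ∈ I, Periodic (u t)
  per_p : ∀ t ∈ I, Periodic (p t)
  divfree : ∀ t ∈ I, ∀ x, ∑ j, partialD 1 j (fun y => u t y j) x = 0
  momentum : ∀ t ∈ I, 0 < t → ∀ x i,
    deriv (fun s => u s x i) t + ∑ j, u t x j * partialD 1 j (fun y => u t y i) x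
      = ν * ∑ j, partialD 2 j (fun y => u t y i) x + ∑ j, α j * partialD n j (fun y => u t y i) x
        - partialD 1 i (p t) x

/-- Smooth periodic fields with divergence zero. -/
structure Smooth (v : V → V) : Prop where
  smooth : ContDiff ℝ ∞ v
  per : Periodic v
  divfree : ∀ x, ∑ j, partialD 1 j (fun y => v y j) x = 0

/-- Test fields: `C^∞` on `[0, ∞) × ℝ³`, periodic in `x` and with divergence zero. -/
structure Test (φ : ℝ → V → V) : Prop where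
  smooth : ContDiffOn ℝ ∞ (fun z : ℝ × V => φ z.1 z.2) (Ici 0 ×ˢ univ)
  per : ∀ t, 0 ≤ t → Periodic (φ t)
  divfree : ∀ t, 0 ≤ t → ∀ x, ∑ j, partialD 1 j (fun y => φ t y j) x = 0

/-- `u` is a Leray-Hopf solution on `[0, T]` with the initial value `u₀` of
`∂ₜ uᵢ + ∑_j u_j ∂_j uᵢ = ν ∑_j ∂_j² uᵢ + ∑_j α_j ∂_j^n uᵢ - ∂ᵢ p`, `div u = 0` (`n` odd), periodic
in `x` with the period cell `Q` (only the values in `Q` matter): `u(t) ∈ L²(Q)` for all
`t ∈ [0, T]`, the gradient `G i j = ∂_j u_i` is in `L²((0, T) × Q)`, the divergence is zero, the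
equation holds in the sense of distributions against test fields with divergence zero, between the
times `0` and `t`, for all `t ∈ [0, T]` (in particular `u` is weakly continuous in time), and for
all `t ∈ [0, T]` the energy inequality holds. -/
structure IsLerayHopf (n : ℕ) (ν : ℝ) (α : Fin 3 → ℝ) (T : ℝ) (u₀ : V → V) (u : ℝ → V → V)
    (G : ℝ → V → Fin 3 → Fin 3 → ℝ) : Prop where
  meas_u : Measurable fun z : ℝ × V => u z.1 z.2
  meas_G : Measurable fun z : ℝ × V => G z.1 z.2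
  l2_u : ∀ t ∈ Icc 0 T, ∀ i, MemLp (fun x => u t x i) 2 (volume.restrict Q)
  l2_G : ∀ i j, MemLp (fun z : ℝ × V => G z.1 z.2 i j) 2 (volume.restrict (Icc 0 T ×ˢ Q))
  divfree : ∀ t ∈ Icc 0 T, ∀ ψ : V → ℝ, ContDiff ℝ ∞ ψ → Periodic ψ →
    ∫ x in Q, ∑ j, u t x j * partialD 1 j ψ x = 0
  grad : ∀ᵐ t ∂(volume.restrict (Icc 0 T)), ∀ ψ : V → ℝ, ContDiff ℝ ∞ ψ → Periodic ψ → ∀ i j,
    ∫ x in Q, u t x i * partialD 1 j ψ x = -∫ x in Q, G t x i j * ψ x
  weak : ∀ φ, Test φ → ∀ t ∈ Icc 0 T,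
    (∫ x in Q, ∑ i, u t x i * φ t x i) - (∫ x in Q, ∑ i, u₀ x i * φ 0 x i)
      = ∫ s in (0 : ℝ)..t, ∫ x in Q, ((∑ i, u s x i * deriv (fun r => φ r x i) s)
          + (∑ i, ∑ j, u s x i * u s x j * partialD 1 j (fun y => φ s y i) x)
          - ν * (∑ i, ∑ j, G s x i j * partialD 1 j (fun y => φ s y i) x)
          - ∑ i, ∑ j, α j * (u s x i * partialD n j (fun y => φ s y i) x))
  energy : ∀ t ∈ Icc 0 T,
    (1 / 2) * (∫ x in Q, ∑ i, u t x i ^ 2) + ν * (∫ s in (0 : ℝ)..t, ∫ x in Q, ∑ i, ∑ j, G s x i j ^ 2)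
      ≤ (1 / 2) * ∫ x in Q, ∑ i, u₀ x i ^ 2

/-- The energy equality at the time `t`. -/
def EnergyEq (ν : ℝ) (u₀ : V → V) (u : ℝ → V → V) (G : ℝ → V → Fin 3 → Fin 3 → ℝ) (t : ℝ) : Prop :=
  (1 / 2) * (∫ x in Q, ∑ i, u t x i ^ 2) + ν * (∫ s in (0 : ℝ)..t, ∫ x in Q, ∑ i, ∑ j, G s x i j ^ 2)
    = (1 / 2) * ∫ x in Q, ∑ i, u₀ x i ^ 2

end Pool.Agent.H303.DEE
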