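import Pool.Agent.H303.DEE.Stm5
import Pool.Agent.H226.DE.Cnt

/-!
There are few near resonant triads for the dispersion `∑ j, α j ∂_j ^ n`, `n ≥ 5` odd.
-/

namespace Pool.Agent.H303.DEE.F

theorem few_gg {n : ℕ} (hn : Odd n) (h5 : 5 ≤ n) {α : Fin 3 → ℝ} (hα : ∀ j, α j ≠ 0) :
    ∃ C : ℝ, 1 ≤ C ∧ Few (fun L m => |gg n α L - gg n α m - gg n α (L - m)| ≤ 8 * kn L ^ 3) C := by
  have h2 : (2 * Real.pi) ^ n ≠ 0 := pow_ne_zero _ (by positivity)
  have h1 : ((-1 : ℝ)) ^ ((n - 1) / 2) ≠ 0 := pow_ne_zero _ (by norm_num)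
  obtain ⟨C, hC, h⟩ := Pool.Agent.H226.DE.few_diag hn h5
    (β := fun j => (-1) ^ ((n - 1) / 2) * α j * (2 * Real.pi) ^ n)
    (fun j => mul_ne_zero (mul_ne_zero h1 (hα j)) h2) (g := gg n α) (fun L m => by
      unfold Pool.Agent.H226.DE.dl gg
      rw [Finset.mul_sum, Finset.mul_sum, Finset.mul_sum, ← Finset.sum_sub_distrib,
        ← Finset.sum_sub_distrib]
      refine Finset.sum_congr rfl fun j _ => ?_
      simp only [mul_pow, Pi.sub_apply]
      push_cast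
      ring) (Λ := 8) (by norm_num)
  exact ⟨C, hC, h⟩

end Pool.Agent.H303.DEE.F
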