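import Pool.Agent.H303.DEE.Stm5

/-!
# DEF-H1 (helper383): the flux identity
-/

set_option autoImplicit false

open MeasureTheory Set Filter Topology Complex

namespace Pool.Agent.H303.DEE.F

namespace FH1

lemma nm_nonneg (v : C3) : 0 ≤ nm v := Real.sqrt_nonneg _

lemma le_nm (v : C3) (i : Fin 3) : ‖v i‖ ≤ nm v := by
  unfold nm
  apply Real.le_sqrt_of_sq_le
  exact Finset.single_le_sum (f := fun i => ‖v i‖ ^ 2) (fun _ _ => sq_nonneg _) (Finset.mem_univ i)

lemma dt_le (k : K) (v : C3) : ‖dt k v‖ ≤ (∑ j, |(k j : ℝ)|) * nm v := by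
  unfold dt
  rw [Finset.sum_mul]
  refine (norm_sum_le _ _).trans (Finset.sum_le_sum fun j _ => ?_)
  rw [norm_mul, Complex.norm_intCast]
  exact mul_le_mul_of_nonneg_left (le_nm v j) (abs_nonneg _)

lemma summ_pair {U : K → C3} (hU : Summable fun k => nm (U k) ^ 2) (k : K) :
    Summable fun p => nm (U p) * nm (U (k - p)) := by
  have h2 : Summable fun p => nm (U (k - p)) ^ 2 := (Equiv.subLeft k).summable_iff.2 hU
  refine Summable.of_nonneg_of_le (fun p => mul_nonneg (nm_nonneg _) (nm_nonneg _)) (fun p => ?_)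
    (hU.add h2)
  have h3 := sq_nonneg (nm (U p) - nm (U (k - p)))
  have h4 := sq_nonneg (nm (U p))
  have h5 := sq_nonneg (nm (U (k - p)))
  nlinarith

lemma summ_one {U : K → C3} (hU : Summable fun k => nm (U k) ^ 2) (k : K) (i : Fin 3) :
    Summable fun p => dt k (U p) * U (k - p) i := by
  refine Summable.of_norm_bounded ((summ_pair hU k).mul_left (∑ j, |(k j : ℝ)|)) fun p => ?_
  rw [norm_mul, ← mul_assoc]
  exact mul_le_mul (dt_le k _) (le_nm _ i) (norm_nonneg _)
    (mul_nonneg (Finset.sum_nonneg fun _ _ => abs_nonneg _) (nm_nonneg _))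

lemma X_eq (U : K → C3) (k p : K) :
    X U (k, p) = ∑ i, dt k (U p) * U (k - p) i * (starRingEnd ℂ) (U k i) := by
  unfold X Xt
  rw [Finset.mul_sum]
  exact Finset.sum_congr rfl fun i _ => (mul_assoc _ _ _).symm

lemma hasSum_X {U : K → C3} (hU : Summable fun k => nm (U k) ^ 2) (k : K) :
    HasSum (fun p => X U (k, p))
      (∑ i, (∑' p, dt k (U p) * U (k - p) i) * (starRingEnd ℂ) (U k i)) := by
  have h1 : HasSum (fun p => ∑ i, dt k (U p) * U (k - p) i * (starRingEnd ℂ) (U k i))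
      (∑ i, (∑' p, dt k (U p) * U (k - p) i) * (starRingEnd ℂ) (U k i)) :=
    hasSum_sum fun i _ => (summ_one hU k i).hasSum.mul_right _
  have e : (fun p => X U (k, p)) =
      fun p => ∑ i, dt k (U p) * U (k - p) i * (starRingEnd ℂ) (U k i) :=
    funext fun p => X_eq U k p
  rw [e]
  exact h1

lemma Nl_eq {U : K → C3} (hU : Summable fun k => nm (U k) ^ 2) (hdiv : ∀ k, dt k (U k) = 0) (k : K) :
    ∑ i, Nl U k i * (starRingEnd ℂ) (U k i) = 2 * Real.pi * I * ∑' p, X U (k, p) := by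
  have h0 : ∑ i, (k i : ℂ) * (starRingEnd ℂ) (U k i) = 0 := by
    have h1 : (starRingEnd ℂ) (dt k (U k)) = 0 := by rw [hdiv, map_zero]
    unfold dt at h1
    rw [map_sum] at h1
    rw [← h1]
    refine Finset.sum_congr rfl fun i _ => ?_
    rw [map_mul, map_intCast]
  rw [(hasSum_X hU k).tsum_eq]
  unfold Nl Pr
  have h2 : ∀ i, (Bn U k i - (k i : ℂ) * dt k (Bn U k) / (∑ j, (k j : ℂ) ^ 2)) *
      (starRingEnd ℂ) (U k i) = Bn U k i * (starRingEnd ℂ) (U k i) -
        dt k (Bn U k) / (∑ j, (k j : ℂ) ^ 2) * ((k i : ℂ) * (starRingEnd ℂ) (U k i)) := by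
    intro i
    ring
  rw [Finset.sum_congr rfl fun i _ => h2 i, Finset.sum_sub_distrib, ← Finset.mul_sum, h0, mul_zero,
    sub_zero, Finset.mul_sum]
  refine Finset.sum_congr rfl fun i _ => ?_
  unfold Bn
  ring

lemma wt_neg (M : ℝ) (k : K) : wt M (-k) = wt M k := by
  unfold wt kn
  simp only [Pi.neg_apply, Int.cast_neg, neg_sq]

/-- the involution -/
def inv : K × K ≃ K × K where
  toFun z := (z.2 - z.1, z.2)
  invFun z := (z.2 - z.1, z.2)
  left_inv z := by
    ext1
    · exact sub_sub_cancel _ _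
    · rfl
  right_inv z := by
    ext1
    · exact sub_sub_cancel _ _
    · rfl

lemma X_inv {U : K → C3} (hreal : ∀ k i, U (-k) i = (starRingEnd ℂ) (U k i))
    (hdiv : ∀ k, dt k (U k) = 0) (z : K × K) : X U (inv z) = -X U z := by
  obtain ⟨k, p⟩ := z
  have e1 : p - k = -(k - p) := by abel
  have e2 : p - k - p = -k := by abel
  have h1 : dt (-(k - p)) (U p) = -dt k (U p) := by
    have h2 := hdiv p
    unfold dt at h2 ⊢
    rw [← Finset.sum_neg_distrib]
    have h3 : ∑ j, ((-(k - p)) j : ℂ) * U p j = ∑ j, (-((k j : ℂ) * U p j) + (p j : ℂ) * U p j) := by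
      refine Finset.sum_congr rfl fun j _ => ?_
      rw [Pi.neg_apply, Pi.sub_apply]
      push_cast
      ring
    rw [h3, Finset.sum_add_distrib, h2, add_zero]
  change Xt (p - k) (U p) (U (p - k - p)) (U (p - k)) = -Xt k (U p) (U (k - p)) (U k)
  unfold Xt
  rw [e2, e1, h1, neg_mul]
  congr 2
  refine Finset.sum_congr rfl fun i _ => ?_
  rw [hreal, hreal, Complex.conj_conj, mul_comm]

end FH1

open FH1 in
/-- the flux identity -/
theorem h1 : H1 := by
  intro M U S _ hS hreal hdiv hsum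
  classical
  have hT : ∀ k, HasSum (fun p => X U (k, p)) (∑' p, X U (k, p)) := fun k =>
    (hasSum_X hsum k).summable.hasSum
  -- the first weight
  have hk : ∀ k, HasSum (fun z : K × K => if z.1 = k then ((wt M k : ℝ) : ℂ) * X U (k, z.2) else 0)
      (((wt M k : ℝ) : ℂ) * ∑' p, X U (k, p)) := by
    intro k
    have hi : Function.Injective (fun p : K => ((k, p) : K × K)) := fun p q h => (Prod.mk.inj h).2
    refine (hi.hasSum_iff ?_).1 ?_
    · intro z hz
      refine if_neg fun h => hz ⟨z.2, ?_⟩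
      exact Prod.ext h.symm rfl
    · have e : ((fun z : K × K => if z.1 = k then ((wt M k : ℝ) : ℂ) * X U (k, z.2) else 0) ∘
          fun p : K => ((k, p) : K × K)) = fun p => ((wt M k : ℝ) : ℂ) * X U (k, p) := by
        funext p
        exact if_pos rfl
      rw [e]
      exact (hT k).mul_left _
  have ha : HasSum (fun z : K × K => ((wt M z.1 : ℝ) : ℂ) * X U z)
      (∑ k ∈ S, ((wt M k : ℝ) : ℂ) * ∑' p, X U (k, p)) := by
    have h2 := hasSum_sum (s := S) fun k _ => hk k
    have e : (fun z : K × K => ((wt M z.1 : ℝ) : ℂ) * X U z) =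
        fun z : K × K => ∑ k ∈ S, if z.1 = k then ((wt M k : ℝ) : ℂ) * X U (k, z.2) else 0 := by
      funext z
      rw [Finset.sum_ite_eq]
      split_ifs with h
      · rfl
      · rw [hS z.1 h]
        simp
    rw [e]
    exact h2
  -- the second weight, by the involution
  have hb : HasSum (fun z : K × K => ((wt M (z.1 - z.2) : ℝ) : ℂ) * X U z)
      (-(∑ k ∈ S, ((wt M k : ℝ) : ℂ) * ∑' p, X U (k, p))) := by
    have h2 := (inv.hasSum_iff.2 ha).neg
    have e : (fun z : K × K => ((wt M (z.1 - z.2) : ℝ) : ℂ) * X U z) =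
        fun z : K × K => -(((fun z : K × K => ((wt M z.1 : ℝ) : ℂ) * X U z) ∘ inv) z) := by
      funext z
      change _ = -(((wt M (z.2 - z.1) : ℝ) : ℂ) * X U (inv z))
      rw [X_inv hreal hdiv z, ← wt_neg M (z.2 - z.1), neg_sub]
      ring
    rw [e]
    exact h2
  have hab : HasSum (fun z : K × K => ((wt M z.1 - wt M (z.1 - z.2) : ℝ) : ℂ) * X U z)
      ((∑ k ∈ S, ((wt M k : ℝ) : ℂ) * ∑' p, X U (k, p)) -
        -(∑ k ∈ S, ((wt M k : ℝ) : ℂ) * ∑' p, X U (k, p))) := by
    have h2 := ha.sub hb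
    have e : (fun z : K × K => ((wt M z.1 - wt M (z.1 - z.2) : ℝ) : ℂ) * X U z) =
        fun z : K × K => ((wt M z.1 : ℝ) : ℂ) * X U z - ((wt M (z.1 - z.2) : ℝ) : ℂ) * X U z := by
      funext z
      push_cast
      ring
    rw [e]
    exact h2
  refine ⟨hab.summable, ?_⟩
  unfold flux
  rw [hab.tsum_eq]
  have h3 : ∀ k ∈ S, wt M k * (∑ i, Nl U k i * (starRingEnd ℂ) (U k i)).re =
      (((wt M k : ℝ) : ℂ) * (2 * Real.pi * I * ∑' p, X U (k, p))).re := by
    intro k _
    rw [Complex.re_ofReal_mul, Nl_eq hsum hdiv k]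
  rw [Finset.sum_congr rfl h3, ← Complex.re_sum]
  congr 1
  have h4 : ∀ k ∈ S, ((wt M k : ℝ) : ℂ) * (2 * Real.pi * I * ∑' p, X U (k, p)) =
      2 * Real.pi * I * (((wt M k : ℝ) : ℂ) * ∑' p, X U (k, p)) := by
    intro k _
    ring
  rw [Finset.sum_congr rfl h4, ← Finset.mul_sum]
  ring

end Pool.Agent.H303.DEE.F
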