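import Pool.Agent.H303.DEE.Stm5

set_option autoImplicit false

open MeasureTheory Set Filter Topology Complex
open scoped ContDiff ENNReal

namespace Pool.Agent.H303.DEE.F

namespace H10aux

theorem wt_nonneg (M : ℝ) (k : K) : 0 ≤ wt M k := le_max_left _ _

theorem wt_le_one (M : ℝ) (k : K) : wt M k ≤ 1 := max_le zero_le_one (min_le_left _ _)

theorem abs_le_kn (k : K) (j : Fin 3) : |(k j : ℝ)| ≤ kn k := by
  unfold kn
  rw [← Real.sqrt_sq_eq_abs]
  apply Real.sqrt_le_sqrt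
  exact Finset.single_le_sum (f := fun j => (k j : ℝ) ^ 2) (fun i _ => sq_nonneg _)
    (Finset.mem_univ j)

theorem wt_eq_one {M : ℝ} {k : K} (hM : 0 < M) (h : kn k ≤ M) : wt M k = 1 := by
  unfold wt
  have h1 : kn k / M ≤ 1 := by rw [div_le_one hM]; exact h
  rw [min_eq_left (by linarith)]
  exact max_eq_right zero_le_one

/-- a cube -/
noncomputable def box (m : ℕ) : Finset K :=
  Fintype.piFinset fun _ => Finset.Icc (-(2 * (m : ℤ) + 2)) (2 * (m : ℤ) + 2)

theorem wt_box (m : ℕ) (k : K) (h : k ∉ box m) : wt ((m : ℝ) + 1) k = 0 := by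
  have h1 : ∃ j, ¬ (-(2 * (m : ℤ) + 2) ≤ k j ∧ k j ≤ 2 * (m : ℤ) + 2) := by
    by_contra hc
    push Not at hc
    apply h
    unfold box
    rw [Fintype.mem_piFinset]
    intro j
    rw [Finset.mem_Icc]
    exact hc j
  obtain ⟨j, hj⟩ := h1
  have h2 : 2 * (m : ℝ) + 2 ≤ |(k j : ℝ)| := by
    have h3 : 2 * (m : ℤ) + 2 ≤ |k j| := by
      by_contra hc
      push Not at hc
      apply hj
      have := abs_lt.1 hc
      constructor <;> linarith [this.1, this.2]
    have h4 : ((2 * (m : ℤ) + 2 : ℤ) : ℝ) ≤ ((|k j| : ℤ) : ℝ) := by exact_mod_cast h3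
    push_cast at h4
    exact h4
  have h5 : 2 * ((m : ℝ) + 1) ≤ kn k := by linarith [abs_le_kn k j]
  have hM : (0 : ℝ) < (m : ℝ) + 1 := by positivity
  unfold wt
  have h6 : 2 ≤ kn k / ((m : ℝ) + 1) := by rw [le_div_iff₀ hM]; exact h5
  apply max_eq_left
  exact (min_le_right _ _).trans (by linarith)

theorem wt_tendsto (k : K) : Tendsto (fun m : ℕ => wt ((m : ℝ) + 1) k) atTop (𝓝 1) := by
  apply tendsto_const_nhds.congr'
  obtain ⟨N, hN⟩ := exists_nat_ge (kn k)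
  filter_upwards [eventually_ge_atTop N] with m hm
  have h1 : (N : ℝ) ≤ m := by exact_mod_cast hm
  exact (wt_eq_one (by positivity) (by linarith)).symm

theorem sum_tendsto {c : K → ℝ} (h0 : ∀ k, 0 ≤ c k) (hc : Summable c) :
    Tendsto (fun m : ℕ => ∑ k ∈ box m, wt ((m : ℝ) + 1) k * c k) atTop (𝓝 (∑' k, c k)) := by
  have h1 : ∀ m : ℕ, ∑ k ∈ box m, wt ((m : ℝ) + 1) k * c k =
      ∑' k, wt ((m : ℝ) + 1) k * c k := by
    intro m
    rw [tsum_eq_sum]
    intro k hk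
    rw [wt_box m k hk, zero_mul]
  simp_rw [h1]
  apply tendsto_tsum_of_dominated_convergence hc
  · intro k
    simpa using (wt_tendsto k).mul_const (c k)
  · refine Eventually.of_forall fun m k => ?_
    rw [Real.norm_eq_abs, abs_of_nonneg (mul_nonneg (wt_nonneg _ _) (h0 k))]
    exact mul_le_of_le_one_left (h0 k) (wt_le_one _ _)

theorem nm_sq (v : C3) : nm v ^ 2 = ∑ i, ‖v i‖ ^ 2 := by
  unfold nm
  exact Real.sq_sqrt (Finset.sum_nonneg fun i _ => sq_nonneg _)

theorem dcont {g : K → ℝ} {ν T : ℝ} {a : ℝ → K → C3} (A : FSol g ν T a) (k : K) :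
    ContinuousOn (fun s => kn k ^ 2 * nm (a s k) ^ 2) (Icc 0 T) := by
  simp_rw [nm_sq]
  apply ContinuousOn.mul continuousOn_const
  apply continuousOn_finsetSum
  intro i _
  exact ((A.cont k i).norm).pow 2

end H10aux

open H10aux

theorem h10 (h1 : H1) (h2 : H2) (h9 : H9) : H10 := by
  intro g ν T C a hν hg hC hF A t ht
  have hT : (0 : ℝ) ≤ T := ht.1.trans ht.2
  have h0T : (0 : ℝ) ∈ Icc (0 : ℝ) T := ⟨le_rfl, hT⟩
  obtain ⟨E, hE⟩ := A.bdd
  -- the energy balance with weights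
  have hbal : ∀ m : ℕ, (1 / 2) * (∑ k ∈ box m, wt ((m : ℝ) + 1) k * nm (a t k) ^ 2)
        + 4 * Real.pi ^ 2 * ν * (∑ k ∈ box m, wt ((m : ℝ) + 1) k *
          ∫ s in (0 : ℝ)..t, kn k ^ 2 * nm (a s k) ^ 2)
      = (1 / 2) * (∑ k ∈ box m, wt ((m : ℝ) + 1) k * nm (a 0 k) ^ 2)
        - ∫ s in (0 : ℝ)..t, flux ((m : ℝ) + 1) (a s) := by
    intro m
    rw [h2 g ν T a A (wt ((m : ℝ) + 1)) (box m) t ht]
    congr 1
    apply intervalIntegral.integral_congr
    intro s hs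
    rw [uIcc_of_le ht.1] at hs
    have hs' : s ∈ Icc (0 : ℝ) T := ⟨hs.1, hs.2.trans ht.2⟩
    have hM : (1 : ℝ) ≤ (m : ℝ) + 1 := by
      have : (0 : ℝ) ≤ m := by positivity
      linarith
    exact (h1 ((m : ℝ) + 1) (a s) (box m) hM (wt_box m) (A.real s hs') (A.div s hs')
      (hE s hs').1).2
  -- the limits
  have hd0 : ∀ k, 0 ≤ ∫ s in (0 : ℝ)..t, kn k ^ 2 * nm (a s k) ^ 2 := fun k =>
    intervalIntegral.integral_nonneg ht.1 fun s _ => by positivity
  have hds : Summable fun k => ∫ s in (0 : ℝ)..t, kn k ^ 2 * nm (a s k) ^ 2 := by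
    refine Summable.of_nonneg_of_le hd0 (fun k => ?_) A.diss
    apply intervalIntegral.integral_mono_interval le_rfl ht.1 ht.2
    · refine Eventually.of_forall fun s => ?_
      show (0 : ℝ) ≤ kn k ^ 2 * nm (a s k) ^ 2
      positivity
    · exact (dcont A k).intervalIntegrable_of_Icc hT
  have l1 := sum_tendsto (fun k => sq_nonneg (nm (a t k))) (hE t ht).1
  have l2 := sum_tendsto hd0 hds
  have l3 := sum_tendsto (fun k => sq_nonneg (nm (a 0 k))) (hE 0 h0T).1
  have l4 := h9 g ν T C a hν hg hC hF A t ht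
  have L := (l1.const_mul (1 / 2)).add (l2.const_mul (4 * Real.pi ^ 2 * ν))
  have R := (l3.const_mul (1 / 2)).sub l4
  have hEq := tendsto_nhds_unique L (R.congr fun m => (hbal m).symm)
  rw [hEq, sub_zero]

end Pool.Agent.H303.DEE.F
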