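import Pool.Agent.H303.DEE.Stm5

/-!
Project DEE, subtask DEF-H2: the weighted energy balance.
-/

open MeasureTheory Set Filter Topology Complex

namespace Pool.Agent.H303.DEE.F

namespace XH2

/-- the product rule for the square of a real primitive -/
lemma sq_real {f φ : ℝ → ℝ} {t : ℝ} (ht : 0 ≤ t) (hφ : IntervalIntegrable φ volume 0 t)
    (hf : ∀ s ∈ Icc 0 t, f s = f 0 + ∫ u in (0 : ℝ)..s, φ u) :
    f t ^ 2 - f 0 ^ 2 = ∫ s in (0 : ℝ)..t, 2 * (φ s * f s) := by
  have hac0 : AbsolutelyContinuousOnInterval (fun s => ∫ u in (0 : ℝ)..s, φ u) 0 t :=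
    hφ.absolutelyContinuousOnInterval_intervalIntegral (c := 0) (by simp)
  have hacc : AbsolutelyContinuousOnInterval (fun _ : ℝ => f 0) 0 t :=
    ((LipschitzWith.const (f 0)).lipschitzOnWith (s := uIcc 0 t)).absolutelyContinuousOnInterval
  have hac : AbsolutelyContinuousOnInterval (fun s => f 0 + ∫ u in (0 : ℝ)..s, φ u) 0 t :=
    hacc.add hac0
  have h := AbsolutelyContinuousOnInterval.integral_deriv_mul_eq_sub hac hac
  simp only [intervalIntegral.integral_same, add_zero] at h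
  rw [hf t ⟨ht, le_rfl⟩]
  have h' : (f 0 + ∫ u in (0 : ℝ)..t, φ u) ^ 2 - f 0 ^ 2 =
      (f 0 + ∫ u in (0 : ℝ)..t, φ u) * (f 0 + ∫ u in (0 : ℝ)..t, φ u) - f 0 * f 0 := by ring
  rw [h', ← h]
  apply intervalIntegral.integral_congr_ae
  filter_upwards [hφ.ae_hasDerivAt_integral] with x hx hx3
  have hx4 : x ∈ uIcc 0 t := uIoc_subset_uIcc hx3
  have hx5 : HasDerivAt (fun s => f 0 + ∫ u in (0 : ℝ)..s, φ u) (φ x) x :=
    (hx hx4 0 (by simp)).const_add (f 0)
  rw [hx5.deriv, hf x (by rwa [uIcc_of_le ht] at hx4)]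
  ring

/-- the product rule for the square of the norm of a complex primitive -/
lemma sq_complex {f φ : ℝ → ℂ} {t : ℝ} (ht : 0 ≤ t) (hφ : IntervalIntegrable φ volume 0 t)
    (hf : ∀ s ∈ Icc 0 t, f s = f 0 + ∫ u in (0 : ℝ)..s, φ u)
    (hc : ContinuousOn f (Icc 0 t)) :
    ‖f t‖ ^ 2 - ‖f 0‖ ^ 2 = ∫ s in (0 : ℝ)..t, 2 * (φ s * (starRingEnd ℂ) (f s)).re := by
  have hsub : ∀ s ∈ Icc 0 t, IntervalIntegrable φ volume 0 s := fun s hs =>
    hφ.mono_set (by
      rw [uIcc_of_le ht, uIcc_of_le hs.1]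
      exact Icc_subset_Icc le_rfl hs.2)
  have hre : ∀ s ∈ Icc 0 t, (f s).re = (f 0).re + ∫ u in (0 : ℝ)..s, (φ u).re := by
    intro s hs
    have h1 := Complex.reCLM.intervalIntegral_comp_comm (hsub s hs)
    simp only [Complex.reCLM_apply] at h1
    rw [h1, hf s hs, Complex.add_re]
  have him : ∀ s ∈ Icc 0 t, (f s).im = (f 0).im + ∫ u in (0 : ℝ)..s, (φ u).im := by
    intro s hs
    have h1 := Complex.imCLM.intervalIntegral_comp_comm (hsub s hs)
    simp only [Complex.imCLM_apply] at h1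
    rw [h1, hf s hs, Complex.add_im]
  have hφre : IntervalIntegrable (fun s => (φ s).re) volume 0 t :=
    ⟨hφ.1.re, hφ.2.re⟩
  have hφim : IntervalIntegrable (fun s => (φ s).im) volume 0 t :=
    ⟨hφ.1.im, hφ.2.im⟩
  have h1 := sq_real (f := fun s => (f s).re) ht hφre hre
  have h2 := sq_real (f := fun s => (f s).im) ht hφim him
  have hcre : ContinuousOn (fun s => (f s).re) (uIcc 0 t) := by
    rw [uIcc_of_le ht]; exact Complex.continuous_re.comp_continuousOn hc
  have hcim : ContinuousOn (fun s => (f s).im) (uIcc 0 t) := by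
    rw [uIcc_of_le ht]; exact Complex.continuous_im.comp_continuousOn hc
  have h3 : ‖f t‖ ^ 2 - ‖f 0‖ ^ 2 =
      ((f t).re ^ 2 - (f 0).re ^ 2) + ((f t).im ^ 2 - (f 0).im ^ 2) := by
    rw [Complex.sq_norm, Complex.sq_norm, Complex.normSq_apply, Complex.normSq_apply]
    ring
  rw [h3]
  rw [h1, h2, ← intervalIntegral.integral_add ((hφre.mul_continuousOn hcre).const_mul 2)
    ((hφim.mul_continuousOn hcim).const_mul 2)]
  apply intervalIntegral.integral_congr
  intro s _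
  simp only [Complex.mul_re, Complex.conj_re, Complex.conj_im]
  ring

lemma nm_sq (v : C3) : nm v ^ 2 = ∑ i, ‖v i‖ ^ 2 :=
  Real.sq_sqrt (Finset.sum_nonneg fun i _ => by positivity)

/-- the energy balance of one coefficient -/
lemma one {g : K → ℝ} {ν T : ℝ} {a : ℝ → K → C3} (h : FSol g ν T a) (k : K) {t : ℝ}
    (ht : t ∈ Icc 0 T) :
    IntervalIntegrable (fun s => kn k ^ 2 * nm (a s k) ^ 2) volume 0 t ∧
    IntervalIntegrable (fun s => (∑ i, Nl (a s) k i * (starRingEnd ℂ) (a s k i)).re)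
      volume 0 t ∧
    (1 / 2) * nm (a t k) ^ 2
        + 4 * Real.pi ^ 2 * ν * (∫ s in (0 : ℝ)..t, kn k ^ 2 * nm (a s k) ^ 2)
      = (1 / 2) * nm (a 0 k) ^ 2
        - ∫ s in (0 : ℝ)..t, (∑ i, Nl (a s) k i * (starRingEnd ℂ) (a s k i)).re := by
  obtain ⟨ht0, htT⟩ := ht
  have hsubset : Icc 0 t ⊆ Icc 0 T := Icc_subset_Icc le_rfl htT
  have hcont : ∀ i, ContinuousOn (fun s => a s k i) (Icc 0 t) := fun i =>
    (h.cont k i).mono hsubset
  have hcont' : ∀ i, ContinuousOn (fun s => a s k i) (uIcc 0 t) := fun i => by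
    rw [uIcc_of_le ht0]; exact hcont i
  have hcontc : ∀ i, ContinuousOn (fun s => (starRingEnd ℂ) (a s k i)) (uIcc 0 t) := fun i =>
    Complex.continuous_conj.comp_continuousOn (hcont' i)
  have hN : ∀ i, IntervalIntegrable (fun s => Nl (a s) k i) volume 0 t := fun i => by
    rw [intervalIntegrable_iff_integrableOn_Icc_of_le ht0]
    exact (h.intN k i).mono_set hsubset
  have hA : ∀ i, IntervalIntegrable (fun s => a s k i) volume 0 t := fun i =>
    (hcont' i).intervalIntegrable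
  have hφ : ∀ i, IntervalIntegrable (fun s =>
      ((-((4 * Real.pi ^ 2 * ν * kn k ^ 2 : ℝ) : ℂ) + I * (g k : ℂ)) * a s k i
        - Nl (a s) k i)) volume 0 t := fun i => ((hA i).const_mul _).sub (hN i)
  have hnm : ContinuousOn (fun s => nm (a s k) ^ 2) (uIcc 0 t) := by
    simp only [nm_sq]
    exact continuousOn_finsetSum _ fun i _ => ((hcont' i).norm).pow 2
  have hI1 : IntervalIntegrable (fun s => kn k ^ 2 * nm (a s k) ^ 2) volume 0 t :=
    (hnm.const_mul _).intervalIntegrable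
  have hI2c : IntervalIntegrable (fun s => ∑ i, Nl (a s) k i * (starRingEnd ℂ) (a s k i))
      volume 0 t := by
    have := IntervalIntegrable.sum (μ := volume) (a := 0) (b := t) Finset.univ
      (f := fun i s => Nl (a s) k i * (starRingEnd ℂ) (a s k i))
      (fun i _ => (hN i).mul_continuousOn (hcontc i))
    refine this.congr ?_
    intro s _
    simp
  have hI2 : IntervalIntegrable (fun s => (∑ i, Nl (a s) k i * (starRingEnd ℂ) (a s k i)).re)
      volume 0 t := ⟨hI2c.1.re, hI2c.2.re⟩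
  refine ⟨hI1, hI2, ?_⟩
  have hsq : ∀ i, ‖a t k i‖ ^ 2 - ‖a 0 k i‖ ^ 2 = ∫ s in (0 : ℝ)..t,
      2 * ((((-((4 * Real.pi ^ 2 * ν * kn k ^ 2 : ℝ) : ℂ) + I * (g k : ℂ)) * a s k i
        - Nl (a s) k i)) * (starRingEnd ℂ) (a s k i)).re := fun i =>
    sq_complex (f := fun s => a s k i) ht0 (hφ i)
      (fun s hs => h.ode k i s (hsubset hs)) (hcont i)
  have hint : ∀ i, IntervalIntegrable (fun s =>
      2 * ((((-((4 * Real.pi ^ 2 * ν * kn k ^ 2 : ℝ) : ℂ) + I * (g k : ℂ)) * a s k i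
        - Nl (a s) k i)) * (starRingEnd ℂ) (a s k i)).re) volume 0 t := fun i => by
    have := (hφ i).mul_continuousOn (hcontc i)
    exact IntervalIntegrable.const_mul ⟨this.1.re, this.2.re⟩ 2
  have hsum : nm (a t k) ^ 2 - nm (a 0 k) ^ 2 = ∫ s in (0 : ℝ)..t,
      ∑ i, 2 * ((((-((4 * Real.pi ^ 2 * ν * kn k ^ 2 : ℝ) : ℂ) + I * (g k : ℂ)) * a s k i
        - Nl (a s) k i)) * (starRingEnd ℂ) (a s k i)).re := by
    rw [nm_sq, nm_sq, ← Finset.sum_sub_distrib, intervalIntegral.integral_finsetSum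
      (fun i _ => hint i)]
    exact Finset.sum_congr rfl fun i _ => hsq i
  have hpt : ∀ s, ∑ i, 2 * ((((-((4 * Real.pi ^ 2 * ν * kn k ^ 2 : ℝ) : ℂ) + I * (g k : ℂ))
        * a s k i - Nl (a s) k i)) * (starRingEnd ℂ) (a s k i)).re =
      (-(8 * Real.pi ^ 2 * ν)) * (kn k ^ 2 * nm (a s k) ^ 2)
        - 2 * (∑ i, Nl (a s) k i * (starRingEnd ℂ) (a s k i)).re := by
    intro s
    rw [nm_sq, Complex.re_sum, Finset.mul_sum, Finset.mul_sum, Finset.mul_sum,
      ← Finset.sum_sub_distrib]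
    refine Finset.sum_congr rfl fun i _ => ?_
    rw [Complex.sq_norm, Complex.normSq_apply]
    simp only [Complex.mul_re, Complex.mul_im, Complex.add_re, Complex.add_im, Complex.sub_re,
      Complex.sub_im, Complex.neg_re, Complex.neg_im, Complex.ofReal_re, Complex.ofReal_im,
      Complex.I_re, Complex.I_im, Complex.conj_re, Complex.conj_im]
    ring
  rw [intervalIntegral.integral_congr (g := fun s => (-(8 * Real.pi ^ 2 * ν)) *
      (kn k ^ 2 * nm (a s k) ^ 2) - 2 * (∑ i, Nl (a s) k i * (starRingEnd ℂ) (a s k i)).re)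
      (fun s _ => hpt s), intervalIntegral.integral_sub (hI1.const_mul _) (hI2.const_mul 2)] at hsum
  simp only [intervalIntegral.integral_const_mul] at hsum ⊢
  linarith

end XH2

open XH2 in
/-- the weighted energy balance -/
theorem h2 : H2 := by
  intro g ν T a h w S t ht
  have hk : ∀ k, (1 / 2) * nm (a t k) ^ 2
        + 4 * Real.pi ^ 2 * ν * (∫ s in (0 : ℝ)..t, kn k ^ 2 * nm (a s k) ^ 2)
      = (1 / 2) * nm (a 0 k) ^ 2
        - ∫ s in (0 : ℝ)..t, (∑ i, Nl (a s) k i * (starRingEnd ℂ) (a s k i)).re :=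
    fun k => (one h k ht).2.2
  have hint : ∀ k ∈ S, IntervalIntegrable (fun s =>
      w k * (∑ i, Nl (a s) k i * (starRingEnd ℂ) (a s k i)).re) volume 0 t :=
    fun k _ => (one h k ht).2.1.const_mul _
  rw [intervalIntegral.integral_finsetSum hint, Finset.mul_sum, Finset.mul_sum, Finset.mul_sum,
    ← Finset.sum_add_distrib, ← Finset.sum_sub_distrib]
  refine Finset.sum_congr rfl fun k _ => ?_
  have hk' := hk k
  simp only [intervalIntegral.integral_const_mul] at hk' ⊢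
  linear_combination (w k) * hk'

end Pool.Agent.H303.DEE.F
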