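import Pool.Agent.H303.DEE.Stm5

/-! The product rule for a triad (H3). -/

open MeasureTheory Set Filter Topology Complex
open scoped ContDiff ENNReal

namespace Pool.Agent.H303.DEE.F

namespace H3aux

theorem core {t : ℝ} (ht : 0 ≤ t) (φ ψ : ℝ → ℂ) (hφ : IntegrableOn φ (Ioc 0 t))
    (hψ : IntegrableOn ψ (Ioc 0 t)) :
    (∫ s in (0 : ℝ)..t, φ s) * (∫ s in (0 : ℝ)..t, ψ s) =
      (∫ s in (0 : ℝ)..t, φ s * (∫ r in (0 : ℝ)..s, ψ r)) +
        ∫ s in (0 : ℝ)..t, (∫ r in (0 : ℝ)..s, φ r) * ψ s := by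
  have hS : MeasurableSet {z : ℝ × ℝ | z.2 ≤ z.1} := measurableSet_le measurable_snd measurable_fst
  have hint : Integrable (fun z : ℝ × ℝ => φ z.1 * ψ z.2)
      ((volume.restrict (Ioc (0 : ℝ) t)).prod (volume.restrict (Ioc (0 : ℝ) t))) := hφ.mul_prod hψ
  rw [intervalIntegral.integral_of_le ht, intervalIntegral.integral_of_le ht,
    intervalIntegral.integral_of_le ht, intervalIntegral.integral_of_le ht]
  rw [← integral_prod_mul φ ψ, ← integral_add_compl hS hint]
  congr 1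
  · rw [← integral_indicator hS, integral_prod _ (hint.indicator hS)]
    refine setIntegral_congr_fun measurableSet_Ioc (fun s hs => ?_)
    have e1 : (fun r => ({z : ℝ × ℝ | z.2 ≤ z.1}).indicator (fun z => φ z.1 * ψ z.2) (s, r)) =
        (Iic s).indicator (fun r => φ s * ψ r) := by
      ext r
      by_cases h : r ≤ s
      · rw [indicator_of_mem (show (s, r) ∈ {z : ℝ × ℝ | z.2 ≤ z.1} from h),
          indicator_of_mem (show r ∈ Iic s from h)]
      · rw [indicator_of_notMem (show (s, r) ∉ {z : ℝ × ℝ | z.2 ≤ z.1} from h),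
          indicator_of_notMem (show r ∉ Iic s from h)]
    rw [e1, integral_indicator measurableSet_Iic, integral_const_mul,
      Measure.restrict_restrict measurableSet_Iic, intervalIntegral.integral_of_le hs.1.le]
    have e2 : Iic s ∩ Ioc 0 t = Ioc 0 s := by
      ext r
      simp only [mem_inter_iff, mem_Iic, mem_Ioc]
      constructor
      · rintro ⟨h1, h2, _⟩
        exact ⟨h2, h1⟩
      · rintro ⟨h1, h2⟩
        exact ⟨h2, h1, h2.trans hs.2⟩
    rw [e2]
  · rw [← integral_indicator hS.compl, integral_prod_symm _ (hint.indicator hS.compl)]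
    refine setIntegral_congr_fun measurableSet_Ioc (fun r hr => ?_)
    have e1 : (fun s => ({z : ℝ × ℝ | z.2 ≤ z.1}ᶜ).indicator (fun z => φ z.1 * ψ z.2) (s, r)) =
        (Iio r).indicator (fun s => φ s * ψ r) := by
      ext s
      by_cases h : s < r
      · rw [indicator_of_mem (show (s, r) ∈ {z : ℝ × ℝ | z.2 ≤ z.1}ᶜ from not_le.mpr h),
          indicator_of_mem (show s ∈ Iio r from h)]
      · rw [indicator_of_notMem (show (s, r) ∉ {z : ℝ × ℝ | z.2 ≤ z.1}ᶜ from
            fun hn => hn (not_lt.mp h)), indicator_of_notMem (show s ∉ Iio r from h)]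
    rw [e1, integral_indicator measurableSet_Iio, integral_mul_const,
      Measure.restrict_restrict measurableSet_Iio, intervalIntegral.integral_of_le hr.1.le,
      integral_Ioc_eq_integral_Ioo]
    have e2 : Iio r ∩ Ioc 0 t = Ioo 0 r := by
      ext s
      simp only [mem_inter_iff, mem_Iio, mem_Ioc, mem_Ioo]
      constructor
      · rintro ⟨h1, h2, _⟩
        exact ⟨h2, h1⟩
      · rintro ⟨h1, h2⟩
        exact ⟨h2, h1, h2.le.trans hr.2⟩
    rw [e2]

/-- `f` is a primitive of `φ` on `[0, T]` -/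
structure Prim (T : ℝ) (φ f : ℝ → ℂ) : Prop where
  c : ContinuousOn f (Icc 0 T)
  i : IntegrableOn φ (Icc 0 T)
  e : ∀ t ∈ Icc 0 T, f t = f 0 + ∫ s in (0 : ℝ)..t, φ s

theorem ii {T t : ℝ} {φ : ℝ → ℂ} (h : IntegrableOn φ (Icc 0 T)) (ht : t ∈ Icc 0 T) :
    IntervalIntegrable φ volume 0 t := by
  rw [intervalIntegrable_iff_integrableOn_Icc_of_le ht.1]
  exact h.mono_set (Icc_subset_Icc_right ht.2)

theorem Prim.mul {T : ℝ} {φ f ψ h : ℝ → ℂ} (hf : Prim T φ f) (hh : Prim T ψ h) :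
    Prim T (fun s => φ s * h s + f s * ψ s) (fun s => f s * h s) := by
  have i1 : IntegrableOn (fun s => φ s * h s) (Icc 0 T) := hf.i.mul_continuousOn hh.c isCompact_Icc
  have i2 : IntegrableOn (fun s => f s * ψ s) (Icc 0 T) := hh.i.continuousOn_mul hf.c isCompact_Icc
  refine ⟨hf.c.mul hh.c, i1.add i2, fun t ht => ?_⟩
  rw [intervalIntegral.integral_add (ii i1 ht) (ii i2 ht)]
  have hsub : Ioc 0 t ⊆ Icc 0 T := fun s hs => ⟨hs.1.le, hs.2.trans ht.2⟩
  have hc := core ht.1 φ ψ (hf.i.mono_set hsub) (hh.i.mono_set hsub)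
  have e1 : ∫ s in (0 : ℝ)..t, φ s * h s =
      (∫ s in (0 : ℝ)..t, φ s) * h 0 + ∫ s in (0 : ℝ)..t, φ s * (∫ r in (0 : ℝ)..s, ψ r) := by
    have e : ∀ s ∈ Icc 0 T, φ s * (∫ r in (0 : ℝ)..s, ψ r) = φ s * h s - φ s * h 0 := by
      intro s hs
      rw [hh.e s hs]
      ring
    have e' : ∫ s in (0 : ℝ)..t, φ s * (∫ r in (0 : ℝ)..s, ψ r) =
        ∫ s in (0 : ℝ)..t, (φ s * h s - φ s * h 0) := by
      refine intervalIntegral.integral_congr (fun s hs => ?_)
      rw [uIcc_of_le ht.1] at hs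
      exact e s ⟨hs.1, hs.2.trans ht.2⟩
    rw [e', intervalIntegral.integral_sub (ii i1 ht) ((ii hf.i ht).mul_const _),
      intervalIntegral.integral_mul_const]
    ring
  have e2 : ∫ s in (0 : ℝ)..t, f s * ψ s =
      f 0 * (∫ s in (0 : ℝ)..t, ψ s) + ∫ s in (0 : ℝ)..t, (∫ r in (0 : ℝ)..s, φ r) * ψ s := by
    have e : ∀ s ∈ Icc 0 T, (∫ r in (0 : ℝ)..s, φ r) * ψ s = f s * ψ s - f 0 * ψ s := by
      intro s hs
      rw [hf.e s hs]
      ring
    have e' : ∫ s in (0 : ℝ)..t, (∫ r in (0 : ℝ)..s, φ r) * ψ s =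
        ∫ s in (0 : ℝ)..t, (f s * ψ s - f 0 * ψ s) := by
      refine intervalIntegral.integral_congr (fun s hs => ?_)
      rw [uIcc_of_le ht.1] at hs
      exact e s ⟨hs.1, hs.2.trans ht.2⟩
    rw [e', intervalIntegral.integral_sub (ii i2 ht) ((ii hh.i ht).const_mul _),
      intervalIntegral.integral_const_mul]
    ring
  rw [e1, e2, hf.e t ht, hh.e t ht]
  linear_combination hc

theorem Prim.const_mul {T : ℝ} {φ f : ℝ → ℂ} (hf : Prim T φ f) (c : ℂ) :
    Prim T (fun s => c * φ s) (fun s => c * f s) := by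
  refine ⟨continuousOn_const.mul hf.c, hf.i.const_mul c, fun t ht => ?_⟩
  rw [intervalIntegral.integral_const_mul, hf.e t ht]
  ring

theorem Prim.conj {T : ℝ} {φ f : ℝ → ℂ} (hf : Prim T φ f) :
    Prim T (fun s => (starRingEnd ℂ) (φ s)) (fun s => (starRingEnd ℂ) (f s)) := by
  refine ⟨Complex.continuous_conj.comp_continuousOn hf.c, ?_, fun t ht => ?_⟩
  · exact (Complex.conjLIE.toContinuousLinearEquiv.integrable_comp_iff).mpr hf.i
  · rw [hf.e t ht, map_add]
    congr 1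
    rw [intervalIntegral.integral_of_le ht.1, intervalIntegral.integral_of_le ht.1]
    exact integral_conj.symm

theorem Prim.sum {ι : Type} {T : ℝ} (s : Finset ι) {φ f : ι → ℝ → ℂ}
    (h : ∀ i ∈ s, Prim T (φ i) (f i)) :
    Prim T (fun t => ∑ i ∈ s, φ i t) (fun t => ∑ i ∈ s, f i t) := by
  refine ⟨continuousOn_finsetSum _ (fun i hi => (h i hi).c),
    integrable_finsetSum _ (fun i hi => (h i hi).i), fun t ht => ?_⟩
  rw [intervalIntegral.integral_finsetSum (fun i hi => ii (h i hi).i ht), ← Finset.sum_add_distrib]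
  exact Finset.sum_congr rfl (fun i hi => (h i hi).e t ht)

theorem prim_coef {g : K → ℝ} {ν T : ℝ} {a : ℝ → K → C3} (h : FSol g ν T a) (k : K) (i : Fin 3) :
    Prim T (fun s => ((-((4 * Real.pi ^ 2 * ν * kn k ^ 2 : ℝ) : ℂ) + I * (g k : ℂ)) * a s k i -
      Nl (a s) k i)) (fun t => a t k i) := by
  refine ⟨h.cont k i, ?_, h.ode k i⟩
  have h1 : IntegrableOn (fun s => (-((4 * Real.pi ^ 2 * ν * kn k ^ 2 : ℝ) : ℂ) + I * (g k : ℂ)) *
      a s k i) (Icc 0 T) := ((h.cont k i).integrableOn_compact isCompact_Icc).const_mul _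
  exact h1.sub (h.intN k i)

end H3aux

open H3aux in
theorem h3 : H3 := by
  intro g ν T a h z
  have hX : Prim T _ (fun s => X (a s) z) :=
    (Prim.sum Finset.univ (fun j _ => (prim_coef h z.2 j).const_mul (z.1 j : ℂ))).mul
      (Prim.sum Finset.univ (fun i _ => (prim_coef h (z.1 - z.2) i).mul (prim_coef h z.1 i).conj))
  have key : ∀ s : ℝ, (∑ j, (z.1 j : ℂ) * ((-((4 * Real.pi ^ 2 * ν * kn z.2 ^ 2 : ℝ) : ℂ) +
        I * (g z.2 : ℂ)) * a s z.2 j - Nl (a s) z.2 j)) *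
        (∑ i, a s (z.1 - z.2) i * (starRingEnd ℂ) (a s z.1 i)) +
      (∑ j, (z.1 j : ℂ) * a s z.2 j) *
        (∑ i, (((-((4 * Real.pi ^ 2 * ν * kn (z.1 - z.2) ^ 2 : ℝ) : ℂ) + I * (g (z.1 - z.2) : ℂ)) *
          a s (z.1 - z.2) i - Nl (a s) (z.1 - z.2) i) * (starRingEnd ℂ) (a s z.1 i) +
          a s (z.1 - z.2) i * (starRingEnd ℂ) ((-((4 * Real.pi ^ 2 * ν * kn z.1 ^ 2 : ℝ) : ℂ) +
            I * (g z.1 : ℂ)) * a s z.1 i - Nl (a s) z.1 i))) =
      -(Zd g ν z) * X (a s) z - Qz (a s) z := by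
    intro s
    unfold Qz X Xt dt Zd om
    simp only [Fin.sum_univ_three, map_sub, map_add, map_mul, map_neg, Complex.conj_I,
      Complex.conj_ofReal]
    push_cast
    ring
  have hD : IntegrableOn (fun s => -(Zd g ν z) * X (a s) z - Qz (a s) z) (Icc 0 T) := by
    refine hX.i.congr_fun (fun s _ => ?_) measurableSet_Icc
    exact key s
  have hXi : IntegrableOn (fun s => -(Zd g ν z) * X (a s) z) (Icc 0 T) :=
    (hX.c.integrableOn_compact isCompact_Icc).const_mul _
  refine ⟨?_, fun t ht => ?_⟩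
  · have := hXi.sub hD
    refine this.congr_fun (fun s _ => ?_) measurableSet_Icc
    simp
  · rw [hX.e t ht, add_sub_cancel_left]
    refine intervalIntegral.integral_congr (fun s _ => ?_)
    exact key s

end Pool.Agent.H303.DEE.F
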