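import Pool.Agent.H303.DEE.Stm5

/-!
Project DEE, step H4: the nonlinear term is bounded and orthogonal to `k`.
-/

open MeasureTheory Set Filter Topology Complex
open scoped ContDiff ENNReal

namespace Pool.Agent.H303.DEE.F

namespace FH4

theorem nm_eq (v : C3) : nm v = ‖(WithLp.toLp 2 v : EuclideanSpace ℂ (Fin 3))‖ := by
  rw [EuclideanSpace.norm_eq]; rfl

theorem nm_nonneg (v : C3) : 0 ≤ nm v := Real.sqrt_nonneg _

theorem kn_nonneg (k : K) : 0 ≤ kn k := Real.sqrt_nonneg _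

/-- the frequency as a vector of the Euclidean space -/
noncomputable def kC (k : K) : EuclideanSpace ℂ (Fin 3) := WithLp.toLp 2 fun i => (k i : ℂ)

theorem norm_kC (k : K) : ‖kC k‖ = kn k := by
  rw [EuclideanSpace.norm_eq, kn]
  congr 1
  refine Finset.sum_congr rfl fun i _ => ?_
  simp [kC]

theorem norm_dt_le (k : K) (v : C3) : ‖dt k v‖ ≤ kn k * nm v := by
  calc ‖dt k v‖ ≤ ∑ j, ‖(k j : ℂ) * v j‖ := norm_sum_le _ _
    _ = ∑ j, |(k j : ℝ)| * ‖v j‖ := by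
        refine Finset.sum_congr rfl fun j _ => ?_
        rw [norm_mul]; simp
    _ ≤ Real.sqrt (∑ j, |(k j : ℝ)| ^ 2) * Real.sqrt (∑ j, ‖v j‖ ^ 2) :=
        Real.sum_mul_le_sqrt_mul_sqrt _ _ _
    _ = kn k * nm v := by
        rw [kn, nm]; simp only [sq_abs]

theorem sum_sq (k : K) : (∑ j, (k j : ℂ) ^ 2) = ((kn k ^ 2 : ℝ) : ℂ) := by
  rw [kn, Real.sq_sqrt (Finset.sum_nonneg fun _ _ => sq_nonneg _)]
  push_cast
  rfl

theorem kn_eq_zero {k : K} (h : kn k = 0) : k = 0 := by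
  rw [kn, Real.sqrt_eq_zero (Finset.sum_nonneg fun _ _ => sq_nonneg _),
    Finset.sum_eq_zero_iff_of_nonneg (fun _ _ => sq_nonneg _)] at h
  funext j
  have := h j (Finset.mem_univ _)
  simpa using this

theorem nm_Pr_le (k : K) (w : C3) : nm (Pr k w) ≤ 2 * nm w := by
  have h1 : (WithLp.toLp 2 (Pr k w) : EuclideanSpace ℂ (Fin 3)) =
      WithLp.toLp 2 w - (dt k w / (∑ j, (k j : ℂ) ^ 2)) • kC k := by
    ext i
    simp [Pr, kC]
    ring
  rw [nm_eq, h1]
  refine (norm_sub_le _ _).trans ?_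
  rw [← nm_eq, norm_smul, norm_kC, norm_div, sum_sq, Complex.norm_real, Real.norm_eq_abs,
    abs_of_nonneg (sq_nonneg _)]
  have h2 : ‖dt k w‖ / kn k ^ 2 * kn k ≤ nm w := by
    rcases (kn_nonneg k).eq_or_lt with h | h
    · rw [← h]; simpa using nm_nonneg w
    · have := norm_dt_le k w
      rw [div_mul_eq_mul_div, div_le_iff₀ (by positivity)]
      nlinarith [kn_nonneg k]
  linarith

theorem dt_Pr (k : K) (w : C3) : dt k (Pr k w) = 0 := by
  by_cases hk : k = 0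
  · subst hk; simp [dt]
  have h0 : (∑ j, (k j : ℂ) ^ 2) ≠ 0 := by
    rw [sum_sq]
    have : kn k ≠ 0 := fun h => hk (kn_eq_zero h)
    exact_mod_cast pow_ne_zero 2 this
  have h1 : dt k (Pr k w) = dt k w - (∑ j, (k j : ℂ) ^ 2) * (dt k w / (∑ j, (k j : ℂ) ^ 2)) := by
    rw [Finset.sum_mul]
    unfold dt
    rw [← Finset.sum_sub_distrib]
    refine Finset.sum_congr rfl fun i _ => ?_
    simp only [Pr, dt]
    ring
  rw [h1, mul_div_cancel₀ _ h0, sub_self]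

theorem summable_refl (U : K → C3) (h : Summable fun k => nm (U k) ^ 2) (k : K) :
    Summable (fun p => nm (U (k - p)) ^ 2) ∧
      ∑' p, nm (U (k - p)) ^ 2 = ∑' p, nm (U p) ^ 2 := by
  constructor
  · exact (Equiv.subLeft k).summable_iff.2 h
  · exact (Equiv.subLeft k).tsum_eq (fun p => nm (U p) ^ 2)

theorem nm_Bn_le (U : K → C3) (E : ℝ) (h : Summable fun k => nm (U k) ^ 2)
    (hE : ∑' k, nm (U k) ^ 2 ≤ E) (k : K) : nm (Bn U k) ≤ 2 * Real.pi * (kn k * E) := by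
  obtain ⟨hr1, hr2⟩ := summable_refl U h k
  let T : K → EuclideanSpace ℂ (Fin 3) := fun p => dt k (U p) • WithLp.toLp 2 (U (k - p))
  have hT : ∀ p, ‖T p‖ ≤ kn k * ((nm (U p) ^ 2 + nm (U (k - p)) ^ 2) / 2) := by
    intro p
    have h1 : ‖T p‖ = ‖dt k (U p)‖ * nm (U (k - p)) := by
      rw [nm_eq]; exact norm_smul _ _
    rw [h1]
    have h2 := norm_dt_le k (U p)
    have h3 := nm_nonneg (U p)
    have h4 := nm_nonneg (U (k - p))
    have h5 := kn_nonneg k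
    calc ‖dt k (U p)‖ * nm (U (k - p)) ≤ kn k * nm (U p) * nm (U (k - p)) := by gcongr
      _ = kn k * (nm (U p) * nm (U (k - p))) := by ring
      _ ≤ kn k * ((nm (U p) ^ 2 + nm (U (k - p)) ^ 2) / 2) := by
        gcongr
        nlinarith [sq_nonneg (nm (U p) - nm (U (k - p)))]
  have hs : Summable fun p => kn k * ((nm (U p) ^ 2 + nm (U (k - p)) ^ 2) / 2) :=
    ((h.add hr1).div_const 2).mul_left _
  have hsn : Summable fun p => ‖T p‖ := Summable.of_nonneg_of_le (fun _ => norm_nonneg _) hT hs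
  have hsT : Summable T := hsn.of_norm
  have hB : (WithLp.toLp 2 (Bn U k) : EuclideanSpace ℂ (Fin 3)) =
      (2 * Real.pi * I : ℂ) • ∑' p, T p := by
    ext i
    have := (EuclideanSpace.proj (𝕜 := ℂ) (ι := Fin 3) i).map_tsum hsT
    have h2 : (∑' p, T p) i = ∑' p, (T p) i := this
    change Bn U k i = (2 * Real.pi * I : ℂ) * (∑' p, T p) i
    rw [h2]
    rfl
  have htot : ∑' p, kn k * ((nm (U p) ^ 2 + nm (U (k - p)) ^ 2) / 2) = kn k * ∑' p, nm (U p) ^ 2 := by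
    rw [tsum_mul_left, tsum_div_const, h.tsum_add hr1, hr2]
    ring
  rw [nm_eq, hB, norm_smul]
  have hc : ‖(2 * Real.pi * I : ℂ)‖ = 2 * Real.pi := by
    simp [abs_of_nonneg Real.pi_nonneg]
  rw [hc]
  have h6 : ‖∑' p, T p‖ ≤ kn k * E := by
    calc ‖∑' p, T p‖ ≤ ∑' p, ‖T p‖ := norm_tsum_le_tsum_norm hsn
      _ ≤ ∑' p, kn k * ((nm (U p) ^ 2 + nm (U (k - p)) ^ 2) / 2) := hsn.tsum_le_tsum hT hs
      _ = kn k * ∑' p, nm (U p) ^ 2 := htot
      _ ≤ kn k * E := by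
        have := kn_nonneg k
        gcongr
  have := Real.pi_nonneg
  gcongr

end FH4

open FH4 in
theorem h4 : H4 := by
  intro U E h hE k
  refine ⟨?_, dt_Pr k _⟩
  have hE0 : 0 ≤ E := (tsum_nonneg fun _ => sq_nonneg _).trans hE
  have h1 := nm_Pr_le k (Bn U k)
  have h2 := nm_Bn_le U E h hE k
  have h3 : 0 ≤ kn k * E := mul_nonneg (kn_nonneg k) hE0
  have h4 : Real.pi < 3.15 := Real.pi_lt_d2
  calc nm (Nl U k) ≤ 2 * nm (Bn U k) := h1
    _ ≤ 2 * (2 * Real.pi * (kn k * E)) := by linarith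
    _ ≤ 20 * kn k * E := by nlinarith

end Pool.Agent.H303.DEE.F
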