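import Pool.Agent.H303.DEE.Stm5

/-!
The multiplier (H5)
-/

open Complex

namespace Pool.Agent.H303.DEE.F

namespace MulH5

/-- frequencies as Euclidean vectors -/
noncomputable def e (k : K) : EuclideanSpace ℝ (Fin 3) := WithLp.toLp 2 (fun j => (k j : ℝ))

theorem norm_e (k : K) : ‖e k‖ = kn k := by
  rw [EuclideanSpace.norm_eq, kn]
  congr 1
  apply Finset.sum_congr rfl
  intro j _
  simp [e]

theorem e_sub (k p : K) : e (k - p) = e k - e p := by
  ext j
  simp [e]

theorem kn_nonneg (k : K) : 0 ≤ kn k := Real.sqrt_nonneg _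

theorem nm_nonneg (v : C3) : 0 ≤ nm v := Real.sqrt_nonneg _

theorem kn_lip (k p : K) : |kn k - kn (k - p)| ≤ kn p := by
  rw [← norm_e k, ← norm_e (k - p), ← norm_e p, e_sub]
  have h := abs_norm_sub_norm_le (e k) (e k - e p)
  have h2 : e k - (e k - e p) = e p := by abel
  rw [h2] at h
  exact h

theorem dt_le (k : K) (v : C3) : ‖dt k v‖ ≤ kn k * nm v := by
  have h1 : ‖dt k v‖ ≤ ∑ j, |(k j : ℝ)| * ‖v j‖ := by
    refine (norm_sum_le _ _).trans (le_of_eq (Finset.sum_congr rfl fun j _ => ?_))
    rw [norm_mul, Complex.norm_intCast]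
  have h2 := Real.sum_mul_le_sqrt_mul_sqrt Finset.univ (fun j => |(k j : ℝ)|) (fun j => ‖v j‖)
  have h3 : ∑ j, |(k j : ℝ)| ^ 2 = ∑ j, (k j : ℝ) ^ 2 :=
    Finset.sum_congr rfl fun j _ => sq_abs _
  rw [h3] at h2
  exact h1.trans h2

theorem cs_le (Q R : C3) : ‖∑ i, Q i * (starRingEnd ℂ) (R i)‖ ≤ nm Q * nm R := by
  have h1 : ‖∑ i, Q i * (starRingEnd ℂ) (R i)‖ ≤ ∑ i, ‖Q i‖ * ‖R i‖ := by
    refine (norm_sum_le _ _).trans (le_of_eq (Finset.sum_congr rfl fun j _ => ?_))
    rw [norm_mul, RCLike.norm_conj]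
  exact h1.trans (Real.sum_mul_le_sqrt_mul_sqrt Finset.univ (fun j => ‖Q j‖) (fun j => ‖R j‖))

theorem dt_sub (k p : K) (v : C3) : dt (k - p) v = dt k v - dt p v := by
  simp only [dt, ← Finset.sum_sub_distrib]
  refine Finset.sum_congr rfl fun j _ => ?_
  simp only [Pi.sub_apply, Int.cast_sub]
  ring

theorem wt_mem (M : ℝ) (k : K) : 0 ≤ wt M k ∧ wt M k ≤ 1 :=
  ⟨le_max_left _ _, max_le zero_le_one (min_le_left _ _)⟩

theorem wt_lip (M : ℝ) (hM : 0 < M) (k l : K) : |wt M k - wt M l| ≤ |kn k - kn l| / M := by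
  have h1 : |wt M k - wt M l| ≤ |(2 - kn k / M) - (2 - kn l / M)| := by
    have hmax : ∀ a b : ℝ, |max 0 a - max 0 b| ≤ |a - b| := by
      intro a b
      rw [max_comm 0 a, max_comm 0 b]
      exact abs_max_sub_max_le_abs a b 0
    have hmin : ∀ a b : ℝ, |min 1 a - min 1 b| ≤ |a - b| := by
      intro a b
      rcases le_total 1 a with ha | ha <;> rcases le_total 1 b with hb | hb
      · rw [min_eq_left ha, min_eq_left hb, sub_self, abs_zero]; exact abs_nonneg _
      · rw [min_eq_left ha, min_eq_right hb, abs_of_nonneg (by linarith), abs_of_nonneg (by linarith)]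
        linarith
      · rw [min_eq_right ha, min_eq_left hb, abs_of_nonpos (by linarith), abs_of_nonpos (by linarith)]
        linarith
      · rw [min_eq_right ha, min_eq_right hb]
    exact (hmax _ _).trans (hmin _ _)
  have h2 : (2 - kn k / M) - (2 - kn l / M) = -((kn k - kn l) / M) := by ring
  rw [h2, abs_neg, abs_div, abs_of_pos hM] at h1
  exact h1

end MulH5

open MulH5 in
theorem h5 : H5 := by
  intro M z P Q R hM hz
  have hM0 : 0 < M := by linarith
  set k := z.1 with hk
  set p := z.2 with hp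
  have hdt : dt k P = dt (k - p) P := by rw [dt_sub, hz, sub_zero]
  refine ⟨?_, ?_⟩
  · set m := min (kn k) (kn (k - p)) with hm
    have hP : ‖dt k P‖ ≤ m * nm P := by
      rcases min_choice (kn k) (kn (k - p)) with h | h
      · rw [hm, h]; exact dt_le _ _
      · rw [hm, h, hdt]; exact dt_le _ _
    have hX : ‖Xt k P Q R‖ ≤ m * (nm P * nm Q * nm R) := by
      rw [Xt, norm_mul]
      calc ‖dt k P‖ * ‖∑ i, Q i * (starRingEnd ℂ) (R i)‖ ≤ (m * nm P) * (nm Q * nm R) :=
            mul_le_mul hP (cs_le Q R) (norm_nonneg _)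
              (mul_nonneg (le_min (kn_nonneg _) (kn_nonneg _)) (nm_nonneg _))
        _ = _ := by ring
    have hm0 : 0 ≤ m := le_min (kn_nonneg _) (kn_nonneg _)
    have hN : 0 ≤ nm P * nm Q * nm R :=
      mul_nonneg (mul_nonneg (nm_nonneg _) (nm_nonneg _)) (nm_nonneg _)
    have hw1 : |wt M k - wt M (k - p)| ≤ 1 := by
      have h1 := wt_mem M k
      have h2 := wt_mem M (k - p)
      rw [abs_le]
      constructor <;> linarith [h1.1, h1.2, h2.1, h2.2]
    have hkey : |wt M k - wt M (k - p)| * m ≤ 2 * mn z := by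
      have hA : |wt M k - wt M (k - p)| * m ≤ m := by
        have := mul_le_mul_of_nonneg_right hw1 hm0
        linarith
      have hB : |wt M k - wt M (k - p)| * m ≤ 2 * kn p := by
        by_cases h : 2 * M ≤ m
        · have h1 : wt M k = 0 := by
            have h2 : 2 * M ≤ kn k := h.trans (min_le_left _ _)
            have h3 : 2 ≤ kn k / M := by rw [le_div_iff₀ hM0]; exact h2
            exact max_eq_left ((min_le_right _ _).trans (by linarith))
          have h2 : wt M (k - p) = 0 := by
            have h2 : 2 * M ≤ kn (k - p) := h.trans (min_le_right _ _)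
            have h3 : 2 ≤ kn (k - p) / M := by rw [le_div_iff₀ hM0]; exact h2
            exact max_eq_left ((min_le_right _ _).trans (by linarith))
          rw [h1, h2, sub_zero, abs_zero, zero_mul]
          have := kn_nonneg p
          linarith
        · push Not at h
          have h1 := wt_lip M hM0 k (k - p)
          have h2 := kn_lip k p
          have h3 : |wt M k - wt M (k - p)| ≤ kn p / M :=
            h1.trans (by gcongr)
          calc |wt M k - wt M (k - p)| * m ≤ (kn p / M) * (2 * M) :=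
                mul_le_mul h3 h.le hm0 (div_nonneg (kn_nonneg _) hM0.le)
            _ = 2 * kn p := by field_simp
      have hC : m ≤ kn k := min_le_left _ _
      have hD : m ≤ kn (k - p) := min_le_right _ _
      have h1 := kn_nonneg k
      have h2 := kn_nonneg (k - p)
      have h4 : |wt M k - wt M (k - p)| * m / 2 ≤ mn z := by
        unfold mn
        refine le_min ?_ (le_min ?_ ?_)
        · linarith
        · linarith
        · linarith
      linarith
    calc |wt M k - wt M (k - p)| * ‖Xt k P Q R‖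
        ≤ |wt M k - wt M (k - p)| * (m * (nm P * nm Q * nm R)) :=
          mul_le_mul_of_nonneg_left hX (abs_nonneg _)
      _ = (|wt M k - wt M (k - p)| * m) * (nm P * nm Q * nm R) := by ring
      _ ≤ (2 * mn z) * (nm P * nm Q * nm R) := mul_le_mul_of_nonneg_right hkey hN
  · intro h
    have h1 : kn k ≤ M := (le_max_left _ _).trans h
    have h2 : kn (k - p) ≤ M := ((le_max_right _ _).trans (le_max_right _ _)).trans h
    have h3 : ∀ l : K, kn l ≤ M → wt M l = 1 := by
      intro l hl
      have h4 : kn l / M ≤ 1 := by rw [div_le_one hM0]; exact hl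
      unfold wt
      rw [min_eq_left (by linarith), max_eq_right zero_le_one]
    rw [h3 _ h1, h3 _ h2, sub_self]

end Pool.Agent.H303.DEE.F
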