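import Pool.Agent.H303.DEE.Stm5

open MeasureTheory Set Filter Topology Complex
open scoped ContDiff ENNReal

namespace Pool.Agent.H303.DEE.F

namespace FH6

theorem kn_eq (k : K) : kn k = ‖(WithLp.toLp 2 (fun j => (k j : ℝ)) : EuclideanSpace ℝ (Fin 3))‖ := by
  rw [EuclideanSpace.norm_eq]
  unfold kn
  congr 1
  refine Finset.sum_congr rfl fun j _ => ?_
  rw [Real.norm_eq_abs, sq_abs]

theorem kn_nonneg (k : K) : 0 ≤ kn k := Real.sqrt_nonneg _

theorem kn_neg (k : K) : kn (-k) = kn k := by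
  unfold kn
  congr 1
  refine Finset.sum_congr rfl fun j _ => ?_
  rw [Pi.neg_apply]
  push_cast
  ring

theorem kn_add (a b : K) : kn (a + b) ≤ kn a + kn b := by
  rw [kn_eq, kn_eq, kn_eq]
  refine le_trans (le_of_eq ?_) (norm_add_le _ _)
  congr 1
  ext j
  simp

theorem kn_sub (a b : K) : kn (a - b) ≤ kn a + kn b := by
  rw [sub_eq_add_neg, ← kn_neg b]
  exact kn_add a (-b)

theorem one_le_kn {k : K} (h : 0 < kn k) : 1 ≤ kn k := by
  unfold kn at h ⊢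
  rw [Real.sqrt_pos] at h
  rw [Real.one_le_sqrt]
  have h1 : (∑ j, (k j : ℝ) ^ 2) = ((∑ j, k j ^ 2 : ℤ) : ℝ) := by push_cast; rfl
  rw [h1] at h ⊢
  have h2 : (0 : ℤ) < ∑ j, k j ^ 2 := by exact_mod_cast h
  exact_mod_cast h2

/-- the part of the sum on which `φ` is injective -/
theorem part (NR : K → K → Prop) (C : ℝ) (h : H6b) (hC : 1 ≤ C) (hF : Few NR C) (x : K → ℝ)
    (M E G γ : ℝ) (h0 : ∀ k, 0 ≤ x k) (hE : ∀ F : Finset K, ∑ k ∈ F, x k ^ 2 ≤ E)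
    (hG : ∀ F : Finset K, ∑ k ∈ F, kn k ^ 2 * x k ^ 2 ≤ G)
    (hγ : ∀ F : Finset K, (∀ k ∈ F, M / 2 ≤ kn k) → ∑ k ∈ F, kn k ^ 2 * x k ^ 2 ≤ γ)
    (S : Finset (K × K)) (φ : K × K → K × K) (hφ : Function.Injective φ)
    (f : K × K → ℝ)
    (h1 : ∀ z ∈ S, (M / 2 ≤ kn (φ z).1 ∧ 1 ≤ kn (φ z).2 ∧ kn (φ z).2 ≤ kn (φ z).1 ∧
      kn (φ z).2 ≤ kn ((φ z).1 - (φ z).2) ∧ NR (φ z).1 (φ z).2) ∧
      f z ≤ kn (φ z).2 * (x (φ z).1 * x (φ z).2 * x ((φ z).1 - (φ z).2))) :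
    ∑ z ∈ S, f z ≤ 8 * C * (√E * √G * √γ) := by
  classical
  have h2 := h NR C hC hF x M E G γ h0 hE hG hγ (S.image φ) (by
    intro w hw
    rw [Finset.mem_image] at hw
    obtain ⟨z, hz, rfl⟩ := hw
    exact (h1 z hz).1)
  rw [Finset.sum_image (fun a _ b _ hab => hφ hab)] at h2
  exact (Finset.sum_le_sum fun z hz => (h1 z hz).2).trans h2

theorem mul_cube {a b : ℝ} (ha : 0 ≤ a) (h : a ≤ 2 * b) : a ^ 3 ≤ 8 * b ^ 3 := by
  calc a ^ 3 ≤ (2 * b) ^ 3 := pow_le_pow_left₀ ha h 3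
    _ = 8 * b ^ 3 := by ring

theorem mx_nonneg (z : K × K) : 0 ≤ mx z := (kn_nonneg z.1).trans (le_max_left _ _)

end FH6

open FH6 in
theorem h6 (h : H6b) : H6 := by
  classical
  intro g C hg hC hF x M E G γ hM h0 hx hE hG hγ S hS
  set NR : K → K → Prop := fun L m => |g L - g m - g (L - m)| ≤ 8 * kn L ^ 3 with hNR
  have hkey : 0 ≤ √E * √G * √γ := by positivity
  -- the three parts
  set S1 : Finset (K × K) := S.filter fun z => kn z.2 ≤ kn z.1 ∧ kn z.2 ≤ kn (z.1 - z.2) with hS1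
  set S2 : Finset (K × K) := (S.filter fun z => ¬ (kn z.2 ≤ kn z.1 ∧ kn z.2 ≤ kn (z.1 - z.2))).filter
    fun z => kn (z.1 - z.2) ≤ kn z.1 ∧ kn (z.1 - z.2) ≤ kn z.2 with hS2
  set S3 : Finset (K × K) := (S.filter fun z => ¬ (kn z.2 ≤ kn z.1 ∧ kn z.2 ≤ kn (z.1 - z.2))).filter
    fun z => ¬ (kn (z.1 - z.2) ≤ kn z.1 ∧ kn (z.1 - z.2) ≤ kn z.2) with hS3
  have hsum : ∑ z ∈ S, mn z * (x z.1 * x z.2 * x (z.1 - z.2)) =
      ∑ z ∈ S1, mn z * (x z.1 * x z.2 * x (z.1 - z.2)) +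
      (∑ z ∈ S2, mn z * (x z.1 * x z.2 * x (z.1 - z.2)) +
      ∑ z ∈ S3, mn z * (x z.1 * x z.2 * x (z.1 - z.2))) := by
    rw [hS1, hS2, hS3, Finset.sum_filter_add_sum_filter_not, Finset.sum_filter_add_sum_filter_not]
  have hpos : ∀ z ∈ S, 0 < kn z.1 ∧ 0 < kn z.2 ∧ 0 < kn (z.1 - z.2) := by
    intro z hz
    have h1 := (hS z hz).2.1
    unfold mn at h1
    rw [lt_min_iff, lt_min_iff] at h1
    exact h1
  have htri : ∀ z : K × K, kn (z.1 - z.2) ≤ kn z.1 + kn z.2 := fun z => kn_sub _ _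
  have htri2 : ∀ z : K × K, kn z.2 ≤ kn z.1 + kn (z.1 - z.2) := by
    intro z
    have h1 := kn_sub z.1 (z.1 - z.2)
    rwa [sub_sub_cancel] at h1
  have hmn1 : ∀ z : K × K, mn z ≤ kn z.1 := fun z => min_le_left _ _
  have hmn2 : ∀ z : K × K, mn z ≤ kn z.2 := fun z => (min_le_right _ _).trans (min_le_left _ _)
  have hmn3 : ∀ z : K × K, mn z ≤ kn (z.1 - z.2) :=
    fun z => (min_le_right _ _).trans (min_le_right _ _)
  have hxxx : ∀ z : K × K, 0 ≤ x z.1 * x z.2 * x (z.1 - z.2) :=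
    fun z => mul_nonneg (mul_nonneg (h0 _) (h0 _)) (h0 _)
  have p1 : ∑ z ∈ S1, mn z * (x z.1 * x z.2 * x (z.1 - z.2)) ≤ 8 * C * (√E * √G * √γ) := by
    refine part NR C h hC hF x M E G γ h0 hE hG hγ S1 id Function.injective_id _ ?_
    intro z hz
    rw [hS1, Finset.mem_filter] at hz
    obtain ⟨hz, ha, hb⟩ := hz
    obtain ⟨hm1, hm2, hm3⟩ := hS z hz
    obtain ⟨q1, q2, q3⟩ := hpos z hz
    have hmx : mx z ≤ 2 * kn z.1 := by
      unfold mx
      refine max_le (by linarith) (max_le (by linarith) ?_)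
      linarith [htri z]
    refine ⟨⟨?_, one_le_kn q2, ha, hb, ?_⟩, ?_⟩
    · show M / 2 ≤ kn z.1
      linarith
    · show |g z.1 - g z.2 - g (z.1 - z.2)| ≤ 8 * kn z.1 ^ 3
      exact hm3.trans (mul_cube (mx_nonneg z) hmx)
    · exact mul_le_mul_of_nonneg_right (hmn2 z) (hxxx z)
  have p2 : ∑ z ∈ S2, mn z * (x z.1 * x z.2 * x (z.1 - z.2)) ≤ 8 * C * (√E * √G * √γ) := by
    refine part NR C h hC hF x M E G γ h0 hE hG hγ S2 (fun z => (z.1, z.1 - z.2)) ?_ _ ?_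
    · intro a b hab
      simp only [Prod.mk.injEq] at hab
      obtain ⟨h1, h2⟩ := hab
      rw [h1] at h2
      exact Prod.ext h1 (sub_right_injective h2)
    intro z hz
    rw [hS2, Finset.mem_filter, Finset.mem_filter] at hz
    obtain ⟨⟨hz, -⟩, ha, hb⟩ := hz
    obtain ⟨hm1, hm2, hm3⟩ := hS z hz
    obtain ⟨q1, q2, q3⟩ := hpos z hz
    have hmx : mx z ≤ 2 * kn z.1 := by
      unfold mx
      refine max_le (by linarith) (max_le ?_ (by linarith))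
      linarith [htri2 z]
    refine ⟨⟨?_, one_le_kn q3, ha, ?_, ?_⟩, ?_⟩
    · show M / 2 ≤ kn z.1
      linarith
    · show kn (z.1 - z.2) ≤ kn (z.1 - (z.1 - z.2))
      rw [sub_sub_cancel]
      exact hb
    · show |g z.1 - g (z.1 - z.2) - g (z.1 - (z.1 - z.2))| ≤ 8 * kn z.1 ^ 3
      rw [sub_sub_cancel]
      have h1 : g z.1 - g (z.1 - z.2) - g z.2 = om g z := by
        unfold om
        ring
      rw [h1]
      exact hm3.trans (mul_cube (mx_nonneg z) hmx)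
    · show mn z * (x z.1 * x z.2 * x (z.1 - z.2)) ≤
        kn (z.1 - z.2) * (x z.1 * x (z.1 - z.2) * x (z.1 - (z.1 - z.2)))
      rw [sub_sub_cancel, mul_right_comm (x z.1) (x (z.1 - z.2)) (x z.2)]
      exact mul_le_mul_of_nonneg_right (hmn3 z) (hxxx z)
  have p3 : ∑ z ∈ S3, mn z * (x z.1 * x z.2 * x (z.1 - z.2)) ≤ 8 * C * (√E * √G * √γ) := by
    refine part NR C h hC hF x M E G γ h0 hE hG hγ S3 (fun z => (z.2, z.1)) ?_ _ ?_
    · intro a b hab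
      simp only [Prod.mk.injEq] at hab
      exact Prod.ext hab.2 hab.1
    intro z hz
    rw [hS3, Finset.mem_filter, Finset.mem_filter] at hz
    obtain ⟨⟨hz, hn1⟩, hn2⟩ := hz
    obtain ⟨hm1, hm2, hm3⟩ := hS z hz
    obtain ⟨q1, q2, q3⟩ := hpos z hz
    have ha : kn z.1 ≤ kn z.2 := by
      by_contra hcon
      rw [not_le] at hcon
      rcases le_total (kn z.2) (kn (z.1 - z.2)) with h1 | h1
      · exact hn1 ⟨hcon.le, h1⟩
      · exact hn2 ⟨h1.trans hcon.le, h1⟩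
    have hb : kn z.1 ≤ kn (z.1 - z.2) := by
      by_contra hcon
      rw [not_le] at hcon
      rcases le_total (kn z.2) (kn (z.1 - z.2)) with h1 | h1
      · exact hn1 ⟨(h1.trans hcon.le), h1⟩
      · exact hn2 ⟨hcon.le, h1⟩
    have hmx : mx z ≤ 2 * kn z.2 := by
      unfold mx
      refine max_le (by linarith) (max_le (by linarith) ?_)
      linarith [htri z]
    have hq : z.2 - z.1 = -(z.1 - z.2) := (neg_sub _ _).symm
    refine ⟨⟨?_, one_le_kn q1, ha, ?_, ?_⟩, ?_⟩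
    · show M / 2 ≤ kn z.2
      linarith
    · show kn z.1 ≤ kn (z.2 - z.1)
      rw [hq, kn_neg]
      exact hb
    · show |g z.2 - g z.1 - g (z.2 - z.1)| ≤ 8 * kn z.2 ^ 3
      have h1 : g z.2 - g z.1 - g (z.2 - z.1) = - om g z := by
        unfold om
        rw [hq, hg]
        ring
      rw [h1, abs_neg]
      exact hm3.trans (mul_cube (mx_nonneg z) hmx)
    · show mn z * (x z.1 * x z.2 * x (z.1 - z.2)) ≤ kn z.1 * (x z.2 * x z.1 * x (z.2 - z.1))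
      rw [hq, hx, mul_comm (x z.2) (x z.1)]
      exact mul_le_mul_of_nonneg_right (hmn1 z) (hxxx z)
  rw [hsum]
  have hCk : 0 ≤ C * (√E * √G * √γ) := mul_nonneg (by linarith) hkey
  have e1 : 8 * C * (√E * √G * √γ) = 8 * (C * (√E * √G * √γ)) := by ring
  have e2 : 100 * C * (√E * √G * √γ) = 100 * (C * (√E * √G * √γ)) := by ring
  rw [e1] at p1 p2 p3
  rw [e2]
  linarith

end Pool.Agent.H303.DEE.F

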