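import Pool.Agent.H303.DEE.Stm5

/-!
A sum over the related frequencies (H6a, by helper271 for helper303).
-/

set_option autoImplicit false

namespace Pool.Agent.H303.DEE.F

namespace XH6a

theorem kn_nonneg (k : K) : 0 ≤ kn k := Real.sqrt_nonneg _

theorem kn_zero : kn 0 = 0 := by
  unfold kn
  simp

theorem shells {NR : K → K → Prop} {C : ℝ} (hF : Few NR C) {L : K} (hL : L ≠ 0) :
    ∀ (J : ℕ) (F : Finset K), (∀ m ∈ F, 1 ≤ kn m ∧ kn m < 2 ^ J ∧ NR L m) →
      ∑ m ∈ F, (kn m)⁻¹ ≤ 4 * C * (2 ^ J - 1) := by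
  classical
  intro J
  induction J with
  | zero =>
    intro F h
    have hE : F = ∅ := by
      rw [Finset.eq_empty_iff_forall_notMem]
      intro m hm
      obtain ⟨h1, h2, -⟩ := h m hm
      rw [pow_zero] at h2
      exact absurd h1 (not_le.2 h2)
    rw [hE, Finset.sum_empty, pow_zero, sub_self, mul_zero]
  | succ J ih =>
    intro F h
    rw [← Finset.sum_filter_add_sum_filter_not F (fun m => kn m < 2 ^ J)]
    have h1 : ∑ m ∈ F.filter (fun m => kn m < 2 ^ J), (kn m)⁻¹ ≤ 4 * C * (2 ^ J - 1) := by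
      refine ih _ fun m hm => ?_
      rw [Finset.mem_filter] at hm
      exact ⟨(h m hm.1).1, hm.2, (h m hm.1).2.2⟩
    have hJ : (0 : ℝ) < 2 ^ J := by positivity
    have h2 : ∑ m ∈ F.filter (fun m => ¬ kn m < 2 ^ J), (kn m)⁻¹ ≤ 4 * C * 2 ^ J := by
      have h3 : ∑ m ∈ F.filter (fun m => ¬ kn m < 2 ^ J), (kn m)⁻¹ ≤
          ∑ m ∈ F.filter (fun m => ¬ kn m < 2 ^ J), ((2 : ℝ) ^ J)⁻¹ := by
        refine Finset.sum_le_sum fun m hm => ?_
        rw [Finset.mem_filter, not_lt] at hm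
        exact inv_anti₀ hJ hm.2
      have h4 : ((F.filter (fun m => ¬ kn m < 2 ^ J)).card : ℝ) ≤ C * (2 ^ (J + 1)) ^ 2 := by
        refine hF _ L hL _ (one_le_pow₀ (by norm_num)) fun m hm => ?_
        rw [Finset.mem_filter] at hm
        exact ⟨(h m hm.1).2.1.le, (h m hm.1).2.2⟩
      rw [Finset.sum_const, nsmul_eq_mul] at h3
      refine h3.trans ?_
      have h5 := mul_le_mul_of_nonneg_right h4 (inv_nonneg.2 hJ.le)
      refine h5.trans (le_of_eq ?_)
      rw [pow_succ]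
      field_simp
      ring
    have h6 : (2 : ℝ) ^ (J + 1) = 2 * 2 ^ J := by rw [pow_succ, mul_comm]
    rw [h6]
    linarith

end XH6a

theorem h6a : H6a := by
  intro NR C hC hF F L h
  rcases F.eq_empty_or_nonempty with hE | ⟨m₀, hm₀⟩
  · rw [hE, Finset.sum_empty]
    have := XH6a.kn_nonneg L
    positivity
  · have hL1 : 1 ≤ kn L := (h m₀ hm₀).1.trans (h m₀ hm₀).2.1
    have hL : L ≠ 0 := by
      rintro rfl
      rw [XH6a.kn_zero] at hL1
      exact absurd hL1 (by norm_num)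
    obtain ⟨J, hJ1, hJ2⟩ := exists_nat_pow_near hL1 (by norm_num : (1 : ℝ) < 2)
    have h1 := XH6a.shells hF hL (J + 1) F fun m hm =>
      ⟨(h m hm).1, (h m hm).2.1.trans_lt hJ2, (h m hm).2.2⟩
    refine h1.trans ?_
    have h2 : (2 : ℝ) ^ (J + 1) = 2 * 2 ^ J := by rw [pow_succ, mul_comm]
    rw [h2]
    nlinarith

end Pool.Agent.H303.DEE.F
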