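import Pool.Agent.H303.DEE.Stm5

/-!
The sum over near resonant pairs (project DEE-F of helper303; this file by helper675).
-/

open MeasureTheory Set Filter Topology Complex
open scoped ContDiff ENNReal

namespace Pool.Agent.H303.DEE.F

namespace FH6b

open Classical in
/-- the first factor -/
theorem first (h : H6a) {NR : K → K → Prop} {C : ℝ} (hC : 1 ≤ C) (hF : Few NR C) {x : K → ℝ}
    {M γ : ℝ}
    (hγ : ∀ F : Finset K, (∀ k ∈ F, M / 2 ≤ kn k) → ∑ k ∈ F, kn k ^ 2 * x k ^ 2 ≤ γ)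
    {S : Finset (K × K)}
    (hS : ∀ z ∈ S, M / 2 ≤ kn z.1 ∧ 1 ≤ kn z.2 ∧ kn z.2 ≤ kn z.1 ∧
      kn z.2 ≤ kn (z.1 - z.2) ∧ NR z.1 z.2) :
    ∑ z ∈ S, x z.1 ^ 2 * kn z.1 * (kn z.2)⁻¹ ≤ 8 * C * γ := by
  have h1 : ∑ z ∈ S, x z.1 ^ 2 * kn z.1 * (kn z.2)⁻¹ =
      ∑ L ∈ S.image Prod.fst, ∑ z ∈ S with z.1 = L, x z.1 ^ 2 * kn z.1 * (kn z.2)⁻¹ := by
    rw [Finset.sum_fiberwise_of_maps_to]
    intro z hz
    exact Finset.mem_image_of_mem _ hz
  rw [h1]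
  have h2 : ∀ L ∈ S.image Prod.fst, ∑ z ∈ S with z.1 = L, x z.1 ^ 2 * kn z.1 * (kn z.2)⁻¹ ≤
      8 * C * (kn L ^ 2 * x L ^ 2) := by
    intro L hL
    have h3 : ∑ z ∈ S with z.1 = L, x z.1 ^ 2 * kn z.1 * (kn z.2)⁻¹ =
        x L ^ 2 * kn L * ∑ m ∈ (S.filter fun z => z.1 = L).image Prod.snd, (kn m)⁻¹ := by
      rw [Finset.sum_image, Finset.mul_sum]
      · refine Finset.sum_congr rfl fun z hz => ?_
        rw [Finset.mem_filter] at hz
        rw [hz.2]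
      · intro a ha b hb hab
        rw [Finset.mem_coe, Finset.mem_filter] at ha hb
        exact Prod.ext (ha.2.trans hb.2.symm) hab
    rw [h3]
    have h4 : ∑ m ∈ (S.filter fun z => z.1 = L).image Prod.snd, (kn m)⁻¹ ≤ 8 * C * kn L := by
      refine h NR C hC hF _ L fun m hm => ?_
      rw [Finset.mem_image] at hm
      obtain ⟨z, hz, rfl⟩ := hm
      rw [Finset.mem_filter] at hz
      obtain ⟨b1, b2, b3, b4, b5⟩ := hS z hz.1
      rw [← hz.2]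
      exact ⟨b2, b3, b5⟩
    have h5 : 0 ≤ x L ^ 2 * kn L := mul_nonneg (sq_nonneg _) (Real.sqrt_nonneg _)
    calc x L ^ 2 * kn L * ∑ m ∈ (S.filter fun z => z.1 = L).image Prod.snd, (kn m)⁻¹
        ≤ x L ^ 2 * kn L * (8 * C * kn L) := mul_le_mul_of_nonneg_left h4 h5
      _ = 8 * C * (kn L ^ 2 * x L ^ 2) := by ring
  refine (Finset.sum_le_sum h2).trans ?_
  rw [← Finset.mul_sum]
  refine mul_le_mul_of_nonneg_left (hγ _ fun k hk => ?_) (by linarith)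
  rw [Finset.mem_image] at hk
  obtain ⟨z, hz, rfl⟩ := hk
  exact (hS z hz).1

open Classical in
/-- the second factor -/
theorem second {x : K → ℝ} {E G : ℝ}
    (hE : ∀ F : Finset K, ∑ k ∈ F, x k ^ 2 ≤ E)
    (hG : ∀ F : Finset K, ∑ k ∈ F, kn k ^ 2 * x k ^ 2 ≤ G)
    (S : Finset (K × K)) :
    ∑ z ∈ S, kn z.2 ^ 2 * x z.2 ^ 2 * x (z.1 - z.2) ^ 2 ≤ G * E := by
  have hE0 : 0 ≤ E := by simpa using hE ∅
  have h1 : ∑ z ∈ S, kn z.2 ^ 2 * x z.2 ^ 2 * x (z.1 - z.2) ^ 2 =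
      ∑ w ∈ S.image (fun z => (z.2, z.1 - z.2)), kn w.1 ^ 2 * x w.1 ^ 2 * x w.2 ^ 2 := by
    rw [Finset.sum_image]
    intro a _ b _ hab
    have e1 : a.2 = b.2 := congrArg Prod.fst hab
    have e2 : a.1 - a.2 = b.1 - b.2 := congrArg Prod.snd hab
    rw [e1] at e2
    exact Prod.ext (sub_left_injective e2) e1
  rw [h1]
  have h2 : S.image (fun z => (z.2, z.1 - z.2)) ⊆
      (S.image Prod.snd) ×ˢ (S.image fun z => z.1 - z.2) := by
    intro w hw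
    rw [Finset.mem_image] at hw
    obtain ⟨z, hz, rfl⟩ := hw
    rw [Finset.mem_product]
    exact ⟨Finset.mem_image_of_mem _ hz, Finset.mem_image_of_mem _ hz⟩
  have h3 : ∑ w ∈ S.image (fun z => (z.2, z.1 - z.2)), kn w.1 ^ 2 * x w.1 ^ 2 * x w.2 ^ 2 ≤
      ∑ w ∈ (S.image Prod.snd) ×ˢ (S.image fun z => z.1 - z.2),
        kn w.1 ^ 2 * x w.1 ^ 2 * x w.2 ^ 2 :=
    Finset.sum_le_sum_of_subset_of_nonneg h2 fun w _ _ => by positivity
  refine h3.trans ?_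
  rw [Finset.sum_product]
  have h4 : ∀ a ∈ S.image Prod.snd, ∑ b ∈ S.image (fun z => z.1 - z.2),
      kn a ^ 2 * x a ^ 2 * x b ^ 2 ≤ kn a ^ 2 * x a ^ 2 * E := by
    intro a _
    rw [← Finset.mul_sum]
    exact mul_le_mul_of_nonneg_left (hE _) (by positivity)
  refine (Finset.sum_le_sum h4).trans ?_
  rw [← Finset.sum_mul]
  exact mul_le_mul_of_nonneg_right (hG _) hE0

end FH6b

theorem h6b (h : H6a) : H6b := by
  intro NR C hC hF x M E G γ hx hE hG hγ S hS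
  have hE0 : 0 ≤ E := by simpa using hE ∅
  have hG0 : 0 ≤ G := by simpa using hG ∅
  have hγ0 : 0 ≤ γ := by simpa using hγ ∅ (by simp)
  have h1 : ∀ z ∈ S, kn z.2 * (x z.1 * x z.2 * x (z.1 - z.2)) =
      (x z.1 * √(kn z.1) / √(kn z.2)) *
        (kn z.2 * √(kn z.2) / √(kn z.1) * x z.2 * x (z.1 - z.2)) := by
    intro z hz
    obtain ⟨b1, b2, b3, b4, b5⟩ := hS z hz
    have p2 : √(kn z.2) ≠ 0 := (Real.sqrt_pos.2 (by linarith)).ne'
    have p1 : √(kn z.1) ≠ 0 := (Real.sqrt_pos.2 (by linarith)).ne'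
    field_simp
  rw [Finset.sum_congr rfl h1]
  refine (Real.sum_mul_le_sqrt_mul_sqrt S _ _).trans ?_
  have h2 : ∑ z ∈ S, (x z.1 * √(kn z.1) / √(kn z.2)) ^ 2 ≤ 8 * C * γ := by
    refine le_trans (le_of_eq ?_) (FH6b.first h hC hF hγ hS)
    refine Finset.sum_congr rfl fun z hz => ?_
    obtain ⟨b1, b2, b3, b4, b5⟩ := hS z hz
    rw [div_pow, mul_pow, Real.sq_sqrt (by linarith), Real.sq_sqrt (by linarith), div_eq_mul_inv]
  have h3 : ∑ z ∈ S, (kn z.2 * √(kn z.2) / √(kn z.1) * x z.2 * x (z.1 - z.2)) ^ 2 ≤ G * E := by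
    refine le_trans (Finset.sum_le_sum fun z hz => ?_) (FH6b.second hE hG S)
    obtain ⟨b1, b2, b3, b4, b5⟩ := hS z hz
    rw [mul_pow, mul_pow, div_pow, mul_pow, Real.sq_sqrt (by linarith),
      Real.sq_sqrt (by linarith)]
    refine mul_le_mul_of_nonneg_right (mul_le_mul_of_nonneg_right ?_ (sq_nonneg _)) (sq_nonneg _)
    rw [div_le_iff₀ (by linarith)]
    exact mul_le_mul_of_nonneg_left b3 (sq_nonneg _)
  have h4 : √(8 * C * γ) = √(8 * C) * √γ := Real.sqrt_mul (by linarith) _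
  have h5 : √(G * E) = √G * √E := Real.sqrt_mul hG0 _
  have h6 : √(8 * C) ≤ 8 * C := by
    rw [Real.sqrt_le_left (by linarith)]
    nlinarith
  calc √(∑ z ∈ S, (x z.1 * √(kn z.1) / √(kn z.2)) ^ 2) *
        √(∑ z ∈ S, (kn z.2 * √(kn z.2) / √(kn z.1) * x z.2 * x (z.1 - z.2)) ^ 2)
      ≤ √(8 * C * γ) * √(G * E) :=
        mul_le_mul (Real.sqrt_le_sqrt h2) (Real.sqrt_le_sqrt h3) (Real.sqrt_nonneg _)
          (Real.sqrt_nonneg _)
    _ = √(8 * C) * (√E * √G * √γ) := by rw [h4, h5]; ring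
    _ ≤ 8 * C * (√E * √G * √γ) :=
        mul_le_mul_of_nonneg_right h6 (by positivity)

end Pool.Agent.H303.DEE.F
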