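import Pool.Agent.H303.DEE.Stm5

/-!
The boundary terms (statement H7 of `Stm5`).
-/

set_option autoImplicit false

namespace Pool.Agent.H303.DEE.F

namespace FH7

theorem kn_nonneg (k : K) : 0 ≤ kn k := Real.sqrt_nonneg _

theorem abs_le_kn (k : K) (j : Fin 3) : |(k j : ℝ)| ≤ kn k := by
  unfold kn
  apply Real.abs_le_sqrt
  exact Finset.single_le_sum (f := fun j => ((k j : ℝ)) ^ 2) (fun i _ => sq_nonneg _)
    (Finset.mem_univ j)

theorem one_le_kn {k : K} (hk : 0 < kn k) : 1 ≤ kn k := by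
  by_contra hlt
  push Not at hlt
  have h0 : ∀ j, k j = 0 := by
    intro j
    have h1 := lt_of_le_of_lt (abs_le_kn k j) hlt
    have h2 : |k j| < 1 := by exact_mod_cast h1
    exact Int.abs_lt_one_iff.1 h2
  have h3 : kn k = 0 := by
    unfold kn
    simp [h0]
  linarith

/-- the one-dimensional weights -/
noncomputable def hw (n : ℤ) : ℝ := |(n : ℝ)| ^ (-(7 / 6) : ℝ) + if n = 0 then 1 else 0

theorem hw_nonneg (n : ℤ) : 0 ≤ hw n := by
  unfold hw
  apply add_nonneg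
  · exact Real.rpow_nonneg (abs_nonneg _) _
  · split_ifs <;> norm_num

theorem summable_hw : Summable hw := by
  apply Summable.add
  · exact Real.summable_abs_int_rpow (by norm_num)
  · apply summable_of_ne_finset_zero (s := {0})
    intro b hb
    rw [Finset.mem_singleton] at hb
    simp [hb]

theorem rpow_le_hw {k : K} (hk : 1 ≤ kn k) (j : Fin 3) : kn k ^ (-(7 / 6) : ℝ) ≤ hw (k j) := by
  unfold hw
  by_cases h0 : k j = 0
  · rw [h0, if_pos rfl, Int.cast_zero, abs_zero, Real.zero_rpow (by norm_num), zero_add]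
    exact Real.rpow_le_one_of_one_le_of_nonpos hk (by norm_num)
  · rw [if_neg h0, add_zero]
    apply Real.rpow_le_rpow_of_nonpos _ (abs_le_kn k j) (by norm_num)
    exact abs_pos.2 (Int.cast_ne_zero.2 h0)

theorem sum_rpow (P : Finset K) (hP : ∀ p ∈ P, 1 ≤ kn p) :
    ∑ p ∈ P, (kn p ^ (-(7 / 4) : ℝ)) ^ 2 ≤ (∑' n, hw n) ^ 3 := by
  classical
  calc ∑ p ∈ P, (kn p ^ (-(7 / 4) : ℝ)) ^ 2 ≤ ∑ p ∈ P, ∏ j, hw (p j) := by
        apply Finset.sum_le_sum
        intro p hp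
        have h1 : (kn p ^ (-(7 / 4) : ℝ)) ^ 2 = ∏ _j : Fin 3, kn p ^ (-(7 / 6) : ℝ) := by
          rw [Finset.prod_const, Finset.card_univ, Fintype.card_fin, ← Real.rpow_natCast,
            ← Real.rpow_natCast, ← Real.rpow_mul (kn_nonneg p), ← Real.rpow_mul (kn_nonneg p)]
          norm_num
        rw [h1]
        exact Finset.prod_le_prod (fun j _ => Real.rpow_nonneg (kn_nonneg p) _)
          (fun j _ => rpow_le_hw (hP p hp) j)
    _ ≤ ∑ p ∈ Fintype.piFinset (fun j => P.image (fun p => p j)), ∏ j, hw (p j) := by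
        apply Finset.sum_le_sum_of_subset_of_nonneg
        · intro p hp
          rw [Fintype.mem_piFinset]
          intro j
          exact Finset.mem_image_of_mem _ hp
        · intro p _ _
          exact Finset.prod_nonneg (fun j _ => hw_nonneg _)
    _ = ∏ j, ∑ n ∈ P.image (fun p => p j), hw n := (Finset.prod_univ_sum _ _).symm
    _ ≤ ∏ _j : Fin 3, ∑' n, hw n :=
        Finset.prod_le_prod (fun j _ => Finset.sum_nonneg (fun n _ => hw_nonneg n))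
          (fun j _ => summable_hw.sum_le_tsum _ (fun n _ => hw_nonneg n))
    _ = (∑' n, hw n) ^ 3 := by simp

theorem term_le {M : ℝ} (hM : 1 ≤ M) (z : K × K) (h1 : M ≤ mx z) (h2 : 0 < mn z) :
    mn z / mx z ^ 3 ≤ M ^ (-(1 / 4) : ℝ) * kn z.2 ^ (-(7 / 4) : ℝ) ∧ 1 ≤ kn z.2 := by
  have ha : mn z ≤ kn z.2 := (min_le_right _ _).trans (min_le_left _ _)
  have hb : kn z.2 ≤ mx z := (le_max_left _ _).trans (le_max_right _ _)
  have hp : 1 ≤ kn z.2 := one_le_kn (lt_of_lt_of_le h2 ha)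
  have hm : 0 < mx z := by linarith
  refine ⟨?_, hp⟩
  have h3 : mn z / mx z ^ 3 ≤ (mx z ^ 2)⁻¹ := by
    rw [div_le_iff₀ (by positivity)]
    have h4 : (mx z ^ 2)⁻¹ * mx z ^ 3 = mx z := by
      field_simp
    rw [h4]
    linarith
  have h5 : (mx z ^ 2)⁻¹ = mx z ^ (-(1 / 4) : ℝ) * mx z ^ (-(7 / 4) : ℝ) := by
    rw [← Real.rpow_add hm, ← Real.rpow_natCast, ← Real.rpow_neg hm.le]
    norm_num
  rw [h5] at h3
  refine h3.trans ?_
  apply mul_le_mul
  · exact Real.rpow_le_rpow_of_nonpos (by linarith) h1 (by norm_num)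
  · exact Real.rpow_le_rpow_of_nonpos (by linarith) hb (by norm_num)
  · exact Real.rpow_nonneg hm.le _
  · exact Real.rpow_nonneg (by linarith) _

theorem fibre_le (x : K → ℝ) (E : ℝ) (hE : ∀ F : Finset K, ∑ k ∈ F, x k ^ 2 ≤ E) (p : K)
    (T : Finset (K × K)) (hT : ∀ z ∈ T, z.2 = p) :
    ∑ z ∈ T, x z.1 * x (z.1 - z.2) ≤ E := by
  classical
  have h1 : ∑ z ∈ T, x z.1 ^ 2 ≤ E := by
    rw [← Finset.sum_image (f := fun k => x k ^ 2) (s := T) (g := fun z => z.1)]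
    · exact hE _
    · intro z hz w hw h
      exact Prod.ext h ((hT z hz).trans (hT w hw).symm)
  have h2 : ∑ z ∈ T, x (z.1 - z.2) ^ 2 ≤ E := by
    rw [← Finset.sum_image (f := fun k => x k ^ 2) (s := T) (g := fun z => z.1 - z.2)]
    · exact hE _
    · intro z hz w hw h
      have h3 : z.2 = w.2 := (hT z hz).trans (hT w hw).symm
      have h4 : z.1 - z.2 = w.1 - w.2 := h
      rw [h3] at h4
      exact Prod.ext (sub_left_injective h4) h3
  have h3 : ∀ z ∈ T, x z.1 * x (z.1 - z.2) ≤ (1 / 2) * x z.1 ^ 2 + (1 / 2) * x (z.1 - z.2) ^ 2 := by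
    intro z _
    nlinarith [sq_nonneg (x z.1 - x (z.1 - z.2))]
  have h4 := Finset.sum_le_sum h3
  rw [Finset.sum_add_distrib, ← Finset.mul_sum, ← Finset.mul_sum] at h4
  linarith

end FH7

open FH7 in
theorem h7 : H7 := by
  classical
  refine ⟨√((∑' n, hw n) ^ 3), Real.sqrt_nonneg _, ?_⟩
  intro x M E hM hx hE S hS
  have hE0 : 0 ≤ E := by simpa using hE ∅
  have hM0 : 0 ≤ M ^ (-(1 / 4) : ℝ) := Real.rpow_nonneg (by linarith) _
  have h1 : ∀ z ∈ S, mn z / mx z ^ 3 * (x z.1 * x z.2 * x (z.1 - z.2)) ≤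
      M ^ (-(1 / 4) : ℝ) * (kn z.2 ^ (-(7 / 4) : ℝ) * x z.2 * (x z.1 * x (z.1 - z.2))) := by
    intro z hz
    have h2 := (term_le hM z (hS z hz).1 (hS z hz).2).1
    have h3 : 0 ≤ x z.1 * x z.2 * x (z.1 - z.2) := mul_nonneg (mul_nonneg (hx _) (hx _)) (hx _)
    refine (mul_le_mul_of_nonneg_right h2 h3).trans (le_of_eq ?_)
    ring
  have hP : ∀ p ∈ S.image Prod.snd, 1 ≤ kn p := by
    intro p hp
    obtain ⟨z, hz, rfl⟩ := Finset.mem_image.1 hp
    exact (term_le hM z (hS z hz).1 (hS z hz).2).2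
  have h2 : ∑ z ∈ S, kn z.2 ^ (-(7 / 4) : ℝ) * x z.2 * (x z.1 * x (z.1 - z.2)) ≤
      ∑ p ∈ S.image Prod.snd, kn p ^ (-(7 / 4) : ℝ) * x p * E := by
    rw [← Finset.sum_fiberwise_of_maps_to (s := S) (t := S.image Prod.snd) (g := Prod.snd)
      (fun z hz => Finset.mem_image_of_mem _ hz)]
    apply Finset.sum_le_sum
    intro p hp
    have h3 : ∑ z ∈ S with z.2 = p, kn z.2 ^ (-(7 / 4) : ℝ) * x z.2 * (x z.1 * x (z.1 - z.2)) =
        kn p ^ (-(7 / 4) : ℝ) * x p * ∑ z ∈ S with z.2 = p, (x z.1 * x (z.1 - z.2)) := by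
      rw [Finset.mul_sum]
      apply Finset.sum_congr rfl
      intro z hz
      rw [(Finset.mem_filter.1 hz).2]
    rw [h3]
    apply mul_le_mul_of_nonneg_left
    · exact fibre_le x E hE p _ (fun z hz => (Finset.mem_filter.1 hz).2)
    · exact mul_nonneg (Real.rpow_nonneg (kn_nonneg p) _) (hx p)
  have h3 : ∑ p ∈ S.image Prod.snd, kn p ^ (-(7 / 4) : ℝ) * x p ≤
      √((∑' n, hw n) ^ 3) * √E := by
    refine (Real.sum_mul_le_sqrt_mul_sqrt _ _ _).trans ?_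
    exact mul_le_mul (Real.sqrt_le_sqrt (sum_rpow _ hP)) (Real.sqrt_le_sqrt (hE _))
      (Real.sqrt_nonneg _) (Real.sqrt_nonneg _)
  calc ∑ z ∈ S, mn z / mx z ^ 3 * (x z.1 * x z.2 * x (z.1 - z.2)) ≤
      ∑ z ∈ S, M ^ (-(1 / 4) : ℝ) *
        (kn z.2 ^ (-(7 / 4) : ℝ) * x z.2 * (x z.1 * x (z.1 - z.2))) := Finset.sum_le_sum h1
    _ = M ^ (-(1 / 4) : ℝ) *
        ∑ z ∈ S, (kn z.2 ^ (-(7 / 4) : ℝ) * x z.2 * (x z.1 * x (z.1 - z.2))) := by
        rw [Finset.mul_sum]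
    _ ≤ M ^ (-(1 / 4) : ℝ) * (∑ p ∈ S.image Prod.snd, kn p ^ (-(7 / 4) : ℝ) * x p * E) :=
        mul_le_mul_of_nonneg_left h2 hM0
    _ = M ^ (-(1 / 4) : ℝ) * ((∑ p ∈ S.image Prod.snd, kn p ^ (-(7 / 4) : ℝ) * x p) * E) := by
        rw [Finset.sum_mul]
    _ ≤ M ^ (-(1 / 4) : ℝ) * ((√((∑' n, hw n) ^ 3) * √E) * E) :=
        mul_le_mul_of_nonneg_left (mul_le_mul_of_nonneg_right h3 hE0) hM0
    _ = √((∑' n, hw n) ^ 3) * (E * √E) * M ^ (-(1 / 4) : ℝ) := by ring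

end Pool.Agent.H303.DEE.F
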