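import Pool.Agent.H303.DEE.Stm5

/-!
Project DEE-F: the quartic terms (`H8`), from the weighted Hilbert inequality `H8a`.
-/

set_option autoImplicit false

open MeasureTheory Set Filter Topology Complex
open scoped ContDiff ENNReal

namespace Pool.Agent.H303.DEE.F

namespace H8W

theorem kn_eq (k : K) : kn k = ‖(WithLp.toLp 2 (fun j => (k j : ℝ)) : EuclideanSpace ℝ (Fin 3))‖ := by
  rw [EuclideanSpace.norm_eq]
  unfold kn
  congr 1
  refine Finset.sum_congr rfl (fun j _ => ?_)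
  simp

theorem kn_nonneg (k : K) : 0 ≤ kn k := Real.sqrt_nonneg _

theorem kn_sub (a b : K) : kn (a - b) ≤ kn a + kn b := by
  rw [kn_eq, kn_eq, kn_eq]
  have h : (WithLp.toLp 2 (fun j => ((a - b) j : ℝ)) : EuclideanSpace ℝ (Fin 3))
      = WithLp.toLp 2 (fun j => (a j : ℝ)) - WithLp.toLp 2 (fun j => (b j : ℝ)) := by
    ext j
    simp
  rw [h]
  exact norm_sub_le _ _

theorem kn_add (a b : K) : kn (a + b) ≤ kn a + kn b := by
  rw [kn_eq, kn_eq, kn_eq]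
  have h : (WithLp.toLp 2 (fun j => ((a + b) j : ℝ)) : EuclideanSpace ℝ (Fin 3))
      = WithLp.toLp 2 (fun j => (a j : ℝ)) + WithLp.toLp 2 (fun j => (b j : ℝ)) := by
    ext j
    simp
  rw [h]
  exact norm_add_le _ _

theorem kn_one (k : K) (h : 0 < kn k) : 1 ≤ kn k := by
  unfold kn at h ⊢
  rw [Real.sqrt_pos] at h
  rw [Real.one_le_sqrt]
  have e : (∑ j, (k j : ℝ) ^ 2) = ((∑ j, (k j) ^ 2 : ℤ) : ℝ) := by
    push_cast
    rfl
  rw [e] at h ⊢
  have h1 : (0 : ℤ) < ∑ j, (k j) ^ 2 := by exact_mod_cast h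
  exact_mod_cast h1

/-- one part of one sum -/
theorem part {x : K → ℝ} {M B : ℝ}
    (hB : ∀ S : Finset (K × K), (∀ z ∈ S, M / 2 ≤ kn z.1 ∧ 1 ≤ kn z.2 ∧ kn z.2 ≤ kn z.1) →
      ∑ z ∈ S, (kn z.1)⁻¹ * (x z.1 * x z.2) ≤ B)
    (S : Finset (K × K)) (f h : K × K → K) (hinj : Function.Injective (fun z => (f z, h z)))
    (hS : ∀ z ∈ S, M / 2 ≤ kn (f z) ∧ 1 ≤ kn (h z) ∧ kn (h z) ≤ kn (f z)) :
    ∑ z ∈ S, (kn (f z))⁻¹ * (x (f z) * x (h z)) ≤ B := by
  classical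
  have h1 := hB (S.image (fun z => (f z, h z))) (by
    intro w hw
    obtain ⟨z, hz, rfl⟩ := Finset.mem_image.1 hw
    exact hS z hz)
  rw [Finset.sum_image (fun a _ b _ hab => hinj hab)] at h1
  exact h1

/-- one sum -/
theorem two {x : K → ℝ} {M B : ℝ} (hx : ∀ k, 0 ≤ x k)
    (hB : ∀ S : Finset (K × K), (∀ z ∈ S, M / 2 ≤ kn z.1 ∧ 1 ≤ kn z.2 ∧ kn z.2 ≤ kn z.1) →
      ∑ z ∈ S, (kn z.1)⁻¹ * (x z.1 * x z.2) ≤ B)
    (S : Finset (K × K)) (f h : K × K → K) (hinj : Function.Injective (fun z => (f z, h z)))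
    (w : K × K → ℝ) (hS : ∀ z ∈ S, 1 ≤ kn (f z) ∧ 1 ≤ kn (h z) ∧ M ≤ kn (f z) + kn (h z) ∨
      1 ≤ kn (f z) ∧ 1 ≤ kn (h z) ∧ (M ≤ kn (f z) ∨ M ≤ kn (h z)))
    (hw : ∀ z ∈ S, w z ≤ (kn (f z))⁻¹ ∧ w z ≤ (kn (h z))⁻¹) :
    ∑ z ∈ S, w z * (x (f z) * x (h z)) ≤ 2 * B := by
  classical
  have hinj' : Function.Injective (fun z => (h z, f z)) := by
    intro a b hab
    apply hinj
    have := Prod.ext_iff.1 hab
    exact Prod.ext this.2 this.1
  rw [← Finset.sum_filter_add_sum_filter_not S (fun z => kn (h z) ≤ kn (f z))]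
  have p1 : ∑ z ∈ S.filter (fun z => kn (h z) ≤ kn (f z)), w z * (x (f z) * x (h z)) ≤ B := by
    refine le_trans (Finset.sum_le_sum (fun z hz => ?_))
      (part hB (S.filter (fun z => kn (h z) ≤ kn (f z))) f h hinj ?_)
    · have hz' := (Finset.mem_filter.1 hz).1
      exact mul_le_mul_of_nonneg_right (hw z hz').1 (mul_nonneg (hx _) (hx _))
    · intro z hz
      have hz1 := (Finset.mem_filter.1 hz).1
      have hz2 := (Finset.mem_filter.1 hz).2
      have n1 := kn_nonneg (f z)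
      have n2 := kn_nonneg (h z)
      rcases hS z hz1 with ⟨a1, a2, a3⟩ | ⟨a1, a2, a3 | a3⟩
      · exact ⟨by linarith, a2, hz2⟩
      · exact ⟨by linarith, a2, hz2⟩
      · exact ⟨by linarith, a2, hz2⟩
  have p2 : ∑ z ∈ S.filter (fun z => ¬ kn (h z) ≤ kn (f z)), w z * (x (f z) * x (h z)) ≤ B := by
    refine le_trans (Finset.sum_le_sum (fun z hz => ?_))
      (part hB (S.filter (fun z => ¬ kn (h z) ≤ kn (f z))) h f hinj' ?_)
    · have hz' := (Finset.mem_filter.1 hz).1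
      rw [mul_comm (x (h z)) (x (f z))]
      exact mul_le_mul_of_nonneg_right (hw z hz').2 (mul_nonneg (hx _) (hx _))
    · intro z hz
      have hz1 := (Finset.mem_filter.1 hz).1
      have hz2 := (Finset.mem_filter.1 hz).2
      push Not at hz2
      have n1 := kn_nonneg (f z)
      have n2 := kn_nonneg (h z)
      rcases hS z hz1 with ⟨a1, a2, a3⟩ | ⟨a1, a2, a3 | a3⟩
      · exact ⟨by linarith, a1, hz2.le⟩
      · exact ⟨by linarith, a1, hz2.le⟩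
      · exact ⟨by linarith, a1, hz2.le⟩
  linarith

/-- the weight -/
theorem wgt {m X a : ℝ} (hm0 : 0 ≤ m) (hmX : m ≤ X) (hX : 0 < X) (ha : a ≤ X) (c : ℝ)
    (hc : 0 < c) (hcX : c ≤ X) : m / X ^ 3 * a ≤ c⁻¹ := by
  have h1 : m / X ^ 3 * a ≤ X⁻¹ := by
    rw [div_mul_eq_mul_div, inv_eq_one_div, div_le_div_iff₀ (pow_pos hX 3) hX]
    have : m * a ≤ X * X := by
      calc m * a ≤ m * X := mul_le_mul_of_nonneg_left ha hm0
        _ ≤ X * X := mul_le_mul_of_nonneg_right hmX hX.le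
    nlinarith
  exact h1.trans (inv_anti₀ hc hcX)

end H8W

open H8W in
theorem h8 (h : H8a) : H8 := by
  obtain ⟨C, hC, hmain⟩ := h
  refine ⟨6 * C, by positivity, ?_⟩
  intro x M G γ hM hx hG hγ S hS
  have hB := hmain x M G γ hx hG hγ
  have i1 : Function.Injective (fun z : K × K => (z.1 - z.2, z.1)) := by
    intro a b hab
    have h1 := (Prod.ext_iff.1 hab).1
    have h2 := (Prod.ext_iff.1 hab).2
    simp only at h1 h2
    refine Prod.ext h2 ?_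
    rw [h2] at h1
    exact sub_right_injective h1
  have i2 : Function.Injective (fun z : K × K => (z.2, z.1)) := by
    intro a b hab
    exact Prod.ext (Prod.ext_iff.1 hab).2 (Prod.ext_iff.1 hab).1
  have i3 : Function.Injective (fun z : K × K => (z.2, z.1 - z.2)) := by
    intro a b hab
    have h1 := (Prod.ext_iff.1 hab).1
    have h2 := (Prod.ext_iff.1 hab).2
    simp only at h1 h2
    refine Prod.ext ?_ h1
    rw [h1] at h2
    exact sub_left_injective h2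
  have key : ∀ z ∈ S, (1 ≤ kn z.1 ∧ 1 ≤ kn z.2 ∧ 1 ≤ kn (z.1 - z.2)) ∧ 0 ≤ mn z ∧ mn z ≤ mx z ∧
      0 < mx z ∧ kn z.1 ≤ mx z ∧ kn z.2 ≤ mx z ∧ kn (z.1 - z.2) ≤ mx z ∧
      (M ≤ kn z.1 ∨ M ≤ kn z.2 ∨ M ≤ kn (z.1 - z.2)) := by
    intro z hz
    obtain ⟨h1, h2⟩ := hS z hz
    have m1 : mn z ≤ kn z.1 := min_le_left _ _
    have m2 : mn z ≤ kn z.2 := (min_le_right _ _).trans (min_le_left _ _)
    have m3 : mn z ≤ kn (z.1 - z.2) := (min_le_right _ _).trans (min_le_right _ _)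
    have x1 : kn z.1 ≤ mx z := le_max_left _ _
    have x2 : kn z.2 ≤ mx z := (le_max_left _ _).trans (le_max_right _ _)
    have x3 : kn (z.1 - z.2) ≤ mx z := (le_max_right _ _).trans (le_max_right _ _)
    refine ⟨⟨kn_one _ (lt_of_lt_of_le h2 m1), kn_one _ (lt_of_lt_of_le h2 m2),
      kn_one _ (lt_of_lt_of_le h2 m3)⟩, h2.le, m1.trans x1, by linarith, x1, x2, x3, ?_⟩
    unfold mx at h1
    rw [le_max_iff, le_max_iff] at h1
    exact h1
  have t1 : ∑ z ∈ S, (mn z / mx z ^ 3 * kn z.2) * (x (z.1 - z.2) * x z.1) ≤ 2 * (C * (√G * √γ)) := by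
    refine two hx hB S (fun z => z.1 - z.2) (fun z => z.1) i1
      (fun z => mn z / mx z ^ 3 * kn z.2) ?_ ?_
    · intro z hz
      obtain ⟨⟨a1, a2, a3⟩, -, -, -, -, -, -, hm⟩ := key z hz
      rcases hm with hm | hm | hm
      · exact Or.inr ⟨a3, a1, Or.inr hm⟩
      · left
        refine ⟨a3, a1, ?_⟩
        have e : z.1 - (z.1 - z.2) = z.2 := sub_sub_cancel _ _
        have := kn_sub z.1 (z.1 - z.2)
        rw [e] at this
        linarith
      · exact Or.inr ⟨a3, a1, Or.inl hm⟩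
    · intro z hz
      obtain ⟨⟨a1, a2, a3⟩, b0, b1, b2, x1, x2, x3, -⟩ := key z hz
      exact ⟨wgt b0 b1 b2 x2 _ (by linarith) x3, wgt b0 b1 b2 x2 _ (by linarith) x1⟩
  have t2 : ∑ z ∈ S, (mn z / mx z ^ 3 * kn (z.1 - z.2)) * (x z.2 * x z.1)
      ≤ 2 * (C * (√G * √γ)) := by
    refine two hx hB S (fun z => z.2) (fun z => z.1) i2
      (fun z => mn z / mx z ^ 3 * kn (z.1 - z.2)) ?_ ?_
    · intro z hz
      obtain ⟨⟨a1, a2, a3⟩, -, -, -, -, -, -, hm⟩ := key z hz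
      rcases hm with hm | hm | hm
      · exact Or.inr ⟨a2, a1, Or.inr hm⟩
      · exact Or.inr ⟨a2, a1, Or.inl hm⟩
      · left
        refine ⟨a2, a1, ?_⟩
        have := kn_sub z.1 z.2
        linarith
    · intro z hz
      obtain ⟨⟨a1, a2, a3⟩, b0, b1, b2, x1, x2, x3, -⟩ := key z hz
      exact ⟨wgt b0 b1 b2 x3 _ (by linarith) x2, wgt b0 b1 b2 x3 _ (by linarith) x1⟩
  have t3 : ∑ z ∈ S, (mn z / mx z ^ 3 * kn z.1) * (x z.2 * x (z.1 - z.2))
      ≤ 2 * (C * (√G * √γ)) := by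
    refine two hx hB S (fun z => z.2) (fun z => z.1 - z.2) i3
      (fun z => mn z / mx z ^ 3 * kn z.1) ?_ ?_
    · intro z hz
      obtain ⟨⟨a1, a2, a3⟩, -, -, -, -, -, -, hm⟩ := key z hz
      rcases hm with hm | hm | hm
      · left
        refine ⟨a2, a3, ?_⟩
        have e : z.2 + (z.1 - z.2) = z.1 := add_sub_cancel _ _
        have := kn_add z.2 (z.1 - z.2)
        rw [e] at this
        linarith
      · exact Or.inr ⟨a2, a3, Or.inl hm⟩
      · exact Or.inr ⟨a2, a3, Or.inr hm⟩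
    · intro z hz
      obtain ⟨⟨a1, a2, a3⟩, b0, b1, b2, x1, x2, x3, -⟩ := key z hz
      exact ⟨wgt b0 b1 b2 x1 _ (by linarith) x2, wgt b0 b1 b2 x1 _ (by linarith) x3⟩
  have e : ∑ z ∈ S, mn z / mx z ^ 3 * (kn z.2 * (x (z.1 - z.2) * x z.1)
      + kn (z.1 - z.2) * (x z.2 * x z.1) + kn z.1 * (x z.2 * x (z.1 - z.2)))
      = ∑ z ∈ S, (mn z / mx z ^ 3 * kn z.2) * (x (z.1 - z.2) * x z.1)
        + ∑ z ∈ S, (mn z / mx z ^ 3 * kn (z.1 - z.2)) * (x z.2 * x z.1)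
        + ∑ z ∈ S, (mn z / mx z ^ 3 * kn z.1) * (x z.2 * x (z.1 - z.2)) := by
    rw [← Finset.sum_add_distrib, ← Finset.sum_add_distrib]
    refine Finset.sum_congr rfl (fun z _ => ?_)
    ring
  rw [e]
  linarith

end Pool.Agent.H303.DEE.F
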