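import Pool.Agent.H303.DEE.Stm5

/-!
# A weighted Hilbert inequality (H8a)

Schur test. The frequencies are arranged in dyadic shells of the maximum norm.
-/

set_option autoImplicit false

open MeasureTheory Set Filter Topology Complex
open scoped ContDiff ENNReal

namespace Pool.Agent.H303.DEE.F

namespace FH8a

/-- the maximum norm -/
def sn (k : K) : ℕ := Finset.univ.sup fun j => (k j).natAbs

/-- the dyadic index -/
def jn (k : K) : ℕ := Nat.log 2 (sn k)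

theorem le_sn (k : K) (j : Fin 3) : (k j).natAbs ≤ sn k :=
  Finset.le_sup (f := fun j => (k j).natAbs) (Finset.mem_univ j)

theorem natAbs_sq' (a : ℤ) : ((a.natAbs : ℕ) : ℝ) ^ 2 = (a : ℝ) ^ 2 := by
  have h : ((a.natAbs : ℕ) : ℝ) = |(a : ℝ)| := by
    rw [Nat.cast_natAbs, Int.cast_abs]
  rw [h, sq_abs]

theorem sn_le (k : K) : (sn k : ℝ) ≤ kn k := by
  have h : ∀ j, ((k j).natAbs : ℝ) ≤ kn k := by
    intro j
    unfold kn
    refine Real.le_sqrt_of_sq_le ?_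
    rw [natAbs_sq']
    exact Finset.single_le_sum (f := fun j => (k j : ℝ) ^ 2) (fun i _ => sq_nonneg _)
      (Finset.mem_univ j)
  obtain ⟨j, -, hj⟩ := Finset.exists_mem_eq_sup Finset.univ ⟨(0 : Fin 3), Finset.mem_univ _⟩
    (fun j => (k j).natAbs)
  unfold sn
  rw [hj]
  exact h j

theorem kn_le (k : K) : kn k ≤ 2 * sn k := by
  unfold kn
  refine Real.sqrt_le_iff.2 ⟨by positivity, ?_⟩
  have h : ∀ j, (k j : ℝ) ^ 2 ≤ (sn k : ℝ) ^ 2 := by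
    intro j
    have h2 : ((k j).natAbs : ℝ) ≤ sn k := by exact_mod_cast le_sn k j
    rw [← natAbs_sq']
    exact pow_le_pow_left₀ (Nat.cast_nonneg _) h2 2
  calc ∑ j, (k j : ℝ) ^ 2 ≤ ∑ _j : Fin 3, (sn k : ℝ) ^ 2 := Finset.sum_le_sum fun j _ => h j
    _ = 3 * (sn k : ℝ) ^ 2 := by simp
    _ ≤ (2 * sn k) ^ 2 := by nlinarith [sq_nonneg (sn k : ℝ)]

theorem sn_pos {k : K} (h : 1 ≤ kn k) : 1 ≤ sn k := by
  rcases Nat.eq_zero_or_pos (sn k) with h0 | h0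
  · have h1 := kn_le k
    rw [h0] at h1
    norm_num at h1
    linarith
  · exact h0

theorem pow_jn {k : K} (h : 1 ≤ kn k) : (2 : ℝ) ^ jn k ≤ kn k := by
  refine le_trans ?_ (sn_le k)
  have h1 : 2 ^ jn k ≤ sn k := Nat.pow_log_le_self 2 (by have := sn_pos h; omega)
  exact_mod_cast h1

theorem jn_le {b c : K} (hc : 1 ≤ kn c) (h : kn c ≤ kn b) : jn c ≤ jn b + 1 := by
  have hb : 1 ≤ kn b := hc.trans h
  have h1 : sn c ≤ sn b * 2 := by
    have h2 : (sn c : ℝ) ≤ 2 * sn b := (sn_le c).trans (h.trans (kn_le b))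
    have h3 : (sn c : ℝ) ≤ ((sn b * 2 : ℕ) : ℝ) := by
      push_cast
      linarith
    exact_mod_cast h3
  have hb0 : sn b ≠ 0 := by have := sn_pos hb; omega
  unfold jn
  refine (Nat.log_mono_right h1).trans (le_of_eq ?_)
  exact Nat.log_mul_base (by norm_num) hb0

theorem card_le (F : Finset K) (i : ℕ) (h : ∀ k ∈ F, jn k = i) : (F.card : ℝ) ≤ 125 * 8 ^ i := by
  have hsub : F ⊆ Fintype.piFinset fun _ : Fin 3 =>
      Finset.Icc (-((2 ^ (i + 1) : ℕ) : ℤ)) ((2 ^ (i + 1) : ℕ) : ℤ) := by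
    intro k hk
    rw [Fintype.mem_piFinset]
    intro j
    have h1 := le_sn k j
    have h2 : sn k < 2 ^ (i + 1) := by
      have := Nat.lt_pow_succ_log_self (b := 2) (by norm_num) (sn k)
      rw [← h k hk]
      exact this
    rw [Finset.mem_Icc]
    omega
  have hc := Finset.card_le_card hsub
  rw [Fintype.card_piFinset_const, Int.card_Icc] at hc
  have e : (((2 ^ (i + 1) : ℕ) : ℤ) + 1 - -((2 ^ (i + 1) : ℕ) : ℤ)).toNat = 4 * 2 ^ i + 1 := by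
    rw [pow_succ]
    omega
  rw [e] at hc
  have h3 : 4 * 2 ^ i + 1 ≤ 5 * 2 ^ i := by
    have : 1 ≤ 2 ^ i := Nat.one_le_two_pow
    omega
  have h4 : F.card ≤ (5 * 2 ^ i) ^ 3 := hc.trans (Nat.pow_le_pow_left h3 3)
  have h5 : (5 * 2 ^ i) ^ 3 = 125 * 8 ^ i := by
    rw [mul_pow, ← pow_mul, mul_comm i 3, pow_mul]
    norm_num
  rw [h5] at h4
  exact_mod_cast h4

theorem sum_shell (F : Finset K) (I : Finset ℕ) (φ : ℕ → ℝ) (hφ : ∀ i, 0 ≤ φ i)
    (h : ∀ k ∈ F, jn k ∈ I) : ∑ k ∈ F, φ (jn k) ≤ ∑ i ∈ I, 125 * 8 ^ i * φ i := by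
  classical
  rw [← Finset.sum_fiberwise_of_maps_to h (fun k => φ (jn k))]
  refine Finset.sum_le_sum fun i _ => ?_
  have h1 : ∑ k ∈ F with jn k = i, φ (jn k) =
      ((F.filter fun k => jn k = i).card : ℝ) * φ i := by
    rw [Finset.sum_congr rfl (g := fun _ => φ i) (fun k hk => by
      rw [(Finset.mem_filter.1 hk).2]), Finset.sum_const, nsmul_eq_mul]
  rw [h1]
  exact mul_le_mul_of_nonneg_right (card_le _ i fun k hk => (Finset.mem_filter.1 hk).2) (hφ i)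

theorem low (F : Finset K) (J : ℕ) (h : ∀ c ∈ F, jn c ≤ J + 1) :
    ∑ c ∈ F, ((1 / 8 : ℝ) ^ jn c * (3 / 2) ^ jn c) ≤ 700 * (3 / 2) ^ J := by
  refine (sum_shell F (Finset.range (J + 2)) (fun i => (1 / 8 : ℝ) ^ i * (3 / 2) ^ i)
    (fun i => by positivity) (fun c hc => Finset.mem_range.2 (by
      have := h c hc
      omega))).trans ?_
  have h1 : ∀ i ∈ Finset.range (J + 2), 125 * 8 ^ i * ((1 / 8 : ℝ) ^ i * (3 / 2) ^ i) =
      125 * (3 / 2) ^ i := by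
    intro i _
    have h2 : (8 : ℝ) ^ i * (1 / 8) ^ i = 1 := by
      rw [← mul_pow]
      norm_num
    calc 125 * 8 ^ i * ((1 / 8 : ℝ) ^ i * (3 / 2) ^ i) =
          125 * ((8 : ℝ) ^ i * (1 / 8) ^ i) * (3 / 2) ^ i := by ring
      _ = _ := by rw [h2, mul_one]
  rw [Finset.sum_congr rfl h1, ← Finset.mul_sum, geom_sum_eq (by norm_num), pow_add]
  have h3 : 0 < (3 / 2 : ℝ) ^ J := by positivity
  norm_num
  linarith

theorem high (F : Finset K) (a : ℕ) (h : ∀ b ∈ F, a ≤ jn b + 1) :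
    ∑ b ∈ F, ((1 / 16 : ℝ) ^ jn b * (3 / 2) ^ jn b) ≤ 700 * (3 / 4) ^ a := by
  refine (sum_shell F (Finset.Ico (a - 1) (F.sup jn + 1)) (fun i => (1 / 16 : ℝ) ^ i * (3 / 2) ^ i)
    (fun i => by positivity) (fun b hb => Finset.mem_Ico.2 ⟨by
      have := h b hb
      omega, Nat.lt_succ_of_le (Finset.le_sup hb)⟩)).trans ?_
  have h1 : ∀ i ∈ Finset.Ico (a - 1) (F.sup jn + 1),
      125 * 8 ^ i * ((1 / 16 : ℝ) ^ i * (3 / 2) ^ i) = 125 * (3 / 4) ^ i := by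
    intro i _
    have h2 : (8 : ℝ) ^ i * ((1 / 16) ^ i * (3 / 2) ^ i) = (3 / 4) ^ i := by
      rw [← mul_pow, ← mul_pow]
      norm_num
    rw [mul_assoc, h2]
  rw [Finset.sum_congr rfl h1, ← Finset.mul_sum]
  have h2 := geom_sum_Ico_le_of_lt_one (x := (3 / 4 : ℝ)) (by norm_num) (by norm_num)
    (m := a - 1) (n := F.sup jn + 1)
  have h3 : (3 / 4 : ℝ) ^ (a - 1) ≤ 4 / 3 * (3 / 4) ^ a := by
    rcases a with _ | a
    · norm_num
    · rw [Nat.add_sub_cancel, pow_succ]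
      linarith
  have h4 : (3 / 4 : ℝ) ^ (a - 1) / (1 - 3 / 4) = 4 * (3 / 4) ^ (a - 1) := by ring
  rw [h4] at h2
  have h5 : 0 < (3 / 4 : ℝ) ^ a := by positivity
  linarith

/-- sums over pairs -/
theorem sum_fst (S : Finset (K × K)) (p : K → ℝ) (φ : K → ℝ) (C : ℝ) (q : K → ℝ)
    (hp : ∀ b, 0 ≤ p b)
    (h : ∀ (b : K) (F : Finset K), (∀ c ∈ F, (b, c) ∈ S) → ∑ c ∈ F, φ c ≤ C * q b) :
    ∑ z ∈ S, p z.1 * φ z.2 ≤ C * ∑ b ∈ S.image Prod.fst, p b * q b := by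
  classical
  rw [← Finset.sum_fiberwise_of_maps_to (s := S) (t := S.image Prod.fst) (g := Prod.fst)
    (fun z hz => Finset.mem_image_of_mem _ hz), Finset.mul_sum]
  refine Finset.sum_le_sum fun b _ => ?_
  have h1 : ∑ z ∈ S with z.1 = b, p z.1 * φ z.2 = p b * ∑ z ∈ S with z.1 = b, φ z.2 := by
    rw [Finset.mul_sum]
    refine Finset.sum_congr rfl fun z hz => ?_
    rw [(Finset.mem_filter.1 hz).2]
  have h2 : ∑ z ∈ S with z.1 = b, φ z.2 =
      ∑ c ∈ (S.filter fun z => z.1 = b).image Prod.snd, φ c := by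
    rw [Finset.sum_image]
    intro z hz w hw hzw
    exact Prod.ext ((Finset.mem_filter.1 hz).2.trans (Finset.mem_filter.1 hw).2.symm) hzw
  rw [h1, h2]
  have h3 := h b ((S.filter fun z => z.1 = b).image Prod.snd) (by
    intro c hc
    obtain ⟨z, hz, rfl⟩ := Finset.mem_image.1 hc
    obtain ⟨hz1, hz2⟩ := Finset.mem_filter.1 hz
    rw [← hz2]
    exact hz1)
  calc p b * _ ≤ p b * (C * q b) := mul_le_mul_of_nonneg_left h3 (hp b)
    _ = _ := by ring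

theorem sum_snd (S : Finset (K × K)) (p : K → ℝ) (φ : K → ℝ) (C : ℝ) (q : K → ℝ)
    (hp : ∀ b, 0 ≤ p b)
    (h : ∀ (c : K) (F : Finset K), (∀ b ∈ F, (b, c) ∈ S) → ∑ b ∈ F, φ b ≤ C * q c) :
    ∑ z ∈ S, p z.2 * φ z.1 ≤ C * ∑ c ∈ S.image Prod.snd, p c * q c := by
  classical
  rw [← Finset.sum_fiberwise_of_maps_to (s := S) (t := S.image Prod.snd) (g := Prod.snd)
    (fun z hz => Finset.mem_image_of_mem _ hz), Finset.mul_sum]
  refine Finset.sum_le_sum fun b _ => ?_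
  have h1 : ∑ z ∈ S with z.2 = b, p z.2 * φ z.1 = p b * ∑ z ∈ S with z.2 = b, φ z.1 := by
    rw [Finset.mul_sum]
    refine Finset.sum_congr rfl fun z hz => ?_
    rw [(Finset.mem_filter.1 hz).2]
  have h2 : ∑ z ∈ S with z.2 = b, φ z.1 =
      ∑ c ∈ (S.filter fun z => z.2 = b).image Prod.fst, φ c := by
    rw [Finset.sum_image]
    intro z hz w hw hzw
    exact Prod.ext hzw ((Finset.mem_filter.1 hz).2.trans (Finset.mem_filter.1 hw).2.symm)
  rw [h1, h2]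
  have h3 := h b ((S.filter fun z => z.2 = b).image Prod.fst) (by
    intro c hc
    obtain ⟨z, hz, rfl⟩ := Finset.mem_image.1 hc
    obtain ⟨hz1, hz2⟩ := Finset.mem_filter.1 hz
    rw [← hz2]
    exact hz1)
  calc p b * _ ≤ p b * (C * q b) := mul_le_mul_of_nonneg_left h3 (hp b)
    _ = _ := by ring

end FH8a

open FH8a in
theorem h8a : H8a := by
  classical
  refine ⟨700, by norm_num, fun x M G γ hx hG hγ S hS => ?_⟩
  have hG0 : 0 ≤ G := by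
    have := hG ∅
    simpa using this
  have hγ0 : 0 ≤ γ := by
    have := hγ ∅ (fun k hk => absurd hk (Finset.notMem_empty k))
    simpa using this
  obtain ⟨r, hr⟩ : ∃ r : K × K → ℝ, ∀ z, r z = (kn z.1 * x z.1) * (kn z.2 * x z.2) *
    ((1 / 4 : ℝ) ^ jn z.1 * (1 / 2) ^ jn z.2) := ⟨_, fun _ => rfl⟩
  obtain ⟨f, hf⟩ : ∃ f : K × K → ℝ, ∀ z, f z = (kn z.1 * x z.1) ^ 2 * (2 / 3 : ℝ) ^ jn z.1 *
    ((1 / 8 : ℝ) ^ jn z.2 * (3 / 2) ^ jn z.2) := ⟨_, fun _ => rfl⟩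
  obtain ⟨g, hg⟩ : ∃ g : K × K → ℝ, ∀ z, g z = (kn z.2 * x z.2) ^ 2 * (4 / 3 : ℝ) ^ jn z.2 *
    ((1 / 16 : ℝ) ^ jn z.1 * (3 / 2) ^ jn z.1) := ⟨_, fun _ => rfl⟩
  have hkn : ∀ k : K, 0 ≤ kn k := fun k => Real.sqrt_nonneg _
  have e1 : ∀ n : ℕ, ((1 / 4 : ℝ) ^ n) ^ 2 = (2 / 3) ^ n * ((1 / 16) ^ n * (3 / 2) ^ n) := by
    intro n
    rw [← mul_pow, ← mul_pow, ← pow_mul, mul_comm n 2, pow_mul]
    norm_num
  have e2 : ∀ n : ℕ, ((1 / 2 : ℝ) ^ n) ^ 2 = (4 / 3) ^ n * ((1 / 8) ^ n * (3 / 2) ^ n) := by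
    intro n
    rw [← mul_pow, ← mul_pow, ← pow_mul, mul_comm n 2, pow_mul]
    norm_num
  have hfg : ∀ z ∈ S, r z ^ 2 = f z * g z := by
    intro z _
    rw [hr, hf, hg]
    calc ((kn z.1 * x z.1) * (kn z.2 * x z.2) * ((1 / 4 : ℝ) ^ jn z.1 * (1 / 2) ^ jn z.2)) ^ 2 =
          (kn z.1 * x z.1) ^ 2 * (kn z.2 * x z.2) ^ 2 *
            (((1 / 4 : ℝ) ^ jn z.1) ^ 2 * ((1 / 2) ^ jn z.2) ^ 2) := by ring
      _ = _ := by
        rw [e1, e2]
        ring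
  have hCS := Finset.sum_sq_le_sum_mul_sum_of_sq_eq_mul S (r := r) (f := f) (g := g)
    (fun z _ => by rw [hf]; positivity) (fun z _ => by rw [hg]; positivity) hfg
  -- the pointwise bound
  have hpt : ∀ z ∈ S, (kn z.1)⁻¹ * (x z.1 * x z.2) ≤ r z := by
    intro z hz
    obtain ⟨-, hz2, hz3⟩ := hS z hz
    have hz1 : 1 ≤ kn z.1 := hz2.trans hz3
    have p1 := pow_jn hz1
    have p2 := pow_jn hz2
    have q1 : (kn z.1)⁻¹ ≤ (1 / 2 : ℝ) ^ jn z.1 := by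
      rw [one_div, inv_pow]
      exact inv_anti₀ (by positivity) p1
    have q2 : (kn z.2)⁻¹ ≤ (1 / 2 : ℝ) ^ jn z.2 := by
      rw [one_div, inv_pow]
      exact inv_anti₀ (by positivity) p2
    have q3 : (kn z.1)⁻¹ ^ 2 ≤ (1 / 4 : ℝ) ^ jn z.1 := by
      refine (pow_le_pow_left₀ (inv_nonneg.2 (hkn _)) q1 2).trans (le_of_eq ?_)
      rw [← pow_mul, mul_comm, pow_mul]
      norm_num
    have n1 : kn z.1 ≠ 0 := by linarith
    have n2 : kn z.2 ≠ 0 := by linarith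
    have e3 : (kn z.1)⁻¹ * (x z.1 * x z.2) = (kn z.1 * x z.1) * (kn z.2 * x z.2) *
        ((kn z.1)⁻¹ ^ 2 * (kn z.2)⁻¹) := by
      field_simp
    rw [e3, hr]
    refine mul_le_mul_of_nonneg_left ?_
      (mul_nonneg (mul_nonneg (hkn _) (hx _)) (mul_nonneg (hkn _) (hx _)))
    exact mul_le_mul q3 q2 (inv_nonneg.2 (hkn _)) (by positivity)
  -- the two sums
  have hF : ∑ z ∈ S, f z ≤ 700 * γ := by
    have h1 := sum_fst S (fun b => (kn b * x b) ^ 2 * (2 / 3 : ℝ) ^ jn b)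
      (fun c => (1 / 8 : ℝ) ^ jn c * (3 / 2) ^ jn c) 700 (fun b => (3 / 2 : ℝ) ^ jn b)
      (fun b => by positivity) (fun b F hF => low F (jn b) fun c hc =>
        jn_le (hS _ (hF c hc)).2.1 (hS _ (hF c hc)).2.2)
    have h2 : ∑ z ∈ S, f z = ∑ z ∈ S, (fun b => (kn b * x b) ^ 2 * (2 / 3 : ℝ) ^ jn b) z.1 *
        (fun c => (1 / 8 : ℝ) ^ jn c * (3 / 2) ^ jn c) z.2 := Finset.sum_congr rfl fun z _ => hf z
    rw [h2]
    refine h1.trans (mul_le_mul_of_nonneg_left ?_ (by norm_num))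
    have h3 := hγ (S.image Prod.fst) (by
      intro k hk
      obtain ⟨z, hz, rfl⟩ := Finset.mem_image.1 hk
      exact (hS z hz).1)
    refine le_trans (le_of_eq (Finset.sum_congr rfl fun b _ => ?_)) h3
    have h4 : (2 / 3 : ℝ) ^ jn b * (3 / 2) ^ jn b = 1 := by
      rw [← mul_pow]
      norm_num
    show (kn b * x b) ^ 2 * (2 / 3 : ℝ) ^ jn b * (3 / 2 : ℝ) ^ jn b = _
    rw [mul_assoc, h4, mul_one, mul_pow]
  have hGs : ∑ z ∈ S, g z ≤ 700 * G := by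
    have h1 := sum_snd S (fun b => (kn b * x b) ^ 2 * (4 / 3 : ℝ) ^ jn b)
      (fun c => (1 / 16 : ℝ) ^ jn c * (3 / 2) ^ jn c) 700 (fun b => (3 / 4 : ℝ) ^ jn b)
      (fun b => by positivity) (fun c F hF => high F (jn c) fun b hb =>
        jn_le (hS _ (hF b hb)).2.1 (hS _ (hF b hb)).2.2)
    have h2 : ∑ z ∈ S, g z = ∑ z ∈ S, (fun b => (kn b * x b) ^ 2 * (4 / 3 : ℝ) ^ jn b) z.2 *
        (fun c => (1 / 16 : ℝ) ^ jn c * (3 / 2) ^ jn c) z.1 := Finset.sum_congr rfl fun z _ => hg z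
    rw [h2]
    refine h1.trans (mul_le_mul_of_nonneg_left ?_ (by norm_num))
    have h3 := hG (S.image Prod.snd)
    refine le_trans (le_of_eq (Finset.sum_congr rfl fun b _ => ?_)) h3
    have h4 : (4 / 3 : ℝ) ^ jn b * (3 / 4) ^ jn b = 1 := by
      rw [← mul_pow]
      norm_num
    show (kn b * x b) ^ 2 * (4 / 3 : ℝ) ^ jn b * (3 / 4 : ℝ) ^ jn b = _
    rw [mul_assoc, h4, mul_one, mul_pow]
  refine (Finset.sum_le_sum hpt).trans ?_
  have hf0 : 0 ≤ ∑ z ∈ S, f z := Finset.sum_nonneg fun z _ => by rw [hf]; positivity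
  have hg0 : 0 ≤ ∑ z ∈ S, g z := Finset.sum_nonneg fun z _ => by rw [hg]; positivity
  refine le_of_sq_le_sq ?_ (by positivity)
  refine hCS.trans ?_
  calc (∑ z ∈ S, f z) * ∑ z ∈ S, g z ≤ (700 * γ) * (700 * G) :=
        mul_le_mul hF hGs hg0 (by positivity)
    _ = (700 * (√G * √γ)) ^ 2 := by
        rw [mul_pow, mul_pow, Real.sq_sqrt hG0, Real.sq_sqrt hγ0]
        ring

end Pool.Agent.H303.DEE.F
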