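import Pool.Agent.H303.DEE.Stm5

/-!
Project DEE-F: the flux tends to zero (`H9`).
-/

set_option autoImplicit false

open MeasureTheory Set Filter Topology Complex
open scoped ContDiff ENNReal

namespace Pool.Agent.H303.DEE.F

namespace FH9

theorem kn_nonneg (k : K) : 0 ≤ kn k := Real.sqrt_nonneg _

theorem nm_nonneg (v : C3) : 0 ≤ nm v := Real.sqrt_nonneg _

theorem abs_le_kn (k : K) (j : Fin 3) : |(k j : ℝ)| ≤ kn k := by
  unfold kn
  refine Real.abs_le_sqrt ?_
  exact Finset.single_le_sum (f := fun j => (k j : ℝ) ^ 2) (fun i _ => sq_nonneg _)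
    (Finset.mem_univ j)

theorem dt_le (k : K) (v : C3) : ‖dt k v‖ ≤ kn k * nm v := by
  unfold dt kn nm
  refine (norm_sum_le _ _).trans ?_
  have h := Real.sum_mul_le_sqrt_mul_sqrt (Finset.univ : Finset (Fin 3)) (fun j => |(k j : ℝ)|)
    (fun j => ‖v j‖)
  simp only [sq_abs] at h
  refine le_trans (le_of_eq ?_) h
  refine Finset.sum_congr rfl fun j _ => ?_
  rw [norm_mul, Complex.norm_intCast]

theorem inner_le (Q R : C3) : ‖∑ i, Q i * (starRingEnd ℂ) (R i)‖ ≤ nm Q * nm R := by
  unfold nm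
  refine (norm_sum_le _ _).trans ?_
  have h := Real.sum_mul_le_sqrt_mul_sqrt (Finset.univ : Finset (Fin 3)) (fun j => ‖Q j‖)
    (fun j => ‖R j‖)
  refine le_trans (le_of_eq ?_) h
  refine Finset.sum_congr rfl fun j _ => ?_
  rw [norm_mul, Complex.norm_conj]

theorem dt_sub (k p : K) (v : C3) (h : dt p v = 0) : dt k v = dt (k - p) v := by
  have e : dt (k - p) v = dt k v - dt p v := by
    unfold dt
    rw [← Finset.sum_sub_distrib]
    refine Finset.sum_congr rfl fun j _ => ?_
    simp only [Pi.sub_apply, Int.cast_sub]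
    ring
  rw [e, h, sub_zero]

/-- bound of the trilinear expression -/
theorem X_le (U : K → C3) (z : K × K) (h : dt z.2 (U z.2) = 0) :
    ‖X U z‖ ≤ kn z.1 * (nm (U z.1) * nm (U z.2) * nm (U (z.1 - z.2))) ∧
    ‖X U z‖ ≤ kn (z.1 - z.2) * (nm (U (z.1 - z.2)) * nm (U z.2) * nm (U z.1)) := by
  unfold X Xt
  rw [norm_mul]
  have h1 := dt_le z.1 (U z.2)
  have h2 := dt_le (z.1 - z.2) (U z.2)
  rw [← dt_sub z.1 z.2 _ h] at h2
  have h3 := inner_le (U (z.1 - z.2)) (U z.1)
  have n1 := nm_nonneg (U z.1)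
  have n2 := nm_nonneg (U z.2)
  have n3 := nm_nonneg (U (z.1 - z.2))
  have k1 := kn_nonneg z.1
  have k2 := kn_nonneg (z.1 - z.2)
  constructor
  · calc _ ≤ (kn z.1 * nm (U z.2)) * (nm (U (z.1 - z.2)) * nm (U z.1)) :=
          mul_le_mul h1 h3 (norm_nonneg _) (by positivity)
      _ = _ := by ring
  · calc _ ≤ (kn (z.1 - z.2) * nm (U z.2)) * (nm (U (z.1 - z.2)) * nm (U z.1)) :=
          mul_le_mul h2 h3 (norm_nonneg _) (by positivity)
      _ = _ := by ring

/-- a box which contains the ball of radius `R` -/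
noncomputable def box (R : ℝ) : Finset K := Fintype.piFinset fun _ => Finset.Icc (-⌈R⌉) ⌈R⌉

theorem mem_box {R : ℝ} {k : K} (h : kn k ≤ R) : k ∈ box R := by
  unfold box
  rw [Fintype.mem_piFinset]
  intro j
  rw [Finset.mem_Icc]
  have h1 := (abs_le_kn k j).trans h
  rw [abs_le] at h1
  have h2 := Int.le_ceil R
  constructor
  · have : (-⌈R⌉ : ℝ) ≤ (k j : ℝ) := by linarith
    exact_mod_cast this
  · have : (k j : ℝ) ≤ (⌈R⌉ : ℝ) := by linarith
    exact_mod_cast this

theorem wt_nonneg (M : ℝ) (k : K) : 0 ≤ wt M k := le_max_left _ _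

theorem wt_mul (M : ℝ) (hM : 0 < M) (k : K) (y : ℝ) (hy : 0 ≤ y) :
    wt M k * (kn k * y) ≤ 2 * M * (if k ∈ box (2 * M) then y else 0) := by
  have h0 := kn_nonneg k
  by_cases h : kn k ≤ 2 * M
  · rw [if_pos (mem_box h)]
    have h1 : wt M k ≤ 1 := max_le zero_le_one (min_le_left _ _)
    calc wt M k * (kn k * y) ≤ 1 * (kn k * y) :=
          mul_le_mul_of_nonneg_right h1 (by positivity)
      _ ≤ 2 * M * y := by
          rw [one_mul]
          exact mul_le_mul_of_nonneg_right h hy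
  · have h1 : wt M k = 0 := by
      unfold wt
      refine max_eq_left (min_le_of_right_le ?_)
      have : 2 ≤ kn k / M := by
        rw [le_div_iff₀ hM]
        linarith
      linarith
    rw [h1, zero_mul]
    split_ifs <;> positivity

/-- sums over triads with one frequency in a finite set -/
theorem triad_sum {x : K → ℝ} {E : ℝ} (hx : ∀ k, 0 ≤ x k)
    (hE : ∀ F : Finset K, ∑ k ∈ F, x k ^ 2 ≤ E) (B : Finset K) (S : Finset (K × K))
    (u v w : K × K → K)
    (hv : ∀ z ∈ S, ∀ z' ∈ S, u z = u z' → v z = v z' → z = z')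
    (hw : ∀ z ∈ S, ∀ z' ∈ S, u z = u z' → w z = w z' → z = z') :
    ∑ z ∈ S, (if u z ∈ B then x (u z) * x (v z) * x (w z) else 0) ≤ B.card * (√E * E) := by
  classical
  have hxE : ∀ k, x k ≤ √E := fun k => by
    refine Real.le_sqrt_of_sq_le ?_
    have := hE {k}
    rwa [Finset.sum_singleton] at this
  have h1 : ∑ z ∈ S, (if u z ∈ B then x (u z) * x (v z) * x (w z) else 0) =
      ∑ b ∈ B, ∑ z ∈ S.filter (fun z => u z = b), x b * (x (v z) * x (w z)) := by
    rw [← Finset.sum_filter]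
    rw [← Finset.sum_fiberwise_of_maps_to (s := S.filter fun z => u z ∈ B) (t := B) (g := u)
      (fun z hz => (Finset.mem_filter.1 hz).2)]
    refine Finset.sum_congr rfl fun b hb => ?_
    rw [Finset.filter_filter]
    have : S.filter (fun z => u z ∈ B ∧ u z = b) = S.filter (fun z => u z = b) := by
      refine Finset.filter_congr fun z _ => ⟨fun h => h.2, fun h => ⟨h ▸ hb, h⟩⟩
    rw [this]
    refine Finset.sum_congr rfl fun z hz => ?_
    rw [(Finset.mem_filter.1 hz).2, mul_assoc]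
  rw [h1]
  calc ∑ b ∈ B, ∑ z ∈ S.filter (fun z => u z = b), x b * (x (v z) * x (w z))
      ≤ ∑ _b ∈ B, √E * E := by
        refine Finset.sum_le_sum fun b _ => ?_
        rw [← Finset.mul_sum]
        refine mul_le_mul (hxE b) ?_ (Finset.sum_nonneg fun z _ => mul_nonneg (hx _) (hx _))
          (Real.sqrt_nonneg _)
        have s1 : ∑ z ∈ S.filter (fun z => u z = b), x (v z) ^ 2 ≤ E := by
          rw [← Finset.sum_image (f := fun k => x k ^ 2) (g := v)]
          · exact hE _
          · intro z hz z' hz' h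
            rw [Finset.coe_filter] at hz hz'
            exact hv z hz.1 z' hz'.1 (hz.2.trans hz'.2.symm) h
        have s2 : ∑ z ∈ S.filter (fun z => u z = b), x (w z) ^ 2 ≤ E := by
          rw [← Finset.sum_image (f := fun k => x k ^ 2) (g := w)]
          · exact hE _
          · intro z hz z' hz' h
            rw [Finset.coe_filter] at hz hz'
            exact hw z hz.1 z' hz'.1 (hz.2.trans hz'.2.symm) h
        calc ∑ z ∈ S.filter (fun z => u z = b), x (v z) * x (w z)
            ≤ ∑ z ∈ S.filter (fun z => u z = b), (x (v z) ^ 2 + x (w z) ^ 2) / 2 := by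
              refine Finset.sum_le_sum fun z _ => ?_
              nlinarith [sq_nonneg (x (v z) - x (w z))]
          _ ≤ E := by
              rw [← Finset.sum_div, Finset.sum_add_distrib]
              linarith
    _ = _ := by rw [Finset.sum_const, nsmul_eq_mul]

/-- the weights of the flux -/
noncomputable def muz (M : ℝ) (z : K × K) : ℂ := ((wt M z.1 - wt M (z.1 - z.2) : ℝ) : ℂ)

theorem flux_sum_le {M E : ℝ} (hM : 1 ≤ M) (hE0 : 0 ≤ E) {U : K → C3}
    (hdiv : ∀ k, dt k (U k) = 0) (hE : ∀ F : Finset K, ∑ k ∈ F, nm (U k) ^ 2 ≤ E)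
    (S : Finset (K × K)) :
    ∑ z ∈ S, ‖muz M z * X U z‖ ≤ 4 * M * ((box (2 * M)).card * (√E * E)) := by
  have hM0 : 0 < M := by linarith
  have h1 := triad_sum (x := fun k => nm (U k)) (fun k => nm_nonneg _) hE (box (2 * M)) S
    (fun z => z.1) (fun z => z.2) (fun z => z.1 - z.2) (fun z _ z' _ h h' => Prod.ext h h')
    (fun z _ z' _ h h' => Prod.ext h (by
      have h' : z.1 - z.2 = z'.1 - z'.2 := h'
      have h : z.1 = z'.1 := h
      rw [h] at h'
      exact sub_right_injective h'))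
  have h2 := triad_sum (x := fun k => nm (U k)) (fun k => nm_nonneg _) hE (box (2 * M)) S
    (fun z => z.1 - z.2) (fun z => z.2) (fun z => z.1)
    (fun z _ z' _ h h' => Prod.ext (by
      have h' : z.2 = z'.2 := h'
      have h : z.1 - z.2 = z'.1 - z'.2 := h
      rw [h'] at h
      exact sub_left_injective h) h')
    (fun z _ z' _ h h' => Prod.ext h' (by
      have h : z.1 - z.2 = z'.1 - z'.2 := h
      have h' : z.1 = z'.1 := h'
      rw [h'] at h
      exact sub_right_injective h))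
  calc ∑ z ∈ S, ‖muz M z * X U z‖ ≤ ∑ z ∈ S, (2 * M * (if z.1 ∈ box (2 * M) then
          nm (U z.1) * nm (U z.2) * nm (U (z.1 - z.2)) else 0) +
        2 * M * (if z.1 - z.2 ∈ box (2 * M) then
          nm (U (z.1 - z.2)) * nm (U z.2) * nm (U z.1) else 0)) := by
        refine Finset.sum_le_sum fun z _ => ?_
        obtain ⟨x1, x2⟩ := X_le U z (hdiv z.2)
        have n1 := nm_nonneg (U z.1)
        have n2 := nm_nonneg (U z.2)
        have n3 := nm_nonneg (U (z.1 - z.2))
        have e1 := wt_mul M hM0 z.1 (nm (U z.1) * nm (U z.2) * nm (U (z.1 - z.2))) (by positivity)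
        have e2 := wt_mul M hM0 (z.1 - z.2) (nm (U (z.1 - z.2)) * nm (U z.2) * nm (U z.1))
          (by positivity)
        have e3 : ‖muz M z‖ ≤ wt M z.1 + wt M (z.1 - z.2) := by
          unfold muz
          rw [Complex.norm_real, Real.norm_eq_abs, abs_le]
          have := wt_nonneg M z.1
          have := wt_nonneg M (z.1 - z.2)
          constructor <;> linarith
        rw [norm_mul]
        calc ‖muz M z‖ * ‖X U z‖ ≤ (wt M z.1 + wt M (z.1 - z.2)) * ‖X U z‖ :=
              mul_le_mul_of_nonneg_right e3 (norm_nonneg _)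
          _ = wt M z.1 * ‖X U z‖ + wt M (z.1 - z.2) * ‖X U z‖ := by ring
          _ ≤ _ := add_le_add
            ((mul_le_mul_of_nonneg_left x1 (wt_nonneg _ _)).trans e1)
            ((mul_le_mul_of_nonneg_left x2 (wt_nonneg _ _)).trans e2)
    _ ≤ 2 * M * ((box (2 * M)).card * (√E * E)) + 2 * M * ((box (2 * M)).card * (√E * E)) := by
        rw [Finset.sum_add_distrib, ← Finset.mul_sum, ← Finset.mul_sum]
        exact add_le_add (mul_le_mul_of_nonneg_left h1 (by positivity))
          (mul_le_mul_of_nonneg_left h2 (by positivity))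
    _ = _ := by ring

theorem X_cont {g : K → ℝ} {ν T : ℝ} {a : ℝ → K → C3} (h : FSol g ν T a) (z : K × K) :
    ContinuousOn (fun s => X (a s) z) (Icc 0 T) := by
  unfold X Xt dt
  refine ContinuousOn.mul ?_ ?_
  · exact continuousOn_finsetSum _ fun j _ => continuousOn_const.mul (h.cont _ _)
  · exact continuousOn_finsetSum _ fun i _ => (h.cont _ _).mul
      (Complex.continuous_conj.comp_continuousOn (h.cont _ _))

/-- the time integral of the flux -/
theorem int_flux_le {g : K → ℝ} {ν T : ℝ} {a : ℝ → K → C3} (h : FSol g ν T a) {M : ℝ}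
    (hM : 1 ≤ M) {t : ℝ} (ht : t ∈ Icc 0 T) {B : ℝ}
    (hB : ∀ S : Finset (K × K), ‖∑ z ∈ S, muz M z * ∫ s in (0 : ℝ)..t, X (a s) z‖ ≤ B) :
    |∫ s in (0 : ℝ)..t, flux M (a s)| ≤ Real.pi * B := by
  have hpi := Real.pi_pos
  obtain ⟨E, hE⟩ := h.bdd
  have hsub : Ioc 0 t ⊆ Icc 0 T := fun s hs => ⟨hs.1.le, hs.2.trans ht.2⟩
  have hEF : ∀ s ∈ Icc 0 T, ∀ F : Finset K, ∑ k ∈ F, nm (a s k) ^ 2 ≤ E := fun s hs F =>
    ((hE s hs).1.sum_le_tsum F fun k _ => sq_nonneg _).trans (hE s hs).2
  have h0T : (0 : ℝ) ∈ Icc 0 T := ⟨le_rfl, ht.1.trans ht.2⟩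
  have hE0 : 0 ≤ E := by
    have := hEF 0 h0T ∅
    simpa using this
  obtain ⟨C, hC⟩ : ∃ C, C = 4 * M * ((box (2 * M)).card * (√E * E)) := ⟨_, rfl⟩
  have hfs : ∀ s ∈ Icc 0 T, ∀ S : Finset (K × K), ∑ z ∈ S, ‖muz M z * X (a s) z‖ ≤ C :=
    fun s hs S => by
      rw [hC]
      exact flux_sum_le hM hE0 (h.div s hs) (hEF s hs) S
  -- the real terms
  obtain ⟨G, hG⟩ : ∃ G : K × K → ℝ → ℝ, G = fun z s => (Real.pi * I * (muz M z * X (a s) z)).re :=
    ⟨_, rfl⟩
  have hGle : ∀ z s, |G z s| ≤ Real.pi * ‖muz M z * X (a s) z‖ := fun z s => by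
    rw [hG]
    refine (Complex.abs_re_le_norm _).trans (le_of_eq ?_)
    rw [norm_mul, norm_mul, Complex.norm_I, mul_one, Complex.norm_real, Real.norm_eq_abs,
      abs_of_pos hpi]
  have hflux : ∀ s ∈ Icc 0 T, flux M (a s) = ∑' z, G z s := by
    intro s hs
    have h1 : Summable fun z => muz M z * X (a s) z :=
      Summable.of_norm (summable_of_sum_le (fun z => norm_nonneg _) (hfs s hs))
    have h2 := Complex.reCLM.hasSum (h1.hasSum.mul_left (Real.pi * I : ℂ))
    rw [hG]
    exact h2.tsum_eq.symm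
  have hGc : ∀ z, ContinuousOn (G z) (Icc 0 T) := fun z => by
    rw [hG]
    exact Complex.continuous_re.comp_continuousOn
      (continuousOn_const.mul (continuousOn_const.mul (X_cont h z)))
  have hGi : ∀ z, IntegrableOn (G z) (Ioc 0 t) := fun z =>
    ((hGc z).integrableOn_compact isCompact_Icc).mono_set hsub
  have hsum : Summable fun z => ∫ s in Ioc 0 t, ‖G z s‖ := by
    refine summable_of_sum_le (c := Real.pi * C * t)
      (fun z => integral_nonneg fun s => norm_nonneg _) fun S => ?_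
    rw [← integral_finsetSum S fun z _ => (hGi z).norm]
    have hci : IntegrableOn (fun _ : ℝ => Real.pi * C) (Ioc 0 t) :=
      (continuousOn_const.integrableOn_compact isCompact_Icc).mono_set Ioc_subset_Icc_self
    have h1 : ∫ s in Ioc 0 t, ∑ z ∈ S, ‖G z s‖ ≤ ∫ s in Ioc 0 t, Real.pi * C := by
      refine setIntegral_mono_on (integrable_finsetSum _ fun z _ => (hGi z).norm)
        hci measurableSet_Ioc fun s hs => ?_
      calc ∑ z ∈ S, ‖G z s‖ ≤ ∑ z ∈ S, Real.pi * ‖muz M z * X (a s) z‖ :=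
            Finset.sum_le_sum fun z _ => hGle z s
        _ ≤ Real.pi * C := by
            rw [← Finset.mul_sum]
            exact mul_le_mul_of_nonneg_left (hfs s (hsub hs) S) hpi.le
    refine h1.trans (le_of_eq ?_)
    rw [setIntegral_const, Real.volume_real_Ioc, sub_zero, max_eq_left ht.1, smul_eq_mul]
    ring
  have hhs := hasSum_integral_of_summable_integral_norm (μ := volume.restrict (Ioc 0 t)) hGi hsum
  have hGint : ∀ z, ∫ s in Ioc 0 t, G z s =
      (Real.pi * I * (muz M z * ∫ s in (0 : ℝ)..t, X (a s) z)).re := by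
    intro z
    have hXi : IntegrableOn (fun s => X (a s) z) (Ioc 0 t) :=
      ((X_cont h z).integrableOn_compact isCompact_Icc).mono_set hsub
    rw [intervalIntegral.integral_of_le ht.1, hG, ← integral_const_mul, ← integral_const_mul]
    exact integral_re ((hXi.const_mul _).const_mul _)
  have hfl : ∫ s in (0 : ℝ)..t, flux M (a s) = ∫ s in Ioc 0 t, ∑' z, G z s := by
    rw [intervalIntegral.integral_of_le ht.1]
    exact setIntegral_congr_fun measurableSet_Ioc fun s hs => hflux s (hsub hs)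
  rw [hfl]
  refine le_of_tendsto hhs.norm (Eventually.of_forall fun S => ?_)
  simp only [hGint]
  have e : ∑ z ∈ S, (Real.pi * I * (muz M z * ∫ s in (0 : ℝ)..t, X (a s) z)).re =
      (Real.pi * I * ∑ z ∈ S, muz M z * ∫ s in (0 : ℝ)..t, X (a s) z).re := by
    rw [Finset.mul_sum, Complex.re_sum]
  rw [e, Real.norm_eq_abs]
  refine (Complex.abs_re_le_norm _).trans ?_
  rw [norm_mul, norm_mul, Complex.norm_I, mul_one, Complex.norm_real, Real.norm_eq_abs,
    abs_of_pos hpi]
  exact mul_le_mul_of_nonneg_left (hB S) hpi.le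

theorem tail_zero {T : ℝ} {a : ℝ → K → C3} (hT : 0 ≤ T) (hd : Summable fun k => dd a T k) :
    Tendsto (fun m : ℕ => ∑' k, tl ((m : ℝ) + 1) k * dd a T k) atTop (𝓝 0) := by
  have h0 : ∀ k, 0 ≤ dd a T k := fun k =>
    intervalIntegral.integral_nonneg hT fun s _ => mul_nonneg (sq_nonneg _) (sq_nonneg _)
  have h := tendsto_tsum_of_dominated_convergence (𝓕 := (atTop : Filter ℕ))
    (f := fun m k => tl ((m : ℝ) + 1) k * dd a T k) (g := fun _ => (0 : ℝ)) hd
    (fun k => ?_) (Eventually.of_forall fun m k => ?_)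
  · rw [tsum_zero] at h
    exact h
  · refine tendsto_const_nhds.congr' ?_
    have h1 : ∀ᶠ m : ℕ in atTop, 2 * kn k < (m : ℝ) :=
      tendsto_natCast_atTop_atTop.eventually (eventually_gt_atTop _)
    filter_upwards [h1] with m hm
    have : tl ((m : ℝ) + 1) k = 0 := by
      unfold tl
      rw [if_neg]
      intro h
      linarith
    rw [this, zero_mul]
  · rw [Real.norm_eq_abs, abs_mul, abs_of_nonneg (h0 k)]
    have : |tl ((m : ℝ) + 1) k| ≤ 1 := by
      unfold tl
      split_ifs <;> simp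
    exact mul_le_of_le_one_left (h0 k) this

end FH9

open FH9 in
/-- the flux tends to zero -/
theorem h9 (h9a : H9a) : H9 := by
  intro g ν T C a hν hg hC hfew h t ht
  obtain ⟨B, hB0, hB⟩ := h9a g ν T C a hν hg hC hfew h
  have hT : 0 ≤ T := ht.1.trans ht.2
  have key : ∀ m : ℕ, ‖∫ s in (0 : ℝ)..t, flux ((m : ℝ) + 1) (a s)‖ ≤ Real.pi *
      (B * (√(∑' k, tl ((m : ℝ) + 1) k * dd a T k) + ((m : ℝ) + 1) ^ (-(1 / 4) : ℝ))) := fun m => by
    have hm : (1 : ℝ) ≤ (m : ℝ) + 1 := by
      have : (0 : ℝ) ≤ m := Nat.cast_nonneg m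
      linarith
    rw [Real.norm_eq_abs]
    exact int_flux_le h hm ht fun S => hB _ hm t ht S
  refine squeeze_zero_norm key ?_
  have h1 : Tendsto (fun m : ℕ => √(∑' k, tl ((m : ℝ) + 1) k * dd a T k)) atTop (𝓝 0) := by
    have := (Real.continuous_sqrt.tendsto 0).comp (tail_zero (a := a) hT h.diss)
    rwa [Real.sqrt_zero] at this
  have h2 : Tendsto (fun m : ℕ => ((m : ℝ) + 1) ^ (-(1 / 4) : ℝ)) atTop (𝓝 0) :=
    (tendsto_rpow_neg_atTop (by norm_num : (0 : ℝ) < 1 / 4)).comp
      (tendsto_atTop_add_const_right _ 1 tendsto_natCast_atTop_atTop)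
  have h3 := ((h1.add h2).const_mul B).const_mul Real.pi
  simpa using h3

end Pool.Agent.H303.DEE.F
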