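import Pool.Agent.H303.DEE.Stm5
import Pool.Agent.H303.DEE.S8

/-!
Parseval on the cell (`P1`), helper881 for helper303.
-/

set_option autoImplicit false

open MeasureTheory Set Filter Topology
open scoped ContDiff ENNReal

namespace Pool.Agent.H303.DEE.F

namespace XP1

open H459R3.NS (K3 ee cov fc ph)
open Pool.Agent.H303.DEE.TS8 (sec sec_mp sec_emb cov_sec norm_sq_L2)

attribute [local instance] instMeasureSpaceUnitAddCircle

local instance : IsProbabilityMeasure (volume : Measure UnitAddCircle) :=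
  inferInstanceAs (IsProbabilityMeasure AddCircle.haarAddCircle)

theorem parseval (F : V → ℂ) (hF : MemLp F 2 mQ) :
    HasSum (fun k : K3 => ‖fc F k‖ ^ 2) (∫ x in Q, ‖F x‖ ^ 2) := by
  have hF' : MemLp (F ∘ sec) 2 (volume : Measure (UnitAddTorus (Fin 3))) :=
    hF.comp_measurePreserving sec_mp
  obtain ⟨f, hf⟩ : ∃ f : Lp ℂ 2 (volume : Measure (UnitAddTorus (Fin 3))), f = hF'.toLp := ⟨_, rfl⟩
  have hfa : ⇑f =ᵐ[volume] F ∘ sec := by
    rw [hf]
    exact hF'.coeFn_toLp
  have hmF : ∀ (k : K3) (t : UnitAddTorus (Fin 3)), UnitAddTorus.mFourier k t = ee k (sec t) := by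
    intro k t
    conv_lhs => rw [← cov_sec t]
    exact H459R3.NS.mFourier_cov k (sec t)
  have hco : ∀ k, UnitAddTorus.mFourierCoeff (⇑f) k = fc F k := by
    intro k
    have h1 : UnitAddTorus.mFourierCoeff (⇑f) k =
        ∫ t, (fun x => ee (-k) x * F x) (sec t) := by
      apply integral_congr_ae
      filter_upwards [hfa] with t ht
      rw [ht, smul_eq_mul, hmF]
      rfl
    rw [h1]
    exact sec_mp.integral_comp sec_emb (fun x => ee (-k) x * F x)
  have hs := UnitAddTorus.hasSum_sq_mFourierCoeff f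
  have h2 : ∫ t, ‖f t‖ ^ 2 = ∫ x in Q, ‖F x‖ ^ 2 := by
    have h3 : ∫ t, ‖f t‖ ^ 2 = ∫ t, (fun x => ‖F x‖ ^ 2) (sec t) := by
      apply integral_congr_ae
      filter_upwards [hfa] with t ht
      rw [ht]
      rfl
    rw [h3]
    exact sec_mp.integral_comp sec_emb (fun x => ‖F x‖ ^ 2)
  rw [← h2]
  refine hs.congr_fun ?_
  intro k
  rw [hco]

end XP1

theorem p1 : P1 := by
  intro f hf
  have h1 := XP1.parseval (fun x => (f x : ℂ)) hf.ofReal
  have h2 : ∀ x, ‖(f x : ℂ)‖ ^ 2 = f x ^ 2 := by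
    intro x
    rw [Complex.norm_real, Real.norm_eq_abs, sq_abs]
  simp only [h2] at h1
  have h3 : ∀ k : K, H459R3.NS.fc (fun x => (f x : ℂ)) k = cf f k := by
    intro k
    unfold H459R3.NS.fc cf
    apply integral_congr_ae
    filter_upwards with x
    have h4 : H459R3.NS.ee (-k) x =
        Complex.exp (-(2 * Real.pi * Complex.I * ∑ j, (k j : ℂ) * (x j : ℂ))) := by
      unfold H459R3.NS.ee H459R3.NS.ph
      congr 1
      simp only [Pi.neg_apply, Int.cast_neg, neg_mul, Finset.sum_neg_distrib, Complex.ofReal_neg,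
        Complex.ofReal_sum, Complex.ofReal_mul, Complex.ofReal_intCast, mul_neg]
    rw [h4, mul_comm]
  simp only [h3] at h1
  exact h1

end Pool.Agent.H303.DEE.F
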