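import Pool.Agent.H303.DEE.Stm5
import Pool.Agent.H303.DEE.S8

/-!
Fourier coefficients of a product (`P2`), by Parseval's identity for inner products.
-/

set_option autoImplicit false

open MeasureTheory Set Filter Topology
open scoped ContDiff ENNReal

namespace Pool.Agent.H303.DEE.F.FP2

open H459R3.NS (K3 ee cov fc ph)
open Pool.Agent.H303.DEE.TS8 (sec sec_mp sec_emb cov_sec)

attribute [local instance] instMeasureSpaceUnitAddCircle

local instance : IsProbabilityMeasure (volume : Measure UnitAddCircle) :=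
  inferInstanceAs (IsProbabilityMeasure AddCircle.haarAddCircle)

/-- Parseval's identity on the cell -/
theorem par (F H : V → ℂ) (hF : MemLp F 2 mQ) (hH : MemLp H 2 mQ) :
    HasSum (fun p : K3 => (starRingEnd ℂ) (fc F p) * fc H p)
      (∫ x in Q, (starRingEnd ℂ) (F x) * H x) := by
  have hF' : MemLp (F ∘ sec) 2 (volume : Measure (UnitAddTorus (Fin 3))) :=
    hF.comp_measurePreserving sec_mp
  have hH' : MemLp (H ∘ sec) 2 (volume : Measure (UnitAddTorus (Fin 3))) :=
    hH.comp_measurePreserving sec_mp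
  obtain ⟨f, hf⟩ : ∃ f : Lp ℂ 2 (volume : Measure (UnitAddTorus (Fin 3))), f = hF'.toLp := ⟨_, rfl⟩
  obtain ⟨h, hh⟩ : ∃ h : Lp ℂ 2 (volume : Measure (UnitAddTorus (Fin 3))), h = hH'.toLp := ⟨_, rfl⟩
  have hfa : ⇑f =ᵐ[volume] F ∘ sec := by
    rw [hf]
    exact hF'.coeFn_toLp
  have hha : ⇑h =ᵐ[volume] H ∘ sec := by
    rw [hh]
    exact hH'.coeFn_toLp
  have hmF : ∀ (k : K3) (t : UnitAddTorus (Fin 3)), UnitAddTorus.mFourier k t = ee k (sec t) := by
    intro k t
    conv_lhs => rw [← cov_sec t]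
    exact H459R3.NS.mFourier_cov k (sec t)
  have hco : ∀ (g : Lp ℂ 2 (volume : Measure (UnitAddTorus (Fin 3)))) (G : V → ℂ),
      ⇑g =ᵐ[volume] G ∘ sec → ∀ k, UnitAddTorus.mFourierCoeff (⇑g) k = fc G k := by
    intro g G hg k
    have h1 : UnitAddTorus.mFourierCoeff (⇑g) k =
        ∫ t, (fun x => ee (-k) x * G x) (sec t) := by
      apply integral_congr_ae
      filter_upwards [hg] with t ht
      rw [ht, smul_eq_mul, hmF]
      rfl
    rw [h1]
    exact sec_mp.integral_comp sec_emb (fun x => ee (-k) x * G x)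
  have h1 := UnitAddTorus.hasSum_prod_mFourierCoeff f h
  have h2 : (∫ t, (starRingEnd ℂ) (f t) * h t) = ∫ x in Q, (starRingEnd ℂ) (F x) * H x := by
    have h3 : (∫ t, (starRingEnd ℂ) (f t) * h t) =
        ∫ t, (fun x => (starRingEnd ℂ) (F x) * H x) (sec t) := by
      apply integral_congr_ae
      filter_upwards [hfa, hha] with t e1 e2
      rw [e1, e2]
      rfl
    rw [h3]
    exact sec_mp.integral_comp sec_emb (fun x => (starRingEnd ℂ) (F x) * H x)
  rw [h2] at h1
  convert h1 using 2 with p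
  rw [hco f F hfa p, hco h H hha p]

theorem cf_eq (f : V → ℝ) (k : K) : cf f k = fc (fun x => (f x : ℂ)) k := by
  unfold cf fc
  show ∫ x in Q, _ = ∫ x in Q, _
  apply integral_congr_ae
  filter_upwards with x
  rw [mul_comm]
  congr 1
  unfold ee ph
  congr 1
  push_cast
  rw [Finset.mul_sum, Finset.mul_sum, ← Finset.sum_neg_distrib]
  refine Finset.sum_congr rfl fun j _ => ?_
  simp only [Pi.neg_apply]
  push_cast
  ring

/-- the product with a character -/
theorem mem_ee {f : V → ℝ} (hf : MemLp f 2 mQ) (k : K3) :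
    MemLp (fun x => ee k x * (f x : ℂ)) 2 mQ := by
  refine MemLp.of_le hf ?_ ?_
  · exact (H459R3.NS.ee_continuous k).aestronglyMeasurable.mul
      (Complex.continuous_ofReal.comp_aestronglyMeasurable hf.1)
  · filter_upwards with x
    rw [norm_mul, H459R3.NS.norm_ee, one_mul, Complex.norm_real]

theorem conj_fc (f : V → ℝ) (k : K3) :
    (starRingEnd ℂ) (fc (fun x => (f x : ℂ)) k) = fc (fun x => (f x : ℂ)) (-k) := by
  unfold fc
  rw [← integral_conj]
  apply integral_congr_ae
  filter_upwards with x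
  rw [map_mul, ← H459R3.NS.ee_neg, Complex.conj_ofReal]

theorem fc_ee (f : V → ℝ) (k p : K3) :
    fc (fun x => ee k x * (f x : ℂ)) p = fc (fun x => (f x : ℂ)) (p - k) := by
  unfold fc
  apply integral_congr_ae
  filter_upwards with x
  rw [← mul_assoc, ← H459R3.NS.ee_add_left]
  congr 2
  abel

end Pool.Agent.H303.DEE.F.FP2

namespace Pool.Agent.H303.DEE.F

open FP2 H459R3.NS in
/-- **P2.** -/
theorem p2 : P2 := by
  intro f h hf hh k
  have hh' : MemLp (fun x => (h x : ℂ)) 2 mQ := hh.ofReal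
  have h1 := par (fun x => ee k x * (f x : ℂ)) (fun x => (h x : ℂ)) (mem_ee hf k) hh'
  have h2 : (∫ x in Q, (starRingEnd ℂ) (ee k x * (f x : ℂ)) * (h x : ℂ)) =
      cf (fun x => f x * h x) k := by
    rw [cf_eq]
    unfold fc
    show ∫ x in Q, _ = ∫ x in Q, _
    apply integral_congr_ae
    filter_upwards with x
    rw [map_mul, ← H459R3.NS.ee_neg, Complex.conj_ofReal]
    push_cast
    ring
  rw [h2] at h1
  have h3 : (fun p : K3 => (starRingEnd ℂ) (fc (fun x => ee k x * (f x : ℂ)) p) *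
      fc (fun x => (h x : ℂ)) p) = fun p => cf f (k - p) * cf h p := by
    funext p
    rw [fc_ee, conj_fc, cf_eq, cf_eq, neg_sub]
  rw [h3, ← (Equiv.subLeft k).hasSum_iff] at h1
  have h4 : ((fun p => cf f (k - p) * cf h p) ∘ (Equiv.subLeft k)) =
      fun p => cf f p * cf h (k - p) := by
    funext p
    simp [Equiv.subLeft]
  rw [h4] at h1
  exact h1.tsum_eq.symm

end Pool.Agent.H303.DEE.F
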