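import Pool.Agent.H303.DEE.Stm5
import Pool.Agent.H303.DEE.S8

/-!
Fourier coefficients of weak derivatives (`P3`).
-/

open MeasureTheory Set Filter Topology Complex
open scoped ContDiff ENNReal

namespace Pool.Agent.H303.DEE.F

namespace FP3

theorem cf_eq (f : V → ℝ) (k : K) : cf f k = TS8.cf f k := by
  show (∫ x in Q, (f x : ℂ) * Complex.exp (-(2 * Real.pi * I * ∑ j, (k j : ℂ) * (x j : ℂ)))) =
    ∫ x in Q, H459R3.NS.ee (-k) x * (f x : ℂ)
  refine integral_congr_ae (Filter.Eventually.of_forall fun x => ?_)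
  show (f x : ℂ) * Complex.exp (-(2 * Real.pi * I * ∑ j, (k j : ℂ) * (x j : ℂ))) =
    H459R3.NS.ee (-k) x * (f x : ℂ)
  rw [mul_comm]
  congr 1
  unfold H459R3.NS.ee H459R3.NS.ph
  congr 1
  rw [← mul_neg, ← Finset.sum_neg_distrib]
  congr 1
  push_cast
  refine Finset.sum_congr rfl fun j _ => ?_
  rw [Pi.neg_apply, Int.cast_neg, neg_mul]

theorem main (f g : V → ℝ) (j : Fin 3) (hf : MemLp f 2 mQ) (hg : MemLp g 2 mQ)
    (h : ∀ ψ : V → ℝ, ContDiff ℝ ∞ ψ → Periodic ψ →
      ∫ x in Q, f x * partialD 1 j ψ x = -∫ x in Q, g x * ψ x) (k : K) :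
    TS8.cf g k = TS8.cf f k * TS8.dk k j := by
  have h1 : TS8.cf g k - TS8.cf f k * TS8.dk k j = 0 := by
    apply TS8.eq_zero_of_re
    intro c
    have h2 := h (fun x => (c * H459R3.NS.ee (-k) x).re)
      (by
        have := TS8.smooth_re {-k} (fun _ => c)
        simpa only [Finset.sum_singleton] using this)
      (by
        have := TS8.per_re {-k} (fun _ => c)
        simpa only [Finset.sum_singleton] using this)
    simp only [TS8.pD1] at h2
    rw [← TS8.re_cf _ hg k c, ← TS8.re_cf _ hf k (c * TS8.dk (-k) j), TS8.dk_neg] at h2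
    have h3 : c * (TS8.cf g k - TS8.cf f k * TS8.dk k j) =
        c * TS8.cf g k + c * -TS8.dk k j * TS8.cf f k := by ring
    rw [h3, Complex.add_re, h2]
    ring
  exact sub_eq_zero.mp h1

end FP3

theorem p3 : P3 := by
  intro f g j hf hg h k
  rw [FP3.cf_eq, FP3.cf_eq, FP3.main f g j hf hg h k, TS8.dk]
  push_cast
  ring

end Pool.Agent.H303.DEE.F
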