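import Pool.Agent.H303.DEE.Stm5
import Pool.Agent.H303.DEE.S8

/-!
`P4`: the Fourier coefficients of fields with divergence zero (helper370 for helper303).
-/

set_option autoImplicit false

open MeasureTheory Set Filter Topology
open scoped ContDiff ENNReal

namespace Pool.Agent.H303.DEE.F

namespace FP4

open H459R3.NS (K3 ee fc ph)
open Pool.Agent.H303.DEE.TS8 (dk dk_neg smooth_re per_re re_cf int_re eq_zero_of_re pD1)

theorem cf_eq (f : V → ℝ) (k : K) : cf f k = TS8.cf f k := by
  show ∫ x in Q, (f x : ℂ) * Complex.exp (-(2 * Real.pi * Complex.I *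
    ∑ j, (k j : ℂ) * (x j : ℂ))) = ∫ x in Q, ee (-k) x * (f x : ℂ)
  apply integral_congr_ae
  filter_upwards with x
  rw [mul_comm]
  congr 1
  unfold ee
  congr 1
  have h1 : ((ph (-k) x : ℝ) : ℂ) = -∑ j, (k j : ℂ) * (x j : ℂ) := by
    unfold ph
    push_cast
    rw [← Finset.sum_neg_distrib]
    exact Finset.sum_congr rfl fun j _ => by simp
  rw [h1]
  ring

theorem sum_dk (u : V → V) (hu : ∀ i, MemLp (fun x => u x i) 2 mQ)
    (hdiv : ∀ ψ : V → ℝ, ContDiff ℝ ∞ ψ → Periodic ψ →
      ∫ x in Q, ∑ j, u x j * partialD 1 j ψ x = 0) (k : K) :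
    ∑ j, TS8.cf (fun x => u x j) k * dk k j = 0 := by
  apply eq_zero_of_re
  intro c
  have h2 := hdiv (fun x => (c * ee (-k) x).re)
    (by
      have := smooth_re {-k} (fun _ => c)
      simpa only [Finset.sum_singleton] using this)
    (by
      have := per_re {-k} (fun _ => c)
      simpa only [Finset.sum_singleton] using this)
  simp only [pD1] at h2
  rw [integral_finsetSum _ (fun j _ => int_re _ (hu j) (-k) (c * dk (-k) j))] at h2
  have h3 : ∀ j, ∫ x in Q, u x j * (c * dk (-k) j * ee (-k) x).re =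
      -(c * (TS8.cf (fun x => u x j) k * dk k j)).re := by
    intro j
    rw [← re_cf _ (hu j) k (c * dk (-k) j), dk_neg, ← Complex.neg_re]
    congr 1
    ring
  rw [Finset.sum_congr rfl (fun j _ => h3 j), Finset.sum_neg_distrib, neg_eq_zero] at h2
  rw [Finset.mul_sum, Complex.re_sum]
  exact h2

end FP4

open FP4 in
theorem p4 : P4 := by
  intro u hu hdiv k
  have h1 := sum_dk u hu hdiv k
  have h2 : ∑ j, TS8.cf (fun x => u x j) k * TS8.dk k j =
      (2 * Real.pi * Complex.I) * dt k (fun i => cf (fun x => u x i) k) := by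
    unfold dt
    rw [Finset.mul_sum]
    refine Finset.sum_congr rfl fun j _ => ?_
    show TS8.cf (fun x => u x j) k * TS8.dk k j =
      2 * Real.pi * Complex.I * ((k j : ℂ) * cf (fun x => u x j) k)
    rw [cf_eq, TS8.dk]
    push_cast
    ring
  rw [h2] at h1
  rcases mul_eq_zero.1 h1 with h | h
  · exact absurd h Complex.two_pi_I_ne_zero
  · exact h

end Pool.Agent.H303.DEE.F
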