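import Pool.Agent.H303.DEE.Stm5

/-!
Project DEE-F, step P5 (helper32): the Fourier coefficients of a Leray-Hopf solution satisfy the
equation, from the steps P2, P3 and P4.
-/

set_option autoImplicit false

open MeasureTheory Set Filter Topology Complex
open scoped ContDiff ENNReal

namespace Pool.Agent.H303.DEE.F

namespace TP5

/-- the linear form `2π k·x` -/
noncomputable def lin (k : K) : V →L[ℝ] ℝ :=
  ∑ j, (2 * Real.pi * (k j : ℝ)) • ContinuousLinearMap.proj (R := ℝ) (φ := fun _ : Fin 3 => ℝ) j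

theorem lin_apply (k : K) (x : V) : lin k x = ∑ j, 2 * Real.pi * (k j : ℝ) * x j := by
  unfold lin
  rw [ContinuousLinearMap.sum_apply]
  rfl

theorem lin_single (k : K) (j : Fin 3) : lin k (Pi.single j 1) = 2 * Real.pi * (k j : ℝ) := by
  rw [lin_apply, Finset.sum_eq_single j]
  · rw [Pi.single_eq_same, mul_one]
  · intro l _ hl
    rw [Pi.single_eq_of_ne hl, mul_zero]
  · intro h
    exact absurd (Finset.mem_univ j) h

theorem pD (n : ℕ) (j : Fin 3) (k : K) (c : ℝ) (g : ℝ → ℝ) (hg : ContDiff ℝ ∞ g) (x : V) :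
    partialD n j (fun y => c * g (lin k y)) x =
      c * (2 * Real.pi * (k j : ℝ)) ^ n * iteratedDeriv n g (lin k x) := by
  unfold partialD
  have h1 : (fun y : V => c * g (lin k y)) = (fun t : ℝ => c * g t) ∘ (lin k) := rfl
  have h2 : ContDiff ℝ ∞ (fun t : ℝ => c * g t) := contDiff_const.mul hg
  rw [h1, (lin k).iteratedFDeriv_comp_right h2 x (i := n) (by exact_mod_cast le_top),
    ContinuousMultilinearMap.compContinuousLinearMap_apply,
    iteratedFDeriv_apply_eq_iteratedDeriv_mul_prod]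
  rw [Finset.prod_const, Finset.card_univ, Fintype.card_fin, lin_single, smul_eq_mul]
  have h3 : iteratedDeriv n (fun t : ℝ => c * g t) = fun t => c * iteratedDeriv n g t := by
    funext t
    exact iteratedDeriv_const_mul_field c g
  rw [h3]
  ring

/-- the coefficients of the projection -/
noncomputable def cc (k : K) (i l : Fin 3) : ℝ :=
  (if l = i then 1 else 0) - (k i : ℝ) * (k l : ℝ) / ∑ j, (k j : ℝ) ^ 2

theorem cc_div (k : K) (i : Fin 3) : ∑ l, cc k i l * (k l : ℝ) = 0 := by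
  unfold cc
  simp only [sub_mul, ite_mul, one_mul, zero_mul, Finset.sum_sub_distrib, Finset.sum_ite_eq',
    Finset.mem_univ, if_true]
  by_cases h : ∑ j, (k j : ℝ) ^ 2 = 0
  · have hk : ∀ j, (k j : ℝ) = 0 := fun j => by
      have h1 := (Finset.sum_eq_zero_iff_of_nonneg (fun j _ => sq_nonneg (k j : ℝ))).1 h j
        (Finset.mem_univ j)
      exact pow_eq_zero_iff (two_ne_zero) |>.1 h1
    simp [hk]
  · have h1 : ∑ l, (k i : ℝ) * (k l : ℝ) / (∑ j, (k j : ℝ) ^ 2) * (k l : ℝ) =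
        (k i : ℝ) / (∑ j, (k j : ℝ) ^ 2) * ∑ l, (k l : ℝ) ^ 2 := by
      rw [Finset.mul_sum]
      exact Finset.sum_congr rfl fun l _ => by ring
    rw [h1, div_mul_cancel₀ _ h, sub_self]

theorem test (k : K) (i : Fin 3) (g : ℝ → ℝ) (hg : ContDiff ℝ ∞ g)
    (hper : ∀ (y : ℝ) (m : ℤ), g (y + m * (2 * Real.pi)) = g y) :
    Test (fun _ x l => cc k i l * g (lin k x)) where
  smooth := by
    apply ContDiff.contDiffOn
    rw [contDiff_pi]
    intro l
    exact contDiff_const.mul (hg.comp ((lin k).contDiff.comp contDiff_snd))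
  per := by
    intro t _ j x
    funext l
    show cc k i l * g (lin k (x + Pi.single j 1)) = cc k i l * g (lin k x)
    rw [map_add, lin_single]
    have h := hper (lin k x) (k j)
    rw [show lin k x + 2 * Real.pi * (k j : ℝ) = lin k x + (k j : ℤ) * (2 * Real.pi) by ring, h]
  divfree := by
    intro t _ x
    have h1 : ∀ j : Fin 3, partialD 1 j (fun y => cc k i j * g (lin k y)) x =
        (cc k i j * (k j : ℝ)) * (2 * Real.pi * iteratedDeriv 1 g (lin k x)) := by
      intro j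
      rw [pD 1 j k _ g hg x]
      ring
    show ∑ j, partialD 1 j (fun y => cc k i j * g (lin k y)) x = 0
    rw [Finset.sum_congr rfl fun j _ => h1 j, ← Finset.sum_mul, cc_div, zero_mul]

theorem fin_mQ : IsFiniteMeasure mQ :=
  ⟨by rw [Measure.restrict_apply_univ]; exact isCompact_Icc.measure_lt_top⟩

/-- the character -/
noncomputable def ek (k : K) (x : V) : ℂ :=
  Complex.exp (-(2 * Real.pi * I * ∑ j, (k j : ℂ) * (x j : ℂ)))

theorem ek_eq (k : K) (x : V) :
    ek k x = (Real.cos (lin k x) : ℂ) - I * (Real.sin (lin k x) : ℂ) := by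
  unfold ek
  have h1 : (-(2 * Real.pi * I * ∑ j, (k j : ℂ) * (x j : ℂ))) = ((-(lin k x) : ℝ) : ℂ) * I := by
    rw [lin_apply]
    push_cast
    have : ∑ j, 2 * (Real.pi : ℂ) * (k j : ℂ) * (x j : ℂ) =
        2 * Real.pi * ∑ j, (k j : ℂ) * (x j : ℂ) := by
      rw [Finset.mul_sum]
      exact Finset.sum_congr rfl fun j _ => by ring
    rw [this]
    ring
  rw [h1, Complex.exp_mul_I, ← Complex.ofReal_cos, ← Complex.ofReal_sin, Real.cos_neg,
    Real.sin_neg]
  push_cast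
  ring

theorem ek_norm (k : K) (x : V) : ‖ek k x‖ ≤ 1 := by
  unfold ek
  have h1 : (-(2 * Real.pi * I * ∑ j, (k j : ℂ) * (x j : ℂ))) = ((-(lin k x) : ℝ) : ℂ) * I := by
    rw [lin_apply]
    push_cast
    have : ∑ j, 2 * (Real.pi : ℂ) * (k j : ℂ) * (x j : ℂ) =
        2 * Real.pi * ∑ j, (k j : ℂ) * (x j : ℂ) := by
      rw [Finset.mul_sum]
      exact Finset.sum_congr rfl fun j _ => by ring
    rw [this]
    ring
  rw [h1, Complex.norm_exp_ofReal_mul_I]

theorem ek_cont (k : K) : Continuous (ek k) := by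
  unfold ek
  fun_prop

theorem int_ek (k : K) (F : V → ℝ) (hF : Integrable F mQ) :
    Integrable (fun x => (F x : ℂ) * ek k x) mQ :=
  hF.ofReal.mul_bdd (c := 1) (ek_cont k).aestronglyMeasurable (Eventually.of_forall fun x => ek_norm k x)

theorem cf_eq (F : V → ℝ) (k : K) : cf F k = ∫ x in Q, (F x : ℂ) * ek k x := rfl

theorem cf_sum {ι : Type*} (s : Finset ι) (F : ι → V → ℝ) (hF : ∀ l ∈ s, Integrable (F l) mQ)
    (k : K) : cf (fun x => ∑ l ∈ s, F l x) k = ∑ l ∈ s, cf (F l) k := by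
  simp only [cf_eq]
  rw [← integral_finsetSum s fun l hl => int_ek k (F l) (hF l hl)]
  congr 1
  funext x
  push_cast
  rw [Finset.sum_mul]

theorem cf_mul (c : ℝ) (F : V → ℝ) (k : K) : cf (fun x => c * F x) k = c * cf F k := by
  simp only [cf_eq]
  rw [← integral_const_mul]
  congr 1
  funext x
  push_cast
  ring

theorem cf_sub (F H : V → ℝ) (hF : Integrable F mQ) (hH : Integrable H mQ) (k : K) :
    cf (fun x => F x - H x) k = cf F k - cf H k := by
  simp only [cf_eq]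
  rw [← integral_sub (int_ek k F hF) (int_ek k H hH)]
  congr 1
  funext x
  push_cast
  ring

theorem int_g (k : K) (F : V → ℝ) (hF : Integrable F mQ) (g : ℝ → ℝ) (hg : Continuous g)
    (hb : ∀ y, |g y| ≤ 1) : Integrable (fun x => F x * g (lin k x)) mQ :=
  hF.mul_bdd (c := 1) (hg.comp (lin k).continuous).aestronglyMeasurable
    (Eventually.of_forall fun x => hb _)

theorem comb (m : ℕ) (k : K) (F H : V → ℝ) (hF : Integrable F mQ) (hH : Integrable H mQ) :
    ((∫ x in Q, (F x * iteratedDeriv 1 Real.cos (lin k x)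
        - H x * iteratedDeriv (2 * m + 1) Real.cos (lin k x)) : ℝ) : ℂ)
      - I * ((∫ x in Q, (F x * iteratedDeriv 1 Real.sin (lin k x)
        - H x * iteratedDeriv (2 * m + 1) Real.sin (lin k x)) : ℝ) : ℂ)
    = -I * cf F k + (-1) ^ m * I * cf H k := by
  have hc : ∀ j, Continuous (iteratedDeriv j Real.cos) := fun j =>
    (Real.contDiff_cos (n := ⊤)).continuous_iteratedDeriv j (by exact_mod_cast le_top)
  have hs : ∀ j, Continuous (iteratedDeriv j Real.sin) := fun j =>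
    (Real.contDiff_sin (n := ⊤)).continuous_iteratedDeriv j (by exact_mod_cast le_top)
  have i1 := (int_g k F hF _ (hc 1) (Real.abs_iteratedDeriv_cos_le_one 1)).sub
    (int_g k H hH _ (hc (2 * m + 1)) (Real.abs_iteratedDeriv_cos_le_one (2 * m + 1)))
  have i2 := (int_g k F hF _ (hs 1) (Real.abs_iteratedDeriv_sin_le_one 1)).sub
    (int_g k H hH _ (hs (2 * m + 1)) (Real.abs_iteratedDeriv_sin_le_one (2 * m + 1)))
  have j1 : Integrable (fun x => ((F x * iteratedDeriv 1 Real.cos (lin k x)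
        - H x * iteratedDeriv (2 * m + 1) Real.cos (lin k x) : ℝ) : ℂ)) mQ := i1.ofReal
  have j2 : Integrable (fun x => ((F x * iteratedDeriv 1 Real.sin (lin k x)
        - H x * iteratedDeriv (2 * m + 1) Real.sin (lin k x) : ℝ) : ℂ)) mQ := i2.ofReal
  rw [← integral_complex_ofReal, ← integral_complex_ofReal, ← integral_const_mul,
    ← integral_sub j1 (j2.const_mul I), cf_eq, cf_eq, ← integral_const_mul, ← integral_const_mul,
    ← integral_add ((int_ek k F hF).const_mul _) ((int_ek k H hH).const_mul _)]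
  congr 1
  funext x
  have e1 := Real.iteratedDeriv_odd_cos 0
  have e2 := Real.iteratedDeriv_odd_sin 0
  rw [show 2 * 0 + 1 = 1 from rfl] at e1 e2
  rw [e1, e2, Real.iteratedDeriv_odd_cos, Real.iteratedDeriv_odd_sin, ek_eq]
  simp only [Pi.mul_apply, Pi.pow_apply, Pi.neg_apply, Pi.one_apply]
  push_cast
  ring_nf
  simp only [Complex.I_sq]
  ring

theorem cc_Pr (k : K) (w : C3) (i : Fin 3) : ∑ l, (cc k i l : ℂ) * w l = Pr k w i := by
  unfold Pr cc dt
  have h1 : ∀ l : Fin 3, (((if l = i then 1 else 0) - (k i : ℝ) * (k l : ℝ) / ∑ j, (k j : ℝ) ^ 2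
      : ℝ) : ℂ) * w l = (if l = i then w l else 0)
        - (k i : ℂ) / (∑ j, (k j : ℂ) ^ 2) * ((k l : ℂ) * w l) := by
    intro l
    split_ifs with h
    · push_cast
      ring
    · push_cast
      ring
  rw [Finset.sum_congr rfl fun l _ => h1 l, Finset.sum_sub_distrib, ← Finset.mul_sum,
    Finset.sum_ite_eq', if_pos (Finset.mem_univ i)]
  ring

/-- the weak form at a fixed time -/
noncomputable def W (n : ℕ) (ν : ℝ) (α : Fin 3 → ℝ) (u : V → V) (G : V → Fin 3 → Fin 3 → ℝ) (k : K)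
    (i : Fin 3) (g : ℝ → ℝ) (s : ℝ) : ℝ :=
  ∫ x in Q, ((∑ l, u x l * deriv (fun _ : ℝ => cc k i l * g (lin k x)) s)
          + (∑ l, ∑ j, u x l * u x j * partialD 1 j (fun y => cc k i l * g (lin k y)) x)
          - ν * (∑ l, ∑ j, G x l j * partialD 1 j (fun y => cc k i l * g (lin k y)) x)
          - ∑ l, ∑ j, α j * (u x l * partialD n j (fun y => cc k i l * g (lin k y)) x))

/-- `k · u` -/
noncomputable def ku (k : K) (u : V → V) (x : V) : ℝ := ∑ j, (k j : ℝ) * u x j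

noncomputable def F1 (u : V → V) (k : K) (i : Fin 3) (x : V) : ℝ :=
  ∑ l, (cc k i l * (2 * Real.pi)) * (ku k u x * u x l)

noncomputable def F2 (G : V → Fin 3 → Fin 3 → ℝ) (k : K) (i : Fin 3) (x : V) : ℝ :=
  ∑ l, ∑ j, (cc k i l * (2 * Real.pi * (k j : ℝ))) * G x l j

noncomputable def HH (n : ℕ) (α : Fin 3 → ℝ) (u : V → V) (k : K) (i : Fin 3) (x : V) : ℝ :=
  ∑ l, ∑ j, (cc k i l * (α j * (2 * Real.pi * (k j : ℝ)) ^ n)) * u x l

theorem W_eq (n : ℕ) (ν : ℝ) (α : Fin 3 → ℝ) (u : V → V) (G : V → Fin 3 → Fin 3 → ℝ) (k : K)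
    (i : Fin 3) (g : ℝ → ℝ) (hg : ContDiff ℝ ∞ g) (s : ℝ) :
    W n ν α u G k i g s = ∫ x in Q, ((F1 u k i x - ν * F2 G k i x) * iteratedDeriv 1 g (lin k x)
      - HH n α u k i x * iteratedDeriv n g (lin k x)) := by
  unfold W
  congr 1
  funext x
  simp only [pD _ _ k _ g hg x, deriv_const, F1, F2, HH, ku, Fin.sum_univ_three]
  ring

theorem kn_sq (k : K) : kn k ^ 2 = ∑ j, (k j : ℝ) ^ 2 :=
  Real.sq_sqrt (Finset.sum_nonneg fun j _ => sq_nonneg _)

theorem int_u (u : V → V) (hu : ∀ i, MemLp (fun x => u x i) 2 mQ) (i : Fin 3) :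
    Integrable (fun x => u x i) mQ := by
  have := fin_mQ
  exact (hu i).integrable (by norm_num)

theorem ku_mem (k : K) (u : V → V) (hu : ∀ i, MemLp (fun x => u x i) 2 mQ) :
    MemLp (ku k u) 2 mQ := by
  have h := memLp_finsetSum (μ := mQ) (p := 2) (Finset.univ : Finset (Fin 3))
    (f := fun j x => (k j : ℝ) * u x j) fun j _ => (hu j).const_mul (k j : ℝ)
  exact h

theorem int_kuu (k : K) (u : V → V) (hu : ∀ i, MemLp (fun x => u x i) 2 mQ) (l : Fin 3) :
    Integrable (fun x => ku k u x * u x l) mQ :=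
  (ku_mem k u hu).integrable_mul (hu l)

theorem int_F1 (k : K) (u : V → V) (hu : ∀ i, MemLp (fun x => u x i) 2 mQ) (i : Fin 3) :
    Integrable (F1 u k i) mQ := by
  unfold F1
  exact integrable_finsetSum _ fun l _ => (int_kuu k u hu l).const_mul _

theorem int_F2 (k : K) (G : V → Fin 3 → Fin 3 → ℝ) (hG : ∀ i j, MemLp (fun x => G x i j) 2 mQ)
    (i : Fin 3) : Integrable (F2 G k i) mQ := by
  have := fin_mQ
  unfold F2
  exact integrable_finsetSum _ fun l _ => integrable_finsetSum _ fun j _ =>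
    ((hG l j).integrable (by norm_num)).const_mul _

theorem int_HH (n : ℕ) (α : Fin 3 → ℝ) (k : K) (u : V → V) (hu : ∀ i, MemLp (fun x => u x i) 2 mQ)
    (i : Fin 3) : Integrable (HH n α u k i) mQ := by
  unfold HH
  exact integrable_finsetSum _ fun l _ => integrable_finsetSum _ fun j _ =>
    (int_u u hu l).const_mul _

theorem cf_F1 (k : K) (u : V → V) (hu : ∀ i, MemLp (fun x => u x i) 2 mQ) (i : Fin 3) :
    cf (F1 u k i) k = ∑ l, ((cc k i l * (2 * Real.pi) : ℝ) : ℂ) *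
      cf (fun x => ku k u x * u x l) k := by
  unfold F1
  rw [cf_sum _ _ fun l _ => (int_kuu k u hu l).const_mul _]
  exact Finset.sum_congr rfl fun l _ => cf_mul _ _ _

theorem cf_F2 (k : K) (G : V → Fin 3 → Fin 3 → ℝ) (hG : ∀ i j, MemLp (fun x => G x i j) 2 mQ)
    (i : Fin 3) : cf (F2 G k i) k = ∑ l, ∑ j, ((cc k i l * (2 * Real.pi * (k j : ℝ)) : ℝ) : ℂ) *
      cf (fun x => G x l j) k := by
  have := fin_mQ
  unfold F2
  rw [cf_sum _ _ fun l _ => integrable_finsetSum _ fun j _ =>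
    ((hG l j).integrable (by norm_num)).const_mul _]
  refine Finset.sum_congr rfl fun l _ => ?_
  rw [cf_sum _ _ fun j _ => ((hG l j).integrable (by norm_num)).const_mul _]
  exact Finset.sum_congr rfl fun j _ => cf_mul _ _ _

theorem cf_HH (n : ℕ) (α : Fin 3 → ℝ) (k : K) (u : V → V)
    (hu : ∀ i, MemLp (fun x => u x i) 2 mQ) (i : Fin 3) :
    cf (HH n α u k i) k = ∑ l, ∑ j,
      ((cc k i l * (α j * (2 * Real.pi * (k j : ℝ)) ^ n) : ℝ) : ℂ) * cf (fun x => u x l) k := by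
  unfold HH
  rw [cf_sum _ _ fun l _ => integrable_finsetSum _ fun j _ => (int_u u hu l).const_mul _]
  refine Finset.sum_congr rfl fun l _ => ?_
  rw [cf_sum _ _ fun j _ => (int_u u hu l).const_mul _]
  exact Finset.sum_congr rfl fun j _ => cf_mul _ _ _

theorem cf_ku (k : K) (u : V → V) (hu : ∀ i, MemLp (fun x => u x i) 2 mQ) (p : K) :
    cf (ku k u) p = ∑ j, (k j : ℂ) * cf (fun x => u x j) p := by
  unfold ku
  rw [cf_sum _ _ fun j _ => (int_u u hu j).const_mul _]
  refine Finset.sum_congr rfl fun j _ => ?_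
  rw [cf_mul]
  push_cast
  rfl

/-- the coefficients -/
noncomputable def U (u : V → V) : K → C3 := fun k i => cf (fun x => u x i) k

theorem Bn_eq (h2 : P2) (k : K) (u : V → V) (hu : ∀ i, MemLp (fun x => u x i) 2 mQ) (l : Fin 3) :
    Bn (U u) k l = 2 * Real.pi * I * cf (fun x => ku k u x * u x l) k := by
  unfold Bn
  rw [h2 (ku k u) (fun x => u x l) (ku_mem k u hu) (hu l) k]
  congr 2
  funext p
  rw [cf_ku k u hu p]
  rfl

theorem fixed (h2 : P2) (h3 : P3) (h4 : P4) (n m : ℕ) (hn : n = 2 * m + 1) (ν : ℝ) (α : Fin 3 → ℝ)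
    (u : V → V) (G : V → Fin 3 → Fin 3 → ℝ) (hu : ∀ i, MemLp (fun x => u x i) 2 mQ)
    (hG : ∀ i j, MemLp (fun x => G x i j) 2 mQ)
    (hgrad : ∀ ψ : V → ℝ, ContDiff ℝ ∞ ψ → Periodic ψ → ∀ i j,
      ∫ x in Q, u x i * partialD 1 j ψ x = -∫ x in Q, G x i j * ψ x)
    (hdiv : ∀ ψ : V → ℝ, ContDiff ℝ ∞ ψ → Periodic ψ → ∫ x in Q, ∑ j, u x j * partialD 1 j ψ x = 0)
    (k : K) (i : Fin 3) (s : ℝ) :
    (W n ν α u G k i Real.cos s : ℂ) - I * (W n ν α u G k i Real.sin s : ℂ) =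
      (-((4 * Real.pi ^ 2 * ν * kn k ^ 2 : ℝ) : ℂ) + I * (gg n α k : ℂ)) * U u k i
        - Nl (U u) k i := by
  subst hn
  rw [W_eq _ _ _ _ _ _ _ _ Real.contDiff_cos, W_eq _ _ _ _ _ _ _ _ Real.contDiff_sin,
    comb m k (fun x => F1 u k i x - ν * F2 G k i x) _ ((int_F1 k u hu i).sub ((int_F2 k G hG i).const_mul ν))
      (int_HH (2 * m + 1) α k u hu i),
    cf_sub _ _ (int_F1 k u hu i) ((int_F2 k G hG i).const_mul ν), cf_mul, cf_F1 k u hu,
    cf_F2 k G hG, cf_HH _ _ k u hu]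
  have hd : dt k (U u k) = 0 := h4 u hu hdiv k
  have hcc : ∑ l, (cc k i l : ℂ) * U u k l = U u k i := by
    rw [cc_Pr]
    unfold Pr
    rw [hd]
    ring
  have e1 : ∑ l, ((cc k i l * (2 * Real.pi) : ℝ) : ℂ) * cf (fun x => ku k u x * u x l) k =
      -I * Nl (U u) k i := by
    unfold Nl
    rw [← cc_Pr, Finset.mul_sum]
    refine Finset.sum_congr rfl fun l _ => ?_
    rw [Bn_eq h2 k u hu l]
    push_cast
    linear_combination ((cc k i l : ℂ) * (2 * Real.pi) * cf (fun x => ku k u x * u x l) k)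
      * Complex.I_sq
  have e2 : ∑ l, ∑ j, ((cc k i l * (2 * Real.pi * (k j : ℝ)) : ℝ) : ℂ) * cf (fun x => G x l j) k =
      4 * Real.pi ^ 2 * I * (kn k ^ 2 : ℝ) * U u k i := by
    rw [kn_sq, ← hcc]
    have : ∀ l j : Fin 3, ((cc k i l * (2 * Real.pi * (k j : ℝ)) : ℝ) : ℂ) *
        cf (fun x => G x l j) k =
        (4 * Real.pi ^ 2 * I * (k j : ℂ) ^ 2) * ((cc k i l : ℂ) * U u k l) := by
      intro l j
      rw [h3 (fun x => u x l) (fun x => G x l j) j (hu l) (hG l j)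
        (fun ψ hψ hp => hgrad ψ hψ hp l j) k]
      unfold U
      push_cast
      ring
    rw [Finset.sum_congr rfl fun l _ => Finset.sum_congr rfl fun j _ => this l j]
    simp only [Fin.sum_univ_three]
    push_cast
    ring
  have e3 : ∑ l, ∑ j, ((cc k i l * (α j * (2 * Real.pi * (k j : ℝ)) ^ (2 * m + 1)) : ℝ) : ℂ) *
      cf (fun x => u x l) k =
      ((∑ j, α j * (2 * Real.pi * (k j : ℝ)) ^ (2 * m + 1) : ℝ) : ℂ) * U u k i := by
    rw [← hcc]
    have : ∀ l j : Fin 3,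
        ((cc k i l * (α j * (2 * Real.pi * (k j : ℝ)) ^ (2 * m + 1)) : ℝ) : ℂ) *
        cf (fun x => u x l) k = ((α j * (2 * Real.pi * (k j : ℝ)) ^ (2 * m + 1) : ℝ) : ℂ) *
          ((cc k i l : ℂ) * U u k l) := by
      intro l j
      unfold U
      push_cast
      ring
    rw [Finset.sum_congr rfl fun l _ => Finset.sum_congr rfl fun j _ => this l j]
    simp only [Fin.sum_univ_three]
    push_cast
    ring
  rw [e1, e2, e3]
  unfold gg
  rw [show (2 * m + 1 - 1) / 2 = m by omega]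
  push_cast
  linear_combination (Nl (U u) k i + 4 * ν * Real.pi ^ 2 * (kn k) ^ 2 * U u k i) * Complex.I_sq

/-- Lebesgue measure on `[0, T]` -/
noncomputable abbrev mT (T : ℝ) : Measure ℝ := volume.restrict (Icc 0 T)

theorem fin_mT (T : ℝ) : IsFiniteMeasure (mT T) :=
  ⟨by rw [Measure.restrict_apply_univ]; exact isCompact_Icc.measure_lt_top⟩

theorem meas_ui {u : ℝ → V → V} (hm : Measurable fun z : ℝ × V => u z.1 z.2) (i : Fin 3) :
    Measurable fun z : ℝ × V => u z.1 z.2 i := (measurable_pi_apply i).comp hm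

theorem en_bd {n : ℕ} {ν : ℝ} {α : Fin 3 → ℝ} {T : ℝ} {u₀ : V → V} {u : ℝ → V → V}
    {G : ℝ → V → Fin 3 → Fin 3 → ℝ} (hν : 0 < ν) (h : IsLerayHopf n ν α T u₀ u G) (t : ℝ)
    (ht : t ∈ Icc 0 T) (i : Fin 3) : ∫ x in Q, u t x i ^ 2 ≤ ∫ x in Q, ∑ i, u₀ x i ^ 2 := by
  have h1 := h.energy t ht
  have h2 : 0 ≤ ∫ s in (0 : ℝ)..t, ∫ x in Q, ∑ i, ∑ j, G s x i j ^ 2 := by
    apply intervalIntegral.integral_nonneg ht.1
    intro s _
    apply integral_nonneg
    intro x
    exact Finset.sum_nonneg fun i _ => Finset.sum_nonneg fun j _ => sq_nonneg _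
  have h3 : ∫ x in Q, u t x i ^ 2 ≤ ∫ x in Q, ∑ i, u t x i ^ 2 := by
    apply integral_mono (h.l2_u t ht i).integrable_sq
      (integrable_finsetSum _ fun j _ => (h.l2_u t ht j).integrable_sq)
    intro x
    exact Finset.single_le_sum (f := fun j => u t x j ^ 2) (fun j _ => sq_nonneg _)
      (Finset.mem_univ i)
  have h4 := mul_nonneg hν.le h2
  linarith

theorem sq_int {n : ℕ} {ν : ℝ} {α : Fin 3 → ℝ} {T : ℝ} {u₀ : V → V} {u : ℝ → V → V}
    {G : ℝ → V → Fin 3 → Fin 3 → ℝ} (hν : 0 < ν) (h : IsLerayHopf n ν α T u₀ u G) (i : Fin 3) :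
    Integrable (fun z : ℝ × V => u z.1 z.2 i ^ 2) ((mT T).prod mQ) := by
  have := fin_mT T
  have := fin_mQ
  have hm : AEStronglyMeasurable (fun z : ℝ × V => u z.1 z.2 i ^ 2) ((mT T).prod mQ) :=
    ((meas_ui h.meas_u i).pow_const 2).aestronglyMeasurable
  rw [integrable_prod_iff hm]
  constructor
  · exact ae_restrict_of_forall_mem measurableSet_Icc fun t ht => (h.l2_u t ht i).integrable_sq
  · refine Integrable.of_bound (C := ∫ x in Q, ∑ i, u₀ x i ^ 2) hm.norm.integral_prod_right' ?_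
    refine ae_restrict_of_forall_mem measurableSet_Icc fun t ht => ?_
    rw [Real.norm_of_nonneg (integral_nonneg fun x => norm_nonneg _)]
    have := en_bd hν h t ht i
    simpa [abs_of_nonneg, sq_nonneg] using this

theorem mul_int {n : ℕ} {ν : ℝ} {α : Fin 3 → ℝ} {T : ℝ} {u₀ : V → V} {u : ℝ → V → V}
    {G : ℝ → V → Fin 3 → Fin 3 → ℝ} (hν : 0 < ν) (h : IsLerayHopf n ν α T u₀ u G) (i j : Fin 3) :
    Integrable (fun z : ℝ × V => u z.1 z.2 i * u z.1 z.2 j) ((mT T).prod mQ) := by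
  refine Integrable.mono' ((sq_int hν h i).add (sq_int hν h j))
    ((meas_ui h.meas_u i).mul (meas_ui h.meas_u j)).aestronglyMeasurable
    (Eventually.of_forall fun z => ?_)
  simp only [Pi.add_apply, Real.norm_eq_abs]
  rw [abs_le]
  constructor <;> nlinarith [sq_nonneg (u z.1 z.2 i + u z.1 z.2 j),
    sq_nonneg (u z.1 z.2 i - u z.1 z.2 j), sq_nonneg (u z.1 z.2 i), sq_nonneg (u z.1 z.2 j)]

theorem one_int {n : ℕ} {ν : ℝ} {α : Fin 3 → ℝ} {T : ℝ} {u₀ : V → V} {u : ℝ → V → V}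
    {G : ℝ → V → Fin 3 → Fin 3 → ℝ} (hν : 0 < ν) (h : IsLerayHopf n ν α T u₀ u G) (i : Fin 3) :
    Integrable (fun z : ℝ × V => u z.1 z.2 i) ((mT T).prod mQ) := by
  have := fin_mT T
  have := fin_mQ
  refine Integrable.mono' ((sq_int hν h i).add (integrable_const (1 : ℝ)))
    (meas_ui h.meas_u i).aestronglyMeasurable (Eventually.of_forall fun z => ?_)
  simp only [Pi.add_apply, Real.norm_eq_abs]
  rw [abs_le]
  constructor <;> nlinarith [sq_nonneg (u z.1 z.2 i + 1), sq_nonneg (u z.1 z.2 i - 1),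
    sq_nonneg (u z.1 z.2 i)]

theorem cf_int {T : ℝ} (F : ℝ × V → ℝ) (hF : Integrable F ((mT T).prod mQ)) (k : K) :
    Integrable (fun s => cf (fun x => F (s, x)) k) (mT T) := by
  have := fin_mQ
  have h1 : Integrable (fun z : ℝ × V => (F z : ℂ) * ek k z.2) ((mT T).prod mQ) :=
    hF.ofReal.mul_bdd (c := 1) ((ek_cont k).comp continuous_snd).aestronglyMeasurable
      (Eventually.of_forall fun z => ek_norm k z.2)
  exact h1.integral_prod_left

theorem u_int {n : ℕ} {ν : ℝ} {α : Fin 3 → ℝ} {T : ℝ} {u₀ : V → V} {u : ℝ → V → V}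
    {G : ℝ → V → Fin 3 → Fin 3 → ℝ} (hν : 0 < ν) (h : IsLerayHopf n ν α T u₀ u G) (k : K)
    (i : Fin 3) : Integrable (fun s => U (u s) k i) (mT T) :=
  cf_int (fun z => u z.1 z.2 i) (one_int hν h i) k

theorem Nl_int {n : ℕ} {ν : ℝ} {α : Fin 3 → ℝ} {T : ℝ} {u₀ : V → V} {u : ℝ → V → V}
    {G : ℝ → V → Fin 3 → Fin 3 → ℝ} (h2 : P2) (hν : 0 < ν) (h : IsLerayHopf n ν α T u₀ u G) (k : K)
    (i : Fin 3) : Integrable (fun s => Nl (U (u s)) k i) (mT T) := by
  have h3 : ∀ l : Fin 3, Integrable (fun s => cf (fun x => ku k (u s) x * u s x l) k) (mT T) := by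
    intro l
    refine cf_int (fun z : ℝ × V => ku k (u z.1) z.2 * u z.1 z.2 l) ?_ k
    have h4 : Integrable (fun z : ℝ × V => ∑ j, (k j : ℝ) * (u z.1 z.2 j * u z.1 z.2 l))
        ((mT T).prod mQ) := integrable_finsetSum _ fun j _ => (mul_int hν h j l).const_mul _
    refine h4.congr (Eventually.of_forall fun z => ?_)
    simp only [ku, Finset.sum_mul]
    exact Finset.sum_congr rfl fun j _ => by ring
  have h5 : Integrable (fun s => ∑ l, ((cc k i l : ℂ) * (2 * Real.pi * I)) *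
      cf (fun x => ku k (u s) x * u s x l) k) (mT T) :=
    integrable_finsetSum _ fun l _ => (h3 l).const_mul _
  refine h5.congr (ae_restrict_of_forall_mem measurableSet_Icc fun s hs => ?_)
  simp only [Nl]
  rw [← cc_Pr]
  refine Finset.sum_congr rfl fun l _ => ?_
  rw [Bn_eq h2 k (u s) (h.l2_u s hs) l]
  ring

theorem G_mem {n : ℕ} {ν : ℝ} {α : Fin 3 → ℝ} {T : ℝ} {u₀ : V → V} {u : ℝ → V → V}
    {G : ℝ → V → Fin 3 → Fin 3 → ℝ} (h : IsLerayHopf n ν α T u₀ u G) :
    ∀ᵐ s ∂(mT T), ∀ i j, MemLp (fun x => G s x i j) 2 mQ := by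
  have := fin_mQ
  have := fin_mT T
  rw [ae_all_iff]
  intro i
  rw [ae_all_iff]
  intro j
  have h1 := (h.l2_G i j).integrable_sq
  rw [Measure.volume_eq_prod, ← Measure.prod_restrict] at h1
  have h2 := h1.prod_right_ae
  filter_upwards [h2] with s hs
  have hm : Measurable (fun x => G s x i j) :=
    (measurable_pi_apply j).comp ((measurable_pi_apply i).comp
      (h.meas_G.comp measurable_prodMk_left))
  exact (memLp_two_iff_integrable_sq hm.aestronglyMeasurable).2 hs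

/-- the right side -/
noncomputable def rh (n : ℕ) (ν : ℝ) (α : Fin 3 → ℝ) (u : ℝ → V → V) (k : K) (i : Fin 3) (s : ℝ) :
    ℂ := (-((4 * Real.pi ^ 2 * ν * kn k ^ 2 : ℝ) : ℂ) + I * (gg n α k : ℂ)) * U (u s) k i
        - Nl (U (u s)) k i

theorem rh_int {n : ℕ} {ν : ℝ} {α : Fin 3 → ℝ} {T : ℝ} {u₀ : V → V} {u : ℝ → V → V}
    {G : ℝ → V → Fin 3 → Fin 3 → ℝ} (h2 : P2) (hν : 0 < ν) (h : IsLerayHopf n ν α T u₀ u G) (k : K)
    (i : Fin 3) : Integrable (rh n ν α u k i) (mT T) :=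
  ((u_int hν h k i).const_mul _).sub (Nl_int h2 hν h k i)

theorem ae_rh {n : ℕ} {ν : ℝ} {α : Fin 3 → ℝ} {T : ℝ} {u₀ : V → V} {u : ℝ → V → V}
    {G : ℝ → V → Fin 3 → Fin 3 → ℝ} (h2 : P2) (h3 : P3) (h4 : P4) (hn : Odd n)
    (h : IsLerayHopf n ν α T u₀ u G) (k : K) (i : Fin 3) :
    ∀ᵐ s ∂(mT T), (W n ν α (u s) (G s) k i Real.cos s : ℂ)
      - I * (W n ν α (u s) (G s) k i Real.sin s : ℂ) = rh n ν α u k i s := by
  obtain ⟨m, hm⟩ := hn
  filter_upwards [G_mem h, h.grad, ae_restrict_mem measurableSet_Icc] with s h5 h6 hs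
  exact fixed h2 h3 h4 n m hm ν α (u s) (G s) (h.l2_u s hs) h5 h6 (h.divfree s hs) k i s

/-- the functional -/
noncomputable def AA (u : V → V) (k : K) (i : Fin 3) (g : ℝ → ℝ) : ℝ :=
  ∫ x in Q, ∑ l, u x l * (cc k i l * g (lin k x))

theorem AA_U (h4 : P4) (u : V → V) (hu : ∀ i, MemLp (fun x => u x i) 2 mQ)
    (hdiv : ∀ ψ : V → ℝ, ContDiff ℝ ∞ ψ → Periodic ψ → ∫ x in Q, ∑ j, u x j * partialD 1 j ψ x = 0)
    (k : K) (i : Fin 3) : (AA u k i Real.cos : ℂ) - I * (AA u k i Real.sin : ℂ) = U u k i := by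
  have hd : dt k (U u k) = 0 := h4 u hu hdiv k
  have hcc : ∑ l, (cc k i l : ℂ) * U u k l = U u k i := by
    rw [cc_Pr]
    unfold Pr
    rw [hd]
    ring
  rw [← hcc]
  unfold AA
  have i1 : Integrable (fun x => ((∑ l, u x l * (cc k i l * Real.cos (lin k x)) : ℝ) : ℂ)) mQ := by
    have r : Integrable (fun x => ∑ l, u x l * (cc k i l * Real.cos (lin k x))) mQ := by
      refine integrable_finsetSum _ fun l _ => ?_
      have := (int_g k _ (int_u u hu l) Real.cos Real.continuous_cos Real.abs_cos_le_one).const_mul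
        (cc k i l)
      exact this.congr (Eventually.of_forall fun x => by ring)
    exact r.ofReal
  have i2 : Integrable (fun x => ((∑ l, u x l * (cc k i l * Real.sin (lin k x)) : ℝ) : ℂ)) mQ := by
    have r : Integrable (fun x => ∑ l, u x l * (cc k i l * Real.sin (lin k x))) mQ := by
      refine integrable_finsetSum _ fun l _ => ?_
      have := (int_g k _ (int_u u hu l) Real.sin Real.continuous_sin Real.abs_sin_le_one).const_mul
        (cc k i l)
      exact this.congr (Eventually.of_forall fun x => by ring)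
    exact r.ofReal
  rw [← integral_complex_ofReal, ← integral_complex_ofReal, ← integral_const_mul,
    ← integral_sub i1 (i2.const_mul I)]
  have e1 : ∑ l, (cc k i l : ℂ) * U u k l = cf (fun x => ∑ l, cc k i l * u x l) k := by
    rw [cf_sum _ _ fun l _ => (int_u u hu l).const_mul _]
    exact Finset.sum_congr rfl fun l _ => (cf_mul _ _ _).symm
  rw [e1, cf_eq]
  congr 1
  funext x
  rw [ek_eq]
  simp only [Fin.sum_univ_three]
  push_cast
  ring

theorem main {n : ℕ} {ν : ℝ} {α : Fin 3 → ℝ} {T : ℝ} {u₀ : V → V} {u : ℝ → V → V}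
    {G : ℝ → V → Fin 3 → Fin 3 → ℝ} (h2 : P2) (h3 : P3) (h4 : P4) (hν : 0 < ν) (hn : Odd n)
    (h : IsLerayHopf n ν α T u₀ u G) (k : K) (i : Fin 3) (t : ℝ) (ht : t ∈ Icc 0 T) :
    U (u t) k i = U (u 0) k i + ∫ s in (0 : ℝ)..t, rh n ν α u k i s := by
  have h0 : (0 : ℝ) ∈ Icc 0 T := ⟨le_rfl, ht.1.trans ht.2⟩
  have hR : IntervalIntegrable (rh n ν α u k i) volume 0 t := by
    rw [intervalIntegrable_iff_integrableOn_Ioc_of_le ht.1]
    exact IntegrableOn.mono_set (t := Icc 0 T) (rh_int h2 hν h k i)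
      (fun s hs => ⟨hs.1.le, hs.2.trans ht.2⟩)
  have hae : ∀ᵐ s ∂volume, s ∈ Set.uIoc (0 : ℝ) t → (W n ν α (u s) (G s) k i Real.cos s : ℂ)
      - I * (W n ν α (u s) (G s) k i Real.sin s : ℂ) = rh n ν α u k i s := by
    have h5 := ae_rh h2 h3 h4 hn h k i
    rw [ae_restrict_iff' measurableSet_Icc] at h5
    filter_upwards [h5] with s hs h6
    rw [uIoc_of_le ht.1] at h6
    exact hs ⟨h6.1.le, h6.2.trans ht.2⟩
  have wk : ∀ (g : ℝ → ℝ), ContDiff ℝ ∞ g → (∀ (y : ℝ) (m : ℤ), g (y + m * (2 * Real.pi)) = g y) →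
      AA (u t) k i g - AA (u 0) k i g = ∫ s in (0 : ℝ)..t, W n ν α (u s) (G s) k i g s := by
    intro g hg hp
    have w1 : AA (u t) k i g - AA u₀ k i g = ∫ s in (0 : ℝ)..t, W n ν α (u s) (G s) k i g s :=
      h.weak _ (test k i g hg hp) t ht
    have w2 : AA (u 0) k i g - AA u₀ k i g = ∫ s in (0 : ℝ)..0, W n ν α (u s) (G s) k i g s :=
      h.weak _ (test k i g hg hp) 0 h0
    rw [intervalIntegral.integral_same] at w2
    linarith
  have w1 := wk Real.cos Real.contDiff_cos fun y m => Real.cos_add_int_mul_two_pi y m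
  have w2 := wk Real.sin Real.contDiff_sin fun y m => Real.sin_add_int_mul_two_pi y m
  have r1 : ∫ s in (0 : ℝ)..t, W n ν α (u s) (G s) k i Real.cos s =
      (∫ s in (0 : ℝ)..t, rh n ν α u k i s).re := by
    have e := Complex.reCLM.intervalIntegral_comp_comm hR
    rw [Complex.reCLM_apply] at e
    rw [← e]
    apply intervalIntegral.integral_congr_ae
    filter_upwards [hae] with s hs h6
    rw [← hs h6]
    simp
  have r2 : ∫ s in (0 : ℝ)..t, W n ν α (u s) (G s) k i Real.sin s =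
      -(∫ s in (0 : ℝ)..t, rh n ν α u k i s).im := by
    have e := Complex.imCLM.intervalIntegral_comp_comm hR
    rw [Complex.imCLM_apply] at e
    rw [← e, ← intervalIntegral.integral_neg]
    apply intervalIntegral.integral_congr_ae
    filter_upwards [hae] with s hs h6
    rw [← hs h6]
    simp
  rw [← AA_U h4 (u t) (h.l2_u t ht) (h.divfree t ht) k i,
    ← AA_U h4 (u 0) (h.l2_u 0 h0) (h.divfree 0 h0) k i]
  have s1 : AA (u t) k i Real.cos = AA (u 0) k i Real.cos +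
      (∫ s in (0 : ℝ)..t, rh n ν α u k i s).re := by linarith
  have s2 : AA (u t) k i Real.sin = AA (u 0) k i Real.sin -
      (∫ s in (0 : ℝ)..t, rh n ν α u k i s).im := by linarith
  rw [s1, s2]
  have s3 := Complex.re_add_im (∫ s in (0 : ℝ)..t, rh n ν α u k i s)
  push_cast
  linear_combination s3

end TP5

theorem p5 (h2 : P2) (h3 : P3) (h4 : P4) : P5 := by
  intro n ν α T u₀ u G hν hn h
  refine ⟨fun k i => TP5.Nl_int h2 hν h k i, fun k i => ?_,
    fun k i t ht => TP5.main h2 h3 h4 hν hn h k i t ht⟩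
  rcases le_or_gt 0 T with hT | hT
  · have h1 : ContinuousOn (fun t => ∫ s in (0 : ℝ)..t, TP5.rh n ν α u k i s) (Icc 0 T) := by
      have := intervalIntegral.continuousOn_primitive_interval (f := TP5.rh n ν α u k i)
        (μ := volume) (a := 0) (b := T) (by
          rw [uIcc_of_le hT]
          exact TP5.rh_int h2 hν h k i)
      rwa [uIcc_of_le hT] at this
    have h2' : ContinuousOn (fun t => TP5.U (u 0) k i + ∫ s in (0 : ℝ)..t, TP5.rh n ν α u k i s)
        (Icc 0 T) := continuousOn_const.add h1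
    refine h2'.congr fun t ht => ?_
    exact TP5.main h2 h3 h4 hν hn h k i t ht
  · rw [Icc_eq_empty (not_le.2 hT)]
    exact continuousOn_empty _

end Pool.Agent.H303.DEE.F
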