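import Pool.Agent.H303.DEE.Stm5

/-!
The dissipation in Fourier variables (`P6`).
-/

open MeasureTheory Set Filter Topology Complex
open scoped ContDiff ENNReal

namespace Pool.Agent.H303.DEE.F

namespace FP6

theorem norm_cf {a b : ℂ} {k : K} {j : Fin 3} (h : a = 2 * Real.pi * I * (k j : ℂ) * b) :
    ‖a‖ ^ 2 = 4 * Real.pi ^ 2 * ((k j : ℝ) ^ 2 * ‖b‖ ^ 2) := by
  rw [h, norm_mul, norm_mul, norm_mul, norm_mul, Complex.norm_I, Complex.norm_two,
    Complex.norm_real, Real.norm_eq_abs, abs_of_pos Real.pi_pos]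
  have h2 : ‖((k j : ℤ) : ℂ)‖ ^ 2 = (k j : ℝ) ^ 2 := by
    rw [Complex.norm_intCast, sq_abs]
  have h3 : (2 * Real.pi * 1 * ‖((k j : ℤ) : ℂ)‖ * ‖b‖) ^ 2 =
      4 * Real.pi ^ 2 * (‖((k j : ℤ) : ℂ)‖ ^ 2 * ‖b‖ ^ 2) := by ring
  rw [h3, h2]

theorem sum_sq (k : K) (v : C3) :
    ∑ i, ∑ j, 4 * Real.pi ^ 2 * ((k j : ℝ) ^ 2 * ‖v i‖ ^ 2) =
      4 * Real.pi ^ 2 * (kn k ^ 2 * nm v ^ 2) := by
  have h1 : kn k ^ 2 = ∑ j, (k j : ℝ) ^ 2 := by
    unfold kn
    exact Real.sq_sqrt (Finset.sum_nonneg fun j _ => sq_nonneg _)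
  have h2 : nm v ^ 2 = ∑ i, ‖v i‖ ^ 2 := by
    unfold nm
    exact Real.sq_sqrt (Finset.sum_nonneg fun j _ => sq_nonneg _)
  rw [h1, h2, Finset.sum_mul_sum, Finset.sum_comm, Finset.mul_sum]
  refine Finset.sum_congr rfl fun j _ => ?_
  rw [Finset.mul_sum]

end FP6

open FP6 in
theorem p6 (h1 : P1) (h3 : P3) : P6 := by
  intro n ν α T u₀ u G hν hL hc t ht
  rw [intervalIntegral.integral_of_le ht.1]
  have hsub : Ioc 0 t ⊆ Icc 0 T := fun s hs => ⟨hs.1.le, hs.2.trans ht.2⟩
  have hprod : (volume.restrict (Icc 0 T ×ˢ Q) : Measure (ℝ × V)) =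
      (volume.restrict (Icc 0 T)).prod (volume.restrict Q) := by
    rw [Measure.prod_restrict]
    rfl
  -- integrability of the squares on the product
  have hint : ∀ i j, Integrable (fun z : ℝ × V => G z.1 z.2 i j ^ 2)
      ((volume.restrict (Icc 0 T)).prod (volume.restrict Q)) := by
    intro i j
    rw [← hprod]
    exact (hL.l2_G i j).integrable_sq
  have hmG : ∀ (s : ℝ) i j, Measurable fun x : V => G s x i j := by
    intro s i j
    have h := hL.meas_G.comp (measurable_prodMk_left (x := s) : Measurable fun x : V => (s, x))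
    exact (measurable_pi_apply j).comp ((measurable_pi_apply i).comp h)
  have hfib : ∀ᵐ s ∂(volume.restrict (Icc 0 T)), ∀ i j,
      Integrable (fun x => G s x i j ^ 2) (volume.restrict Q) := by
    rw [ae_all_iff]
    intro i
    rw [ae_all_iff]
    intro j
    exact (hint i j).prod_right_ae
  have hmem : ∀ᵐ s ∂(volume.restrict (Icc 0 T)), ∀ i j,
      MemLp (fun x => G s x i j) 2 (volume.restrict Q) := by
    filter_upwards [hfib] with s hs i j
    exact (memLp_two_iff_integrable_sq (hmG s i j).aestronglyMeasurable).2 (hs i j)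
  -- Parseval at almost all times
  have hpars : ∀ᵐ s ∂(volume.restrict (Icc 0 T)),
      HasSum (fun k => 4 * Real.pi ^ 2 * (kn k ^ 2 * nm (fun i => cf (fun x => u s x i) k) ^ 2))
        (∫ x in Q, ∑ i, ∑ j, G s x i j ^ 2) := by
    filter_upwards [hmem, hfib, hL.grad, ae_restrict_mem measurableSet_Icc] with s hs hs' hg hsT
    have e1 : ∀ i j, HasSum (fun k => 4 * Real.pi ^ 2 * ((k j : ℝ) ^ 2 *
        ‖cf (fun x => u s x i) k‖ ^ 2)) (∫ x in Q, G s x i j ^ 2) := by
      intro i j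
      have h5 := h1 (fun x => G s x i j) (hs i j)
      have h6 : (fun k => ‖cf (fun x => G s x i j) k‖ ^ 2) = fun k => 4 * Real.pi ^ 2 *
          ((k j : ℝ) ^ 2 * ‖cf (fun x => u s x i) k‖ ^ 2) := funext fun k =>
        norm_cf (h3 (fun x => u s x i) (fun x => G s x i j) j (hL.l2_u s hsT i) (hs i j)
          (fun ψ hψ hper => hg ψ hψ hper i j) k)
      rw [h6] at h5
      exact h5
    have e2 : HasSum (fun k => ∑ i, ∑ j, 4 * Real.pi ^ 2 * ((k j : ℝ) ^ 2 *
        ‖cf (fun x => u s x i) k‖ ^ 2)) (∑ i, ∑ j, ∫ x in Q, G s x i j ^ 2) :=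
      hasSum_sum fun i _ => hasSum_sum fun j _ => e1 i j
    have e3 : ∑ i, ∑ j, ∫ x in Q, G s x i j ^ 2 = ∫ x in Q, ∑ i, ∑ j, G s x i j ^ 2 := by
      rw [integral_finsetSum _ fun i _ => integrable_finsetSum _ fun j _ => hs' i j]
      refine Finset.sum_congr rfl fun i _ => ?_
      rw [integral_finsetSum _ fun j _ => hs' i j]
    rw [e3] at e2
    simp only [sum_sq] at e2
    exact e2
  have hpars2 : ∀ᵐ s ∂(volume.restrict (Ioc 0 t)),
      HasSum (fun k => 4 * Real.pi ^ 2 * (kn k ^ 2 * nm (fun i => cf (fun x => u s x i) k) ^ 2))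
        (∫ x in Q, ∑ i, ∑ j, G s x i j ^ 2) :=
    ae_mono (Measure.restrict_mono hsub le_rfl) hpars
  -- the integral of the gradient
  have hI : Integrable (fun s => ∫ x in Q, ∑ i, ∑ j, G s x i j ^ 2)
      (volume.restrict (Ioc 0 t)) := by
    have h5 : Integrable (fun z : ℝ × V => ∑ i, ∑ j, G z.1 z.2 i j ^ 2)
        ((volume.restrict (Icc 0 T)).prod (volume.restrict Q)) :=
      integrable_finsetSum _ fun i _ => integrable_finsetSum _ fun j _ => hint i j
    have h6 : Integrable (fun s => ∫ x in Q, ∑ i, ∑ j, G s x i j ^ 2)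
        (volume.restrict (Icc 0 T)) := h5.integral_prod_left
    exact h6.mono_measure (Measure.restrict_mono hsub le_rfl)
  -- the terms
  let Fk : K → ℝ → ℝ := fun k s =>
    4 * Real.pi ^ 2 * (kn k ^ 2 * nm (fun i => cf (fun x => u s x i) k) ^ 2)
  have hF0 : ∀ k s, 0 ≤ Fk k s := fun k s => by
    show 0 ≤ 4 * Real.pi ^ 2 * (kn k ^ 2 * nm (fun i => cf (fun x => u s x i) k) ^ 2)
    positivity
  have hFc : ∀ k, ContinuousOn (Fk k) (Icc 0 T) := by
    intro k
    have h5 : ∀ s, nm (fun i => cf (fun x => u s x i) k) ^ 2 =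
        ∑ i, ‖cf (fun x => u s x i) k‖ ^ 2 := fun s => by
      unfold nm
      exact Real.sq_sqrt (Finset.sum_nonneg fun j _ => sq_nonneg _)
    have h6 : Fk k = fun s => 4 * Real.pi ^ 2 * (kn k ^ 2 * ∑ i, ‖cf (fun x => u s x i) k‖ ^ 2) :=
      funext fun s => by
        show 4 * Real.pi ^ 2 * (kn k ^ 2 * nm (fun i => cf (fun x => u s x i) k) ^ 2) = _
        rw [h5]
    rw [h6]
    refine continuousOn_const.mul (continuousOn_const.mul ?_)
    exact continuousOn_finsetSum _ fun i _ => ((hc k i).norm).pow 2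
  have hFi : ∀ k, Integrable (Fk k) (volume.restrict (Ioc 0 t)) := fun k =>
    ((hFc k).integrableOn_compact isCompact_Icc).mono_set hsub
  have hFs : Summable fun k => ∫ s in Ioc 0 t, ‖Fk k s‖ := by
    have h5 : ∀ k, ∫ s in Ioc 0 t, ‖Fk k s‖ = ∫ s in Ioc 0 t, Fk k s := fun k =>
      integral_congr_ae (Eventually.of_forall fun s => by
        show ‖Fk k s‖ = Fk k s
        rw [Real.norm_eq_abs, abs_of_nonneg (hF0 k s)])
    simp only [h5]
    refine summable_of_sum_le (c := ∫ s in Ioc 0 t, ∫ x in Q, ∑ i, ∑ j, G s x i j ^ 2)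
      (fun k => integral_nonneg (hF0 k)) fun S => ?_
    rw [← integral_finsetSum _ fun k _ => hFi k]
    refine integral_mono_ae (integrable_finsetSum _ fun k _ => hFi k) hI ?_
    filter_upwards [hpars2] with s hs
    exact sum_le_hasSum S (fun k _ => hF0 k s) hs
  have hfin := hasSum_integral_of_summable_integral_norm hFi hFs
  have h7 : ∫ s in Ioc 0 t, ∑' k, Fk k s = ∫ s in Ioc 0 t, ∫ x in Q, ∑ i, ∑ j, G s x i j ^ 2 :=
    integral_congr_ae (by
      filter_upwards [hpars2] with s hs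
      exact hs.tsum_eq)
  rw [h7] at hfin
  have h8 : (fun k => 4 * Real.pi ^ 2 *
      ∫ s in (0 : ℝ)..t, kn k ^ 2 * nm (fun i => cf (fun x => u s x i) k) ^ 2) =
      fun k => ∫ s in Ioc 0 t, Fk k s := by
    funext k
    rw [intervalIntegral.integral_of_le ht.1, ← integral_const_mul]
  rw [h8]
  exact hfin

end Pool.Agent.H303.DEE.F
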