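import Pool.Agent.H303.DEE.Stm5

/-!
DEF-P7 (helper684 for helper303): the Fourier coefficients of a Leray-Hopf solution.
-/

set_option autoImplicit false

open MeasureTheory Set Filter Topology Complex
open scoped ContDiff ENNReal

namespace Pool.Agent.H303.DEE.F

namespace H684P7

theorem nm_sq (v : C3) : nm v ^ 2 = ∑ i, ‖v i‖ ^ 2 := by
  unfold nm
  exact Real.sq_sqrt (Finset.sum_nonneg fun i _ => by positivity)

theorem cf_neg (f : V → ℝ) (k : K) : cf f (-k) = (starRingEnd ℂ) (cf f k) := by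
  unfold cf
  rw [← integral_conj]
  congr 1
  funext x
  rw [map_mul, Complex.conj_ofReal, ← Complex.exp_conj]
  congr 2
  rw [map_neg, map_mul, map_mul, map_mul, map_sum, Complex.conj_I, Complex.conj_ofReal]
  have h2 : (starRingEnd ℂ) 2 = 2 := Complex.conj_ofNat 2
  rw [h2]
  have h3 : ∑ j, (((-k) j : ℤ) : ℂ) * (x j : ℂ) = -∑ j, ((k j : ℤ) : ℂ) * (x j : ℂ) := by
    rw [← Finset.sum_neg_distrib]
    refine Finset.sum_congr rfl fun j _ => ?_
    rw [Pi.neg_apply]
    push_cast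
    ring
  have h4 : ∑ j, (starRingEnd ℂ) (((k j : ℤ) : ℂ) * (x j : ℂ)) =
      ∑ j, ((k j : ℤ) : ℂ) * (x j : ℂ) := by
    refine Finset.sum_congr rfl fun j _ => ?_
    rw [map_mul, Complex.conj_ofReal]
    congr 1
    exact map_intCast (starRingEnd ℂ) (k j)
  rw [h3, h4]
  ring

end H684P7

open H684P7 in
theorem p7 (h1 : P1) (h4 : P4) (h5 : P5) (h6 : P6) : P7 := by
  intro n ν α T u₀ u G hν hn hT hLH
  obtain ⟨hN, hcont, hode⟩ := h5 n ν α T u₀ u G hν hn hLH
  refine ⟨?_, ?_, ?_, hcont, ?_, hN, hode⟩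
  · intro t _ k i
    exact cf_neg (fun x => u t x i) k
  · intro t ht k
    exact h4 (u t) (fun i => hLH.l2_u t ht i) (hLH.divfree t ht) k
  · refine ⟨∫ x in Q, ∑ i, u₀ x i ^ 2, fun t ht => ?_⟩
    have hs : HasSum (fun k : K => nm (fun i => cf (fun x => u t x i) k) ^ 2)
        (∑ i : Fin 3, ∫ x in Q, (u t x i) ^ 2) := by
      have h := hasSum_sum (s := (Finset.univ : Finset (Fin 3)))
        (f := fun (i : Fin 3) (k : K) => ‖cf (fun x => u t x i) k‖ ^ 2)
        (a := fun i => ∫ x in Q, (u t x i) ^ 2) fun i _ => h1 _ (hLH.l2_u t ht i)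
      refine h.congr_fun ?_
      intro k
      exact (nm_sq _)
    have hint : ∫ x in Q, ∑ i : Fin 3, (u t x i) ^ 2 = ∑ i : Fin 3, ∫ x in Q, (u t x i) ^ 2 := by
      rw [integral_finsetSum]
      intro i _
      exact (hLH.l2_u t ht i).integrable_sq
    have hdis : 0 ≤ ∫ s in (0 : ℝ)..t, ∫ x in Q, ∑ i, ∑ j, G s x i j ^ 2 := by
      refine intervalIntegral.integral_nonneg ht.1 fun s _ => ?_
      refine integral_nonneg fun x => ?_
      exact Finset.sum_nonneg fun i _ => Finset.sum_nonneg fun j _ => sq_nonneg _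
    have hE := hLH.energy t ht
    refine ⟨hs.summable, ?_⟩
    have h7 : ∑' k : K, nm (fun i => cf (fun x => u t x i) k) ^ 2 =
        ∫ x in Q, ∑ i : Fin 3, (u t x i) ^ 2 := by
      rw [hs.tsum_eq, hint]
    have h8 := mul_nonneg hν.le hdis
    change ∑' k : K, nm (fun i => cf (fun x => u t x i) k) ^ 2 ≤ _
    rw [h7]
    linarith
  · have h := (h6 n ν α T u₀ u G hν hLH hcont T (right_mem_Icc.2 hT)).summable
    have hpi : (4 * Real.pi ^ 2 : ℝ) ≠ 0 := by positivity
    exact (summable_mul_left_iff hpi).1 h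

end Pool.Agent.H303.DEE.F
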