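import Pool.Agent.H303.DEE.Stm

/-!
Generic data.
-/

open MeasureTheory Set Filter Topology
open scoped ContDiff ENNReal

namespace Pool.Agent.H303.DEE

namespace T8

theorem sq_bd (X Y : ℝ) {ε : ℝ} (hε : 0 < ε) :
    |X ^ 2 - Y ^ 2| ≤ ε * X ^ 2 + (1 + 1 / ε) * (X - Y) ^ 2 := by
  have h1 : 0 ≤ (ε * X - (X - Y)) ^ 2 / ε := by positivity
  have h2 : 0 ≤ (ε * X + (X - Y)) ^ 2 / ε := by positivity
  have e1 : (ε * X - (X - Y)) ^ 2 / ε = ε * X ^ 2 - 2 * X * (X - Y) + 1 / ε * (X - Y) ^ 2 := by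
    field_simp
    ring
  have e2 : (ε * X + (X - Y)) ^ 2 / ε = ε * X ^ 2 + 2 * X * (X - Y) + 1 / ε * (X - Y) ^ 2 := by
    field_simp
    ring
  rw [e1] at h1
  rw [e2] at h2
  rw [abs_le]
  constructor <;> nlinarith [sq_nonneg (X - Y)]

theorem sq_lim {Ω ι : Type*} [MeasurableSpace Ω] [Fintype ι] (μ : Measure Ω) (X Y : ι → Ω → ℝ)
    (hX : ∀ i, MemLp (X i) 2 μ) (hY : ∀ i, MemLp (Y i) 2 μ) {δ : ℝ} (hδ : 0 < δ) (hδ1 : δ ≤ 1)
    (h : ∫ x, ∑ i, (X i x - Y i x) ^ 2 ∂μ ≤ δ) :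
    |(∫ x, ∑ i, X i x ^ 2 ∂μ) - ∫ x, ∑ i, Y i x ^ 2 ∂μ| ≤
      √δ * ((∫ x, ∑ i, X i x ^ 2 ∂μ) + 2) := by
  have iX : Integrable (fun x => ∑ i, X i x ^ 2) μ :=
    integrable_finsetSum _ fun i _ => (hX i).integrable_sq
  have iY : Integrable (fun x => ∑ i, Y i x ^ 2) μ :=
    integrable_finsetSum _ fun i _ => (hY i).integrable_sq
  have iD : Integrable (fun x => ∑ i, (X i x - Y i x) ^ 2) μ :=
    integrable_finsetSum _ fun i _ => ((hX i).sub (hY i)).integrable_sq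
  have hs : 0 < √δ := Real.sqrt_pos.2 hδ
  have hss : √δ * √δ = δ := Real.mul_self_sqrt hδ.le
  rw [← integral_sub iX iY]
  refine (abs_integral_le_integral_abs).trans ?_
  have h1 : ∫ x, |(∑ i, X i x ^ 2) - ∑ i, Y i x ^ 2| ∂μ ≤
      ∫ x, (√δ * (∑ i, X i x ^ 2) + (1 + 1 / √δ) * ∑ i, (X i x - Y i x) ^ 2) ∂μ := by
    refine integral_mono (iX.sub iY).abs ((iX.const_mul _).add (iD.const_mul _)) fun x => ?_
    show |(∑ i, X i x ^ 2) - ∑ i, Y i x ^ 2| ≤ _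
    rw [← Finset.sum_sub_distrib, Finset.mul_sum, Finset.mul_sum]
    show _ ≤ (∑ i, √δ * X i x ^ 2) + ∑ i, (1 + 1 / √δ) * (X i x - Y i x) ^ 2
    rw [← Finset.sum_add_distrib]
    exact (Finset.abs_sum_le_sum_abs _ _).trans (Finset.sum_le_sum fun i _ => sq_bd _ _ hs)
  refine h1.trans ?_
  rw [integral_add (iX.const_mul _) (iD.const_mul _), integral_const_mul, integral_const_mul]
  have h2 : (1 + 1 / √δ) * ∫ x, ∑ i, (X i x - Y i x) ^ 2 ∂μ ≤ (1 + 1 / √δ) * δ := by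
    refine mul_le_mul_of_nonneg_left h ?_
    positivity
  have h3 : (1 + 1 / √δ) * δ = δ + √δ := by
    have : 1 / √δ * δ = √δ := by
      rw [← hss]
      field_simp
      rw [Real.sqrt_sq hs.le]
    rw [add_mul, this, one_mul]
  have h4 : δ ≤ √δ := by
    have h5 : √δ ≤ 1 := by
      rw [← Real.sqrt_one]
      exact Real.sqrt_le_sqrt hδ1
    nlinarith
  rw [h3] at h2
  linarith

theorem lim_zero {x K T : ℝ} (h : ∀ m : ℕ, T ≤ m → |x| ≤ √(1 / ((m : ℝ) + 1)) * K) : x = 0 := by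
  have h1 : Tendsto (fun m : ℕ => √(1 / ((m : ℝ) + 1)) * K) atTop (𝓝 (√0 * K)) :=
    ((Real.continuous_sqrt.tendsto 0).comp tendsto_one_div_add_atTop_nhds_zero_nat).mul_const K
  rw [Real.sqrt_zero, zero_mul] at h1
  have h2 : |x| ≤ 0 := by
    refine ge_of_tendsto h1 ?_
    obtain ⟨M, hM⟩ := exists_nat_ge T
    filter_upwards [eventually_ge_atTop M] with m hm
    exact h m (hM.trans (by exact_mod_cast hm))
  exact abs_nonpos_iff.1 h2

theorem memLp_comp {f : V → V} (hf : MemLp f 2 mQ) (i : Fin 3) : MemLp (fun x => f x i) 2 mQ :=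
  (ContinuousLinearMap.proj (R := ℝ) (φ := fun _ : Fin 3 => ℝ) i).comp_memLp' hf

theorem Q_compact : IsCompact Q := isCompact_Icc

theorem Q_meas : MeasurableSet Q := measurableSet_Icc

theorem memLp_of_cont {X : Type*} [TopologicalSpace X] [T2Space X] [MeasurableSpace X]
    [OpensMeasurableSpace X]
    {μ : Measure X} [IsFiniteMeasureOnCompacts μ] {K : Set X} (hK : IsCompact K) {f : X → ℝ}
    (hf : ContinuousOn f K) : MemLp f 2 (μ.restrict K) := by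
  have : IsFiniteMeasure (μ.restrict K) := ⟨by
    rw [Measure.restrict_apply_univ]
    exact hK.measure_lt_top⟩
  obtain ⟨C, hC⟩ := hK.exists_bound_of_continuousOn hf
  refine MemLp.of_bound (hf.aestronglyMeasurable_of_isCompact hK hK.measurableSet) C ?_
  exact (ae_restrict_iff' hK.measurableSet).2 (Eventually.of_forall fun x hx => hC x hx)

theorem dist_bd {f g : Lp V 2 mQ} {v : V → V} (hg : g =ᵐ[mQ] v) :
    ∫ x in Q, ∑ i, (f x i - v x i) ^ 2 ≤ 3 * dist f g ^ 2 := by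
  have h1 : dist f g ^ 2 = ∫ x in Q, ‖(f - g) x‖ ^ 2 := by
    have hm := Lp.memLp (f - g)
    rw [dist_eq_norm, Lp.norm_def, hm.eLpNorm_eq_integral_rpow_norm (by norm_num) (by norm_num)]
    have h2 : (2 : ℝ≥0∞).toReal = 2 := by norm_num
    rw [h2, ENNReal.toReal_ofReal (by positivity), ← Real.rpow_natCast, ← Real.rpow_mul
      (by positivity)]
    norm_num
  rw [h1, ← integral_const_mul]
  have hfg := Lp.coeFn_sub f g
  have iN : Integrable (fun x => 3 * ‖(f - g) x‖ ^ 2) mQ :=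
    ((Lp.memLp (f - g)).norm.integrable_sq).const_mul 3
  have hpt : (fun x => ∑ i, (f x i - v x i) ^ 2) ≤ᵐ[mQ] fun x => 3 * ‖(f - g) x‖ ^ 2 := by
    filter_upwards [hfg, hg] with x h2 h3
    rw [h2, Pi.sub_apply, ← h3]
    have h4 : ∀ i, (f x i - g x i) ^ 2 ≤ ‖f x - g x‖ ^ 2 := by
      intro i
      have h5 := norm_le_pi_norm (f x - g x) i
      rw [Real.norm_eq_abs, Pi.sub_apply] at h5
      rw [← sq_abs]
      exact pow_le_pow_left₀ (abs_nonneg _) h5 2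
    calc ∑ i, (f x i - g x i) ^ 2 ≤ ∑ _i : Fin 3, ‖f x - g x‖ ^ 2 :=
        Finset.sum_le_sum fun i _ => h4 i
      _ = 3 * ‖f x - g x‖ ^ 2 := by
        rw [Finset.sum_const, Finset.card_univ, Fintype.card_fin, nsmul_eq_mul]
        norm_num
  exact integral_mono_of_nonneg (Eventually.of_forall fun x => Finset.sum_nonneg fun i _ =>
    sq_nonneg _) iN hpt

theorem fub {t : ℝ} (ht : 0 ≤ t) {F : ℝ × V → ℝ} (hF : IntegrableOn F (Icc 0 t ×ˢ Q)) :
    ∫ s in (0 : ℝ)..t, ∫ x in Q, F (s, x) = ∫ z in Icc 0 t ×ˢ Q, F z := by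
  rw [intervalIntegral.integral_of_le ht, ← integral_Icc_eq_integral_Ioc]
  exact (setIntegral_prod _ hF).symm

theorem en (h0 : A0) (h4 : A4) {n : ℕ} {ν : ℝ} {α : Fin 3 → ℝ} (hν : 0 < ν) (hn : Odd n)
    {v : ℝ → V → V} {p : ℝ → V → ℝ} (hv : IsSol n ν α (Ici 0) v p) {T : ℝ} {f : V → V}
    (hf : MemLp f 2 mQ) {u : ℝ → V → V} {G : ℝ → V → Fin 3 → Fin 3 → ℝ}
    (hu : IsLerayHopf n ν α T f u G) {t : ℝ} (ht : t ∈ Icc 0 T) {δ : ℝ} (hδ : 0 < δ) (hδ1 : δ ≤ 1)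
    (h1 : ∫ x in Q, ∑ i, (f x i - v 0 x i) ^ 2 ≤ δ)
    (h2 : (∫ x in Q, ∑ i, (u t x i - v t x i) ^ 2) +
      (∫ s in (0 : ℝ)..t, ∫ x in Q, ∑ i, ∑ j, (G s x i j - grd v s x i j) ^ 2) ≤ δ) :
    |(1 / 2) * (∫ x in Q, ∑ i, u t x i ^ 2) +
      ν * (∫ s in (0 : ℝ)..t, ∫ x in Q, ∑ i, ∑ j, G s x i j ^ 2) -
        (1 / 2) * ∫ x in Q, ∑ i, f x i ^ 2| ≤
      √δ * ((1 / 2) * ((∫ x in Q, ∑ i, u t x i ^ 2) + 2) +
        ν * ((∫ s in (0 : ℝ)..t, ∫ x in Q, ∑ i, ∑ j, G s x i j ^ 2) + 2) +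
          (1 / 2) * ((∫ x in Q, ∑ i, f x i ^ 2) + 2)) := by
  obtain ⟨hc, hg, -⟩ := h0 v hv.smooth_u
  have hE := h4 n ν α v p hn hv t ht.1
  unfold EnergyEq at hE
  have ht0 := ht.1
  -- integrability
  have mv : ∀ s, 0 ≤ s → ∀ i, MemLp (fun x => v s x i) 2 mQ := fun s hs i =>
    memLp_of_cont Q_compact (((continuous_apply i).comp (hc s hs).continuous).continuousOn)
  have mG : ∀ i j, MemLp (fun z : ℝ × V => G z.1 z.2 i j) 2
      (volume.restrict (Icc 0 t ×ˢ Q)) := fun i j => (hu.l2_G i j).mono_measure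
    (Measure.restrict_mono (prod_mono (Icc_subset_Icc le_rfl ht.2) subset_rfl) le_rfl)
  have mg : ∀ i j, MemLp (fun z : ℝ × V => grd v z.1 z.2 i j) 2
      (volume.restrict (Icc 0 t ×ˢ Q)) := fun i j =>
    memLp_of_cont (isCompact_Icc.prod Q_compact)
      ((hg i j).mono (prod_mono (fun s hs => hs.1) (subset_univ _)))
  have fG : ∀ (g : ℝ → V → Fin 3 → Fin 3 → ℝ), (∀ i j, MemLp (fun z : ℝ × V => g z.1 z.2 i j) 2
      (volume.restrict (Icc 0 t ×ˢ Q))) →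
      ∫ s in (0 : ℝ)..t, ∫ x in Q, ∑ i, ∑ j, g s x i j ^ 2 =
        ∫ z in Icc 0 t ×ˢ Q, ∑ k : Fin 3 × Fin 3, g z.1 z.2 k.1 k.2 ^ 2 := by
    intro g hg'
    have hI : IntegrableOn (fun z : ℝ × V => ∑ i, ∑ j, g z.1 z.2 i j ^ 2) (Icc 0 t ×ˢ Q) :=
      integrable_finsetSum _ fun i _ => integrable_finsetSum _ fun j _ => (hg' i j).integrable_sq
    have h3 := fub ht0 hI
    rw [h3]
    refine integral_congr_ae (Eventually.of_forall fun z => ?_)
    exact (Fintype.sum_prod_type (fun k : Fin 3 × Fin 3 => g z.1 z.2 k.1 k.2 ^ 2)).symm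
  have hD := fG (fun s x i j => G s x i j - grd v s x i j) (fun i j => (mG i j).sub (mg i j))
  have hn1 : 0 ≤ ∫ x in Q, ∑ i, (u t x i - v t x i) ^ 2 :=
    integral_nonneg fun x => Finset.sum_nonneg fun i _ => sq_nonneg _
  have hn2 : 0 ≤ ∫ s in (0 : ℝ)..t, ∫ x in Q, ∑ i, ∑ j, (G s x i j - grd v s x i j) ^ 2 :=
    intervalIntegral.integral_nonneg ht0 fun s _ =>
      integral_nonneg fun x => Finset.sum_nonneg fun i _ => Finset.sum_nonneg fun j _ => sq_nonneg _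
  have b1 := sq_lim mQ (fun i x => u t x i) (fun i x => v t x i) (hu.l2_u t ht) (mv t ht0) hδ hδ1
    (by linarith)
  have b2 := sq_lim mQ (fun i x => f x i) (fun i x => v 0 x i) (memLp_comp hf)
    (mv 0 le_rfl) hδ hδ1 h1
  have b3 := sq_lim (volume.restrict (Icc 0 t ×ˢ Q))
    (fun (k : Fin 3 × Fin 3) (z : ℝ × V) => G z.1 z.2 k.1 k.2)
    (fun (k : Fin 3 × Fin 3) (z : ℝ × V) => grd v z.1 z.2 k.1 k.2) (fun k => mG k.1 k.2)
    (fun k => mg k.1 k.2) hδ hδ1 (by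
      have h5 : ∫ s in (0 : ℝ)..t, ∫ x in Q, ∑ i, ∑ j, (G s x i j - grd v s x i j) ^ 2 ≤ δ := by
        linarith
      rw [hD] at h5
      exact h5)
  rw [← fG G mG, ← fG (grd v) mg] at b3
  rw [abs_le] at b1 b2 b3 ⊢
  constructor <;> nlinarith [mul_le_mul_of_nonneg_left b3.1 hν.le,
    mul_le_mul_of_nonneg_left b3.2 hν.le]

/-- the open sets -/
def UU (n : ℕ) (ν : ℝ) (α : Fin 3 → ℝ) (m : ℕ) : Set L2s :=
  {f | ∃ (g : L2s) (v : ℝ → V → V) (p : ℝ → V → ℝ) (C r : ℝ), IsSol n ν α (Ici 0) v p ∧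
    g.1 =ᵐ[mQ] v 0 ∧ 1 ≤ C ∧ 0 < r ∧ (∀ T' ≤ (m : ℝ), ∀ (u₀ : V → V)
    (u : ℝ → V → V) (G : ℝ → V → Fin 3 → Fin 3 → ℝ),
    (∀ i, MemLp (fun x => u₀ x i) 2 mQ) → IsLerayHopf n ν α T' u₀ u G →
    ∀ t ∈ Icc 0 T',
      (∫ x in Q, ∑ i, (u t x i - v t x i) ^ 2)
          + (∫ s in (0 : ℝ)..t, ∫ x in Q, ∑ i, ∑ j, (G s x i j - grd v s x i j) ^ 2)
        ≤ C * ∫ x in Q, ∑ i, (u₀ x i - v 0 x i) ^ 2) ∧
    C * (3 * r ^ 2) ≤ 1 / ((m : ℝ) + 1) ∧ dist f g < r}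

theorem UU_open (n : ℕ) (ν : ℝ) (α : Fin 3 → ℝ) (m : ℕ) : IsOpen (UU n ν α m) := by
  rw [isOpen_iff_mem_nhds]
  rintro f ⟨g, v, p, C, r, h1, h2, h3, h4, h5, h6, h7⟩
  have h8 : Metric.ball g r ∈ 𝓝 f := Metric.isOpen_ball.mem_nhds h7
  filter_upwards [h8] with f' hf'
  exact ⟨g, v, p, C, r, h1, h2, h3, h4, h5, h6, hf'⟩

theorem UU_smooth (h6 : A6) {n : ℕ} {ν : ℝ} {α : Fin 3 → ℝ} (hν : 0 < ν) (hn : Odd n)
    (hG : Glob n ν α) (m : ℕ) (f : L2s) (hf : ∃ v : V → V, Smooth v ∧ f.1 =ᵐ[mQ] v) :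
    f ∈ UU n ν α m := by
  obtain ⟨v₀, h1, h2⟩ := hf
  obtain ⟨v, p, hv, hv0⟩ := hG v₀ h1
  obtain ⟨C, hC, h3⟩ := h6 n ν α v p m hν hn hv
  have hm : (0 : ℝ) < (m : ℝ) + 1 := by positivity
  have hC0 : 0 < C := by linarith
  refine ⟨f, v, p, C, 1 / (3 * C * ((m : ℝ) + 1)), hv, ?_, hC, by positivity, h3, ?_, ?_⟩
  · rw [hv0]
    exact h2
  · have e : C * (3 * (1 / (3 * C * ((m : ℝ) + 1))) ^ 2) =
        1 / ((m : ℝ) + 1) * (1 / (3 * C * ((m : ℝ) + 1))) := by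
      field_simp
    rw [e]
    refine mul_le_of_le_one_right (by positivity) ?_
    rw [div_le_one (by positivity)]
    have hm1 : (1 : ℝ) ≤ (m : ℝ) + 1 := by
      have : (0 : ℝ) ≤ m := Nat.cast_nonneg m
      linarith
    nlinarith
  · rw [dist_self]
    positivity

end T8

open T8 in
/-- generic data -/
theorem t8 (h0 : A0) (h4 : A4) (h6 : A6) : A8 := by
  intro n ν α hν hn hG
  have hsm : ∀ f : L2s, (∃ v : V → V, Smooth v ∧ f.1 =ᵐ[mQ] v) → f ∈ ⋂ m, UU n ν α m :=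
    fun f hf => mem_iInter.2 fun m => UU_smooth h6 hν hn hG m f hf
  refine ⟨⋂ m, UU n ν α m, IsGδ.iInter_of_isOpen (UU_open n ν α), ?_, hsm, ?_⟩
  · have hsub : {f : L2s | ∃ v : V → V, Smooth v ∧ f.1 =ᵐ[mQ] v} ⊆ ⋂ m, UU n ν α m :=
      fun f hf => hsm f hf
    refine Dense.mono hsub ?_
    rw [Subtype.dense_iff]
    have e : ((↑) '' {f : L2s | ∃ v : V → V, Smooth v ∧ f.1 =ᵐ[mQ] v} : Set (Lp V 2 mQ)) =
        {f : Lp V 2 mQ | ∃ v : V → V, Smooth v ∧ f =ᵐ[mQ] v} := by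
      ext f
      constructor
      · rintro ⟨g, hg, rfl⟩
        exact hg
      · intro hf
        exact ⟨⟨f, subset_closure hf⟩, hf, rfl⟩
    intro f hf
    show f ∈ closure ((↑) '' {f : L2s | ∃ v : V → V, Smooth v ∧ f.1 =ᵐ[mQ] v})
    rw [e]
    exact hf
  · intro f hf T u G hu
    have hfL : MemLp (f.1 : V → V) 2 mQ := Lp.memLp f.1
    have hfi : ∀ i, MemLp (fun x => (f.1 : V → V) x i) 2 mQ := memLp_comp hfL
    -- the approximations
    have key : ∀ m : ℕ, T ≤ m → ∃ (v : ℝ → V → V) (p : ℝ → V → ℝ), IsSol n ν α (Ici 0) v p ∧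
        ∫ x in Q, ∑ i, ((f.1 : V → V) x i - v 0 x i) ^ 2 ≤ 1 / ((m : ℝ) + 1) ∧
        ∀ (u : ℝ → V → V) (G : ℝ → V → Fin 3 → Fin 3 → ℝ), IsLerayHopf n ν α T f.1 u G →
          ∀ t ∈ Icc 0 T, (∫ x in Q, ∑ i, (u t x i - v t x i) ^ 2)
            + (∫ s in (0 : ℝ)..t, ∫ x in Q, ∑ i, ∑ j, (G s x i j - grd v s x i j) ^ 2)
              ≤ 1 / ((m : ℝ) + 1) := by
      intro m hm
      obtain ⟨g, v, p, C, r, k1, k2, k3, k4, k5, k6, k7⟩ := mem_iInter.1 hf m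
      have k8 := dist_bd (f := f.1) k2
      have k9 : dist f.1 g.1 ^ 2 ≤ r ^ 2 := pow_le_pow_left₀ dist_nonneg (le_of_lt k7) 2
      have k10 : ∫ x in Q, ∑ i, ((f.1 : V → V) x i - v 0 x i) ^ 2 ≤ 3 * r ^ 2 := by linarith
      have k11 : 0 ≤ ∫ x in Q, ∑ i, ((f.1 : V → V) x i - v 0 x i) ^ 2 :=
        integral_nonneg fun x => Finset.sum_nonneg fun i _ => sq_nonneg _
      have k12 : C * ∫ x in Q, ∑ i, ((f.1 : V → V) x i - v 0 x i) ^ 2 ≤ 1 / ((m : ℝ) + 1) :=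
        (mul_le_mul_of_nonneg_left k10 (by linarith)).trans k6
      refine ⟨v, p, k1, ?_, fun u G hu t ht => ?_⟩
      · refine le_trans ?_ k12
        nlinarith
      · exact (k5 T hm f.1 u G hfi hu t ht).trans k12
    have hδ : ∀ m : ℕ, 0 < 1 / ((m : ℝ) + 1) := fun m => by positivity
    have hδ1 : ∀ m : ℕ, 1 / ((m : ℝ) + 1) ≤ 1 := fun m => by
      rw [div_le_one (by positivity)]
      have : (0 : ℝ) ≤ m := Nat.cast_nonneg m
      linarith
    refine ⟨fun t ht => ?_, fun u' G' hu' t ht => ?_⟩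
    · unfold EnergyEq
      refine sub_eq_zero.1 (lim_zero (T := T) (K := (1 / 2) * ((∫ x in Q, ∑ i, u t x i ^ 2) + 2) +
        ν * ((∫ s in (0 : ℝ)..t, ∫ x in Q, ∑ i, ∑ j, G s x i j ^ 2) + 2) +
          (1 / 2) * ((∫ x in Q, ∑ i, (f.1 : V → V) x i ^ 2) + 2)) fun m hm => ?_)
      obtain ⟨v, p, k1, k2, k3⟩ := key m hm
      exact en h0 h4 hν hn k1 hfL hu ht (hδ m) (hδ1 m) k2 (k3 u G hu t ht)
    · have hI : Integrable (fun x => ∑ i, (u' t x i - u t x i) ^ 2) mQ :=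
        integrable_finsetSum _ fun i _ => ((hu'.l2_u t ht i).sub (hu.l2_u t ht i)).integrable_sq
      have h0' : ∫ x in Q, ∑ i, (u' t x i - u t x i) ^ 2 = 0 := by
        refine lim_zero (T := T) (K := 4) fun m hm => ?_
        obtain ⟨v, p, k1, k2, k3⟩ := key m hm
        have k4 := k3 u G hu t ht
        have k5 := k3 u' G' hu' t ht
        have hcv := (h0 v k1.smooth_u).1 t ht.1
        have mv : ∀ i, MemLp (fun x => v t x i) 2 mQ := fun i =>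
          memLp_of_cont Q_compact (((continuous_apply i).comp hcv.continuous).continuousOn)
        have i1 : Integrable (fun x => ∑ i, (u t x i - v t x i) ^ 2) mQ :=
          integrable_finsetSum _ fun i _ => ((hu.l2_u t ht i).sub (mv i)).integrable_sq
        have i2 : Integrable (fun x => ∑ i, (u' t x i - v t x i) ^ 2) mQ :=
          integrable_finsetSum _ fun i _ => ((hu'.l2_u t ht i).sub (mv i)).integrable_sq
        have hle : ∫ x in Q, ∑ i, (u' t x i - u t x i) ^ 2 ≤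
            ∫ x in Q, (2 * (∑ i, (u' t x i - v t x i) ^ 2) + 2 * ∑ i, (u t x i - v t x i) ^ 2) := by
          refine integral_mono hI ((i2.const_mul 2).add (i1.const_mul 2)) fun x => ?_
          show ∑ i, (u' t x i - u t x i) ^ 2 ≤
            2 * (∑ i, (u' t x i - v t x i) ^ 2) + 2 * ∑ i, (u t x i - v t x i) ^ 2
          rw [Finset.mul_sum, Finset.mul_sum, ← Finset.sum_add_distrib]
          refine Finset.sum_le_sum fun i _ => ?_
          nlinarith [sq_nonneg ((u' t x i - v t x i) + (u t x i - v t x i))]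
        rw [integral_add (i2.const_mul 2) (i1.const_mul 2), integral_const_mul,
          integral_const_mul] at hle
        have hnn : ∀ G : ℝ → V → Fin 3 → Fin 3 → ℝ,
            0 ≤ ∫ s in (0 : ℝ)..t, ∫ x in Q, ∑ i, ∑ j, (G s x i j - grd v s x i j) ^ 2 :=
          fun G => intervalIntegral.integral_nonneg ht.1 fun s _ =>
            integral_nonneg fun x => Finset.sum_nonneg fun i _ =>
              Finset.sum_nonneg fun j _ => sq_nonneg _
        have k6 := hnn G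
        have k7 := hnn G'
        have k8 : 0 ≤ ∫ x in Q, ∑ i, (u' t x i - u t x i) ^ 2 :=
          integral_nonneg fun x => Finset.sum_nonneg fun i _ => sq_nonneg _
        rw [abs_of_nonneg k8]
        have k9 : 1 / ((m : ℝ) + 1) ≤ √(1 / ((m : ℝ) + 1)) := by
          have e1 := Real.mul_self_sqrt (hδ m).le
          have e2 : √(1 / ((m : ℝ) + 1)) ≤ 1 :=
            (Real.sqrt_le_sqrt (hδ1 m)).trans_eq Real.sqrt_one
          have e3 := Real.sqrt_nonneg (1 / ((m : ℝ) + 1))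
          nlinarith
        linarith
      rw [integral_eq_zero_iff_of_nonneg (fun x => Finset.sum_nonneg fun i _ => sq_nonneg _) hI]
        at h0'
      filter_upwards [h0'] with x hx
      funext i
      have h1 : ∑ i, (u' t x i - u t x i) ^ 2 = 0 := hx
      rw [Finset.sum_eq_zero_iff_of_nonneg fun i _ => sq_nonneg _] at h1
      have h2 := h1 i (Finset.mem_univ i)
      exact sub_eq_zero.1 (pow_eq_zero_iff two_ne_zero |>.1 h2)

end Pool.Agent.H303.DEE
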