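import Pool.Agent.H303.DEE.Stm5
import Pool.Agent.H303.DEE.T8

/-!
The initial value (P8).
-/

open MeasureTheory Set Filter Topology
open scoped ContDiff ENNReal

namespace Pool.Agent.H303.DEE.F

namespace FP8

theorem expand (X Y : Fin 3 → V → ℝ) (hX : ∀ i, MemLp (X i) 2 mQ) (hY : ∀ i, MemLp (Y i) 2 mQ) :
    ∫ x in Q, ∑ i, (X i x - Y i x) ^ 2 =
      (∫ x in Q, ∑ i, X i x ^ 2) - 2 * (∫ x in Q, ∑ i, X i x * Y i x) +
        ∫ x in Q, ∑ i, Y i x ^ 2 := by
  have iX : Integrable (fun x => ∑ i, X i x ^ 2) mQ :=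
    integrable_finsetSum _ fun i _ => (hX i).integrable_sq
  have iY : Integrable (fun x => ∑ i, Y i x ^ 2) mQ :=
    integrable_finsetSum _ fun i _ => (hY i).integrable_sq
  have iXY : Integrable (fun x => ∑ i, X i x * Y i x) mQ :=
    integrable_finsetSum _ fun i _ => (hX i).integrable_mul (hY i)
  have e1 : (∫ x in Q, ∑ i, X i x ^ 2) - ∫ x in Q, 2 * ∑ i, X i x * Y i x =
      ∫ x in Q, ((∑ i, X i x ^ 2) - 2 * ∑ i, X i x * Y i x) :=
    (integral_sub iX (iXY.const_mul 2)).symm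
  have e2 : (∫ x in Q, ((∑ i, X i x ^ 2) - 2 * ∑ i, X i x * Y i x)) + ∫ x in Q, ∑ i, Y i x ^ 2 =
      ∫ x in Q, (((∑ i, X i x ^ 2) - 2 * ∑ i, X i x * Y i x) + ∑ i, Y i x ^ 2) :=
    (integral_add (iX.sub (iXY.const_mul 2)) iY).symm
  rw [← integral_const_mul, e1, e2]
  refine integral_congr_ae (Eventually.of_forall fun x => ?_)
  show ∑ i, (X i x - Y i x) ^ 2 =
    ((∑ i, X i x ^ 2) - 2 * ∑ i, X i x * Y i x) + ∑ i, Y i x ^ 2
  rw [Finset.mul_sum, ← Finset.sum_sub_distrib, ← Finset.sum_add_distrib]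
  exact Finset.sum_congr rfl fun i _ => by ring

theorem test_const {w : V → V} (hw : Smooth w) : Test (fun _ => w) where
  smooth := (hw.smooth.comp contDiff_snd).contDiffOn
  per := fun _ _ => hw.per
  divfree := fun _ _ => hw.divfree

end FP8

/-- the initial value -/
theorem p8 : P8 := by
  intro n ν α T f u G hT hu
  have h0 : (0 : ℝ) ∈ Icc 0 T := ⟨le_rfl, hT⟩
  have hfL : MemLp (f.1 : V → V) 2 mQ := Lp.memLp f.1
  have hfi : ∀ i, MemLp (fun x => (f.1 : V → V) x i) 2 mQ := T8.memLp_comp hfL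
  have hui : ∀ i, MemLp (fun x => u 0 x i) 2 mQ := hu.l2_u 0 h0
  refine le_antisymm ?_ ?_
  · have h1 := hu.energy 0 h0
    rw [intervalIntegral.integral_same, mul_zero, add_zero] at h1
    linarith
  · refine le_of_forall_pos_le_add fun ε hε => ?_
    have hcl : f.1 ∈ closure {g : Lp V 2 mQ | ∃ v : V → V, Smooth v ∧ g =ᵐ[mQ] v} := f.2
    obtain ⟨g, ⟨v, hv, hgv⟩, hd⟩ := Metric.mem_closure_iff.1 hcl (min 1 (ε / 3))
      (lt_min one_pos (by positivity))
    have hvi : ∀ i, MemLp (fun x => v x i) 2 mQ := fun i =>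
      T8.memLp_of_cont T8.Q_compact (((continuous_apply i).comp hv.smooth.continuous).continuousOn)
    have hb := T8.dist_bd (f := f.1) hgv
    have hd1 : dist f.1 g ≤ 1 := (lt_min_iff.1 hd).1.le
    have hd2 : dist f.1 g ≤ ε / 3 := (lt_min_iff.1 hd).2.le
    have hd0 : 0 ≤ dist f.1 g := dist_nonneg
    have hd3 : dist f.1 g ^ 2 ≤ ε / 3 := by nlinarith
    have hw := hu.weak (fun _ => v) (FP8.test_const hv) 0 h0
    rw [intervalIntegral.integral_same] at hw
    have e1 := FP8.expand (fun i x => (f.1 : V → V) x i) (fun i x => v x i) hfi hvi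
    have e2 := FP8.expand (fun i x => u 0 x i) (fun i x => v x i) hui hvi
    have e3 : 0 ≤ ∫ x in Q, ∑ i, (u 0 x i - v x i) ^ 2 :=
      integral_nonneg fun x => Finset.sum_nonneg fun i _ => sq_nonneg _
    linarith

end Pool.Agent.H303.DEE.F
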