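import Pool.Agent.H303.DEE.Stm10
import Pool.Agent.H303.DEE.FH10

set_option autoImplicit false

open MeasureTheory Set Filter Topology Complex
open scoped ContDiff ENNReal

namespace Pool.Agent.H303.DEE.F

namespace G10aux

open H10aux

theorem sum_tendsto' {c : K → ℝ} (hc : Summable fun k => |c k|) :
    Tendsto (fun m : ℕ => ∑ k ∈ box m, wt ((m : ℝ) + 1) k * c k) atTop (𝓝 (∑' k, c k)) := by
  have h1 : ∀ m : ℕ, ∑ k ∈ box m, wt ((m : ℝ) + 1) k * c k =
      ∑' k, wt ((m : ℝ) + 1) k * c k := by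
    intro m
    rw [tsum_eq_sum]
    intro k hk
    rw [wt_box m k hk, zero_mul]
  simp_rw [h1]
  apply tendsto_tsum_of_dominated_convergence hc
  · intro k
    simpa using (wt_tendsto k).mul_const (c k)
  · refine Eventually.of_forall fun m k => ?_
    rw [Real.norm_eq_abs, abs_mul, abs_of_nonneg (wt_nonneg _ _)]
    exact mul_le_of_le_one_left (abs_nonneg _) (wt_le_one _ _)

/-- the density of the work of the force -/
noncomputable def hh (c a : ℝ → K → C3) (k : K) (s : ℝ) : ℝ :=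
  (∑ i, c s k i * (starRingEnd ℂ) (a s k i)).re

theorem hh_le (c a : ℝ → K → C3) (k : K) (s : ℝ) :
    |hh c a k s| ≤ (nm (c s k) ^ 2 + nm (a s k) ^ 2) / 2 := by
  unfold hh
  calc |(∑ i, c s k i * (starRingEnd ℂ) (a s k i)).re|
      ≤ ‖∑ i, c s k i * (starRingEnd ℂ) (a s k i)‖ := Complex.abs_re_le_norm _
    _ ≤ ∑ i, ‖c s k i * (starRingEnd ℂ) (a s k i)‖ := norm_sum_le _ _
    _ ≤ ∑ i, (‖c s k i‖ ^ 2 + ‖a s k i‖ ^ 2) / 2 := by
        apply Finset.sum_le_sum
        intro i _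
        rw [norm_mul, RCLike.norm_conj]
        nlinarith [sq_nonneg (‖c s k i‖ - ‖a s k i‖)]
    _ = _ := by
        rw [nm_sq, nm_sq, ← Finset.sum_div, Finset.sum_add_distrib]

theorem hh_int {g : K → ℝ} {ν T : ℝ} {c a : ℝ → K → C3} (A : GSol g ν T c a) (k : K) :
    IntegrableOn (hh c a k) (Icc 0 T) := by
  have h : IntegrableOn (fun s => ∑ i, c s k i * (starRingEnd ℂ) (a s k i)) (Icc 0 T) := by
    unfold IntegrableOn
    refine integrable_finsetSum _ fun i _ => ?_
    exact (A.cint k i).mul_continuousOn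
      (Complex.continuous_conj.comp_continuousOn (A.cont k i)) isCompact_Icc
  exact h.re

theorem dcontG {g : K → ℝ} {ν T : ℝ} {c a : ℝ → K → C3} (A : GSol g ν T c a) (k : K) :
    ContinuousOn (fun s => kn k ^ 2 * nm (a s k) ^ 2) (Icc 0 T) := by
  simp_rw [nm_sq]
  apply ContinuousOn.mul continuousOn_const
  apply continuousOn_finsetSum
  intro i _
  exact ((A.cont k i).norm).pow 2

theorem summ {g : K → ℝ} {ν T : ℝ} {c a : ℝ → K → C3} (A : GSol g ν T c a) {t : ℝ}
    (ht : t ∈ Icc 0 T) : Summable fun k => |∫ s in (0 : ℝ)..t, hh c a k s| := by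
  obtain ⟨E, hE⟩ := A.bdd
  have hsub : Icc 0 t ⊆ Icc 0 T := Icc_subset_Icc_right ht.2
  have hi : ∀ k, IntervalIntegrable (fun s => |hh c a k s|) volume 0 t := by
    intro k
    rw [intervalIntegrable_iff_integrableOn_Icc_of_le ht.1]
    exact ((hh_int A k).mono_set hsub).abs
  have hG : IntervalIntegrable (fun s => ((∑' k, nm (c s k) ^ 2) + E) / 2) volume 0 t := by
    rw [intervalIntegrable_iff_integrableOn_Icc_of_le ht.1]
    have h1 : IntegrableOn (fun s => (∑' k, nm (c s k) ^ 2) + E) (Icc 0 t) :=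
      Integrable.add (A.cL2.mono_set hsub) (integrable_const E)
    exact h1.div_const 2
  apply summable_of_sum_le (c := ∫ s in (0 : ℝ)..t, ((∑' k, nm (c s k) ^ 2) + E) / 2)
    (fun k => abs_nonneg _)
  intro S
  calc ∑ k ∈ S, |∫ s in (0 : ℝ)..t, hh c a k s|
      ≤ ∑ k ∈ S, ∫ s in (0 : ℝ)..t, |hh c a k s| :=
        Finset.sum_le_sum fun k _ => intervalIntegral.abs_integral_le_integral_abs ht.1
    _ = ∫ s in (0 : ℝ)..t, ∑ k ∈ S, |hh c a k s| := by
        rw [intervalIntegral.integral_finsetSum]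
        intro k _
        exact hi k
    _ ≤ ∫ s in (0 : ℝ)..t, ((∑' k, nm (c s k) ^ 2) + E) / 2 := by
        apply intervalIntegral.integral_mono_ae_restrict ht.1
        · rw [intervalIntegrable_iff_integrableOn_Icc_of_le ht.1]
          unfold IntegrableOn
          refine integrable_finsetSum _ fun k _ => ?_
          exact ((hh_int A k).mono_set hsub).abs
        · exact hG
        · filter_upwards [ae_restrict_of_ae_restrict_of_subset hsub A.csum,
            ae_restrict_mem measurableSet_Icc] with s hs hs2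
          obtain ⟨ha1, ha2⟩ := hE s (hsub hs2)
          have h1 : ∑ k ∈ S, nm (c s k) ^ 2 ≤ ∑' k, nm (c s k) ^ 2 :=
            hs.sum_le_tsum S fun k _ => sq_nonneg _
          have h2 : ∑ k ∈ S, nm (a s k) ^ 2 ≤ ∑' k, nm (a s k) ^ 2 :=
            ha1.sum_le_tsum S fun k _ => sq_nonneg _
          calc ∑ k ∈ S, |hh c a k s| ≤ ∑ k ∈ S, (nm (c s k) ^ 2 + nm (a s k) ^ 2) / 2 :=
                Finset.sum_le_sum fun k _ => hh_le c a k s
            _ = (∑ k ∈ S, nm (c s k) ^ 2 + ∑ k ∈ S, nm (a s k) ^ 2) / 2 := by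
                rw [← Finset.sum_div, Finset.sum_add_distrib]
            _ ≤ ((∑' k, nm (c s k) ^ 2) + E) / 2 := by linarith

end G10aux

open H10aux G10aux

theorem g10 (h1 : H1) (h2 : G2) (h9 : G9) : G10 := by
  intro g ν T C c a hν hg hC hF A t ht
  have hT : (0 : ℝ) ≤ T := ht.1.trans ht.2
  have h0T : (0 : ℝ) ∈ Icc (0 : ℝ) T := ⟨le_rfl, hT⟩
  obtain ⟨E, hE⟩ := A.bdd
  -- the energy balance with weights
  have hbal : ∀ m : ℕ, (1 / 2) * (∑ k ∈ box m, wt ((m : ℝ) + 1) k * nm (a t k) ^ 2)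
        + 4 * Real.pi ^ 2 * ν * (∑ k ∈ box m, wt ((m : ℝ) + 1) k *
          ∫ s in (0 : ℝ)..t, kn k ^ 2 * nm (a s k) ^ 2)
      = (1 / 2) * (∑ k ∈ box m, wt ((m : ℝ) + 1) k * nm (a 0 k) ^ 2)
        - (∫ s in (0 : ℝ)..t, flux ((m : ℝ) + 1) (a s))
        + ∑ k ∈ box m, wt ((m : ℝ) + 1) k * ∫ s in (0 : ℝ)..t, hh c a k s := by
    intro m
    rw [h2 g ν T c a A (wt ((m : ℝ) + 1)) (box m) t ht]
    congr 2
    apply intervalIntegral.integral_congr
    intro s hs
    rw [uIcc_of_le ht.1] at hs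
    have hs' : s ∈ Icc (0 : ℝ) T := ⟨hs.1, hs.2.trans ht.2⟩
    have hM : (1 : ℝ) ≤ (m : ℝ) + 1 := by
      have : (0 : ℝ) ≤ m := by positivity
      linarith
    exact (h1 ((m : ℝ) + 1) (a s) (box m) hM (wt_box m) (A.real s hs') (A.div s hs')
      (hE s hs').1).2
  -- the limits
  have hd0 : ∀ k, 0 ≤ ∫ s in (0 : ℝ)..t, kn k ^ 2 * nm (a s k) ^ 2 := fun k =>
    intervalIntegral.integral_nonneg ht.1 fun s _ => by positivity
  have hds : Summable fun k => ∫ s in (0 : ℝ)..t, kn k ^ 2 * nm (a s k) ^ 2 := by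
    refine Summable.of_nonneg_of_le hd0 (fun k => ?_) A.diss
    apply intervalIntegral.integral_mono_interval le_rfl ht.1 ht.2
    · refine Eventually.of_forall fun s => ?_
      show (0 : ℝ) ≤ kn k ^ 2 * nm (a s k) ^ 2
      positivity
    · exact (dcontG A k).intervalIntegrable_of_Icc hT
  have l1 := sum_tendsto (fun k => sq_nonneg (nm (a t k))) (hE t ht).1
  have l2 := sum_tendsto hd0 hds
  have l3 := sum_tendsto (fun k => sq_nonneg (nm (a 0 k))) (hE 0 h0T).1
  have l4 := h9 g ν T C c a hν hg hC hF A t ht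
  have hsum := summ A ht
  have l5 := sum_tendsto' hsum
  have L := (l1.const_mul (1 / 2)).add (l2.const_mul (4 * Real.pi ^ 2 * ν))
  have R := ((l3.const_mul (1 / 2)).sub l4).add l5
  have hEq := tendsto_nhds_unique L (R.congr fun m => (hbal m).symm)
  have hs2 : Summable fun k => ∫ s in (0 : ℝ)..t, hh c a k s := hsum.of_abs
  have h3 := hs2.hasSum
  have h4 : ∑' k, ∫ s in (0 : ℝ)..t, hh c a k s = (1 / 2) * (∑' k, nm (a t k) ^ 2)
        + 4 * Real.pi ^ 2 * ν * (∑' k, ∫ s in (0 : ℝ)..t, kn k ^ 2 * nm (a s k) ^ 2)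
        - (1 / 2) * ∑' k, nm (a 0 k) ^ 2 := by
    rw [hEq]; ring
  rw [h4] at h3
  exact h3

end Pool.Agent.H303.DEE.F
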