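import Pool.Agent.H303.DEE.Stm10

/-!
All weak solutions in the energy class satisfy the energy equality, with a force (project DEE,
step G11).
-/

set_option autoImplicit false

open MeasureTheory Set Filter Topology Complex
open scoped ContDiff ENNReal

namespace Pool.Agent.H303.DEE.F

namespace G11x236

lemma gg_neg (n : ℕ) (hn : Odd n) (α : Fin 3 → ℝ) (k : K) : gg n α (-k) = -gg n α k := by
  unfold gg
  rw [← mul_neg, ← Finset.sum_neg_distrib]
  congr 1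
  refine Finset.sum_congr rfl fun j _ => ?_
  have h1 : 2 * Real.pi * (((-k) j : ℤ) : ℝ) = -(2 * Real.pi * (k j : ℝ)) := by
    rw [Pi.neg_apply]
    push_cast
    ring
  rw [h1, hn.neg_pow]
  ring

lemma nm_sq (v : C3) : nm v ^ 2 = ∑ i, ‖v i‖ ^ 2 :=
  Real.sq_sqrt (Finset.sum_nonneg fun _ _ => sq_nonneg _)

lemma parseval (p1 : P1) (v : V → V) (hv : ∀ i, MemLp (fun x => v x i) 2 mQ) :
    ∑' k, nm (fun i => cf (fun x => v x i) k) ^ 2 = ∫ x in Q, ∑ i, v x i ^ 2 := by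
  have h1 : HasSum (fun k => ∑ i, ‖cf (fun x => v x i) k‖ ^ 2) (∑ i, ∫ x in Q, v x i ^ 2) :=
    hasSum_sum fun i _ => p1 (fun x => v x i) (hv i)
  have h2 : ∫ x in Q, ∑ i, v x i ^ 2 = ∑ i, ∫ x in Q, v x i ^ 2 :=
    integral_finsetSum _ fun i _ => (hv i).integrable_sq
  rw [h2, ← h1.tsum_eq]
  refine tsum_congr fun k => ?_
  rw [nm_sq]

lemma weak0 {n : ℕ} {ν : ℝ} {α : Fin 3 → ℝ} {T : ℝ} {f : ℝ → V → V} {u₀ : V → V}
    {u : ℝ → V → V} {G : ℝ → V → Fin 3 → Fin 3 → ℝ} (hT : 0 ≤ T)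
    (hW : IsWeakF n ν α T f u₀ u G) : IsWeak n ν α 0 u₀ u G where
  meas_u := hW.meas_u
  meas_G := hW.meas_G
  l2_u := fun t ht => hW.l2_u t ⟨ht.1, ht.2.trans hT⟩
  bdd := by
    obtain ⟨E, hE⟩ := hW.bdd
    exact ⟨E, fun t ht => hE t ⟨ht.1, ht.2.trans hT⟩⟩
  l2_G := fun i j => (hW.l2_G i j).mono_measure
    (Measure.restrict_mono (Set.prod_mono (Icc_subset_Icc_right hT) subset_rfl) le_rfl)
  divfree := fun t ht => hW.divfree t ⟨ht.1, ht.2.trans hT⟩
  grad := ae_restrict_of_ae_restrict_of_subset (Icc_subset_Icc_right hT) hW.grad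
  weak := by
    intro φ hφ t ht
    have ht0 : t = 0 := le_antisymm ht.2 ht.1
    subst ht0
    have h := hW.weak φ hφ 0 ⟨le_rfl, hT⟩
    rw [intervalIntegral.integral_same, intervalIntegral.integral_same, add_zero] at h
    rw [intervalIntegral.integral_same]
    exact h

end G11x236

open G11x236 in
theorem g11 (h10 : G10) (p1 : P1) (r3 : R3) (g6 : G6) (g7 : G7) (g8 : G8) : G11 := by
  intro n ν α C hν hn hC hFew T f h u G hf hW t ht
  have hT : 0 ≤ T := ht.1.trans ht.2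
  have h0 : (0 : ℝ) ∈ Icc 0 T := ⟨le_rfl, hT⟩
  have hg := g7 n ν α T f h.1 u G hν hn hT hf hW
  have hA := h10 (gg n α) ν T C (cfc f) (cfs u) hν (gg_neg n hn α) hC hFew hg t ht
  have hB := g8 T f u hT hf hW.meas_u hW.l2_u hW.bdd hg.div t ht
  have hAB := hA.unique hB
  have h6 := g6 T u G hW.meas_u hW.meas_G hW.l2_u hW.l2_G hW.grad hg.cont t ht
  have h6' := h6.tsum_eq
  rw [tsum_mul_left] at h6'
  have h8 := r3 n ν α 0 h u G le_rfl (weak0 hT hW)
  have e1 : ∑' k, nm (cfs u t k) ^ 2 = _ := parseval p1 (u t) (hW.l2_u t ht)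
  have e2 : ∑' k, nm (cfs u 0 k) ^ 2 = _ := parseval p1 (u 0) (hW.l2_u 0 h0)
  rw [← e1, ← h8, ← e2, ← hAB, ← h6']
  ring

end Pool.Agent.H303.DEE.F
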