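import Pool.Agent.H303.DEE.Stm10
import Pool.Agent.H303.DEE.FH2
import Pool.Agent.H303.DEE.FH3

/-!
Project DEE-G, subtask DEGF-G23: the weighted energy balance and the product rule, with a force.
-/

open MeasureTheory Set Filter Topology Complex
open scoped ContDiff ENNReal

namespace Pool.Agent.H303.DEE.F

namespace XG2

open XH2

/-- the energy balance of one coefficient -/
lemma one {g : K → ℝ} {ν T : ℝ} {c a : ℝ → K → C3} (h : GSol g ν T c a) (k : K) {t : ℝ}
    (ht : t ∈ Icc 0 T) :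
    IntervalIntegrable (fun s => (∑ i, Nl (a s) k i * (starRingEnd ℂ) (a s k i)).re)
      volume 0 t ∧
    (1 / 2) * nm (a t k) ^ 2
        + 4 * Real.pi ^ 2 * ν * (∫ s in (0 : ℝ)..t, kn k ^ 2 * nm (a s k) ^ 2)
      = (1 / 2) * nm (a 0 k) ^ 2
        - (∫ s in (0 : ℝ)..t, (∑ i, Nl (a s) k i * (starRingEnd ℂ) (a s k i)).re)
        + ∫ s in (0 : ℝ)..t, (∑ i, c s k i * (starRingEnd ℂ) (a s k i)).re := by
  obtain ⟨ht0, htT⟩ := ht
  have hsubset : Icc 0 t ⊆ Icc 0 T := Icc_subset_Icc le_rfl htT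
  have hcont : ∀ i, ContinuousOn (fun s => a s k i) (Icc 0 t) := fun i =>
    (h.cont k i).mono hsubset
  have hcont' : ∀ i, ContinuousOn (fun s => a s k i) (uIcc 0 t) := fun i => by
    rw [uIcc_of_le ht0]; exact hcont i
  have hcontc : ∀ i, ContinuousOn (fun s => (starRingEnd ℂ) (a s k i)) (uIcc 0 t) := fun i =>
    Complex.continuous_conj.comp_continuousOn (hcont' i)
  have hN : ∀ i, IntervalIntegrable (fun s => Nl (a s) k i) volume 0 t := fun i => by
    rw [intervalIntegrable_iff_integrableOn_Icc_of_le ht0]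
    exact (h.intN k i).mono_set hsubset
  have hC : ∀ i, IntervalIntegrable (fun s => c s k i) volume 0 t := fun i => by
    rw [intervalIntegrable_iff_integrableOn_Icc_of_le ht0]
    exact (h.cint k i).mono_set hsubset
  have hA : ∀ i, IntervalIntegrable (fun s => a s k i) volume 0 t := fun i =>
    (hcont' i).intervalIntegrable
  have hφ : ∀ i, IntervalIntegrable (fun s =>
      ((-((4 * Real.pi ^ 2 * ν * kn k ^ 2 : ℝ) : ℂ) + I * (g k : ℂ)) * a s k i
        - Nl (a s) k i + c s k i)) volume 0 t := fun i =>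
      (((hA i).const_mul _).sub (hN i)).add (hC i)
  have hnm : ContinuousOn (fun s => nm (a s k) ^ 2) (uIcc 0 t) := by
    simp only [nm_sq]
    exact continuousOn_finsetSum _ fun i _ => ((hcont' i).norm).pow 2
  have hI1 : IntervalIntegrable (fun s => kn k ^ 2 * nm (a s k) ^ 2) volume 0 t :=
    (hnm.const_mul _).intervalIntegrable
  have hI2c : IntervalIntegrable (fun s => ∑ i, Nl (a s) k i * (starRingEnd ℂ) (a s k i))
      volume 0 t := by
    have := IntervalIntegrable.sum (μ := volume) (a := 0) (b := t) Finset.univ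
      (f := fun i s => Nl (a s) k i * (starRingEnd ℂ) (a s k i))
      (fun i _ => (hN i).mul_continuousOn (hcontc i))
    refine this.congr ?_
    intro s _
    simp
  have hI2 : IntervalIntegrable (fun s => (∑ i, Nl (a s) k i * (starRingEnd ℂ) (a s k i)).re)
      volume 0 t := ⟨hI2c.1.re, hI2c.2.re⟩
  have hI3c : IntervalIntegrable (fun s => ∑ i, c s k i * (starRingEnd ℂ) (a s k i))
      volume 0 t := by
    have := IntervalIntegrable.sum (μ := volume) (a := 0) (b := t) Finset.univ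
      (f := fun i s => c s k i * (starRingEnd ℂ) (a s k i))
      (fun i _ => (hC i).mul_continuousOn (hcontc i))
    refine this.congr ?_
    intro s _
    simp
  have hI3 : IntervalIntegrable (fun s => (∑ i, c s k i * (starRingEnd ℂ) (a s k i)).re)
      volume 0 t := ⟨hI3c.1.re, hI3c.2.re⟩
  refine ⟨hI2, ?_⟩
  have hsq : ∀ i, ‖a t k i‖ ^ 2 - ‖a 0 k i‖ ^ 2 = ∫ s in (0 : ℝ)..t,
      2 * ((((-((4 * Real.pi ^ 2 * ν * kn k ^ 2 : ℝ) : ℂ) + I * (g k : ℂ)) * a s k i
        - Nl (a s) k i + c s k i)) * (starRingEnd ℂ) (a s k i)).re := fun i =>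
    sq_complex (f := fun s => a s k i) ht0 (hφ i)
      (fun s hs => h.ode k i s (hsubset hs)) (hcont i)
  have hint : ∀ i, IntervalIntegrable (fun s =>
      2 * ((((-((4 * Real.pi ^ 2 * ν * kn k ^ 2 : ℝ) : ℂ) + I * (g k : ℂ)) * a s k i
        - Nl (a s) k i + c s k i)) * (starRingEnd ℂ) (a s k i)).re) volume 0 t := fun i => by
    have := (hφ i).mul_continuousOn (hcontc i)
    exact IntervalIntegrable.const_mul ⟨this.1.re, this.2.re⟩ 2
  have hsum : nm (a t k) ^ 2 - nm (a 0 k) ^ 2 = ∫ s in (0 : ℝ)..t,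
      ∑ i, 2 * ((((-((4 * Real.pi ^ 2 * ν * kn k ^ 2 : ℝ) : ℂ) + I * (g k : ℂ)) * a s k i
        - Nl (a s) k i + c s k i)) * (starRingEnd ℂ) (a s k i)).re := by
    rw [nm_sq, nm_sq, ← Finset.sum_sub_distrib, intervalIntegral.integral_finsetSum
      (fun i _ => hint i)]
    exact Finset.sum_congr rfl fun i _ => hsq i
  have hpt : ∀ s, ∑ i, 2 * ((((-((4 * Real.pi ^ 2 * ν * kn k ^ 2 : ℝ) : ℂ) + I * (g k : ℂ))
        * a s k i - Nl (a s) k i + c s k i)) * (starRingEnd ℂ) (a s k i)).re =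
      ((-(8 * Real.pi ^ 2 * ν)) * (kn k ^ 2 * nm (a s k) ^ 2)
        - 2 * (∑ i, Nl (a s) k i * (starRingEnd ℂ) (a s k i)).re)
        + 2 * (∑ i, c s k i * (starRingEnd ℂ) (a s k i)).re := by
    intro s
    rw [nm_sq, Complex.re_sum, Complex.re_sum, Finset.mul_sum, Finset.mul_sum, Finset.mul_sum,
      Finset.mul_sum, ← Finset.sum_sub_distrib, ← Finset.sum_add_distrib]
    refine Finset.sum_congr rfl fun i _ => ?_
    rw [Complex.sq_norm, Complex.normSq_apply]
    simp only [Complex.mul_re, Complex.mul_im, Complex.add_re, Complex.add_im, Complex.sub_re,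
      Complex.sub_im, Complex.neg_re, Complex.neg_im, Complex.ofReal_re, Complex.ofReal_im,
      Complex.I_re, Complex.I_im, Complex.conj_re, Complex.conj_im]
    ring
  rw [intervalIntegral.integral_congr (g := fun s => ((-(8 * Real.pi ^ 2 * ν)) *
      (kn k ^ 2 * nm (a s k) ^ 2) - 2 * (∑ i, Nl (a s) k i * (starRingEnd ℂ) (a s k i)).re)
      + 2 * (∑ i, c s k i * (starRingEnd ℂ) (a s k i)).re)
      (fun s _ => hpt s), intervalIntegral.integral_add
      ((hI1.const_mul _).sub (hI2.const_mul 2)) (hI3.const_mul 2),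
      intervalIntegral.integral_sub (hI1.const_mul _) (hI2.const_mul 2)] at hsum
  simp only [intervalIntegral.integral_const_mul] at hsum ⊢
  linarith

end XG2

open XG2 in
/-- the weighted energy balance -/
theorem g2 : G2 := by
  intro g ν T c a h w S t ht
  have hk : ∀ k, (1 / 2) * nm (a t k) ^ 2
        + 4 * Real.pi ^ 2 * ν * (∫ s in (0 : ℝ)..t, kn k ^ 2 * nm (a s k) ^ 2)
      = (1 / 2) * nm (a 0 k) ^ 2
        - (∫ s in (0 : ℝ)..t, (∑ i, Nl (a s) k i * (starRingEnd ℂ) (a s k i)).re)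
        + ∫ s in (0 : ℝ)..t, (∑ i, c s k i * (starRingEnd ℂ) (a s k i)).re :=
    fun k => (XG2.one h k ht).2
  have hint : ∀ k ∈ S, IntervalIntegrable (fun s =>
      w k * (∑ i, Nl (a s) k i * (starRingEnd ℂ) (a s k i)).re) volume 0 t :=
    fun k _ => (XG2.one h k ht).1.const_mul _
  rw [intervalIntegral.integral_finsetSum hint, Finset.mul_sum, Finset.mul_sum, Finset.mul_sum,
    ← Finset.sum_add_distrib, ← Finset.sum_sub_distrib, ← Finset.sum_add_distrib]
  refine Finset.sum_congr rfl fun k _ => ?_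
  have hk' := hk k
  simp only [intervalIntegral.integral_const_mul] at hk' ⊢
  linear_combination (w k) * hk'

namespace XG3

open H3aux

theorem prim_coef {g : K → ℝ} {ν T : ℝ} {c a : ℝ → K → C3} (h : GSol g ν T c a) (k : K)
    (i : Fin 3) :
    Prim T (fun s => ((-((4 * Real.pi ^ 2 * ν * kn k ^ 2 : ℝ) : ℂ) + I * (g k : ℂ)) * a s k i -
      Nl (a s) k i + c s k i)) (fun t => a t k i) := by
  refine ⟨h.cont k i, ?_, h.ode k i⟩
  have h1 : IntegrableOn (fun s => (-((4 * Real.pi ^ 2 * ν * kn k ^ 2 : ℝ) : ℂ) + I * (g k : ℂ)) *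
      a s k i) (Icc 0 T) := ((h.cont k i).integrableOn_compact isCompact_Icc).const_mul _
  exact (h1.sub (h.intN k i)).add (h.cint k i)

/-- a sum of products of an integrable and a continuous function -/
theorem int_sum {T : ℝ} {φ f : Fin 3 → ℝ → ℂ} (hφ : ∀ i, IntegrableOn (φ i) (Icc 0 T))
    (hf : ∀ i, ContinuousOn (f i) (Icc 0 T)) :
    IntegrableOn (fun s => ∑ i, φ i s * f i s) (Icc 0 T) :=
  integrable_finsetSum _ fun i _ => (hφ i).mul_continuousOn (hf i) isCompact_Icc

/-- the terms with the force are integrable -/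
theorem int_Qf {g : K → ℝ} {ν T : ℝ} {c a : ℝ → K → C3} (h : GSol g ν T c a) (z : K × K) :
    IntegrableOn (fun s => Qf (c s) (a s) z) (Icc 0 T) := by
  have hc : ∀ k i, ContinuousOn (fun s => a s k i) (Icc 0 T) := h.cont
  have hcc : ∀ k i, ContinuousOn (fun s => (starRingEnd ℂ) (a s k i)) (Icc 0 T) := fun k i =>
    Complex.continuous_conj.comp_continuousOn (hc k i)
  have hdt : ContinuousOn (fun s => dt z.1 (a s z.2)) (Icc 0 T) :=
    continuousOn_finsetSum _ fun j _ => continuousOn_const.mul (hc z.2 j)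
  have hs : ContinuousOn (fun s => ∑ i, a s (z.1 - z.2) i * (starRingEnd ℂ) (a s z.1 i))
      (Icc 0 T) := continuousOn_finsetSum _ fun i _ => (hc _ i).mul (hcc _ i)
  have i1 : IntegrableOn (fun s => dt z.1 (c s z.2)) (Icc 0 T) :=
    integrable_finsetSum _ fun j _ => (h.cint z.2 j).const_mul _
  have i2 : IntegrableOn (fun s => ∑ i, c s (z.1 - z.2) i * (starRingEnd ℂ) (a s z.1 i))
      (Icc 0 T) := int_sum (fun i => h.cint (z.1 - z.2) i) (fun i => hcc z.1 i)
  have i3c : ∀ i, IntegrableOn (fun s => (starRingEnd ℂ) (c s z.1 i)) (Icc 0 T) := fun i =>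
    (Complex.conjLIE.toContinuousLinearEquiv.integrable_comp_iff).mpr (h.cint z.1 i)
  have i3 : IntegrableOn (fun s => ∑ i, a s (z.1 - z.2) i * (starRingEnd ℂ) (c s z.1 i))
      (Icc 0 T) := integrable_finsetSum _ fun i _ =>
    (i3c i).continuousOn_mul (hc (z.1 - z.2) i) isCompact_Icc
  have j1 : IntegrableOn (fun s => Xt z.1 (c s z.2) (a s (z.1 - z.2)) (a s z.1)) (Icc 0 T) :=
    i1.mul_continuousOn hs isCompact_Icc
  have j2 : IntegrableOn (fun s => Xt z.1 (a s z.2) (c s (z.1 - z.2)) (a s z.1)) (Icc 0 T) :=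
    i2.continuousOn_mul hdt isCompact_Icc
  have j3 : IntegrableOn (fun s => Xt z.1 (a s z.2) (a s (z.1 - z.2)) (c s z.1)) (Icc 0 T) :=
    i3.continuousOn_mul hdt isCompact_Icc
  exact (j1.add j2).add j3

end XG3

open H3aux in
/-- the product rule for a triad, with a force -/
theorem g3 : G3 := by
  intro g ν T c a h z
  have hX : Prim T _ (fun s => X (a s) z) :=
    (Prim.sum Finset.univ (fun j _ => (XG3.prim_coef h z.2 j).const_mul (z.1 j : ℂ))).mul
      (Prim.sum Finset.univ (fun i _ => (XG3.prim_coef h (z.1 - z.2) i).mul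
        (XG3.prim_coef h z.1 i).conj))
  have key : ∀ s : ℝ, (∑ j, (z.1 j : ℂ) * ((-((4 * Real.pi ^ 2 * ν * kn z.2 ^ 2 : ℝ) : ℂ) +
        I * (g z.2 : ℂ)) * a s z.2 j - Nl (a s) z.2 j + c s z.2 j)) *
        (∑ i, a s (z.1 - z.2) i * (starRingEnd ℂ) (a s z.1 i)) +
      (∑ j, (z.1 j : ℂ) * a s z.2 j) *
        (∑ i, (((-((4 * Real.pi ^ 2 * ν * kn (z.1 - z.2) ^ 2 : ℝ) : ℂ) + I * (g (z.1 - z.2) : ℂ)) *
          a s (z.1 - z.2) i - Nl (a s) (z.1 - z.2) i + c s (z.1 - z.2) i) *
            (starRingEnd ℂ) (a s z.1 i) +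
          a s (z.1 - z.2) i * (starRingEnd ℂ) ((-((4 * Real.pi ^ 2 * ν * kn z.1 ^ 2 : ℝ) : ℂ) +
            I * (g z.1 : ℂ)) * a s z.1 i - Nl (a s) z.1 i + c s z.1 i))) =
      -(Zd g ν z) * X (a s) z - Qz (a s) z + Qf (c s) (a s) z := by
    intro s
    unfold Qf Qz X Xt dt Zd om
    simp only [Fin.sum_univ_three, map_sub, map_add, map_mul, map_neg, Complex.conj_I,
      Complex.conj_ofReal]
    push_cast
    ring
  have hQf : IntegrableOn (fun s => Qf (c s) (a s) z) (Icc 0 T) := XG3.int_Qf h z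
  have hD : IntegrableOn (fun s => -(Zd g ν z) * X (a s) z - Qz (a s) z + Qf (c s) (a s) z)
      (Icc 0 T) := by
    refine hX.i.congr_fun (fun s _ => ?_) measurableSet_Icc
    exact key s
  have hXi : IntegrableOn (fun s => -(Zd g ν z) * X (a s) z) (Icc 0 T) :=
    (hX.c.integrableOn_compact isCompact_Icc).const_mul _
  refine ⟨?_, hQf, fun t ht => ?_⟩
  · have := (hXi.sub hD).add hQf
    refine this.congr_fun (fun s _ => ?_) measurableSet_Icc
    simp only [Pi.add_apply, Pi.sub_apply]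
    ring
  · rw [hX.e t ht, add_sub_cancel_left]
    refine intervalIntegral.integral_congr (fun s _ => ?_)
    exact key s

end Pool.Agent.H303.DEE.F
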