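import Pool.Agent.H303.DEE.Stm10
import Pool.Agent.H303.DEE.FP5

/-!
Project DEE-G, step G5 (helper20, after FP5 by helper32 and K2 by helper923): the Fourier
coefficients of a weak solution with a force satisfy the equation.
-/

set_option autoImplicit false

open MeasureTheory Set Filter Topology Complex
open scoped ContDiff ENNReal

namespace Pool.Agent.H303.DEE.F

namespace TG5

open TP5

variable {n : ℕ} {ν : ℝ} {α : Fin 3 → ℝ} {T : ℝ} {f : ℝ → V → V} {u₀ : V → V} {u : ℝ → V → V}
  {G : ℝ → V → Fin 3 → Fin 3 → ℝ}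

theorem en_bd (h : IsWeakF n ν α T f u₀ u G) {E : ℝ}
    (hE : ∀ t ∈ Icc 0 T, ∫ x in Q, ∑ i, u t x i ^ 2 ≤ E) (t : ℝ)
    (ht : t ∈ Icc 0 T) (i : Fin 3) : ∫ x in Q, u t x i ^ 2 ≤ E := by
  refine le_trans ?_ (hE t ht)
  apply integral_mono (h.l2_u t ht i).integrable_sq
    (integrable_finsetSum _ fun j _ => (h.l2_u t ht j).integrable_sq)
  intro x
  exact Finset.single_le_sum (f := fun j => u t x j ^ 2) (fun j _ => sq_nonneg _)
    (Finset.mem_univ i)

theorem sq_int (h : IsWeakF n ν α T f u₀ u G) {E : ℝ}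
    (hE : ∀ t ∈ Icc 0 T, ∫ x in Q, ∑ i, u t x i ^ 2 ≤ E) (i : Fin 3) :
    Integrable (fun z : ℝ × V => u z.1 z.2 i ^ 2) ((mT T).prod mQ) := by
  have := fin_mT T
  have := fin_mQ
  have hm : AEStronglyMeasurable (fun z : ℝ × V => u z.1 z.2 i ^ 2) ((mT T).prod mQ) :=
    ((meas_ui h.meas_u i).pow_const 2).aestronglyMeasurable
  rw [integrable_prod_iff hm]
  constructor
  · exact ae_restrict_of_forall_mem measurableSet_Icc fun t ht => (h.l2_u t ht i).integrable_sq
  · refine Integrable.of_bound (C := E) hm.norm.integral_prod_right' ?_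
    refine ae_restrict_of_forall_mem measurableSet_Icc fun t ht => ?_
    rw [Real.norm_of_nonneg (integral_nonneg fun x => norm_nonneg _)]
    have := en_bd h hE t ht i
    simpa [abs_of_nonneg, sq_nonneg] using this

theorem mul_int (h : IsWeakF n ν α T f u₀ u G) {E : ℝ}
    (hE : ∀ t ∈ Icc 0 T, ∫ x in Q, ∑ i, u t x i ^ 2 ≤ E) (i j : Fin 3) :
    Integrable (fun z : ℝ × V => u z.1 z.2 i * u z.1 z.2 j) ((mT T).prod mQ) := by
  refine Integrable.mono' ((sq_int h hE i).add (sq_int h hE j))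
    ((meas_ui h.meas_u i).mul (meas_ui h.meas_u j)).aestronglyMeasurable
    (Eventually.of_forall fun z => ?_)
  simp only [Pi.add_apply, Real.norm_eq_abs]
  rw [abs_le]
  constructor <;> nlinarith [sq_nonneg (u z.1 z.2 i + u z.1 z.2 j),
    sq_nonneg (u z.1 z.2 i - u z.1 z.2 j), sq_nonneg (u z.1 z.2 i), sq_nonneg (u z.1 z.2 j)]

theorem one_int (h : IsWeakF n ν α T f u₀ u G) {E : ℝ}
    (hE : ∀ t ∈ Icc 0 T, ∫ x in Q, ∑ i, u t x i ^ 2 ≤ E) (i : Fin 3) :
    Integrable (fun z : ℝ × V => u z.1 z.2 i) ((mT T).prod mQ) := by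
  have := fin_mT T
  have := fin_mQ
  refine Integrable.mono' ((sq_int h hE i).add (integrable_const (1 : ℝ)))
    (meas_ui h.meas_u i).aestronglyMeasurable (Eventually.of_forall fun z => ?_)
  simp only [Pi.add_apply, Real.norm_eq_abs]
  rw [abs_le]
  constructor <;> nlinarith [sq_nonneg (u z.1 z.2 i + 1), sq_nonneg (u z.1 z.2 i - 1),
    sq_nonneg (u z.1 z.2 i)]

theorem u_int (h : IsWeakF n ν α T f u₀ u G) (k : K)
    (i : Fin 3) : Integrable (fun s => U (u s) k i) (mT T) := by
  obtain ⟨E, hE⟩ := h.bdd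
  exact cf_int (fun z => u z.1 z.2 i) (one_int h hE i) k

theorem Nl_int (h2 : P2) (h : IsWeakF n ν α T f u₀ u G) (k : K)
    (i : Fin 3) : Integrable (fun s => Nl (U (u s)) k i) (mT T) := by
  obtain ⟨E, hE⟩ := h.bdd
  have h3 : ∀ l : Fin 3, Integrable (fun s => cf (fun x => ku k (u s) x * u s x l) k) (mT T) := by
    intro l
    refine cf_int (fun z : ℝ × V => ku k (u z.1) z.2 * u z.1 z.2 l) ?_ k
    have h4 : Integrable (fun z : ℝ × V => ∑ j, (k j : ℝ) * (u z.1 z.2 j * u z.1 z.2 l))
        ((mT T).prod mQ) := integrable_finsetSum _ fun j _ => (mul_int h hE j l).const_mul _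
    refine h4.congr (Eventually.of_forall fun z => ?_)
    simp only [ku, Finset.sum_mul]
    exact Finset.sum_congr rfl fun j _ => by ring
  have h5 : Integrable (fun s => ∑ l, ((cc k i l : ℂ) * (2 * Real.pi * I)) *
      cf (fun x => ku k (u s) x * u s x l) k) (mT T) :=
    integrable_finsetSum _ fun l _ => (h3 l).const_mul _
  refine h5.congr (ae_restrict_of_forall_mem measurableSet_Icc fun s hs => ?_)
  simp only [Nl]
  rw [← cc_Pr]
  refine Finset.sum_congr rfl fun l _ => ?_
  rw [Bn_eq h2 k (u s) (h.l2_u s hs) l]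
  ring

theorem G_mem (h : IsWeakF n ν α T f u₀ u G) :
    ∀ᵐ s ∂(mT T), ∀ i j, MemLp (fun x => G s x i j) 2 mQ := by
  have := fin_mQ
  have := fin_mT T
  rw [ae_all_iff]
  intro i
  rw [ae_all_iff]
  intro j
  have h1 := (h.l2_G i j).integrable_sq
  rw [Measure.volume_eq_prod, ← Measure.prod_restrict] at h1
  have h2 := h1.prod_right_ae
  filter_upwards [h2] with s hs
  have hm : Measurable (fun x => G s x i j) :=
    (measurable_pi_apply j).comp ((measurable_pi_apply i).comp
      (h.meas_G.comp measurable_prodMk_left))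
  exact (memLp_two_iff_integrable_sq hm.aestronglyMeasurable).2 hs

theorem f_mem (hf : Force T f) :
    ∀ᵐ s ∂(mT T), ∀ i, MemLp (fun x => f s x i) 2 mQ := by
  have := fin_mQ
  have := fin_mT T
  rw [ae_all_iff]
  intro i
  have h1 := (hf.l2 i).integrable_sq
  rw [Measure.volume_eq_prod, ← Measure.prod_restrict] at h1
  have h2 := h1.prod_right_ae
  filter_upwards [h2] with s hs
  have hm : Measurable (fun x => f s x i) :=
    (measurable_pi_apply i).comp (hf.meas.comp measurable_prodMk_left)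
  exact (memLp_two_iff_integrable_sq hm.aestronglyMeasurable).2 hs

theorem f_int (hf : Force T f) (i : Fin 3) :
    Integrable (fun z : ℝ × V => f z.1 z.2 i) ((mT T).prod mQ) := by
  have := fin_mQ
  have := fin_mT T
  have h1 := hf.l2 i
  rw [Measure.volume_eq_prod, ← Measure.prod_restrict] at h1
  exact h1.integrable (by norm_num)

theorem fc_int (hf : Force T f) (k : K) (i : Fin 3) :
    Integrable (fun s => Pr k (U (f s) k) i) (mT T) := by
  have h1 : Integrable (fun s => ∑ l, (cc k i l : ℂ) * U (f s) k l) (mT T) :=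
    integrable_finsetSum _ fun l _ => (cf_int (fun z => f z.1 z.2 l) (f_int hf l) k).const_mul _
  refine h1.congr (Eventually.of_forall fun s => ?_)
  exact cc_Pr k (U (f s) k) i

theorem rh_int (h2 : P2) (h : IsWeakF n ν α T f u₀ u G) (k : K)
    (i : Fin 3) : Integrable (rh n ν α u k i) (mT T) :=
  ((u_int h k i).const_mul _).sub (Nl_int h2 h k i)

theorem ae_rh (h2 : P2) (h3 : P3) (h4 : P4) (hn : Odd n)
    (h : IsWeakF n ν α T f u₀ u G) (k : K) (i : Fin 3) :
    ∀ᵐ s ∂(mT T), (W n ν α (u s) (G s) k i Real.cos s : ℂ)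
      - I * (W n ν α (u s) (G s) k i Real.sin s : ℂ) = rh n ν α u k i s := by
  obtain ⟨m, hm⟩ := hn
  filter_upwards [G_mem h, h.grad, ae_restrict_mem measurableSet_Icc] with s h5 h6 hs
  exact fixed h2 h3 h4 n m hm ν α (u s) (G s) (h.l2_u s hs) h5 h6 (h.divfree s hs) k i s

theorem AA_gen (w : V → V) (hw : ∀ i, MemLp (fun x => w x i) 2 mQ) (k : K) (i : Fin 3) :
    (AA w k i Real.cos : ℂ) - I * (AA w k i Real.sin : ℂ) = Pr k (U w k) i := by
  rw [← cc_Pr]
  unfold AA
  have i1 : Integrable (fun x => ((∑ l, w x l * (cc k i l * Real.cos (lin k x)) : ℝ) : ℂ)) mQ := by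
    have r : Integrable (fun x => ∑ l, w x l * (cc k i l * Real.cos (lin k x))) mQ := by
      refine integrable_finsetSum _ fun l _ => ?_
      have := (int_g k _ (int_u w hw l) Real.cos Real.continuous_cos Real.abs_cos_le_one).const_mul
        (cc k i l)
      exact this.congr (Eventually.of_forall fun x => by ring)
    exact r.ofReal
  have i2 : Integrable (fun x => ((∑ l, w x l * (cc k i l * Real.sin (lin k x)) : ℝ) : ℂ)) mQ := by
    have r : Integrable (fun x => ∑ l, w x l * (cc k i l * Real.sin (lin k x))) mQ := by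
      refine integrable_finsetSum _ fun l _ => ?_
      have := (int_g k _ (int_u w hw l) Real.sin Real.continuous_sin Real.abs_sin_le_one).const_mul
        (cc k i l)
      exact this.congr (Eventually.of_forall fun x => by ring)
    exact r.ofReal
  rw [← integral_complex_ofReal, ← integral_complex_ofReal, ← integral_const_mul,
    ← integral_sub i1 (i2.const_mul I)]
  have e1 : ∑ l, (cc k i l : ℂ) * U w k l = cf (fun x => ∑ l, cc k i l * w x l) k := by
    rw [cf_sum _ _ fun l _ => (int_u w hw l).const_mul _]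
    exact Finset.sum_congr rfl fun l _ => (cf_mul _ _ _).symm
  rw [e1, cf_eq]
  congr 1
  funext x
  rw [ek_eq]
  simp only [Fin.sum_univ_three]
  push_cast
  ring

theorem main (h2 : P2) (h3 : P3) (h4 : P4) (hn : Odd n) (hf : Force T f)
    (h : IsWeakF n ν α T f u₀ u G) (k : K) (i : Fin 3) (t : ℝ) (ht : t ∈ Icc 0 T) :
    U (u t) k i = U (u 0) k i + ∫ s in (0 : ℝ)..t, (rh n ν α u k i s + Pr k (U (f s) k) i) := by
  have h0 : (0 : ℝ) ∈ Icc 0 T := ⟨le_rfl, ht.1.trans ht.2⟩
  have hsub : Ioc (0 : ℝ) t ⊆ Icc 0 T := fun s hs => ⟨hs.1.le, hs.2.trans ht.2⟩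
  have hR : IntervalIntegrable (rh n ν α u k i) volume 0 t := by
    rw [intervalIntegrable_iff_integrableOn_Ioc_of_le ht.1]
    exact IntegrableOn.mono_set (t := Icc 0 T) (rh_int h2 h k i) hsub
  have hP : IntervalIntegrable (fun s => Pr k (U (f s) k) i) volume 0 t := by
    rw [intervalIntegrable_iff_integrableOn_Ioc_of_le ht.1]
    exact IntegrableOn.mono_set (t := Icc 0 T) (fc_int hf k i) hsub
  have hae : ∀ᵐ s ∂volume, s ∈ Set.uIoc (0 : ℝ) t → (W n ν α (u s) (G s) k i Real.cos s : ℂ)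
      - I * (W n ν α (u s) (G s) k i Real.sin s : ℂ) = rh n ν α u k i s := by
    have h5 := ae_rh h2 h3 h4 hn h k i
    rw [ae_restrict_iff' measurableSet_Icc] at h5
    filter_upwards [h5] with s hs h6
    rw [uIoc_of_le ht.1] at h6
    exact hs (hsub h6)
  have haf : ∀ᵐ s ∂volume, s ∈ Set.uIoc (0 : ℝ) t → (AA (f s) k i Real.cos : ℂ)
      - I * (AA (f s) k i Real.sin : ℂ) = Pr k (U (f s) k) i := by
    have h5 := f_mem hf
    rw [ae_restrict_iff' measurableSet_Icc] at h5
    filter_upwards [h5] with s hs h6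
    rw [uIoc_of_le ht.1] at h6
    exact AA_gen (f s) (hs (hsub h6)) k i
  have wk : ∀ (g : ℝ → ℝ), ContDiff ℝ ∞ g → (∀ (y : ℝ) (m : ℤ), g (y + m * (2 * Real.pi)) = g y) →
      AA (u t) k i g - AA (u 0) k i g = (∫ s in (0 : ℝ)..t, W n ν α (u s) (G s) k i g s)
        + ∫ s in (0 : ℝ)..t, AA (f s) k i g := by
    intro g hg hp
    have w1 : AA (u t) k i g - AA u₀ k i g = (∫ s in (0 : ℝ)..t, W n ν α (u s) (G s) k i g s)
        + ∫ s in (0 : ℝ)..t, AA (f s) k i g :=
      h.weak _ (test k i g hg hp) t ht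
    have w2 : AA (u 0) k i g - AA u₀ k i g = (∫ s in (0 : ℝ)..0, W n ν α (u s) (G s) k i g s)
        + ∫ s in (0 : ℝ)..0, AA (f s) k i g :=
      h.weak _ (test k i g hg hp) 0 h0
    rw [intervalIntegral.integral_same, intervalIntegral.integral_same] at w2
    linarith
  have w1 := wk Real.cos Real.contDiff_cos fun y m => Real.cos_add_int_mul_two_pi y m
  have w2 := wk Real.sin Real.contDiff_sin fun y m => Real.sin_add_int_mul_two_pi y m
  have r1 : ∫ s in (0 : ℝ)..t, W n ν α (u s) (G s) k i Real.cos s =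
      (∫ s in (0 : ℝ)..t, rh n ν α u k i s).re := by
    have e := Complex.reCLM.intervalIntegral_comp_comm hR
    rw [Complex.reCLM_apply] at e
    rw [← e]
    apply intervalIntegral.integral_congr_ae
    filter_upwards [hae] with s hs h6
    rw [← hs h6]
    simp
  have r2 : ∫ s in (0 : ℝ)..t, W n ν α (u s) (G s) k i Real.sin s =
      -(∫ s in (0 : ℝ)..t, rh n ν α u k i s).im := by
    have e := Complex.imCLM.intervalIntegral_comp_comm hR
    rw [Complex.imCLM_apply] at e
    rw [← e, ← intervalIntegral.integral_neg]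
    apply intervalIntegral.integral_congr_ae
    filter_upwards [hae] with s hs h6
    rw [← hs h6]
    simp
  have r3 : ∫ s in (0 : ℝ)..t, AA (f s) k i Real.cos =
      (∫ s in (0 : ℝ)..t, Pr k (U (f s) k) i).re := by
    have e := Complex.reCLM.intervalIntegral_comp_comm hP
    rw [Complex.reCLM_apply] at e
    rw [← e]
    apply intervalIntegral.integral_congr_ae
    filter_upwards [haf] with s hs h6
    rw [← hs h6]
    simp
  have r4 : ∫ s in (0 : ℝ)..t, AA (f s) k i Real.sin =
      -(∫ s in (0 : ℝ)..t, Pr k (U (f s) k) i).im := by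
    have e := Complex.imCLM.intervalIntegral_comp_comm hP
    rw [Complex.imCLM_apply] at e
    rw [← e, ← intervalIntegral.integral_neg]
    apply intervalIntegral.integral_congr_ae
    filter_upwards [haf] with s hs h6
    rw [← hs h6]
    simp
  rw [intervalIntegral.integral_add hR hP]
  rw [← AA_U h4 (u t) (h.l2_u t ht) (h.divfree t ht) k i,
    ← AA_U h4 (u 0) (h.l2_u 0 h0) (h.divfree 0 h0) k i]
  have s1 : AA (u t) k i Real.cos = AA (u 0) k i Real.cos +
      ((∫ s in (0 : ℝ)..t, rh n ν α u k i s).re + (∫ s in (0 : ℝ)..t, Pr k (U (f s) k) i).re) := by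
    linarith
  have s2 : AA (u t) k i Real.sin = AA (u 0) k i Real.sin -
      ((∫ s in (0 : ℝ)..t, rh n ν α u k i s).im + (∫ s in (0 : ℝ)..t, Pr k (U (f s) k) i).im) := by
    linarith
  rw [s1, s2]
  have s3 := Complex.re_add_im (∫ s in (0 : ℝ)..t, rh n ν α u k i s)
  have s4 := Complex.re_add_im (∫ s in (0 : ℝ)..t, Pr k (U (f s) k) i)
  push_cast
  linear_combination s3 + s4

end TG5

/-- G5 -/
theorem g5 (h2 : P2) (h3 : P3) (h4 : P4) : G5 := by
  intro n ν α T f u₀ u G _ hn hT hf h
  refine ⟨fun k i => TG5.Nl_int h2 h k i, fun k i => ?_, fun k i => TG5.fc_int hf k i,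
    fun k i t ht => TG5.main h2 h3 h4 hn hf h k i t ht⟩
  have h1 : ContinuousOn (fun t => ∫ s in (0 : ℝ)..t,
      (TP5.rh n ν α u k i s + Pr k (TP5.U (f s) k) i)) (Icc 0 T) := by
    have := intervalIntegral.continuousOn_primitive_interval
      (f := fun s => TP5.rh n ν α u k i s + Pr k (TP5.U (f s) k) i)
      (μ := volume) (a := 0) (b := T) (by
        rw [uIcc_of_le hT]
        exact (TG5.rh_int h2 h k i).add (TG5.fc_int hf k i))
    rwa [uIcc_of_le hT] at this
  have h2' : ContinuousOn (fun t => TP5.U (u 0) k i + ∫ s in (0 : ℝ)..t,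
      (TP5.rh n ν α u k i s + Pr k (TP5.U (f s) k) i)) (Icc 0 T) := continuousOn_const.add h1
  refine h2'.congr fun t ht => ?_
  exact TG5.main h2 h3 h4 hn hf h k i t ht

end Pool.Agent.H303.DEE.F
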