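import Pool.Agent.H303.DEE.Stm10
import Pool.Agent.H303.DEE.FP7
import Pool.Agent.H303.DEE.FH4

/-!
DEGF-G78 (helper706 for helper303): the coefficients of a weak solution with a force.
-/

set_option autoImplicit false

open MeasureTheory Set Filter Topology Complex
open scoped ContDiff ENNReal

namespace Pool.Agent.H303.DEE.F

namespace H706G78

open H684P7

/-- Parseval for a field -/
theorem hs_nm (h1 : P1) (v : V → V) (hv : ∀ i, MemLp (fun x => v x i) 2 (volume.restrict Q)) :
    HasSum (fun k : K => nm (fun i => cf (fun x => v x i) k) ^ 2)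
      (∫ x in Q, ∑ i : Fin 3, (v x i) ^ 2) := by
  have h := hasSum_sum (s := (Finset.univ : Finset (Fin 3)))
    (f := fun (i : Fin 3) (k : K) => ‖cf (fun x => v x i) k‖ ^ 2)
    (a := fun i => ∫ x in Q, (v x i) ^ 2) fun i _ => h1 _ (hv i)
  have hint : ∫ x in Q, ∑ i : Fin 3, (v x i) ^ 2 = ∑ i : Fin 3, ∫ x in Q, (v x i) ^ 2 := by
    rw [integral_finsetSum]
    intro i _
    exact (hv i).integrable_sq
  rw [hint]
  refine h.congr_fun ?_
  intro k
  exact (nm_sq _)

theorem meas_cf (v : ℝ → V → V) (hv : Measurable fun z : ℝ × V => v z.1 z.2) (k : K)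
    (i : Fin 3) : StronglyMeasurable fun s => cfs v s k i := by
  have h : StronglyMeasurable (fun z : ℝ × V => ((v z.1 z.2 i : ℝ) : ℂ) *
      Complex.exp (-(2 * Real.pi * I * ∑ j, (k j : ℂ) * (z.2 j : ℂ)))) := by
    have h1 : Measurable (fun z : ℝ × V => v z.1 z.2 i) := (measurable_pi_apply i).comp hv
    refine Measurable.stronglyMeasurable ?_
    refine (Complex.measurable_ofReal.comp h1).mul ?_
    refine Complex.measurable_exp.comp ?_
    fun_prop
  exact h.integral_prod_right'

theorem meas_Pr (v : ℝ → V → V) (hv : Measurable fun z : ℝ × V => v z.1 z.2) (k : K)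
    (i : Fin 3) : Measurable fun s => cfc v s k i := by
  have h := fun i => (meas_cf v hv k i).measurable
  show Measurable fun s => cfs v s k i - (k i : ℂ) * (∑ j, (k j : ℂ) * cfs v s k j)
    / (∑ j, (k j : ℂ) ^ 2)
  refine (h i).sub ((Measurable.const_mul ?_ _).div_const _)
  exact Finset.measurable_sum _ fun j _ => (h j).const_mul _

theorem ae_memLp {T : ℝ} {f : ℝ → V → V} (hf : Force T f) :
    ∀ᵐ s ∂(volume.restrict (Icc 0 T)), ∀ i, MemLp (fun x => f s x i) 2 (volume.restrict Q) := by
  rw [ae_all_iff]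
  intro i
  have h := (hf.l2 i).integrable_sq
  rw [Measure.volume_eq_prod, ← Measure.prod_restrict] at h
  filter_upwards [h.prod_right_ae] with s hs
  have hm : Measurable (fun x => f s x i) :=
    (measurable_pi_apply i).comp (hf.meas.comp measurable_prodMk_left)
  exact (memLp_two_iff_integrable_sq hm.aestronglyMeasurable).2 hs

theorem int_force {T : ℝ} {f : ℝ → V → V} (hf : Force T f) :
    IntegrableOn (fun s => ∫ x in Q, ∑ i, f s x i ^ 2) (Icc 0 T) := by
  have h : Integrable (fun z : ℝ × V => ∑ i, f z.1 z.2 i ^ 2)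
      (volume.restrict (Icc 0 T ×ˢ Q)) :=
    integrable_finsetSum _ fun i _ => (hf.l2 i).integrable_sq
  rw [Measure.volume_eq_prod, ← Measure.prod_restrict] at h
  exact h.integral_prod_left

theorem nm_cfc_le (f : ℝ → V → V) (s : ℝ) (k : K) :
    nm (cfc f s k) ^ 2 ≤ 4 * nm (cfs f s k) ^ 2 := by
  have h1 := FH4.nm_Pr_le k (cfs f s k)
  have h2 := FH4.nm_nonneg (Pr k (cfs f s k))
  calc nm (cfc f s k) ^ 2 ≤ (2 * nm (cfs f s k)) ^ 2 := pow_le_pow_left₀ h2 h1 2
    _ = 4 * nm (cfs f s k) ^ 2 := by ring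

/-- the projection drops out -/
theorem drop_Pr (k : K) (w a : C3) (ha : dt k a = 0) :
    ∑ i, Pr k w i * (starRingEnd ℂ) (a i) = ∑ i, w i * (starRingEnd ℂ) (a i) := by
  have h0 : ∑ i, (k i : ℂ) * (starRingEnd ℂ) (a i) = 0 := by
    have h := congrArg (starRingEnd ℂ) ha
    unfold dt at h
    rw [map_sum, map_zero] at h
    rw [← h]
    refine Finset.sum_congr rfl fun i _ => ?_
    rw [map_mul]
    congr 1
    exact (map_intCast (starRingEnd ℂ) (k i)).symm
  have h1 : ∀ i, Pr k w i * (starRingEnd ℂ) (a i) = w i * (starRingEnd ℂ) (a i)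
      - (dt k w / (∑ j, (k j : ℂ) ^ 2)) * ((k i : ℂ) * (starRingEnd ℂ) (a i)) := by
    intro i
    unfold Pr
    ring
  simp only [h1]
  rw [Finset.sum_sub_distrib, ← Finset.mul_sum, h0, mul_zero, sub_zero]

/-- polarized Parseval -/
theorem pol (h1 : P1) (f u : V → ℝ) (hf : MemLp f 2 mQ) (hu : MemLp u 2 mQ) :
    HasSum (fun k => (cf f k * (starRingEnd ℂ) (cf u k)).re) (∫ x in Q, f x * u x) := by
  have ha := h1 (fun x => f x + u x) (hf.add hu)
  have hb := h1 f hf
  have hc := h1 u hu
  have h := ((ha.sub hb).sub hc).mul_left (1 / 2)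
  have hint : (1 / 2) * ((∫ x in Q, (f x + u x) ^ 2) - (∫ x in Q, f x ^ 2) - ∫ x in Q, u x ^ 2)
      = ∫ x in Q, f x * u x := by
    have h2 : Integrable (fun x => (f x + u x) ^ 2) mQ := (hf.add hu).integrable_sq
    have h22 : Integrable (fun x => (f x + u x) ^ 2 - f x ^ 2) mQ := h2.sub hf.integrable_sq
    rw [← integral_sub h2 hf.integrable_sq, ← integral_sub h22
      hu.integrable_sq, ← integral_const_mul]
    refine integral_congr_ae (Eventually.of_forall fun x => ?_)
    show (1 / 2) * ((f x + u x) ^ 2 - f x ^ 2 - u x ^ 2) = f x * u x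
    ring
  rw [hint] at h
  refine h.congr_fun ?_
  intro k
  have h3 : cf (fun x => f x + u x) k = cf f k + cf u k := by
    have h4 : ∀ g : V → ℝ, MemLp g 2 mQ → Integrable (fun x : V => (g x : ℂ) *
        Complex.exp (-(2 * Real.pi * I * ∑ j, (k j : ℂ) * (x j : ℂ)))) mQ := by
      intro g hg
      have : IsFiniteMeasure mQ := ⟨by
        rw [Measure.restrict_apply_univ]
        exact isCompact_Icc.measure_lt_top⟩
      have hi : Integrable (fun x => (g x : ℂ)) mQ := (hg.integrable (by norm_num)).ofReal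
      refine hi.mul_bdd (c := 1) (Measurable.aestronglyMeasurable ?_) ?_
      · refine Complex.measurable_exp.comp ?_
        fun_prop
      · refine Eventually.of_forall fun x => ?_
        have h5 : -(2 * Real.pi * I * ∑ j, (k j : ℂ) * (x j : ℂ))
            = ((-(2 * Real.pi * ∑ j, (k j : ℝ) * x j) : ℝ) : ℂ) * I := by
          push_cast
          ring
        rw [h5, Complex.norm_exp_ofReal_mul_I]
    unfold cf
    rw [← integral_add (h4 f hf) (h4 u hu)]
    congr 1
    funext x
    push_cast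
    ring
  rw [h3]
  have h6 : ∀ z : ℂ, ‖z‖ ^ 2 = z.re ^ 2 + z.im ^ 2 := by
    intro z
    rw [← Complex.normSq_eq_norm_sq, Complex.normSq_apply]
    ring
  rw [h6, h6, h6]
  simp only [Complex.add_re, Complex.add_im, Complex.mul_re, Complex.conj_re, Complex.conj_im]
  ring

end H706G78

open H706G78 H684P7 in
theorem g8 (h1 : P1) (h7a : G7a) : G8 := by
  intro T f u hT hf hmu hu hE hdiv t ht
  obtain ⟨E, hE⟩ := hE
  have hsub : Ioc 0 t ⊆ Icc 0 T := fun s hs => ⟨hs.1.le, hs.2.trans ht.2⟩
  rw [intervalIntegral.integral_of_le ht.1]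
  simp only [intervalIntegral.integral_of_le ht.1]
  have hmem := ae_restrict_of_ae_restrict_of_subset hsub (ae_memLp hf)
  have hin : ∀ᵐ s ∂(volume.restrict (Ioc 0 t)), s ∈ Icc 0 T := by
    filter_upwards [ae_restrict_mem measurableSet_Ioc] with s hs
    exact hsub hs
  have hsum : ∀ᵐ s ∂(volume.restrict (Ioc 0 t)),
      HasSum (fun k : K => nm (cfs f s k) ^ 2 + nm (cfs u s k) ^ 2)
        ((∫ x in Q, ∑ i : Fin 3, (f s x i) ^ 2) + ∫ x in Q, ∑ i : Fin 3, (u s x i) ^ 2) := by
    filter_upwards [hmem, hin] with s hs hs2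
    exact (hs_nm h1 (f s) hs).add (hs_nm h1 (u s) (hu s hs2))
  refine hasSum_integral_of_dominated_convergence
    (fun (k : K) s => nm (cfs f s k) ^ 2 + nm (cfs u s k) ^ 2) ?_ ?_ ?_ ?_ ?_
  · intro k
    refine Measurable.aestronglyMeasurable ?_
    refine Complex.measurable_re.comp ?_
    exact Finset.measurable_sum _ fun i _ => (meas_Pr f hf.meas k i).mul
      (Complex.continuous_conj.measurable.comp (meas_cf u hmu k i).measurable)
  · intro k
    filter_upwards [hin] with s hs
    rw [drop_Pr k (cfs f s k) (cfs u s k) (hdiv s hs k)]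
    refine (Complex.abs_re_le_norm _).trans ?_
    refine (norm_sum_le _ _).trans ?_
    rw [nm_sq, nm_sq, ← Finset.sum_add_distrib]
    refine Finset.sum_le_sum fun i _ => ?_
    rw [norm_mul, RCLike.norm_conj]
    nlinarith [sq_nonneg (‖cfs f s k i‖ - ‖cfs u s k i‖), norm_nonneg (cfs f s k i),
      norm_nonneg (cfs u s k i)]
  · filter_upwards [hsum] with s hs
    exact hs.summable
  · have hI : Integrable (fun s => (∫ x in Q, ∑ i : Fin 3, (f s x i) ^ 2)
        + ∫ x in Q, ∑ i : Fin 3, (u s x i) ^ 2) (volume.restrict (Ioc 0 t)) := by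
      refine ((int_force hf).mono_set hsub).add ?_
      refine Integrable.mono' (g := fun _ => E) (integrable_const E) ?_ ?_
      · have h : StronglyMeasurable (fun z : ℝ × V => ∑ i : Fin 3, u z.1 z.2 i ^ 2) := by
          refine Measurable.stronglyMeasurable ?_
          exact Finset.measurable_sum _ fun i _ =>
            ((measurable_pi_apply i).comp hmu).pow_const 2
        exact h.integral_prod_right'.aestronglyMeasurable
      · filter_upwards [hin] with s hs
        rw [Real.norm_eq_abs, abs_of_nonneg]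
        · exact hE s hs
        · exact integral_nonneg fun x => Finset.sum_nonneg fun i _ => sq_nonneg _
    refine hI.congr ?_
    filter_upwards [hsum] with s hs
    exact hs.tsum_eq.symm
  · filter_upwards [hmem, hin] with s hs hs2
    have h := hasSum_sum (s := (Finset.univ : Finset (Fin 3)))
      (f := fun (i : Fin 3) (k : K) => (cf (fun x => f s x i) k *
        (starRingEnd ℂ) (cf (fun x => u s x i) k)).re)
      (a := fun i => ∫ x in Q, f s x i * u s x i) fun i _ => pol h1 _ _ (hs i) (hu s hs2 i)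
    have hi2 : ∀ i : Fin 3, Integrable (fun x => f s x i * u s x i) (volume.restrict Q) :=
      fun i => (hs i).integrable_mul (hu s hs2 i)
    rw [integral_finsetSum _ fun i _ => hi2 i]
    refine h.congr_fun ?_
    intro k
    rw [drop_Pr k (cfs f s k) (cfs u s k) (hdiv s hs2 k), Complex.re_sum]

open H706G78 H684P7 in
theorem g7a (h1 : P1) : G7a := by
  intro T f hT hf
  have hP : ∀ᵐ s ∂(volume.restrict (Icc 0 T)), HasSum (fun k : K => nm (cfs f s k) ^ 2)
      (∫ x in Q, ∑ i : Fin 3, (f s x i) ^ 2) := by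
    filter_upwards [ae_memLp hf] with s hs
    exact hs_nm h1 (f s) hs
  have hS : ∀ᵐ s ∂(volume.restrict (Icc 0 T)), Summable fun k => nm (cfc f s k) ^ 2 := by
    filter_upwards [hP] with s hs
    exact Summable.of_nonneg_of_le (fun _ => sq_nonneg _) (nm_cfc_le f s)
      (hs.summable.mul_left 4)
  refine ⟨fun s k => FH4.dt_Pr k _, hS, ?_⟩
  refine Integrable.mono' ((int_force hf).const_mul 4) ?_ ?_
  · refine aestronglyMeasurable_of_tendsto_ae (u := atTop)
      (f := fun (F : Finset K) s => ∑ k ∈ F, nm (cfc f s k) ^ 2) ?_ ?_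
    · intro F
      refine Measurable.aestronglyMeasurable ?_
      refine Finset.measurable_sum _ fun k _ => ?_
      simp only [nm_sq]
      exact Finset.measurable_sum _ fun i _ => (meas_Pr f hf.meas k i).norm.pow_const 2
    · filter_upwards [hS] with s hs
      exact hs.hasSum
  · filter_upwards [hP, hS] with s hs hs2
    rw [Real.norm_eq_abs, abs_of_nonneg (tsum_nonneg fun _ => sq_nonneg _), ← hs.tsum_eq,
      ← tsum_mul_left]
    exact hs2.tsum_le_tsum (nm_cfc_le f s) (hs.summable.mul_left 4)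

open H706G78 H684P7 in
theorem g7 (h1 : P1) (h4 : P4) (h5 : G5) (h6 : G6) (h7a : G7a) : G7 := by
  intro n ν α T f u₀ u G hν hn hT hf hw
  obtain ⟨hN, hcont, hc, hode⟩ := h5 n ν α T f u₀ u G hν hn hT hf hw
  obtain ⟨ha, hb, hd⟩ := h7a T f hT hf
  refine ⟨?_, ?_, ?_, hcont, ?_, hN, ha, hc, hb, hd, hode⟩
  · intro t _ k i
    exact cf_neg (fun x => u t x i) k
  · intro t ht k
    exact h4 (u t) (fun i => hw.l2_u t ht i) (hw.divfree t ht) k
  · obtain ⟨E, hE⟩ := hw.bdd
    refine ⟨E, fun t ht => ?_⟩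
    have hs := hs_nm h1 (u t) (fun i => hw.l2_u t ht i)
    refine ⟨hs.summable, ?_⟩
    change ∑' k : K, nm (fun i => cf (fun x => u t x i) k) ^ 2 ≤ _
    rw [hs.tsum_eq]
    exact hE t ht
  · have h := (h6 T u G hw.meas_u hw.meas_G hw.l2_u hw.l2_G hw.grad hcont T
      (right_mem_Icc.2 hT)).summable
    have hpi : (4 * Real.pi ^ 2 : ℝ) ≠ 0 := by positivity
    exact (summable_mul_left_iff hpi).1 h

end Pool.Agent.H303.DEE.F
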