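import Pool.Agent.H303.DEE.Stm10
import Pool.Agent.H303.DEE.FH9

/-!
Project DEE-G: the flux tends to zero, with a force (`G9`).
-/

set_option autoImplicit false

open MeasureTheory Set Filter Topology Complex
open scoped ContDiff ENNReal

namespace Pool.Agent.H303.DEE.F

namespace G9x

open FH9

theorem X_contG {g : K → ℝ} {ν T : ℝ} {c a : ℝ → K → C3} (h : GSol g ν T c a) (z : K × K) :
    ContinuousOn (fun s => X (a s) z) (Icc 0 T) := by
  unfold X Xt dt
  refine ContinuousOn.mul ?_ ?_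
  · exact continuousOn_finsetSum _ fun j _ => continuousOn_const.mul (h.cont _ _)
  · exact continuousOn_finsetSum _ fun i _ => (h.cont _ _).mul
      (Complex.continuous_conj.comp_continuousOn (h.cont _ _))

/-- the time integral of the flux -/
theorem int_flux_leG {g : K → ℝ} {ν T : ℝ} {c a : ℝ → K → C3} (h : GSol g ν T c a) {M : ℝ}
    (hM : 1 ≤ M) {t : ℝ} (ht : t ∈ Icc 0 T) {B : ℝ}
    (hB : ∀ S : Finset (K × K), ‖∑ z ∈ S, muz M z * ∫ s in (0 : ℝ)..t, X (a s) z‖ ≤ B) :
    |∫ s in (0 : ℝ)..t, flux M (a s)| ≤ Real.pi * B := by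
  have hpi := Real.pi_pos
  obtain ⟨E, hE⟩ := h.bdd
  have hsub : Ioc 0 t ⊆ Icc 0 T := fun s hs => ⟨hs.1.le, hs.2.trans ht.2⟩
  have hEF : ∀ s ∈ Icc 0 T, ∀ F : Finset K, ∑ k ∈ F, nm (a s k) ^ 2 ≤ E := fun s hs F =>
    ((hE s hs).1.sum_le_tsum F fun k _ => sq_nonneg _).trans (hE s hs).2
  have h0T : (0 : ℝ) ∈ Icc 0 T := ⟨le_rfl, ht.1.trans ht.2⟩
  have hE0 : 0 ≤ E := by
    have := hEF 0 h0T ∅
    simpa using this
  obtain ⟨C, hC⟩ : ∃ C, C = 4 * M * ((box (2 * M)).card * (√E * E)) := ⟨_, rfl⟩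
  have hfs : ∀ s ∈ Icc 0 T, ∀ S : Finset (K × K), ∑ z ∈ S, ‖muz M z * X (a s) z‖ ≤ C :=
    fun s hs S => by
      rw [hC]
      exact flux_sum_le hM hE0 (h.div s hs) (hEF s hs) S
  -- the real terms
  obtain ⟨G, hG⟩ : ∃ G : K × K → ℝ → ℝ, G = fun z s => (Real.pi * I * (muz M z * X (a s) z)).re :=
    ⟨_, rfl⟩
  have hGle : ∀ z s, |G z s| ≤ Real.pi * ‖muz M z * X (a s) z‖ := fun z s => by
    rw [hG]
    refine (Complex.abs_re_le_norm _).trans (le_of_eq ?_)
    rw [norm_mul, norm_mul, Complex.norm_I, mul_one, Complex.norm_real, Real.norm_eq_abs,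
      abs_of_pos hpi]
  have hflux : ∀ s ∈ Icc 0 T, flux M (a s) = ∑' z, G z s := by
    intro s hs
    have h1 : Summable fun z => muz M z * X (a s) z :=
      Summable.of_norm (summable_of_sum_le (fun z => norm_nonneg _) (hfs s hs))
    have h2 := Complex.reCLM.hasSum (h1.hasSum.mul_left (Real.pi * I : ℂ))
    rw [hG]
    exact h2.tsum_eq.symm
  have hGc : ∀ z, ContinuousOn (G z) (Icc 0 T) := fun z => by
    rw [hG]
    exact Complex.continuous_re.comp_continuousOn
      (continuousOn_const.mul (continuousOn_const.mul (X_contG h z)))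
  have hGi : ∀ z, IntegrableOn (G z) (Ioc 0 t) := fun z =>
    ((hGc z).integrableOn_compact isCompact_Icc).mono_set hsub
  have hsum : Summable fun z => ∫ s in Ioc 0 t, ‖G z s‖ := by
    refine summable_of_sum_le (c := Real.pi * C * t)
      (fun z => integral_nonneg fun s => norm_nonneg _) fun S => ?_
    rw [← integral_finsetSum S fun z _ => (hGi z).norm]
    have hci : IntegrableOn (fun _ : ℝ => Real.pi * C) (Ioc 0 t) :=
      (continuousOn_const.integrableOn_compact isCompact_Icc).mono_set Ioc_subset_Icc_self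
    have h1 : ∫ s in Ioc 0 t, ∑ z ∈ S, ‖G z s‖ ≤ ∫ s in Ioc 0 t, Real.pi * C := by
      refine setIntegral_mono_on (integrable_finsetSum _ fun z _ => (hGi z).norm)
        hci measurableSet_Ioc fun s hs => ?_
      calc ∑ z ∈ S, ‖G z s‖ ≤ ∑ z ∈ S, Real.pi * ‖muz M z * X (a s) z‖ :=
            Finset.sum_le_sum fun z _ => hGle z s
        _ ≤ Real.pi * C := by
            rw [← Finset.mul_sum]
            exact mul_le_mul_of_nonneg_left (hfs s (hsub hs) S) hpi.le
    refine h1.trans (le_of_eq ?_)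
    rw [setIntegral_const, Real.volume_real_Ioc, sub_zero, max_eq_left ht.1, smul_eq_mul]
    ring
  have hhs := hasSum_integral_of_summable_integral_norm (μ := volume.restrict (Ioc 0 t)) hGi hsum
  have hGint : ∀ z, ∫ s in Ioc 0 t, G z s =
      (Real.pi * I * (muz M z * ∫ s in (0 : ℝ)..t, X (a s) z)).re := by
    intro z
    have hXi : IntegrableOn (fun s => X (a s) z) (Ioc 0 t) :=
      ((X_contG h z).integrableOn_compact isCompact_Icc).mono_set hsub
    rw [intervalIntegral.integral_of_le ht.1, hG, ← integral_const_mul, ← integral_const_mul]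
    exact integral_re ((hXi.const_mul _).const_mul _)
  have hfl : ∫ s in (0 : ℝ)..t, flux M (a s) = ∫ s in Ioc 0 t, ∑' z, G z s := by
    rw [intervalIntegral.integral_of_le ht.1]
    exact setIntegral_congr_fun measurableSet_Ioc fun s hs => hflux s (hsub hs)
  rw [hfl]
  refine le_of_tendsto hhs.norm (Eventually.of_forall fun S => ?_)
  simp only [hGint]
  have e : ∑ z ∈ S, (Real.pi * I * (muz M z * ∫ s in (0 : ℝ)..t, X (a s) z)).re =
      (Real.pi * I * ∑ z ∈ S, muz M z * ∫ s in (0 : ℝ)..t, X (a s) z).re := by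
    rw [Finset.mul_sum, Complex.re_sum]
  rw [e, Real.norm_eq_abs]
  refine (Complex.abs_re_le_norm _).trans ?_
  rw [norm_mul, norm_mul, Complex.norm_I, mul_one, Complex.norm_real, Real.norm_eq_abs,
    abs_of_pos hpi]
  exact mul_le_mul_of_nonneg_left (hB S) hpi.le

end G9x

open FH9 G9x in
/-- the flux tends to zero -/
theorem g9 (h9a : G9a) : G9 := by
  intro g ν T C c a hν hg hC hfew h t ht
  obtain ⟨B, hB0, hB⟩ := h9a g ν T C c a hν hg hC hfew h
  have hT : 0 ≤ T := ht.1.trans ht.2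
  have key : ∀ m : ℕ, ‖∫ s in (0 : ℝ)..t, flux ((m : ℝ) + 1) (a s)‖ ≤ Real.pi *
      (B * (√(∑' k, tl ((m : ℝ) + 1) k * dd a T k) + ((m : ℝ) + 1) ^ (-(1 / 4) : ℝ))) := fun m => by
    have hm : (1 : ℝ) ≤ (m : ℝ) + 1 := by
      have : (0 : ℝ) ≤ m := Nat.cast_nonneg m
      linarith
    rw [Real.norm_eq_abs]
    exact int_flux_leG h hm ht fun S => hB _ hm t ht S
  refine squeeze_zero_norm key ?_
  have h1 : Tendsto (fun m : ℕ => √(∑' k, tl ((m : ℝ) + 1) k * dd a T k)) atTop (𝓝 0) := by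
    have := (Real.continuous_sqrt.tendsto 0).comp (tail_zero (a := a) hT h.diss)
    rwa [Real.sqrt_zero] at this
  have h2 : Tendsto (fun m : ℕ => ((m : ℝ) + 1) ^ (-(1 / 4) : ℝ)) atTop (𝓝 0) :=
    (tendsto_rpow_neg_atTop (by norm_num : (0 : ℝ) < 1 / 4)).comp
      (tendsto_atTop_add_const_right _ 1 tendsto_natCast_atTop_atTop)
  have h3 := ((h1.add h2).const_mul B).const_mul Real.pi
  simpa using h3

end Pool.Agent.H303.DEE.F
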