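import Pool.Agent.H303.DEE.Stm10
import Pool.Agent.H303.DEE.FH9a

/-!
Project DEE-G (helper164), part G9a: the time integrals for finitely many triads, with a force.
Adapted from FH9a (helper303).
-/

set_option autoImplicit false

open MeasureTheory Set Filter Topology Complex
open scoped ContDiff ENNReal

namespace Pool.Agent.H303.DEE.F

namespace S164G9a

open H9aL

section cont
variable {g : K → ℝ} {ν T : ℝ} {c a : ℝ → K → C3}

theorem nm_cont (ha : GSol g ν T c a) (k : K) : ContinuousOn (fun s => nm (a s k)) (Icc 0 T) := by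
  unfold nm
  refine ContinuousOn.sqrt ?_
  exact continuousOn_finsetSum _ fun i _ => ((ha.cont k i).norm).pow 2

theorem Gs_cont (ha : GSol g ν T c a) (F : Finset K) :
    ContinuousOn (fun s => Gs F (a s)) (Icc 0 T) := by
  unfold Gs
  exact continuousOn_finsetSum _ fun k _ => continuousOn_const.mul ((nm_cont ha k).pow 2)

theorem xs_cont (ha : GSol g ν T c a) (F : Finset K) (k : K) :
    ContinuousOn (fun s => xs F (a s) k) (Icc 0 T) := by
  unfold xs
  by_cases h : k ∈ F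
  · simp only [if_pos h]
    exact nm_cont ha k
  · simp only [if_neg h]
    exact continuousOn_const

theorem X_cont (ha : GSol g ν T c a) (z : K × K) : ContinuousOn (fun s => X (a s) z) (Icc 0 T) := by
  unfold X Xt dt
  refine ContinuousOn.mul ?_ ?_
  · exact continuousOn_finsetSum _ fun j _ => continuousOn_const.mul (ha.cont _ j)
  · exact continuousOn_finsetSum _ fun i _ => (ha.cont _ i).mul
      (Complex.continuous_conj.comp_continuousOn (ha.cont _ i))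

theorem nm_neg (ha : GSol g ν T c a) {s : ℝ} (hs : s ∈ Icc 0 T) (k : K) :
    nm (a s (-k)) = nm (a s k) := by
  unfold nm
  congr 1
  refine Finset.sum_congr rfl fun i _ => ?_
  rw [ha.real s hs k i, Complex.norm_conj]

/-- the time integral of the dissipation -/
theorem int_Gs (ha : GSol g ν T c a) (F : Finset K) (hT : 0 ≤ T) :
    ∫ s in (0 : ℝ)..T, Gs F (a s) = ∑ k ∈ F, dd a T k := by
  unfold Gs dd
  exact intervalIntegral.integral_finsetSum fun k _ =>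
    (continuousOn_const.mul ((nm_cont ha k).pow 2)).intervalIntegrable_of_Icc hT

theorem int_mono (ha : GSol g ν T c a) (F : Finset K) {t : ℝ} (ht : t ∈ Icc 0 T) :
    ∫ s in (0 : ℝ)..t, Gs F (a s) ≤ ∫ s in (0 : ℝ)..T, Gs F (a s) := by
  refine intervalIntegral.integral_mono_interval le_rfl ht.1 ht.2 ?_
    ((Gs_cont ha F).intervalIntegrable_of_Icc (ht.1.trans ht.2))
  exact Filter.Eventually.of_forall fun s => Gs_nonneg F (a s)

/-- the time integral of the product of the two densities -/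
theorem int_GG (ha : GSol g ν T c a) (F : Finset K) (M : ℝ) [DecidablePred fun k => M / 2 ≤ kn k]
    {t : ℝ} (ht : t ∈ Icc 0 T) :
    ∫ s in (0 : ℝ)..t, √(Gs F (a s)) * √(Gs (F.filter fun k => M / 2 ≤ kn k) (a s)) ≤
      √(∑' k, dd a T k) * √(∑' k, tl M k * dd a T k) := by
  have hT : 0 ≤ T := ht.1.trans ht.2
  have hsub : Icc 0 t ⊆ Icc 0 T := Icc_subset_Icc le_rfl ht.2
  have hsum : Summable fun k => dd a T k := ha.diss
  have hsum2 : Summable fun k => tl M k * dd a T k := by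
    refine Summable.of_nonneg_of_le (fun k => ?_) (fun k => ?_) hsum
    · refine mul_nonneg ?_ (dd_nonneg a hT k)
      unfold tl
      split_ifs <;> norm_num
    · refine mul_le_of_le_one_left (dd_nonneg a hT k) ?_
      unfold tl
      split_ifs <;> norm_num
  have h1 := cs_time ht.1 ((Gs_cont ha F).mono hsub)
    ((Gs_cont ha (F.filter fun k => M / 2 ≤ kn k)).mono hsub) (fun s _ => Gs_nonneg _ _)
    (fun s _ => Gs_nonneg _ _)
  refine h1.trans (mul_le_mul (Real.sqrt_le_sqrt ?_) (Real.sqrt_le_sqrt ?_) (Real.sqrt_nonneg _)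
    (Real.sqrt_nonneg _))
  · refine (int_mono ha F ht).trans ?_
    rw [int_Gs ha F hT]
    exact hsum.sum_le_tsum _ fun k _ => dd_nonneg a hT k
  · refine (int_mono ha _ ht).trans ?_
    rw [int_Gs ha _ hT]
    have h2 : ∑ k ∈ F.filter (fun k => M / 2 ≤ kn k), dd a T k =
        ∑ k ∈ F.filter (fun k => M / 2 ≤ kn k), tl M k * dd a T k := by
      refine Finset.sum_congr rfl fun k hk => ?_
      unfold tl
      rw [if_pos (Finset.mem_filter.1 hk).2, one_mul]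
    rw [h2]
    refine hsum2.sum_le_tsum _ fun k _ => mul_nonneg ?_ (dd_nonneg a hT k)
    unfold tl
    split_ifs <;> norm_num

theorem tp_cont (ha : GSol g ν T c a) (F : Finset K) (z : K × K) :
    ContinuousOn (fun s => tp F (a s) z) (Icc 0 T) :=
  ((xs_cont ha F _).mul (xs_cont ha F _)).mul (xs_cont ha F _)

theorem qp_cont (ha : GSol g ν T c a) (F : Finset K) (z : K × K) :
    ContinuousOn (fun s => qp F (a s) z) (Icc 0 T) :=
  ((continuousOn_const.mul ((xs_cont ha F _).mul (xs_cont ha F _))).add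
    (continuousOn_const.mul ((xs_cont ha F _).mul (xs_cont ha F _)))).add
    (continuousOn_const.mul ((xs_cont ha F _).mul (xs_cont ha F _)))

/-- near resonant triads -/
theorem near (h5 : H5) (ha : GSol g ν T c a) {M : ℝ} (hM : 1 ≤ M) {t : ℝ} (ht : t ∈ Icc 0 T)
    {F : Finset K} {z : K × K} (h1 : z.1 ∈ F) (h2 : z.2 ∈ F) (h3 : z.1 - z.2 ∈ F) :
    ‖((wt M z.1 - wt M (z.1 - z.2) : ℝ) : ℂ) * ∫ s in (0 : ℝ)..t, X (a s) z‖ ≤
      ∫ s in (0 : ℝ)..t, 2 * (mn z * tp F (a s) z) := by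
  have hsub : Icc 0 t ⊆ Icc 0 T := Icc_subset_Icc le_rfl ht.2
  rw [← intervalIntegral.integral_const_mul]
  refine intervalIntegral.norm_integral_le_of_norm_le ht.1 ?_ ?_
  · refine Filter.Eventually.of_forall fun s hs => ?_
    have hs' : s ∈ Icc 0 T := hsub ⟨hs.1.le, hs.2⟩
    rw [norm_mul, Complex.norm_real, Real.norm_eq_abs]
    have := X_bound h5 hM (a s) (ha.div s hs') z
    unfold tp
    rw [xs_mem h1, xs_mem h2, xs_mem h3]
    exact this
  · exact (continuousOn_const.mul (continuousOn_const.mul ((tp_cont ha F z).mono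
      hsub))).intervalIntegrable_of_Icc ht.1

/-- triads which are not near resonant -/
theorem far (h3' : G3) (h4 : H4) (h5 : H5) (ha : GSol g ν T c a) {E : ℝ}
    (hE : ∀ s ∈ Icc 0 T, Summable (fun k => nm (a s k) ^ 2) ∧ ∑' k, nm (a s k) ^ 2 ≤ E)
    {M : ℝ} (hM : 1 ≤ M) {t : ℝ} (ht : t ∈ Icc 0 T)
    {F : Finset K} {z : K × K} (h1 : z.1 ∈ F) (h2 : z.2 ∈ F) (h3 : z.1 - z.2 ∈ F)
    (hmx : M < mx z) (hom : mx z ^ 3 < |om g z|) :
    ‖((wt M z.1 - wt M (z.1 - z.2) : ℝ) : ℂ) * ∫ s in (0 : ℝ)..t, X (a s) z‖ ≤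
      2 * (mn z / mx z ^ 3 * tp F (a t) z) + 2 * (mn z / mx z ^ 3 * tp F (a 0) z)
        + (∫ s in (0 : ℝ)..t, 40 * E * (mn z / mx z ^ 3 * qp F (a s) z))
        + ∫ s in (0 : ℝ)..t, |wt M z.1 - wt M (z.1 - z.2)| / mx z ^ 3 *
            ‖Qf (c s) (a s) z‖ := by
  have hT : 0 ≤ T := ht.1.trans ht.2
  have hsub : Icc 0 t ⊆ Icc 0 T := Icc_subset_Icc le_rfl ht.2
  have h0 : (0 : ℝ) ∈ Icc 0 T := ⟨le_rfl, hT⟩
  have hmx0 : 0 < mx z := by linarith
  have hmx3 : 0 < mx z ^ 3 := by positivity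
  obtain ⟨hQ, hQf, heq⟩ := h3' g ν T c a ha z
  have iX : IntervalIntegrable (fun s => X (a s) z) volume 0 t :=
    ((X_cont ha z).mono hsub).intervalIntegrable_of_Icc ht.1
  have iQ : IntervalIntegrable (fun s => Qz (a s) z) volume 0 t :=
    (intervalIntegrable_iff_integrableOn_Icc_of_le ht.1).2 (hQ.mono_set hsub)
  have iQf : IntervalIntegrable (fun s => Qf (c s) (a s) z) volume 0 t :=
    (intervalIntegrable_iff_integrableOn_Icc_of_le ht.1).2 (hQf.mono_set hsub)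
  have e1 := heq t ht
  rw [intervalIntegral.integral_add ((iX.const_mul _).sub iQ) iQf,
    intervalIntegral.integral_sub (iX.const_mul _) iQ,
    intervalIntegral.integral_const_mul] at e1
  set mu : ℝ := wt M z.1 - wt M (z.1 - z.2) with hmu
  set J := ∫ s in (0 : ℝ)..t, X (a s) z with hJ
  set R := ∫ s in (0 : ℝ)..t, Qz (a s) z with hR
  set Rf := ∫ s in (0 : ℝ)..t, Qf (c s) (a s) z with hRf
  have e2 : Zd g ν z * J = X (a 0) z - X (a t) z - R + Rf := by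
    linear_combination e1
  have hZ : |om g z| ≤ ‖Zd g ν z‖ := by
    have h := Complex.abs_im_le_norm (Zd g ν z)
    have him : (Zd g ν z).im = om g z := by
      unfold Zd
      rw [Complex.add_im, Complex.ofReal_im, Complex.I_mul_im, Complex.ofReal_re, zero_add]
    rwa [him] at h
  have hZ' : mx z ^ 3 < ‖Zd g ν z‖ := hom.trans_le hZ
  have hXb : ∀ s ∈ Icc 0 T, |mu| * ‖X (a s) z‖ ≤ 2 * (mn z * tp F (a s) z) := by
    intro s hs
    have := X_bound h5 hM (a s) (ha.div s hs) z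
    unfold tp
    rw [xs_mem h1, xs_mem h2, xs_mem h3]
    exact this
  have hQb : ∀ s ∈ Icc 0 T, |mu| * ‖Qz (a s) z‖ ≤ 40 * E * (mn z * qp F (a s) z) := by
    intro s hs
    have := Q_bound h4 h5 hM (a s) (hE s hs).1 (hE s hs).2 (ha.div s hs) z
    unfold qp
    rw [xs_mem h1, xs_mem h2, xs_mem h3]
    exact this
  have hRb : |mu| * ‖R‖ ≤ ∫ s in (0 : ℝ)..t, 40 * E * (mn z * qp F (a s) z) := by
    have h6 : |mu| * ‖R‖ = ‖∫ s in (0 : ℝ)..t, (mu : ℂ) * Qz (a s) z‖ := by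
      rw [intervalIntegral.integral_const_mul, norm_mul, Complex.norm_real, Real.norm_eq_abs]
    rw [h6]
    refine intervalIntegral.norm_integral_le_of_norm_le ht.1 ?_ ?_
    · refine Filter.Eventually.of_forall fun s hs => ?_
      rw [norm_mul, Complex.norm_real, Real.norm_eq_abs]
      exact hQb s (hsub ⟨hs.1.le, hs.2⟩)
    · exact (continuousOn_const.mul (continuousOn_const.mul ((qp_cont ha F z).mono
        hsub))).intervalIntegrable_of_Icc ht.1
  have hRfb : |mu| * ‖Rf‖ ≤ ∫ s in (0 : ℝ)..t, |mu| * ‖Qf (c s) (a s) z‖ := by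
    rw [intervalIntegral.integral_const_mul]
    exact mul_le_mul_of_nonneg_left (intervalIntegral.norm_integral_le_integral_norm ht.1)
      (abs_nonneg _)
  have h7 : mx z ^ 3 * (|mu| * ‖J‖) ≤ 2 * (mn z * tp F (a t) z) + 2 * (mn z * tp F (a 0) z)
      + (∫ s in (0 : ℝ)..t, 40 * E * (mn z * qp F (a s) z))
      + ∫ s in (0 : ℝ)..t, |mu| * ‖Qf (c s) (a s) z‖ := by
    have h8 : mx z ^ 3 * (|mu| * ‖J‖) ≤ |mu| * ‖Zd g ν z * J‖ := by
      rw [norm_mul]
      have : mx z ^ 3 * (|mu| * ‖J‖) ≤ ‖Zd g ν z‖ * (|mu| * ‖J‖) :=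
        mul_le_mul_of_nonneg_right hZ'.le (mul_nonneg (abs_nonneg _) (norm_nonneg _))
      linarith
    rw [e2] at h8
    have h9 : ‖X (a 0) z - X (a t) z - R + Rf‖ ≤ ‖X (a 0) z‖ + ‖X (a t) z‖ + ‖R‖ + ‖Rf‖ :=
      (norm_add_le _ _).trans (add_le_add ((norm_sub_le _ _).trans
        (add_le_add (norm_sub_le _ _) le_rfl)) le_rfl)
    have h10 : |mu| * ‖X (a 0) z - X (a t) z - R + Rf‖ ≤
        |mu| * ‖X (a 0) z‖ + |mu| * ‖X (a t) z‖ + |mu| * ‖R‖ + |mu| * ‖Rf‖ := by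
      have := mul_le_mul_of_nonneg_left h9 (abs_nonneg mu)
      linarith
    linarith [hXb 0 h0, hXb t ht, hRb, hRfb]
  rw [norm_mul, Complex.norm_real, Real.norm_eq_abs]
  have h11 : ∫ s in (0 : ℝ)..t, 40 * E * (mn z / mx z ^ 3 * qp F (a s) z) =
      (∫ s in (0 : ℝ)..t, 40 * E * (mn z * qp F (a s) z)) / mx z ^ 3 := by
    rw [← intervalIntegral.integral_div]
    refine intervalIntegral.integral_congr fun s _ => ?_
    ring
  have h11f : ∫ s in (0 : ℝ)..t, |mu| / mx z ^ 3 * ‖Qf (c s) (a s) z‖ =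
      (∫ s in (0 : ℝ)..t, |mu| * ‖Qf (c s) (a s) z‖) / mx z ^ 3 := by
    rw [← intervalIntegral.integral_div]
    refine intervalIntegral.integral_congr fun s _ => ?_
    ring
  rw [h11, h11f]
  have h12 : 2 * (mn z / mx z ^ 3 * tp F (a t) z) + 2 * (mn z / mx z ^ 3 * tp F (a 0) z)
      + (∫ s in (0 : ℝ)..t, 40 * E * (mn z * qp F (a s) z)) / mx z ^ 3
      + (∫ s in (0 : ℝ)..t, |mu| * ‖Qf (c s) (a s) z‖) / mx z ^ 3 =
      (2 * (mn z * tp F (a t) z) + 2 * (mn z * tp F (a 0) z)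
      + (∫ s in (0 : ℝ)..t, 40 * E * (mn z * qp F (a s) z))
      + ∫ s in (0 : ℝ)..t, |mu| * ‖Qf (c s) (a s) z‖) / mx z ^ 3 := by
    ring
  rw [h12, le_div_iff₀ hmx3]
  linarith

/-- triads without contribution -/
theorem zero_of (h5 : H5) (ha : GSol g ν T c a) {M : ℝ} (hM : 1 ≤ M) {t : ℝ} (ht : t ∈ Icc 0 T)
    {z : K × K} (h : ¬ (M < mx z ∧ 0 < mn z)) :
    ((wt M z.1 - wt M (z.1 - z.2) : ℝ) : ℂ) * ∫ s in (0 : ℝ)..t, X (a s) z = 0 := by
  by_cases h1 : mx z ≤ M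
  · have := (h5 M z 0 0 0 hM (by simp [dt])).2 h1
    rw [this]
    simp
  · have h2 : mn z = 0 := by
      have h3 : ¬ (0 < mn z) := fun h4 => h ⟨not_le.1 h1, h4⟩
      exact le_antisymm (not_lt.1 h3) (mn_nonneg z)
    rw [← norm_eq_zero]
    refine le_antisymm ?_ (norm_nonneg _)
    have h3 := near h5 ha hM ht (F := {z.1, z.2, z.1 - z.2}) (z := z) (by simp) (by simp) (by simp)
    refine h3.trans (le_of_eq ?_)
    rw [h2]
    simp

end cont

/-- the bound of the expression with the force -/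
theorem F_bound (h5 : H5) {M : ℝ} (hM : 1 ≤ M) (c U : K → C3) (hdiv : ∀ k, dt k (U k) = 0)
    (hc : ∀ k, dt k (c k) = 0) (x : K → ℝ) (l : ℝ) (hl : 0 ≤ l)
    (hU : ∀ k, nm (U k) ≤ x k) (hcx : ∀ k, nm (c k) ≤ l * x k) (z : K × K) :
    |wt M z.1 - wt M (z.1 - z.2)| * ‖Qf c U z‖ ≤
      6 * l * (mn z * (x z.1 * x z.2 * x (z.1 - z.2))) := by
  have h1 := (h5 M z (c z.2) (U (z.1 - z.2)) (U z.1) hM (hc _)).1
  have h2 := (h5 M z (U z.2) (c (z.1 - z.2)) (U z.1) hM (hdiv _)).1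
  have h3 := (h5 M z (U z.2) (U (z.1 - z.2)) (c z.1) hM (hdiv _)).1
  have hmn := mn_nonneg z
  have hx : ∀ k, 0 ≤ x k := fun k => (nm_nonneg _).trans (hU k)
  have b1 : 2 * mn z * (nm (c z.2) * nm (U (z.1 - z.2)) * nm (U z.1)) ≤
      2 * mn z * ((l * x z.2) * x (z.1 - z.2) * x z.1) := by
    have q1 : nm (c z.2) * nm (U (z.1 - z.2)) ≤ (l * x z.2) * x (z.1 - z.2) :=
      mul_le_mul (hcx _) (hU _) (nm_nonneg _) (mul_nonneg hl (hx _))
    have q2 := mul_le_mul q1 (hU z.1) (nm_nonneg _) (mul_nonneg (mul_nonneg hl (hx _)) (hx _))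
    exact mul_le_mul_of_nonneg_left q2 (by positivity)
  have b2 : 2 * mn z * (nm (U z.2) * nm (c (z.1 - z.2)) * nm (U z.1)) ≤
      2 * mn z * (x z.2 * (l * x (z.1 - z.2)) * x z.1) := by
    have q1 : nm (U z.2) * nm (c (z.1 - z.2)) ≤ x z.2 * (l * x (z.1 - z.2)) :=
      mul_le_mul (hU _) (hcx _) (nm_nonneg _) (hx _)
    have q2 := mul_le_mul q1 (hU z.1) (nm_nonneg _) (mul_nonneg (hx _) (mul_nonneg hl (hx _)))
    exact mul_le_mul_of_nonneg_left q2 (by positivity)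
  have b3 : 2 * mn z * (nm (U z.2) * nm (U (z.1 - z.2)) * nm (c z.1)) ≤
      2 * mn z * (x z.2 * x (z.1 - z.2) * (l * x z.1)) := by
    have q1 : nm (U z.2) * nm (U (z.1 - z.2)) ≤ x z.2 * x (z.1 - z.2) :=
      mul_le_mul (hU _) (hU _) (nm_nonneg _) (hx _)
    have q2 := mul_le_mul q1 (hcx z.1) (nm_nonneg _) (mul_nonneg (hx _) (hx _))
    exact mul_le_mul_of_nonneg_left q2 (by positivity)
  have hab : |wt M z.1 - wt M (z.1 - z.2)| * ‖Qf c U z‖ ≤
      |wt M z.1 - wt M (z.1 - z.2)| * ‖Xt z.1 (c z.2) (U (z.1 - z.2)) (U z.1)‖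
      + |wt M z.1 - wt M (z.1 - z.2)| * ‖Xt z.1 (U z.2) (c (z.1 - z.2)) (U z.1)‖
      + |wt M z.1 - wt M (z.1 - z.2)| * ‖Xt z.1 (U z.2) (U (z.1 - z.2)) (c z.1)‖ := by
    rw [← mul_add, ← mul_add]
    refine mul_le_mul_of_nonneg_left ?_ (abs_nonneg _)
    unfold Qf
    refine (norm_add_le _ _).trans ?_
    gcongr
    exact norm_add_le _ _
  refine hab.trans (((add_le_add (add_le_add (h1.trans b1) (h2.trans b2)) (h3.trans b3))).trans
    (le_of_eq ?_))
  ring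

/-- the contribution of the force -/
theorem force {g : K → ℝ} {ν T : ℝ} {c a : ℝ → K → C3} (h3' : G3) (h5 : H5)
    (ha : GSol g ν T c a) {E : ℝ}
    (hE : ∀ s ∈ Icc 0 T, Summable (fun k => nm (a s k) ^ 2) ∧ ∑' k, nm (a s k) ^ 2 ≤ E)
    (hE0 : 0 ≤ E) {C7 : ℝ} (hC7 : 0 ≤ C7)
    (h7 : ∀ (x : K → ℝ) (M E : ℝ), 1 ≤ M → (∀ k, 0 ≤ x k) →
      (∀ F : Finset K, ∑ k ∈ F, x k ^ 2 ≤ E) →
      ∀ S : Finset (K × K), (∀ z ∈ S, M ≤ mx z ∧ 0 < mn z) →
      ∑ z ∈ S, mn z / mx z ^ 3 * (x z.1 * x z.2 * x (z.1 - z.2)) ≤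
        C7 * (E * √E) * M ^ (-(1 / 4) : ℝ))
    {M : ℝ} (hM : 1 ≤ M) {t : ℝ} (ht : t ∈ Icc 0 T) {S : Finset (K × K)}
    (hS : ∀ z ∈ S, M ≤ mx z ∧ 0 < mn z) (hS' : ∀ z ∈ S, 0 < mx z) :
    ∑ z ∈ S, ∫ s in (0 : ℝ)..t, |wt M z.1 - wt M (z.1 - z.2)| / mx z ^ 3 *
        ‖Qf (c s) (a s) z‖ ≤
      (6 * (C7 * ((2 * E + 2) * √(2 * E + 2)))) * (∫ s in Icc 0 T, (1 + ∑' k, nm (c s k) ^ 2))
        * M ^ (-(1 / 4) : ℝ) := by
  have hT : 0 ≤ T := ht.1.trans ht.2
  have hsub : Icc 0 t ⊆ Icc 0 T := Icc_subset_Icc le_rfl ht.2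
  have hM4 : 0 ≤ M ^ (-(1 / 4) : ℝ) := Real.rpow_nonneg (by linarith) _
  have iz : ∀ z, IntegrableOn (fun s => |wt M z.1 - wt M (z.1 - z.2)| / mx z ^ 3 *
        ‖Qf (c s) (a s) z‖) (Icc 0 t) := fun z => by
    have q : IntegrableOn (fun s => |wt M z.1 - wt M (z.1 - z.2)| / mx z ^ 3 *
        ‖Qf (c s) (a s) z‖) (Icc 0 T) := ((h3' g ν T c a ha z).2.1).norm.const_mul _
    exact q.mono_set hsub
  have iz' : ∀ z ∈ S, IntervalIntegrable (fun s => |wt M z.1 - wt M (z.1 - z.2)| / mx z ^ 3 *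
        ‖Qf (c s) (a s) z‖) volume 0 t := fun z _ =>
    (intervalIntegrable_iff_integrableOn_Icc_of_le ht.1).2 (iz z)
  have iL : IntegrableOn (fun s => 1 + ∑' k, nm (c s k) ^ 2) (Icc 0 T) :=
    (integrableOn_const (by simp)).add ha.cL2
  set BB : ℝ := 6 * (C7 * ((2 * E + 2) * √(2 * E + 2))) with hBB
  have hBB0 : 0 ≤ BB := by positivity
  have iL' : IntegrableOn (fun s => BB * M ^ (-(1 / 4) : ℝ) * (1 + ∑' k, nm (c s k) ^ 2))
      (Icc 0 t) := (iL.mono_set hsub).const_mul _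
  rw [← intervalIntegral.integral_finsetSum iz']
  have key : ∀ᵐ s ∂(volume.restrict (Icc 0 t)), ∑ z ∈ S,
      |wt M z.1 - wt M (z.1 - z.2)| / mx z ^ 3 * ‖Qf (c s) (a s) z‖ ≤
      BB * M ^ (-(1 / 4) : ℝ) * (1 + ∑' k, nm (c s k) ^ 2) := by
    have hcs : ∀ᵐ s ∂(volume.restrict (Icc 0 t)), Summable fun k => nm (c s k) ^ 2 :=
      ae_restrict_of_ae_restrict_of_subset hsub ha.csum
    filter_upwards [hcs, ae_restrict_mem measurableSet_Icc] with s hs hst
    have hsT := hsub hst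
    obtain ⟨L, hL⟩ : ∃ L : ℝ, L = ∑' k, nm (c s k) ^ 2 := ⟨_, rfl⟩
    have hL0 : 0 ≤ L := by
      rw [hL]
      exact tsum_nonneg fun k => sq_nonneg _
    rw [← hL]
    obtain ⟨l, hl⟩ : ∃ l : ℝ, l = √(1 + L) := ⟨_, rfl⟩
    have hl2 : l ^ 2 = 1 + L := by
      rw [hl]
      exact Real.sq_sqrt (by linarith)
    have hl0 : 0 < l := by
      rw [hl]
      exact Real.sqrt_pos.2 (by linarith)
    have hll : l ≤ 1 + L := by
      have : 1 ≤ l := by
        rw [hl]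
        exact Real.one_le_sqrt.2 (by linarith)
      nlinarith
    set x : K → ℝ := fun k => nm (a s k) + nm (c s k) / l with hx
    have hx0 : ∀ k, 0 ≤ x k := fun k =>
      add_nonneg (nm_nonneg _) (div_nonneg (nm_nonneg _) hl0.le)
    have hxs : ∀ F : Finset K, ∑ k ∈ F, x k ^ 2 ≤ 2 * E + 2 := by
      intro F
      have q1 : ∑ k ∈ F, nm (a s k) ^ 2 ≤ E :=
        ((hE s hsT).1.sum_le_tsum _ fun _ _ => sq_nonneg _).trans (hE s hsT).2
      have q2 : ∑ k ∈ F, nm (c s k) ^ 2 ≤ L := by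
        rw [hL]
        exact hs.sum_le_tsum _ fun _ _ => sq_nonneg _
      have q3 : ∑ k ∈ F, x k ^ 2 ≤ ∑ k ∈ F, (2 * nm (a s k) ^ 2 + 2 / l ^ 2 * nm (c s k) ^ 2) := by
        refine Finset.sum_le_sum fun k _ => ?_
        have e : 2 / l ^ 2 * nm (c s k) ^ 2 = 2 * (nm (c s k) / l) ^ 2 := by
          rw [div_pow]
          ring
        rw [e]
        simp only [hx]
        nlinarith [sq_nonneg (nm (a s k) - nm (c s k) / l)]
      rw [Finset.sum_add_distrib, ← Finset.mul_sum, ← Finset.mul_sum] at q3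
      have q4 : 2 / l ^ 2 * ∑ k ∈ F, nm (c s k) ^ 2 ≤ 2 := by
        rw [hl2, div_mul_eq_mul_div, div_le_iff₀ (by linarith)]
        linarith
      linarith
    have hb : ∀ z ∈ S, |wt M z.1 - wt M (z.1 - z.2)| / mx z ^ 3 * ‖Qf (c s) (a s) z‖ ≤
        6 * l * (mn z / mx z ^ 3 * (x z.1 * x z.2 * x (z.1 - z.2))) := by
      intro z hz
      have hm := hS' z hz
      have q := F_bound h5 hM (c s) (a s) (ha.div s hsT) (ha.cdiv s) x l hl0.le
        (fun k => le_add_of_nonneg_right (div_nonneg (nm_nonneg _) hl0.le))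
        (fun k => by
          have e : l * x k = l * nm (a s k) + nm (c s k) := by
            simp only [hx]
            field_simp
          rw [e]
          exact le_add_of_nonneg_left (mul_nonneg hl0.le (nm_nonneg _))) z
      have e1 : |wt M z.1 - wt M (z.1 - z.2)| / mx z ^ 3 * ‖Qf (c s) (a s) z‖ =
          (|wt M z.1 - wt M (z.1 - z.2)| * ‖Qf (c s) (a s) z‖) / mx z ^ 3 := by ring
      have e2 : 6 * l * (mn z / mx z ^ 3 * (x z.1 * x z.2 * x (z.1 - z.2))) =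
          (6 * l * (mn z * (x z.1 * x z.2 * x (z.1 - z.2)))) / mx z ^ 3 := by ring
      rw [e1, e2]
      exact div_le_div_of_nonneg_right q (by positivity)
    refine (Finset.sum_le_sum hb).trans ?_
    rw [← Finset.mul_sum]
    have q5 := h7 x M (2 * E + 2) hM hx0 hxs S hS
    calc 6 * l * ∑ z ∈ S, mn z / mx z ^ 3 * (x z.1 * x z.2 * x (z.1 - z.2)) ≤
          6 * l * (C7 * ((2 * E + 2) * √(2 * E + 2)) * M ^ (-(1 / 4) : ℝ)) :=
          mul_le_mul_of_nonneg_left q5 (by positivity)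
      _ = BB * M ^ (-(1 / 4) : ℝ) * l := by
          rw [hBB]
          ring
      _ ≤ BB * M ^ (-(1 / 4) : ℝ) * (1 + L) :=
          mul_le_mul_of_nonneg_left hll (mul_nonneg hBB0 hM4)
  have i1 : IntegrableOn (fun s => ∑ z ∈ S,
      |wt M z.1 - wt M (z.1 - z.2)| / mx z ^ 3 * ‖Qf (c s) (a s) z‖) (Icc 0 t) :=
    integrable_finsetSum _ fun z _ => iz z
  rw [intervalIntegral.integral_of_le ht.1, ← integral_Icc_eq_integral_Ioc]
  refine (integral_mono_ae i1 iL' key).trans ?_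
  rw [integral_const_mul]
  have q6 : ∫ s in Icc 0 t, (1 + ∑' k, nm (c s k) ^ 2) ≤
      ∫ s in Icc 0 T, (1 + ∑' k, nm (c s k) ^ 2) :=
    setIntegral_mono_set iL (Filter.Eventually.of_forall fun s =>
      add_nonneg zero_le_one (tsum_nonneg fun k => sq_nonneg _))
      (Filter.Eventually.of_forall hsub)
  have q7 := mul_le_mul_of_nonneg_left q6 (mul_nonneg hBB0 hM4)
  refine q7.trans (le_of_eq ?_)
  ring

theorem main (h3 : G3) (h4 : H4) (h5 : H5) (h6 : H6) (h7 : H7) (h8 : H8) : G9a := by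
  classical
  intro g ν T C c a hν hg hC hfew ha
  obtain ⟨E0, hE0⟩ := ha.bdd
  obtain ⟨C7, hC7, h7⟩ := h7
  obtain ⟨C8, hC8, h8⟩ := h8
  set E := max E0 0 with hEdef
  have hE' : 0 ≤ E := le_max_right _ _
  have hE : ∀ s ∈ Icc 0 T, Summable (fun k => nm (a s k) ^ 2) ∧ ∑' k, nm (a s k) ^ 2 ≤ E :=
    fun s hs => ⟨(hE0 s hs).1, (hE0 s hs).2.trans (le_max_left _ _)⟩
  set D := ∑' k, dd a T k with hD
  have hC0 : 0 ≤ C := by linarith
  set W : ℝ := ∫ s in Icc 0 T, (1 + ∑' k, nm (c s k) ^ 2) with hW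
  have hW0 : 0 ≤ W := integral_nonneg fun s => add_nonneg zero_le_one
    (tsum_nonneg fun k => sq_nonneg _)
  set BF : ℝ := 6 * (C7 * ((2 * E + 2) * √(2 * E + 2))) with hBF
  have hBF0 : 0 ≤ BF := by positivity
  refine ⟨(200 * C * √E + 40 * E * C8) * √D + 4 * C7 * (E * √E) + BF * W, ?_, ?_⟩
  · positivity
  intro M hM t ht S
  have hT : 0 ≤ T := ht.1.trans ht.2
  have hsub : Icc 0 t ⊆ Icc 0 T := Icc_subset_Icc le_rfl ht.2
  have h0T : (0 : ℝ) ∈ Icc 0 T := ⟨le_rfl, hT⟩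
  -- the finite symmetric set
  set F0 : Finset K := S.image (fun z => z.1) ∪ S.image (fun z => z.2) ∪
    S.image (fun z => z.1 - z.2) with hF0
  set F : Finset K := F0 ∪ F0.image (fun k => -k) with hF
  have hneg : ∀ k, k ∈ F → -k ∈ F := by
    intro k hk
    rw [hF, Finset.mem_union] at hk ⊢
    rcases hk with hk | hk
    · exact Or.inr (Finset.mem_image_of_mem _ hk)
    · obtain ⟨l, hl, rfl⟩ := Finset.mem_image.1 hk
      rw [neg_neg]
      exact Or.inl hl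
  have hneg' : ∀ k, -k ∈ F ↔ k ∈ F := fun k => ⟨fun h => by simpa using hneg _ h, hneg k⟩
  have hF1 : ∀ z ∈ S, z.1 ∈ F := fun z hz => Finset.mem_union_left _
    (Finset.mem_union_left _ (Finset.mem_union_left _ (Finset.mem_image_of_mem _ hz)))
  have hF2 : ∀ z ∈ S, z.2 ∈ F := fun z hz => Finset.mem_union_left _
    (Finset.mem_union_left _ (Finset.mem_union_right _ (Finset.mem_image_of_mem _ hz)))
  have hF3 : ∀ z ∈ S, z.1 - z.2 ∈ F := fun z hz => Finset.mem_union_left _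
    (Finset.mem_union_right _ (Finset.mem_image_of_mem (fun z : K × K => z.1 - z.2) hz))
  set Fh : Finset K := F.filter (fun k => M / 2 ≤ kn k) with hFh
  have hx0 : ∀ s k, 0 ≤ xs F (a s) k := fun s k => xs_nonneg _ _ _
  have hxn : ∀ s ∈ Icc 0 T, ∀ k, xs F (a s) (-k) = xs F (a s) k := by
    intro s hs k
    unfold xs
    simp only [hneg' k, nm_neg ha hs k]
  have hxE : ∀ s ∈ Icc 0 T, ∀ F' : Finset K, ∑ k ∈ F', xs F (a s) k ^ 2 ≤ E := fun s hs F' =>
    sum_E (hE s hs).1 (hE s hs).2 F F'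
  have hxG : ∀ s, ∀ F' : Finset K, ∑ k ∈ F', kn k ^ 2 * xs F (a s) k ^ 2 ≤ Gs F (a s) :=
    fun s F' => sum_G' F (a s) F'
  have hxg : ∀ s, ∀ F' : Finset K, (∀ k ∈ F', M / 2 ≤ kn k) →
      ∑ k ∈ F', kn k ^ 2 * xs F (a s) k ^ 2 ≤ Gs Fh (a s) :=
    fun s F' h => sum_G F _ (a s) F' h
  have hGG := int_GG ha F M ht
  set I := ∫ s in (0 : ℝ)..t, √(Gs F (a s)) * √(Gs Fh (a s)) with hI
  have hPc : ContinuousOn (fun s => √(Gs F (a s)) * √(Gs Fh (a s))) (Icc 0 t) :=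
    ((Gs_cont ha F).mono hsub).sqrt.mul ((Gs_cont ha Fh).mono hsub).sqrt
  -- the partition
  set f : K × K → ℂ := fun z => ((wt M z.1 - wt M (z.1 - z.2) : ℝ) : ℂ) *
    ∫ s in (0 : ℝ)..t, X (a s) z with hf
  set S1 := S.filter (fun z => M < mx z ∧ 0 < mn z) with hS1
  set SN := S1.filter (fun z => |om g z| ≤ mx z ^ 3) with hSN
  set SR := S1.filter (fun z => ¬ (|om g z| ≤ mx z ^ 3)) with hSR
  have hmS : ∀ z ∈ S1, z ∈ S := fun z hz => (Finset.mem_filter.1 hz).1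
  have hmN : ∀ z ∈ SN, z ∈ S1 ∧ |om g z| ≤ mx z ^ 3 := fun z hz => Finset.mem_filter.1 hz
  have hmR : ∀ z ∈ SR, z ∈ S1 ∧ ¬ (|om g z| ≤ mx z ^ 3) := fun z hz => Finset.mem_filter.1 hz
  have hm1 : ∀ z ∈ S1, M < mx z ∧ 0 < mn z := fun z hz => (Finset.mem_filter.1 hz).2
  have hsplit : ∑ z ∈ S, f z = ∑ z ∈ SN, f z + ∑ z ∈ SR, f z := by
    rw [hSN, hSR, Finset.sum_filter_add_sum_filter_not]
    rw [← Finset.sum_filter_add_sum_filter_not S (fun z => M < mx z ∧ 0 < mn z)]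
    have : ∑ z ∈ S.filter (fun z => ¬ (M < mx z ∧ 0 < mn z)), f z = 0 :=
      Finset.sum_eq_zero fun z hz => zero_of h5 ha hM ht (Finset.mem_filter.1 hz).2
    rw [this, add_zero]
  -- near resonant triads
  have hN : ∑ z ∈ SN, ‖f z‖ ≤ 200 * C * √E * I := by
    have a1 : ∑ z ∈ SN, ‖f z‖ ≤ ∑ z ∈ SN, ∫ s in (0 : ℝ)..t, 2 * (mn z * tp F (a s) z) :=
      Finset.sum_le_sum fun z hz => by
        have hz' := hmS z (hmN z hz).1
        exact near h5 ha hM ht (hF1 z hz') (hF2 z hz') (hF3 z hz')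
    have hc : ∀ z ∈ SN, IntervalIntegrable (fun s => 2 * (mn z * tp F (a s) z)) volume 0 t :=
      fun z _ => (continuousOn_const.mul (continuousOn_const.mul ((tp_cont ha F z).mono
        hsub))).intervalIntegrable_of_Icc ht.1
    rw [← intervalIntegral.integral_finsetSum hc] at a1
    refine a1.trans ?_
    rw [hI, ← intervalIntegral.integral_const_mul]
    refine intervalIntegral.integral_mono_on ht.1 ?_ ?_ ?_
    · exact (continuousOn_finsetSum _ fun z _ => (continuousOn_const.mul (continuousOn_const.mul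
        ((tp_cont ha F z).mono hsub)))).intervalIntegrable_of_Icc ht.1
    · exact (continuousOn_const.mul hPc).intervalIntegrable_of_Icc ht.1
    · intro s hs
      have b1 := h6 g C hg hC hfew (xs F (a s)) M E (Gs F (a s)) (Gs Fh (a s)) hM (hx0 s)
        (hxn s (hsub hs)) (hxE s (hsub hs)) (hxG s) (hxg s) SN (fun z hz =>
          ⟨(hm1 z (hmN z hz).1).1.le, (hm1 z (hmN z hz).1).2, (hmN z hz).2⟩)
      have b2 : ∑ z ∈ SN, 2 * (mn z * tp F (a s) z) =
          2 * ∑ z ∈ SN, mn z * (xs F (a s) z.1 * xs F (a s) z.2 * xs F (a s) (z.1 - z.2)) := by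
        rw [Finset.mul_sum]
        rfl
      rw [b2]
      linarith
  -- the other triads
  have hR : ∑ z ∈ SR, ‖f z‖ ≤ 4 * (C7 * (E * √E) * M ^ (-(1 / 4) : ℝ)) + 40 * E * C8 * I
      + BF * W * M ^ (-(1 / 4) : ℝ) := by
    have a1 : ∑ z ∈ SR, ‖f z‖ ≤ ∑ z ∈ SR, (2 * (mn z / mx z ^ 3 * tp F (a t) z)
        + 2 * (mn z / mx z ^ 3 * tp F (a 0) z)
        + (∫ s in (0 : ℝ)..t, 40 * E * (mn z / mx z ^ 3 * qp F (a s) z))
        + ∫ s in (0 : ℝ)..t, |wt M z.1 - wt M (z.1 - z.2)| / mx z ^ 3 *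
            ‖Qf (c s) (a s) z‖) :=
      Finset.sum_le_sum fun z hz => by
        have hz' := hmS z (hmR z hz).1
        exact far h3 h4 h5 ha hE hM ht (hF1 z hz') (hF2 z hz') (hF3 z hz')
          (hm1 z (hmR z hz).1).1 (not_le.1 (hmR z hz).2)
    have hSR' : ∀ z ∈ SR, M ≤ mx z ∧ 0 < mn z := fun z hz =>
      ⟨(hm1 z (hmR z hz).1).1.le, (hm1 z (hmR z hz).1).2⟩
    have c1 : ∀ s ∈ Icc 0 T, ∑ z ∈ SR, 2 * (mn z / mx z ^ 3 * tp F (a s) z) ≤
        2 * (C7 * (E * √E) * M ^ (-(1 / 4) : ℝ)) := by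
      intro s hs
      have b1 := h7 (xs F (a s)) M E hM (hx0 s) (hxE s hs) SR hSR'
      rw [← Finset.mul_sum]
      refine mul_le_mul_of_nonneg_left b1 (by norm_num)
    have hc : ∀ z ∈ SR, IntervalIntegrable
        (fun s => 40 * E * (mn z / mx z ^ 3 * qp F (a s) z)) volume 0 t :=
      fun z _ => (continuousOn_const.mul (continuousOn_const.mul ((qp_cont ha F z).mono
        hsub))).intervalIntegrable_of_Icc ht.1
    have c2 : ∑ z ∈ SR, ∫ s in (0 : ℝ)..t, 40 * E * (mn z / mx z ^ 3 * qp F (a s) z) ≤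
        40 * E * C8 * I := by
      rw [← intervalIntegral.integral_finsetSum hc, hI, ← intervalIntegral.integral_const_mul]
      refine intervalIntegral.integral_mono_on ht.1 ?_ ?_ ?_
      · exact (continuousOn_finsetSum _ fun z _ => (continuousOn_const.mul (continuousOn_const.mul
          ((qp_cont ha F z).mono hsub)))).intervalIntegrable_of_Icc ht.1
      · exact (continuousOn_const.mul hPc).intervalIntegrable_of_Icc ht.1
      · intro s hs
        have b1 := h8 (xs F (a s)) M (Gs F (a s)) (Gs Fh (a s)) hM (hx0 s) (hxG s) (hxg s) SR hSR'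
        have b2 : ∑ z ∈ SR, 40 * E * (mn z / mx z ^ 3 * qp F (a s) z) =
            40 * E * ∑ z ∈ SR, mn z / mx z ^ 3 * (kn z.2 * (xs F (a s) (z.1 - z.2) *
              xs F (a s) z.1) + kn (z.1 - z.2) * (xs F (a s) z.2 * xs F (a s) z.1)
              + kn z.1 * (xs F (a s) z.2 * xs F (a s) (z.1 - z.2))) := by
          rw [Finset.mul_sum]
          rfl
        rw [b2, mul_assoc (40 * E)]
        exact mul_le_mul_of_nonneg_left b1 (by positivity)
    have hSRm : ∀ z ∈ SR, 0 < mx z := fun z hz => by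
      have := (hSR' z hz).1
      linarith
    have c3 : ∑ z ∈ SR, ∫ s in (0 : ℝ)..t, |wt M z.1 - wt M (z.1 - z.2)| / mx z ^ 3 *
            ‖Qf (c s) (a s) z‖ ≤ BF * W * M ^ (-(1 / 4) : ℝ) :=
      force h3 h5 ha hE hE' hC7 h7 hM ht hSR' hSRm
    rw [Finset.sum_add_distrib, Finset.sum_add_distrib, Finset.sum_add_distrib] at a1
    linarith [c1 t ht, c1 0 h0T, c2, c3]
  -- the end
  have hI1 : I ≤ √D * √(∑' k, tl M k * dd a T k) := hGG
  have hM4 : 0 ≤ M ^ (-(1 / 4) : ℝ) := Real.rpow_nonneg (by linarith) _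
  have e1 : ‖∑ z ∈ S, f z‖ ≤ ∑ z ∈ SN, ‖f z‖ + ∑ z ∈ SR, ‖f z‖ := by
    rw [hsplit]
    exact (norm_add_le _ _).trans (add_le_add (norm_sum_le _ _) (norm_sum_le _ _))
  set τ := √(∑' k, tl M k * dd a T k) with hτ
  have hτ0 : 0 ≤ τ := Real.sqrt_nonneg _
  have e2 : ∑ z ∈ SN, ‖f z‖ + ∑ z ∈ SR, ‖f z‖ ≤ (200 * C * √E + 40 * E * C8) * (√D * τ) +
      4 * C7 * (E * √E) * M ^ (-(1 / 4) : ℝ) + BF * W * M ^ (-(1 / 4) : ℝ) := by
    have : (200 * C * √E + 40 * E * C8) * I ≤ (200 * C * √E + 40 * E * C8) * (√D * τ) :=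
      mul_le_mul_of_nonneg_left hI1 (by positivity)
    linarith
  refine (e1.trans e2).trans ?_
  have p1 : 0 ≤ (200 * C * √E + 40 * E * C8) * √D * M ^ (-(1 / 4) : ℝ) := by positivity
  have p2 : 0 ≤ 4 * C7 * (E * √E) * τ := by positivity
  have p3 : 0 ≤ BF * W * τ := by positivity
  nlinarith [p1, p2, p3]

end S164G9a

/-- **G9a.** -/
theorem g9a (h3 : G3) (h4 : H4) (h5 : H5) (h6 : H6) (h7 : H7) (h8 : H8) : G9a :=
  S164G9a.main h3 h4 h5 h6 h7 h8

end Pool.Agent.H303.DEE.F
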