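import Pool.Agent.H303.DEE.Stm7
import Pool.Agent.H303.DEE.FH1

/-!
# DEJ-J1 (helper134): nonlinear terms in the energy of a difference
-/

set_option autoImplicit false

open MeasureTheory Set Filter Topology Complex

namespace Pool.Agent.H303.DEE.F

namespace FJ1

open FH1 (nm_nonneg le_nm dt_le wt_neg inv)

lemma summ_pair {P Q : K → C3} (hP : Summable fun k => nm (P k) ^ 2)
    (hQ : Summable fun k => nm (Q k) ^ 2) (k : K) :
    Summable fun p => nm (P p) * nm (Q (k - p)) := by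
  have h2 : Summable fun p => nm (Q (k - p)) ^ 2 := (Equiv.subLeft k).summable_iff.2 hQ
  refine Summable.of_nonneg_of_le (fun p => mul_nonneg (nm_nonneg _) (nm_nonneg _)) (fun p => ?_)
    (hP.add h2)
  have h3 := sq_nonneg (nm (P p) - nm (Q (k - p)))
  have h4 := sq_nonneg (nm (P p))
  have h5 := sq_nonneg (nm (Q (k - p)))
  nlinarith

lemma summ_one {P Q : K → C3} (hP : Summable fun k => nm (P k) ^ 2)
    (hQ : Summable fun k => nm (Q k) ^ 2) (k : K) (i : Fin 3) :
    Summable fun p => dt k (P p) * Q (k - p) i := by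
  refine Summable.of_norm_bounded ((summ_pair hP hQ k).mul_left (∑ j, |(k j : ℝ)|)) fun p => ?_
  rw [norm_mul, ← mul_assoc]
  exact mul_le_mul (dt_le k _) (le_nm _ i) (norm_nonneg _)
    (mul_nonneg (Finset.sum_nonneg fun _ _ => abs_nonneg _) (nm_nonneg _))

lemma X3_eq (P Q R : K → C3) (k p : K) :
    X3 P Q R (k, p) = ∑ i, dt k (P p) * Q (k - p) i * (starRingEnd ℂ) (R k i) := by
  unfold X3 Xt
  rw [Finset.mul_sum]
  exact Finset.sum_congr rfl fun i _ => (mul_assoc _ _ _).symm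

lemma hasSum_X3 {P Q : K → C3} (R : K → C3) (hP : Summable fun k => nm (P k) ^ 2)
    (hQ : Summable fun k => nm (Q k) ^ 2) (k : K) :
    HasSum (fun p => X3 P Q R (k, p))
      (∑ i, (∑' p, dt k (P p) * Q (k - p) i) * (starRingEnd ℂ) (R k i)) := by
  have h1 : HasSum (fun p => ∑ i, dt k (P p) * Q (k - p) i * (starRingEnd ℂ) (R k i))
      (∑ i, (∑' p, dt k (P p) * Q (k - p) i) * (starRingEnd ℂ) (R k i)) :=
    hasSum_sum fun i _ => (summ_one hP hQ k i).hasSum.mul_right _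
  have e : (fun p => X3 P Q R (k, p)) =
      fun p => ∑ i, dt k (P p) * Q (k - p) i * (starRingEnd ℂ) (R k i) :=
    funext fun p => X3_eq P Q R k p
  rw [e]
  exact h1

lemma Nl_eq {U : K → C3} (R : K → C3) (hU : Summable fun k => nm (U k) ^ 2) (k : K)
    (hdiv : dt k (R k) = 0) :
    ∑ i, Nl U k i * (starRingEnd ℂ) (R k i) = 2 * Real.pi * I * ∑' p, X3 U U R (k, p) := by
  have h0 : ∑ i, (k i : ℂ) * (starRingEnd ℂ) (R k i) = 0 := by
    have h1 : (starRingEnd ℂ) (dt k (R k)) = 0 := by rw [hdiv, map_zero]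
    unfold dt at h1
    rw [map_sum] at h1
    rw [← h1]
    refine Finset.sum_congr rfl fun i _ => ?_
    rw [map_mul, map_intCast]
  rw [(hasSum_X3 R hU hU k).tsum_eq]
  unfold Nl Pr
  have h2 : ∀ i, (Bn U k i - (k i : ℂ) * dt k (Bn U k) / (∑ j, (k j : ℂ) ^ 2)) *
      (starRingEnd ℂ) (R k i) = Bn U k i * (starRingEnd ℂ) (R k i) -
        dt k (Bn U k) / (∑ j, (k j : ℂ) ^ 2) * ((k i : ℂ) * (starRingEnd ℂ) (R k i)) := by
    intro i
    ring
  rw [Finset.sum_congr rfl fun i _ => h2 i, Finset.sum_sub_distrib, ← Finset.mul_sum, h0, mul_zero,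
    sub_zero, Finset.mul_sum]
  refine Finset.sum_congr rfl fun i _ => ?_
  unfold Bn
  ring

lemma X3_inv {U D : K → C3} (hreal : ∀ k i, D (-k) i = (starRingEnd ℂ) (D k i))
    (hdiv : ∀ k, dt k (U k) = 0) (z : K × K) : X3 U D D (inv z) = -X3 U D D z := by
  obtain ⟨k, p⟩ := z
  have e1 : p - k = -(k - p) := by abel
  have e2 : p - k - p = -k := by abel
  have h1 : dt (-(k - p)) (U p) = -dt k (U p) := by
    have h2 := hdiv p
    unfold dt at h2 ⊢
    rw [← Finset.sum_neg_distrib]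
    have h3 : ∑ j, ((-(k - p)) j : ℂ) * U p j = ∑ j, (-((k j : ℂ) * U p j) + (p j : ℂ) * U p j) := by
      refine Finset.sum_congr rfl fun j _ => ?_
      rw [Pi.neg_apply, Pi.sub_apply]
      push_cast
      ring
    rw [h3, Finset.sum_add_distrib, h2, add_zero]
  change Xt (p - k) (U p) (D (p - k - p)) (D (p - k)) = -Xt k (U p) (D (k - p)) (D k)
  unfold Xt
  rw [e2, e1, h1, neg_mul]
  congr 2
  refine Finset.sum_congr rfl fun i _ => ?_
  rw [hreal, hreal, Complex.conj_conj, mul_comm]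

lemma dt_sub (k : K) (u v : C3) : dt k (u - v) = dt k u - dt k v := by
  unfold dt
  rw [← Finset.sum_sub_distrib]
  refine Finset.sum_congr rfl fun j _ => ?_
  rw [Pi.sub_apply]
  ring

lemma nm_sub (u v : C3) : nm (u - v) ^ 2 ≤ 2 * nm u ^ 2 + 2 * nm v ^ 2 := by
  unfold nm
  rw [Real.sq_sqrt (Finset.sum_nonneg fun _ _ => sq_nonneg _),
    Real.sq_sqrt (Finset.sum_nonneg fun _ _ => sq_nonneg _),
    Real.sq_sqrt (Finset.sum_nonneg fun _ _ => sq_nonneg _), Finset.mul_sum, Finset.mul_sum,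
    ← Finset.sum_add_distrib]
  refine Finset.sum_le_sum fun i _ => ?_
  rw [Pi.sub_apply]
  have h1 := norm_sub_le (u i) (v i)
  have h2 := norm_nonneg (u i - v i)
  have h3 := norm_nonneg (u i)
  have h4 := norm_nonneg (v i)
  have h5 := sq_nonneg (‖u i‖ - ‖v i‖)
  nlinarith

/-- the weighted sum over all the triads -/
lemma hasSum_wt (w : K → ℝ) (S : Finset K) (hS : ∀ k ∉ S, w k = 0) (G : K × K → ℂ) (T : K → ℂ)
    (hT : ∀ k, HasSum (fun p => G (k, p)) (T k)) :
    HasSum (fun z : K × K => ((w z.1 : ℝ) : ℂ) * G z) (∑ k ∈ S, ((w k : ℝ) : ℂ) * T k) := by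
  classical
  have hk : ∀ k, HasSum (fun z : K × K => if z.1 = k then ((w k : ℝ) : ℂ) * G (k, z.2) else 0)
      (((w k : ℝ) : ℂ) * T k) := by
    intro k
    have hi : Function.Injective (fun p : K => ((k, p) : K × K)) := fun p q h => (Prod.mk.inj h).2
    refine (hi.hasSum_iff ?_).1 ?_
    · intro z hz
      refine if_neg fun h => hz ⟨z.2, ?_⟩
      exact Prod.ext h.symm rfl
    · have e : ((fun z : K × K => if z.1 = k then ((w k : ℝ) : ℂ) * G (k, z.2) else 0) ∘
          fun p : K => ((k, p) : K × K)) = fun p => ((w k : ℝ) : ℂ) * G (k, p) := by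
        funext p
        exact if_pos rfl
      rw [e]
      exact (hT k).mul_left _
  have h2 := hasSum_sum (s := S) fun k _ => hk k
  have e : (fun z : K × K => ((w z.1 : ℝ) : ℂ) * G z) =
      fun z : K × K => ∑ k ∈ S, if z.1 = k then ((w k : ℝ) : ℂ) * G (k, z.2) else 0 := by
    funext z
    rw [Finset.sum_ite_eq]
    split_ifs with h
    · rfl
    · rw [hS z.1 h]
      simp
  rw [e]
  exact h2

end FJ1

open FJ1 FH1 in
/-- the nonlinear terms in the energy of a difference -/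
theorem j1 : J1 := by
  intro M a b S _ hS hra hda hsa hrb hdb hsb
  have hrd : ∀ k i, (a - b) (-k) i = (starRingEnd ℂ) ((a - b) k i) := by
    intro k i
    simp only [Pi.sub_apply]
    rw [hra, hrb, map_sub]
  have hdd : ∀ k, dt k ((a - b) k) = 0 := by
    intro k
    rw [Pi.sub_apply, FJ1.dt_sub, hda, hdb, sub_zero]
  have hsd : Summable fun k => nm ((a - b) k) ^ 2 := by
    refine Summable.of_nonneg_of_le (fun k => sq_nonneg _) (fun k => ?_)
      ((hsa.mul_left 2).add (hsb.mul_left 2))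
    rw [Pi.sub_apply]
    exact FJ1.nm_sub _ _
  have hT1 : ∀ k, HasSum (fun p => X3 a (a - b) (a - b) (k, p))
      (∑' p, X3 a (a - b) (a - b) (k, p)) :=
    fun k => (hasSum_X3 (a - b) hsa hsd k).summable.hasSum
  have hT2 : ∀ k, HasSum (fun p => X3 (a - b) b (a - b) (k, p))
      (∑' p, X3 (a - b) b (a - b) (k, p)) :=
    fun k => (hasSum_X3 (a - b) hsd hsb k).summable.hasSum
  have ha := hasSum_wt (wt M) S hS (X3 a (a - b) (a - b)) _ hT1
  have hc := hasSum_wt (wt M) S hS (X3 (a - b) b (a - b)) _ hT2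
  -- the second weight, by the involution
  have hb : HasSum (fun z : K × K => ((wt M (z.1 - z.2) : ℝ) : ℂ) * X3 a (a - b) (a - b) z)
      (-(∑ k ∈ S, ((wt M k : ℝ) : ℂ) * ∑' p, X3 a (a - b) (a - b) (k, p))) := by
    have h2 := (FH1.inv.hasSum_iff.2 ha).neg
    have e : (fun z : K × K => ((wt M (z.1 - z.2) : ℝ) : ℂ) * X3 a (a - b) (a - b) z) =
        fun z : K × K => -(((fun z : K × K => ((wt M z.1 : ℝ) : ℂ) * X3 a (a - b) (a - b) z) ∘
          FH1.inv) z) := by
      funext z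
      change _ = -(((wt M (z.2 - z.1) : ℝ) : ℂ) * X3 a (a - b) (a - b) (FH1.inv z))
      rw [X3_inv hrd hda z, ← FH1.wt_neg M (z.2 - z.1), neg_sub]
      ring
    rw [e]
    exact h2
  have hab : HasSum (fun z : K × K =>
        ((wt M z.1 - wt M (z.1 - z.2) : ℝ) : ℂ) * X3 a (a - b) (a - b) z)
      ((∑ k ∈ S, ((wt M k : ℝ) : ℂ) * ∑' p, X3 a (a - b) (a - b) (k, p)) -
        -(∑ k ∈ S, ((wt M k : ℝ) : ℂ) * ∑' p, X3 a (a - b) (a - b) (k, p))) := by
    have h2 := ha.sub hb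
    have e : (fun z : K × K => ((wt M z.1 - wt M (z.1 - z.2) : ℝ) : ℂ) * X3 a (a - b) (a - b) z) =
        fun z : K × K => ((wt M z.1 : ℝ) : ℂ) * X3 a (a - b) (a - b) z -
          ((wt M (z.1 - z.2) : ℝ) : ℂ) * X3 a (a - b) (a - b) z := by
      funext z
      push_cast
      ring
    rw [e]
    exact h2
  refine ⟨hab.summable, hc.summable, ?_⟩
  rw [hab.tsum_eq, hc.tsum_eq]
  -- the nonlinear terms
  have hN : ∀ k, ∑ i, (Nl a k i - Nl b k i) * (starRingEnd ℂ) (a k i - b k i) =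
      2 * Real.pi * I * ((∑' p, X3 a (a - b) (a - b) (k, p)) +
        ∑' p, X3 (a - b) b (a - b) (k, p)) := by
    intro k
    have h1 := FJ1.Nl_eq (a - b) hsa k (hdd k)
    have h2 := FJ1.Nl_eq (a - b) hsb k (hdd k)
    have h3 : ∑ i, (Nl a k i - Nl b k i) * (starRingEnd ℂ) (a k i - b k i) =
        ∑ i, Nl a k i * (starRingEnd ℂ) ((a - b) k i) -
          ∑ i, Nl b k i * (starRingEnd ℂ) ((a - b) k i) := by
      rw [← Finset.sum_sub_distrib]
      refine Finset.sum_congr rfl fun i _ => ?_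
      simp only [Pi.sub_apply]
      ring
    have sa := (hasSum_X3 (a - b) hsa hsa k).summable
    have sb := (hasSum_X3 (a - b) hsb hsb k).summable
    have h4 : (∑' p, X3 a a (a - b) (k, p)) - (∑' p, X3 b b (a - b) (k, p)) =
        (∑' p, X3 a (a - b) (a - b) (k, p)) + ∑' p, X3 (a - b) b (a - b) (k, p) := by
      rw [← sa.tsum_sub sb, ← (hT1 k).summable.tsum_add (hT2 k).summable]
      refine tsum_congr fun p => ?_
      rw [X3_eq, X3_eq, X3_eq, X3_eq, ← Finset.sum_sub_distrib, ← Finset.sum_add_distrib]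
      refine Finset.sum_congr rfl fun i _ => ?_
      rw [Pi.sub_apply a b p, FJ1.dt_sub, Pi.sub_apply a b (k - p), Pi.sub_apply (a (k - p))]
      ring
    rw [h3, h1, h2, ← mul_sub, h4]
  have h3 : ∀ k ∈ S, wt M k *
      (∑ i, (Nl a k i - Nl b k i) * (starRingEnd ℂ) (a k i - b k i)).re =
      (((wt M k : ℝ) : ℂ) * (2 * Real.pi * I * ((∑' p, X3 a (a - b) (a - b) (k, p)) +
        ∑' p, X3 (a - b) b (a - b) (k, p)))).re := by
    intro k _
    rw [Complex.re_ofReal_mul, hN k]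
  rw [Finset.sum_congr rfl h3, ← Complex.re_sum, ← Complex.add_re]
  congr 1
  have h4 : ∀ k ∈ S, ((wt M k : ℝ) : ℂ) * (2 * Real.pi * I * ((∑' p, X3 a (a - b) (a - b) (k, p)) +
        ∑' p, X3 (a - b) b (a - b) (k, p))) =
      2 * Real.pi * I * (((wt M k : ℝ) : ℂ) * ∑' p, X3 a (a - b) (a - b) (k, p)) +
      2 * Real.pi * I * (((wt M k : ℝ) : ℂ) * ∑' p, X3 (a - b) b (a - b) (k, p)) := by
    intro k _
    ring
  rw [Finset.sum_congr rfl h4, Finset.sum_add_distrib, ← Finset.mul_sum, ← Finset.mul_sum]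
  ring

end Pool.Agent.H303.DEE.F
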