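import Pool.Agent.H303.DEE.Stm7
import Pool.Agent.H303.DEE.FH9
import Pool.Agent.H303.DEE.FH10

/-!
Project DEE-F: the inequality for the difference of two solutions (`J10`).
-/

set_option autoImplicit false

open MeasureTheory Set Filter Topology Complex
open scoped ContDiff ENNReal

namespace Pool.Agent.H303.DEE.F

namespace J10aux

theorem X3_le (P Q R : K → C3) (z : K × K) :
    ‖X3 P Q R z‖ ≤ kn z.1 * (nm (P z.2) * nm (Q (z.1 - z.2)) * nm (R z.1)) := by
  unfold X3 Xt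
  rw [norm_mul]
  have h1 := FH9.dt_le z.1 (P z.2)
  have h3 := FH9.inner_le (Q (z.1 - z.2)) (R z.1)
  have n1 := FH9.nm_nonneg (P z.2)
  have n2 := FH9.nm_nonneg (Q (z.1 - z.2))
  have n3 := FH9.nm_nonneg (R z.1)
  have k1 := FH9.kn_nonneg z.1
  calc _ ≤ (kn z.1 * nm (P z.2)) * (nm (Q (z.1 - z.2)) * nm (R z.1)) :=
        mul_le_mul h1 h3 (norm_nonneg _) (by positivity)
    _ = _ := by ring

theorem sum_le {M E : ℝ} (hM : 1 ≤ M) {P Q : K → C3}
    (hE : ∀ F : Finset K, ∑ k ∈ F, (nm (P k) + nm (Q k)) ^ 2 ≤ E)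
    (S : Finset (K × K)) :
    ∑ z ∈ S, ‖((wt M z.1 : ℝ) : ℂ) * X3 P Q P z‖ ≤
      2 * M * ((FH9.box (2 * M)).card * (√E * E)) := by
  have hM0 : 0 < M := by linarith
  have h1 := FH9.triad_sum (x := fun k => nm (P k) + nm (Q k))
    (fun k => add_nonneg (FH9.nm_nonneg _) (FH9.nm_nonneg _)) hE (FH9.box (2 * M)) S
    (fun z => z.1) (fun z => z.2) (fun z => z.1 - z.2) (fun z _ z' _ h h' => Prod.ext h h')
    (fun z _ z' _ h h' => Prod.ext h (by
      have h' : z.1 - z.2 = z'.1 - z'.2 := h'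
      have h : z.1 = z'.1 := h
      rw [h] at h'
      exact sub_right_injective h'))
  calc ∑ z ∈ S, ‖((wt M z.1 : ℝ) : ℂ) * X3 P Q P z‖
      ≤ ∑ z ∈ S, (2 * M * (if z.1 ∈ FH9.box (2 * M) then
          (nm (P z.1) + nm (Q z.1)) * (nm (P z.2) + nm (Q z.2))
            * (nm (P (z.1 - z.2)) + nm (Q (z.1 - z.2))) else 0)) := by
        refine Finset.sum_le_sum fun z _ => ?_
        have x1 := X3_le P Q P z
        have n1 := FH9.nm_nonneg (P z.1)
        have n2 := FH9.nm_nonneg (P z.2)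
        have n3 := FH9.nm_nonneg (P (z.1 - z.2))
        have m1 := FH9.nm_nonneg (Q z.1)
        have m2 := FH9.nm_nonneg (Q z.2)
        have m3 := FH9.nm_nonneg (Q (z.1 - z.2))
        have e0 : nm (P z.2) * nm (Q (z.1 - z.2)) * nm (P z.1) ≤
            (nm (P z.1) + nm (Q z.1)) * (nm (P z.2) + nm (Q z.2))
              * (nm (P (z.1 - z.2)) + nm (Q (z.1 - z.2))) := by
          calc nm (P z.2) * nm (Q (z.1 - z.2)) * nm (P z.1)
              = nm (P z.1) * nm (P z.2) * nm (Q (z.1 - z.2)) := by ring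
            _ ≤ _ := mul_le_mul (mul_le_mul (by linarith) (by linarith) n2 (by positivity))
                (by linarith) m3 (by positivity)
        have e1 := FH9.wt_mul M hM0 z.1 ((nm (P z.1) + nm (Q z.1)) * (nm (P z.2) + nm (Q z.2))
              * (nm (P (z.1 - z.2)) + nm (Q (z.1 - z.2)))) (by positivity)
        have w0 := FH9.wt_nonneg M z.1
        have k0 := FH9.kn_nonneg z.1
        rw [norm_mul, Complex.norm_real, Real.norm_eq_abs, abs_of_nonneg w0]
        calc wt M z.1 * ‖X3 P Q P z‖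
            ≤ wt M z.1 * (kn z.1 * (nm (P z.2) * nm (Q (z.1 - z.2)) * nm (P z.1))) :=
              mul_le_mul_of_nonneg_left x1 w0
          _ ≤ wt M z.1 * (kn z.1 * ((nm (P z.1) + nm (Q z.1)) * (nm (P z.2) + nm (Q z.2))
              * (nm (P (z.1 - z.2)) + nm (Q (z.1 - z.2))))) :=
              mul_le_mul_of_nonneg_left (mul_le_mul_of_nonneg_left e0 k0) w0
          _ ≤ _ := e1
    _ ≤ _ := by
        rw [← Finset.mul_sum]
        exact mul_le_mul_of_nonneg_left h1 (by positivity)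

theorem X3_cont {g : K → ℝ} {ν T : ℝ} {a b : ℝ → K → C3} (A : FSol g ν T a)
    (B : FSol g ν T b) (z : K × K) :
    ContinuousOn (fun s => X3 (a s - b s) (b s) (a s - b s) z) (Icc 0 T) := by
  unfold X3 Xt dt
  refine ContinuousOn.mul ?_ ?_
  · exact continuousOn_finsetSum _ fun j _ =>
      continuousOn_const.mul ((A.cont _ _).sub (B.cont _ _))
  · exact continuousOn_finsetSum _ fun i _ => (B.cont _ _).mul
      (Complex.continuous_conj.comp_continuousOn ((A.cont _ _).sub (B.cont _ _)))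

/-- the second term -/
noncomputable def Ps (M : ℝ) (a b : ℝ → K → C3) (s : ℝ) : ℝ :=
  (2 * Real.pi * I * ∑' z : K × K, ((wt M z.1 : ℝ) : ℂ) * X3 (a s - b s) (b s) (a s - b s) z).re

/-- the time integral of the second term -/
theorem int_le {g : K → ℝ} {ν T : ℝ} {a b : ℝ → K → C3} (A : FSol g ν T a)
    (Bb : FSol g ν T b) {E : ℝ}
    (hE : ∀ s ∈ Icc 0 T, ∀ F : Finset K, ∑ k ∈ F, (nm ((a s - b s) k) + nm (b s k)) ^ 2 ≤ E)
    {M : ℝ} (hM : 1 ≤ M) {t : ℝ} (ht : t ∈ Icc 0 T) {B : ℝ}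
    (hB : ∀ S : Finset (K × K), ‖∑ z ∈ S, ((wt M z.1 : ℝ) : ℂ)
        * ∫ s in (0 : ℝ)..t, X3 (a s - b s) (b s) (a s - b s) z‖ ≤ B) :
    IntegrableOn (Ps M a b) (Ioc 0 t) ∧
    |∫ s in (0 : ℝ)..t, Ps M a b s| ≤ 2 * Real.pi * B := by
  have hpi := Real.pi_pos
  have hsub : Ioc 0 t ⊆ Icc 0 T := fun s hs => ⟨hs.1.le, hs.2.trans ht.2⟩
  obtain ⟨C, hC⟩ : ∃ C, C = 2 * M * ((FH9.box (2 * M)).card * (√E * E)) := ⟨_, rfl⟩
  have hfs : ∀ s ∈ Icc 0 T, ∀ S : Finset (K × K),
      ∑ z ∈ S, ‖((wt M z.1 : ℝ) : ℂ) * X3 (a s - b s) (b s) (a s - b s) z‖ ≤ C :=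
    fun s hs S => by
      rw [hC]
      exact sum_le hM (hE s hs) S
  -- the real terms
  obtain ⟨G, hG⟩ : ∃ G : K × K → ℝ → ℝ, G = fun z s =>
      (2 * Real.pi * I * (((wt M z.1 : ℝ) : ℂ) * X3 (a s - b s) (b s) (a s - b s) z)).re :=
    ⟨_, rfl⟩
  have hn : ‖(2 * Real.pi * I : ℂ)‖ = 2 * Real.pi := by
    rw [norm_mul, norm_mul, Complex.norm_I, mul_one, Complex.norm_real, Real.norm_eq_abs,
      abs_of_pos hpi, Complex.norm_ofNat]
  have hGle : ∀ z s, |G z s| ≤ 2 * Real.pi *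
      ‖((wt M z.1 : ℝ) : ℂ) * X3 (a s - b s) (b s) (a s - b s) z‖ := fun z s => by
    rw [hG]
    refine (Complex.abs_re_le_norm _).trans (le_of_eq ?_)
    rw [norm_mul, hn]
  have hsm : ∀ s ∈ Icc 0 T, HasSum (fun z => G z s) (Ps M a b s) := by
    intro s hs
    have h1 : Summable fun z : K × K =>
        ((wt M z.1 : ℝ) : ℂ) * X3 (a s - b s) (b s) (a s - b s) z :=
      Summable.of_norm (summable_of_sum_le (fun z => norm_nonneg _) (hfs s hs))
    have h2 := Complex.reCLM.hasSum (h1.hasSum.mul_left (2 * Real.pi * I : ℂ))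
    rw [hG]
    exact h2
  have hGc : ∀ z, ContinuousOn (G z) (Icc 0 T) := fun z => by
    rw [hG]
    exact Complex.continuous_re.comp_continuousOn
      (continuousOn_const.mul (continuousOn_const.mul (X3_cont A Bb z)))
  have hGi : ∀ z, IntegrableOn (G z) (Ioc 0 t) := fun z =>
    ((hGc z).integrableOn_compact isCompact_Icc).mono_set hsub
  have hGb : ∀ s ∈ Icc 0 T, ∀ S : Finset (K × K), ∑ z ∈ S, ‖G z s‖ ≤ 2 * Real.pi * C := by
    intro s hs S
    calc ∑ z ∈ S, ‖G z s‖ ≤ ∑ z ∈ S, 2 * Real.pi *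
          ‖((wt M z.1 : ℝ) : ℂ) * X3 (a s - b s) (b s) (a s - b s) z‖ :=
          Finset.sum_le_sum fun z _ => hGle z s
      _ ≤ 2 * Real.pi * C := by
          rw [← Finset.mul_sum]
          exact mul_le_mul_of_nonneg_left (hfs s hs S) (by positivity)
  have hsum : Summable fun z => ∫ s in Ioc 0 t, ‖G z s‖ := by
    refine summable_of_sum_le (c := 2 * Real.pi * C * t)
      (fun z => integral_nonneg fun s => norm_nonneg _) fun S => ?_
    rw [← integral_finsetSum S fun z _ => (hGi z).norm]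
    have hci : IntegrableOn (fun _ : ℝ => 2 * Real.pi * C) (Ioc 0 t) :=
      (continuousOn_const.integrableOn_compact isCompact_Icc).mono_set Ioc_subset_Icc_self
    have h1 : ∫ s in Ioc 0 t, ∑ z ∈ S, ‖G z s‖ ≤ ∫ s in Ioc 0 t, 2 * Real.pi * C :=
      setIntegral_mono_on (integrable_finsetSum _ fun z _ => (hGi z).norm)
        hci measurableSet_Ioc fun s hs => hGb s (hsub hs) S
    refine h1.trans (le_of_eq ?_)
    rw [setIntegral_const, Real.volume_real_Ioc, sub_zero, max_eq_left ht.1, smul_eq_mul]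
    ring
  have hint : IntegrableOn (Ps M a b) (Ioc 0 t) := by
    have hmeas : AEStronglyMeasurable (Ps M a b) (volume.restrict (Ioc 0 t)) := by
      refine aestronglyMeasurable_of_tendsto_ae (atTop : Filter (Finset (K × K)))
        (f := fun S s => ∑ z ∈ S, G z s) (fun S => ?_) ?_
      · exact (integrable_finsetSum S fun z _ => hGi z).aestronglyMeasurable
      · refine (ae_restrict_iff' measurableSet_Ioc).2 (Eventually.of_forall fun s hs => ?_)
        exact hsm s (hsub hs)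
    refine Integrable.of_bound hmeas (2 * Real.pi * C) ?_
    refine (ae_restrict_iff' measurableSet_Ioc).2 (Eventually.of_forall fun s hs => ?_)
    refine le_of_tendsto (hsm s (hsub hs)).norm (Eventually.of_forall fun S => ?_)
    exact (norm_sum_le _ _).trans (hGb s (hsub hs) S)
  refine ⟨hint, ?_⟩
  have hhs := hasSum_integral_of_summable_integral_norm (μ := volume.restrict (Ioc 0 t)) hGi hsum
  have hGint : ∀ z, ∫ s in Ioc 0 t, G z s =
      (2 * Real.pi * I * (((wt M z.1 : ℝ) : ℂ)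
        * ∫ s in (0 : ℝ)..t, X3 (a s - b s) (b s) (a s - b s) z)).re := by
    intro z
    have hXi : IntegrableOn (fun s => X3 (a s - b s) (b s) (a s - b s) z) (Ioc 0 t) :=
      ((X3_cont A Bb z).integrableOn_compact isCompact_Icc).mono_set hsub
    rw [intervalIntegral.integral_of_le ht.1, hG, ← integral_const_mul, ← integral_const_mul]
    exact integral_re ((hXi.const_mul _).const_mul _)
  have hfl : ∫ s in (0 : ℝ)..t, Ps M a b s = ∫ s in Ioc 0 t, ∑' z, G z s := by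
    rw [intervalIntegral.integral_of_le ht.1]
    exact setIntegral_congr_fun measurableSet_Ioc fun s hs => (hsm s (hsub hs)).tsum_eq.symm
  rw [hfl]
  refine le_of_tendsto hhs.norm (Eventually.of_forall fun S => ?_)
  simp only [hGint]
  have e : ∑ z ∈ S, (2 * Real.pi * I * (((wt M z.1 : ℝ) : ℂ)
        * ∫ s in (0 : ℝ)..t, X3 (a s - b s) (b s) (a s - b s) z)).re =
      (2 * Real.pi * I * ∑ z ∈ S, ((wt M z.1 : ℝ) : ℂ)
        * ∫ s in (0 : ℝ)..t, X3 (a s - b s) (b s) (a s - b s) z).re := by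
    rw [Finset.mul_sum, Complex.re_sum]
  rw [e, Real.norm_eq_abs]
  refine (Complex.abs_re_le_norm _).trans ?_
  rw [norm_mul, hn]
  exact mul_le_mul_of_nonneg_left (hB S) (by positivity)

/-- the integrand of the energy balance is integrable -/
theorem int_N {g : K → ℝ} {ν T : ℝ} {a b : ℝ → K → C3} (A : FSol g ν T a)
    (Bb : FSol g ν T b) (w : K → ℝ) (S : Finset K) :
    IntegrableOn (fun s => ∑ k ∈ S, w k * (∑ i, (Nl (a s) k i - Nl (b s) k i)
      * (starRingEnd ℂ) (a s k i - b s k i)).re) (Icc 0 T) := by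
  refine integrable_finsetSum _ fun k _ => Integrable.const_mul ?_ _
  have h1 : IntegrableOn (fun s => ∑ i, (Nl (a s) k i - Nl (b s) k i)
      * (starRingEnd ℂ) (a s k i - b s k i)) (Icc 0 T) := by
    refine integrable_finsetSum _ fun i _ => ?_
    exact IntegrableOn.mul_continuousOn ((A.intN k i).sub (Bb.intN k i))
      (Complex.continuous_conj.comp_continuousOn ((A.cont k i).sub (Bb.cont k i))) isCompact_Icc
  exact h1.re

theorem dcont {g : K → ℝ} {ν T : ℝ} {a b : ℝ → K → C3} (A : FSol g ν T a)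
    (Bb : FSol g ν T b) (k : K) :
    ContinuousOn (fun s => kn k ^ 2 * nm (a s k - b s k) ^ 2) (Icc 0 T) := by
  simp_rw [H10aux.nm_sq]
  apply ContinuousOn.mul continuousOn_const
  apply continuousOn_finsetSum
  intro i _
  exact (((A.cont k i).sub (Bb.cont k i)).norm).pow 2

end J10aux

open J10aux

theorem j10 (h1 : J1) (h2 : J2) (h4 : J4) (h9 : J9) (h9m : J9m) : J10 := by
  intro g ν T C a b hν hg hC hF A Bb hab
  obtain ⟨B, hB0, hB⟩ := h9 g ν T C a b hν hg hC hF A Bb hab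
  refine ⟨4 * B, by positivity, fun t ht => ?_⟩
  have hT : (0 : ℝ) ≤ T := ht.1.trans ht.2
  have hpi := Real.pi_pos
  obtain ⟨-, -, -, ⟨D, hD⟩, -, hds0⟩ := h9m g ν T a b hT A Bb
  obtain ⟨Ea, hEa⟩ := A.bdd
  obtain ⟨Eb, hEb⟩ := Bb.bdd
  -- the right-hand side
  obtain ⟨R, hR⟩ : ∃ R, R = (1 / 4) * (∑' k, nm (a t k - b t k) ^ 2)
        + 2 * Real.pi ^ 2 * ν * (∑' k, ∫ s in (0 : ℝ)..t, kn k ^ 2 * nm (a s k - b s k) ^ 2)
        + B * ∫ s in (0 : ℝ)..t,
            (1 + ∑' k, kn k ^ 2 * nm (b s k) ^ 2) * ∑' k, nm (a s k - b s k) ^ 2 := ⟨_, rfl⟩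
  have hE : ∀ s ∈ Icc 0 T, ∀ F : Finset K,
      ∑ k ∈ F, (nm ((a s - b s) k) + nm (b s k)) ^ 2 ≤ 2 * D + 2 * Eb := by
    intro s hs F
    have e1 := ((hD s hs).1.sum_le_tsum F fun k _ => sq_nonneg _).trans (hD s hs).2
    have e2 := ((hEb s hs).1.sum_le_tsum F fun k _ => sq_nonneg _).trans (hEb s hs).2
    calc ∑ k ∈ F, (nm ((a s - b s) k) + nm (b s k)) ^ 2
        ≤ ∑ k ∈ F, (2 * nm (a s k - b s k) ^ 2 + 2 * nm (b s k) ^ 2) := by
          refine Finset.sum_le_sum fun k _ => ?_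
          show (nm (a s k - b s k) + nm (b s k)) ^ 2 ≤ _
          nlinarith [sq_nonneg (nm (a s k - b s k) - nm (b s k))]
      _ ≤ _ := by
          rw [Finset.sum_add_distrib, ← Finset.mul_sum, ← Finset.mul_sum]
          linarith
  have hM : ∀ m : ℕ, (1 : ℝ) ≤ (m : ℝ) + 1 := fun m => by
    have : (0 : ℝ) ≤ m := by positivity
    linarith
  have hsub : Ioc 0 t ⊆ Icc 0 T := fun s hs => ⟨hs.1.le, hs.2.trans ht.2⟩
  -- the energy balance with weights
  have hbal : ∀ m : ℕ,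
      (1 / 2) * (∑ k ∈ H10aux.box m, wt ((m : ℝ) + 1) k * nm (a t k - b t k) ^ 2)
        + 4 * Real.pi ^ 2 * ν * (∑ k ∈ H10aux.box m, wt ((m : ℝ) + 1) k *
          ∫ s in (0 : ℝ)..t, kn k ^ 2 * nm (a s k - b s k) ^ 2)
      ≤ -(∫ s in (0 : ℝ)..t, (Real.pi * I * ∑' z : K × K,
          ((wt ((m : ℝ) + 1) z.1 - wt ((m : ℝ) + 1) (z.1 - z.2) : ℝ) : ℂ)
            * X3 (a s) (a s - b s) (a s - b s) z).re) + R := by
    intro m
    rw [h2 g ν T a b A Bb hab (wt ((m : ℝ) + 1)) (H10aux.box m) t ht]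
    have i1 := (int_N A Bb (wt ((m : ℝ) + 1)) (H10aux.box m)).mono_set hsub
    obtain ⟨i2, i3⟩ := int_le A Bb hE (hM m) ht (B := R / (2 * Real.pi)) (fun S => by
      rw [le_div_iff₀ (by positivity), mul_comm, hR]
      exact hB (wt ((m : ℝ) + 1))
        (fun k => ⟨H10aux.wt_nonneg _ _, H10aux.wt_le_one _ _⟩) t ht S)
    rw [mul_div_cancel₀ _ (by positivity)] at i3
    have key : ∀ s ∈ Icc (0 : ℝ) T, ∑ k ∈ H10aux.box m,
        wt ((m : ℝ) + 1) k * (∑ i, (Nl (a s) k i - Nl (b s) k i)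
          * (starRingEnd ℂ) (a s k i - b s k i)).re = (Real.pi * I * ∑' z : K × K,
          ((wt ((m : ℝ) + 1) z.1 - wt ((m : ℝ) + 1) (z.1 - z.2) : ℝ) : ℂ)
            * X3 (a s) (a s - b s) (a s - b s) z).re + Ps ((m : ℝ) + 1) a b s := fun s hs =>
      (h1 ((m : ℝ) + 1) (a s) (b s) (H10aux.box m) (hM m) (H10aux.wt_box m) (A.real s hs)
        (A.div s hs) (hEa s hs).1 (Bb.real s hs) (Bb.div s hs) (hEb s hs).1).2.2
    have e1 : ∫ s in (0 : ℝ)..t, (Real.pi * I * ∑' z : K × K,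
          ((wt ((m : ℝ) + 1) z.1 - wt ((m : ℝ) + 1) (z.1 - z.2) : ℝ) : ℂ)
            * X3 (a s) (a s - b s) (a s - b s) z).re =
        (∫ s in (0 : ℝ)..t, ∑ k ∈ H10aux.box m,
          wt ((m : ℝ) + 1) k * (∑ i, (Nl (a s) k i - Nl (b s) k i)
            * (starRingEnd ℂ) (a s k i - b s k i)).re)
          - ∫ s in (0 : ℝ)..t, Ps ((m : ℝ) + 1) a b s := by
      rw [← intervalIntegral.integral_sub]
      · apply intervalIntegral.integral_congr
        intro s hs
        rw [uIcc_of_le ht.1] at hs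
        have hs' : s ∈ Icc (0 : ℝ) T := ⟨hs.1, hs.2.trans ht.2⟩
        have := key s hs'
        simp only
        rw [this]
        ring
      · exact (intervalIntegrable_iff_integrableOn_Ioc_of_le ht.1).2 i1
      · exact (intervalIntegrable_iff_integrableOn_Ioc_of_le ht.1).2 i2
    rw [e1]
    have := (abs_le.1 i3).1
    linarith
  -- the limits
  have hd0 : ∀ k, 0 ≤ ∫ s in (0 : ℝ)..t, kn k ^ 2 * nm (a s k - b s k) ^ 2 := fun k =>
    intervalIntegral.integral_nonneg ht.1 fun s _ => by positivity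
  have hds : Summable fun k => ∫ s in (0 : ℝ)..t, kn k ^ 2 * nm (a s k - b s k) ^ 2 := by
    refine Summable.of_nonneg_of_le hd0 (fun k => ?_) hds0
    apply intervalIntegral.integral_mono_interval le_rfl ht.1 ht.2
    · refine Eventually.of_forall fun s => ?_
      show (0 : ℝ) ≤ kn k ^ 2 * nm (a s k - b s k) ^ 2
      positivity
    · exact (dcont A Bb k).intervalIntegrable_of_Icc hT
  have l1 := H10aux.sum_tendsto (fun k => sq_nonneg (nm (a t k - b t k))) (hD t ht).1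
  have l2 := H10aux.sum_tendsto hd0 hds
  have l4 := h4 g ν T C a b hν hg hC hF A Bb t ht
  have L := (l1.const_mul (1 / 2)).add (l2.const_mul (4 * Real.pi ^ 2 * ν))
  have RR := l4.neg.add_const R
  have hle := le_of_tendsto_of_tendsto' L RR hbal
  rw [neg_zero, zero_add, hR] at hle
  have hG0 : 0 ≤ ∑' k, ∫ s in (0 : ℝ)..t, kn k ^ 2 * nm (a s k - b s k) ^ 2 := tsum_nonneg hd0
  have hG1 : 0 ≤ 2 * Real.pi ^ 2 * ν *
      ∑' k, ∫ s in (0 : ℝ)..t, kn k ^ 2 * nm (a s k - b s k) ^ 2 := by positivity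
  nlinarith [hle, hG1]

end Pool.Agent.H303.DEE.F
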