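import Pool.Agent.H303.DEE.Stm7

/-!
Gronwall's inequality for a bounded function with an integrable kernel.
-/

open MeasureTheory Set Filter Topology Complex
open scoped ContDiff ENNReal

namespace Pool.Agent.H303.DEE.F

namespace J11x

theorem ii {T : ℝ} {f : ℝ → ℝ} (h : IntegrableOn f (Icc 0 T)) {a b : ℝ} (ha : 0 ≤ a)
    (hab : a ≤ b) (hb : b ≤ T) : IntervalIntegrable f volume a b := by
  rw [intervalIntegrable_iff_integrableOn_Ioc_of_le hab]
  exact h.mono_set (fun x hx => ⟨ha.trans hx.1.le, hx.2.trans hb⟩)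

theorem step {T B D a δ : ℝ} {κ y : ℝ → ℝ} (hB : 0 ≤ B) (h1 : IntegrableOn κ (Icc 0 T))
    (h2 : IntegrableOn (fun s => κ s * y s) (Icc 0 T)) (hκ : ∀ s ∈ Icc 0 T, 0 ≤ κ s)
    (hy : ∀ s ∈ Icc 0 T, 0 ≤ y s ∧ y s ≤ D)
    (hG : ∀ t ∈ Icc 0 T, y t ≤ B * ∫ s in (0 : ℝ)..t, κ s * y s)
    (ha : 0 ≤ a) (h0 : ∀ s ∈ Icc 0 T, s ≤ a → y s = 0)
    (hd : ∀ t ∈ Icc 0 T, a ≤ t → t ≤ a + δ → B * (∫ s in a..t, κ s) ≤ 1 / 2) (m : ℕ) :
    ∀ t ∈ Icc 0 T, a ≤ t → t ≤ a + δ → y t ≤ D * (1 / 2) ^ m := by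
  induction m with
  | zero => intro t ht _ _; simpa using (hy t ht).2
  | succ m ih =>
    intro t ht hat htd
    have hsplit : ∫ s in (0 : ℝ)..t, κ s * y s
        = (∫ s in (0 : ℝ)..a, κ s * y s) + ∫ s in a..t, κ s * y s :=
      (intervalIntegral.integral_add_adjacent_intervals
        (ii h2 le_rfl ha (hat.trans ht.2)) (ii h2 ha hat ht.2)).symm
    have hz : ∫ s in (0 : ℝ)..a, κ s * y s = 0 := by
      rw [intervalIntegral.integral_congr (g := fun _ => (0 : ℝ))]
      · simp
      · intro s hs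
        rw [uIcc_of_le ha] at hs
        have h5 : y s = 0 := h0 s ⟨hs.1, hs.2.trans (hat.trans ht.2)⟩ hs.2
        simp [h5]
    have hle : ∫ s in a..t, κ s * y s ≤ ∫ s in a..t, κ s * (D * (1 / 2) ^ m) := by
      apply intervalIntegral.integral_mono_on hat (ii h2 ha hat ht.2)
        ((ii h1 ha hat ht.2).mul_const _)
      intro s hs
      have hs' : s ∈ Icc 0 T := ⟨ha.trans hs.1, hs.2.trans ht.2⟩
      exact mul_le_mul_of_nonneg_left (ih s hs' hs.1 (hs.2.trans htd)) (hκ s hs')
    rw [intervalIntegral.integral_mul_const] at hle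
    have hD : 0 ≤ D * (1 / 2) ^ m := ((hy t ht).1).trans (ih t ht hat htd)
    have h6 := hG t ht
    rw [hsplit, hz, zero_add] at h6
    have h3 := mul_le_mul_of_nonneg_left hle hB
    have h4 := mul_le_mul_of_nonneg_right (hd t ht hat htd) hD
    rw [pow_succ]
    calc y t ≤ B * ∫ s in a..t, κ s * y s := h6
      _ ≤ B * ((∫ s in a..t, κ s) * (D * (1 / 2) ^ m)) := h3
      _ = B * (∫ s in a..t, κ s) * (D * (1 / 2) ^ m) := by ring
      _ ≤ 1 / 2 * (D * (1 / 2) ^ m) := h4
      _ = D * ((1 / 2) ^ m * (1 / 2)) := by ring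

end J11x

theorem j11 : J11 := by
  intro T B D κ y hB h1 h2 hκ hy hG
  rcases lt_or_ge T 0 with hT | hT
  · intro t ht
    exact absurd (ht.1.trans ht.2) (not_le.2 hT)
  have hc : ContinuousOn (fun t => ∫ s in (0 : ℝ)..t, κ s) (Icc 0 T) := by
    have h := intervalIntegral.continuousOn_primitive_interval (μ := volume) (f := κ)
      (a := 0) (b := T) (by rwa [uIcc_of_le hT])
    rwa [uIcc_of_le hT] at h
  have hu := isCompact_Icc.uniformContinuousOn_of_continuous hc
  rw [Metric.uniformContinuousOn_iff] at hu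
  obtain ⟨δ, hδ, hu⟩ := hu (1 / (2 * (B + 1))) (by positivity)
  have hmain : ∀ n : ℕ, ∀ t ∈ Icc 0 T, t ≤ n * (δ / 2) → y t = 0 := by
    intro n
    induction n with
    | zero =>
      intro t ht htn
      have ht0 : t = 0 := le_antisymm (by simpa using htn) ht.1
      subst ht0
      have := hG 0 ht
      rw [intervalIntegral.integral_same, mul_zero] at this
      exact le_antisymm this (hy 0 ht).1
    | succ n ih =>
      intro t ht htn
      rcases le_or_gt t (n * (δ / 2)) with h | h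
      · exact ih t ht h
      · have ha : (0 : ℝ) ≤ n * (δ / 2) := by positivity
        have hd : ∀ t ∈ Icc 0 T, (n : ℝ) * (δ / 2) ≤ t → t ≤ n * (δ / 2) + δ / 2 →
            B * (∫ s in (n * (δ / 2) : ℝ)..t, κ s) ≤ 1 / 2 := by
          intro t ht h3 h4
          have h5 := hu t ht (n * (δ / 2)) ⟨ha, h3.trans ht.2⟩ (by
            rw [Real.dist_eq, abs_of_nonneg (by linarith)]
            linarith)
          rw [Real.dist_eq] at h5
          have h6 : (∫ s in (0 : ℝ)..t, κ s) = (∫ s in (0 : ℝ)..(n * (δ / 2)), κ s)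
              + ∫ s in (n * (δ / 2) : ℝ)..t, κ s :=
            (intervalIntegral.integral_add_adjacent_intervals
              (J11x.ii h1 le_rfl ha (h3.trans ht.2)) (J11x.ii h1 ha h3 ht.2)).symm
          have h7 : (∫ s in (n * (δ / 2) : ℝ)..t, κ s) ≤ 1 / (2 * (B + 1)) := by
            have h8 := (le_abs_self _).trans h5.le
            linarith
          calc B * (∫ s in (n * (δ / 2) : ℝ)..t, κ s) ≤ B * (1 / (2 * (B + 1))) :=
                mul_le_mul_of_nonneg_left h7 hB
            _ ≤ 1 / 2 := by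
                rw [mul_one_div, div_le_div_iff₀ (by positivity) (by norm_num)]
                linarith
        have hs := fun m => J11x.step (δ := δ / 2) hB h1 h2 hκ hy hG ha ih hd m t ht h.le
          (by push_cast at htn; linarith)
        have hl : Tendsto (fun m : ℕ => D * (1 / 2 : ℝ) ^ m) atTop (𝓝 (D * 0)) :=
          (tendsto_pow_atTop_nhds_zero_of_lt_one (by norm_num) (by norm_num)).const_mul D
        rw [mul_zero] at hl
        exact le_antisymm (ge_of_tendsto' hl hs) (hy t ht).1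
  intro t ht
  obtain ⟨n, hn⟩ := exists_nat_ge (t / (δ / 2))
  refine hmain n t ht ?_
  rwa [div_le_iff₀ (by positivity)] at hn

end Pool.Agent.H303.DEE.F
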