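import Pool.Agent.H303.DEE.Stm7

/-!
Uniqueness in Fourier variables (project DEE, part J12).
-/

set_option autoImplicit false

open MeasureTheory Set Filter Topology Complex
open scoped ContDiff ENNReal

namespace Pool.Agent.H303.DEE.F

namespace J12N

theorem eq_of_nm {v : C3} (h : nm v ^ 2 = 0) : v = 0 := by
  have h1 : nm v = 0 := by
    rcases pow_eq_zero_iff (two_ne_zero) |>.1 h with h2
    exact h2
  unfold nm at h1
  rw [Real.sqrt_eq_zero (Finset.sum_nonneg fun i _ => sq_nonneg ‖v i‖)] at h1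
  funext i
  have h2 := (Finset.sum_eq_zero_iff_of_nonneg (fun i _ => sq_nonneg ‖v i‖)).1 h1 i
    (Finset.mem_univ i)
  have h3 : ‖v i‖ = 0 := (pow_eq_zero_iff two_ne_zero).1 h2
  exact norm_eq_zero.1 h3

end J12N

/-- uniqueness in Fourier variables -/
theorem j12 (h10 : J10) (h11 : J11) (h9m : J9m) : J12 := by
  intro g ν T C a b hν hg hC hF ha hb h0 t ht
  obtain ⟨B, hB, hBb⟩ := h10 g ν T C a b hν hg hC hF ha hb h0
  obtain ⟨-, hk, -, ⟨D, hD⟩, hky, -⟩ := h9m g ν T a b (ht.1.trans ht.2) ha hb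
  have hy := h11 T B D (fun s => 1 + ∑' k, kn k ^ 2 * nm (b s k) ^ 2)
    (fun s => ∑' k, nm (a s k - b s k) ^ 2) hB hk hky
    (fun s _ => add_nonneg zero_le_one
      (tsum_nonneg fun k => mul_nonneg (sq_nonneg _) (sq_nonneg _)))
    (fun s hs => ⟨tsum_nonneg fun k => sq_nonneg _, (hD s hs).2⟩) hBb t ht
  have h1 : ∑' k, nm (a t k - b t k) ^ 2 = 0 := hy
  have h2 := (hD t ht).1.hasSum
  rw [h1, hasSum_zero_iff_of_nonneg fun k => sq_nonneg _] at h2
  funext k
  have h3 : nm (a t k - b t k) ^ 2 = 0 := congrFun h2 k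
  exact sub_eq_zero.1 (J12N.eq_of_nm h3)

end Pool.Agent.H303.DEE.F
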