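import Pool.Agent.H303.DEE.Stm6
import Pool.Agent.H303.DEE.T8

/-!
The initial value of a weak solution.
-/

open MeasureTheory Set Filter Topology
open scoped ContDiff ENNReal

namespace Pool.Agent.H303.DEE

namespace R3aux

theorem test_const {w : V → V} (hw : Smooth w) : Test fun _ => w where
  smooth := (hw.smooth.comp contDiff_snd).contDiffOn
  per := fun _ _ => hw.per
  divfree := fun _ _ => hw.divfree

theorem memLp_smooth {w : V → V} (hw : Smooth w) (i : Fin 3) : MemLp (fun x => w x i) 2 mQ :=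
  T8.memLp_of_cont T8.Q_compact (((continuous_apply i).comp hw.smooth.continuous).continuousOn)

theorem int_mul {X Y : Fin 3 → V → ℝ} (hX : ∀ i, MemLp (X i) 2 mQ) (hY : ∀ i, MemLp (Y i) 2 mQ) :
    Integrable (fun x => ∑ i, X i x * Y i x) mQ :=
  integrable_finsetSum _ fun i _ => (hX i).integrable_mul (hY i)

/-- a field orthogonal to the smooth fields is orthogonal to their limits -/
theorem orth {D g : Fin 3 → V → ℝ} (hD : ∀ i, MemLp (D i) 2 mQ) (hg : ∀ i, MemLp (g i) 2 mQ)
    (ho : ∀ w : V → V, Smooth w → ∫ x in Q, ∑ i, D i x * w x i = 0)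
    (ha : ∀ ε : ℝ, 0 < ε → ∃ w : V → V, Smooth w ∧ ∫ x in Q, ∑ i, (g i x - w x i) ^ 2 ≤ ε) :
    ∫ x in Q, ∑ i, D i x * g i x = 0 := by
  obtain ⟨M, hM⟩ : ∃ M : ℝ, M = ∫ x in Q, ∑ i, D i x ^ 2 := ⟨_, rfl⟩
  have hM0 : 0 ≤ M := by
    rw [hM]
    exact integral_nonneg fun x => Finset.sum_nonneg fun i _ => sq_nonneg _
  have hbd : ∀ δ : ℝ, 0 < δ → |∫ x in Q, ∑ i, D i x * g i x| ≤ δ * (M + 1) := by
    intro δ hδ
    obtain ⟨w, hw, hwg⟩ := ha (δ ^ 2) (by positivity)
    have iDg := int_mul hD hg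
    have iDw := int_mul (Y := fun i x => w x i) hD fun i => memLp_smooth hw i
    have e1 : ∫ x in Q, ∑ i, D i x * g i x = ∫ x in Q, ∑ i, D i x * (g i x - w x i) := by
      have h1 : ∫ x in Q, ∑ i, D i x * g i x =
          (∫ x in Q, ∑ i, D i x * g i x) - ∫ x in Q, ∑ i, D i x * w x i := by
        rw [ho w hw, sub_zero]
      rw [h1, ← integral_sub iDg iDw]
      refine integral_congr_ae (Eventually.of_forall fun x => ?_)
      show (∑ i, D i x * g i x) - ∑ i, D i x * w x i = ∑ i, D i x * (g i x - w x i)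
      rw [← Finset.sum_sub_distrib]
      exact Finset.sum_congr rfl fun i _ => (mul_sub _ _ _).symm
    have iD2 : Integrable (fun x => ∑ i, D i x ^ 2) mQ :=
      integrable_finsetSum _ fun i _ => (hD i).integrable_sq
    have ig2 : Integrable (fun x => ∑ i, (g i x - w x i) ^ 2) mQ :=
      integrable_finsetSum _ fun i _ => ((hg i).sub (memLp_smooth hw i)).integrable_sq
    have iDgw : Integrable (fun x => ∑ i, D i x * (g i x - w x i)) mQ :=
      int_mul (Y := fun i x => g i x - w x i) hD fun i => (hg i).sub (memLp_smooth hw i)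
    rw [e1]
    refine (abs_integral_le_integral_abs).trans ?_
    have h2 : ∫ x in Q, |∑ i, D i x * (g i x - w x i)| ≤
        ∫ x in Q, (δ * (∑ i, D i x ^ 2) + 1 / δ * ∑ i, (g i x - w x i) ^ 2) := by
      refine integral_mono iDgw.abs ((iD2.const_mul _).add (ig2.const_mul _)) fun x => ?_
      show |∑ i, D i x * (g i x - w x i)| ≤
        δ * (∑ i, D i x ^ 2) + 1 / δ * ∑ i, (g i x - w x i) ^ 2
      rw [Finset.mul_sum, Finset.mul_sum, ← Finset.sum_add_distrib]
      refine (Finset.abs_sum_le_sum_abs _ _).trans (Finset.sum_le_sum fun i _ => ?_)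
      have p1 : 0 ≤ (δ * D i x - (g i x - w x i)) ^ 2 / δ := by positivity
      have p2 : 0 ≤ (δ * D i x + (g i x - w x i)) ^ 2 / δ := by positivity
      have q1 : (δ * D i x - (g i x - w x i)) ^ 2 / δ =
          δ * D i x ^ 2 - 2 * (D i x * (g i x - w x i)) + 1 / δ * (g i x - w x i) ^ 2 := by
        field_simp
        ring
      have q2 : (δ * D i x + (g i x - w x i)) ^ 2 / δ =
          δ * D i x ^ 2 + 2 * (D i x * (g i x - w x i)) + 1 / δ * (g i x - w x i) ^ 2 := by
        field_simp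
        ring
      rw [q1] at p1
      rw [q2] at p2
      have p3 : 0 ≤ δ * D i x ^ 2 := by positivity
      have p4 : 0 ≤ 1 / δ * (g i x - w x i) ^ 2 := by positivity
      rw [abs_le]
      constructor <;> linarith
    refine h2.trans ?_
    rw [integral_add (iD2.const_mul _) (ig2.const_mul _), integral_const_mul, integral_const_mul,
      ← hM]
    have h3 : 1 / δ * ∫ x in Q, ∑ i, (g i x - w x i) ^ 2 ≤ 1 / δ * δ ^ 2 :=
      mul_le_mul_of_nonneg_left hwg (by positivity)
    have h4 : 1 / δ * δ ^ 2 = δ := by field_simp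
    rw [h4] at h3
    linarith
  by_contra hne
  have hpos : 0 < |∫ x in Q, ∑ i, D i x * g i x| := abs_pos.2 hne
  have h1 := hbd (|∫ x in Q, ∑ i, D i x * g i x| / (2 * (M + 1))) (by positivity)
  have h2 : |∫ x in Q, ∑ i, D i x * g i x| / (2 * (M + 1)) * (M + 1) =
      |∫ x in Q, ∑ i, D i x * g i x| / 2 := by
    field_simp
  rw [h2] at h1
  linarith

end R3aux

open R3aux in
/-- the initial value of a weak solution -/
theorem r3 (h : R2) : R3 := by
  intro n ν α T f u G hT hu
  have h0 : (0 : ℝ) ∈ Icc 0 T := ⟨le_rfl, hT⟩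
  have hfL : ∀ i, MemLp (fun x => (f.1 : V → V) x i) 2 mQ := T8.memLp_comp (Lp.memLp f.1)
  have huL := hu.l2_u 0 h0
  have hDL : ∀ i, MemLp (fun x => u 0 x i - (f.1 : V → V) x i) 2 mQ := fun i => (huL i).sub (hfL i)
  have ho : ∀ w : V → V, Smooth w → ∫ x in Q, ∑ i, (u 0 x i - (f.1 : V → V) x i) * w x i = 0 := by
    intro w hw
    have h1 := hu.weak (fun _ => w) (test_const hw) 0 h0
    rw [intervalIntegral.integral_same] at h1
    have i1 := int_mul (X := fun i x => u 0 x i) (Y := fun i x => w x i) huL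
      fun i => memLp_smooth hw i
    have i2 := int_mul (X := fun i x => (f.1 : V → V) x i) (Y := fun i x => w x i) hfL
      fun i => memLp_smooth hw i
    refine Eq.trans ?_ h1
    rw [← integral_sub i1 i2]
    refine integral_congr_ae (Eventually.of_forall fun x => ?_)
    show ∑ i, (u 0 x i - (f.1 : V → V) x i) * w x i =
      (∑ i, u 0 x i * w x i) - ∑ i, (f.1 : V → V) x i * w x i
    rw [← Finset.sum_sub_distrib]
    exact Finset.sum_congr rfl fun i _ => sub_mul _ _ _
  have a1 := orth (D := fun i x => u 0 x i - (f.1 : V → V) x i) (g := fun i x => u 0 x i) hDL huL ho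
    (h (u 0) huL (hu.divfree 0 h0))
  have a2 := orth (D := fun i x => u 0 x i - (f.1 : V → V) x i) (g := fun i x => (f.1 : V → V) x i)
    hDL hfL ho (by
      intro ε hε
      obtain ⟨g, ⟨w, hw, hgw⟩, hd⟩ := Metric.mem_closure_iff.1 f.2 (√(ε / 3))
        (Real.sqrt_pos.2 (by positivity))
      refine ⟨w, hw, (T8.dist_bd (f := f.1) hgw).trans ?_⟩
      have h1 : dist f.1 g ^ 2 ≤ √(ε / 3) ^ 2 := pow_le_pow_left₀ dist_nonneg hd.le 2
      rw [Real.sq_sqrt (by positivity)] at h1
      linarith)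
  have j1 := int_mul (X := fun i x => u 0 x i - (f.1 : V → V) x i) (Y := fun i x => u 0 x i) hDL huL
  have j2 := int_mul (X := fun i x => u 0 x i - (f.1 : V → V) x i)
    (Y := fun i x => (f.1 : V → V) x i) hDL hfL
  have k1 : Integrable (fun x => ∑ i, u 0 x i ^ 2) mQ :=
    integrable_finsetSum _ fun i _ => (huL i).integrable_sq
  have k2 : Integrable (fun x => ∑ i, (f.1 : V → V) x i ^ 2) mQ :=
    integrable_finsetSum _ fun i _ => (hfL i).integrable_sq
  refine sub_eq_zero.1 ?_
  rw [← integral_sub k1 k2]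
  have e : ∫ x in Q, ((∑ i, u 0 x i ^ 2) - ∑ i, (f.1 : V → V) x i ^ 2) =
      ∫ x in Q, ((∑ i, (u 0 x i - (f.1 : V → V) x i) * u 0 x i) +
        ∑ i, (u 0 x i - (f.1 : V → V) x i) * (f.1 : V → V) x i) := by
    refine integral_congr_ae (Eventually.of_forall fun x => ?_)
    show (∑ i, u 0 x i ^ 2) - ∑ i, (f.1 : V → V) x i ^ 2 =
      (∑ i, (u 0 x i - (f.1 : V → V) x i) * u 0 x i) +
        ∑ i, (u 0 x i - (f.1 : V → V) x i) * (f.1 : V → V) x i
    rw [← Finset.sum_sub_distrib, ← Finset.sum_add_distrib]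
    exact Finset.sum_congr rfl fun i _ => by ring
  rw [e, integral_add j1 j2, a1, a2, add_zero]

end Pool.Agent.H303.DEE
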