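import Pool.Agent.H303.DEE.Stm7
import Pool.Agent.H303.DEE.R3

/-!
Uniqueness of weak solutions in the energy class (project DEE-J, steps J13a and J13).
-/

set_option autoImplicit false

open MeasureTheory Set Filter Topology Complex
open scoped ContDiff ENNReal

namespace Pool.Agent.H303.DEE.F

namespace J13x

open Pool.Agent.H303.DEE.R3aux

theorem gg_neg (n : ℕ) (hn : Odd n) (α : Fin 3 → ℝ) (k : K) : gg n α (-k) = -gg n α k := by
  unfold gg
  rw [← mul_neg, ← Finset.sum_neg_distrib]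
  congr 1
  refine Finset.sum_congr rfl fun j _ => ?_
  have h1 : 2 * Real.pi * (((-k) j : ℤ) : ℝ) = -(2 * Real.pi * (k j : ℝ)) := by
    rw [Pi.neg_apply]
    push_cast
    ring
  rw [h1, hn.neg_pow]
  ring

/-- the exponential -/
noncomputable def ex (k : K) (x : V) : ℂ :=
  Complex.exp (-(2 * Real.pi * I * ∑ j, (k j : ℂ) * (x j : ℂ)))

theorem ex_norm (k : K) (x : V) : ‖ex k x‖ = 1 := by
  unfold ex
  have h1 : (-(2 * Real.pi * I * ∑ j, (k j : ℂ) * (x j : ℂ))) =
      ((-(2 * Real.pi * ∑ j, (k j : ℝ) * x j) : ℝ) : ℂ) * I := by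
    push_cast
    ring
  rw [h1, Complex.norm_exp_ofReal_mul_I]

theorem ex_cont (k : K) : Continuous (ex k) := by
  unfold ex
  fun_prop

theorem int_ex (k : K) (F : V → ℝ) (hF : Integrable F mQ) :
    Integrable (fun x => (F x : ℂ) * ex k x) mQ :=
  hF.ofReal.mul_bdd (c := 1) (ex_cont k).aestronglyMeasurable
    (Eventually.of_forall fun x => (ex_norm k x).le)

theorem cf_sub (F H : V → ℝ) (hF : Integrable F mQ) (hH : Integrable H mQ) (k : K) :
    cf (fun x => F x - H x) k = cf F k - cf H k := by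
  show ∫ x in Q, ((F x - H x : ℝ) : ℂ) * ex k x =
    (∫ x in Q, (F x : ℂ) * ex k x) - ∫ x in Q, (H x : ℂ) * ex k x
  rw [← integral_sub (int_ex k F hF) (int_ex k H hH)]
  congr 1
  funext x
  push_cast
  ring

/-- fields with the same coefficients are equal -/
theorem eq_of_cf (p1 : P1) {v w : V → V} (hv : ∀ i, MemLp (fun x => v x i) 2 mQ)
    (hw : ∀ i, MemLp (fun x => w x i) 2 mQ)
    (h : ∀ i k, cf (fun x => v x i) k = cf (fun x => w x i) k) : v =ᵐ[mQ] w := by
  have hfin : IsFiniteMeasure mQ := ⟨by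
    rw [Measure.restrict_apply_univ]
    exact T8.Q_compact.measure_lt_top⟩
  have h1 : ∀ i, (fun x => v x i) =ᵐ[mQ] fun x => w x i := by
    intro i
    have hd : MemLp (fun x => v x i - w x i) 2 mQ := (hv i).sub (hw i)
    have h2 := p1 _ hd
    have h3 : ∀ k, cf (fun x => v x i - w x i) k = 0 := by
      intro k
      rw [cf_sub _ _ ((hv i).integrable one_le_two) ((hw i).integrable one_le_two), h i k,
        sub_self]
    have h4 : ∫ x in Q, (v x i - w x i) ^ 2 = 0 := by
      refine h2.unique ?_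
      have : (fun k : K => ‖cf (fun x => v x i - w x i) k‖ ^ 2) = fun _ => 0 := by
        funext k
        rw [h3 k]
        simp
      rw [this]
      exact hasSum_zero
    have h5 := (integral_eq_zero_iff_of_nonneg (fun x => sq_nonneg _) hd.integrable_sq).1 h4
    filter_upwards [h5] with x hx
    have h6 : (v x i - w x i) ^ 2 = 0 := hx
    exact sub_eq_zero.1 (pow_eq_zero_iff two_ne_zero |>.1 h6)
  filter_upwards [ae_all_iff.2 h1] with x hx
  exact funext hx

end J13x

open J13x Pool.Agent.H303.DEE.R3aux in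
/-- the initial value is attained -/
theorem j13a (h2 : R2) : J13a := by
  intro n ν α T f u G hT hu
  have h0 : (0 : ℝ) ∈ Icc 0 T := ⟨le_rfl, hT⟩
  have hfL : ∀ i, MemLp (fun x => (f.1 : V → V) x i) 2 mQ := T8.memLp_comp (Lp.memLp f.1)
  have huL := hu.l2_u 0 h0
  have hDL : ∀ i, MemLp (fun x => u 0 x i - (f.1 : V → V) x i) 2 mQ := fun i => (huL i).sub (hfL i)
  have ho : ∀ w : V → V, Smooth w → ∫ x in Q, ∑ i, (u 0 x i - (f.1 : V → V) x i) * w x i = 0 := by
    intro w hw
    have h1 := hu.weak (fun _ => w) (test_const hw) 0 h0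
    rw [intervalIntegral.integral_same] at h1
    have i1 := int_mul (X := fun i x => u 0 x i) (Y := fun i x => w x i) huL
      fun i => memLp_smooth hw i
    have i2 := int_mul (X := fun i x => (f.1 : V → V) x i) (Y := fun i x => w x i) hfL
      fun i => memLp_smooth hw i
    refine Eq.trans ?_ h1
    rw [← integral_sub i1 i2]
    refine integral_congr_ae (Eventually.of_forall fun x => ?_)
    show ∑ i, (u 0 x i - (f.1 : V → V) x i) * w x i =
      (∑ i, u 0 x i * w x i) - ∑ i, (f.1 : V → V) x i * w x i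
    rw [← Finset.sum_sub_distrib]
    exact Finset.sum_congr rfl fun i _ => sub_mul _ _ _
  have a1 := orth (D := fun i x => u 0 x i - (f.1 : V → V) x i) (g := fun i x => u 0 x i) hDL huL ho
    (h2 (u 0) huL (hu.divfree 0 h0))
  have a2 := orth (D := fun i x => u 0 x i - (f.1 : V → V) x i) (g := fun i x => (f.1 : V → V) x i)
    hDL hfL ho (by
      intro ε hε
      obtain ⟨g, ⟨w, hw, hgw⟩, hd⟩ := Metric.mem_closure_iff.1 f.2 (√(ε / 3))
        (Real.sqrt_pos.2 (by positivity))
      refine ⟨w, hw, (T8.dist_bd (f := f.1) hgw).trans ?_⟩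
      have h1 : dist f.1 g ^ 2 ≤ √(ε / 3) ^ 2 := pow_le_pow_left₀ dist_nonneg hd.le 2
      rw [Real.sq_sqrt (by positivity)] at h1
      linarith)
  have j1 := int_mul (X := fun i x => u 0 x i - (f.1 : V → V) x i) (Y := fun i x => u 0 x i) hDL huL
  have j2 := int_mul (X := fun i x => u 0 x i - (f.1 : V → V) x i)
    (Y := fun i x => (f.1 : V → V) x i) hDL hfL
  have k1 : Integrable (fun x => ∑ i, (u 0 x i - (f.1 : V → V) x i) ^ 2) mQ :=
    integrable_finsetSum _ fun i _ => (hDL i).integrable_sq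
  have e : ∫ x in Q, ∑ i, (u 0 x i - (f.1 : V → V) x i) ^ 2 = 0 := by
    have e1 : ∫ x in Q, ∑ i, (u 0 x i - (f.1 : V → V) x i) ^ 2 =
        ∫ x in Q, ((∑ i, (u 0 x i - (f.1 : V → V) x i) * u 0 x i) -
          ∑ i, (u 0 x i - (f.1 : V → V) x i) * (f.1 : V → V) x i) := by
      refine integral_congr_ae (Eventually.of_forall fun x => ?_)
      show ∑ i, (u 0 x i - (f.1 : V → V) x i) ^ 2 =
        (∑ i, (u 0 x i - (f.1 : V → V) x i) * u 0 x i) -
          ∑ i, (u 0 x i - (f.1 : V → V) x i) * (f.1 : V → V) x i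
      rw [← Finset.sum_sub_distrib]
      exact Finset.sum_congr rfl fun i _ => by ring
    rw [e1, integral_sub j1 j2, a1, a2, sub_zero]
  have h5 := (integral_eq_zero_iff_of_nonneg
    (fun x => Finset.sum_nonneg fun i _ => sq_nonneg (u 0 x i - (f.1 : V → V) x i)) k1).1 e
  filter_upwards [h5] with x hx
  have h6 : ∑ i, (u 0 x i - (f.1 : V → V) x i) ^ 2 = 0 := hx
  funext i
  have h7 := (Finset.sum_eq_zero_iff_of_nonneg fun i _ => sq_nonneg _).1 h6 i (Finset.mem_univ i)
  exact sub_eq_zero.1 (pow_eq_zero_iff two_ne_zero |>.1 h7)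

open J13x in
/-- uniqueness of weak solutions in the energy class -/
theorem j13 (h12 : J12) (r1 : R1) (p1 : P1) (p7 : P7) (h13a : J13a) : J13 := by
  intro n ν α C hν hn hC hFew T f u u' G G' hu hu' t ht
  have hT : 0 ≤ T := ht.1.trans ht.2
  obtain ⟨u₁, hL⟩ := r1 n ν α T f u G hν.le hu
  obtain ⟨u₁', hL'⟩ := r1 n ν α T f u' G' hν.le hu'
  have hF := p7 n ν α T u₁ u G hν hn hT hL
  have hF' := p7 n ν α T u₁' u' G' hν hn hT hL'
  have h1 := h13a n ν α T f u G hT hu
  have h2 := h13a n ν α T f u' G' hT hu'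
  have h3 : u' 0 =ᵐ[mQ] u 0 := h2.trans h1.symm
  have h4 : (fun t k i => cf (fun x => u' t x i) k : ℝ → K → C3) 0 =
      (fun t k i => cf (fun x => u t x i) k : ℝ → K → C3) 0 := by
    funext k i
    show cf (fun x => u' 0 x i) k = cf (fun x => u 0 x i) k
    unfold cf
    refine integral_congr_ae ?_
    filter_upwards [h3] with x hx
    rw [hx]
  have h5 := h12 (gg n α) ν T C (fun t k i => cf (fun x => u' t x i) k)
    (fun t k i => cf (fun x => u t x i) k) hν (gg_neg n hn α) hC hFew hF' hF h4 t ht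
  exact eq_of_cf p1 (hu'.l2_u t ht) (hu.l2_u t ht) fun i k => congrFun (congrFun h5 k) i

end Pool.Agent.H303.DEE.F
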