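import Pool.Agent.H303.DEE.Stm7
import Pool.Agent.H303.DEE.FH2

/-!
Project DEE, subtask DEJ-J2: the energy balance of the difference of two solutions.
-/

open MeasureTheory Set Filter Topology Complex

namespace Pool.Agent.H303.DEE.F

namespace XJ2

open XH2

/-- the equation for the difference, one coefficient -/
lemma ode_sub {g : K → ℝ} {ν T : ℝ} {a b : ℝ → K → C3} (ha : FSol g ν T a) (hb : FSol g ν T b)
    (k : K) (i : Fin 3) {t : ℝ} (ht : t ∈ Icc 0 T) :
    a t k i - b t k i = (a 0 k i - b 0 k i) + ∫ s in (0 : ℝ)..t,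
      ((-((4 * Real.pi ^ 2 * ν * kn k ^ 2 : ℝ) : ℂ) + I * (g k : ℂ)) * (a s k i - b s k i)
        - (Nl (a s) k i - Nl (b s) k i)) := by
  obtain ⟨ht0, htT⟩ := ht
  have hsubset : Icc 0 t ⊆ Icc 0 T := Icc_subset_Icc le_rfl htT
  have hφ : ∀ c : ℝ → K → C3, FSol g ν T c → IntervalIntegrable (fun s =>
      ((-((4 * Real.pi ^ 2 * ν * kn k ^ 2 : ℝ) : ℂ) + I * (g k : ℂ)) * c s k i
        - Nl (c s) k i)) volume 0 t := by
    intro c hc
    have hcc : ContinuousOn (fun s => c s k i) (uIcc 0 t) := by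
      rw [uIcc_of_le ht0]
      exact (hc.cont k i).mono hsubset
    have hN : IntervalIntegrable (fun s => Nl (c s) k i) volume 0 t := by
      rw [intervalIntegrable_iff_integrableOn_Icc_of_le ht0]
      exact (hc.intN k i).mono_set hsubset
    exact (hcc.intervalIntegrable.const_mul _).sub hN
  rw [ha.ode k i t ⟨ht0, htT⟩, hb.ode k i t ⟨ht0, htT⟩]
  have h1 : ∫ s in (0 : ℝ)..t,
      ((-((4 * Real.pi ^ 2 * ν * kn k ^ 2 : ℝ) : ℂ) + I * (g k : ℂ)) * (a s k i - b s k i)
        - (Nl (a s) k i - Nl (b s) k i)) =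
      (∫ s in (0 : ℝ)..t, ((-((4 * Real.pi ^ 2 * ν * kn k ^ 2 : ℝ) : ℂ) + I * (g k : ℂ)) * a s k i
        - Nl (a s) k i)) -
      ∫ s in (0 : ℝ)..t, ((-((4 * Real.pi ^ 2 * ν * kn k ^ 2 : ℝ) : ℂ) + I * (g k : ℂ)) * b s k i
        - Nl (b s) k i) := by
    rw [← intervalIntegral.integral_sub (hφ a ha) (hφ b hb)]
    apply intervalIntegral.integral_congr
    intro s _
    ring
  rw [h1]
  ring

/-- the energy balance of one coefficient of the difference -/
lemma one {g : K → ℝ} {ν T : ℝ} {a b : ℝ → K → C3} (ha : FSol g ν T a) (hb : FSol g ν T b)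
    (k : K) {t : ℝ} (ht : t ∈ Icc 0 T) :
    IntervalIntegrable (fun s =>
      (∑ i, (Nl (a s) k i - Nl (b s) k i) * (starRingEnd ℂ) (a s k i - b s k i)).re)
      volume 0 t ∧
    (1 / 2) * nm (a t k - b t k) ^ 2
        + 4 * Real.pi ^ 2 * ν * (∫ s in (0 : ℝ)..t, kn k ^ 2 * nm (a s k - b s k) ^ 2)
      = (1 / 2) * nm (a 0 k - b 0 k) ^ 2
        - ∫ s in (0 : ℝ)..t,
          (∑ i, (Nl (a s) k i - Nl (b s) k i) * (starRingEnd ℂ) (a s k i - b s k i)).re := by
  obtain ⟨ht0, htT⟩ := ht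
  have hsubset : Icc 0 t ⊆ Icc 0 T := Icc_subset_Icc le_rfl htT
  have hcont : ∀ i, ContinuousOn (fun s => a s k i - b s k i) (Icc 0 t) := fun i =>
    ((ha.cont k i).mono hsubset).sub ((hb.cont k i).mono hsubset)
  have hcont' : ∀ i, ContinuousOn (fun s => a s k i - b s k i) (uIcc 0 t) := fun i => by
    rw [uIcc_of_le ht0]; exact hcont i
  have hcontc : ∀ i, ContinuousOn (fun s => (starRingEnd ℂ) (a s k i - b s k i)) (uIcc 0 t) :=
    fun i => Complex.continuous_conj.comp_continuousOn (hcont' i)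
  have hN1 : ∀ c : ℝ → K → C3, FSol g ν T c → ∀ i,
      IntervalIntegrable (fun s => Nl (c s) k i) volume 0 t := fun c hc i => by
    rw [intervalIntegrable_iff_integrableOn_Icc_of_le ht0]
    exact (hc.intN k i).mono_set hsubset
  have hN : ∀ i, IntervalIntegrable (fun s => Nl (a s) k i - Nl (b s) k i) volume 0 t := fun i =>
    (hN1 a ha i).sub (hN1 b hb i)
  have hA : ∀ i, IntervalIntegrable (fun s => a s k i - b s k i) volume 0 t := fun i =>
    (hcont' i).intervalIntegrable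
  have hφ : ∀ i, IntervalIntegrable (fun s =>
      ((-((4 * Real.pi ^ 2 * ν * kn k ^ 2 : ℝ) : ℂ) + I * (g k : ℂ)) * (a s k i - b s k i)
        - (Nl (a s) k i - Nl (b s) k i))) volume 0 t := fun i => ((hA i).const_mul _).sub (hN i)
  have hnm : ContinuousOn (fun s => nm (a s k - b s k) ^ 2) (uIcc 0 t) := by
    simp only [nm_sq, Pi.sub_apply]
    exact continuousOn_finsetSum _ fun i _ => ((hcont' i).norm).pow 2
  have hI1 : IntervalIntegrable (fun s => kn k ^ 2 * nm (a s k - b s k) ^ 2) volume 0 t :=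
    (hnm.const_mul _).intervalIntegrable
  have hI2c : IntervalIntegrable (fun s =>
      ∑ i, (Nl (a s) k i - Nl (b s) k i) * (starRingEnd ℂ) (a s k i - b s k i))
      volume 0 t := by
    have := IntervalIntegrable.sum (μ := volume) (a := 0) (b := t) Finset.univ
      (f := fun i s => (Nl (a s) k i - Nl (b s) k i) * (starRingEnd ℂ) (a s k i - b s k i))
      (fun i _ => (hN i).mul_continuousOn (hcontc i))
    refine this.congr ?_
    intro s _
    simp
  have hI2 : IntervalIntegrable (fun s =>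
      (∑ i, (Nl (a s) k i - Nl (b s) k i) * (starRingEnd ℂ) (a s k i - b s k i)).re)
      volume 0 t := ⟨hI2c.1.re, hI2c.2.re⟩
  refine ⟨hI2, ?_⟩
  have hsq : ∀ i, ‖a t k i - b t k i‖ ^ 2 - ‖a 0 k i - b 0 k i‖ ^ 2 = ∫ s in (0 : ℝ)..t,
      2 * ((((-((4 * Real.pi ^ 2 * ν * kn k ^ 2 : ℝ) : ℂ) + I * (g k : ℂ)) *
        (a s k i - b s k i)
        - (Nl (a s) k i - Nl (b s) k i))) * (starRingEnd ℂ) (a s k i - b s k i)).re := fun i =>
    sq_complex (f := fun s => a s k i - b s k i) ht0 (hφ i)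
      (fun s hs => ode_sub ha hb k i (hsubset hs)) (hcont i)
  have hint : ∀ i, IntervalIntegrable (fun s =>
      2 * ((((-((4 * Real.pi ^ 2 * ν * kn k ^ 2 : ℝ) : ℂ) + I * (g k : ℂ)) *
        (a s k i - b s k i)
        - (Nl (a s) k i - Nl (b s) k i))) * (starRingEnd ℂ) (a s k i - b s k i)).re)
      volume 0 t := fun i => by
    have := (hφ i).mul_continuousOn (hcontc i)
    exact IntervalIntegrable.const_mul ⟨this.1.re, this.2.re⟩ 2
  have hsum : nm (a t k - b t k) ^ 2 - nm (a 0 k - b 0 k) ^ 2 = ∫ s in (0 : ℝ)..t,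
      ∑ i, 2 * ((((-((4 * Real.pi ^ 2 * ν * kn k ^ 2 : ℝ) : ℂ) + I * (g k : ℂ)) *
        (a s k i - b s k i)
        - (Nl (a s) k i - Nl (b s) k i))) * (starRingEnd ℂ) (a s k i - b s k i)).re := by
    rw [nm_sq, nm_sq, ← Finset.sum_sub_distrib, intervalIntegral.integral_finsetSum
      (fun i _ => hint i)]
    exact Finset.sum_congr rfl fun i _ => hsq i
  have hpt : ∀ s, ∑ i, 2 * ((((-((4 * Real.pi ^ 2 * ν * kn k ^ 2 : ℝ) : ℂ) + I * (g k : ℂ))
        * (a s k i - b s k i) - (Nl (a s) k i - Nl (b s) k i))) *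
        (starRingEnd ℂ) (a s k i - b s k i)).re =
      (-(8 * Real.pi ^ 2 * ν)) * (kn k ^ 2 * nm (a s k - b s k) ^ 2)
        - 2 * (∑ i, (Nl (a s) k i - Nl (b s) k i) *
          (starRingEnd ℂ) (a s k i - b s k i)).re := by
    intro s
    rw [nm_sq, Complex.re_sum, Finset.mul_sum, Finset.mul_sum, Finset.mul_sum,
      ← Finset.sum_sub_distrib]
    refine Finset.sum_congr rfl fun i _ => ?_
    rw [Pi.sub_apply, Complex.sq_norm, Complex.normSq_apply]
    generalize a s k i - b s k i = x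
    generalize Nl (a s) k i - Nl (b s) k i = y
    simp only [Complex.mul_re, Complex.mul_im, Complex.add_re, Complex.add_im, Complex.sub_re,
      Complex.sub_im, Complex.neg_re, Complex.neg_im, Complex.ofReal_re, Complex.ofReal_im,
      Complex.I_re, Complex.I_im, Complex.conj_re, Complex.conj_im]
    ring
  rw [intervalIntegral.integral_congr (g := fun s => (-(8 * Real.pi ^ 2 * ν)) *
      (kn k ^ 2 * nm (a s k - b s k) ^ 2) - 2 * (∑ i, (Nl (a s) k i - Nl (b s) k i) *
        (starRingEnd ℂ) (a s k i - b s k i)).re)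
      (fun s _ => hpt s), intervalIntegral.integral_sub (hI1.const_mul _) (hI2.const_mul 2)] at hsum
  simp only [intervalIntegral.integral_const_mul] at hsum ⊢
  linarith

lemma nm_zero : nm (0 : C3) ^ 2 = 0 := by
  rw [nm_sq]
  simp

end XJ2

open XJ2 in
/-- the energy balance of the difference -/
theorem j2 : J2 := by
  intro g ν T a b ha hb h0 w S t ht
  have hk : ∀ k, (1 / 2) * nm (a t k - b t k) ^ 2
        + 4 * Real.pi ^ 2 * ν * (∫ s in (0 : ℝ)..t, kn k ^ 2 * nm (a s k - b s k) ^ 2)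
      = - ∫ s in (0 : ℝ)..t,
          (∑ i, (Nl (a s) k i - Nl (b s) k i) * (starRingEnd ℂ) (a s k i - b s k i)).re := by
    intro k
    have h1 := (XJ2.one ha hb k ht).2
    rw [h0, sub_self, nm_zero] at h1
    linarith
  have hint : ∀ k ∈ S, IntervalIntegrable (fun s => w k *
      (∑ i, (Nl (a s) k i - Nl (b s) k i) * (starRingEnd ℂ) (a s k i - b s k i)).re)
      volume 0 t :=
    fun k _ => (XJ2.one ha hb k ht).1.const_mul _
  rw [intervalIntegral.integral_finsetSum hint, Finset.mul_sum, Finset.mul_sum,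
    ← Finset.sum_add_distrib, ← Finset.sum_neg_distrib]
  refine Finset.sum_congr rfl fun k _ => ?_
  have hk' := hk k
  simp only [intervalIntegral.integral_const_mul] at hk' ⊢
  linear_combination (w k) * hk'

end Pool.Agent.H303.DEE.F
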