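import Pool.Agent.H303.DEE.Stm7
import Pool.Agent.H303.DEE.FH3

/-! The product rule for three solutions (J3; by helper581 for helper303). -/

open MeasureTheory Set Filter Topology Complex
open scoped ContDiff ENNReal

namespace Pool.Agent.H303.DEE.F

open H3aux in
theorem j3 : J3 := by
  intro g ν T a b c ha hb hc z
  have hX : Prim T _ (fun s => X3 (a s) (b s) (c s) z) :=
    (Prim.sum Finset.univ (fun j _ => (prim_coef ha z.2 j).const_mul (z.1 j : ℂ))).mul
      (Prim.sum Finset.univ (fun i _ => (prim_coef hb (z.1 - z.2) i).mul (prim_coef hc z.1 i).conj))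
  have key : ∀ s : ℝ, (∑ j, (z.1 j : ℂ) * ((-((4 * Real.pi ^ 2 * ν * kn z.2 ^ 2 : ℝ) : ℂ) +
        I * (g z.2 : ℂ)) * a s z.2 j - Nl (a s) z.2 j)) *
        (∑ i, b s (z.1 - z.2) i * (starRingEnd ℂ) (c s z.1 i)) +
      (∑ j, (z.1 j : ℂ) * a s z.2 j) *
        (∑ i, (((-((4 * Real.pi ^ 2 * ν * kn (z.1 - z.2) ^ 2 : ℝ) : ℂ) + I * (g (z.1 - z.2) : ℂ)) *
          b s (z.1 - z.2) i - Nl (b s) (z.1 - z.2) i) * (starRingEnd ℂ) (c s z.1 i) +
          b s (z.1 - z.2) i * (starRingEnd ℂ) ((-((4 * Real.pi ^ 2 * ν * kn z.1 ^ 2 : ℝ) : ℂ) +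
            I * (g z.1 : ℂ)) * c s z.1 i - Nl (c s) z.1 i))) =
      -(Zd g ν z) * X3 (a s) (b s) (c s) z - Q3 (a s) (b s) (c s) z := by
    intro s
    unfold Q3 X3 Xt dt Zd om
    simp only [Fin.sum_univ_three, map_sub, map_add, map_mul, map_neg, Complex.conj_I,
      Complex.conj_ofReal]
    push_cast
    ring
  have hD : IntegrableOn (fun s => -(Zd g ν z) * X3 (a s) (b s) (c s) z -
      Q3 (a s) (b s) (c s) z) (Icc 0 T) := by
    refine hX.i.congr_fun (fun s _ => ?_) measurableSet_Icc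
    exact key s
  have hXi : IntegrableOn (fun s => -(Zd g ν z) * X3 (a s) (b s) (c s) z) (Icc 0 T) :=
    (hX.c.integrableOn_compact isCompact_Icc).const_mul _
  refine ⟨?_, fun t ht => ?_⟩
  · have := hXi.sub hD
    refine this.congr_fun (fun s _ => ?_) measurableSet_Icc
    simp
  · rw [hX.e t ht, add_sub_cancel_left]
    refine intervalIntegral.integral_congr (fun s _ => ?_)
    exact key s

end Pool.Agent.H303.DEE.F
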