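import Pool.Agent.H303.DEE.Stm7
import Pool.Agent.H303.DEE.FH9

/-!
Project DEE-J: the flux term of the difference tends to zero (`J4`).
-/

set_option autoImplicit false

open MeasureTheory Set Filter Topology Complex
open scoped ContDiff ENNReal

namespace Pool.Agent.H303.DEE.F

namespace J4L

open FH9

theorem nm_sq (v : C3) : nm v ^ 2 = ∑ i, ‖v i‖ ^ 2 :=
  Real.sq_sqrt (Finset.sum_nonneg fun _ _ => sq_nonneg _)

theorem nm_sub_sq (v w : C3) : nm (v - w) ^ 2 ≤ 2 * nm v ^ 2 + 2 * nm w ^ 2 := by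
  rw [nm_sq, nm_sq, nm_sq, Finset.mul_sum, Finset.mul_sum, ← Finset.sum_add_distrib]
  refine Finset.sum_le_sum fun i _ => ?_
  have h1 : ‖(v - w) i‖ ≤ ‖v i‖ + ‖w i‖ := norm_sub_le _ _
  have h2 := norm_nonneg ((v - w) i)
  nlinarith [sq_nonneg (‖v i‖ - ‖w i‖), norm_nonneg (v i), norm_nonneg (w i)]

/-- bound of the trilinear expression -/
theorem X3_le (P Q R : K → C3) (z : K × K) (h : dt z.2 (P z.2) = 0) :
    ‖X3 P Q R z‖ ≤ kn z.1 * (nm (P z.2) * nm (Q (z.1 - z.2)) * nm (R z.1)) ∧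
    ‖X3 P Q R z‖ ≤ kn (z.1 - z.2) * (nm (P z.2) * nm (Q (z.1 - z.2)) * nm (R z.1)) := by
  unfold X3 Xt
  rw [norm_mul]
  have h1 := dt_le z.1 (P z.2)
  have h2 := dt_le (z.1 - z.2) (P z.2)
  rw [← dt_sub z.1 z.2 _ h] at h2
  have h3 := inner_le (Q (z.1 - z.2)) (R z.1)
  have n1 := nm_nonneg (R z.1)
  have n2 := nm_nonneg (P z.2)
  have n3 := nm_nonneg (Q (z.1 - z.2))
  have k1 := kn_nonneg z.1
  have k2 := kn_nonneg (z.1 - z.2)
  constructor
  · calc _ ≤ (kn z.1 * nm (P z.2)) * (nm (Q (z.1 - z.2)) * nm (R z.1)) :=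
          mul_le_mul h1 h3 (norm_nonneg _) (by positivity)
      _ = _ := by ring
  · calc _ ≤ (kn (z.1 - z.2) * nm (P z.2)) * (nm (Q (z.1 - z.2)) * nm (R z.1)) :=
          mul_le_mul h2 h3 (norm_nonneg _) (by positivity)
      _ = _ := by ring

theorem flux_sum_le {M E : ℝ} (hM : 1 ≤ M) {P Q R : K → C3} {x : K → ℝ}
    (hdiv : ∀ k, dt k (P k) = 0) (hP : ∀ k, nm (P k) ≤ x k) (hQ : ∀ k, nm (Q k) ≤ x k)
    (hR : ∀ k, nm (R k) ≤ x k) (hE : ∀ F : Finset K, ∑ k ∈ F, x k ^ 2 ≤ E)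
    (S : Finset (K × K)) :
    ∑ z ∈ S, ‖muz M z * X3 P Q R z‖ ≤ 4 * M * ((box (2 * M)).card * (√E * E)) := by
  have hM0 : 0 < M := by linarith
  have hx : ∀ k, 0 ≤ x k := fun k => (nm_nonneg _).trans (hP k)
  have h1 := triad_sum (x := x) hx hE (box (2 * M)) S
    (fun z => z.1) (fun z => z.2) (fun z => z.1 - z.2) (fun z _ z' _ h h' => Prod.ext h h')
    (fun z _ z' _ h h' => Prod.ext h (by
      have h' : z.1 - z.2 = z'.1 - z'.2 := h'
      have h : z.1 = z'.1 := h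
      rw [h] at h'
      exact sub_right_injective h'))
  have h2 := triad_sum (x := x) hx hE (box (2 * M)) S
    (fun z => z.1 - z.2) (fun z => z.2) (fun z => z.1)
    (fun z _ z' _ h h' => Prod.ext (by
      have h' : z.2 = z'.2 := h'
      have h : z.1 - z.2 = z'.1 - z'.2 := h
      rw [h'] at h
      exact sub_left_injective h) h')
    (fun z _ z' _ h h' => Prod.ext h' (by
      have h : z.1 - z.2 = z'.1 - z'.2 := h
      have h' : z.1 = z'.1 := h'
      rw [h'] at h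
      exact sub_right_injective h))
  calc ∑ z ∈ S, ‖muz M z * X3 P Q R z‖ ≤ ∑ z ∈ S, (2 * M * (if z.1 ∈ box (2 * M) then
          x z.1 * x z.2 * x (z.1 - z.2) else 0) +
        2 * M * (if z.1 - z.2 ∈ box (2 * M) then
          x (z.1 - z.2) * x z.2 * x z.1 else 0)) := by
        refine Finset.sum_le_sum fun z _ => ?_
        obtain ⟨x1, x2⟩ := X3_le P Q R z (hdiv z.2)
        have n1 := hx z.1
        have n2 := hx z.2
        have n3 := hx (z.1 - z.2)
        have hprod : nm (P z.2) * nm (Q (z.1 - z.2)) * nm (R z.1) ≤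
            x z.2 * x (z.1 - z.2) * x z.1 :=
          mul_le_mul (mul_le_mul (hP _) (hQ _) (nm_nonneg _) n2) (hR _) (nm_nonneg _)
            (mul_nonneg n2 n3)
        have y1 : ‖X3 P Q R z‖ ≤ kn z.1 * (x z.1 * x z.2 * x (z.1 - z.2)) := by
          refine x1.trans (mul_le_mul_of_nonneg_left (hprod.trans (le_of_eq ?_)) (kn_nonneg _))
          ring
        have y2 : ‖X3 P Q R z‖ ≤ kn (z.1 - z.2) * (x (z.1 - z.2) * x z.2 * x z.1) := by
          refine x2.trans (mul_le_mul_of_nonneg_left (hprod.trans (le_of_eq ?_)) (kn_nonneg _))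
          ring
        have e1 := wt_mul M hM0 z.1 (x z.1 * x z.2 * x (z.1 - z.2)) (by positivity)
        have e2 := wt_mul M hM0 (z.1 - z.2) (x (z.1 - z.2) * x z.2 * x z.1)
          (by positivity)
        have e3 : ‖muz M z‖ ≤ wt M z.1 + wt M (z.1 - z.2) := by
          unfold muz
          rw [Complex.norm_real, Real.norm_eq_abs, abs_le]
          have := wt_nonneg M z.1
          have := wt_nonneg M (z.1 - z.2)
          constructor <;> linarith
        rw [norm_mul]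
        calc ‖muz M z‖ * ‖X3 P Q R z‖ ≤ (wt M z.1 + wt M (z.1 - z.2)) * ‖X3 P Q R z‖ :=
              mul_le_mul_of_nonneg_right e3 (norm_nonneg _)
          _ = wt M z.1 * ‖X3 P Q R z‖ + wt M (z.1 - z.2) * ‖X3 P Q R z‖ := by ring
          _ ≤ _ := add_le_add
            ((mul_le_mul_of_nonneg_left y1 (wt_nonneg _ _)).trans e1)
            ((mul_le_mul_of_nonneg_left y2 (wt_nonneg _ _)).trans e2)
    _ ≤ 2 * M * ((box (2 * M)).card * (√E * E)) + 2 * M * ((box (2 * M)).card * (√E * E)) := by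
        rw [Finset.sum_add_distrib, ← Finset.mul_sum, ← Finset.mul_sum]
        exact add_le_add (mul_le_mul_of_nonneg_left h1 (by positivity))
          (mul_le_mul_of_nonneg_left h2 (by positivity))
    _ = _ := by ring

theorem X3_cont {g : K → ℝ} {ν T : ℝ} {a b c : ℝ → K → C3} (ha : FSol g ν T a)
    (hb : FSol g ν T b) (hc : FSol g ν T c) (z : K × K) :
    ContinuousOn (fun s => X3 (a s) (b s) (c s) z) (Icc 0 T) := by
  unfold X3 Xt dt
  refine ContinuousOn.mul ?_ ?_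
  · exact continuousOn_finsetSum _ fun j _ => continuousOn_const.mul (ha.cont _ _)
  · exact continuousOn_finsetSum _ fun i _ => (hb.cont _ _).mul
      (Complex.continuous_conj.comp_continuousOn (hc.cont _ _))

theorem X3_sub (a b : K → C3) (z : K × K) : X3 a (a - b) (a - b) z =
    X3 a a a z - X3 a a b z - X3 a b a z + X3 a b b z := by
  simp only [X3, Xt, Pi.sub_apply, map_sub, Fin.sum_univ_three]
  ring

/-- the exchange of the time integral and the sum -/
theorem int_le {t C B : ℝ} (ht : 0 ≤ t) (Y : ℝ → K × K → ℂ)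
    (hc : ∀ z, ContinuousOn (fun s => Y s z) (Icc 0 t))
    (hfs : ∀ s ∈ Icc 0 t, ∀ S : Finset (K × K), ∑ z ∈ S, ‖Y s z‖ ≤ C)
    (hB : ∀ S : Finset (K × K), ‖∑ z ∈ S, ∫ s in (0 : ℝ)..t, Y s z‖ ≤ B) :
    |∫ s in (0 : ℝ)..t, (Real.pi * I * ∑' z : K × K, Y s z).re| ≤ Real.pi * B := by
  have hpi := Real.pi_pos
  have hsub : Ioc 0 t ⊆ Icc 0 t := Ioc_subset_Icc_self
  obtain ⟨G, hG⟩ : ∃ G : K × K → ℝ → ℝ, G = fun z s => (Real.pi * I * Y s z).re := ⟨_, rfl⟩
  have hGle : ∀ z s, |G z s| ≤ Real.pi * ‖Y s z‖ := fun z s => by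
    rw [hG]
    refine (Complex.abs_re_le_norm _).trans (le_of_eq ?_)
    rw [norm_mul, norm_mul, Complex.norm_I, mul_one, Complex.norm_real, Real.norm_eq_abs,
      abs_of_pos hpi]
  have hflux : ∀ s ∈ Icc 0 t, (Real.pi * I * ∑' z : K × K, Y s z).re = ∑' z, G z s := by
    intro s hs
    have h1 : Summable fun z => Y s z :=
      Summable.of_norm (summable_of_sum_le (fun z => norm_nonneg _) (hfs s hs))
    have h2 := Complex.reCLM.hasSum (h1.hasSum.mul_left (Real.pi * I : ℂ))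
    rw [hG]
    exact h2.tsum_eq.symm
  have hGc : ∀ z, ContinuousOn (G z) (Icc 0 t) := fun z => by
    rw [hG]
    exact Complex.continuous_re.comp_continuousOn (continuousOn_const.mul (hc z))
  have hGi : ∀ z, IntegrableOn (G z) (Ioc 0 t) := fun z =>
    ((hGc z).integrableOn_compact isCompact_Icc).mono_set hsub
  have hsum : Summable fun z => ∫ s in Ioc 0 t, ‖G z s‖ := by
    refine summable_of_sum_le (c := Real.pi * C * t)
      (fun z => integral_nonneg fun s => norm_nonneg _) fun S => ?_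
    rw [← integral_finsetSum S fun z _ => (hGi z).norm]
    have hci : IntegrableOn (fun _ : ℝ => Real.pi * C) (Ioc 0 t) :=
      (continuousOn_const.integrableOn_compact isCompact_Icc).mono_set Ioc_subset_Icc_self
    have h1 : ∫ s in Ioc 0 t, ∑ z ∈ S, ‖G z s‖ ≤ ∫ s in Ioc 0 t, Real.pi * C := by
      refine setIntegral_mono_on (integrable_finsetSum _ fun z _ => (hGi z).norm)
        hci measurableSet_Ioc fun s hs => ?_
      calc ∑ z ∈ S, ‖G z s‖ ≤ ∑ z ∈ S, Real.pi * ‖Y s z‖ :=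
            Finset.sum_le_sum fun z _ => hGle z s
        _ ≤ Real.pi * C := by
            rw [← Finset.mul_sum]
            exact mul_le_mul_of_nonneg_left (hfs s (hsub hs) S) hpi.le
    refine h1.trans (le_of_eq ?_)
    rw [setIntegral_const, Real.volume_real_Ioc, sub_zero, max_eq_left ht, smul_eq_mul]
    ring
  have hhs := hasSum_integral_of_summable_integral_norm (μ := volume.restrict (Ioc 0 t)) hGi hsum
  have hGint : ∀ z, ∫ s in Ioc 0 t, G z s =
      (Real.pi * I * ∫ s in (0 : ℝ)..t, Y s z).re := by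
    intro z
    have hXi : IntegrableOn (fun s => Y s z) (Ioc 0 t) :=
      ((hc z).integrableOn_compact isCompact_Icc).mono_set hsub
    rw [intervalIntegral.integral_of_le ht, hG, ← integral_const_mul]
    exact integral_re (hXi.const_mul _)
  have hfl : ∫ s in (0 : ℝ)..t, (Real.pi * I * ∑' z : K × K, Y s z).re =
      ∫ s in Ioc 0 t, ∑' z, G z s := by
    rw [intervalIntegral.integral_of_le ht]
    exact setIntegral_congr_fun measurableSet_Ioc fun s hs => hflux s (hsub hs)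
  rw [hfl]
  refine le_of_tendsto hhs.norm (Eventually.of_forall fun S => ?_)
  simp only [hGint]
  have e : ∑ z ∈ S, (Real.pi * I * ∫ s in (0 : ℝ)..t, Y s z).re =
      (Real.pi * I * ∑ z ∈ S, ∫ s in (0 : ℝ)..t, Y s z).re := by
    rw [Finset.mul_sum, Complex.re_sum]
  rw [e, Real.norm_eq_abs]
  refine (Complex.abs_re_le_norm _).trans ?_
  rw [norm_mul, norm_mul, Complex.norm_I, mul_one, Complex.norm_real, Real.norm_eq_abs,
    abs_of_pos hpi]
  exact mul_le_mul_of_nonneg_left (hB S) hpi.le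

theorem tail_zero {h : K → ℝ} (h0 : ∀ k, 0 ≤ h k) (hd : Summable h) :
    Tendsto (fun m : ℕ => ∑' k, tl ((m : ℝ) + 1) k * h k) atTop (𝓝 0) := by
  have h := tendsto_tsum_of_dominated_convergence (𝓕 := (atTop : Filter ℕ))
    (f := fun m k => tl ((m : ℝ) + 1) k * h k) (g := fun _ => (0 : ℝ)) hd
    (fun k => ?_) (Eventually.of_forall fun m k => ?_)
  · rw [tsum_zero] at h
    exact h
  · refine tendsto_const_nhds.congr' ?_
    have h1 : ∀ᶠ m : ℕ in atTop, 2 * kn k < (m : ℝ) :=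
      tendsto_natCast_atTop_atTop.eventually (eventually_gt_atTop _)
    filter_upwards [h1] with m hm
    have : tl ((m : ℝ) + 1) k = 0 := by
      unfold tl
      rw [if_neg]
      intro h
      linarith
    rw [this, zero_mul]
  · rw [Real.norm_eq_abs, abs_mul, abs_of_nonneg (h0 k)]
    have : |tl ((m : ℝ) + 1) k| ≤ 1 := by
      unfold tl
      split_ifs <;> simp
    exact mul_le_of_le_one_left (h0 k) this

theorem bd_zero (B : ℝ) {h : K → ℝ} (h0 : ∀ k, 0 ≤ h k) (hd : Summable h) :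
    Tendsto (fun m : ℕ => B * (√(∑' k, tl ((m : ℝ) + 1) k * h k)
      + ((m : ℝ) + 1) ^ (-(1 / 4) : ℝ))) atTop (𝓝 0) := by
  have h1 : Tendsto (fun m : ℕ => √(∑' k, tl ((m : ℝ) + 1) k * h k)) atTop (𝓝 0) := by
    have := (Real.continuous_sqrt.tendsto 0).comp (tail_zero h0 hd)
    rwa [Real.sqrt_zero] at this
  have h2 : Tendsto (fun m : ℕ => ((m : ℝ) + 1) ^ (-(1 / 4) : ℝ)) atTop (𝓝 0) :=
    (tendsto_rpow_neg_atTop (by norm_num : (0 : ℝ) < 1 / 4)).comp
      (tendsto_atTop_add_const_right _ 1 tendsto_natCast_atTop_atTop)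
  have h3 := (h1.add h2).const_mul B
  simpa using h3

theorem int4 {f1 f2 f3 f4 : ℝ → ℂ} {t : ℝ} (h1 : IntervalIntegrable f1 volume 0 t)
    (h2 : IntervalIntegrable f2 volume 0 t) (h3 : IntervalIntegrable f3 volume 0 t)
    (h4 : IntervalIntegrable f4 volume 0 t) :
    ∫ s in (0 : ℝ)..t, (f1 s - f2 s - f3 s + f4 s) =
      (∫ s in (0 : ℝ)..t, f1 s) - (∫ s in (0 : ℝ)..t, f2 s) - (∫ s in (0 : ℝ)..t, f3 s)
        + ∫ s in (0 : ℝ)..t, f4 s := by
  rw [intervalIntegral.integral_add (f := fun s => f1 s - f2 s - f3 s) (g := f4)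
      ((h1.sub h2).sub h3) h4,
    intervalIntegral.integral_sub (f := fun s => f1 s - f2 s) (g := f3) (h1.sub h2) h3,
    intervalIntegral.integral_sub h1 h2]

end J4L

open FH9 in
/-- the flux term of the difference tends to zero -/
theorem j4 (h4a : J4a) : J4 := by
  intro g ν T C a b hν hg hC hfew ha hb t ht
  have hT : 0 ≤ T := ht.1.trans ht.2
  obtain ⟨B1, hB10, hB1⟩ := h4a g ν T C a a a hν hg hC hfew ha ha ha
  obtain ⟨B2, hB20, hB2⟩ := h4a g ν T C a a b hν hg hC hfew ha ha hb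
  obtain ⟨B3, hB30, hB3⟩ := h4a g ν T C a b a hν hg hC hfew ha hb ha
  obtain ⟨B4, hB40, hB4⟩ := h4a g ν T C a b b hν hg hC hfew ha hb hb
  have da : ∀ k, 0 ≤ dd a T k := fun k =>
    intervalIntegral.integral_nonneg hT fun s _ => mul_nonneg (sq_nonneg _) (sq_nonneg _)
  have db : ∀ k, 0 ≤ dd b T k := fun k =>
    intervalIntegral.integral_nonneg hT fun s _ => mul_nonneg (sq_nonneg _) (sq_nonneg _)
  have sa : Summable fun k => dd a T k := ha.diss
  have sb : Summable fun k => dd b T k := hb.diss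
  have hsub : Icc 0 t ⊆ Icc 0 T := Icc_subset_Icc_right ht.2
  obtain ⟨Ea, hEa⟩ := ha.bdd
  obtain ⟨Eb, hEb⟩ := hb.bdd
  have hFa : ∀ s ∈ Icc 0 T, ∀ F : Finset K, ∑ k ∈ F, nm (a s k) ^ 2 ≤ Ea := fun s hs F =>
    ((hEa s hs).1.sum_le_tsum F fun k _ => sq_nonneg _).trans (hEa s hs).2
  have hFb : ∀ s ∈ Icc 0 T, ∀ F : Finset K, ∑ k ∈ F, nm (b s k) ^ 2 ≤ Eb := fun s hs F =>
    ((hEb s hs).1.sum_le_tsum F fun k _ => sq_nonneg _).trans (hEb s hs).2
  have hx : ∀ s ∈ Icc 0 T, ∀ F : Finset K,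
      ∑ k ∈ F, (nm (a s k) + nm ((a s - b s) k)) ^ 2 ≤ 6 * Ea + 4 * Eb := by
    intro s hs F
    calc ∑ k ∈ F, (nm (a s k) + nm ((a s - b s) k)) ^ 2
        ≤ ∑ k ∈ F, (6 * nm (a s k) ^ 2 + 4 * nm (b s k) ^ 2) := by
          refine Finset.sum_le_sum fun k _ => ?_
          have h1 := J4L.nm_sub_sq (a s k) (b s k)
          have h2 : (a s - b s) k = a s k - b s k := rfl
          rw [h2]
          nlinarith [sq_nonneg (nm (a s k) - nm (a s k - b s k))]
      _ = 6 * ∑ k ∈ F, nm (a s k) ^ 2 + 4 * ∑ k ∈ F, nm (b s k) ^ 2 := by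
          rw [Finset.sum_add_distrib, Finset.mul_sum, Finset.mul_sum]
      _ ≤ 6 * Ea + 4 * Eb := by
          have h1 := hFa s hs F
          have h2 := hFb s hs F
          linarith
  have caaa := J4L.X3_cont ha ha ha
  have caab := J4L.X3_cont ha ha hb
  have caba := J4L.X3_cont ha hb ha
  have cabb := J4L.X3_cont ha hb hb
  have ii : ∀ {f : ℝ → ℂ}, ContinuousOn f (Icc 0 T) → IntervalIntegrable f volume 0 t := by
    intro f hf
    refine ContinuousOn.intervalIntegrable ?_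
    rw [uIcc_of_le ht.1]
    exact hf.mono hsub
  have key : ∀ m : ℕ, ‖∫ s in (0 : ℝ)..t, (Real.pi * I * ∑' z : K × K,
      ((wt ((m : ℝ) + 1) z.1 - wt ((m : ℝ) + 1) (z.1 - z.2) : ℝ) : ℂ)
        * X3 (a s) (a s - b s) (a s - b s) z).re‖ ≤ Real.pi *
      (B1 * (√(∑' k, tl ((m : ℝ) + 1) k * (dd a T k + dd a T k + dd a T k))
          + ((m : ℝ) + 1) ^ (-(1 / 4) : ℝ))
        + B2 * (√(∑' k, tl ((m : ℝ) + 1) k * (dd a T k + dd a T k + dd b T k))
          + ((m : ℝ) + 1) ^ (-(1 / 4) : ℝ))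
        + B3 * (√(∑' k, tl ((m : ℝ) + 1) k * (dd a T k + dd b T k + dd a T k))
          + ((m : ℝ) + 1) ^ (-(1 / 4) : ℝ))
        + B4 * (√(∑' k, tl ((m : ℝ) + 1) k * (dd a T k + dd b T k + dd b T k))
          + ((m : ℝ) + 1) ^ (-(1 / 4) : ℝ))) := fun m => by
    have hm : (1 : ℝ) ≤ (m : ℝ) + 1 := by
      have : (0 : ℝ) ≤ m := Nat.cast_nonneg m
      linarith
    rw [Real.norm_eq_abs]
    refine J4L.int_le ht.1 (fun s z => ((wt ((m : ℝ) + 1) z.1 - wt ((m : ℝ) + 1) (z.1 - z.2) : ℝ) : ℂ)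
        * X3 (a s) (a s - b s) (a s - b s) z) ?_
      (C := 4 * ((m : ℝ) + 1) * ((box (2 * ((m : ℝ) + 1))).card *
        (√(6 * Ea + 4 * Eb) * (6 * Ea + 4 * Eb)))) ?_ ?_
    · intro z
      refine continuousOn_const.mul ?_
      simp only [J4L.X3_sub]
      exact ((((caaa z).sub (caab z)).sub (caba z)).add (cabb z)).mono hsub
    · intro s hs S
      exact J4L.flux_sum_le hm (ha.div s (hsub hs)) (x := fun k => nm (a s k) + nm ((a s - b s) k))
        (fun k => le_add_of_nonneg_right (nm_nonneg _))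
        (fun k => le_add_of_nonneg_left (nm_nonneg _))
        (fun k => le_add_of_nonneg_left (nm_nonneg _)) (hx s (hsub hs)) S
    · intro S
      have e : ∑ z ∈ S, (∫ s in (0 : ℝ)..t,
          ((wt ((m : ℝ) + 1) z.1 - wt ((m : ℝ) + 1) (z.1 - z.2) : ℝ) : ℂ)
            * X3 (a s) (a s - b s) (a s - b s) z) =
          (∑ z ∈ S, ((wt ((m : ℝ) + 1) z.1 - wt ((m : ℝ) + 1) (z.1 - z.2) : ℝ) : ℂ)
            * ∫ s in (0 : ℝ)..t, X3 (a s) (a s) (a s) z)
          - (∑ z ∈ S, ((wt ((m : ℝ) + 1) z.1 - wt ((m : ℝ) + 1) (z.1 - z.2) : ℝ) : ℂ)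
            * ∫ s in (0 : ℝ)..t, X3 (a s) (a s) (b s) z)
          - (∑ z ∈ S, ((wt ((m : ℝ) + 1) z.1 - wt ((m : ℝ) + 1) (z.1 - z.2) : ℝ) : ℂ)
            * ∫ s in (0 : ℝ)..t, X3 (a s) (b s) (a s) z)
          + ∑ z ∈ S, ((wt ((m : ℝ) + 1) z.1 - wt ((m : ℝ) + 1) (z.1 - z.2) : ℝ) : ℂ)
            * ∫ s in (0 : ℝ)..t, X3 (a s) (b s) (b s) z := by
        rw [← Finset.sum_sub_distrib, ← Finset.sum_sub_distrib, ← Finset.sum_add_distrib]
        refine Finset.sum_congr rfl fun z _ => ?_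
        rw [intervalIntegral.integral_const_mul]
        simp only [J4L.X3_sub]
        rw [J4L.int4 (ii (caaa z)) (ii (caab z)) (ii (caba z)) (ii (cabb z))]
        ring
      rw [e]
      refine (norm_add_le _ _).trans (add_le_add ((norm_sub_le _ _).trans (add_le_add
        ((norm_sub_le _ _).trans (add_le_add (hB1 _ hm t ht S) (hB2 _ hm t ht S)))
          (hB3 _ hm t ht S))) (hB4 _ hm t ht S))
  refine squeeze_zero_norm key ?_
  have z1 := J4L.bd_zero B1 (h := fun k => dd a T k + dd a T k + dd a T k)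
    (fun k => add_nonneg (add_nonneg (da k) (da k)) (da k)) ((sa.add sa).add sa)
  have z2 := J4L.bd_zero B2 (h := fun k => dd a T k + dd a T k + dd b T k)
    (fun k => add_nonneg (add_nonneg (da k) (da k)) (db k)) ((sa.add sa).add sb)
  have z3 := J4L.bd_zero B3 (h := fun k => dd a T k + dd b T k + dd a T k)
    (fun k => add_nonneg (add_nonneg (da k) (db k)) (da k)) ((sa.add sb).add sa)
  have z4 := J4L.bd_zero B4 (h := fun k => dd a T k + dd b T k + dd b T k)
    (fun k => add_nonneg (add_nonneg (da k) (db k)) (db k)) ((sa.add sb).add sb)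
  have h3 := (((z1.add z2).add z3).add z4).const_mul Real.pi
  simpa using h3

end Pool.Agent.H303.DEE.F
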