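import Pool.Agent.H303.DEE.Stm7
import Pool.Agent.H303.DEE.FH9a

/-!
Project DEE-J (helper303), part J4a: the time integrals for finitely many triads, three solutions.
-/

set_option autoImplicit false

open MeasureTheory Set Filter Topology Complex
open scoped ContDiff ENNReal

namespace Pool.Agent.H303.DEE.F

namespace J4aL

open H9aL (nm_nonneg kn_nonneg mn_nonneg nm_sq cs_time nm_cont nm_neg dd_nonneg)

/-- the majorant of three fields -/
noncomputable def ym (U V W : K → C3) (k : K) : ℝ :=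
  √(nm (U k) ^ 2 + nm (V k) ^ 2 + nm (W k) ^ 2)

theorem ym_nonneg (U V W : K → C3) (k : K) : 0 ≤ ym U V W k := Real.sqrt_nonneg _

theorem ym_sq (U V W : K → C3) (k : K) :
    ym U V W k ^ 2 = nm (U k) ^ 2 + nm (V k) ^ 2 + nm (W k) ^ 2 :=
  Real.sq_sqrt (add_nonneg (add_nonneg (sq_nonneg _) (sq_nonneg _)) (sq_nonneg _))

theorem le1 (U V W : K → C3) (k : K) : nm (U k) ≤ ym U V W k := by
  refine Real.le_sqrt_of_sq_le ?_
  have h1 := sq_nonneg (nm (V k))
  have h2 := sq_nonneg (nm (W k))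
  linarith

theorem le2 (U V W : K → C3) (k : K) : nm (V k) ≤ ym U V W k := by
  refine Real.le_sqrt_of_sq_le ?_
  have h1 := sq_nonneg (nm (U k))
  have h2 := sq_nonneg (nm (W k))
  linarith

theorem le3 (U V W : K → C3) (k : K) : nm (W k) ≤ ym U V W k := by
  refine Real.le_sqrt_of_sq_le ?_
  have h1 := sq_nonneg (nm (U k))
  have h2 := sq_nonneg (nm (V k))
  linarith

/-- the lengths, cut off to a finite set -/
noncomputable def xs (F : Finset K) (y : K → ℝ) (k : K) : ℝ := if k ∈ F then y k else 0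

theorem xs_nonneg (F : Finset K) {y : K → ℝ} (hy : ∀ k, 0 ≤ y k) (k : K) : 0 ≤ xs F y k := by
  unfold xs
  split_ifs
  · exact hy k
  · exact le_rfl

theorem xs_le (F : Finset K) {y : K → ℝ} (hy : ∀ k, 0 ≤ y k) (k : K) : xs F y k ≤ y k := by
  unfold xs
  split_ifs
  · exact le_rfl
  · exact hy k

theorem xs_mem {F : Finset K} {y : K → ℝ} {k : K} (h : k ∈ F) : xs F y k = y k := if_pos h

/-- the dissipation density -/
noncomputable def Gs (F : Finset K) (y : K → ℝ) : ℝ := ∑ k ∈ F, kn k ^ 2 * y k ^ 2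

theorem Gs_nonneg (F : Finset K) (y : K → ℝ) : 0 ≤ Gs F y :=
  Finset.sum_nonneg fun _ _ => mul_nonneg (sq_nonneg _) (sq_nonneg _)

theorem sum_E {y : K → ℝ} (hy : ∀ k, 0 ≤ y k) {E : ℝ} (h1 : Summable fun k => y k ^ 2)
    (h2 : ∑' k, y k ^ 2 ≤ E) (F F' : Finset K) : ∑ k ∈ F', xs F y k ^ 2 ≤ E := by
  calc ∑ k ∈ F', xs F y k ^ 2 ≤ ∑ k ∈ F', y k ^ 2 :=
        Finset.sum_le_sum fun k _ => pow_le_pow_left₀ (xs_nonneg _ hy _) (xs_le _ hy _) 2
    _ ≤ ∑' k, y k ^ 2 := h1.sum_le_tsum _ fun _ _ => sq_nonneg _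
    _ ≤ E := h2

theorem sum_G (F : Finset K) (P : K → Prop) [DecidablePred P] (y : K → ℝ) (F' : Finset K)
    (h : ∀ k ∈ F', P k) :
    ∑ k ∈ F', kn k ^ 2 * xs F y k ^ 2 ≤ Gs (F.filter P) y := by
  have h1 : ∑ k ∈ F', kn k ^ 2 * xs F y k ^ 2 =
      ∑ k ∈ F' ∩ F, kn k ^ 2 * y k ^ 2 := by
    rw [← Finset.filter_mem_eq_inter, Finset.sum_filter]
    refine Finset.sum_congr rfl fun k _ => ?_
    unfold xs
    split_ifs
    · rfl
    · ring
  rw [h1]
  refine Finset.sum_le_sum_of_subset_of_nonneg ?_ fun _ _ _ =>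
    mul_nonneg (sq_nonneg _) (sq_nonneg _)
  intro k hk
  rw [Finset.mem_inter] at hk
  exact Finset.mem_filter.2 ⟨hk.2, h k hk.1⟩

theorem sum_G' (F : Finset K) (y : K → ℝ) (F' : Finset K) :
    ∑ k ∈ F', kn k ^ 2 * xs F y k ^ 2 ≤ Gs F y := by
  have := sum_G F (fun _ => True) y F' (fun _ _ => trivial)
  rwa [Finset.filter_true_of_mem (fun _ _ => trivial)] at this

/-- the bound of the trilinear expression -/
theorem X_bound (h5 : H5) {M : ℝ} (hM : 1 ≤ M) (U V W : K → C3) (hdiv : ∀ k, dt k (U k) = 0)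
    (z : K × K) : |wt M z.1 - wt M (z.1 - z.2)| * ‖X3 U V W z‖ ≤
      2 * (mn z * (ym U V W z.1 * ym U V W z.2 * ym U V W (z.1 - z.2))) := by
  have h := (h5 M z (U z.2) (V (z.1 - z.2)) (W z.1) hM (hdiv _)).1
  have hmn := mn_nonneg z
  have a1 := nm_nonneg (W z.1)
  have a2 := nm_nonneg (U z.2)
  have a3 := nm_nonneg (V (z.1 - z.2))
  have b1 := ym_nonneg U V W z.1
  have b2 := ym_nonneg U V W z.2
  have b3 := ym_nonneg U V W (z.1 - z.2)
  have h' : 2 * mn z * (nm (U z.2) * nm (V (z.1 - z.2)) * nm (W z.1)) ≤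
      2 * mn z * (ym U V W z.2 * ym U V W (z.1 - z.2) * ym U V W z.1) := by
    gcongr
    · exact le1 U V W _
    · exact le2 U V W _
    · exact le3 U V W _
  unfold X3
  refine (h.trans h').trans (le_of_eq ?_)
  ring

/-- the bound of the quartic expression -/
theorem Q_bound (h4 : H4) (h5 : H5) {M : ℝ} (hM : 1 ≤ M) (U V W : K → C3) {E : ℝ}
    (hU : Summable (fun k => nm (U k) ^ 2) ∧ ∑' k, nm (U k) ^ 2 ≤ E)
    (hV : Summable (fun k => nm (V k) ^ 2) ∧ ∑' k, nm (V k) ^ 2 ≤ E)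
    (hW : Summable (fun k => nm (W k) ^ 2) ∧ ∑' k, nm (W k) ^ 2 ≤ E)
    (hdiv : ∀ k, dt k (U k) = 0)
    (z : K × K) : |wt M z.1 - wt M (z.1 - z.2)| * ‖Q3 U V W z‖ ≤
      40 * E * (mn z * (kn z.2 * (ym U V W (z.1 - z.2) * ym U V W z.1)
        + kn (z.1 - z.2) * (ym U V W z.2 * ym U V W z.1)
        + kn z.1 * (ym U V W z.2 * ym U V W (z.1 - z.2)))) := by
  have hE0 : 0 ≤ E := le_trans (tsum_nonneg fun _ => sq_nonneg _) hU.2
  have hNU := h4 U E hU.1 hU.2
  have hNV := h4 V E hV.1 hV.2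
  have hNW := h4 W E hW.1 hW.2
  have h1 := (h5 M z (Nl U z.2) (V (z.1 - z.2)) (W z.1) hM (hNU _).2).1
  have h2 := (h5 M z (U z.2) (Nl V (z.1 - z.2)) (W z.1) hM (hdiv _)).1
  have h3 := (h5 M z (U z.2) (V (z.1 - z.2)) (Nl W z.1) hM (hdiv _)).1
  have hmn := mn_nonneg z
  have a1 := nm_nonneg (W z.1)
  have a2 := nm_nonneg (U z.2)
  have a3 := nm_nonneg (V (z.1 - z.2))
  have c1 := nm_nonneg (Nl W z.1)
  have c2 := nm_nonneg (Nl U z.2)
  have c3 := nm_nonneg (Nl V (z.1 - z.2))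
  have d1 := ym_nonneg U V W z.1
  have d2 := ym_nonneg U V W z.2
  have d3 := ym_nonneg U V W (z.1 - z.2)
  have k1 := kn_nonneg z.1
  have k2 := kn_nonneg z.2
  have k3 := kn_nonneg (z.1 - z.2)
  have b1 : 2 * mn z * (nm (Nl U z.2) * nm (V (z.1 - z.2)) * nm (W z.1)) ≤
      2 * mn z * ((20 * kn z.2 * E) * ym U V W (z.1 - z.2) * ym U V W z.1) := by
    gcongr
    · exact (hNU _).1
    · exact le2 U V W _
    · exact le3 U V W _
  have b2 : 2 * mn z * (nm (U z.2) * nm (Nl V (z.1 - z.2)) * nm (W z.1)) ≤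
      2 * mn z * (ym U V W z.2 * (20 * kn (z.1 - z.2) * E) * ym U V W z.1) := by
    gcongr
    · exact le1 U V W _
    · exact (hNV _).1
    · exact le3 U V W _
  have b3 : 2 * mn z * (nm (U z.2) * nm (V (z.1 - z.2)) * nm (Nl W z.1)) ≤
      2 * mn z * (ym U V W z.2 * ym U V W (z.1 - z.2) * (20 * kn z.1 * E)) := by
    gcongr
    · exact le1 U V W _
    · exact le2 U V W _
    · exact (hNW _).1
  have hab : |wt M z.1 - wt M (z.1 - z.2)| * ‖Q3 U V W z‖ ≤
      |wt M z.1 - wt M (z.1 - z.2)| * ‖Xt z.1 (Nl U z.2) (V (z.1 - z.2)) (W z.1)‖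
      + |wt M z.1 - wt M (z.1 - z.2)| * ‖Xt z.1 (U z.2) (Nl V (z.1 - z.2)) (W z.1)‖
      + |wt M z.1 - wt M (z.1 - z.2)| * ‖Xt z.1 (U z.2) (V (z.1 - z.2)) (Nl W z.1)‖ := by
    rw [← mul_add, ← mul_add]
    refine mul_le_mul_of_nonneg_left ?_ (abs_nonneg _)
    unfold Q3
    refine (norm_add_le _ _).trans ?_
    gcongr
    exact norm_add_le _ _
  refine hab.trans (((add_le_add (add_le_add (h1.trans b1) (h2.trans b2)) (h3.trans b3))).trans
    (le_of_eq ?_))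
  ring

section cont
variable {g : K → ℝ} {ν T : ℝ} {a b c : ℝ → K → C3}

/-- the majorant in time -/
noncomputable def yt (a b c : ℝ → K → C3) (s : ℝ) : K → ℝ := ym (a s) (b s) (c s)

/-- the total dissipation of one coefficient -/
noncomputable def d3 (a b c : ℝ → K → C3) (T : ℝ) (k : K) : ℝ := dd a T k + dd b T k + dd c T k

theorem yt_nonneg (a b c : ℝ → K → C3) (s : ℝ) (k : K) : 0 ≤ yt a b c s k := ym_nonneg _ _ _ _

theorem yt_cont (ha : FSol g ν T a) (hb : FSol g ν T b) (hc : FSol g ν T c) (k : K) :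
    ContinuousOn (fun s => yt a b c s k) (Icc 0 T) := by
  unfold yt ym
  exact ((((nm_cont ha k).pow 2).add ((nm_cont hb k).pow 2)).add ((nm_cont hc k).pow 2)).sqrt

theorem Gs_cont (ha : FSol g ν T a) (hb : FSol g ν T b) (hc : FSol g ν T c) (F : Finset K) :
    ContinuousOn (fun s => Gs F (yt a b c s)) (Icc 0 T) := by
  unfold Gs
  exact continuousOn_finsetSum _ fun k _ => continuousOn_const.mul ((yt_cont ha hb hc k).pow 2)

theorem xs_cont (ha : FSol g ν T a) (hb : FSol g ν T b) (hc : FSol g ν T c) (F : Finset K)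
    (k : K) : ContinuousOn (fun s => xs F (yt a b c s) k) (Icc 0 T) := by
  unfold xs
  by_cases h : k ∈ F
  · simp only [if_pos h]
    exact yt_cont ha hb hc k
  · simp only [if_neg h]
    exact continuousOn_const

theorem X_cont (ha : FSol g ν T a) (hb : FSol g ν T b) (hc : FSol g ν T c) (z : K × K) :
    ContinuousOn (fun s => X3 (a s) (b s) (c s) z) (Icc 0 T) := by
  unfold X3 Xt dt
  refine ContinuousOn.mul ?_ ?_
  · exact continuousOn_finsetSum _ fun j _ => continuousOn_const.mul (ha.cont _ j)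
  · exact continuousOn_finsetSum _ fun i _ => (hb.cont _ i).mul
      (Complex.continuous_conj.comp_continuousOn (hc.cont _ i))

theorem yt_neg (ha : FSol g ν T a) (hb : FSol g ν T b) (hc : FSol g ν T c) {s : ℝ}
    (hs : s ∈ Icc 0 T) (k : K) : yt a b c s (-k) = yt a b c s k := by
  unfold yt ym
  rw [nm_neg ha hs, nm_neg hb hs, nm_neg hc hs]

/-- the time integral of the dissipation -/
theorem int_Gs (ha : FSol g ν T a) (hb : FSol g ν T b) (hc : FSol g ν T c) (F : Finset K)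
    (hT : 0 ≤ T) : ∫ s in (0 : ℝ)..T, Gs F (yt a b c s) = ∑ k ∈ F, d3 a b c T k := by
  unfold Gs d3
  refine Eq.trans (intervalIntegral.integral_finsetSum fun k _ =>
    (continuousOn_const.mul ((yt_cont ha hb hc k).pow 2)).intervalIntegrable_of_Icc hT) ?_
  refine Finset.sum_congr rfl fun k _ => ?_
  have hi : ∀ {u : ℝ → K → C3}, FSol g ν T u →
      IntervalIntegrable (fun s => kn k ^ 2 * nm (u s k) ^ 2) volume 0 T := fun hu =>
    (continuousOn_const.mul ((nm_cont hu k).pow 2)).intervalIntegrable_of_Icc hT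
  unfold dd
  rw [← intervalIntegral.integral_add (hi ha) (hi hb),
    ← intervalIntegral.integral_add ((hi ha).add (hi hb)) (hi hc)]
  refine intervalIntegral.integral_congr fun s _ => ?_
  have := ym_sq (a s) (b s) (c s) k
  simp only [yt, this]
  ring

theorem d3_nonneg (a b c : ℝ → K → C3) {T : ℝ} (hT : 0 ≤ T) (k : K) : 0 ≤ d3 a b c T k :=
  add_nonneg (add_nonneg (dd_nonneg a hT k) (dd_nonneg b hT k)) (dd_nonneg c hT k)

theorem int_mono (ha : FSol g ν T a) (hb : FSol g ν T b) (hc : FSol g ν T c) (F : Finset K)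
    {t : ℝ} (ht : t ∈ Icc 0 T) :
    ∫ s in (0 : ℝ)..t, Gs F (yt a b c s) ≤ ∫ s in (0 : ℝ)..T, Gs F (yt a b c s) := by
  refine intervalIntegral.integral_mono_interval le_rfl ht.1 ht.2 ?_
    ((Gs_cont ha hb hc F).intervalIntegrable_of_Icc (ht.1.trans ht.2))
  exact Filter.Eventually.of_forall fun s => Gs_nonneg F (yt a b c s)

/-- the time integral of the product of the two densities -/
theorem int_GG (ha : FSol g ν T a) (hb : FSol g ν T b) (hc : FSol g ν T c) (F : Finset K) (M : ℝ) [DecidablePred fun k => M / 2 ≤ kn k]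
    {t : ℝ} (ht : t ∈ Icc 0 T) :
    ∫ s in (0 : ℝ)..t, √(Gs F (yt a b c s)) * √(Gs (F.filter fun k => M / 2 ≤ kn k) (yt a b c s)) ≤
      √(∑' k, d3 a b c T k) * √(∑' k, tl M k * d3 a b c T k) := by
  have hT : 0 ≤ T := ht.1.trans ht.2
  have hsub : Icc 0 t ⊆ Icc 0 T := Icc_subset_Icc le_rfl ht.2
  have hsum : Summable fun k => d3 a b c T k := (ha.diss.add hb.diss).add hc.diss
  have hsum2 : Summable fun k => tl M k * d3 a b c T k := by
    refine Summable.of_nonneg_of_le (fun k => ?_) (fun k => ?_) hsum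
    · refine mul_nonneg ?_ (d3_nonneg a b c hT k)
      unfold tl
      split_ifs <;> norm_num
    · refine mul_le_of_le_one_left (d3_nonneg a b c hT k) ?_
      unfold tl
      split_ifs <;> norm_num
  have h1 := cs_time ht.1 ((Gs_cont ha hb hc F).mono hsub)
    ((Gs_cont ha hb hc (F.filter fun k => M / 2 ≤ kn k)).mono hsub) (fun s _ => Gs_nonneg _ _)
    (fun s _ => Gs_nonneg _ _)
  refine h1.trans (mul_le_mul (Real.sqrt_le_sqrt ?_) (Real.sqrt_le_sqrt ?_) (Real.sqrt_nonneg _)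
    (Real.sqrt_nonneg _))
  · refine (int_mono ha hb hc F ht).trans ?_
    rw [int_Gs ha hb hc F hT]
    exact hsum.sum_le_tsum _ fun k _ => d3_nonneg a b c hT k
  · refine (int_mono ha hb hc _ ht).trans ?_
    rw [int_Gs ha hb hc _ hT]
    have h2 : ∑ k ∈ F.filter (fun k => M / 2 ≤ kn k), d3 a b c T k =
        ∑ k ∈ F.filter (fun k => M / 2 ≤ kn k), tl M k * d3 a b c T k := by
      refine Finset.sum_congr rfl fun k hk => ?_
      unfold tl
      rw [if_pos (Finset.mem_filter.1 hk).2, one_mul]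
    rw [h2]
    refine hsum2.sum_le_tsum _ fun k _ => mul_nonneg ?_ (d3_nonneg a b c hT k)
    unfold tl
    split_ifs <;> norm_num

/-- the product of the three lengths -/
noncomputable def tp (F : Finset K) (y : K → ℝ) (z : K × K) : ℝ :=
  xs F y z.1 * xs F y z.2 * xs F y (z.1 - z.2)

/-- the sum in the quartic bound -/
noncomputable def qp (F : Finset K) (y : K → ℝ) (z : K × K) : ℝ :=
  kn z.2 * (xs F y (z.1 - z.2) * xs F y z.1) + kn (z.1 - z.2) * (xs F y z.2 * xs F y z.1)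
    + kn z.1 * (xs F y z.2 * xs F y (z.1 - z.2))

theorem tp_cont (ha : FSol g ν T a) (hb : FSol g ν T b) (hc : FSol g ν T c) (F : Finset K) (z : K × K) :
    ContinuousOn (fun s => tp F (yt a b c s) z) (Icc 0 T) :=
  ((xs_cont ha hb hc F _).mul (xs_cont ha hb hc F _)).mul (xs_cont ha hb hc F _)

theorem qp_cont (ha : FSol g ν T a) (hb : FSol g ν T b) (hc : FSol g ν T c) (F : Finset K) (z : K × K) :
    ContinuousOn (fun s => qp F (yt a b c s) z) (Icc 0 T) :=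
  ((continuousOn_const.mul ((xs_cont ha hb hc F _).mul (xs_cont ha hb hc F _))).add
    (continuousOn_const.mul ((xs_cont ha hb hc F _).mul (xs_cont ha hb hc F _)))).add
    (continuousOn_const.mul ((xs_cont ha hb hc F _).mul (xs_cont ha hb hc F _)))

/-- near resonant triads -/
theorem near (h5 : H5) (ha : FSol g ν T a) (hb : FSol g ν T b) (hc : FSol g ν T c) {M : ℝ} (hM : 1 ≤ M) {t : ℝ} (ht : t ∈ Icc 0 T)
    {F : Finset K} {z : K × K} (h1 : z.1 ∈ F) (h2 : z.2 ∈ F) (h3 : z.1 - z.2 ∈ F) :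
    ‖((wt M z.1 - wt M (z.1 - z.2) : ℝ) : ℂ) * ∫ s in (0 : ℝ)..t, X3 (a s) (b s) (c s) z‖ ≤
      ∫ s in (0 : ℝ)..t, 2 * (mn z * tp F (yt a b c s) z) := by
  have hsub : Icc 0 t ⊆ Icc 0 T := Icc_subset_Icc le_rfl ht.2
  rw [← intervalIntegral.integral_const_mul]
  refine intervalIntegral.norm_integral_le_of_norm_le ht.1 ?_ ?_
  · refine Filter.Eventually.of_forall fun s hs => ?_
    have hs' : s ∈ Icc 0 T := hsub ⟨hs.1.le, hs.2⟩
    rw [norm_mul, Complex.norm_real, Real.norm_eq_abs]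
    have := X_bound h5 hM (a s) (b s) (c s) (ha.div s hs') z
    unfold tp
    rw [xs_mem h1, xs_mem h2, xs_mem h3]
    exact this
  · exact (continuousOn_const.mul (continuousOn_const.mul ((tp_cont ha hb hc F z).mono
      hsub))).intervalIntegrable_of_Icc ht.1

/-- triads which are not near resonant -/
theorem far (h3' : J3) (h4 : H4) (h5 : H5) (ha : FSol g ν T a) (hb : FSol g ν T b) (hc : FSol g ν T c) {E : ℝ}
    (hE : ∀ s ∈ Icc 0 T, (Summable (fun k => nm (a s k) ^ 2) ∧ ∑' k, nm (a s k) ^ 2 ≤ E) ∧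
      (Summable (fun k => nm (b s k) ^ 2) ∧ ∑' k, nm (b s k) ^ 2 ≤ E) ∧
      (Summable (fun k => nm (c s k) ^ 2) ∧ ∑' k, nm (c s k) ^ 2 ≤ E))
    {M : ℝ} (hM : 1 ≤ M) {t : ℝ} (ht : t ∈ Icc 0 T)
    {F : Finset K} {z : K × K} (h1 : z.1 ∈ F) (h2 : z.2 ∈ F) (h3 : z.1 - z.2 ∈ F)
    (hmx : M < mx z) (hom : mx z ^ 3 < |om g z|) :
    ‖((wt M z.1 - wt M (z.1 - z.2) : ℝ) : ℂ) * ∫ s in (0 : ℝ)..t, X3 (a s) (b s) (c s) z‖ ≤
      2 * (mn z / mx z ^ 3 * tp F (yt a b c t) z) + 2 * (mn z / mx z ^ 3 * tp F (yt a b c 0) z)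
        + ∫ s in (0 : ℝ)..t, 40 * E * (mn z / mx z ^ 3 * qp F (yt a b c s) z) := by
  have hT : 0 ≤ T := ht.1.trans ht.2
  have hsub : Icc 0 t ⊆ Icc 0 T := Icc_subset_Icc le_rfl ht.2
  have h0 : (0 : ℝ) ∈ Icc 0 T := ⟨le_rfl, hT⟩
  have hmx0 : 0 < mx z := by linarith
  have hmx3 : 0 < mx z ^ 3 := by positivity
  obtain ⟨hQ, heq⟩ := h3' g ν T a b c ha hb hc z
  have iX : IntervalIntegrable (fun s => X3 (a s) (b s) (c s) z) volume 0 t :=
    ((X_cont ha hb hc z).mono hsub).intervalIntegrable_of_Icc ht.1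
  have iQ : IntervalIntegrable (fun s => Q3 (a s) (b s) (c s) z) volume 0 t :=
    (intervalIntegrable_iff_integrableOn_Icc_of_le ht.1).2 (hQ.mono_set hsub)
  have e1 := heq t ht
  rw [intervalIntegral.integral_sub (iX.const_mul _) iQ,
    intervalIntegral.integral_const_mul] at e1
  set mu : ℝ := wt M z.1 - wt M (z.1 - z.2) with hmu
  set J := ∫ s in (0 : ℝ)..t, X3 (a s) (b s) (c s) z with hJ
  set R := ∫ s in (0 : ℝ)..t, Q3 (a s) (b s) (c s) z with hR
  have e2 : Zd g ν z * J = X3 (a 0) (b 0) (c 0) z - X3 (a t) (b t) (c t) z - R := by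
    linear_combination e1
  have hZ : |om g z| ≤ ‖Zd g ν z‖ := by
    have h := Complex.abs_im_le_norm (Zd g ν z)
    have him : (Zd g ν z).im = om g z := by
      unfold Zd
      rw [Complex.add_im, Complex.ofReal_im, Complex.I_mul_im, Complex.ofReal_re, zero_add]
    rwa [him] at h
  have hZ' : mx z ^ 3 < ‖Zd g ν z‖ := hom.trans_le hZ
  have hXb : ∀ s ∈ Icc 0 T, |mu| * ‖X3 (a s) (b s) (c s) z‖ ≤ 2 * (mn z * tp F (yt a b c s) z) := by
    intro s hs
    have := X_bound h5 hM (a s) (b s) (c s) (ha.div s hs) z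
    unfold tp
    rw [xs_mem h1, xs_mem h2, xs_mem h3]
    exact this
  have hQb : ∀ s ∈ Icc 0 T, |mu| * ‖Q3 (a s) (b s) (c s) z‖ ≤ 40 * E * (mn z * qp F (yt a b c s) z) := by
    intro s hs
    have := Q_bound h4 h5 hM (a s) (b s) (c s) (hE s hs).1 (hE s hs).2.1 (hE s hs).2.2 (ha.div s hs) z
    unfold qp
    rw [xs_mem h1, xs_mem h2, xs_mem h3]
    exact this
  have hRb : |mu| * ‖R‖ ≤ ∫ s in (0 : ℝ)..t, 40 * E * (mn z * qp F (yt a b c s) z) := by
    have h6 : |mu| * ‖R‖ = ‖∫ s in (0 : ℝ)..t, (mu : ℂ) * Q3 (a s) (b s) (c s) z‖ := by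
      rw [intervalIntegral.integral_const_mul, norm_mul, Complex.norm_real, Real.norm_eq_abs]
    rw [h6]
    refine intervalIntegral.norm_integral_le_of_norm_le ht.1 ?_ ?_
    · refine Filter.Eventually.of_forall fun s hs => ?_
      rw [norm_mul, Complex.norm_real, Real.norm_eq_abs]
      exact hQb s (hsub ⟨hs.1.le, hs.2⟩)
    · exact (continuousOn_const.mul (continuousOn_const.mul ((qp_cont ha hb hc F z).mono
        hsub))).intervalIntegrable_of_Icc ht.1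
  have h7 : mx z ^ 3 * (|mu| * ‖J‖) ≤ 2 * (mn z * tp F (yt a b c t) z) + 2 * (mn z * tp F (yt a b c 0) z)
      + ∫ s in (0 : ℝ)..t, 40 * E * (mn z * qp F (yt a b c s) z) := by
    have h8 : mx z ^ 3 * (|mu| * ‖J‖) ≤ |mu| * ‖Zd g ν z * J‖ := by
      rw [norm_mul]
      have : mx z ^ 3 * (|mu| * ‖J‖) ≤ ‖Zd g ν z‖ * (|mu| * ‖J‖) :=
        mul_le_mul_of_nonneg_right hZ'.le (mul_nonneg (abs_nonneg _) (norm_nonneg _))
      linarith
    rw [e2] at h8
    have h9 : ‖X3 (a 0) (b 0) (c 0) z - X3 (a t) (b t) (c t) z - R‖ ≤ ‖X3 (a 0) (b 0) (c 0) z‖ + ‖X3 (a t) (b t) (c t) z‖ + ‖R‖ :=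
      (norm_sub_le _ _).trans (add_le_add (norm_sub_le _ _) le_rfl)
    have h10 : |mu| * ‖X3 (a 0) (b 0) (c 0) z - X3 (a t) (b t) (c t) z - R‖ ≤
        |mu| * ‖X3 (a 0) (b 0) (c 0) z‖ + |mu| * ‖X3 (a t) (b t) (c t) z‖ + |mu| * ‖R‖ := by
      have := mul_le_mul_of_nonneg_left h9 (abs_nonneg mu)
      linarith
    linarith [hXb 0 h0, hXb t ht, hRb]
  rw [norm_mul, Complex.norm_real, Real.norm_eq_abs]
  have h11 : ∫ s in (0 : ℝ)..t, 40 * E * (mn z / mx z ^ 3 * qp F (yt a b c s) z) =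
      (∫ s in (0 : ℝ)..t, 40 * E * (mn z * qp F (yt a b c s) z)) / mx z ^ 3 := by
    rw [← intervalIntegral.integral_div]
    refine intervalIntegral.integral_congr fun s _ => ?_
    ring
  rw [h11]
  have h12 : 2 * (mn z / mx z ^ 3 * tp F (yt a b c t) z) + 2 * (mn z / mx z ^ 3 * tp F (yt a b c 0) z)
      + (∫ s in (0 : ℝ)..t, 40 * E * (mn z * qp F (yt a b c s) z)) / mx z ^ 3 =
      (2 * (mn z * tp F (yt a b c t) z) + 2 * (mn z * tp F (yt a b c 0) z)
      + ∫ s in (0 : ℝ)..t, 40 * E * (mn z * qp F (yt a b c s) z)) / mx z ^ 3 := by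
    ring
  rw [h12, le_div_iff₀ hmx3]
  linarith

/-- triads without contribution -/
theorem zero_of (h5 : H5) (ha : FSol g ν T a) (hb : FSol g ν T b) (hc : FSol g ν T c) {M : ℝ} (hM : 1 ≤ M) {t : ℝ} (ht : t ∈ Icc 0 T)
    {z : K × K} (h : ¬ (M < mx z ∧ 0 < mn z)) :
    ((wt M z.1 - wt M (z.1 - z.2) : ℝ) : ℂ) * ∫ s in (0 : ℝ)..t, X3 (a s) (b s) (c s) z = 0 := by
  by_cases h1 : mx z ≤ M
  · have := (h5 M z 0 0 0 hM (by simp [dt])).2 h1
    rw [this]
    simp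
  · have h2 : mn z = 0 := by
      have h3 : ¬ (0 < mn z) := fun h4 => h ⟨not_le.1 h1, h4⟩
      exact le_antisymm (not_lt.1 h3) (mn_nonneg z)
    rw [← norm_eq_zero]
    refine le_antisymm ?_ (norm_nonneg _)
    have h3 := near h5 ha hb hc hM ht (F := {z.1, z.2, z.1 - z.2}) (z := z) (by simp) (by simp) (by simp)
    refine h3.trans (le_of_eq ?_)
    rw [h2]
    simp

end cont

end J4aL

open J4aL in
open H9aL (nm_nonneg kn_nonneg mn_nonneg nm_sq cs_time nm_cont nm_neg dd_nonneg) in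
/-- **J4a.** -/
theorem j4a (h3 : J3) (h4 : H4) (h5 : H5) (h6 : H6) (h7 : H7) (h8 : H8) : J4a := by
  classical
  intro g ν T C a b c hν hg hC hfew ha hb hc
  obtain ⟨Ea, hEa⟩ := ha.bdd
  obtain ⟨Eb, hEb⟩ := hb.bdd
  obtain ⟨Ec, hEc⟩ := hc.bdd
  obtain ⟨C7, hC7, h7⟩ := h7
  obtain ⟨C8, hC8, h8⟩ := h8
  obtain ⟨E, hEdef⟩ : ∃ E, E = max Ea 0 + max Eb 0 + max Ec 0 := ⟨_, rfl⟩
  have ma := le_max_right Ea 0
  have mb := le_max_right Eb 0
  have mc := le_max_right Ec 0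
  have ma' := le_max_left Ea 0
  have mb' := le_max_left Eb 0
  have mc' := le_max_left Ec 0
  have hE' : 0 ≤ E := by rw [hEdef]; positivity
  have hE : ∀ s ∈ Icc 0 T, (Summable (fun k => nm (a s k) ^ 2) ∧ ∑' k, nm (a s k) ^ 2 ≤ E) ∧
      (Summable (fun k => nm (b s k) ^ 2) ∧ ∑' k, nm (b s k) ^ 2 ≤ E) ∧
      (Summable (fun k => nm (c s k) ^ 2) ∧ ∑' k, nm (c s k) ^ 2 ≤ E) := fun s hs =>
    ⟨⟨(hEa s hs).1, by linarith [(hEa s hs).2]⟩, ⟨(hEb s hs).1, by linarith [(hEb s hs).2]⟩,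
      ⟨(hEc s hs).1, by linarith [(hEc s hs).2]⟩⟩
  have hyS : ∀ s ∈ Icc 0 T, Summable (fun k => yt a b c s k ^ 2) := by
    intro s hs
    have e : (fun k => yt a b c s k ^ 2) =
        fun k => nm (a s k) ^ 2 + nm (b s k) ^ 2 + nm (c s k) ^ 2 :=
      funext fun k => ym_sq _ _ _ _
    rw [e]
    exact ((hEa s hs).1.add (hEb s hs).1).add (hEc s hs).1
  have hyE : ∀ s ∈ Icc 0 T, ∑' k, yt a b c s k ^ 2 ≤ E := by
    intro s hs
    have e : (fun k => yt a b c s k ^ 2) =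
        fun k => nm (a s k) ^ 2 + nm (b s k) ^ 2 + nm (c s k) ^ 2 :=
      funext fun k => ym_sq _ _ _ _
    rw [e, ((hEa s hs).1.add (hEb s hs).1).tsum_add (hEc s hs).1,
      (hEa s hs).1.tsum_add (hEb s hs).1]
    linarith [(hEa s hs).2, (hEb s hs).2, (hEc s hs).2]
  set D := ∑' k, d3 a b c T k with hD
  have hC0 : 0 ≤ C := by linarith
  refine ⟨(200 * C * √E + 40 * E * C8) * √D + 4 * C7 * (E * √E), ?_, ?_⟩
  · positivity
  intro M hM t ht S
  have hT : 0 ≤ T := ht.1.trans ht.2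
  have hsub : Icc 0 t ⊆ Icc 0 T := Icc_subset_Icc le_rfl ht.2
  have h0T : (0 : ℝ) ∈ Icc 0 T := ⟨le_rfl, hT⟩
  -- the finite symmetric set
  set F0 : Finset K := S.image (fun z => z.1) ∪ S.image (fun z => z.2) ∪
    S.image (fun z => z.1 - z.2) with hF0
  set F : Finset K := F0 ∪ F0.image (fun k => -k) with hF
  have hneg : ∀ k, k ∈ F → -k ∈ F := by
    intro k hk
    rw [hF, Finset.mem_union] at hk ⊢
    rcases hk with hk | hk
    · exact Or.inr (Finset.mem_image_of_mem _ hk)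
    · obtain ⟨l, hl, rfl⟩ := Finset.mem_image.1 hk
      rw [neg_neg]
      exact Or.inl hl
  have hneg' : ∀ k, -k ∈ F ↔ k ∈ F := fun k => ⟨fun h => by simpa using hneg _ h, hneg k⟩
  have hF1 : ∀ z ∈ S, z.1 ∈ F := fun z hz => Finset.mem_union_left _
    (Finset.mem_union_left _ (Finset.mem_union_left _ (Finset.mem_image_of_mem _ hz)))
  have hF2 : ∀ z ∈ S, z.2 ∈ F := fun z hz => Finset.mem_union_left _
    (Finset.mem_union_left _ (Finset.mem_union_right _ (Finset.mem_image_of_mem _ hz)))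
  have hF3 : ∀ z ∈ S, z.1 - z.2 ∈ F := fun z hz => Finset.mem_union_left _
    (Finset.mem_union_right _ (Finset.mem_image_of_mem (fun z : K × K => z.1 - z.2) hz))
  set Fh : Finset K := F.filter (fun k => M / 2 ≤ kn k) with hFh
  have hx0 : ∀ s k, 0 ≤ xs F (yt a b c s) k := fun s k => xs_nonneg _ (yt_nonneg a b c s) _
  have hxn : ∀ s ∈ Icc 0 T, ∀ k, xs F (yt a b c s) (-k) = xs F (yt a b c s) k := by
    intro s hs k
    unfold xs
    simp only [hneg' k, yt_neg ha hb hc hs k]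
  have hxE : ∀ s ∈ Icc 0 T, ∀ F' : Finset K, ∑ k ∈ F', xs F (yt a b c s) k ^ 2 ≤ E := fun s hs F' =>
    sum_E (yt_nonneg a b c s) (hyS s hs) (hyE s hs) F F'
  have hxG : ∀ s, ∀ F' : Finset K, ∑ k ∈ F', kn k ^ 2 * xs F (yt a b c s) k ^ 2 ≤ Gs F (yt a b c s) :=
    fun s F' => sum_G' F (yt a b c s) F'
  have hxg : ∀ s, ∀ F' : Finset K, (∀ k ∈ F', M / 2 ≤ kn k) →
      ∑ k ∈ F', kn k ^ 2 * xs F (yt a b c s) k ^ 2 ≤ Gs Fh (yt a b c s) :=
    fun s F' h => sum_G F _ (yt a b c s) F' h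
  have hGG := int_GG ha hb hc F M ht
  set I := ∫ s in (0 : ℝ)..t, √(Gs F (yt a b c s)) * √(Gs Fh (yt a b c s)) with hI
  have hPc : ContinuousOn (fun s => √(Gs F (yt a b c s)) * √(Gs Fh (yt a b c s))) (Icc 0 t) :=
    ((Gs_cont ha hb hc F).mono hsub).sqrt.mul ((Gs_cont ha hb hc Fh).mono hsub).sqrt
  -- the partition
  set f : K × K → ℂ := fun z => ((wt M z.1 - wt M (z.1 - z.2) : ℝ) : ℂ) *
    ∫ s in (0 : ℝ)..t, X3 (a s) (b s) (c s) z with hf
  set S1 := S.filter (fun z => M < mx z ∧ 0 < mn z) with hS1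
  set SN := S1.filter (fun z => |om g z| ≤ mx z ^ 3) with hSN
  set SR := S1.filter (fun z => ¬ (|om g z| ≤ mx z ^ 3)) with hSR
  have hmS : ∀ z ∈ S1, z ∈ S := fun z hz => (Finset.mem_filter.1 hz).1
  have hmN : ∀ z ∈ SN, z ∈ S1 ∧ |om g z| ≤ mx z ^ 3 := fun z hz => Finset.mem_filter.1 hz
  have hmR : ∀ z ∈ SR, z ∈ S1 ∧ ¬ (|om g z| ≤ mx z ^ 3) := fun z hz => Finset.mem_filter.1 hz
  have hm1 : ∀ z ∈ S1, M < mx z ∧ 0 < mn z := fun z hz => (Finset.mem_filter.1 hz).2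
  have hsplit : ∑ z ∈ S, f z = ∑ z ∈ SN, f z + ∑ z ∈ SR, f z := by
    rw [hSN, hSR, Finset.sum_filter_add_sum_filter_not]
    rw [← Finset.sum_filter_add_sum_filter_not S (fun z => M < mx z ∧ 0 < mn z)]
    have : ∑ z ∈ S.filter (fun z => ¬ (M < mx z ∧ 0 < mn z)), f z = 0 :=
      Finset.sum_eq_zero fun z hz => zero_of h5 ha hb hc hM ht (Finset.mem_filter.1 hz).2
    rw [this, add_zero]
  -- near resonant triads
  have hN : ∑ z ∈ SN, ‖f z‖ ≤ 200 * C * √E * I := by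
    have a1 : ∑ z ∈ SN, ‖f z‖ ≤ ∑ z ∈ SN, ∫ s in (0 : ℝ)..t, 2 * (mn z * tp F (yt a b c s) z) :=
      Finset.sum_le_sum fun z hz => by
        have hz' := hmS z (hmN z hz).1
        exact near h5 ha hb hc hM ht (hF1 z hz') (hF2 z hz') (hF3 z hz')
    have hci : ∀ z ∈ SN, IntervalIntegrable (fun s => 2 * (mn z * tp F (yt a b c s) z)) volume 0 t :=
      fun z _ => (continuousOn_const.mul (continuousOn_const.mul ((tp_cont ha hb hc F z).mono
        hsub))).intervalIntegrable_of_Icc ht.1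
    rw [← intervalIntegral.integral_finsetSum hci] at a1
    refine a1.trans ?_
    rw [hI, ← intervalIntegral.integral_const_mul]
    refine intervalIntegral.integral_mono_on ht.1 ?_ ?_ ?_
    · exact (continuousOn_finsetSum _ fun z _ => (continuousOn_const.mul (continuousOn_const.mul
        ((tp_cont ha hb hc F z).mono hsub)))).intervalIntegrable_of_Icc ht.1
    · exact (continuousOn_const.mul hPc).intervalIntegrable_of_Icc ht.1
    · intro s hs
      have b1 := h6 g C hg hC hfew (xs F (yt a b c s)) M E (Gs F (yt a b c s)) (Gs Fh (yt a b c s)) hM (hx0 s)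
        (hxn s (hsub hs)) (hxE s (hsub hs)) (hxG s) (hxg s) SN (fun z hz =>
          ⟨(hm1 z (hmN z hz).1).1.le, (hm1 z (hmN z hz).1).2, (hmN z hz).2⟩)
      have b2 : ∑ z ∈ SN, 2 * (mn z * tp F (yt a b c s) z) =
          2 * ∑ z ∈ SN, mn z * (xs F (yt a b c s) z.1 * xs F (yt a b c s) z.2 * xs F (yt a b c s) (z.1 - z.2)) := by
        rw [Finset.mul_sum]
        rfl
      rw [b2]
      linarith
  -- the other triads
  have hR : ∑ z ∈ SR, ‖f z‖ ≤ 4 * (C7 * (E * √E) * M ^ (-(1 / 4) : ℝ)) + 40 * E * C8 * I := by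
    have a1 : ∑ z ∈ SR, ‖f z‖ ≤ ∑ z ∈ SR, (2 * (mn z / mx z ^ 3 * tp F (yt a b c t) z)
        + 2 * (mn z / mx z ^ 3 * tp F (yt a b c 0) z)
        + ∫ s in (0 : ℝ)..t, 40 * E * (mn z / mx z ^ 3 * qp F (yt a b c s) z)) :=
      Finset.sum_le_sum fun z hz => by
        have hz' := hmS z (hmR z hz).1
        exact far h3 h4 h5 ha hb hc hE hM ht (hF1 z hz') (hF2 z hz') (hF3 z hz')
          (hm1 z (hmR z hz).1).1 (not_le.1 (hmR z hz).2)
    have hSR' : ∀ z ∈ SR, M ≤ mx z ∧ 0 < mn z := fun z hz =>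
      ⟨(hm1 z (hmR z hz).1).1.le, (hm1 z (hmR z hz).1).2⟩
    have c1 : ∀ s ∈ Icc 0 T, ∑ z ∈ SR, 2 * (mn z / mx z ^ 3 * tp F (yt a b c s) z) ≤
        2 * (C7 * (E * √E) * M ^ (-(1 / 4) : ℝ)) := by
      intro s hs
      have b1 := h7 (xs F (yt a b c s)) M E hM (hx0 s) (hxE s hs) SR hSR'
      rw [← Finset.mul_sum]
      refine mul_le_mul_of_nonneg_left b1 (by norm_num)
    have hci : ∀ z ∈ SR, IntervalIntegrable
        (fun s => 40 * E * (mn z / mx z ^ 3 * qp F (yt a b c s) z)) volume 0 t :=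
      fun z _ => (continuousOn_const.mul (continuousOn_const.mul ((qp_cont ha hb hc F z).mono
        hsub))).intervalIntegrable_of_Icc ht.1
    have c2 : ∑ z ∈ SR, ∫ s in (0 : ℝ)..t, 40 * E * (mn z / mx z ^ 3 * qp F (yt a b c s) z) ≤
        40 * E * C8 * I := by
      rw [← intervalIntegral.integral_finsetSum hci, hI, ← intervalIntegral.integral_const_mul]
      refine intervalIntegral.integral_mono_on ht.1 ?_ ?_ ?_
      · exact (continuousOn_finsetSum _ fun z _ => (continuousOn_const.mul (continuousOn_const.mul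
          ((qp_cont ha hb hc F z).mono hsub)))).intervalIntegrable_of_Icc ht.1
      · exact (continuousOn_const.mul hPc).intervalIntegrable_of_Icc ht.1
      · intro s hs
        have b1 := h8 (xs F (yt a b c s)) M (Gs F (yt a b c s)) (Gs Fh (yt a b c s)) hM (hx0 s) (hxG s) (hxg s) SR hSR'
        have b2 : ∑ z ∈ SR, 40 * E * (mn z / mx z ^ 3 * qp F (yt a b c s) z) =
            40 * E * ∑ z ∈ SR, mn z / mx z ^ 3 * (kn z.2 * (xs F (yt a b c s) (z.1 - z.2) *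
              xs F (yt a b c s) z.1) + kn (z.1 - z.2) * (xs F (yt a b c s) z.2 * xs F (yt a b c s) z.1)
              + kn z.1 * (xs F (yt a b c s) z.2 * xs F (yt a b c s) (z.1 - z.2))) := by
          rw [Finset.mul_sum]
          rfl
        rw [b2, mul_assoc (40 * E)]
        exact mul_le_mul_of_nonneg_left b1 (by positivity)
    rw [Finset.sum_add_distrib, Finset.sum_add_distrib] at a1
    linarith [c1 t ht, c1 0 h0T, c2]
  -- the end
  have hI1 : I ≤ √D * √(∑' k, tl M k * d3 a b c T k) := hGG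
  have hM4 : 0 ≤ M ^ (-(1 / 4) : ℝ) := Real.rpow_nonneg (by linarith) _
  have e1 : ‖∑ z ∈ S, f z‖ ≤ ∑ z ∈ SN, ‖f z‖ + ∑ z ∈ SR, ‖f z‖ := by
    rw [hsplit]
    exact (norm_add_le _ _).trans (add_le_add (norm_sum_le _ _) (norm_sum_le _ _))
  set τ := √(∑' k, tl M k * d3 a b c T k) with hτ
  have hτ0 : 0 ≤ τ := Real.sqrt_nonneg _
  have e2 : ∑ z ∈ SN, ‖f z‖ + ∑ z ∈ SR, ‖f z‖ ≤ (200 * C * √E + 40 * E * C8) * (√D * τ) +
      4 * C7 * (E * √E) * M ^ (-(1 / 4) : ℝ) := by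
    have : (200 * C * √E + 40 * E * C8) * I ≤ (200 * C * √E + 40 * E * C8) * (√D * τ) :=
      mul_le_mul_of_nonneg_left hI1 (by positivity)
    linarith
  refine (e1.trans e2).trans ?_
  have hτ' : √(∑' k, tl M k * (dd a T k + dd b T k + dd c T k)) = τ := rfl
  rw [hτ']
  have p1 : 0 ≤ (200 * C * √E + 40 * E * C8) * √D * M ^ (-(1 / 4) : ℝ) := by positivity
  have p2 : 0 ≤ 4 * C7 * (E * √E) * τ := by positivity
  nlinarith [p1, p2]

end Pool.Agent.H303.DEE.F
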