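import Pool.Agent.H303.DEE.Stm7
import Pool.Agent.H303.DEE.FH6
import Pool.Agent.H303.DEE.FH6b

/-!
The sum over near resonant triads, two sequences (project DEE-J of helper303; this file by helper118).
-/

set_option autoImplicit false

open MeasureTheory Set Filter Topology Complex
open scoped ContDiff ENNReal

namespace Pool.Agent.H303.DEE.F

namespace J5N

open FH6

/-- Cauchy-Schwarz with the constants -/
theorem combine {S : Finset (K × K)} {t f h : K × K → ℝ} {C U V W : ℝ} (hC : 1 ≤ C)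
    (hU : 0 ≤ U) (hV : 0 ≤ V) (hW : 0 ≤ W) (ht : ∀ z ∈ S, t z ≤ f z * h z)
    (hf : ∑ z ∈ S, f z ^ 2 ≤ 8 * C * U) (hh : ∑ z ∈ S, h z ^ 2 ≤ 2 * (V * W)) :
    ∑ z ∈ S, t z ≤ 4 * C * (√U * √V * √W) := by
  refine (Finset.sum_le_sum ht).trans ?_
  refine (Real.sum_mul_le_sqrt_mul_sqrt S f h).trans ?_
  have h1 : √(∑ z ∈ S, f z ^ 2) * √(∑ z ∈ S, h z ^ 2) ≤ √(8 * C * U) * √(2 * (V * W)) :=
    mul_le_mul (Real.sqrt_le_sqrt hf) (Real.sqrt_le_sqrt hh) (Real.sqrt_nonneg _)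
      (Real.sqrt_nonneg _)
  refine h1.trans ?_
  rw [← Real.sqrt_mul (by positivity), Real.sqrt_le_iff]
  refine ⟨by positivity, ?_⟩
  have h2 : (4 * C * (√U * √V * √W)) ^ 2 = 16 * C ^ 2 * (U * V * W) := by
    rw [mul_pow, mul_pow, mul_pow, mul_pow, Real.sq_sqrt hU, Real.sq_sqrt hV, Real.sq_sqrt hW]
    ring
  have h3 : 8 * C * U * (2 * (V * W)) = 16 * C * (U * V * W) := by ring
  rw [h2, h3]
  exact mul_le_mul_of_nonneg_right (by nlinarith) (by positivity)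

/-- the first factor -/
theorem firstφ (h : H6a) {NR : K → K → Prop} {C : ℝ} (hC : 1 ≤ C) (hF : Few NR C) {u : K → ℝ}
    {U : ℝ} (hU : ∀ F : Finset K, ∑ k ∈ F, kn k ^ 2 * u k ^ 2 ≤ U)
    {S : Finset (K × K)} (φ : K × K → K × K) (hφ : Function.Injective φ)
    (hS : ∀ z ∈ S, 1 ≤ kn (φ z).2 ∧ kn (φ z).2 ≤ kn (φ z).1 ∧
      kn (φ z).2 ≤ kn ((φ z).1 - (φ z).2) ∧ NR (φ z).1 (φ z).2) :
    ∑ z ∈ S, u (φ z).1 ^ 2 * kn (φ z).1 * (kn (φ z).2)⁻¹ ≤ 8 * C * U := by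
  classical
  have h1 := FH6b.first h hC hF (x := u) (M := 0) (γ := U) (fun F _ => hU F) (S := S.image φ) (by
    intro w hw
    rw [Finset.mem_image] at hw
    obtain ⟨z, hz, rfl⟩ := hw
    obtain ⟨a, b, c, d⟩ := hS z hz
    exact ⟨by rw [zero_div]; exact kn_nonneg _, a, b, c, d⟩)
  rwa [Finset.sum_image (fun a _ b _ hab => hφ hab)] at h1

/-- the second factor -/
theorem secondφ {a b : K → ℝ} {A B : ℝ} (ha : ∀ k, 0 ≤ a k) (hb : ∀ k, 0 ≤ b k)
    (hA : ∀ F : Finset K, ∑ k ∈ F, a k ≤ A) (hB : ∀ F : Finset K, ∑ k ∈ F, b k ≤ B)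
    (S : Finset (K × K)) (φ : K × K → K × K) (hφ : Function.Injective φ) :
    ∑ z ∈ S, a (φ z).1 * b (φ z).2 ≤ A * B := by
  classical
  have hB0 : 0 ≤ B := by simpa using hB ∅
  have h1 : ∑ z ∈ S, a (φ z).1 * b (φ z).2 = ∑ w ∈ S.image φ, a w.1 * b w.2 := by
    rw [Finset.sum_image (fun a _ b _ hab => hφ hab)]
  have h2 : S.image φ ⊆ ((S.image φ).image Prod.fst) ×ˢ ((S.image φ).image Prod.snd) := by
    intro w hw
    rw [Finset.mem_product]
    exact ⟨Finset.mem_image_of_mem _ hw, Finset.mem_image_of_mem _ hw⟩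
  rw [h1]
  refine (Finset.sum_le_sum_of_subset_of_nonneg h2 fun w _ _ =>
    mul_nonneg (ha _) (hb _)).trans ?_
  rw [Finset.sum_product]
  calc ∑ k ∈ (S.image φ).image Prod.fst, ∑ m ∈ (S.image φ).image Prod.snd, a k * b m
      ≤ ∑ k ∈ (S.image φ).image Prod.fst, a k * B := by
        refine Finset.sum_le_sum fun k _ => ?_
        rw [← Finset.mul_sum]
        exact mul_le_mul_of_nonneg_left (hB _) (ha k)
    _ ≤ A * B := by
        rw [← Finset.sum_mul]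
        exact mul_le_mul_of_nonneg_right (hA _) hB0

end J5N

open FH6 J5N in
theorem j5 (h6a : H6a) : J5 := by
  classical
  intro g C hg hC hF x y X0 X1 Y1 h0 hx h0y hy hX0 hX1 hY1 S hS
  set NR : K → K → Prop := fun L m => |g L - g m - g (L - m)| ≤ 8 * kn L ^ 3 with hNR
  have pX0 : 0 ≤ X0 := by simpa using hX0 ∅
  have pX1 : 0 ≤ X1 := by simpa using hX1 ∅
  have pY1 : 0 ≤ Y1 := by simpa using hY1 ∅
  -- the three parts
  set t : K × K → ℝ := fun z => min (kn z.1) (kn (z.1 - z.2)) *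
    (x z.2 * y (z.1 - z.2) * x z.1) with ht
  set S1 : Finset (K × K) := S.filter fun z => kn z.2 ≤ kn z.1 ∧ kn z.2 ≤ kn (z.1 - z.2) with hS1
  set S2 : Finset (K × K) := (S.filter fun z => ¬ (kn z.2 ≤ kn z.1 ∧ kn z.2 ≤ kn (z.1 - z.2))).filter
    fun z => kn (z.1 - z.2) ≤ kn z.1 ∧ kn (z.1 - z.2) ≤ kn z.2 with hS2
  set S3 : Finset (K × K) := (S.filter fun z => ¬ (kn z.2 ≤ kn z.1 ∧ kn z.2 ≤ kn (z.1 - z.2))).filter
    fun z => ¬ (kn (z.1 - z.2) ≤ kn z.1 ∧ kn (z.1 - z.2) ≤ kn z.2) with hS3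
  have hsum : ∑ z ∈ S, t z = ∑ z ∈ S1, t z + (∑ z ∈ S2, t z + ∑ z ∈ S3, t z) := by
    rw [hS1, hS2, hS3, Finset.sum_filter_add_sum_filter_not, Finset.sum_filter_add_sum_filter_not]
  have hpos : ∀ z ∈ S, 0 < kn z.1 ∧ 0 < kn z.2 ∧ 0 < kn (z.1 - z.2) := by
    intro z hz
    have h1 := (hS z hz).1
    unfold mn at h1
    rw [lt_min_iff, lt_min_iff] at h1
    exact h1
  have htri : ∀ z : K × K, kn (z.1 - z.2) ≤ kn z.1 + kn z.2 := fun z => kn_sub _ _
  have htri2 : ∀ z : K × K, kn z.2 ≤ kn z.1 + kn (z.1 - z.2) := by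
    intro z
    have h1 := kn_sub z.1 (z.1 - z.2)
    rwa [sub_sub_cancel] at h1
  have htri3 : ∀ z : K × K, kn z.1 ≤ kn z.2 + kn (z.1 - z.2) := by
    intro z
    have h1 := kn_add z.2 (z.1 - z.2)
    rwa [add_sub_cancel] at h1
  have hxyx : ∀ z : K × K, 0 ≤ x z.2 * y (z.1 - z.2) * x z.1 :=
    fun z => mul_nonneg (mul_nonneg (h0 _) (h0y _)) (h0 _)
  have hyx : ∀ F : Finset K, ∑ k ∈ F, x k ^ 2 ≤ X0 := hX0
  -- p smallest
  have p1 : ∑ z ∈ S1, t z ≤ 4 * C * (√Y1 * √X1 * √X0) := by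
    have hmem : ∀ z ∈ S1, (0 < kn z.1 ∧ 0 < kn z.2 ∧ 0 < kn (z.1 - z.2)) ∧
        (kn z.2 ≤ kn z.1 ∧ kn z.2 ≤ kn (z.1 - z.2)) ∧ |om g z| ≤ mx z ^ 3 := by
      intro z hz
      rw [hS1, Finset.mem_filter] at hz
      exact ⟨hpos z hz.1, hz.2, (hS z hz.1).2⟩
    refine combine (f := fun z => y (z.1 - z.2) * √(kn (z.1 - z.2)) / √(kn z.2))
      (h := fun z => √(kn (z.1 - z.2)) * √(kn z.2) * (x z.2 * x z.1)) hC pY1 pX1 pX0 ?_ ?_ ?_
    · intro z hz
      obtain ⟨⟨q1, q2, q3⟩, -, -⟩ := hmem z hz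
      have s2 : √(kn z.2) ≠ 0 := (Real.sqrt_pos.2 q2).ne'
      have e1 : y (z.1 - z.2) * √(kn (z.1 - z.2)) / √(kn z.2) *
          (√(kn (z.1 - z.2)) * √(kn z.2) * (x z.2 * x z.1)) =
          (√(kn (z.1 - z.2)) * √(kn (z.1 - z.2))) * (x z.2 * y (z.1 - z.2) * x z.1) := by
        field_simp
      rw [e1, Real.mul_self_sqrt q3.le]
      exact mul_le_mul_of_nonneg_right (min_le_right _ _) (hxyx z)
    · have e1 := firstφ h6a hC hF (u := y) hY1 (S := S1) (fun z => (z.1 - z.2, -z.2)) (by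
        intro a b hab
        simp only [Prod.mk.injEq, neg_inj] at hab
        obtain ⟨h1, h2⟩ := hab
        rw [h2] at h1
        exact Prod.ext (sub_left_injective h1) h2) (by
        intro z hz
        obtain ⟨⟨q1, q2, q3⟩, ⟨a, b⟩, c⟩ := hmem z hz
        have hk : z.1 - z.2 - -z.2 = z.1 := by rw [sub_neg_eq_add, sub_add_cancel]
        have hmx : mx z ≤ 2 * kn (z.1 - z.2) := by
          unfold mx
          refine max_le ?_ (max_le (by linarith) (by linarith))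
          linarith [htri3 z]
        refine ⟨?_, ?_, ?_, ?_⟩
        · show 1 ≤ kn (-z.2)
          rw [kn_neg]
          exact one_le_kn q2
        · show kn (-z.2) ≤ kn (z.1 - z.2)
          rw [kn_neg]
          exact b
        · show kn (-z.2) ≤ kn (z.1 - z.2 - -z.2)
          rw [kn_neg, hk]
          exact a
        · show |g (z.1 - z.2) - g (-z.2) - g (z.1 - z.2 - -z.2)| ≤ 8 * kn (z.1 - z.2) ^ 3
          have h1 : g (z.1 - z.2) - g (-z.2) - g (z.1 - z.2 - -z.2) = - om g z := by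
            unfold om
            rw [hk, hg]
            ring
          rw [h1, abs_neg]
          exact c.trans (mul_cube (mx_nonneg z) hmx))
      refine le_trans (le_of_eq ?_) e1
      refine Finset.sum_congr rfl fun z hz => ?_
      obtain ⟨⟨q1, q2, q3⟩, -, -⟩ := hmem z hz
      show (y (z.1 - z.2) * √(kn (z.1 - z.2)) / √(kn z.2)) ^ 2 =
        y (z.1 - z.2) ^ 2 * kn (z.1 - z.2) * (kn (-z.2))⁻¹
      rw [kn_neg, div_pow, mul_pow, Real.sq_sqrt q3.le, Real.sq_sqrt q2.le, div_eq_mul_inv]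
    · have e1 := secondφ (a := fun k => kn k ^ 2 * x k ^ 2) (b := fun k => x k ^ 2)
        (fun k => by positivity) (fun k => by positivity) hX1 hX0 S1 id Function.injective_id
      have e2 : ∑ z ∈ S1, (√(kn (z.1 - z.2)) * √(kn z.2) * (x z.2 * x z.1)) ^ 2 ≤
          ∑ z ∈ S1, 2 * ((kn z.1 ^ 2 * x z.1 ^ 2) * x z.2 ^ 2) := by
        refine Finset.sum_le_sum fun z hz => ?_
        obtain ⟨⟨q1, q2, q3⟩, ⟨a, b⟩, -⟩ := hmem z hz
        rw [mul_pow, mul_pow, Real.sq_sqrt q3.le, Real.sq_sqrt q2.le, mul_pow]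
        have h1 : kn (z.1 - z.2) * kn z.2 ≤ (2 * kn z.1) * kn z.1 :=
          mul_le_mul (by linarith [htri z]) a q2.le (by linarith)
        calc kn (z.1 - z.2) * kn z.2 * (x z.2 ^ 2 * x z.1 ^ 2)
            ≤ (2 * kn z.1) * kn z.1 * (x z.2 ^ 2 * x z.1 ^ 2) :=
              mul_le_mul_of_nonneg_right h1 (by positivity)
          _ = 2 * ((kn z.1 ^ 2 * x z.1 ^ 2) * x z.2 ^ 2) := by ring
      refine e2.trans ?_
      rw [← Finset.mul_sum]
      exact mul_le_mul_of_nonneg_left e1 (by norm_num)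
  -- q smallest
  have p2 : ∑ z ∈ S2, t z ≤ 4 * C * (√X1 * √Y1 * √X0) := by
    have hmem : ∀ z ∈ S2, (0 < kn z.1 ∧ 0 < kn z.2 ∧ 0 < kn (z.1 - z.2)) ∧
        (kn (z.1 - z.2) ≤ kn z.1 ∧ kn (z.1 - z.2) ≤ kn z.2) ∧ |om g z| ≤ mx z ^ 3 := by
      intro z hz
      rw [hS2, Finset.mem_filter, Finset.mem_filter] at hz
      exact ⟨hpos z hz.1.1, hz.2, (hS z hz.1.1).2⟩
    refine combine (f := fun z => x z.2 * √(kn z.2) / √(kn (z.1 - z.2)))
      (h := fun z => kn (z.1 - z.2) * √(kn (z.1 - z.2)) / √(kn z.2) * (y (z.1 - z.2) * x z.1))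
      hC pX1 pY1 pX0 ?_ ?_ ?_
    · intro z hz
      obtain ⟨⟨q1, q2, q3⟩, -, -⟩ := hmem z hz
      have s2 : √(kn z.2) ≠ 0 := (Real.sqrt_pos.2 q2).ne'
      have s3 : √(kn (z.1 - z.2)) ≠ 0 := (Real.sqrt_pos.2 q3).ne'
      have e1 : x z.2 * √(kn z.2) / √(kn (z.1 - z.2)) *
          (kn (z.1 - z.2) * √(kn (z.1 - z.2)) / √(kn z.2) * (y (z.1 - z.2) * x z.1)) =
          kn (z.1 - z.2) * (x z.2 * y (z.1 - z.2) * x z.1) := by
        field_simp
      rw [e1]
      exact mul_le_mul_of_nonneg_right (min_le_right _ _) (hxyx z)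
    · have e1 := firstφ h6a hC hF (u := x) hX1 (S := S2) (fun z => (z.2, -(z.1 - z.2))) (by
        intro a b hab
        simp only [Prod.mk.injEq, neg_inj] at hab
        obtain ⟨h1, h2⟩ := hab
        rw [h1] at h2
        exact Prod.ext (sub_left_injective h2) h1) (by
        intro z hz
        obtain ⟨⟨q1, q2, q3⟩, ⟨a, b⟩, c⟩ := hmem z hz
        have hk : z.2 - -(z.1 - z.2) = z.1 := by rw [sub_neg_eq_add, add_sub_cancel]
        have hmx : mx z ≤ 2 * kn z.2 := by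
          unfold mx
          refine max_le ?_ (max_le (by linarith) (by linarith))
          linarith [htri3 z]
        refine ⟨?_, ?_, ?_, ?_⟩
        · show 1 ≤ kn (-(z.1 - z.2))
          rw [kn_neg]
          exact one_le_kn q3
        · show kn (-(z.1 - z.2)) ≤ kn z.2
          rw [kn_neg]
          exact b
        · show kn (-(z.1 - z.2)) ≤ kn (z.2 - -(z.1 - z.2))
          rw [kn_neg, hk]
          exact a
        · show |g z.2 - g (-(z.1 - z.2)) - g (z.2 - -(z.1 - z.2))| ≤ 8 * kn z.2 ^ 3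
          have h1 : g z.2 - g (-(z.1 - z.2)) - g (z.2 - -(z.1 - z.2)) = - om g z := by
            unfold om
            rw [hk, hg]
            ring
          rw [h1, abs_neg]
          exact c.trans (mul_cube (mx_nonneg z) hmx))
      refine le_trans (le_of_eq ?_) e1
      refine Finset.sum_congr rfl fun z hz => ?_
      obtain ⟨⟨q1, q2, q3⟩, -, -⟩ := hmem z hz
      show (x z.2 * √(kn z.2) / √(kn (z.1 - z.2))) ^ 2 =
        x z.2 ^ 2 * kn z.2 * (kn (-(z.1 - z.2)))⁻¹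
      rw [kn_neg, div_pow, mul_pow, Real.sq_sqrt q3.le, Real.sq_sqrt q2.le, div_eq_mul_inv]
    · have e1 := secondφ (a := fun k => kn k ^ 2 * y k ^ 2) (b := fun k => x k ^ 2)
        (fun k => by positivity) (fun k => by positivity) hY1 hX0 S2 (fun z => (z.1 - z.2, z.1)) (by
        intro a b hab
        simp only [Prod.mk.injEq] at hab
        obtain ⟨h1, h2⟩ := hab
        rw [h2] at h1
        exact Prod.ext h2 (sub_right_injective h1))
      have e2 : ∑ z ∈ S2, (kn (z.1 - z.2) * √(kn (z.1 - z.2)) / √(kn z.2) *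
          (y (z.1 - z.2) * x z.1)) ^ 2 ≤
          ∑ z ∈ S2, (kn (z.1 - z.2) ^ 2 * y (z.1 - z.2) ^ 2) * x z.1 ^ 2 := by
        refine Finset.sum_le_sum fun z hz => ?_
        obtain ⟨⟨q1, q2, q3⟩, ⟨a, b⟩, -⟩ := hmem z hz
        rw [mul_pow, div_pow, mul_pow, Real.sq_sqrt q3.le, Real.sq_sqrt q2.le, mul_pow,
          mul_assoc (kn (z.1 - z.2) ^ 2) (y (z.1 - z.2) ^ 2)]
        refine mul_le_mul_of_nonneg_right ?_ (by positivity)
        rw [div_le_iff₀ q2]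
        exact mul_le_mul_of_nonneg_left b (sq_nonneg _)
      refine e2.trans (e1.trans ?_)
      have : 0 ≤ Y1 * X0 := mul_nonneg pY1 pX0
      linarith
  -- k smallest
  have p3 : ∑ z ∈ S3, t z ≤ 4 * C * (√Y1 * √X1 * √X0) := by
    have hmem : ∀ z ∈ S3, (0 < kn z.1 ∧ 0 < kn z.2 ∧ 0 < kn (z.1 - z.2)) ∧
        (kn z.1 ≤ kn z.2 ∧ kn z.1 ≤ kn (z.1 - z.2)) ∧ |om g z| ≤ mx z ^ 3 := by
      intro z hz
      rw [hS3, Finset.mem_filter, Finset.mem_filter] at hz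
      obtain ⟨⟨hz, hn1⟩, hn2⟩ := hz
      have ha : kn z.1 ≤ kn z.2 := by
        by_contra hcon
        rw [not_le] at hcon
        rcases le_total (kn z.2) (kn (z.1 - z.2)) with h1 | h1
        · exact hn1 ⟨hcon.le, h1⟩
        · exact hn2 ⟨h1.trans hcon.le, h1⟩
      have hb : kn z.1 ≤ kn (z.1 - z.2) := by
        by_contra hcon
        rw [not_le] at hcon
        rcases le_total (kn z.2) (kn (z.1 - z.2)) with h1 | h1
        · exact hn1 ⟨(h1.trans hcon.le), h1⟩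
        · exact hn2 ⟨hcon.le, h1⟩
      exact ⟨hpos z hz, ⟨ha, hb⟩, (hS z hz).2⟩
    refine combine (f := fun z => y (z.1 - z.2) * √(kn (z.1 - z.2)) / √(kn z.1))
      (h := fun z => kn z.1 * √(kn z.1) / √(kn (z.1 - z.2)) * (x z.2 * x z.1))
      hC pY1 pX1 pX0 ?_ ?_ ?_
    · intro z hz
      obtain ⟨⟨q1, q2, q3⟩, -, -⟩ := hmem z hz
      have s2 : √(kn z.1) ≠ 0 := (Real.sqrt_pos.2 q1).ne'
      have s3 : √(kn (z.1 - z.2)) ≠ 0 := (Real.sqrt_pos.2 q3).ne'
      have e1 : y (z.1 - z.2) * √(kn (z.1 - z.2)) / √(kn z.1) *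
          (kn z.1 * √(kn z.1) / √(kn (z.1 - z.2)) * (x z.2 * x z.1)) =
          kn z.1 * (x z.2 * y (z.1 - z.2) * x z.1) := by
        field_simp
      rw [e1]
      exact mul_le_mul_of_nonneg_right (min_le_left _ _) (hxyx z)
    · have e1 := firstφ h6a hC hF (u := y) hY1 (S := S3) (fun z => (z.1 - z.2, z.1)) (by
        intro a b hab
        simp only [Prod.mk.injEq] at hab
        obtain ⟨h1, h2⟩ := hab
        rw [h2] at h1
        exact Prod.ext h2 (sub_right_injective h1)) (by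
        intro z hz
        obtain ⟨⟨q1, q2, q3⟩, ⟨a, b⟩, c⟩ := hmem z hz
        have hk : z.1 - z.2 - z.1 = -z.2 := by rw [sub_sub_cancel_left]
        have hmx : mx z ≤ 2 * kn (z.1 - z.2) := by
          unfold mx
          refine max_le (by linarith) (max_le ?_ (by linarith))
          linarith [htri2 z]
        refine ⟨one_le_kn q1, b, ?_, ?_⟩
        · show kn z.1 ≤ kn (z.1 - z.2 - z.1)
          rw [hk, kn_neg]
          exact a
        · show |g (z.1 - z.2) - g z.1 - g (z.1 - z.2 - z.1)| ≤ 8 * kn (z.1 - z.2) ^ 3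
          have h1 : g (z.1 - z.2) - g z.1 - g (z.1 - z.2 - z.1) = - om g z := by
            unfold om
            rw [hk, hg]
            ring
          rw [h1, abs_neg]
          exact c.trans (mul_cube (mx_nonneg z) hmx))
      refine le_trans (le_of_eq ?_) e1
      refine Finset.sum_congr rfl fun z hz => ?_
      obtain ⟨⟨q1, q2, q3⟩, -, -⟩ := hmem z hz
      show (y (z.1 - z.2) * √(kn (z.1 - z.2)) / √(kn z.1)) ^ 2 =
        y (z.1 - z.2) ^ 2 * kn (z.1 - z.2) * (kn z.1)⁻¹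
      rw [div_pow, mul_pow, Real.sq_sqrt q3.le, Real.sq_sqrt q1.le, div_eq_mul_inv]
    · have e1 := secondφ (a := fun k => kn k ^ 2 * x k ^ 2) (b := fun k => x k ^ 2)
        (fun k => by positivity) (fun k => by positivity) hX1 hX0 S3 id Function.injective_id
      have e2 : ∑ z ∈ S3, (kn z.1 * √(kn z.1) / √(kn (z.1 - z.2)) * (x z.2 * x z.1)) ^ 2 ≤
          ∑ z ∈ S3, (kn z.1 ^ 2 * x z.1 ^ 2) * x z.2 ^ 2 := by
        refine Finset.sum_le_sum fun z hz => ?_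
        obtain ⟨⟨q1, q2, q3⟩, ⟨a, b⟩, -⟩ := hmem z hz
        rw [mul_pow, div_pow, mul_pow, Real.sq_sqrt q3.le, Real.sq_sqrt q1.le, mul_pow,
          mul_assoc (kn z.1 ^ 2) (x z.1 ^ 2), mul_comm (x z.2 ^ 2)]
        refine mul_le_mul_of_nonneg_right ?_ (by positivity)
        rw [div_le_iff₀ q3]
        exact mul_le_mul_of_nonneg_left b (sq_nonneg _)
      refine e2.trans (e1.trans ?_)
      have : 0 ≤ X1 * X0 := mul_nonneg pX1 pX0
      linarith
  rw [hsum]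
  have hkey : 0 ≤ √X0 * √X1 * √Y1 := by positivity
  have e1 : 4 * C * (√Y1 * √X1 * √X0) = 4 * (C * (√X0 * √X1 * √Y1)) := by ring
  have e2 : 4 * C * (√X1 * √Y1 * √X0) = 4 * (C * (√X0 * √X1 * √Y1)) := by ring
  have e3 : 100 * C * (√X0 * √X1 * √Y1) = 100 * (C * (√X0 * √X1 * √Y1)) := by ring
  have hCk : 0 ≤ C * (√X0 * √X1 * √Y1) := mul_nonneg (by linarith) hkey
  rw [e1] at p1 p3
  rw [e2] at p2
  rw [e3]
  linarith

end Pool.Agent.H303.DEE.F
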