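import Pool.Agent.H303.DEE.Stm7
import Pool.Agent.H303.DEE.FH7

/-!
The boundary terms, two sequences (statement J6 of `Stm7`).
-/

set_option autoImplicit false

namespace Pool.Agent.H303.DEE.F

namespace J6N

theorem term_le {M : ℝ} (hM : 1 ≤ M) (z : K × K) (h1 : M ≤ mx z) (h2 : 0 < mn z) :
    min (kn z.1) (kn (z.1 - z.2)) / mx z ^ 3 ≤
      M ^ (-(1 / 4) : ℝ) * kn (z.1 - z.2) ^ (-(7 / 4) : ℝ) ∧ 1 ≤ kn (z.1 - z.2) := by
  have ha : mn z ≤ kn (z.1 - z.2) := (min_le_right _ _).trans (min_le_right _ _)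
  have hb : kn (z.1 - z.2) ≤ mx z := (le_max_right _ _).trans (le_max_right _ _)
  have hp : 1 ≤ kn (z.1 - z.2) := FH7.one_le_kn (lt_of_lt_of_le h2 ha)
  have hm : 0 < mx z := by linarith
  have hc : min (kn z.1) (kn (z.1 - z.2)) ≤ mx z := (min_le_right _ _).trans hb
  refine ⟨?_, hp⟩
  have h3 : min (kn z.1) (kn (z.1 - z.2)) / mx z ^ 3 ≤ (mx z ^ 2)⁻¹ := by
    rw [div_le_iff₀ (by positivity)]
    have h4 : (mx z ^ 2)⁻¹ * mx z ^ 3 = mx z := by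
      field_simp
    rw [h4]
    exact hc
  have h5 : (mx z ^ 2)⁻¹ = mx z ^ (-(1 / 4) : ℝ) * mx z ^ (-(7 / 4) : ℝ) := by
    rw [← Real.rpow_add hm, ← Real.rpow_natCast, ← Real.rpow_neg hm.le]
    norm_num
  rw [h5] at h3
  refine h3.trans ?_
  apply mul_le_mul
  · exact Real.rpow_le_rpow_of_nonpos (by linarith) h1 (by norm_num)
  · exact Real.rpow_le_rpow_of_nonpos (by linarith) hb (by norm_num)
  · exact Real.rpow_nonneg hm.le _
  · exact Real.rpow_nonneg (by linarith) _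

theorem fibre_le (x : K → ℝ) (E : ℝ) (hE : ∀ F : Finset K, ∑ k ∈ F, x k ^ 2 ≤ E) (q : K)
    (T : Finset (K × K)) (hT : ∀ z ∈ T, z.1 - z.2 = q) :
    ∑ z ∈ T, x z.2 * x z.1 ≤ E := by
  classical
  have h1 : ∑ z ∈ T, x z.1 ^ 2 ≤ E := by
    rw [← Finset.sum_image (f := fun k => x k ^ 2) (s := T) (g := fun z => z.1)]
    · exact hE _
    · intro z hz w hw h
      have h4 : z.1 - z.2 = w.1 - w.2 := (hT z hz).trans (hT w hw).symm
      have h5 : z.1 = w.1 := h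
      rw [h5] at h4
      exact Prod.ext h5 (sub_right_injective h4)
  have h2 : ∑ z ∈ T, x z.2 ^ 2 ≤ E := by
    rw [← Finset.sum_image (f := fun k => x k ^ 2) (s := T) (g := fun z => z.2)]
    · exact hE _
    · intro z hz w hw h
      have h4 : z.1 - z.2 = w.1 - w.2 := (hT z hz).trans (hT w hw).symm
      have h5 : z.2 = w.2 := h
      rw [h5] at h4
      exact Prod.ext (sub_left_injective h4) h5
  have h3 : ∀ z ∈ T, x z.2 * x z.1 ≤ (1 / 2) * x z.1 ^ 2 + (1 / 2) * x z.2 ^ 2 := by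
    intro z _
    nlinarith [sq_nonneg (x z.1 - x z.2)]
  have h4 := Finset.sum_le_sum h3
  rw [Finset.sum_add_distrib, ← Finset.mul_sum, ← Finset.mul_sum] at h4
  linarith

end J6N

open FH7 in
theorem j6 : J6 := by
  classical
  refine ⟨√((∑' n, hw n) ^ 3), Real.sqrt_nonneg _, ?_⟩
  intro x y M X0 Y0 hM hx hy hX hY S hS
  have hE0 : 0 ≤ X0 := by simpa using hX ∅
  have hM0 : 0 ≤ M ^ (-(1 / 4) : ℝ) := Real.rpow_nonneg (by linarith) _
  have h1 : ∀ z ∈ S, min (kn z.1) (kn (z.1 - z.2)) / mx z ^ 3 *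
      (x z.2 * y (z.1 - z.2) * x z.1) ≤ M ^ (-(1 / 4) : ℝ) *
        (kn (z.1 - z.2) ^ (-(7 / 4) : ℝ) * y (z.1 - z.2) * (x z.2 * x z.1)) := by
    intro z hz
    have h2 := (J6N.term_le hM z (hS z hz).1 (hS z hz).2).1
    have h3 : 0 ≤ x z.2 * y (z.1 - z.2) * x z.1 := mul_nonneg (mul_nonneg (hx _) (hy _)) (hx _)
    refine (mul_le_mul_of_nonneg_right h2 h3).trans (le_of_eq ?_)
    ring
  have hP : ∀ q ∈ S.image (fun z => z.1 - z.2), 1 ≤ kn q := by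
    intro q hq
    obtain ⟨z, hz, rfl⟩ := Finset.mem_image.1 hq
    exact (J6N.term_le hM z (hS z hz).1 (hS z hz).2).2
  have h2 : ∑ z ∈ S, kn (z.1 - z.2) ^ (-(7 / 4) : ℝ) * y (z.1 - z.2) * (x z.2 * x z.1) ≤
      ∑ q ∈ S.image (fun z => z.1 - z.2), kn q ^ (-(7 / 4) : ℝ) * y q * X0 := by
    rw [← Finset.sum_fiberwise_of_maps_to (s := S) (t := S.image (fun z => z.1 - z.2))
      (g := fun z => z.1 - z.2)
      (fun z hz => Finset.mem_image_of_mem (fun z : K × K => z.1 - z.2) hz)]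
    apply Finset.sum_le_sum
    intro q hq
    have h3 : ∑ z ∈ S with z.1 - z.2 = q,
        kn (z.1 - z.2) ^ (-(7 / 4) : ℝ) * y (z.1 - z.2) * (x z.2 * x z.1) =
        kn q ^ (-(7 / 4) : ℝ) * y q * ∑ z ∈ S with z.1 - z.2 = q, (x z.2 * x z.1) := by
      rw [Finset.mul_sum]
      apply Finset.sum_congr rfl
      intro z hz
      rw [(Finset.mem_filter.1 hz).2]
    rw [h3]
    apply mul_le_mul_of_nonneg_left
    · exact J6N.fibre_le x X0 hX q _ (fun z hz => (Finset.mem_filter.1 hz).2)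
    · exact mul_nonneg (Real.rpow_nonneg (kn_nonneg q) _) (hy q)
  have h3 : ∑ q ∈ S.image (fun z => z.1 - z.2), kn q ^ (-(7 / 4) : ℝ) * y q ≤
      √((∑' n, hw n) ^ 3) * √Y0 := by
    refine (Real.sum_mul_le_sqrt_mul_sqrt _ _ _).trans ?_
    exact mul_le_mul (Real.sqrt_le_sqrt (sum_rpow _ hP)) (Real.sqrt_le_sqrt (hY _))
      (Real.sqrt_nonneg _) (Real.sqrt_nonneg _)
  calc ∑ z ∈ S, min (kn z.1) (kn (z.1 - z.2)) / mx z ^ 3 * (x z.2 * y (z.1 - z.2) * x z.1) ≤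
      ∑ z ∈ S, M ^ (-(1 / 4) : ℝ) *
        (kn (z.1 - z.2) ^ (-(7 / 4) : ℝ) * y (z.1 - z.2) * (x z.2 * x z.1)) :=
        Finset.sum_le_sum h1
    _ = M ^ (-(1 / 4) : ℝ) *
        ∑ z ∈ S, (kn (z.1 - z.2) ^ (-(7 / 4) : ℝ) * y (z.1 - z.2) * (x z.2 * x z.1)) := by
        rw [Finset.mul_sum]
    _ ≤ M ^ (-(1 / 4) : ℝ) *
        (∑ q ∈ S.image (fun z => z.1 - z.2), kn q ^ (-(7 / 4) : ℝ) * y q * X0) :=
        mul_le_mul_of_nonneg_left h2 hM0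
    _ = M ^ (-(1 / 4) : ℝ) *
        ((∑ q ∈ S.image (fun z => z.1 - z.2), kn q ^ (-(7 / 4) : ℝ) * y q) * X0) := by
        rw [Finset.sum_mul]
    _ ≤ M ^ (-(1 / 4) : ℝ) * ((√((∑' n, hw n) ^ 3) * √Y0) * X0) :=
        mul_le_mul_of_nonneg_left (mul_le_mul_of_nonneg_right h3 hE0) hM0
    _ = √((∑' n, hw n) ^ 3) * (X0 * √Y0) * M ^ (-(1 / 4) : ℝ) := by ring

end Pool.Agent.H303.DEE.F
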