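import Pool.Agent.H303.DEE.Stm7
import Pool.Agent.H303.DEE.FH8a

/-!
# A Hilbert inequality, two sequences (J7a; helper8)
-/

set_option autoImplicit false

open MeasureTheory Set Filter Topology Complex
open scoped ContDiff ENNReal

namespace Pool.Agent.H303.DEE.F

namespace H8J7a

open FH8a

theorem half (x y : K → ℝ) (X1 Y1 : ℝ) (hx : ∀ k, 0 ≤ x k) (hy : ∀ k, 0 ≤ y k)
    (hX : ∀ F : Finset K, ∑ k ∈ F, kn k ^ 2 * x k ^ 2 ≤ X1)
    (hY : ∀ F : Finset K, ∑ k ∈ F, kn k ^ 2 * y k ^ 2 ≤ Y1)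
    (S : Finset (K × K)) (hS : ∀ z ∈ S, 1 ≤ kn z.2 ∧ kn z.2 ≤ kn z.1) :
    ∑ z ∈ S, (kn z.1)⁻¹ * (x z.1 * y z.2) ≤ 700 * (√X1 * √Y1) := by
  classical
  have hX0 : 0 ≤ X1 := by
    have := hX ∅
    simpa using this
  have hY0 : 0 ≤ Y1 := by
    have := hY ∅
    simpa using this
  obtain ⟨r, hr⟩ : ∃ r : K × K → ℝ, ∀ z, r z = (kn z.1 * x z.1) * (kn z.2 * y z.2) *
    ((1 / 4 : ℝ) ^ jn z.1 * (1 / 2) ^ jn z.2) := ⟨_, fun _ => rfl⟩
  obtain ⟨f, hf⟩ : ∃ f : K × K → ℝ, ∀ z, f z = (kn z.1 * x z.1) ^ 2 * (2 / 3 : ℝ) ^ jn z.1 *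
    ((1 / 8 : ℝ) ^ jn z.2 * (3 / 2) ^ jn z.2) := ⟨_, fun _ => rfl⟩
  obtain ⟨g, hg⟩ : ∃ g : K × K → ℝ, ∀ z, g z = (kn z.2 * y z.2) ^ 2 * (4 / 3 : ℝ) ^ jn z.2 *
    ((1 / 16 : ℝ) ^ jn z.1 * (3 / 2) ^ jn z.1) := ⟨_, fun _ => rfl⟩
  have hkn : ∀ k : K, 0 ≤ kn k := fun k => Real.sqrt_nonneg _
  have e1 : ∀ n : ℕ, ((1 / 4 : ℝ) ^ n) ^ 2 = (2 / 3) ^ n * ((1 / 16) ^ n * (3 / 2) ^ n) := by
    intro n
    rw [← mul_pow, ← mul_pow, ← pow_mul, mul_comm n 2, pow_mul]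
    norm_num
  have e2 : ∀ n : ℕ, ((1 / 2 : ℝ) ^ n) ^ 2 = (4 / 3) ^ n * ((1 / 8) ^ n * (3 / 2) ^ n) := by
    intro n
    rw [← mul_pow, ← mul_pow, ← pow_mul, mul_comm n 2, pow_mul]
    norm_num
  have hfg : ∀ z ∈ S, r z ^ 2 = f z * g z := by
    intro z _
    rw [hr, hf, hg]
    calc ((kn z.1 * x z.1) * (kn z.2 * y z.2) * ((1 / 4 : ℝ) ^ jn z.1 * (1 / 2) ^ jn z.2)) ^ 2 =
          (kn z.1 * x z.1) ^ 2 * (kn z.2 * y z.2) ^ 2 *
            (((1 / 4 : ℝ) ^ jn z.1) ^ 2 * ((1 / 2) ^ jn z.2) ^ 2) := by ring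
      _ = _ := by
        rw [e1, e2]
        ring
  have hCS := Finset.sum_sq_le_sum_mul_sum_of_sq_eq_mul S (r := r) (f := f) (g := g)
    (fun z _ => by rw [hf]; positivity) (fun z _ => by rw [hg]; positivity) hfg
  -- the pointwise bound
  have hpt : ∀ z ∈ S, (kn z.1)⁻¹ * (x z.1 * y z.2) ≤ r z := by
    intro z hz
    obtain ⟨hz2, hz3⟩ := hS z hz
    have hz1 : 1 ≤ kn z.1 := hz2.trans hz3
    have p1 := pow_jn hz1
    have p2 := pow_jn hz2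
    have q1 : (kn z.1)⁻¹ ≤ (1 / 2 : ℝ) ^ jn z.1 := by
      rw [one_div, inv_pow]
      exact inv_anti₀ (by positivity) p1
    have q2 : (kn z.2)⁻¹ ≤ (1 / 2 : ℝ) ^ jn z.2 := by
      rw [one_div, inv_pow]
      exact inv_anti₀ (by positivity) p2
    have q3 : (kn z.1)⁻¹ ^ 2 ≤ (1 / 4 : ℝ) ^ jn z.1 := by
      refine (pow_le_pow_left₀ (inv_nonneg.2 (hkn _)) q1 2).trans (le_of_eq ?_)
      rw [← pow_mul, mul_comm, pow_mul]
      norm_num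
    have n1 : kn z.1 ≠ 0 := by linarith
    have n2 : kn z.2 ≠ 0 := by linarith
    have e3 : (kn z.1)⁻¹ * (x z.1 * y z.2) = (kn z.1 * x z.1) * (kn z.2 * y z.2) *
        ((kn z.1)⁻¹ ^ 2 * (kn z.2)⁻¹) := by
      field_simp
    rw [e3, hr]
    refine mul_le_mul_of_nonneg_left ?_
      (mul_nonneg (mul_nonneg (hkn _) (hx _)) (mul_nonneg (hkn _) (hy _)))
    exact mul_le_mul q3 q2 (inv_nonneg.2 (hkn _)) (by positivity)
  -- the two sums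
  have hF : ∑ z ∈ S, f z ≤ 700 * X1 := by
    have h1 := sum_fst S (fun b => (kn b * x b) ^ 2 * (2 / 3 : ℝ) ^ jn b)
      (fun c => (1 / 8 : ℝ) ^ jn c * (3 / 2) ^ jn c) 700 (fun b => (3 / 2 : ℝ) ^ jn b)
      (fun b => by positivity) (fun b F hF => low F (jn b) fun c hc =>
        jn_le (hS _ (hF c hc)).1 (hS _ (hF c hc)).2)
    have h2 : ∑ z ∈ S, f z = ∑ z ∈ S, (fun b => (kn b * x b) ^ 2 * (2 / 3 : ℝ) ^ jn b) z.1 *
        (fun c => (1 / 8 : ℝ) ^ jn c * (3 / 2) ^ jn c) z.2 := Finset.sum_congr rfl fun z _ => hf z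
    rw [h2]
    refine h1.trans (mul_le_mul_of_nonneg_left ?_ (by norm_num))
    have h3 := hX (S.image Prod.fst)
    refine le_trans (le_of_eq (Finset.sum_congr rfl fun b _ => ?_)) h3
    have h4 : (2 / 3 : ℝ) ^ jn b * (3 / 2) ^ jn b = 1 := by
      rw [← mul_pow]
      norm_num
    show (kn b * x b) ^ 2 * (2 / 3 : ℝ) ^ jn b * (3 / 2 : ℝ) ^ jn b = _
    rw [mul_assoc, h4, mul_one, mul_pow]
  have hGs : ∑ z ∈ S, g z ≤ 700 * Y1 := by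
    have h1 := sum_snd S (fun b => (kn b * y b) ^ 2 * (4 / 3 : ℝ) ^ jn b)
      (fun c => (1 / 16 : ℝ) ^ jn c * (3 / 2) ^ jn c) 700 (fun b => (3 / 4 : ℝ) ^ jn b)
      (fun b => by positivity) (fun c F hF => high F (jn c) fun b hb =>
        jn_le (hS _ (hF b hb)).1 (hS _ (hF b hb)).2)
    have h2 : ∑ z ∈ S, g z = ∑ z ∈ S, (fun b => (kn b * y b) ^ 2 * (4 / 3 : ℝ) ^ jn b) z.2 *
        (fun c => (1 / 16 : ℝ) ^ jn c * (3 / 2) ^ jn c) z.1 := Finset.sum_congr rfl fun z _ => hg z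
    rw [h2]
    refine h1.trans (mul_le_mul_of_nonneg_left ?_ (by norm_num))
    have h3 := hY (S.image Prod.snd)
    refine le_trans (le_of_eq (Finset.sum_congr rfl fun b _ => ?_)) h3
    have h4 : (4 / 3 : ℝ) ^ jn b * (3 / 4) ^ jn b = 1 := by
      rw [← mul_pow]
      norm_num
    show (kn b * y b) ^ 2 * (4 / 3 : ℝ) ^ jn b * (3 / 4 : ℝ) ^ jn b = _
    rw [mul_assoc, h4, mul_one, mul_pow]
  refine (Finset.sum_le_sum hpt).trans ?_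
  have hf0 : 0 ≤ ∑ z ∈ S, f z := Finset.sum_nonneg fun z _ => by rw [hf]; positivity
  have hg0 : 0 ≤ ∑ z ∈ S, g z := Finset.sum_nonneg fun z _ => by rw [hg]; positivity
  refine le_of_sq_le_sq ?_ (by positivity)
  refine hCS.trans ?_
  calc (∑ z ∈ S, f z) * ∑ z ∈ S, g z ≤ (700 * X1) * (700 * Y1) :=
        mul_le_mul hF hGs hg0 (by positivity)
    _ = (700 * (√X1 * √Y1)) ^ 2 := by
        rw [mul_pow, mul_pow, Real.sq_sqrt hX0, Real.sq_sqrt hY0]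
        ring

theorem main : J7a := by
  classical
  refine ⟨1400, by norm_num, fun x y X1 Y1 hx hy hX hY S hS => ?_⟩
  rw [← Finset.sum_filter_add_sum_filter_not S (fun z => kn z.2 ≤ kn z.1)]
  have h1 : ∑ z ∈ S with kn z.2 ≤ kn z.1, (max (kn z.1) (kn z.2))⁻¹ * (x z.1 * y z.2) ≤
      700 * (√X1 * √Y1) := by
    refine le_trans (le_of_eq (Finset.sum_congr rfl fun z hz => ?_))
      (half x y X1 Y1 hx hy hX hY (S.filter fun z => kn z.2 ≤ kn z.1) fun z hz => ?_)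
    · rw [max_eq_left (Finset.mem_filter.1 hz).2]
    · exact ⟨(hS z (Finset.mem_filter.1 hz).1).2, (Finset.mem_filter.1 hz).2⟩
  have h2 : ∑ z ∈ S with ¬ kn z.2 ≤ kn z.1, (max (kn z.1) (kn z.2))⁻¹ * (x z.1 * y z.2) ≤
      700 * (√Y1 * √X1) := by
    have h3 := half y x Y1 X1 hy hx hY hX
      ((S.filter fun z => ¬ kn z.2 ≤ kn z.1).image Prod.swap) (fun w hw => by
        obtain ⟨z, hz, rfl⟩ := Finset.mem_image.1 hw
        obtain ⟨hz1, hz2⟩ := Finset.mem_filter.1 hz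
        exact ⟨(hS z hz1).1, (not_le.1 hz2).le⟩)
    rw [Finset.sum_image (fun a _ b _ h => Prod.swap_injective h)] at h3
    refine le_trans (le_of_eq (Finset.sum_congr rfl fun z hz => ?_)) h3
    rw [max_eq_right (not_le.1 (Finset.mem_filter.1 hz).2).le]
    show (kn z.2)⁻¹ * (x z.1 * y z.2) = (kn z.2)⁻¹ * (y z.2 * x z.1)
    ring
  have h4 : √Y1 * √X1 = √X1 * √Y1 := mul_comm _ _
  rw [h4] at h2
  linarith

end H8J7a

theorem j7a (h8a : H8a) : J7a := by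
  have _h := h8a
  exact H8J7a.main

end Pool.Agent.H303.DEE.F
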