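import Pool.Agent.H303.DEE.Stm7
import Pool.Agent.H303.DEE.FH8a

/-!
# A weighted Hilbert inequality of lower order (J7b)

Schur test in dyadic shells, with the derivative on the larger frequency.
-/

set_option autoImplicit false

open MeasureTheory Set Filter Topology Complex
open scoped ContDiff ENNReal

namespace Pool.Agent.H303.DEE.F

namespace J7bAux

open FH8a

theorem high2 (F : Finset K) (a : ℕ) (h : ∀ b ∈ F, a ≤ jn b + 1) :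
    ∑ b ∈ F, ((1 / 64 : ℝ) ^ jn b * (3 / 2) ^ jn b) ≤ 900 * (3 / 16) ^ a := by
  refine (sum_shell F (Finset.Ico (a - 1) (F.sup jn + 1)) (fun i => (1 / 64 : ℝ) ^ i * (3 / 2) ^ i)
    (fun i => by positivity) (fun b hb => Finset.mem_Ico.2 ⟨by
      have := h b hb
      omega, Nat.lt_succ_of_le (Finset.le_sup hb)⟩)).trans ?_
  have h1 : ∀ i ∈ Finset.Ico (a - 1) (F.sup jn + 1),
      125 * 8 ^ i * ((1 / 64 : ℝ) ^ i * (3 / 2) ^ i) = 125 * (3 / 16) ^ i := by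
    intro i _
    have h2 : (8 : ℝ) ^ i * ((1 / 64) ^ i * (3 / 2) ^ i) = (3 / 16) ^ i := by
      rw [← mul_pow, ← mul_pow]
      norm_num
    rw [mul_assoc, h2]
  rw [Finset.sum_congr rfl h1, ← Finset.mul_sum]
  have h2 := geom_sum_Ico_le_of_lt_one (x := (3 / 16 : ℝ)) (by norm_num) (by norm_num)
    (m := a - 1) (n := F.sup jn + 1)
  have h3 : (3 / 16 : ℝ) ^ (a - 1) ≤ 16 / 3 * (3 / 16) ^ a := by
    rcases a with _ | a
    · norm_num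
    · rw [Nat.add_sub_cancel, pow_succ]
      linarith
  have h4 : (3 / 16 : ℝ) ^ (a - 1) / (1 - 3 / 16) = 16 / 13 * (3 / 16) ^ (a - 1) := by ring
  rw [h4] at h2
  have h5 : 0 < (3 / 16 : ℝ) ^ a := by positivity
  linarith

theorem half (x : K → ℝ) (X0 X1 : ℝ) (hx : ∀ k, 0 ≤ x k)
    (h0 : ∀ F : Finset K, ∑ k ∈ F, x k ^ 2 ≤ X0)
    (h1' : ∀ F : Finset K, ∑ k ∈ F, kn k ^ 2 * x k ^ 2 ≤ X1) (S : Finset (K × K))
    (hS : ∀ z ∈ S, 1 ≤ kn z.2 ∧ kn z.2 ≤ kn z.1) :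
    ∑ z ∈ S, (kn z.1 ^ 2)⁻¹ * (x z.1 * x z.2) ≤ 900 * (√X0 * √X1) := by
  classical
  have hX0 : 0 ≤ X0 := by
    have := h0 ∅
    simpa using this
  have hX1 : 0 ≤ X1 := by
    have := h1' ∅
    simpa using this
  obtain ⟨r, hr⟩ : ∃ r : K × K → ℝ, ∀ z, r z = (kn z.1 * x z.1) * x z.2 *
    (1 / 8 : ℝ) ^ jn z.1 := ⟨_, fun _ => rfl⟩
  obtain ⟨f, hf⟩ : ∃ f : K × K → ℝ, ∀ z, f z = (kn z.1 * x z.1) ^ 2 * (2 / 3 : ℝ) ^ jn z.1 *
    ((1 / 8 : ℝ) ^ jn z.2 * (3 / 2) ^ jn z.2) := ⟨_, fun _ => rfl⟩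
  obtain ⟨g, hg⟩ : ∃ g : K × K → ℝ, ∀ z, g z = x z.2 ^ 2 * (16 / 3 : ℝ) ^ jn z.2 *
    ((1 / 64 : ℝ) ^ jn z.1 * (3 / 2) ^ jn z.1) := ⟨_, fun _ => rfl⟩
  have hkn : ∀ k : K, 0 ≤ kn k := fun k => Real.sqrt_nonneg _
  have e1 : ∀ n : ℕ, ((1 / 8 : ℝ) ^ n) ^ 2 = (2 / 3) ^ n * ((1 / 64) ^ n * (3 / 2) ^ n) := by
    intro n
    rw [← mul_pow, ← mul_pow, ← pow_mul, mul_comm n 2, pow_mul]
    norm_num
  have e2 : ∀ n : ℕ, (16 / 3 : ℝ) ^ n * ((1 / 8) ^ n * (3 / 2) ^ n) = 1 := by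
    intro n
    rw [← mul_pow, ← mul_pow]
    norm_num
  have hfg : ∀ z ∈ S, r z ^ 2 = f z * g z := by
    intro z _
    rw [hr, hf, hg]
    calc ((kn z.1 * x z.1) * x z.2 * (1 / 8 : ℝ) ^ jn z.1) ^ 2 =
          (kn z.1 * x z.1) ^ 2 * x z.2 ^ 2 * ((1 / 8 : ℝ) ^ jn z.1) ^ 2 * 1 := by ring
      _ = (kn z.1 * x z.1) ^ 2 * x z.2 ^ 2 *
          ((2 / 3) ^ jn z.1 * ((1 / 64) ^ jn z.1 * (3 / 2) ^ jn z.1)) *
          ((16 / 3 : ℝ) ^ jn z.2 * ((1 / 8) ^ jn z.2 * (3 / 2) ^ jn z.2)) := by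
        rw [e1, e2]
      _ = _ := by ring
  have hCS := Finset.sum_sq_le_sum_mul_sum_of_sq_eq_mul S (r := r) (f := f) (g := g)
    (fun z _ => by rw [hf]; positivity) (fun z _ => by rw [hg]; positivity) hfg
  have hpt : ∀ z ∈ S, (kn z.1 ^ 2)⁻¹ * (x z.1 * x z.2) ≤ r z := by
    intro z hz
    obtain ⟨hz2, hz3⟩ := hS z hz
    have hz1 : 1 ≤ kn z.1 := hz2.trans hz3
    have p1 := pow_jn hz1
    have q1 : (kn z.1)⁻¹ ≤ (1 / 2 : ℝ) ^ jn z.1 := by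
      rw [one_div, inv_pow]
      exact inv_anti₀ (by positivity) p1
    have q3 : (kn z.1)⁻¹ ^ 3 ≤ (1 / 8 : ℝ) ^ jn z.1 := by
      refine (pow_le_pow_left₀ (inv_nonneg.2 (hkn _)) q1 3).trans (le_of_eq ?_)
      rw [← pow_mul, mul_comm, pow_mul]
      norm_num
    have n1 : kn z.1 ≠ 0 := by linarith
    have e3 : (kn z.1 ^ 2)⁻¹ * (x z.1 * x z.2) = (kn z.1 * x z.1) * x z.2 * (kn z.1)⁻¹ ^ 3 := by
      field_simp
    rw [e3, hr]
    exact mul_le_mul_of_nonneg_left q3 (mul_nonneg (mul_nonneg (hkn _) (hx _)) (hx _))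
  have hF : ∑ z ∈ S, f z ≤ 700 * X1 := by
    have h1 := sum_fst S (fun b => (kn b * x b) ^ 2 * (2 / 3 : ℝ) ^ jn b)
      (fun c => (1 / 8 : ℝ) ^ jn c * (3 / 2) ^ jn c) 700 (fun b => (3 / 2 : ℝ) ^ jn b)
      (fun b => by positivity) (fun b F hF => low F (jn b) fun c hc =>
        jn_le (hS _ (hF c hc)).1 (hS _ (hF c hc)).2)
    have h2 : ∑ z ∈ S, f z = ∑ z ∈ S, (fun b => (kn b * x b) ^ 2 * (2 / 3 : ℝ) ^ jn b) z.1 *
        (fun c => (1 / 8 : ℝ) ^ jn c * (3 / 2) ^ jn c) z.2 := Finset.sum_congr rfl fun z _ => hf z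
    rw [h2]
    refine h1.trans (mul_le_mul_of_nonneg_left ?_ (by norm_num))
    refine le_trans (le_of_eq (Finset.sum_congr rfl fun b _ => ?_)) (h1' (S.image Prod.fst))
    have h4 : (2 / 3 : ℝ) ^ jn b * (3 / 2) ^ jn b = 1 := by
      rw [← mul_pow]
      norm_num
    show (kn b * x b) ^ 2 * (2 / 3 : ℝ) ^ jn b * (3 / 2 : ℝ) ^ jn b = _
    rw [mul_assoc, h4, mul_one, mul_pow]
  have hGs : ∑ z ∈ S, g z ≤ 900 * X0 := by
    have h1 := sum_snd S (fun b => x b ^ 2 * (16 / 3 : ℝ) ^ jn b)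
      (fun c => (1 / 64 : ℝ) ^ jn c * (3 / 2) ^ jn c) 900 (fun b => (3 / 16 : ℝ) ^ jn b)
      (fun b => by positivity) (fun c F hF => high2 F (jn c) fun b hb =>
        jn_le (hS _ (hF b hb)).1 (hS _ (hF b hb)).2)
    have h2 : ∑ z ∈ S, g z = ∑ z ∈ S, (fun b => x b ^ 2 * (16 / 3 : ℝ) ^ jn b) z.2 *
        (fun c => (1 / 64 : ℝ) ^ jn c * (3 / 2) ^ jn c) z.1 := Finset.sum_congr rfl fun z _ => hg z
    rw [h2]
    refine h1.trans (mul_le_mul_of_nonneg_left ?_ (by norm_num))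
    refine le_trans (le_of_eq (Finset.sum_congr rfl fun b _ => ?_)) (h0 (S.image Prod.snd))
    have h4 : (16 / 3 : ℝ) ^ jn b * (3 / 16) ^ jn b = 1 := by
      rw [← mul_pow]
      norm_num
    show x b ^ 2 * (16 / 3 : ℝ) ^ jn b * (3 / 16 : ℝ) ^ jn b = _
    rw [mul_assoc, h4, mul_one]
  refine (Finset.sum_le_sum hpt).trans ?_
  have hf0 : 0 ≤ ∑ z ∈ S, f z := Finset.sum_nonneg fun z _ => by rw [hf]; positivity
  have hg0 : 0 ≤ ∑ z ∈ S, g z := Finset.sum_nonneg fun z _ => by rw [hg]; positivity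
  refine le_of_sq_le_sq ?_ (by positivity)
  refine hCS.trans ?_
  calc (∑ z ∈ S, f z) * ∑ z ∈ S, g z ≤ (900 * X1) * (900 * X0) :=
        mul_le_mul (by linarith) hGs hg0 (by positivity)
    _ = (900 * (√X0 * √X1)) ^ 2 := by
        rw [mul_pow, mul_pow, Real.sq_sqrt hX0, Real.sq_sqrt hX1]
        ring

end J7bAux

open J7bAux in
theorem j7b : J7b := by
  classical
  refine ⟨1800, by norm_num, fun x X0 X1 hx h0 h1 S hS => ?_⟩
  have hkn : ∀ k : K, 0 ≤ kn k := fun k => Real.sqrt_nonneg _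
  rw [← Finset.sum_filter_add_sum_filter_not S (fun z => kn z.2 ≤ kn z.1)]
  have a1 : ∑ z ∈ S with kn z.2 ≤ kn z.1, (max (kn z.1) (kn z.2) ^ 2)⁻¹ * (x z.1 * x z.2) ≤
      900 * (√X0 * √X1) := by
    refine le_trans (le_of_eq (Finset.sum_congr rfl fun z hz => ?_))
      (half x X0 X1 hx h0 h1 (S.filter fun z => kn z.2 ≤ kn z.1) fun z hz => ?_)
    · rw [max_eq_left (Finset.mem_filter.1 hz).2]
    · exact ⟨(hS z (Finset.mem_filter.1 hz).1).2, (Finset.mem_filter.1 hz).2⟩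
  have a2 : ∑ z ∈ S with ¬ kn z.2 ≤ kn z.1, (max (kn z.1) (kn z.2) ^ 2)⁻¹ * (x z.1 * x z.2) ≤
      900 * (√X0 * √X1) := by
    have b1 := half x X0 X1 hx h0 h1 ((S.filter fun z => ¬ kn z.2 ≤ kn z.1).image Prod.swap)
      (by
        intro z hz
        obtain ⟨w, hw, rfl⟩ := Finset.mem_image.1 hz
        obtain ⟨hw1, hw2⟩ := Finset.mem_filter.1 hw
        exact ⟨(hS w hw1).1, (not_le.1 hw2).le⟩)
    rw [Finset.sum_image (fun z _ w _ h => Prod.swap_injective h)] at b1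
    refine le_trans (le_of_eq (Finset.sum_congr rfl fun z hz => ?_)) b1
    rw [max_eq_right (not_le.1 (Finset.mem_filter.1 hz).2).le]
    show (kn z.2 ^ 2)⁻¹ * (x z.1 * x z.2) = (kn z.2 ^ 2)⁻¹ * (x z.2 * x z.1)
    ring
  linarith

end Pool.Agent.H303.DEE.F
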