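import Pool.Agent.H303.DEE.Stm7
import Pool.Agent.H303.DEE.FH4

/-!
Project DEE-J, steps J8a, J8b: bounds for the nonlinear terms.
-/

open MeasureTheory Set Filter Topology Complex
open scoped ContDiff ENNReal

namespace Pool.Agent.H303.DEE.F

namespace J8ab

open FH4

/-- the Cauchy-Schwarz inequality for series -/
theorem cs {x y : K → ℝ} {X Y : ℝ} (hx : ∀ k, 0 ≤ x k) (hy : ∀ k, 0 ≤ y k)
    (sx : Summable fun k => x k ^ 2) (sy : Summable fun k => y k ^ 2)
    (hX : ∑' k, x k ^ 2 ≤ X) (hY : ∑' k, y k ^ 2 ≤ Y) :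
    (Summable fun k => x k * y k) ∧ ∑' k, x k * y k ≤ √X * √Y := by
  have h0 : ∀ k, 0 ≤ x k * y k := fun k => mul_nonneg (hx k) (hy k)
  have h1 : ∀ F : Finset K, ∑ k ∈ F, x k * y k ≤ √X * √Y := by
    intro F
    refine (Real.sum_mul_le_sqrt_mul_sqrt F x y).trans ?_
    refine mul_le_mul (Real.sqrt_le_sqrt ?_) (Real.sqrt_le_sqrt ?_) (Real.sqrt_nonneg _)
      (Real.sqrt_nonneg _)
    · exact (sx.sum_le_tsum F fun k _ => sq_nonneg _).trans hX
    · exact (sy.sum_le_tsum F fun k _ => sq_nonneg _).trans hY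
  have hs : Summable fun k => x k * y k := summable_of_sum_le h0 h1
  exact ⟨hs, hs.tsum_le_of_sum_le h1⟩

/-- the terms of the series -/
noncomputable def T (U : K → C3) (k p : K) : EuclideanSpace ℂ (Fin 3) :=
  dt k (U p) • WithLp.toLp 2 (U (k - p))

theorem norm_T (U : K → C3) (k p : K) : ‖T U k p‖ ≤ kn k * (nm (U p) * nm (U (k - p))) := by
  have h1 : ‖T U k p‖ = ‖dt k (U p)‖ * nm (U (k - p)) := by
    rw [nm_eq]; exact norm_smul _ _
  rw [h1, ← mul_assoc]
  exact mul_le_mul_of_nonneg_right (norm_dt_le k (U p)) (nm_nonneg _)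

theorem sum_T {U : K → C3} (h : Summable fun k => nm (U k) ^ 2) (k : K) : Summable (T U k) := by
  obtain ⟨hr1, _⟩ := summable_refl U h k
  have h1 := (cs (fun p => nm_nonneg (U p)) (fun p => nm_nonneg (U (k - p))) h hr1 le_rfl le_rfl).1
  exact (Summable.of_nonneg_of_le (fun _ => norm_nonneg _) (norm_T U k) (h1.mul_left _)).of_norm

theorem Bn_eq {U : K → C3} (h : Summable fun k => nm (U k) ^ 2) (k : K) :
    (WithLp.toLp 2 (Bn U k) : EuclideanSpace ℂ (Fin 3)) =
      (2 * Real.pi * I : ℂ) • ∑' p, T U k p := by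
  have hsT := sum_T h k
  ext i
  have := (EuclideanSpace.proj (𝕜 := ℂ) (ι := Fin 3) i).map_tsum hsT
  have h2 : (∑' p, T U k p) i = ∑' p, (T U k p) i := this
  change Bn U k i = (2 * Real.pi * I : ℂ) * (∑' p, T U k p) i
  rw [h2]
  rfl

theorem dt_sub (k : K) (v w : C3) : dt k (v - w) = dt k v - dt k w := by
  unfold dt
  rw [← Finset.sum_sub_distrib]
  refine Finset.sum_congr rfl fun j _ => ?_
  rw [Pi.sub_apply]
  ring

theorem Pr_sub (k : K) (v w : C3) : Pr k v - Pr k w = Pr k (v - w) := by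
  funext i
  rw [Pi.sub_apply]
  unfold Pr
  rw [dt_sub, Pi.sub_apply]
  ring

/-- the triangle inequality -/
theorem kn_le (k p : K) : kn k ≤ kn p + kn (k - p) := by
  rw [← norm_kC, ← norm_kC, ← norm_kC]
  have h : kC k = kC p + kC (k - p) := by
    ext i
    simp [kC]
  rw [h]
  exact norm_add_le _ _

theorem norm_c : ‖(2 * Real.pi * I : ℂ)‖ = 2 * Real.pi := by
  simp [abs_of_nonneg Real.pi_nonneg]

/-- the final estimate -/
theorem fin_le {v : C3} {k : K} {S : EuclideanSpace ℂ (Fin 3)} {W : ℝ}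
    (hv : (WithLp.toLp 2 v : EuclideanSpace ℂ (Fin 3)) = (2 * Real.pi * I : ℂ) • S)
    (hS : ‖S‖ ≤ 2 * W) : nm (Pr k v) ≤ 100 * W := by
  have h1 := nm_Pr_le k v
  have hW : 0 ≤ W := by
    have := (norm_nonneg S).trans hS
    linarith
  have h2 : nm v ≤ 2 * Real.pi * (2 * W) := by
    rw [nm_eq, hv, norm_smul, norm_c]
    exact mul_le_mul_of_nonneg_left hS (by positivity)
  have h4 : Real.pi < 3.15 := Real.pi_lt_d2
  calc nm (Pr k v) ≤ 2 * nm v := h1
    _ ≤ 2 * (2 * Real.pi * (2 * W)) := by linarith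
    _ ≤ 100 * W := by nlinarith

theorem summable_diff {a b : K → C3} (ha : Summable fun k => nm (a k) ^ 2)
    (hb : Summable fun k => nm (b k) ^ 2) : Summable fun k => nm (a k - b k) ^ 2 := by
  refine Summable.of_nonneg_of_le (fun _ => sq_nonneg _) (fun k => ?_)
    ((ha.add hb).mul_left 2)
  have h1 : nm (a k - b k) ≤ nm (a k) + nm (b k) := by
    rw [nm_eq, nm_eq, nm_eq]
    exact norm_sub_le _ _
  have h2 := nm_nonneg (a k - b k)
  have h3 := nm_nonneg (a k)
  have h4 := nm_nonneg (b k)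
  nlinarith [sq_nonneg (nm (a k) - nm (b k))]

end J8ab

open J8ab FH4 in
theorem j8a : J8a := by
  intro a b E D ha hb hEa hEb hD k
  have hd := summable_diff ha hb
  have hkey : Nl a k - Nl b k = Pr k (Bn a k - Bn b k) := Pr_sub k _ _
  rw [hkey]
  refine ⟨?_, dt_Pr k _⟩
  obtain ⟨hr1, hr2⟩ := summable_refl (fun p => a p - b p) hd k
  obtain ⟨hb1, hb2⟩ := summable_refl b hb k
  obtain ⟨c1, c2⟩ := cs (fun p => nm_nonneg (a p)) (fun p => nm_nonneg (a (k - p) - b (k - p)))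
    ha hr1 hEa (hr2.le.trans hD)
  obtain ⟨e1, e2⟩ := cs (fun p => nm_nonneg (a p - b p)) (fun p => nm_nonneg (b (k - p)))
    hd hb1 hD (hb2.le.trans hEb)
  have hv : (WithLp.toLp 2 (Bn a k - Bn b k) : EuclideanSpace ℂ (Fin 3)) =
      (2 * Real.pi * I : ℂ) • ∑' p, (T a k p - T b k p) := by
    rw [(sum_T ha k).tsum_sub (sum_T hb k), smul_sub, ← Bn_eq ha k, ← Bn_eq hb k]
    rfl
  have hT : ∀ p, ‖T a k p - T b k p‖ ≤ kn k * (nm (a p) * nm (a (k - p) - b (k - p)) +
      nm (a p - b p) * nm (b (k - p))) := by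
    intro p
    have h1 : T a k p - T b k p = dt k (a p) • WithLp.toLp 2 (a (k - p) - b (k - p)) +
        dt k (a p - b p) • WithLp.toLp 2 (b (k - p)) := by
      unfold T
      rw [dt_sub, WithLp.toLp_sub, smul_sub, sub_smul]
      abel
    rw [h1]
    refine (norm_add_le _ _).trans ?_
    rw [norm_smul, norm_smul, ← nm_eq, ← nm_eq]
    have h2 := norm_dt_le k (a p)
    have h3 := norm_dt_le k (a p - b p)
    have h4 := nm_nonneg (a (k - p) - b (k - p))
    have h5 := nm_nonneg (b (k - p))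
    calc _ ≤ kn k * nm (a p) * nm (a (k - p) - b (k - p)) +
          kn k * nm (a p - b p) * nm (b (k - p)) := by gcongr
      _ = _ := by ring
  have hs : Summable fun p => kn k * (nm (a p) * nm (a (k - p) - b (k - p)) +
      nm (a p - b p) * nm (b (k - p))) := (c1.add e1).mul_left _
  have hsn : Summable fun p => ‖T a k p - T b k p‖ :=
    Summable.of_nonneg_of_le (fun _ => norm_nonneg _) hT hs
  have hS : ‖∑' p, (T a k p - T b k p)‖ ≤ 2 * (kn k * (√E * √D)) := by
    calc _ ≤ ∑' p, ‖T a k p - T b k p‖ := norm_tsum_le_tsum_norm hsn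
      _ ≤ ∑' p, kn k * (nm (a p) * nm (a (k - p) - b (k - p)) +
          nm (a p - b p) * nm (b (k - p))) := hsn.tsum_le_tsum hT hs
      _ = kn k * (∑' p, nm (a p) * nm (a (k - p) - b (k - p)) +
          ∑' p, nm (a p - b p) * nm (b (k - p))) := by
        rw [tsum_mul_left, c1.tsum_add e1]
      _ ≤ kn k * (√E * √D + √D * √E) := by
        have := kn_nonneg k
        gcongr
      _ = _ := by ring
  have h9 := fin_le (k := k) hv hS
  calc _ ≤ 100 * (kn k * (√E * √D)) := h9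
    _ = _ := by ring

open J8ab FH4 in
theorem j8b : J8b := by
  intro b E G hb hG hE hGG k
  obtain ⟨hb1, hb2⟩ := summable_refl b hb k
  have hG' : Summable fun p => (kn p * nm (b p)) ^ 2 := by
    simpa only [mul_pow] using hG
  have hGG' : ∑' p, (kn p * nm (b p)) ^ 2 ≤ G := by
    simpa only [mul_pow] using hGG
  have hg1 : Summable fun p => (kn (k - p) * nm (b (k - p))) ^ 2 :=
    (Equiv.subLeft k).summable_iff.2 hG'
  have hg2 : ∑' p, (kn (k - p) * nm (b (k - p))) ^ 2 ≤ G :=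
    ((Equiv.subLeft k).tsum_eq (fun p => (kn p * nm (b p)) ^ 2)).le.trans hGG'
  have hkn : ∀ p, 0 ≤ kn p * nm (b p) := fun p => mul_nonneg (kn_nonneg p) (nm_nonneg _)
  obtain ⟨c1, c2⟩ := cs hkn (fun p => nm_nonneg (b (k - p))) hG' hb1 hGG' (hb2.le.trans hE)
  obtain ⟨e1, e2⟩ := cs (fun p => nm_nonneg (b p)) (fun p => hkn (k - p)) hb hg1 hE hg2
  have hT : ∀ p, ‖T b k p‖ ≤ kn p * nm (b p) * nm (b (k - p)) +
      nm (b p) * (kn (k - p) * nm (b (k - p))) := by
    intro p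
    refine (norm_T b k p).trans ?_
    have h1 := kn_le k p
    have h2 : 0 ≤ nm (b p) * nm (b (k - p)) := mul_nonneg (nm_nonneg _) (nm_nonneg _)
    calc kn k * (nm (b p) * nm (b (k - p))) ≤ (kn p + kn (k - p)) * (nm (b p) * nm (b (k - p))) :=
          mul_le_mul_of_nonneg_right h1 h2
      _ = _ := by ring
  have hs : Summable fun p => kn p * nm (b p) * nm (b (k - p)) +
      nm (b p) * (kn (k - p) * nm (b (k - p))) := c1.add e1
  have hsn : Summable fun p => ‖T b k p‖ :=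
    Summable.of_nonneg_of_le (fun _ => norm_nonneg _) hT hs
  have hS : ‖∑' p, T b k p‖ ≤ 2 * (√E * √G) := by
    calc _ ≤ ∑' p, ‖T b k p‖ := norm_tsum_le_tsum_norm hsn
      _ ≤ ∑' p, (kn p * nm (b p) * nm (b (k - p)) +
          nm (b p) * (kn (k - p) * nm (b (k - p)))) := hsn.tsum_le_tsum hT hs
      _ = ∑' p, kn p * nm (b p) * nm (b (k - p)) +
          ∑' p, nm (b p) * (kn (k - p) * nm (b (k - p))) := c1.tsum_add e1
      _ ≤ √G * √E + √E * √G := add_le_add c2 e2
      _ = _ := by ring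
  exact fin_le (k := k) (Bn_eq hb k) hS

end Pool.Agent.H303.DEE.F
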