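import Pool.Agent.H303.DEE.Stm7

/-!
Project DEE-J (helper303), part J9: the time integrals for the difference (helper790).
-/

set_option autoImplicit false

open MeasureTheory Set Filter Topology Complex
open scoped ContDiff ENNReal

namespace Pool.Agent.H303.DEE.F

namespace J9L

theorem nm_nonneg (v : C3) : 0 ≤ nm v := Real.sqrt_nonneg _

theorem kn_nonneg (k : K) : 0 ≤ kn k := Real.sqrt_nonneg _

theorem mn_nonneg (z : K × K) : 0 ≤ mn z :=
  le_min (kn_nonneg _) (le_min (kn_nonneg _) (kn_nonneg _))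

/-- Tonelli for nonnegative functions -/
theorem tsum_int {ι α : Type} [Countable ι] [MeasurableSpace α] {μ : Measure α} {F : ι → α → ℝ}
    (h0 : ∀ i a, 0 ≤ F i a) (hi : ∀ i, Integrable (F i) μ)
    (hs : Summable fun i => ∫ a, F i a ∂μ) :
    (∀ᵐ a ∂μ, Summable fun i => F i a) ∧ Integrable (fun a => ∑' i, F i a) μ ∧
      ∫ a, ∑' i, F i a ∂μ = ∑' i, ∫ a, F i a ∂μ := by
  have hm : ∀ i, AEMeasurable (fun a => ENNReal.ofReal (F i a)) μ := fun i =>
    (hi i).aestronglyMeasurable.aemeasurable.ennreal_ofReal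
  have hmt : AEMeasurable (fun a => ∑' i, ENNReal.ofReal (F i a)) μ := AEMeasurable.ennreal_tsum hm
  have hlin : ∫⁻ a, ∑' i, ENNReal.ofReal (F i a) ∂μ ≠ ⊤ := by
    rw [lintegral_tsum hm]
    have h1 : ∀ i, ∫⁻ a, ENNReal.ofReal (F i a) ∂μ = ENNReal.ofReal (∫ a, F i a ∂μ) := fun i =>
      (ofReal_integral_eq_lintegral_ofReal (hi i) (ae_of_all _ (h0 i))).symm
    simp only [h1]
    rw [← ENNReal.ofReal_tsum_of_nonneg (fun i => integral_nonneg (h0 i)) hs]
    exact ENNReal.ofReal_ne_top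
  have hae : ∀ᵐ a ∂μ, ∑' i, ENNReal.ofReal (F i a) < ⊤ := ae_lt_top' hmt hlin
  have hsum : ∀ᵐ a ∂μ, Summable fun i => F i a := by
    filter_upwards [hae] with a ha
    have h1 := ENNReal.summable_toReal ha.ne
    refine h1.congr fun i => ?_
    exact ENNReal.toReal_ofReal (h0 i a)
  refine ⟨hsum, ?_, ?_⟩
  · refine (integrable_toReal_of_lintegral_ne_top hmt hlin).congr ?_
    filter_upwards [hsum] with a ha
    rw [← ENNReal.ofReal_tsum_of_nonneg (fun i => h0 i a) ha,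
      ENNReal.toReal_ofReal (tsum_nonneg fun i => h0 i a)]
  · refine (hasSum_integral_of_summable_integral_norm hi ?_).tsum_eq.symm
    refine hs.congr fun i => ?_
    refine integral_congr_ae (ae_of_all _ fun a => ?_)
    exact (Real.norm_of_nonneg (h0 i a)).symm

/-- the elementary inequality -/
theorem young {x0 x1 k c e : ℝ} (h0 : 0 ≤ x0) (h1 : 0 ≤ x1) (hk : 0 ≤ k) (he : 0 < e) :
    c * (√x0 * √x1 * √k) ≤ e * x1 + c ^ 2 / (4 * e) * (k * x0) := by
  have e0 := Real.sq_sqrt h0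
  have e1 := Real.sq_sqrt h1
  have ek := Real.sq_sqrt hk
  set p := √x1
  set q := √x0
  set r := √k
  have h2 : e * x1 + c ^ 2 / (4 * e) * (k * x0) - c * (q * p * r) =
      (2 * e * p - c * (q * r)) ^ 2 / (4 * e) := by
    rw [← e0, ← e1, ← ek]
    field_simp
    ring
  have h3 : 0 ≤ (2 * e * p - c * (q * r)) ^ 2 / (4 * e) := by positivity
  linarith

theorem kn_eq_zero {k : K} (h : kn k = 0) : k = 0 := by
  unfold kn at h
  rw [Real.sqrt_eq_zero (Finset.sum_nonneg fun _ _ => sq_nonneg _)] at h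
  rw [Finset.sum_eq_zero_iff_of_nonneg fun _ _ => sq_nonneg _] at h
  funext j
  have := h j (Finset.mem_univ j)
  have h2 : ((k j : ℤ) : ℝ) = 0 := by simpa using this
  exact_mod_cast h2

theorem dt_zero_left (v : C3) : dt 0 v = 0 := by
  unfold dt
  simp

theorem dt_zero_right (k : K) : dt k 0 = 0 := by
  unfold dt
  simp

theorem Nl_zero (U : K → C3) (i : Fin 3) : Nl U 0 i = 0 := by
  unfold Nl Pr Bn
  simp [dt_zero_left]

section cont
variable {g : K → ℝ} {ν T : ℝ} {a b : ℝ → K → C3}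

theorem zero_mode (hg : ∀ k, g (-k) = -g k) (ha : FSol g ν T a) {t : ℝ} (ht : t ∈ Icc 0 T)
    (i : Fin 3) : a t 0 i = a 0 0 i := by
  have hg0 : g 0 = 0 := by
    have := hg 0
    rw [neg_zero] at this
    linarith
  have hk0 : kn 0 = 0 := by
    unfold kn
    simp
  rw [ha.ode 0 i t ht]
  have h1 : ∀ s, ((-((4 * Real.pi ^ 2 * ν * kn 0 ^ 2 : ℝ) : ℂ) + I * (g 0 : ℂ)) * a s 0 i
      - Nl (a s) 0 i) = 0 := by
    intro s
    rw [Nl_zero, hg0, hk0]
    simp
  simp only [h1]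
  simp

theorem X3_zero {d b : K → C3} (hd0 : d 0 = 0) (hdiv : ∀ k, dt k (d k) = 0) {z : K × K}
    (h : mn z = 0) : X3 d b d z = 0 := by
  unfold X3 Xt
  have h1 : kn z.1 = 0 ∨ kn z.2 = 0 ∨ kn (z.1 - z.2) = 0 := by
    unfold mn at h
    rcases min_choice (kn z.1) (min (kn z.2) (kn (z.1 - z.2))) with h2 | h2
    · left
      rw [← h2, h]
    · right
      rcases min_choice (kn z.2) (kn (z.1 - z.2)) with h3 | h3
      · left
        rw [← h3, ← h2, h]
      · right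
        rw [← h3, ← h2, h]
  rcases h1 with h1 | h1 | h1
  · rw [kn_eq_zero h1, dt_zero_left, zero_mul]
  · rw [kn_eq_zero h1, hd0, dt_zero_right, zero_mul]
  · have h2 := sub_eq_zero.1 (kn_eq_zero h1)
    rw [← h2, hdiv, zero_mul]

theorem nmd_cont (ha : FSol g ν T a) (hb : FSol g ν T b) (k : K) :
    ContinuousOn (fun s => nm (a s k - b s k)) (Icc 0 T) := by
  unfold nm
  refine ContinuousOn.sqrt ?_
  exact continuousOn_finsetSum _ fun i _ => (((ha.cont k i).sub (hb.cont k i)).norm).pow 2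

theorem X3_cont (ha : FSol g ν T a) (hb : FSol g ν T b) (z : K × K) :
    ContinuousOn (fun s => X3 (a s - b s) (b s) (a s - b s) z) (Icc 0 T) := by
  unfold X3 Xt dt
  refine ContinuousOn.mul ?_ ?_
  · exact continuousOn_finsetSum _ fun j _ => continuousOn_const.mul
      ((ha.cont _ j).sub (hb.cont _ j))
  · exact continuousOn_finsetSum _ fun i _ => (hb.cont _ i).mul
      (Complex.continuous_conj.comp_continuousOn ((ha.cont _ i).sub (hb.cont _ i)))

theorem nm_neg (ha : FSol g ν T a) {s : ℝ} (hs : s ∈ Icc 0 T) (k : K) :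
    nm (a s (-k)) = nm (a s k) := by
  unfold nm
  congr 1
  refine Finset.sum_congr rfl fun i _ => ?_
  rw [ha.real s hs k i, Complex.norm_conj]

theorem nmd_neg (ha : FSol g ν T a) (hb : FSol g ν T b) {s : ℝ} (hs : s ∈ Icc 0 T) (k : K) :
    nm ((a s - b s) (-k)) = nm ((a s - b s) k) := by
  unfold nm
  congr 1
  refine Finset.sum_congr rfl fun i _ => ?_
  have h1 : (a s - b s) (-k) i = (starRingEnd ℂ) ((a s - b s) k i) := by
    change a s (-k) i - b s (-k) i = (starRingEnd ℂ) (a s k i - b s k i)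
    rw [ha.real s hs k i, hb.real s hs k i, map_sub]
  rw [h1, Complex.norm_conj]

theorem dtd (ha : FSol g ν T a) (hb : FSol g ν T b) {s : ℝ} (hs : s ∈ Icc 0 T) (k : K) :
    dt k ((a s - b s) k) = 0 := by
  have h1 := ha.div s hs k
  have h2 := hb.div s hs k
  unfold dt at h1 h2 ⊢
  have h3 : ∑ j, (k j : ℂ) * (a s - b s) k j = ∑ j, (k j : ℂ) * a s k j -
      ∑ j, (k j : ℂ) * b s k j := by
    rw [← Finset.sum_sub_distrib]
    refine Finset.sum_congr rfl fun j _ => ?_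
    change (k j : ℂ) * (a s k j - b s k j) = _
    ring
  rw [h3, h1, h2, sub_zero]

/-- triads which are not near resonant -/
theorem far (h3 : J3d) (ha : FSol g ν T a) (hb : FSol g ν T b) (hab : a 0 = b 0)
    {t : ℝ} (ht : t ∈ Icc 0 T) {z : K × K} (hmx : 0 < mx z) (hom : mx z ^ 3 < |om g z|) :
    ‖∫ s in Ioc 0 t, X3 (a s - b s) (b s) (a s - b s) z‖ ≤
      ‖X3 (a t - b t) (b t) (a t - b t) z‖ / mx z ^ 3 +
        ∫ s in Ioc 0 t, ‖Qd (a s) (b s) z‖ / mx z ^ 3 := by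
  have hmx3 : 0 < mx z ^ 3 := by positivity
  have hsub : Icc 0 t ⊆ Icc 0 T := Icc_subset_Icc le_rfl ht.2
  obtain ⟨hQ, heq⟩ := h3 g ν T a b ha hb z
  have iX : IntervalIntegrable (fun s => X3 (a s - b s) (b s) (a s - b s) z) volume 0 t :=
    ((X3_cont ha hb z).mono hsub).intervalIntegrable_of_Icc ht.1
  have iQ : IntervalIntegrable (fun s => Qd (a s) (b s) z) volume 0 t :=
    (intervalIntegrable_iff_integrableOn_Icc_of_le ht.1).2 (hQ.mono_set hsub)
  have e1 := heq t ht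
  have e0 : X3 (a 0 - b 0) (b 0) (a 0 - b 0) z = 0 := by
    rw [hab, sub_self]
    unfold X3 Xt
    have : (0 : K → C3) z.2 = 0 := rfl
    rw [this, dt_zero_right, zero_mul]
  rw [e0, sub_zero, intervalIntegral.integral_sub (iX.const_mul _) iQ,
    intervalIntegral.integral_const_mul] at e1
  rw [← intervalIntegral.integral_of_le ht.1, integral_div,
    ← intervalIntegral.integral_of_le ht.1]
  set J := ∫ s in (0 : ℝ)..t, X3 (a s - b s) (b s) (a s - b s) z with hJ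
  set R := ∫ s in (0 : ℝ)..t, Qd (a s) (b s) z with hR
  have e2 : Zd g ν z * J = -X3 (a t - b t) (b t) (a t - b t) z - R := by
    linear_combination e1
  have hZ : |om g z| ≤ ‖Zd g ν z‖ := by
    have h := Complex.abs_im_le_norm (Zd g ν z)
    have him : (Zd g ν z).im = om g z := by
      unfold Zd
      rw [Complex.add_im, Complex.ofReal_im, Complex.I_mul_im, Complex.ofReal_re, zero_add]
    rwa [him] at h
  have hZ' : mx z ^ 3 ≤ ‖Zd g ν z‖ := hom.le.trans hZ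
  have h8 : mx z ^ 3 * ‖J‖ ≤ ‖Zd g ν z * J‖ := by
    rw [norm_mul]
    exact mul_le_mul_of_nonneg_right hZ' (norm_nonneg _)
  rw [e2] at h8
  have h9 : ‖-X3 (a t - b t) (b t) (a t - b t) z - R‖ ≤
      ‖X3 (a t - b t) (b t) (a t - b t) z‖ + ‖R‖ := by
    refine (norm_sub_le _ _).trans ?_
    rw [norm_neg]
  have h10 : ‖R‖ ≤ ∫ s in (0 : ℝ)..t, ‖Qd (a s) (b s) z‖ :=
    intervalIntegral.norm_integral_le_integral_norm ht.1
  rw [← add_div, le_div_iff₀ hmx3]
  linarith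

end cont

end J9L

open J9L in
/-- **J9.** -/
theorem j9 (h3 : J3d) (h9a : J9a) (h9b : J9b) (h9c : J9c) (h9d : J9d) (h9m : J9m) : J9 := by
  classical
  intro g ν T C a b hν hg hC hfew ha hb hab
  rcases lt_or_ge T 0 with hTneg | hT0
  · exact ⟨0, le_rfl, fun w hw t ht => absurd (ht.1.trans ht.2) (not_le.2 hTneg)⟩
  obtain ⟨Ea, hEa⟩ := ha.bdd
  obtain ⟨Eb, hEb⟩ := hb.bdd
  set E : ℝ := max (max Ea Eb) 0 with hEdef
  have hE0 : 0 ≤ E := le_max_right _ _
  have hEa' : ∀ s ∈ Icc 0 T, Summable (fun k => nm (a s k) ^ 2) ∧ ∑' k, nm (a s k) ^ 2 ≤ E :=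
    fun s hs => ⟨(hEa s hs).1, (hEa s hs).2.trans ((le_max_left _ _).trans (le_max_left _ _))⟩
  have hEb' : ∀ s ∈ Icc 0 T, Summable (fun k => nm (b s k) ^ 2) ∧ ∑' k, nm (b s k) ^ 2 ≤ E :=
    fun s hs => ⟨(hEb s hs).1, (hEb s hs).2.trans ((le_max_right _ _).trans (le_max_left _ _))⟩
  obtain ⟨Bc, hBc, h9c⟩ := h9c
  obtain ⟨Bd, hBd, h9d⟩ := h9d
  have hpi := Real.pi_pos
  set A : ℝ := 8 * Real.pi * Bc * √E + 1 with hAdef
  have hsE : 0 ≤ √E := Real.sqrt_nonneg _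
  have hA : 1 ≤ A := by
    have : 0 ≤ 8 * Real.pi * Bc * √E := by positivity
    linarith
  have hA0 : 0 < A := by linarith
  set M0 : ℝ := A ^ 4 with hM0
  have hM1 : 1 ≤ M0 := one_le_pow₀ hA
  have hM4 : M0 ^ (-(1 / 4) : ℝ) = A⁻¹ := by
    rw [hM0, ← Real.rpow_natCast, ← Real.rpow_mul hA0.le, ← Real.rpow_neg_one]
    norm_num
  obtain ⟨Bb, hBb, h9b⟩ := h9b M0
  obtain ⟨m1, m2, m3, ⟨D, m4⟩, m5, m6⟩ := h9m g ν T a b hT0 ha hb
  set e : ℝ := Real.pi * ν / 2 with he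
  have he0 : 0 < e := by positivity
  refine ⟨2 * Real.pi * (((100 * C) ^ 2 + (Bd * √E) ^ 2) / (4 * e) + Bb * √E), by positivity, ?_⟩
  intro w hw t ht S
  have hT : 0 ≤ T := ht.1.trans ht.2
  have hsubI : Ioc 0 t ⊆ Icc 0 T := fun s hs => ⟨hs.1.le, hs.2.trans ht.2⟩
  have hsub : Icc 0 t ⊆ Icc 0 T := Icc_subset_Icc le_rfl ht.2
  set μ : Measure ℝ := volume.restrict (Ioc 0 t) with hμ
  set X0 : ℝ → ℝ := fun s => ∑' k, nm (a s k - b s k) ^ 2 with hX0
  set X1 : ℝ → ℝ := fun s => ∑' k, kn k ^ 2 * nm (a s k - b s k) ^ 2 with hX1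
  set k1 : ℝ → ℝ := fun s => ∑' k, kn k ^ 2 * nm (b s k) ^ 2 with hk1
  have X0n : ∀ s, 0 ≤ X0 s := fun s => tsum_nonneg fun k => sq_nonneg _
  have X1n : ∀ s, 0 ≤ X1 s := fun s => tsum_nonneg fun k => mul_nonneg (sq_nonneg _) (sq_nonneg _)
  have k1n : ∀ s, 0 ≤ k1 s := fun s => tsum_nonneg fun k => mul_nonneg (sq_nonneg _) (sq_nonneg _)
  have iX0 : Integrable X0 μ := m3.mono_set hsubI
  have iK : Integrable (fun s => (1 + k1 s) * X0 s) μ := m5.mono_set hsubI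
  have iKX : Integrable (fun s => k1 s * X0 s) μ := by
    refine (iK.sub iX0).congr (ae_of_all _ fun s => ?_)
    change (1 + k1 s) * X0 s - X0 s = k1 s * X0 s
    ring
  have hFi : ∀ k, Integrable (fun s => kn k ^ 2 * nm (a s k - b s k) ^ 2) μ := fun k =>
    ((continuousOn_const.mul (((nmd_cont ha hb k).mono hsub).pow 2)).integrableOn_Icc).mono_set
      Ioc_subset_Icc_self
  have hFs : Summable fun k => ∫ s, kn k ^ 2 * nm (a s k - b s k) ^ 2 ∂μ := by
    refine Summable.of_nonneg_of_le (fun k => integral_nonneg fun s =>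
      mul_nonneg (sq_nonneg _) (sq_nonneg _)) (fun k => ?_) m6
    rw [hμ, ← intervalIntegral.integral_of_le ht.1]
    refine intervalIntegral.integral_mono_interval le_rfl ht.1 ht.2 ?_
      ((continuousOn_const.mul ((nmd_cont ha hb k).pow 2)).intervalIntegrable_of_Icc hT)
    exact Filter.Eventually.of_forall fun s => mul_nonneg (sq_nonneg _) (sq_nonneg _)
  obtain ⟨aeX1, iX1, eX1⟩ := tsum_int (μ := μ)
    (F := fun (k : K) s => kn k ^ 2 * nm (a s k - b s k) ^ 2)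
    (fun k s => mul_nonneg (sq_nonneg _) (sq_nonneg _)) hFi hFs
  have aek1 : ∀ᵐ s ∂μ, Summable fun k => kn k ^ 2 * nm (b s k) ^ 2 :=
    ae_restrict_of_ae_restrict_of_subset hsubI m1
  have aeT : ∀ᵐ s ∂μ, s ∈ Icc 0 T := by
    filter_upwards [ae_restrict_mem (μ := volume) (measurableSet_Ioc (a := (0 : ℝ)) (b := t))]
      with s hs
    exact hsubI hs
  -- the partition
  set x3 : K × K → ℝ → ℂ := fun z s => X3 (a s - b s) (b s) (a s - b s) z with hx3
  have ix3 : ∀ z, Integrable (x3 z) μ := fun z =>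
    (((X3_cont ha hb z).mono hsub).integrableOn_Icc).mono_set Ioc_subset_Icc_self
  have hbound : ∀ z, ‖((w z.1 : ℝ) : ℂ) * ∫ s in (0 : ℝ)..t, x3 z s‖ ≤ ‖∫ s, x3 z s ∂μ‖ := by
    intro z
    rw [norm_mul, Complex.norm_real, Real.norm_of_nonneg (hw _).1, hμ,
      ← intervalIntegral.integral_of_le ht.1]
    exact mul_le_of_le_one_left (norm_nonneg _) (hw _).2
  have hzero : ∀ z, ¬ (0 < mn z) → ∫ s, x3 z s ∂μ = 0 := by
    intro z hz
    have hz0 : mn z = 0 := le_antisymm (not_lt.1 hz) (mn_nonneg z)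
    refine integral_eq_zero_of_ae ?_
    filter_upwards [aeT] with s hs
    change X3 (a s - b s) (b s) (a s - b s) z = 0
    refine X3_zero ?_ (dtd ha hb hs) hz0
    funext i
    change a s 0 i - b s 0 i = 0
    rw [zero_mode hg ha hs i, zero_mode hg hb hs i, hab, sub_self]
  set S1 := S.filter (fun z => 0 < mn z) with hS1
  set SN := S1.filter (fun z => |om g z| ≤ mx z ^ 3) with hSN
  set SR := S1.filter (fun z => ¬ (|om g z| ≤ mx z ^ 3)) with hSR
  set SL := SR.filter (fun z => mx z ≤ M0) with hSL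
  set SH := SR.filter (fun z => ¬ (mx z ≤ M0)) with hSH
  have hm1 : ∀ z ∈ S1, 0 < mn z := fun z hz => (Finset.mem_filter.1 hz).2
  have hsplit : ∑ z ∈ S, ‖∫ s, x3 z s ∂μ‖ = ∑ z ∈ SN, ‖∫ s, x3 z s ∂μ‖ +
      (∑ z ∈ SL, ‖∫ s, x3 z s ∂μ‖ + ∑ z ∈ SH, ‖∫ s, x3 z s ∂μ‖) := by
    rw [hSL, hSH, Finset.sum_filter_add_sum_filter_not, hSN, hSR,
      Finset.sum_filter_add_sum_filter_not,
      ← Finset.sum_filter_add_sum_filter_not S (fun z => 0 < mn z)]
    have : ∑ z ∈ S.filter (fun z => ¬ (0 < mn z)), ‖∫ s, x3 z s ∂μ‖ = 0 :=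
      Finset.sum_eq_zero fun z hz => by rw [hzero z (Finset.mem_filter.1 hz).2, norm_zero]
    rw [this, add_zero]
  -- near resonant triads
  have hN : ∑ z ∈ SN, ‖∫ s, x3 z s ∂μ‖ ≤
      e * ∫ s, X1 s ∂μ + (100 * C) ^ 2 / (4 * e) * ∫ s, k1 s * X0 s ∂μ := by
    calc ∑ z ∈ SN, ‖∫ s, x3 z s ∂μ‖ ≤ ∑ z ∈ SN, ∫ s, ‖x3 z s‖ ∂μ :=
          Finset.sum_le_sum fun z _ => norm_integral_le_integral_norm _
      _ = ∫ s, ∑ z ∈ SN, ‖x3 z s‖ ∂μ := (integral_finsetSum _ fun z _ => (ix3 z).norm).symm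
      _ ≤ ∫ s, (e * X1 s + (100 * C) ^ 2 / (4 * e) * (k1 s * X0 s)) ∂μ := by
          refine integral_mono_ae (integrable_finsetSum _ fun z _ => (ix3 z).norm)
            ((iX1.const_mul _).add (iKX.const_mul _)) ?_
          filter_upwards [aeT, aeX1, aek1] with s hs h1 h2
          have b1 := h9a g C hg hC hfew (a s - b s) (b s) (dtd ha hb hs) (nmd_neg ha hb hs)
            (nm_neg hb hs) (m4 s hs).1 h1 h2 SN (fun z hz =>
              ⟨hm1 z (Finset.mem_filter.1 hz).1, (Finset.mem_filter.1 hz).2⟩)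
          refine b1.trans ?_
          exact young (X0n s) (X1n s) (k1n s) he0
      _ = _ := by
          rw [integral_add (iX1.const_mul _) (iKX.const_mul _), integral_const_mul,
            integral_const_mul]
  -- low frequencies
  have hL : ∑ z ∈ SL, ‖∫ s, x3 z s ∂μ‖ ≤ Bb * √E * ∫ s, X0 s ∂μ := by
    calc ∑ z ∈ SL, ‖∫ s, x3 z s ∂μ‖ ≤ ∑ z ∈ SL, ∫ s, ‖x3 z s‖ ∂μ :=
          Finset.sum_le_sum fun z _ => norm_integral_le_integral_norm _
      _ = ∫ s, ∑ z ∈ SL, ‖x3 z s‖ ∂μ := (integral_finsetSum _ fun z _ => (ix3 z).norm).symm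
      _ ≤ ∫ s, Bb * √E * X0 s ∂μ := by
          refine integral_mono_ae (integrable_finsetSum _ fun z _ => (ix3 z).norm)
            (iX0.const_mul _) ?_
          filter_upwards [aeT] with s hs
          exact h9b (a s - b s) (b s) E (m4 s hs).1 (hEb' s hs).1 (hEb' s hs).2 SL
            (fun z hz => (Finset.mem_filter.1 hz).2)
      _ = _ := integral_const_mul _ _
  -- high frequencies
  have hSH' : ∀ z ∈ SH, M0 ≤ mx z ∧ 0 < mn z := fun z hz =>
    ⟨(not_le.1 (Finset.mem_filter.1 hz).2).le,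
      hm1 z (Finset.mem_filter.1 (Finset.mem_filter.1 hz).1).1⟩
  have iQ : ∀ z, Integrable (fun s => ‖Qd (a s) (b s) z‖ / mx z ^ 3) μ := fun z =>
    (((h3 g ν T a b ha hb z).1.mono_set hsubI).norm).div_const _
  have hH : ∑ z ∈ SH, ‖∫ s, x3 z s ∂μ‖ ≤ Bc * √E * M0 ^ (-(1 / 4) : ℝ) * X0 t +
      (e * ∫ s, X1 s ∂μ + (Bd * √E) ^ 2 / (4 * e) * ∫ s, k1 s * X0 s ∂μ) := by
    have a1 : ∑ z ∈ SH, ‖∫ s, x3 z s ∂μ‖ ≤
        ∑ z ∈ SH, (‖X3 (a t - b t) (b t) (a t - b t) z‖ / mx z ^ 3 +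
          ∫ s, ‖Qd (a s) (b s) z‖ / mx z ^ 3 ∂μ) := by
      refine Finset.sum_le_sum fun z hz => ?_
      have hz1 := hSH' z hz
      exact far h3 ha hb hab ht (by linarith)
        (not_le.1 (Finset.mem_filter.1 (Finset.mem_filter.1 hz).1).2)
    refine a1.trans ?_
    rw [Finset.sum_add_distrib]
    refine add_le_add ?_ ?_
    · exact h9c (a t - b t) (b t) E M0 hM1 (dtd ha hb ht) (m4 t ht).1 (hEb' t ht).1 (hEb' t ht).2
        SH hSH'
    · calc ∑ z ∈ SH, ∫ s, ‖Qd (a s) (b s) z‖ / mx z ^ 3 ∂μ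
          = ∫ s, ∑ z ∈ SH, ‖Qd (a s) (b s) z‖ / mx z ^ 3 ∂μ :=
            (integral_finsetSum _ fun z _ => iQ z).symm
        _ ≤ ∫ s, (e * X1 s + (Bd * √E) ^ 2 / (4 * e) * (k1 s * X0 s)) ∂μ := by
            refine integral_mono_ae (integrable_finsetSum _ fun z _ => iQ z)
              ((iX1.const_mul _).add (iKX.const_mul _)) ?_
            filter_upwards [aeT, aeX1, aek1] with s hs h1 h2
            have b1 := h9d (a s) (b s) E (ha.div s hs) (hb.div s hs) (hEa' s hs).1 (hEb' s hs).1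
              (hEa' s hs).2 (hEb' s hs).2 h1 h2 SH (fun z hz => (hSH' z hz).2)
            refine b1.trans ?_
            exact young (X0n s) (X1n s) (k1n s) he0
        _ = _ := by
            rw [integral_add (iX1.const_mul _) (iKX.const_mul _), integral_const_mul,
              integral_const_mul]
  -- the end
  have hKI : ∫ s in (0 : ℝ)..t, (1 + ∑' k, kn k ^ 2 * nm (b s k) ^ 2)
      * ∑' k, nm (a s k - b s k) ^ 2 = ∫ s, X0 s ∂μ + ∫ s, k1 s * X0 s ∂μ := by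
    rw [intervalIntegral.integral_of_le ht.1, ← integral_add iX0 iKX]
    refine integral_congr_ae (ae_of_all _ fun s => ?_)
    change (1 + k1 s) * X0 s = X0 s + k1 s * X0 s
    ring
  have hXI : ∑' k, ∫ s in (0 : ℝ)..t, kn k ^ 2 * nm (a s k - b s k) ^ 2 = ∫ s, X1 s ∂μ := by
    rw [hX1, eX1]
    refine tsum_congr fun k => ?_
    rw [hμ, ← intervalIntegral.integral_of_le ht.1]
  rw [hKI, hXI]
  have hfin : ‖∑ z ∈ S, ((w z.1 : ℝ) : ℂ)
        * ∫ s in (0 : ℝ)..t, X3 (a s - b s) (b s) (a s - b s) z‖ ≤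
      ∑ z ∈ S, ‖∫ s, x3 z s ∂μ‖ :=
    (norm_sum_le _ _).trans (Finset.sum_le_sum fun z _ => hbound z)
  have I0 : 0 ≤ ∫ s, X0 s ∂μ := integral_nonneg X0n
  have I1 : 0 ≤ ∫ s, k1 s * X0 s ∂μ := integral_nonneg fun s => mul_nonneg (k1n s) (X0n s)
  have hc4 : 2 * Real.pi * (Bc * √E * M0 ^ (-(1 / 4) : ℝ)) ≤ 1 / 4 := by
    rw [hM4]
    have h1 : 8 * Real.pi * Bc * √E ≤ A := by linarith
    have h2 : 2 * Real.pi * (Bc * √E * A⁻¹) = (8 * Real.pi * Bc * √E) / A / 4 := by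
      field_simp
      ring
    rw [h2]
    have h3 : (8 * Real.pi * Bc * √E) / A ≤ 1 := (div_le_one hA0).2 h1
    linarith
  have hfin2 := mul_le_mul_of_nonneg_left (hfin.trans (hsplit.le.trans
    (add_le_add hN (add_le_add hL hH)))) (show 0 ≤ 2 * Real.pi by positivity)
  refine hfin2.trans ?_
  have h5 : 2 * Real.pi * (Bc * √E * M0 ^ (-(1 / 4) : ℝ)) * X0 t ≤ 1 / 4 * X0 t :=
    mul_le_mul_of_nonneg_right hc4 (X0n t)
  have h6 : 4 * Real.pi * e = 2 * Real.pi ^ 2 * ν := by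
    rw [he]
    ring
  have h7 : 0 ≤ 2 * Real.pi * (((100 * C) ^ 2 + (Bd * √E) ^ 2) / (4 * e)) * ∫ s, X0 s ∂μ := by
    positivity
  have h8 : 0 ≤ 2 * Real.pi * (Bb * √E) * ∫ s, k1 s * X0 s ∂μ := by positivity
  change _ ≤ 1 / 4 * X0 t + 2 * Real.pi ^ 2 * ν * ∫ s, X1 s ∂μ + _
  rw [← h6]
  have h9 : ((100 * C) ^ 2 + (Bd * √E) ^ 2) / (4 * e) =
      (100 * C) ^ 2 / (4 * e) + (Bd * √E) ^ 2 / (4 * e) := add_div _ _ _
  rw [h9] at h7 ⊢
  nlinarith [h5, h7, h8]

end Pool.Agent.H303.DEE.F
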