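import Pool.Agent.H303.DEE.Stm7

/-!
Project DEE-J: near resonant triads and low frequencies (`J9a`, `J9b`).
-/

set_option autoImplicit false

open MeasureTheory Set Filter Topology Complex
open scoped ContDiff ENNReal

namespace Pool.Agent.H303.DEE.F

namespace J9ab

theorem kn_nonneg (k : K) : 0 ≤ kn k := Real.sqrt_nonneg _

theorem nm_nonneg (v : C3) : 0 ≤ nm v := Real.sqrt_nonneg _

theorem abs_le_kn (k : K) (j : Fin 3) : |(k j : ℝ)| ≤ kn k := by
  unfold kn
  refine Real.abs_le_sqrt ?_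
  exact Finset.single_le_sum (f := fun j => (k j : ℝ) ^ 2) (fun i _ => sq_nonneg _)
    (Finset.mem_univ j)

theorem dt_le (k : K) (v : C3) : ‖dt k v‖ ≤ kn k * nm v := by
  unfold dt kn nm
  refine (norm_sum_le _ _).trans ?_
  have h := Real.sum_mul_le_sqrt_mul_sqrt (Finset.univ : Finset (Fin 3)) (fun j => |(k j : ℝ)|)
    (fun j => ‖v j‖)
  simp only [sq_abs] at h
  refine le_trans (le_of_eq ?_) h
  refine Finset.sum_congr rfl fun j _ => ?_
  rw [norm_mul, Complex.norm_intCast]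

theorem inner_le (Q R : C3) : ‖∑ i, Q i * (starRingEnd ℂ) (R i)‖ ≤ nm Q * nm R := by
  unfold nm
  refine (norm_sum_le _ _).trans ?_
  have h := Real.sum_mul_le_sqrt_mul_sqrt (Finset.univ : Finset (Fin 3)) (fun j => ‖Q j‖)
    (fun j => ‖R j‖)
  refine le_trans (le_of_eq ?_) h
  refine Finset.sum_congr rfl fun j _ => ?_
  rw [norm_mul, Complex.norm_conj]

theorem dt_sub (k p : K) (v : C3) (h : dt p v = 0) : dt k v = dt (k - p) v := by
  have e : dt (k - p) v = dt k v - dt p v := by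
    unfold dt
    rw [← Finset.sum_sub_distrib]
    refine Finset.sum_congr rfl fun j _ => ?_
    simp only [Pi.sub_apply, Int.cast_sub]
    ring
  rw [e, h, sub_zero]

/-- a box which contains the ball of radius `R` -/
noncomputable def box (R : ℝ) : Finset K := Fintype.piFinset fun _ => Finset.Icc (-⌈R⌉) ⌈R⌉

theorem mem_box {R : ℝ} {k : K} (h : kn k ≤ R) : k ∈ box R := by
  unfold box
  rw [Fintype.mem_piFinset]
  intro j
  rw [Finset.mem_Icc]
  have h1 := (abs_le_kn k j).trans h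
  rw [abs_le] at h1
  have h2 := Int.le_ceil R
  constructor
  · have : (-⌈R⌉ : ℝ) ≤ (k j : ℝ) := by linarith
    exact_mod_cast this
  · have : (k j : ℝ) ≤ (⌈R⌉ : ℝ) := by linarith
    exact_mod_cast this

/-- bound of the trilinear expression, no condition -/
theorem X3_le (P Q R : K → C3) (z : K × K) :
    ‖X3 P Q R z‖ ≤ kn z.1 * (nm (P z.2) * nm (Q (z.1 - z.2)) * nm (R z.1)) := by
  unfold X3 Xt
  rw [norm_mul]
  have n2 := nm_nonneg (P z.2)
  have k1 := kn_nonneg z.1
  calc _ ≤ (kn z.1 * nm (P z.2)) * (nm (Q (z.1 - z.2)) * nm (R z.1)) :=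
        mul_le_mul (dt_le _ _) (inner_le _ _) (norm_nonneg _) (by positivity)
    _ = _ := by ring

/-- bound of the trilinear expression, divergence free -/
theorem X3_le' (P Q R : K → C3) (z : K × K) (h : dt z.2 (P z.2) = 0) :
    ‖X3 P Q R z‖ ≤ min (kn z.1) (kn (z.1 - z.2)) *
      (nm (P z.2) * nm (Q (z.1 - z.2)) * nm (R z.1)) := by
  rcases le_total (kn z.1) (kn (z.1 - z.2)) with h1 | h1
  · rw [min_eq_left h1]
    exact X3_le P Q R z
  · rw [min_eq_right h1]
    unfold X3 Xt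
    rw [norm_mul, dt_sub z.1 z.2 _ h]
    have n2 := nm_nonneg (P z.2)
    have k1 := kn_nonneg (z.1 - z.2)
    calc _ ≤ (kn (z.1 - z.2) * nm (P z.2)) * (nm (Q (z.1 - z.2)) * nm (R z.1)) :=
          mul_le_mul (dt_le _ _) (inner_le _ _) (norm_nonneg _) (by positivity)
      _ = _ := by ring

end J9ab

open J9ab in
theorem j9a (h5 : J5) : J9a := by
  intro g C hg hC hF d b hdiv hd hb s0 s1 s2 S hS
  have key := h5 g C hg hC hF (fun k => nm (d k)) (fun k => nm (b k)) (∑' k, nm (d k) ^ 2)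
    (∑' k, kn k ^ 2 * nm (d k) ^ 2) (∑' k, kn k ^ 2 * nm (b k) ^ 2) (fun k => nm_nonneg _) hd
    (fun k => nm_nonneg _) hb (fun F => s0.sum_le_tsum F fun k _ => sq_nonneg _)
    (fun F => s1.sum_le_tsum F fun k _ => by positivity)
    (fun F => s2.sum_le_tsum F fun k _ => by positivity) S hS
  exact le_trans (Finset.sum_le_sum fun z _ => X3_le' d b d z (hdiv z.2)) key

open J9ab in
theorem j9b : J9b := by
  intro M
  refine ⟨((box M ×ˢ box M).card : ℝ) * |M|, by positivity, ?_⟩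
  intro d b E s0 s1 hE S hS
  obtain ⟨D, hD⟩ : ∃ D, D = ∑' k, nm (d k) ^ 2 := ⟨_, rfl⟩
  rw [← hD]
  have hd : ∀ k, nm (d k) ^ 2 ≤ D := fun k => by
    rw [hD]
    exact s0.le_tsum k fun j _ => sq_nonneg _
  have D0 : 0 ≤ D := (sq_nonneg _).trans (hd 0)
  have hb : ∀ k, nm (b k) ≤ √E := fun k =>
    Real.le_sqrt_of_sq_le ((s1.le_tsum k fun j _ => sq_nonneg _).trans hE)
  have hsub : S ⊆ box M ×ˢ box M := by
    intro z hz
    have h := hS z hz
    rw [Finset.mem_product]
    exact ⟨mem_box ((le_max_left _ _).trans h),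
      mem_box (((le_max_left _ _).trans (le_max_right _ _)).trans h)⟩
  have hcard : (S.card : ℝ) ≤ ((box M ×ˢ box M).card : ℝ) := by
    exact_mod_cast Finset.card_le_card hsub
  have hterm : ∀ z ∈ S, ‖X3 d b d z‖ ≤ |M| * (√E * D) := by
    intro z hz
    have h := hS z hz
    have hk : kn z.1 ≤ |M| := ((le_max_left _ _).trans h).trans (le_abs_self M)
    refine (X3_le d b d z).trans ?_
    have n1 := nm_nonneg (d z.1)
    have n2 := nm_nonneg (d z.2)
    have n3 := nm_nonneg (b (z.1 - z.2))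
    have e1 := hd z.1
    have e2 := hd z.2
    have e3 := hb (z.1 - z.2)
    have h12 : nm (d z.2) * nm (d z.1) ≤ D := by
      nlinarith [sq_nonneg (nm (d z.2) - nm (d z.1))]
    have e0 : nm (d z.2) * nm (b (z.1 - z.2)) * nm (d z.1) ≤ √E * D := by
      calc nm (d z.2) * nm (b (z.1 - z.2)) * nm (d z.1)
          = nm (b (z.1 - z.2)) * (nm (d z.2) * nm (d z.1)) := by ring
        _ ≤ √E * D := mul_le_mul e3 h12 (by positivity) (Real.sqrt_nonneg _)
    exact mul_le_mul hk e0 (by positivity) (abs_nonneg _)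
  calc ∑ z ∈ S, ‖X3 d b d z‖ ≤ ∑ z ∈ S, |M| * (√E * D) := Finset.sum_le_sum hterm
    _ = S.card * (|M| * (√E * D)) := by rw [Finset.sum_const, nsmul_eq_mul]
    _ ≤ ((box M ×ˢ box M).card : ℝ) * (|M| * (√E * D)) :=
        mul_le_mul_of_nonneg_right hcard (by positivity)
    _ = ((box M ×ˢ box M).card : ℝ) * |M| * √E * D := by ring

end Pool.Agent.H303.DEE.F
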