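import Pool.Agent.H303.DEE.Stm7
import Pool.Agent.H303.DEE.FH8
import Pool.Agent.H303.DEE.FH9

/-!
Project DEE-J: the boundary terms and the quartic terms of the difference (`J9c`, `J9d`).
-/

set_option autoImplicit false

open MeasureTheory Set Filter Topology Complex
open scoped ContDiff ENNReal

namespace Pool.Agent.H303.DEE.F

namespace J9cdW

theorem kn_nonneg (k : K) : 0 ≤ kn k := Real.sqrt_nonneg _

theorem nm_nonneg (v : C3) : 0 ≤ nm v := Real.sqrt_nonneg _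

theorem Xt_le {k p : K} {P : C3} (h : dt p P = 0) (Q R : C3) :
    ‖Xt k P Q R‖ ≤ min (kn k) (kn (k - p)) * (nm P * nm Q * nm R) := by
  unfold Xt
  rw [norm_mul]
  have h1 := FH9.dt_le k P
  have h2 := FH9.dt_le (k - p) P
  rw [← FH9.dt_sub k p _ h] at h2
  have h3 := FH9.inner_le Q R
  have n1 := nm_nonneg P
  have h4 : ‖dt k P‖ ≤ min (kn k) (kn (k - p)) * nm P := by
    rcases min_choice (kn k) (kn (k - p)) with e | e
    · rw [e]
      exact h1
    · rw [e]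
      exact h2
  calc ‖dt k P‖ * ‖∑ i, Q i * (starRingEnd ℂ) (R i)‖
      ≤ (min (kn k) (kn (k - p)) * nm P) * (nm Q * nm R) :=
        mul_le_mul h4 h3 (norm_nonneg _)
          (mul_nonneg (le_min (kn_nonneg _) (kn_nonneg _)) n1)
    _ = _ := by ring

theorem Xt_le' {k p : K} {P : C3} (h : dt p P = 0) {Q R : C3} {p' q' r' : ℝ} (hP : nm P ≤ p')
    (hQ : nm Q ≤ q') (hR : nm R ≤ r') :
    ‖Xt k P Q R‖ ≤ min (kn k) (kn (k - p)) * (p' * q' * r') := by
  refine (Xt_le h Q R).trans (mul_le_mul_of_nonneg_left ?_ (le_min (kn_nonneg _) (kn_nonneg _)))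
  have n1 := nm_nonneg P
  have n2 := nm_nonneg Q
  have n3 := nm_nonneg R
  exact mul_le_mul (mul_le_mul hP hQ n2 (n1.trans hP)) hR n3
    (mul_nonneg (n1.trans hP) (n2.trans hQ))

theorem sum_le {f : K → ℝ} (hf : Summable f) (h0 : ∀ k, 0 ≤ f k) (F : Finset K) :
    ∑ k ∈ F, f k ≤ ∑' k, f k := hf.sum_le_tsum F fun k _ => h0 k

theorem w1 {u v w m : ℝ} (hm : 0 < m) (hum : u ≤ m) (hv : 0 ≤ v) (hvm : v ≤ m)
    (hw : 0 < w) (hwm : w ≤ m) : u * v / m ^ 3 ≤ w⁻¹ := by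
  have h1 : u * v ≤ m * m := mul_le_mul hum hvm hv hm.le
  have h2 : u * v / m ^ 3 ≤ m * m / m ^ 3 := div_le_div_of_nonneg_right h1 (by positivity)
  have h3 : m * m / m ^ 3 = m⁻¹ := by
    field_simp
  rw [h3] at h2
  exact h2.trans (inv_anti₀ hw hwm)

theorem w2 {u w m : ℝ} (hm : 0 < m) (hum : u ≤ m) (hw : 0 < w) (hwm : w ≤ m) :
    u / m ^ 3 ≤ (w ^ 2)⁻¹ := by
  have h2 : u / m ^ 3 ≤ m / m ^ 3 := div_le_div_of_nonneg_right hum (by positivity)
  have h3 : m / m ^ 3 = (m ^ 2)⁻¹ := by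
    field_simp
  rw [h3] at h2
  exact h2.trans (inv_anti₀ (by positivity) (pow_le_pow_left₀ hw.le hwm 2))

theorem nm_sub_sq (v w : C3) : nm (v - w) ^ 2 ≤ 2 * nm v ^ 2 + 2 * nm w ^ 2 := by
  unfold nm
  rw [Real.sq_sqrt (Finset.sum_nonneg fun _ _ => sq_nonneg _),
    Real.sq_sqrt (Finset.sum_nonneg fun _ _ => sq_nonneg _),
    Real.sq_sqrt (Finset.sum_nonneg fun _ _ => sq_nonneg _), Finset.mul_sum, Finset.mul_sum,
    ← Finset.sum_add_distrib]
  refine Finset.sum_le_sum fun i _ => ?_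
  have h1 : ‖(v - w) i‖ ≤ ‖v i‖ + ‖w i‖ := norm_sub_le _ _
  have h2 := norm_nonneg ((v - w) i)
  nlinarith [sq_nonneg (‖v i‖ - ‖w i‖), norm_nonneg (v i), norm_nonneg (w i)]

theorem dt_sub' (k : K) (v w : C3) : dt k (v - w) = dt k v - dt k w := by
  unfold dt
  rw [← Finset.sum_sub_distrib]
  refine Finset.sum_congr rfl fun j _ => ?_
  rw [Pi.sub_apply]
  ring

end J9cdW

open J9cdW

theorem j9c (h6 : J6) : J9c := by
  obtain ⟨C, hC, H⟩ := h6
  refine ⟨C, hC, fun d b E M hM hd hd2 hb2 hE S hS => ?_⟩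
  have h := H (fun k => nm (d k)) (fun k => nm (b k)) M (∑' k, nm (d k) ^ 2) E hM
    (fun k => nm_nonneg _) (fun k => nm_nonneg _) (sum_le hd2 fun k => sq_nonneg _)
    (fun F => (sum_le hb2 (fun k => sq_nonneg _) F).trans hE) S hS
  calc ∑ z ∈ S, ‖X3 d b d z‖ / mx z ^ 3
      ≤ ∑ z ∈ S, min (kn z.1) (kn (z.1 - z.2)) / mx z ^ 3 *
          (nm (d z.2) * nm (b (z.1 - z.2)) * nm (d z.1)) := by
        refine Finset.sum_le_sum fun z hz => ?_
        have hm : 0 ≤ mx z := (kn_nonneg z.1).trans (le_max_left _ _)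
        rw [div_mul_eq_mul_div]
        exact div_le_div_of_nonneg_right (Xt_le (hd z.2) _ _) (pow_nonneg hm 3)
    _ ≤ C * ((∑' k, nm (d k) ^ 2) * √E) * M ^ (-(1 / 4) : ℝ) := h
    _ = _ := by ring

theorem j9d (h7a : J7a) (h7b : J7b) (h8a : J8a) (h8b : J8b) : J9d := by
  obtain ⟨Ca, hCa, Ha⟩ := h7a
  obtain ⟨Cb, hCb, Hb⟩ := h7b
  refine ⟨100 * (2 * Ca + Cb), by positivity, ?_⟩
  intro a b E ha hb ha2 hb2 hEa hEb hd1 hb1 S hS
  have hd2 : Summable fun k => nm (a k - b k) ^ 2 := by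
    refine Summable.of_nonneg_of_le (fun k => sq_nonneg _) (fun k => nm_sub_sq (a k) (b k)) ?_
    exact (ha2.mul_left 2).add (hb2.mul_left 2)
  obtain ⟨X0, hX0⟩ : ∃ X0, X0 = ∑' k, nm (a k - b k) ^ 2 := ⟨_, rfl⟩
  obtain ⟨X1, hX1⟩ : ∃ X1, X1 = ∑' k, kn k ^ 2 * nm (a k - b k) ^ 2 := ⟨_, rfl⟩
  obtain ⟨G, hG⟩ : ∃ G, G = ∑' k, kn k ^ 2 * nm (b k) ^ 2 := ⟨_, rfl⟩
  rw [← hX0, ← hX1, ← hG]
  have s0 : ∀ F : Finset K, ∑ k ∈ F, nm (a k - b k) ^ 2 ≤ X0 := by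
    rw [hX0]
    exact sum_le hd2 fun k => sq_nonneg _
  have s1 : ∀ F : Finset K, ∑ k ∈ F, kn k ^ 2 * nm (a k - b k) ^ 2 ≤ X1 := by
    rw [hX1]
    exact sum_le hd1 fun k => mul_nonneg (sq_nonneg _) (sq_nonneg _)
  have s2 : ∀ F : Finset K, ∑ k ∈ F, kn k ^ 2 * nm (b k) ^ 2 ≤ G := by
    rw [hG]
    exact sum_le hb1 fun k => mul_nonneg (sq_nonneg _) (sq_nonneg _)
  have n8a := h8a a b E X0 ha2 hb2 hEa hEb hX0.symm.le
  have n8b := h8b b E G hb2 hb1 hEb hG.symm.le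
  have hpos : ∀ z ∈ S, 0 < kn z.1 ∧ 0 < kn z.2 ∧ 0 < kn (z.1 - z.2) := by
    intro z hz
    have h := hS z hz
    unfold mn at h
    exact ⟨(lt_min_iff.1 h).1, (lt_min_iff.1 (lt_min_iff.1 h).2).1,
      (lt_min_iff.1 (lt_min_iff.1 h).2).2⟩
  have hdd : ∀ k, dt k (a k - b k) = 0 := fun k => by rw [dt_sub', ha k, hb k, sub_zero]
  -- the pointwise bound
  have key : ∀ z ∈ S, ‖Qd a b z‖ / mx z ^ 3 ≤
      100 * (√E * √X0) * ((max (kn z.1) (kn (z.1 - z.2)))⁻¹ *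
        (nm (a z.1 - b z.1) * nm (b (z.1 - z.2)))) +
      100 * (√E * √G) * ((max (kn z.1) (kn z.2) ^ 2)⁻¹ *
        (nm (a z.1 - b z.1) * nm (a z.2 - b z.2))) +
      100 * (√E * √X0) * ((max (kn z.2) (kn (z.1 - z.2)))⁻¹ *
        (nm (a z.2 - b z.2) * nm (b (z.1 - z.2)))) := by
    intro z hz
    obtain ⟨k1, k2, k3⟩ := hpos z hz
    obtain ⟨m, hm⟩ : ∃ m, m = mx z := ⟨_, rfl⟩
    rw [← hm]
    have m1 : kn z.1 ≤ m := by
      rw [hm]
      exact le_max_left _ _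
    have m2 : kn z.2 ≤ m := by
      rw [hm]
      exact (le_max_left _ _).trans (le_max_right _ _)
    have m3 : kn (z.1 - z.2) ≤ m := by
      rw [hm]
      exact (le_max_right _ _).trans (le_max_right _ _)
    have hm0 : 0 < m := k1.trans_le m1
    have hm3 : 0 < m ^ 3 := by positivity
    have t1 := Xt_le' (k := z.1) (p := z.2) (n8a z.2).2 (n8a z.2).1
      (le_refl (nm (b (z.1 - z.2)))) (le_refl (nm (a z.1 - b z.1)))
    have t2 := Xt_le' (k := z.1) (p := z.2) (hdd z.2) (le_refl (nm (a z.2 - b z.2)))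
      (n8b (z.1 - z.2)) (le_refl (nm (a z.1 - b z.1)))
    have t3 := Xt_le' (k := z.1) (p := z.2) (hdd z.2) (le_refl (nm (a z.2 - b z.2)))
      (le_refl (nm (b (z.1 - z.2)))) (n8a z.1).1
    have hQ : ‖Qd a b z‖ ≤ _ := (norm_add₃_le).trans (add_le_add (add_le_add t1 t2) t3)
    generalize kn z.1 = u at k1 m1 hQ ⊢
    generalize kn z.2 = v at k2 m2 hQ ⊢
    generalize kn (z.1 - z.2) = w at k3 m3 hQ ⊢
    have x1 := nm_nonneg (a z.1 - b z.1)
    have x2 := nm_nonneg (a z.2 - b z.2)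
    have x3 := nm_nonneg (b (z.1 - z.2))
    generalize nm (a z.1 - b z.1) = x at x1 hQ ⊢
    generalize nm (a z.2 - b z.2) = x' at x2 hQ ⊢
    generalize nm (b (z.1 - z.2)) = y at x3 hQ ⊢
    have hμ0 : 0 ≤ min u w := le_min k1.le k3.le
    have hμ : min u w ≤ m := (min_le_left _ _).trans m1
    have p1 := w1 hm0 hμ k2.le m2 (lt_max_of_lt_left k1 : 0 < max u w) (max_le m1 m3)
    have p2 := w2 hm0 hμ (lt_max_of_lt_left k1 : 0 < max u v) (max_le m1 m2)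
    have p3 := w1 hm0 hμ k1.le m1 (lt_max_of_lt_left k2 : 0 < max v w) (max_le m2 m3)
    have e0 : 0 ≤ √E * √X0 := by positivity
    have e1 : 0 ≤ √E * √G := by positivity
    have q1 := mul_le_mul_of_nonneg_right p1 (by positivity : 0 ≤ 100 * (√E * √X0) * (x * y))
    have q2 := mul_le_mul_of_nonneg_right p2 (by positivity : 0 ≤ 100 * (√E * √G) * (x * x'))
    have q3 := mul_le_mul_of_nonneg_right p3 (by positivity : 0 ≤ 100 * (√E * √X0) * (x' * y))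
    calc ‖Qd a b z‖ / m ^ 3 ≤ _ := div_le_div_of_nonneg_right hQ hm3.le
      _ = min u w * v / m ^ 3 * (100 * (√E * √X0) * (x * y)) +
          min u w / m ^ 3 * (100 * (√E * √G) * (x * x')) +
          min u w * u / m ^ 3 * (100 * (√E * √X0) * (x' * y)) := by ring
      _ ≤ (max u w)⁻¹ * (100 * (√E * √X0) * (x * y)) +
          (max u v ^ 2)⁻¹ * (100 * (√E * √G) * (x * x')) +
          (max v w)⁻¹ * (100 * (√E * √X0) * (x' * y)) := add_le_add (add_le_add q1 q2) q3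
      _ = _ := by ring
  -- the three sums
  have hone : ∀ z ∈ S, 1 ≤ kn z.1 ∧ 1 ≤ kn z.2 ∧ 1 ≤ kn (z.1 - z.2) := fun z hz =>
    ⟨H8W.kn_one _ (hpos z hz).1, H8W.kn_one _ (hpos z hz).2.1, H8W.kn_one _ (hpos z hz).2.2⟩
  have inj1 : Function.Injective fun z : K × K => (z.1, z.1 - z.2) := by
    intro z z' h
    obtain ⟨h1, h2⟩ := Prod.mk.inj h
    rw [h1] at h2
    exact Prod.ext h1 (sub_right_injective h2)
  have inj2 : Function.Injective fun z : K × K => (z.2, z.1 - z.2) := by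
    intro z z' h
    obtain ⟨h1, h2⟩ := Prod.mk.inj h
    rw [h1] at h2
    exact Prod.ext (sub_left_injective h2) h1
  have A1 : ∑ z ∈ S, (max (kn z.1) (kn (z.1 - z.2)))⁻¹ *
      (nm (a z.1 - b z.1) * nm (b (z.1 - z.2))) ≤ Ca * (√X1 * √G) := by
    classical
    have h := Ha (fun k => nm (a k - b k)) (fun k => nm (b k)) X1 G (fun k => nm_nonneg _)
      (fun k => nm_nonneg _) s1 s2 (S.image fun z : K × K => (z.1, z.1 - z.2)) (by
        intro z hz
        obtain ⟨z', hz', rfl⟩ := Finset.mem_image.1 hz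
        exact ⟨(hone z' hz').1, (hone z' hz').2.2⟩)
    rw [Finset.sum_image inj1.injOn] at h
    exact h
  have A2 := Hb (fun k => nm (a k - b k)) X0 X1 (fun k => nm_nonneg _) s0 s1 S
    (fun z hz => ⟨(hone z hz).1, (hone z hz).2.1⟩)
  have A3 : ∑ z ∈ S, (max (kn z.2) (kn (z.1 - z.2)))⁻¹ *
      (nm (a z.2 - b z.2) * nm (b (z.1 - z.2))) ≤ Ca * (√X1 * √G) := by
    classical
    have h := Ha (fun k => nm (a k - b k)) (fun k => nm (b k)) X1 G (fun k => nm_nonneg _)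
      (fun k => nm_nonneg _) s1 s2 (S.image fun z : K × K => (z.2, z.1 - z.2)) (by
        intro z hz
        obtain ⟨z', hz', rfl⟩ := Finset.mem_image.1 hz
        exact ⟨(hone z' hz').2.1, (hone z' hz').2.2⟩)
    rw [Finset.sum_image inj2.injOn] at h
    exact h
  refine (Finset.sum_le_sum key).trans ?_
  rw [Finset.sum_add_distrib, Finset.sum_add_distrib, ← Finset.mul_sum, ← Finset.mul_sum,
    ← Finset.mul_sum]
  have e0 : 0 ≤ 100 * (√E * √X0) := by positivity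
  have e1 : 0 ≤ 100 * (√E * √G) := by positivity
  calc _ ≤ 100 * (√E * √X0) * (Ca * (√X1 * √G)) + 100 * (√E * √G) * (Cb * (√X0 * √X1)) +
        100 * (√E * √X0) * (Ca * (√X1 * √G)) :=
        add_le_add (add_le_add (mul_le_mul_of_nonneg_left A1 e0)
          (mul_le_mul_of_nonneg_left A2 e1)) (mul_le_mul_of_nonneg_left A3 e0)
    _ = _ := by ring

end Pool.Agent.H303.DEE.F
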