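import Pool.Agent.H303.DEE.Stm7

set_option autoImplicit false

open MeasureTheory Set Filter Topology Complex
open scoped ContDiff ENNReal

namespace Pool.Agent.H303.DEE.F

namespace J9mAux

theorem nm_sq (v : C3) : nm v ^ 2 = ∑ i, ‖v i‖ ^ 2 :=
  Real.sq_sqrt (Finset.sum_nonneg fun _ _ => sq_nonneg _)

theorem nm_sub (x y : C3) : nm (x - y) ^ 2 ≤ 2 * nm x ^ 2 + 2 * nm y ^ 2 := by
  rw [nm_sq, nm_sq, nm_sq, Finset.mul_sum, Finset.mul_sum, ← Finset.sum_add_distrib]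
  apply Finset.sum_le_sum
  intro i _
  rw [Pi.sub_apply]
  have h1 := norm_sub_le (x i) (y i)
  have h2 := norm_nonneg (x i - y i)
  nlinarith [sq_nonneg (‖x i‖ - ‖y i‖)]

theorem meas {ι : Type} [Countable ι] (μ : Measure ℝ) (F : ι → ℝ → ℝ) (h0 : ∀ i s, 0 ≤ F i s)
    (hm : ∀ i, AEMeasurable (F i) μ) : AEStronglyMeasurable (fun s => ∑' i, F i s) μ := by
  have h1 : AEMeasurable (fun s => ∑' i, ENNReal.ofReal (F i s)) μ :=
    AEMeasurable.ennreal_tsum fun i => (hm i).ennreal_ofReal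
  have h2 : (fun s => ∑' i, F i s) = fun s => (∑' i, ENNReal.ofReal (F i s)).toReal := by
    funext s
    rw [ENNReal.tsum_toReal_eq (fun i => ENNReal.ofReal_ne_top)]
    apply tsum_congr
    intro i
    rw [ENNReal.toReal_ofReal (h0 i s)]
  rw [h2]
  exact h1.ennreal_toReal.aestronglyMeasurable

theorem tonelli {ι : Type} [Countable ι] (μ : Measure ℝ) (F : ι → ℝ → ℝ) (h0 : ∀ i s, 0 ≤ F i s)
    (hi : ∀ i, Integrable (F i) μ) (hs : Summable fun i => ∫ s, F i s ∂μ) :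
    (∀ᵐ s ∂μ, Summable fun i => F i s) ∧ Integrable (fun s => ∑' i, F i s) μ := by
  have h1 : AEMeasurable (fun s => ∑' i, ENNReal.ofReal (F i s)) μ :=
    AEMeasurable.ennreal_tsum fun i => (hi i).1.aemeasurable.ennreal_ofReal
  have h3 : ∫⁻ s, ∑' i, ENNReal.ofReal (F i s) ∂μ ≠ (⊤ : ENNReal) := by
    rw [lintegral_tsum fun i => (hi i).1.aemeasurable.ennreal_ofReal]
    have h4 : ∀ i, ∫⁻ s, ENNReal.ofReal (F i s) ∂μ = ENNReal.ofReal (∫ s, F i s ∂μ) := fun i =>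
      (ofReal_integral_eq_lintegral_ofReal (hi i) (Eventually.of_forall (h0 i))).symm
    simp_rw [h4]
    rw [← ENNReal.ofReal_tsum_of_nonneg (fun i => integral_nonneg (h0 i)) hs]
    exact ENNReal.ofReal_ne_top
  have h2 : (fun s => ∑' i, F i s) = fun s => (∑' i, ENNReal.ofReal (F i s)).toReal := by
    funext s
    rw [ENNReal.tsum_toReal_eq (fun i => ENNReal.ofReal_ne_top)]
    apply tsum_congr
    intro i
    rw [ENNReal.toReal_ofReal (h0 i s)]
  constructor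
  · filter_upwards [ae_lt_top' h1 h3] with s hs
    have h5 := ENNReal.summable_toReal hs.ne
    refine h5.congr fun i => ?_
    rw [ENNReal.toReal_ofReal (h0 i s)]
  · rw [h2]
    exact integrable_toReal_of_lintegral_ne_top h1 h3

theorem cont_nm {g : K → ℝ} {ν T : ℝ} {a : ℝ → K → C3} (A : FSol g ν T a) (k : K) :
    ContinuousOn (fun t => nm (a t k) ^ 2) (Icc 0 T) := by
  have h1 : (fun t => nm (a t k) ^ 2) = fun t => ∑ i, ‖a t k i‖ ^ 2 := funext fun t => nm_sq _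
  rw [h1]
  exact continuousOn_finsetSum _ fun i _ => ((A.cont k i).norm).pow 2

theorem cont_sub {g : K → ℝ} {ν T : ℝ} {a b : ℝ → K → C3} (A : FSol g ν T a) (B : FSol g ν T b)
    (k : K) : ContinuousOn (fun t => nm (a t k - b t k) ^ 2) (Icc 0 T) := by
  have h1 : (fun t => nm (a t k - b t k) ^ 2) = fun t => ∑ i, ‖a t k i - b t k i‖ ^ 2 :=
    funext fun t => nm_sq _
  rw [h1]
  exact continuousOn_finsetSum _ fun i _ => (((A.cont k i).sub (B.cont k i)).norm).pow 2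

end J9mAux

open J9mAux

/-- `J9m` with the hypothesis `0 ≤ T` -/
def J9m' : Prop := ∀ (g : K → ℝ) (ν T : ℝ) (a b : ℝ → K → C3), 0 ≤ T → FSol g ν T a →
  FSol g ν T b →
  (∀ᵐ s ∂(volume.restrict (Icc 0 T)), Summable fun k => kn k ^ 2 * nm (b s k) ^ 2) ∧
  IntegrableOn (fun s => 1 + ∑' k, kn k ^ 2 * nm (b s k) ^ 2) (Icc 0 T) ∧
  IntegrableOn (fun s => ∑' k, nm (a s k - b s k) ^ 2) (Icc 0 T) ∧
  (∃ D : ℝ, ∀ t ∈ Icc 0 T, (Summable fun k => nm (a t k - b t k) ^ 2) ∧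
    ∑' k, nm (a t k - b t k) ^ 2 ≤ D) ∧
  IntegrableOn (fun s => (1 + ∑' k, kn k ^ 2 * nm (b s k) ^ 2)
    * ∑' k, nm (a s k - b s k) ^ 2) (Icc 0 T) ∧
  Summable fun k => ∫ s in (0 : ℝ)..T, kn k ^ 2 * nm (a s k - b s k) ^ 2

theorem j9m : J9m' := by
  intro g ν T a b hT A B
  have hint : ∀ f : ℝ → ℝ, ∫ s in (0 : ℝ)..T, f s = ∫ s in Icc 0 T, f s := fun f => by
    rw [intervalIntegral.integral_of_le hT, integral_Icc_eq_integral_Ioc]
  -- the dissipation
  have hBi : ∀ k, Integrable (fun s => kn k ^ 2 * nm (b s k) ^ 2) (volume.restrict (Icc 0 T)) :=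
    fun k => ((cont_nm B k).const_mul _).integrableOn_Icc
  have hAi : ∀ k, Integrable (fun s => kn k ^ 2 * nm (a s k) ^ 2) (volume.restrict (Icc 0 T)) :=
    fun k => ((cont_nm A k).const_mul _).integrableOn_Icc
  have hBs : Summable fun k => ∫ s in Icc 0 T, kn k ^ 2 * nm (b s k) ^ 2 := by
    have := B.diss
    simp_rw [hint] at this
    exact this
  have hAs : Summable fun k => ∫ s in Icc 0 T, kn k ^ 2 * nm (a s k) ^ 2 := by
    have := A.diss
    simp_rw [hint] at this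
    exact this
  obtain ⟨h1, h2⟩ := tonelli (volume.restrict (Icc 0 T))
    (fun (k : K) s => kn k ^ 2 * nm (b s k) ^ 2) (fun k s => by positivity) hBi hBs
  have h2' : IntegrableOn (fun s => 1 + ∑' k, kn k ^ 2 * nm (b s k) ^ 2) (Icc 0 T) :=
    (integrable_const (1 : ℝ)).add h2
  -- the bound
  obtain ⟨D, hD⟩ : ∃ D : ℝ, ∀ t ∈ Icc 0 T, (Summable fun k => nm (a t k - b t k) ^ 2) ∧
      ∑' k, nm (a t k - b t k) ^ 2 ≤ D := by
    obtain ⟨EA, hEA⟩ := A.bdd
    obtain ⟨EB, hEB⟩ := B.bdd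
    refine ⟨2 * EA + 2 * EB, fun t ht => ?_⟩
    obtain ⟨sA, bA⟩ := hEA t ht
    obtain ⟨sB, bB⟩ := hEB t ht
    have hs : Summable fun k => 2 * nm (a t k) ^ 2 + 2 * nm (b t k) ^ 2 :=
      (sA.mul_left 2).add (sB.mul_left 2)
    have hs' : Summable fun k => nm (a t k - b t k) ^ 2 :=
      Summable.of_nonneg_of_le (fun k => sq_nonneg _) (fun k => nm_sub _ _) hs
    refine ⟨hs', ?_⟩
    refine (hs'.tsum_le_tsum (fun k => nm_sub _ _) hs).trans ?_
    rw [(sA.mul_left 2).tsum_add (sB.mul_left 2), tsum_mul_left, tsum_mul_left]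
    linarith
  have hm : AEStronglyMeasurable (fun s => ∑' k, nm (a s k - b s k) ^ 2)
      (volume.restrict (Icc 0 T)) :=
    meas _ (fun (k : K) s => nm (a s k - b s k) ^ 2) (fun k s => sq_nonneg _)
      (fun k => ((cont_sub A B k).integrableOn_Icc).1.aemeasurable)
  have h0 : ∀ s, 0 ≤ ∑' k, nm (a s k - b s k) ^ 2 := fun s => tsum_nonneg fun k => sq_nonneg _
  have h3 : IntegrableOn (fun s => ∑' k, nm (a s k - b s k) ^ 2) (Icc 0 T) := by
    refine Integrable.mono' (integrable_const D) hm ?_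
    filter_upwards [ae_restrict_mem measurableSet_Icc] with s hs
    rw [Real.norm_eq_abs, abs_of_nonneg (h0 s)]
    exact (hD s hs).2
  have h5 : IntegrableOn (fun s => (1 + ∑' k, kn k ^ 2 * nm (b s k) ^ 2)
      * ∑' k, nm (a s k - b s k) ^ 2) (Icc 0 T) := by
    refine Integrable.mono' (h2'.mul_const D) (h2'.1.mul hm) ?_
    filter_upwards [ae_restrict_mem measurableSet_Icc] with s hs
    have h6 : 0 ≤ 1 + ∑' k, kn k ^ 2 * nm (b s k) ^ 2 := by
      have : 0 ≤ ∑' k, kn k ^ 2 * nm (b s k) ^ 2 := tsum_nonneg fun k => by positivity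
      linarith
    rw [Real.norm_eq_abs, abs_of_nonneg (mul_nonneg h6 (h0 s))]
    exact mul_le_mul_of_nonneg_left (hD s hs).2 h6
  refine ⟨h1, h2', h3, ⟨D, hD⟩, h5, ?_⟩
  simp_rw [hint]
  have hABi : ∀ k, Integrable (fun s => kn k ^ 2 * nm (a s k - b s k) ^ 2)
      (volume.restrict (Icc 0 T)) := fun k => ((cont_sub A B k).const_mul _).integrableOn_Icc
  refine Summable.of_nonneg_of_le (fun k => integral_nonneg fun s => by positivity) (fun k => ?_)
    ((hAs.mul_left 2).add (hBs.mul_left 2))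
  rw [← integral_const_mul, ← integral_const_mul,
    ← integral_add ((hAi k).const_mul 2) ((hBi k).const_mul 2)]
  apply integral_mono (hABi k) (((hAi k).const_mul 2).add ((hBi k).const_mul 2))
  intro s
  have h7 := mul_le_mul_of_nonneg_left (nm_sub (a s k) (b s k)) (sq_nonneg (kn k))
  refine h7.trans (le_of_eq ?_)
  simp only [Pi.add_apply]
  ring

end Pool.Agent.H303.DEE.F
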