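import Pool.Agent.H303.DEE.Stm8

/-!
The lemma of du Bois-Reymond (helper668).
-/

set_option autoImplicit false

open MeasureTheory Set Filter Topology
open scoped ContDiff ENNReal

namespace Pool.Agent.H303.DEE.F

namespace K0H668

/-- A test function on `(0, T)` from a smooth function with integral zero. -/
theorem prim {T a b : ℝ} (ha : 0 < a) (hb : b < T) {ζ : ℝ → ℝ}
    (hζ : ContDiff ℝ ∞ ζ) (hs : ∀ t, t ∉ Icc a b → ζ t = 0)
    (hi : ∫ s in (0 : ℝ)..T, ζ s = 0) :
    ∃ θ : ℝ → ℝ, ContDiff ℝ ∞ θ ∧ (∀ t, t ∉ Icc a b → θ t = 0) ∧ ∀ t, deriv θ t = ζ t := by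
  have hc : Continuous ζ := hζ.continuous
  have hd : ∀ t, HasDerivAt (fun t => ∫ s in (0 : ℝ)..t, ζ s) (ζ t) t := fun t =>
    intervalIntegral.integral_hasDerivAt_right (hc.intervalIntegrable _ _)
      hc.stronglyMeasurable.stronglyMeasurableAtFilter hc.continuousAt
  have hd' : deriv (fun t => ∫ s in (0 : ℝ)..t, ζ s) = ζ := funext fun t => (hd t).deriv
  refine ⟨fun t => ∫ s in (0 : ℝ)..t, ζ s, ?_, ?_, fun t => (hd t).deriv⟩
  · rw [contDiff_infty_iff_deriv, hd']
    exact ⟨fun t => (hd t).differentiableAt, hζ⟩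
  · intro t ht
    by_cases h1 : t < a
    · have h2 : ∀ s ∈ uIcc 0 t, ζ s = 0 := by
        intro s hs'
        refine hs s fun h3 => ?_
        rw [mem_uIcc] at hs'
        rcases hs' with h4 | h4
        · linarith [h3.1, h4.2]
        · linarith [h3.1, h4.2]
      show ∫ s in (0 : ℝ)..t, ζ s = 0
      rw [intervalIntegral.integral_congr (g := fun _ => (0 : ℝ)) h2]
      simp
    · have h1' : b < t := by
        by_contra h2
        exact ht ⟨not_lt.1 h1, not_lt.1 h2⟩
      have h2 : ∀ s ∈ uIcc T t, ζ s = 0 := by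
        intro s hs'
        refine hs s fun h3 => ?_
        rw [mem_uIcc] at hs'
        rcases hs' with h4 | h4
        · linarith [h3.2, h4.1]
        · linarith [h3.2, h4.1]
      show ∫ s in (0 : ℝ)..t, ζ s = 0
      rw [← intervalIntegral.integral_add_adjacent_intervals (hc.intervalIntegrable 0 T)
        (hc.intervalIntegrable T t), hi, zero_add,
        intervalIntegral.integral_congr (g := fun _ => (0 : ℝ)) h2]
      simp

/-- Compact subsets of the open interval are contained in closed ones. -/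
theorem inside {T : ℝ} (hT : 0 < T) {K : Set ℝ} (hK : IsCompact K) (hs : K ⊆ Ioo 0 T) :
    ∃ a b : ℝ, 0 < a ∧ b < T ∧ K ⊆ Icc a b := by
  have h1 : IsCompact (insert (T / 2) K) := hK.insert _
  have h2 : insert (T / 2) K ⊆ Ioo 0 T := by
    rw [insert_subset_iff]
    exact ⟨⟨by linarith, by linarith⟩, hs⟩
  obtain ⟨a, ha⟩ := h1.exists_isLeast ⟨_, mem_insert _ _⟩
  obtain ⟨b, hb⟩ := h1.exists_isGreatest ⟨_, mem_insert _ _⟩
  exact ⟨a, b, (h2 ha.1).1, (h2 hb.1).2, fun x hx =>
    ⟨ha.2 (mem_insert_of_mem _ hx), hb.2 (mem_insert_of_mem _ hx)⟩⟩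

/-- A smooth function with compact support in `(0, T)` and integral one. -/
theorem bump {T : ℝ} (hT : 0 < T) : ∃ χ : ℝ → ℝ, ContDiff ℝ ∞ χ ∧ HasCompactSupport χ ∧
    tsupport χ ⊆ Ioo 0 T ∧ ∫ x, χ x = 1 := by
  let f : ContDiffBump (T / 2) := ⟨T / 8, T / 4, by linarith, by linarith⟩
  refine ⟨f.normed volume, f.contDiff_normed, f.hasCompactSupport_normed, ?_, f.integral_normed⟩
  rw [f.tsupport_normed_eq]
  intro x hx
  rw [Metric.mem_closedBall, Real.dist_eq] at hx
  have h1 : |x - T / 2| ≤ T / 4 := hx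
  rw [abs_le] at h1
  exact ⟨by linarith [h1.1], by linarith [h1.2]⟩

theorem int_eq {T : ℝ} {g : ℝ → ℝ} (hs : tsupport g ⊆ Ioo 0 T) (f : ℝ → ℝ) :
    ∫ x in (0 : ℝ)..T, g x * f x = ∫ x, g x * f x := by
  refine intervalIntegral.integral_eq_integral_of_support_subset ?_
  intro x hx
  have h1 : g x ≠ 0 := fun h => hx (by simp [h])
  exact Ioo_subset_Ioc_self (hs (subset_tsupport g h1))

end K0H668

open K0H668 in
theorem k0 : K0 := by
  intro T A F hT hA hF h t ht
  have hFi : IntervalIntegrable F volume 0 T :=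
    (intervalIntegrable_iff_integrableOn_Icc_of_le hT.le).2 hF
  obtain ⟨B, hB⟩ : ∃ B : ℝ → ℝ, B = fun t => ∫ s in (0 : ℝ)..t, F s := ⟨_, rfl⟩
  have hBac : AbsolutelyContinuousOnInterval B 0 T := by
    rw [hB]
    exact hFi.absolutelyContinuousOnInterval_intervalIntegral left_mem_uIcc
  have hBc : ContinuousOn B (Icc 0 T) := by
    have := hBac.continuousOn
    rwa [uIcc_of_le hT.le] at this
  have hBd : ∀ᵐ x, x ∈ uIcc 0 T → HasDerivAt B (F x) x := by
    filter_upwards [hFi.ae_hasDerivAt_integral] with x hx hx'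
    rw [hB]
    exact hx hx' 0 left_mem_uIcc
  have hu : uIcc (0 : ℝ) T = Icc 0 T := uIcc_of_le hT.le
  -- integration by parts
  have h2 : ∀ θ : ℝ → ℝ, ContDiff ℝ ∞ θ →
      (∃ a b : ℝ, 0 < a ∧ b < T ∧ ∀ t, t ∉ Icc a b → θ t = 0) →
      ∫ s in (0 : ℝ)..T, (A s - B s) * deriv θ s = 0 := by
    intro θ hθ hab
    have h3 := h θ hθ hab
    obtain ⟨a, b, ha, hb, hz⟩ := hab
    have hθ0 : θ 0 = 0 := hz 0 fun h => by linarith [h.1]
    have hθT : θ T = 0 := hz T fun h => by linarith [h.2]
    have hθac : AbsolutelyContinuousOnInterval θ 0 T :=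
      (hθ.of_le (by exact_mod_cast le_top)).contDiffOn.absolutelyContinuousOnInterval
    have h4 := hBac.integral_mul_deriv_eq_deriv_mul hθac
    rw [hθ0, hθT, mul_zero, mul_zero, sub_zero, zero_sub] at h4
    have h5 : ∫ x in (0 : ℝ)..T, deriv B x * θ x = ∫ x in (0 : ℝ)..T, F x * θ x := by
      refine intervalIntegral.integral_congr_ae ?_
      filter_upwards [hBd] with x hx hx'
      rw [(hx (uIoc_subset_uIcc hx')).deriv]
    have hdc : Continuous (deriv θ) := hθ.continuous_deriv (by exact_mod_cast le_top)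
    have hI1 : IntervalIntegrable (fun s => A s * deriv θ s) volume 0 T := by
      refine ContinuousOn.intervalIntegrable ?_
      rw [hu]
      exact hA.mul hdc.continuousOn
    have hI2 : IntervalIntegrable (fun s => B s * deriv θ s) volume 0 T := by
      refine ContinuousOn.intervalIntegrable ?_
      rw [hu]
      exact hBc.mul hdc.continuousOn
    have hI3 : IntervalIntegrable (fun s => F s * θ s) volume 0 T :=
      hFi.mul_continuousOn hθ.continuous.continuousOn
    rw [intervalIntegral.integral_add hI1 hI3] at h3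
    have h6 : ∫ s in (0 : ℝ)..T, (A s - B s) * deriv θ s =
        (∫ s in (0 : ℝ)..T, A s * deriv θ s) - ∫ s in (0 : ℝ)..T, B s * deriv θ s := by
      rw [← intervalIntegral.integral_sub hI1 hI2]
      refine intervalIntegral.integral_congr fun s _ => ?_
      show (A s - B s) * deriv θ s = A s * deriv θ s - B s * deriv θ s
      ring
    rw [h6, h4, h5]
    linarith
  -- the constant
  obtain ⟨χ, hχ, hχc, hχs, hχi⟩ := bump hT
  obtain ⟨k, hk⟩ : ∃ k : ℝ, k = ∫ s in (0 : ℝ)..T, (A s - B s) * χ s := ⟨_, rfl⟩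
  have hABc : ContinuousOn (fun s => A s - B s) (Icc 0 T) := hA.sub hBc
  have hint : ∀ g : ℝ → ℝ, Continuous g →
      IntervalIntegrable (fun s => (A s - B s) * g s) volume 0 T := by
    intro g hg
    refine ContinuousOn.intervalIntegrable ?_
    rw [hu]
    exact hABc.mul hg.continuousOn
  have h7 : ∀ g : ℝ → ℝ, ContDiff ℝ ∞ g → HasCompactSupport g → tsupport g ⊆ Ioo 0 T →
      ∫ x in (0 : ℝ)..T, (A x - B x) * g x = (∫ x, g x) * k := by
    intro g hg hgc hgs
    obtain ⟨a, b, ha, hb, hK⟩ := inside hT (hgc.isCompact.union hχc.isCompact)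
      (union_subset hgs hχs)
    obtain ⟨c, hc⟩ : ∃ c : ℝ, c = ∫ x, g x := ⟨_, rfl⟩
    have e1 : ∫ x in (0 : ℝ)..T, g x = c := by
      have := int_eq hgs (fun _ => (1 : ℝ))
      simp only [mul_one] at this
      rw [this, hc]
    have e2 : ∫ x in (0 : ℝ)..T, χ x = 1 := by
      have := int_eq hχs (fun _ => (1 : ℝ))
      simp only [mul_one] at this
      rw [this, hχi]
    have hci : IntervalIntegrable (fun x => c * χ x) volume 0 T :=
      (hχ.continuous.intervalIntegrable _ _).const_mul c
    have e3 : ∫ x in (0 : ℝ)..T, (g x - c * χ x) = 0 := by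
      rw [intervalIntegral.integral_sub (hg.continuous.intervalIntegrable _ _) hci,
        intervalIntegral.integral_const_mul, e1, e2]
      ring
    have e4 : ∀ t, t ∉ Icc a b → g t - c * χ t = 0 := by
      intro t ht
      have g0 : g t = 0 := by
        by_contra h0
        exact ht (hK (Or.inl (subset_tsupport g h0)))
      have χ0 : χ t = 0 := by
        by_contra h0
        exact ht (hK (Or.inr (subset_tsupport χ h0)))
      rw [g0, χ0]
      ring
    obtain ⟨θ, hθ, hθs, hθd⟩ := prim (ζ := fun x => g x - c * χ x) ha hb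
      (hg.sub (contDiff_const.mul hχ)) e4 e3
    have h8 := h2 θ hθ ⟨a, b, ha, hb, hθs⟩
    have h9 : ∫ s in (0 : ℝ)..T, (A s - B s) * deriv θ s =
        (∫ s in (0 : ℝ)..T, (A s - B s) * g s) - c * ∫ s in (0 : ℝ)..T, (A s - B s) * χ s := by
      rw [← intervalIntegral.integral_const_mul, ← intervalIntegral.integral_sub
        (hint g hg.continuous) ((hint χ hχ.continuous).const_mul c)]
      refine intervalIntegral.integral_congr fun s _ => ?_
      show (A s - B s) * deriv θ s = (A s - B s) * g s - c * ((A s - B s) * χ s)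
      rw [hθd]
      ring
    rw [h9, ← hk] at h8
    rw [← hc]
    linarith
  have hfc : ContinuousOn (fun x => A x - B x - k) (Icc 0 T) := hABc.sub continuousOn_const
  have h10 : ∀ᵐ x, x ∈ Ioo 0 T → A x - B x - k = 0 := by
    refine isOpen_Ioo.ae_eq_zero_of_integral_contDiff_smul_eq_zero
      (f := fun x => A x - B x - k) ?_ ?_
    · exact ((hfc.integrableOn_Icc).mono_set Ioo_subset_Icc_self).locallyIntegrableOn
    · intro g hg hgc hgs
      have h11 := h7 g hg hgc hgs
      have h12 := int_eq hgs (fun x => A x - B x - k)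
      have h13 : ∫ x, g x • (A x - B x - k) = ∫ x in (0 : ℝ)..T, g x * (A x - B x - k) := by
        rw [h12]
        rfl
      have e1 : ∫ x in (0 : ℝ)..T, g x = ∫ x, g x := by
        have := int_eq hgs (fun _ => (1 : ℝ))
        simpa only [mul_one] using this
      have h14 : ∫ x in (0 : ℝ)..T, g x * (A x - B x - k) =
          (∫ x in (0 : ℝ)..T, (A x - B x) * g x) - k * ∫ x in (0 : ℝ)..T, g x := by
        rw [← intervalIntegral.integral_const_mul, ← intervalIntegral.integral_sub
          (hint g hg.continuous) ((hg.continuous.intervalIntegrable _ _).const_mul k)]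
        refine intervalIntegral.integral_congr fun s _ => ?_
        show g s * (A s - B s - k) = (A s - B s) * g s - k * g s
        ring
      rw [h13, h14, h11, e1]
      ring
  have h15 : EqOn (fun x => A x - B x - k) (fun _ => (0 : ℝ)) (Icc 0 T) := by
    refine Measure.eqOn_Icc_of_ae_eq (μ := volume) hT.ne ?_ hfc continuousOn_const
    rw [← restrict_Ioo_eq_restrict_Icc]
    exact (ae_restrict_iff' measurableSet_Ioo).2 h10
  have h16 := h15 ht
  have h17 := h15 (left_mem_Icc.2 hT.le)
  have hB0 : B 0 = 0 := by rw [hB]; simp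
  simp only at h16 h17
  have hBt : B t = ∫ s in (0 : ℝ)..t, F s := by rw [hB]
  rw [← hBt]
  rw [hB0] at h17
  linarith

end Pool.Agent.H303.DEE.F

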