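import Pool.Agent.H303.DEE.Stm8

/-!
The equation between the times `0` and `t` (subtask DEK-K1 of helper303, helper713).
-/

set_option autoImplicit false

open MeasureTheory Set Filter Topology Complex
open scoped ContDiff ENNReal

namespace Pool.Agent.H303.DEE.F

namespace K1X

noncomputable abbrev mT (T : ℝ) : Measure ℝ := volume.restrict (Icc 0 T)

theorem fin_mT (T : ℝ) : IsFiniteMeasure (mT T) :=
  ⟨by rw [Measure.restrict_apply_univ]; exact isCompact_Icc.measure_lt_top⟩

theorem fin_mQ : IsFiniteMeasure mQ :=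
  ⟨by rw [Measure.restrict_apply_univ]; exact isCompact_Icc.measure_lt_top⟩

theorem comp_smooth {w : V → V} (hw : Smooth w) (i : Fin 3) : ContDiff ℝ ∞ fun y => w y i :=
  contDiff_pi.1 hw.smooth i

theorem pD_cont {f : V → ℝ} (hf : ContDiff ℝ ∞ f) (n : ℕ) (j : Fin 3) :
    Continuous (partialD n j f) := by
  have h1 : Continuous fun x => iteratedFDeriv ℝ n f x :=
    hf.continuous_iteratedFDeriv (by exact_mod_cast le_top)
  exact (ContinuousMultilinearMap.apply ℝ (fun _ : Fin n => V) ℝ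
    (fun _ => Pi.single j (1 : ℝ))).continuous.comp h1

theorem pD_smul {f : V → ℝ} (hf : ContDiff ℝ ∞ f) (n : ℕ) (j : Fin 3) (c : ℝ) (x : V) :
    partialD n j (fun y => c * f y) x = c * partialD n j f x := by
  unfold partialD
  have h1 : ContDiffAt ℝ n f x := hf.contDiffAt.of_le (by exact_mod_cast le_top)
  have h2 := iteratedFDeriv_const_smul_apply (a := c) h1
  have h3 : (fun y => c * f y) = c • f := by
    funext y; simp
  rw [h3, h2]
  simp

/-- the integrand of the right side -/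
noncomputable def RH (n : ℕ) (ν : ℝ) (α : Fin 3 → ℝ) (w : V → V) (u x : V) : ℝ :=
  (∑ i, ∑ j, u i * u j * partialD 1 j (fun y => w y i) x)
    + ν * (∑ i, ∑ j, u i * partialD 2 j (fun y => w y i) x)
    - ∑ i, ∑ j, α j * (u i * partialD n j (fun y => w y i) x)

theorem bdm {Z : Type*} [MeasurableSpace Z] {μ : Measure Z} {X : Z → V} (hX : Measurable X)
    (hXQ : ∀ᵐ z ∂μ, X z ∈ Q) {h : V → ℝ} (hh : Continuous h) {g : Z → ℝ} (hg : Integrable g μ) :
    Integrable (fun z => g z * h (X z)) μ := by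
  obtain ⟨C, hC⟩ := (isCompact_Icc : IsCompact (Icc (0 : V) 1)).exists_bound_of_continuousOn
    hh.continuousOn
  exact hg.mul_bdd (c := C) (hh.measurable.comp hX).aestronglyMeasurable
    (hXQ.mono fun z hz => hC _ hz)

theorem RH_int {Z : Type*} [MeasurableSpace Z] {μ : Measure Z} {X U : Z → V} (hX : Measurable X)
    (hXQ : ∀ᵐ z ∂μ, X z ∈ Q) (hUU : ∀ i j, Integrable (fun z => U z i * U z j) μ)
    (hU : ∀ i, Integrable (fun z => U z i) μ) {w : V → V} (hw : Smooth w) (n : ℕ) (ν : ℝ)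
    (α : Fin 3 → ℝ) : Integrable (fun z => RH n ν α w (U z) (X z)) μ := by
  unfold RH
  refine ((integrable_finsetSum _ fun i _ => integrable_finsetSum _ fun j _ => ?_).add
    ((integrable_finsetSum _ fun i _ => integrable_finsetSum _ fun j _ => ?_).const_mul ν)).sub
    (integrable_finsetSum _ fun i _ => integrable_finsetSum _ fun j _ =>
      Integrable.const_mul ?_ _)
  · exact bdm hX hXQ (pD_cont (comp_smooth hw i) 1 j) (hUU i j)
  · exact bdm hX hXQ (pD_cont (comp_smooth hw i) 2 j) (hU i)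
  · exact bdm hX hXQ (pD_cont (comp_smooth hw i) n j) (hU i)

theorem yng (η d w : ℝ) (hη : 0 < η) : |d * w| ≤ (η⁻¹ * d ^ 2 + η * w ^ 2) / 2 := by
  have h1 : η⁻¹ * (d - η * w) ^ 2 = η⁻¹ * d ^ 2 - 2 * (d * w) + η * w ^ 2 := by
    field_simp; ring
  have h2 : η⁻¹ * (d + η * w) ^ 2 = η⁻¹ * d ^ 2 + 2 * (d * w) + η * w ^ 2 := by
    field_simp; ring
  have h3 := mul_nonneg (inv_nonneg.2 hη.le) (sq_nonneg (d - η * w))
  have h4 := mul_nonneg (inv_nonneg.2 hη.le) (sq_nonneg (d + η * w))
  rw [abs_le]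
  constructor <;> linarith

theorem memLp_smooth {w : V → V} (hw : Smooth w) (i : Fin 3) : MemLp (fun x => w x i) 2 mQ := by
  have := fin_mQ
  obtain ⟨C, hC⟩ := (isCompact_Icc : IsCompact (Icc (0 : V) 1)).exists_bound_of_continuousOn
    (comp_smooth hw i).continuous.continuousOn
  exact MemLp.of_bound (comp_smooth hw i).continuous.measurable.aestronglyMeasurable C
    (ae_restrict_of_forall_mem measurableSet_Icc fun x hx => hC x hx)

theorem lin_int {a w : V → V} (ha : ∀ i, MemLp (fun x => a x i) 2 mQ) (hw : Smooth w) :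
    Integrable (fun x => ∑ i, a x i * w x i) mQ :=
  integrable_finsetSum _ fun i _ => (ha i).integrable_mul (memLp_smooth hw i)

theorem key {a b w : V → V} (ha : ∀ i, MemLp (fun x => a x i) 2 mQ)
    (hb : ∀ i, MemLp (fun x => b x i) 2 mQ) (hw : Smooth w) (η : ℝ) (hη : 0 < η) :
    |(∫ x in Q, ∑ i, a x i * w x i) - ∫ x in Q, ∑ i, b x i * w x i| ≤
      (η⁻¹ * (∫ x in Q, ∑ i, (a x i - b x i) ^ 2) + η * ∫ x in Q, ∑ i, w x i ^ 2) / 2 := by
  have h1 : Integrable (fun x => ∑ i, (a x i - b x i) ^ 2) mQ :=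
    integrable_finsetSum _ fun i _ => ((ha i).sub (hb i)).integrable_sq
  have h2 : Integrable (fun x => ∑ i, w x i ^ 2) mQ :=
    integrable_finsetSum _ fun i _ => (memLp_smooth hw i).integrable_sq
  rw [← integral_sub (lin_int ha hw) (lin_int hb hw), ← integral_const_mul, ← integral_const_mul,
    ← integral_add (h1.const_mul _) (h2.const_mul _), ← integral_div, ← Real.norm_eq_abs]
  refine norm_integral_le_of_norm_le (((h1.const_mul _).add (h2.const_mul _)).div_const 2)
    (Eventually.of_forall fun x => ?_)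
  have e1 := yng η (a x 0 - b x 0) (w x 0) hη
  have e2 := yng η (a x 1 - b x 1) (w x 1) hη
  have e3 := yng η (a x 2 - b x 2) (w x 2) hη
  rw [Real.norm_eq_abs]
  simp only [Fin.sum_univ_three]
  rw [abs_le] at e1 e2 e3 ⊢
  constructor <;> nlinarith [e1.1, e1.2, e2.1, e2.2, e3.1, e3.2]

section

variable {n : ℕ} {ν : ℝ} {α : Fin 3 → ℝ} {T : ℝ} {v : ℝ → V → V}

theorem contA (hv : IsWeakC n ν α T v) {w : V → V} (hw : Smooth w) :
    ContinuousOn (fun s => ∫ x in Q, ∑ i, v s x i * w x i) (Icc 0 T) := by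
  intro t ht
  have hW : 0 ≤ ∫ x in Q, ∑ i, w x i ^ 2 :=
    integral_nonneg fun x => Finset.sum_nonneg fun i _ => sq_nonneg _
  obtain ⟨W, hWe⟩ : ∃ W, W = ∫ x in Q, ∑ i, w x i ^ 2 := ⟨_, rfl⟩
  rw [← hWe] at hW
  rw [ContinuousWithinAt, Metric.tendsto_nhds]
  intro ε hε
  obtain ⟨η, hη⟩ : ∃ η, η = ε / (W + 1) := ⟨_, rfl⟩
  have hη0 : 0 < η := by rw [hη]; positivity
  have hηW : η * W < ε := by
    rw [hη, div_mul_eq_mul_div, div_lt_iff₀ (by positivity)]
    nlinarith
  have h1 : ∀ᶠ s in 𝓝[Icc 0 T] t, ∫ x in Q, ∑ i, (v s x i - v t x i) ^ 2 < η * ε :=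
    (hv.cont t ht).eventually (gt_mem_nhds (by positivity))
  filter_upwards [h1, self_mem_nhdsWithin] with s hs1 hs2
  rw [Real.dist_eq]
  have h2 := key (hv.l2 s hs2) (hv.l2 t ht) hw η hη0
  rw [← hWe] at h2
  have h3 : η⁻¹ * (∫ x in Q, ∑ i, (v s x i - v t x i) ^ 2) < ε := by
    rw [inv_mul_lt_iff₀ hη0]
    exact hs1
  linarith

theorem meas_vi (hv : IsWeakC n ν α T v) (i : Fin 3) :
    Measurable fun z : ℝ × V => v z.1 z.2 i := (measurable_pi_apply i).comp hv.meas

theorem sq_int (h1a : K1a) (hv : IsWeakC n ν α T v) (i : Fin 3) :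
    Integrable (fun z : ℝ × V => v z.1 z.2 i ^ 2) ((mT T).prod mQ) := by
  have := fin_mT T
  have := fin_mQ
  obtain ⟨E, hE⟩ := h1a n ν α T v hv
  have hm : AEStronglyMeasurable (fun z : ℝ × V => v z.1 z.2 i ^ 2) ((mT T).prod mQ) :=
    ((meas_vi hv i).pow_const 2).aestronglyMeasurable
  rw [integrable_prod_iff hm]
  constructor
  · exact ae_restrict_of_forall_mem measurableSet_Icc fun t ht => (hv.l2 t ht i).integrable_sq
  · refine Integrable.of_bound (C := E) hm.norm.integral_prod_right' ?_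
    refine ae_restrict_of_forall_mem measurableSet_Icc fun t ht => ?_
    rw [Real.norm_of_nonneg (integral_nonneg fun x => norm_nonneg _)]
    have h3 : ∫ x in Q, v t x i ^ 2 ≤ ∫ x in Q, ∑ i, v t x i ^ 2 := by
      apply integral_mono (hv.l2 t ht i).integrable_sq
        (integrable_finsetSum _ fun j _ => (hv.l2 t ht j).integrable_sq)
      intro x
      exact Finset.single_le_sum (f := fun j => v t x j ^ 2) (fun j _ => sq_nonneg _)
        (Finset.mem_univ i)
    have h4 := h3.trans (hE t ht)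
    simpa [abs_of_nonneg, sq_nonneg] using h4

theorem mul_int (h1a : K1a) (hv : IsWeakC n ν α T v) (i j : Fin 3) :
    Integrable (fun z : ℝ × V => v z.1 z.2 i * v z.1 z.2 j) ((mT T).prod mQ) := by
  refine Integrable.mono' ((sq_int h1a hv i).add (sq_int h1a hv j))
    ((meas_vi hv i).mul (meas_vi hv j)).aestronglyMeasurable
    (Eventually.of_forall fun z => ?_)
  simp only [Pi.add_apply, Real.norm_eq_abs]
  rw [abs_le]
  constructor <;> nlinarith [sq_nonneg (v z.1 z.2 i + v z.1 z.2 j),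
    sq_nonneg (v z.1 z.2 i - v z.1 z.2 j), sq_nonneg (v z.1 z.2 i), sq_nonneg (v z.1 z.2 j)]

theorem one_int (h1a : K1a) (hv : IsWeakC n ν α T v) (i : Fin 3) :
    Integrable (fun z : ℝ × V => v z.1 z.2 i) ((mT T).prod mQ) := by
  have := fin_mT T
  have := fin_mQ
  refine Integrable.mono' ((sq_int h1a hv i).add (integrable_const (1 : ℝ)))
    (meas_vi hv i).aestronglyMeasurable (Eventually.of_forall fun z => ?_)
  simp only [Pi.add_apply, Real.norm_eq_abs]
  rw [abs_le]
  constructor <;> nlinarith [sq_nonneg (v z.1 z.2 i + 1), sq_nonneg (v z.1 z.2 i - 1),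
    sq_nonneg (v z.1 z.2 i)]

theorem intF (h1a : K1a) (hv : IsWeakC n ν α T v) {w : V → V} (hw : Smooth w) :
    Integrable (fun s => ∫ x in Q, RH n ν α w (v s x) x) (mT T) := by
  have := fin_mT T
  have := fin_mQ
  have h1 : Integrable (fun z : ℝ × V => RH n ν α w (v z.1 z.2) z.2) ((mT T).prod mQ) := by
    refine RH_int (X := fun z : ℝ × V => z.2) (U := fun z : ℝ × V => v z.1 z.2) measurable_snd ?_
      (mul_int h1a hv) (one_int h1a hv) hw n ν α
    rw [Measure.prod_restrict]
    exact ae_restrict_of_forall_mem (measurableSet_Icc.prod measurableSet_Icc) fun z hz => hz.2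
  exact h1.integral_prod_left

theorem RH_int1 (hv : IsWeakC n ν α T v) {w : V → V} (hw : Smooth w) {s : ℝ} (hs : s ∈ Icc 0 T) :
    Integrable (fun x => RH n ν α w (v s x) x) mQ := by
  have := fin_mQ
  refine RH_int (X := fun x => x) (U := fun x => v s x) measurable_id ?_
    (fun i j => (hv.l2 s hs i).integrable_mul (hv.l2 s hs j))
    (fun i => (hv.l2 s hs i).integrable (by norm_num)) hw n ν α
  exact ae_restrict_of_forall_mem measurableSet_Icc fun z hz => hz

theorem test (hv : IsWeakC n ν α T v) (hT : 0 < T) {w : V → V} (hw : Smooth w) (θ : ℝ → ℝ)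
    (hθ : ContDiff ℝ ∞ θ) (hab : ∃ a b : ℝ, 0 < a ∧ b < T ∧ ∀ t, t ∉ Icc a b → θ t = 0) :
    ∫ s in (0 : ℝ)..T, ((∫ x in Q, ∑ i, v s x i * w x i) * deriv θ s +
      (∫ x in Q, RH n ν α w (v s x) x) * θ s) = 0 := by
  have hφ : TestC T (fun t x => θ t • w x) := by
    refine ⟨?_, fun t j x => ?_, fun t x => ?_, ?_⟩
    · exact (hθ.comp contDiff_fst).smul (hw.smooth.comp contDiff_snd)
    · show θ t • w (x + Pi.single j 1) = θ t • w x
      rw [hw.per j x]
    · have h1 : ∀ j, partialD 1 j (fun y => (θ t • w y) j) x =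
          θ t * partialD 1 j (fun y => w y j) x := fun j =>
        pD_smul (comp_smooth hw j) 1 j (θ t) x
      simp only [h1]
      rw [← Finset.mul_sum, hw.divfree x, mul_zero]
    · obtain ⟨a, b, ha, hb, h⟩ := hab
      refine ⟨a, b, ha, hb, fun t ht => ?_⟩
      funext x
      simp [h t ht]
  refine Eq.trans ?_ (hv.weak _ hφ)
  apply intervalIntegral.integral_congr
  intro s hs
  rw [uIcc_of_le hT.le] at hs
  show (∫ x in Q, ∑ i, v s x i * w x i) * deriv θ s + (∫ x in Q, RH n ν α w (v s x) x) * θ s = _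
  rw [← integral_mul_const, ← integral_mul_const, ← integral_add
    ((lin_int (hv.l2 s hs) hw).mul_const _) ((RH_int1 hv hw hs).mul_const _)]
  congr 1
  funext x
  have p : ∀ (m : ℕ) (j i : Fin 3), partialD m j (fun y => (θ s • w y) i) x =
      θ s * partialD m j (fun y => w y i) x := fun m j i =>
    pD_smul (comp_smooth hw i) m j (θ s) x
  have q : ∀ i, deriv (fun r => (θ r • w x) i) s = deriv θ s * w x i := by
    intro i
    have h1 : DifferentiableAt ℝ θ s := (hθ.differentiable (by simp)) s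
    exact deriv_mul_const h1 (w x i)
  simp only [p, q, RH, Fin.sum_univ_three]
  ring

end

end K1X

open K1X in
/-- the equation between the times `0` and `t` -/
theorem k1 (h0 : K0) (h1a : K1a) : K1 := by
  intro n ν α T v hv w hw t ht
  have hT0 : 0 ≤ T := ht.1.trans ht.2
  rcases hT0.eq_or_lt with hT | hT
  · have ht0 : t = 0 := le_antisymm (hT ▸ ht.2) ht.1
    subst ht0
    simp
  · exact h0 T (fun s => ∫ x in Q, ∑ i, v s x i * w x i) (fun s => ∫ x in Q, RH n ν α w (v s x) x)
      hT (contA hv hw) (intF h1a hv hw) (test hv hT hw) t ht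

end Pool.Agent.H303.DEE.F
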