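import Pool.Agent.H303.DEE.Stm8

/-!
Project DEE, task K1a: the energy of a weak solution in `C([0, T]; L²)` is bounded.
-/

open MeasureTheory Set Filter Topology Complex
open scoped ContDiff ENNReal

namespace Pool.Agent.H303.DEE.F

namespace K1aP

lemma aux (a b : ℝ) : a ^ 2 ≤ 2 * b ^ 2 + 2 * (a - b) ^ 2 := by
  nlinarith [sq_nonneg (a - 2 * b)]

end K1aP

theorem k1a : K1a := by
  intro n ν α T v hv
  have I1 : ∀ r ∈ Icc 0 T, Integrable (fun x => ∑ i, v r x i ^ 2) (volume.restrict Q) := by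
    intro r hr
    exact integrable_finsetSum _ fun i _ => (hv.l2 r hr i).integrable_sq
  have key : ∀ s ∈ Icc 0 T, ∀ t ∈ Icc 0 T, ∫ x in Q, ∑ i, v s x i ^ 2 ≤
      2 * (∫ x in Q, ∑ i, v t x i ^ 2) + 2 * ∫ x in Q, ∑ i, (v s x i - v t x i) ^ 2 := by
    intro s hs t ht
    have I2 : Integrable (fun x => ∑ i, (v s x i - v t x i) ^ 2) (volume.restrict Q) :=
      integrable_finsetSum _ fun i _ => ((hv.l2 s hs i).sub (hv.l2 t ht i)).integrable_sq
    rw [← integral_const_mul, ← integral_const_mul,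
      ← integral_add ((I1 t ht).const_mul 2) (I2.const_mul 2)]
    refine integral_mono (I1 s hs) (((I1 t ht).const_mul 2).add (I2.const_mul 2)) fun x => ?_
    show ∑ i, v s x i ^ 2 ≤ 2 * (∑ i, v t x i ^ 2) + 2 * ∑ i, (v s x i - v t x i) ^ 2
    rw [Finset.mul_sum, Finset.mul_sum, ← Finset.sum_add_distrib]
    exact Finset.sum_le_sum fun i _ => K1aP.aux _ _
  have h : ∃ E : ℝ, ∀ t ∈ Icc (0 : ℝ) T, t ∈ Icc (0 : ℝ) T → ∫ x in Q, ∑ i, v t x i ^ 2 ≤ E := by
    refine isCompact_Icc.induction_on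
      (p := fun S : Set ℝ => ∃ E : ℝ, ∀ t ∈ S, t ∈ Icc (0 : ℝ) T →
        ∫ x in Q, ∑ i, v t x i ^ 2 ≤ E) ?_ ?_ ?_ ?_
    · exact ⟨0, fun t ht => absurd ht (notMem_empty t)⟩
    · rintro S S' hS ⟨E, hE⟩
      exact ⟨E, fun t ht => hE t (hS ht)⟩
    · rintro S S' ⟨E, hE⟩ ⟨E', hE'⟩
      refine ⟨max E E', fun t ht htT => ?_⟩
      rcases ht with ht | ht
      · exact (hE t ht htT).trans (le_max_left _ _)
      · exact (hE' t ht htT).trans (le_max_right _ _)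
    · intro t ht
      refine ⟨{s | ∫ x in Q, ∑ i, (v s x i - v t x i) ^ 2 < 1},
        (hv.cont t ht).eventually_lt_const one_pos,
        2 * (∫ x in Q, ∑ i, v t x i ^ 2) + 2, fun s hs hsT => ?_⟩
      have h1 := key s hsT t ht
      have h2 : ∫ x in Q, ∑ i, (v s x i - v t x i) ^ 2 < 1 := hs
      linarith
  obtain ⟨E, hE⟩ := h
  exact ⟨E, fun t ht => hE t ht ht⟩

end Pool.Agent.H303.DEE.F
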