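import Pool.Agent.H303.DEE.Stm8
import Pool.Agent.H303.DEE.FP5

/-!
Project DEE-K, step K2 (helper923, after FP5 by helper32): the Fourier coefficients of a weak
solution satisfy the equation, from the steps P2, P4 and K1a.
-/

set_option autoImplicit false

open MeasureTheory Set Filter Topology Complex
open scoped ContDiff ENNReal

namespace Pool.Agent.H303.DEE.F

namespace TK2

open TP5

theorem smooth (k : K) (i : Fin 3) (g : ℝ → ℝ) (hg : ContDiff ℝ ∞ g)
    (hper : ∀ (y : ℝ) (m : ℤ), g (y + m * (2 * Real.pi)) = g y) :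
    Smooth (fun x l => cc k i l * g (lin k x)) where
  smooth := by
    rw [contDiff_pi]
    intro l
    exact contDiff_const.mul (hg.comp (lin k).contDiff)
  per := (test k i g hg hper).per 0 le_rfl
  divfree := (test k i g hg hper).divfree 0 le_rfl

/-- the weak form at a fixed time -/
noncomputable def W (n : ℕ) (ν : ℝ) (α : Fin 3 → ℝ) (u : V → V) (k : K)
    (i : Fin 3) (g : ℝ → ℝ) : ℝ :=
  ∫ x in Q, ((∑ l, ∑ j, u x l * u x j * partialD 1 j (fun y => cc k i l * g (lin k y)) x)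
          + ν * (∑ l, ∑ j, u x l * partialD 2 j (fun y => cc k i l * g (lin k y)) x)
          - ∑ l, ∑ j, α j * (u x l * partialD n j (fun y => cc k i l * g (lin k y)) x))

theorem W_eq (n : ℕ) (ν : ℝ) (α : Fin 3 → ℝ) (u : V → V) (k : K)
    (hu : ∀ i, MemLp (fun x => u x i) 2 mQ)
    (i : Fin 3) (g : ℝ → ℝ) (hg : ContDiff ℝ ∞ g)
    (h1 : ∀ y, |iteratedDeriv 1 g y| ≤ 1) (h2 : ∀ y, |iteratedDeriv 2 g y| ≤ 1)
    (hn : ∀ y, |iteratedDeriv n g y| ≤ 1) :
    W n ν α u k i g = (∫ x in Q, (F1 u k i x * iteratedDeriv 1 g (lin k x)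
      - HH n α u k i x * iteratedDeriv n g (lin k x)))
      + ν * ∫ x in Q, HH 2 (fun _ => 1) u k i x * iteratedDeriv 2 g (lin k x) := by
  have hc : ∀ j, Continuous (iteratedDeriv j g) := fun j =>
    hg.continuous_iteratedDeriv j (by exact_mod_cast le_top)
  have i1 := (int_g k _ (int_F1 k u hu i) _ (hc 1) h1).sub
    (int_g k _ (int_HH n α k u hu i) _ (hc n) hn)
  have i2 := (int_g k _ (int_HH 2 (fun _ => 1) k u hu i) _ (hc 2) h2).const_mul ν
  rw [← integral_const_mul]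
  have e := integral_add i1 i2
  refine Eq.trans ?_ e
  unfold W
  congr 1
  funext x
  simp only [pD _ _ k _ g hg x, F1, HH, ku, Fin.sum_univ_three, Pi.sub_apply]
  ring

theorem comb2 (k : K) (F : V → ℝ) (hF : Integrable F mQ) :
    ((∫ x in Q, F x * iteratedDeriv 2 Real.cos (lin k x) : ℝ) : ℂ)
      - I * ((∫ x in Q, F x * iteratedDeriv 2 Real.sin (lin k x) : ℝ) : ℂ) = -cf F k := by
  have hc : ∀ j, Continuous (iteratedDeriv j Real.cos) := fun j =>
    (Real.contDiff_cos (n := ⊤)).continuous_iteratedDeriv j (by exact_mod_cast le_top)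
  have hs : ∀ j, Continuous (iteratedDeriv j Real.sin) := fun j =>
    (Real.contDiff_sin (n := ⊤)).continuous_iteratedDeriv j (by exact_mod_cast le_top)
  have i1 := int_g k F hF _ (hc 2) (Real.abs_iteratedDeriv_cos_le_one 2)
  have i2 := int_g k F hF _ (hs 2) (Real.abs_iteratedDeriv_sin_le_one 2)
  have j1 : Integrable (fun x => ((F x * iteratedDeriv 2 Real.cos (lin k x) : ℝ) : ℂ)) mQ :=
    i1.ofReal
  have j2 : Integrable (fun x => ((F x * iteratedDeriv 2 Real.sin (lin k x) : ℝ) : ℂ)) mQ :=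
    i2.ofReal
  rw [← integral_complex_ofReal, ← integral_complex_ofReal, ← integral_const_mul,
    ← integral_sub j1 (j2.const_mul I), cf_eq, ← integral_neg]
  congr 1
  funext x
  have e1 := Real.iteratedDeriv_even_cos 1
  have e2 := Real.iteratedDeriv_even_sin 1
  rw [show 2 * 1 = 2 from rfl] at e1 e2
  rw [e1, e2, ek_eq]
  simp only [Pi.mul_apply, Pi.pow_apply, Pi.neg_apply, Pi.one_apply]
  push_cast
  ring

theorem fixed (h2 : P2) (h4 : P4) (n m : ℕ) (hn : n = 2 * m + 1) (ν : ℝ) (α : Fin 3 → ℝ)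
    (u : V → V) (hu : ∀ i, MemLp (fun x => u x i) 2 mQ)
    (hdiv : ∀ ψ : V → ℝ, ContDiff ℝ ∞ ψ → Periodic ψ → ∫ x in Q, ∑ j, u x j * partialD 1 j ψ x = 0)
    (k : K) (i : Fin 3) :
    (W n ν α u k i Real.cos : ℂ) - I * (W n ν α u k i Real.sin : ℂ) =
      (-((4 * Real.pi ^ 2 * ν * kn k ^ 2 : ℝ) : ℂ) + I * (gg n α k : ℂ)) * U u k i
        - Nl (U u) k i := by
  subst hn
  have hc := fun j => Real.abs_iteratedDeriv_cos_le_one j
  have hs := fun j => Real.abs_iteratedDeriv_sin_le_one j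
  rw [W_eq _ _ _ _ _ hu _ _ Real.contDiff_cos (hc 1) (hc 2) (hc _),
    W_eq _ _ _ _ _ hu _ _ Real.contDiff_sin (hs 1) (hs 2) (hs _)]
  have c1 := comb m k (F1 u k i) _ (int_F1 k u hu i) (int_HH (2 * m + 1) α k u hu i)
  have c2 := comb2 k _ (int_HH 2 (fun _ => 1) k u hu i)
  rw [cf_F1 k u hu, cf_HH _ _ k u hu] at c1
  rw [cf_HH _ _ k u hu] at c2
  have hd : dt k (U u k) = 0 := h4 u hu hdiv k
  have hcc : ∑ l, (cc k i l : ℂ) * U u k l = U u k i := by
    rw [cc_Pr]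
    unfold Pr
    rw [hd]
    ring
  have e1 : ∑ l, ((cc k i l * (2 * Real.pi) : ℝ) : ℂ) * cf (fun x => ku k u x * u x l) k =
      -I * Nl (U u) k i := by
    unfold Nl
    rw [← cc_Pr, Finset.mul_sum]
    refine Finset.sum_congr rfl fun l _ => ?_
    rw [Bn_eq h2 k u hu l]
    push_cast
    linear_combination ((cc k i l : ℂ) * (2 * Real.pi) * cf (fun x => ku k u x * u x l) k)
      * Complex.I_sq
  have e2 : ∑ l, ∑ j, ((cc k i l * (1 * (2 * Real.pi * (k j : ℝ)) ^ 2) : ℝ) : ℂ) *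
      cf (fun x => u x l) k = 4 * Real.pi ^ 2 * (kn k ^ 2 : ℝ) * U u k i := by
    rw [kn_sq, ← hcc]
    have : ∀ l j : Fin 3, ((cc k i l * (1 * (2 * Real.pi * (k j : ℝ)) ^ 2) : ℝ) : ℂ) *
        cf (fun x => u x l) k =
        (4 * Real.pi ^ 2 * (k j : ℂ) ^ 2) * ((cc k i l : ℂ) * U u k l) := by
      intro l j
      unfold U
      push_cast
      ring
    rw [Finset.sum_congr rfl fun l _ => Finset.sum_congr rfl fun j _ => this l j]
    simp only [Fin.sum_univ_three]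
    push_cast
    ring
  have e3 : ∑ l, ∑ j, ((cc k i l * (α j * (2 * Real.pi * (k j : ℝ)) ^ (2 * m + 1)) : ℝ) : ℂ) *
      cf (fun x => u x l) k =
      ((∑ j, α j * (2 * Real.pi * (k j : ℝ)) ^ (2 * m + 1) : ℝ) : ℂ) * U u k i := by
    rw [← hcc]
    have : ∀ l j : Fin 3,
        ((cc k i l * (α j * (2 * Real.pi * (k j : ℝ)) ^ (2 * m + 1)) : ℝ) : ℂ) *
        cf (fun x => u x l) k = ((α j * (2 * Real.pi * (k j : ℝ)) ^ (2 * m + 1) : ℝ) : ℂ) *
          ((cc k i l : ℂ) * U u k l) := by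
      intro l j
      unfold U
      push_cast
      ring
    rw [Finset.sum_congr rfl fun l _ => Finset.sum_congr rfl fun j _ => this l j]
    simp only [Fin.sum_univ_three]
    push_cast
    ring
  rw [e1, e3] at c1
  rw [e2] at c2
  unfold gg
  rw [show (2 * m + 1 - 1) / 2 = m by omega]
  push_cast at c1 c2 ⊢
  linear_combination c1 + (ν : ℂ) * c2 + Nl (U u) k i * Complex.I_sq

theorem en_bd {n : ℕ} {ν : ℝ} {α : Fin 3 → ℝ} {T : ℝ} {u : ℝ → V → V}
    (h : IsWeakC n ν α T u) {E : ℝ} (hE : ∀ t ∈ Icc 0 T, ∫ x in Q, ∑ i, u t x i ^ 2 ≤ E) (t : ℝ)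
    (ht : t ∈ Icc 0 T) (i : Fin 3) : ∫ x in Q, u t x i ^ 2 ≤ E := by
  refine le_trans ?_ (hE t ht)
  apply integral_mono (h.l2 t ht i).integrable_sq
    (integrable_finsetSum _ fun j _ => (h.l2 t ht j).integrable_sq)
  intro x
  exact Finset.single_le_sum (f := fun j => u t x j ^ 2) (fun j _ => sq_nonneg _)
    (Finset.mem_univ i)

theorem sq_int {n : ℕ} {ν : ℝ} {α : Fin 3 → ℝ} {T : ℝ} {u : ℝ → V → V}
    (h : IsWeakC n ν α T u) {E : ℝ} (hE : ∀ t ∈ Icc 0 T, ∫ x in Q, ∑ i, u t x i ^ 2 ≤ E)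
    (i : Fin 3) :
    Integrable (fun z : ℝ × V => u z.1 z.2 i ^ 2) ((mT T).prod mQ) := by
  have := fin_mT T
  have := fin_mQ
  have hm : AEStronglyMeasurable (fun z : ℝ × V => u z.1 z.2 i ^ 2) ((mT T).prod mQ) :=
    ((meas_ui h.meas i).pow_const 2).aestronglyMeasurable
  rw [integrable_prod_iff hm]
  constructor
  · exact ae_restrict_of_forall_mem measurableSet_Icc fun t ht => (h.l2 t ht i).integrable_sq
  · refine Integrable.of_bound (C := E) hm.norm.integral_prod_right' ?_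
    refine ae_restrict_of_forall_mem measurableSet_Icc fun t ht => ?_
    rw [Real.norm_of_nonneg (integral_nonneg fun x => norm_nonneg _)]
    have := en_bd h hE t ht i
    simpa [abs_of_nonneg, sq_nonneg] using this

theorem mul_int {n : ℕ} {ν : ℝ} {α : Fin 3 → ℝ} {T : ℝ} {u : ℝ → V → V}
    (h : IsWeakC n ν α T u) {E : ℝ} (hE : ∀ t ∈ Icc 0 T, ∫ x in Q, ∑ i, u t x i ^ 2 ≤ E)
    (i j : Fin 3) :
    Integrable (fun z : ℝ × V => u z.1 z.2 i * u z.1 z.2 j) ((mT T).prod mQ) := by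
  refine Integrable.mono' ((sq_int h hE i).add (sq_int h hE j))
    ((meas_ui h.meas i).mul (meas_ui h.meas j)).aestronglyMeasurable
    (Eventually.of_forall fun z => ?_)
  simp only [Pi.add_apply, Real.norm_eq_abs]
  rw [abs_le]
  constructor <;> nlinarith [sq_nonneg (u z.1 z.2 i + u z.1 z.2 j),
    sq_nonneg (u z.1 z.2 i - u z.1 z.2 j), sq_nonneg (u z.1 z.2 i), sq_nonneg (u z.1 z.2 j)]

theorem one_int {n : ℕ} {ν : ℝ} {α : Fin 3 → ℝ} {T : ℝ} {u : ℝ → V → V}
    (h : IsWeakC n ν α T u) {E : ℝ} (hE : ∀ t ∈ Icc 0 T, ∫ x in Q, ∑ i, u t x i ^ 2 ≤ E)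
    (i : Fin 3) :
    Integrable (fun z : ℝ × V => u z.1 z.2 i) ((mT T).prod mQ) := by
  have := fin_mT T
  have := fin_mQ
  refine Integrable.mono' ((sq_int h hE i).add (integrable_const (1 : ℝ)))
    (meas_ui h.meas i).aestronglyMeasurable (Eventually.of_forall fun z => ?_)
  simp only [Pi.add_apply, Real.norm_eq_abs]
  rw [abs_le]
  constructor <;> nlinarith [sq_nonneg (u z.1 z.2 i + 1), sq_nonneg (u z.1 z.2 i - 1),
    sq_nonneg (u z.1 z.2 i)]

theorem u_int {n : ℕ} {ν : ℝ} {α : Fin 3 → ℝ} {T : ℝ} {u : ℝ → V → V}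
    (h : IsWeakC n ν α T u) {E : ℝ} (hE : ∀ t ∈ Icc 0 T, ∫ x in Q, ∑ i, u t x i ^ 2 ≤ E) (k : K)
    (i : Fin 3) : Integrable (fun s => U (u s) k i) (mT T) :=
  cf_int (fun z => u z.1 z.2 i) (one_int h hE i) k

theorem Nl_int {n : ℕ} {ν : ℝ} {α : Fin 3 → ℝ} {T : ℝ} {u : ℝ → V → V}
    (h2 : P2) (h : IsWeakC n ν α T u) {E : ℝ}
    (hE : ∀ t ∈ Icc 0 T, ∫ x in Q, ∑ i, u t x i ^ 2 ≤ E) (k : K)
    (i : Fin 3) : Integrable (fun s => Nl (U (u s)) k i) (mT T) := by
  have h3 : ∀ l : Fin 3, Integrable (fun s => cf (fun x => ku k (u s) x * u s x l) k) (mT T) := by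
    intro l
    refine cf_int (fun z : ℝ × V => ku k (u z.1) z.2 * u z.1 z.2 l) ?_ k
    have h4 : Integrable (fun z : ℝ × V => ∑ j, (k j : ℝ) * (u z.1 z.2 j * u z.1 z.2 l))
        ((mT T).prod mQ) := integrable_finsetSum _ fun j _ => (mul_int h hE j l).const_mul _
    refine h4.congr (Eventually.of_forall fun z => ?_)
    simp only [ku, Finset.sum_mul]
    exact Finset.sum_congr rfl fun j _ => by ring
  have h5 : Integrable (fun s => ∑ l, ((cc k i l : ℂ) * (2 * Real.pi * I)) *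
      cf (fun x => ku k (u s) x * u s x l) k) (mT T) :=
    integrable_finsetSum _ fun l _ => (h3 l).const_mul _
  refine h5.congr (ae_restrict_of_forall_mem measurableSet_Icc fun s hs => ?_)
  simp only [Nl]
  rw [← cc_Pr]
  refine Finset.sum_congr rfl fun l _ => ?_
  rw [Bn_eq h2 k (u s) (h.l2 s hs) l]
  ring

theorem rh_int {n : ℕ} {ν : ℝ} {α : Fin 3 → ℝ} {T : ℝ} {u : ℝ → V → V}
    (h2 : P2) (h : IsWeakC n ν α T u) {E : ℝ}
    (hE : ∀ t ∈ Icc 0 T, ∫ x in Q, ∑ i, u t x i ^ 2 ≤ E) (k : K)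
    (i : Fin 3) : Integrable (rh n ν α u k i) (mT T) :=
  ((u_int h hE k i).const_mul _).sub (Nl_int h2 h hE k i)

theorem main {n : ℕ} {ν : ℝ} {α : Fin 3 → ℝ} {T : ℝ} {u : ℝ → V → V}
    (h2 : P2) (h4 : P4) (hn : Odd n)
    (h : IsWeakC n ν α T u) (hI : IntEq n ν α T u) {E : ℝ}
    (hE : ∀ t ∈ Icc 0 T, ∫ x in Q, ∑ i, u t x i ^ 2 ≤ E)
    (k : K) (i : Fin 3) (t : ℝ) (ht : t ∈ Icc 0 T) :
    U (u t) k i = U (u 0) k i + ∫ s in (0 : ℝ)..t, rh n ν α u k i s := by
  have h0 : (0 : ℝ) ∈ Icc 0 T := ⟨le_rfl, ht.1.trans ht.2⟩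
  have hR : IntervalIntegrable (rh n ν α u k i) volume 0 t := by
    rw [intervalIntegrable_iff_integrableOn_Ioc_of_le ht.1]
    exact IntegrableOn.mono_set (t := Icc 0 T) (rh_int h2 h hE k i)
      (fun s hs => ⟨hs.1.le, hs.2.trans ht.2⟩)
  obtain ⟨m, hm⟩ := hn
  have hae : ∀ s ∈ Set.uIcc (0 : ℝ) t, (W n ν α (u s) k i Real.cos : ℂ)
      - I * (W n ν α (u s) k i Real.sin : ℂ) = rh n ν α u k i s := by
    intro s hs
    rw [uIcc_of_le ht.1] at hs
    have hs' : s ∈ Icc 0 T := ⟨hs.1, hs.2.trans ht.2⟩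
    exact fixed h2 h4 n m hm ν α (u s) (h.l2 s hs') (h.divfree s hs') k i
  have wk : ∀ (g : ℝ → ℝ), ContDiff ℝ ∞ g → (∀ (y : ℝ) (m : ℤ), g (y + m * (2 * Real.pi)) = g y) →
      AA (u t) k i g - AA (u 0) k i g = ∫ s in (0 : ℝ)..t, W n ν α (u s) k i g := by
    intro g hg hp
    exact hI _ (smooth k i g hg hp) t ht
  have w1 := wk Real.cos Real.contDiff_cos fun y m => Real.cos_add_int_mul_two_pi y m
  have w2 := wk Real.sin Real.contDiff_sin fun y m => Real.sin_add_int_mul_two_pi y m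
  have r1 : ∫ s in (0 : ℝ)..t, W n ν α (u s) k i Real.cos =
      (∫ s in (0 : ℝ)..t, rh n ν α u k i s).re := by
    have e := Complex.reCLM.intervalIntegral_comp_comm hR
    rw [Complex.reCLM_apply] at e
    rw [← e]
    apply intervalIntegral.integral_congr
    intro s hs
    show _ = Complex.reCLM (rh n ν α u k i s)
    rw [← hae s hs]
    simp
  have r2 : ∫ s in (0 : ℝ)..t, W n ν α (u s) k i Real.sin =
      -(∫ s in (0 : ℝ)..t, rh n ν α u k i s).im := by
    have e := Complex.imCLM.intervalIntegral_comp_comm hR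
    rw [Complex.imCLM_apply] at e
    rw [← e, ← intervalIntegral.integral_neg]
    apply intervalIntegral.integral_congr
    intro s hs
    show _ = -Complex.imCLM (rh n ν α u k i s)
    rw [← hae s hs]
    simp
  rw [← AA_U h4 (u t) (h.l2 t ht) (h.divfree t ht) k i,
    ← AA_U h4 (u 0) (h.l2 0 h0) (h.divfree 0 h0) k i]
  have s1 : AA (u t) k i Real.cos = AA (u 0) k i Real.cos +
      (∫ s in (0 : ℝ)..t, rh n ν α u k i s).re := by linarith
  have s2 : AA (u t) k i Real.sin = AA (u 0) k i Real.sin -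
      (∫ s in (0 : ℝ)..t, rh n ν α u k i s).im := by linarith
  rw [s1, s2]
  have s3 := Complex.re_add_im (∫ s in (0 : ℝ)..t, rh n ν α u k i s)
  push_cast
  linear_combination s3

end TK2

/-- the equation for the Fourier coefficients -/
theorem k2 (h2 : P2) (h4 : P4) (h1a : K1a) : K2 := by
  intro n ν α T u hn hT h hI
  obtain ⟨E, hE⟩ := h1a n ν α T u h
  refine ⟨fun k i => TK2.Nl_int h2 h hE k i, fun k i => ?_,
    fun k i t ht => TK2.main h2 h4 hn h hI hE k i t ht⟩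
  have h1 : ContinuousOn (fun t => ∫ s in (0 : ℝ)..t, TP5.rh n ν α u k i s) (Icc 0 T) := by
    have := intervalIntegral.continuousOn_primitive_interval (f := TP5.rh n ν α u k i)
      (μ := volume) (a := 0) (b := T) (by
        rw [uIcc_of_le hT]
        exact TK2.rh_int h2 h hE k i)
    rwa [uIcc_of_le hT] at this
  have h2' : ContinuousOn (fun t => TP5.U (u 0) k i + ∫ s in (0 : ℝ)..t, TP5.rh n ν α u k i s)
      (Icc 0 T) := continuousOn_const.add h1
  refine h2'.congr fun t ht => ?_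
  exact TK2.main h2 h4 hn h hI hE k i t ht

end Pool.Agent.H303.DEE.F
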