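import Pool.Agent.H303.DEE.Stm8
import Pool.Agent.H303.DEE.FH2

/-!
Project DEE, subtask K3a: the dissipation is finite.
-/

open MeasureTheory Set Filter Topology Complex

namespace Pool.Agent.H303.DEE.F

namespace XK3a

open XH2 (sq_complex nm_sq)

/-- the energy balance of one coefficient -/
lemma one {g : K → ℝ} {ν T : ℝ} {a : ℝ → K → C3} (k : K) (hT : 0 ≤ T)
    (hcont : ∀ i, ContinuousOn (fun t => a t k i) (Icc 0 T))
    (hintN : ∀ i, IntegrableOn (fun s => Nl (a s) k i) (Icc 0 T))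
    (hode : ∀ i, ∀ t ∈ Icc 0 T, a t k i = a 0 k i + ∫ s in (0 : ℝ)..t,
      ((-((4 * Real.pi ^ 2 * ν * kn k ^ 2 : ℝ) : ℂ) + I * (g k : ℂ)) * a s k i
        - Nl (a s) k i)) :
    IntervalIntegrable (fun s => kn k ^ 2 * nm (a s k) ^ 2) volume 0 T ∧
    IntervalIntegrable (fun s => (∑ i, Nl (a s) k i * (starRingEnd ℂ) (a s k i)).re)
      volume 0 T ∧
    (1 / 2) * nm (a T k) ^ 2
        + 4 * Real.pi ^ 2 * ν * (∫ s in (0 : ℝ)..T, kn k ^ 2 * nm (a s k) ^ 2)
      = (1 / 2) * nm (a 0 k) ^ 2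
        - ∫ s in (0 : ℝ)..T, (∑ i, Nl (a s) k i * (starRingEnd ℂ) (a s k i)).re := by
  have hcont' : ∀ i, ContinuousOn (fun s => a s k i) (uIcc 0 T) := fun i => by
    rw [uIcc_of_le hT]; exact hcont i
  have hcontc : ∀ i, ContinuousOn (fun s => (starRingEnd ℂ) (a s k i)) (uIcc 0 T) := fun i =>
    Complex.continuous_conj.comp_continuousOn (hcont' i)
  have hN : ∀ i, IntervalIntegrable (fun s => Nl (a s) k i) volume 0 T := fun i => by
    rw [intervalIntegrable_iff_integrableOn_Icc_of_le hT]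
    exact hintN i
  have hA : ∀ i, IntervalIntegrable (fun s => a s k i) volume 0 T := fun i =>
    (hcont' i).intervalIntegrable
  have hφ : ∀ i, IntervalIntegrable (fun s =>
      ((-((4 * Real.pi ^ 2 * ν * kn k ^ 2 : ℝ) : ℂ) + I * (g k : ℂ)) * a s k i
        - Nl (a s) k i)) volume 0 T := fun i => ((hA i).const_mul _).sub (hN i)
  have hnm : ContinuousOn (fun s => nm (a s k) ^ 2) (uIcc 0 T) := by
    simp only [nm_sq]
    exact continuousOn_finsetSum _ fun i _ => ((hcont' i).norm).pow 2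
  have hI1 : IntervalIntegrable (fun s => kn k ^ 2 * nm (a s k) ^ 2) volume 0 T :=
    (hnm.const_mul _).intervalIntegrable
  have hI2c : IntervalIntegrable (fun s => ∑ i, Nl (a s) k i * (starRingEnd ℂ) (a s k i))
      volume 0 T := by
    have := IntervalIntegrable.sum (μ := volume) (a := 0) (b := T) Finset.univ
      (f := fun i s => Nl (a s) k i * (starRingEnd ℂ) (a s k i))
      (fun i _ => (hN i).mul_continuousOn (hcontc i))
    refine this.congr ?_
    intro s _
    simp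
  have hI2 : IntervalIntegrable (fun s => (∑ i, Nl (a s) k i * (starRingEnd ℂ) (a s k i)).re)
      volume 0 T := ⟨hI2c.1.re, hI2c.2.re⟩
  refine ⟨hI1, hI2, ?_⟩
  have hsq : ∀ i, ‖a T k i‖ ^ 2 - ‖a 0 k i‖ ^ 2 = ∫ s in (0 : ℝ)..T,
      2 * ((((-((4 * Real.pi ^ 2 * ν * kn k ^ 2 : ℝ) : ℂ) + I * (g k : ℂ)) * a s k i
        - Nl (a s) k i)) * (starRingEnd ℂ) (a s k i)).re := fun i =>
    sq_complex (f := fun s => a s k i) hT (hφ i)
      (fun s hs => hode i s hs) (hcont i)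
  have hint : ∀ i, IntervalIntegrable (fun s =>
      2 * ((((-((4 * Real.pi ^ 2 * ν * kn k ^ 2 : ℝ) : ℂ) + I * (g k : ℂ)) * a s k i
        - Nl (a s) k i)) * (starRingEnd ℂ) (a s k i)).re) volume 0 T := fun i => by
    have := (hφ i).mul_continuousOn (hcontc i)
    exact IntervalIntegrable.const_mul ⟨this.1.re, this.2.re⟩ 2
  have hsum : nm (a T k) ^ 2 - nm (a 0 k) ^ 2 = ∫ s in (0 : ℝ)..T,
      ∑ i, 2 * ((((-((4 * Real.pi ^ 2 * ν * kn k ^ 2 : ℝ) : ℂ) + I * (g k : ℂ)) * a s k i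
        - Nl (a s) k i)) * (starRingEnd ℂ) (a s k i)).re := by
    rw [nm_sq, nm_sq, ← Finset.sum_sub_distrib, intervalIntegral.integral_finsetSum
      (fun i _ => hint i)]
    exact Finset.sum_congr rfl fun i _ => hsq i
  have hpt : ∀ s, ∑ i, 2 * ((((-((4 * Real.pi ^ 2 * ν * kn k ^ 2 : ℝ) : ℂ) + I * (g k : ℂ))
        * a s k i - Nl (a s) k i)) * (starRingEnd ℂ) (a s k i)).re =
      (-(8 * Real.pi ^ 2 * ν)) * (kn k ^ 2 * nm (a s k) ^ 2)
        - 2 * (∑ i, Nl (a s) k i * (starRingEnd ℂ) (a s k i)).re := by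
    intro s
    rw [nm_sq, Complex.re_sum, Finset.mul_sum, Finset.mul_sum, Finset.mul_sum,
      ← Finset.sum_sub_distrib]
    refine Finset.sum_congr rfl fun i _ => ?_
    rw [Complex.sq_norm, Complex.normSq_apply]
    simp only [Complex.mul_re, Complex.mul_im, Complex.add_re, Complex.add_im, Complex.sub_re,
      Complex.sub_im, Complex.neg_re, Complex.neg_im, Complex.ofReal_re, Complex.ofReal_im,
      Complex.I_re, Complex.I_im, Complex.conj_re, Complex.conj_im]
    ring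
  rw [intervalIntegral.integral_congr (g := fun s => (-(8 * Real.pi ^ 2 * ν)) *
      (kn k ^ 2 * nm (a s k) ^ 2) - 2 * (∑ i, Nl (a s) k i * (starRingEnd ℂ) (a s k i)).re)
      (fun s _ => hpt s), intervalIntegral.integral_sub (hI1.const_mul _) (hI2.const_mul 2)] at hsum
  simp only [intervalIntegral.integral_const_mul] at hsum ⊢
  linarith

lemma nm_nonneg (v : C3) : 0 ≤ nm v := Real.sqrt_nonneg _

/-- Cauchy-Schwarz -/
lemma cs (u v : C3) : -(∑ i, u i * (starRingEnd ℂ) (v i)).re ≤ nm u * nm v := by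
  have h1 : -(∑ i, u i * (starRingEnd ℂ) (v i)).re ≤ ‖∑ i, u i * (starRingEnd ℂ) (v i)‖ :=
    (neg_le_abs _).trans (Complex.abs_re_le_norm _)
  refine h1.trans ((norm_sum_le _ _).trans ?_)
  have h2 : ∀ i, ‖u i * (starRingEnd ℂ) (v i)‖ = ‖u i‖ * ‖v i‖ := fun i => by
    rw [norm_mul, RCLike.norm_conj]
  rw [Finset.sum_congr rfl fun i _ => h2 i]
  exact Real.sum_mul_le_sqrt_mul_sqrt _ _ _

end XK3a

open XK3a in
/-- the dissipation is finite -/
theorem k3a : K3a := by
  intro g ν T a F hν hT hE hcont hintN hode hF hFi hFs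
  obtain ⟨E, hE⟩ := hE
  have hpi : 0 < Real.pi ^ 2 * ν := by positivity
  have h0 : Summable (fun k => nm (a 0 k) ^ 2) := (hE 0 ⟨le_rfl, hT⟩).1
  have hmaj : Summable (fun k => (1 / (2 * Real.pi ^ 2 * ν)) * ((1 / 2) * nm (a 0 k) ^ 2 +
      (1 / (8 * Real.pi ^ 2 * ν)) * ∫ s in (0 : ℝ)..T, F s k ^ 2)) :=
    ((h0.mul_left _).add (hFs.mul_left _)).mul_left _
  refine Summable.of_nonneg_of_le (fun k => ?_) (fun k => ?_) hmaj
  · exact intervalIntegral.integral_nonneg hT fun s _ => by positivity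
  · obtain ⟨hI1, hI2, hen⟩ := one k hT (hcont k) (hintN k) (hode k)
    have hFk : IntervalIntegrable (fun s => F s k ^ 2) volume 0 T := by
      rw [intervalIntegrable_iff_integrableOn_Icc_of_le hT]
      exact hFi k
    have hle : ∫ s in (0 : ℝ)..T, -(∑ i, Nl (a s) k i * (starRingEnd ℂ) (a s k i)).re ≤
        ∫ s in (0 : ℝ)..T, ((2 * Real.pi ^ 2 * ν) * (kn k ^ 2 * nm (a s k) ^ 2) +
          (1 / (8 * Real.pi ^ 2 * ν)) * F s k ^ 2) := by
      refine intervalIntegral.integral_mono_ae_restrict hT hI2.neg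
        ((hI1.const_mul _).add (hFk.const_mul _)) ?_
      filter_upwards [hF k] with s hs
      obtain ⟨hs0, hs1⟩ := hs
      have h1 := cs (Nl (a s) k) (a s k)
      have h2 : nm (Nl (a s) k) * nm (a s k) ≤ kn k * F s k * nm (a s k) :=
        mul_le_mul_of_nonneg_right hs1 (nm_nonneg _)
      have h3 : kn k * F s k * nm (a s k) ≤ (2 * Real.pi ^ 2 * ν) * (kn k ^ 2 * nm (a s k) ^ 2) +
          (1 / (8 * Real.pi ^ 2 * ν)) * F s k ^ 2 := by
        have h4 : (2 * Real.pi ^ 2 * ν) * (kn k ^ 2 * nm (a s k) ^ 2) +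
          (1 / (8 * Real.pi ^ 2 * ν)) * F s k ^ 2 - kn k * F s k * nm (a s k) =
          (1 / (8 * Real.pi ^ 2 * ν)) * (4 * Real.pi ^ 2 * ν * (kn k * nm (a s k)) - F s k) ^ 2 := by
          field_simp
          ring
        have h5 : 0 ≤ (1 / (8 * Real.pi ^ 2 * ν)) *
            (4 * Real.pi ^ 2 * ν * (kn k * nm (a s k)) - F s k) ^ 2 := by positivity
        linarith
      exact h1.trans (h2.trans h3)
    rw [intervalIntegral.integral_neg, intervalIntegral.integral_add (hI1.const_mul _)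
      (hFk.const_mul _)] at hle
    simp only [intervalIntegral.integral_const_mul] at hle hen ⊢
    have hn : 0 ≤ nm (a T k) ^ 2 := by positivity
    rw [one_div (2 * Real.pi ^ 2 * ν), ← div_eq_inv_mul, le_div_iff₀ (by positivity)]
    nlinarith

end Pool.Agent.H303.DEE.F
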