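import Pool.Agent.H303.DEE.Stm8
import Pool.Agent.H303.DEE.FP5
import Pool.Agent.H303.DEE.FH4

/-!
Project DEE-K (helper303), part K3b: the nonlinear term for fields in `L⁴`.
-/

set_option autoImplicit false

open MeasureTheory Set Filter Topology Complex
open scoped ContDiff ENNReal

namespace Pool.Agent.H303.DEE.F

namespace K3bL

open TP5

theorem ab4 (a b : ℝ) : (a * b) ^ 2 ≤ |a| ^ 4 + |b| ^ 4 := by
  have h1 : |a| ^ 4 = a ^ 4 := Even.pow_abs (by decide) a
  have h2 : |b| ^ 4 = b ^ 4 := Even.pow_abs (by decide) b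
  rw [h1, h2]
  nlinarith [sq_nonneg (a ^ 2 - b ^ 2), sq_nonneg (a ^ 2), sq_nonneg (b ^ 2)]

theorem sq_prod {T : ℝ} {v : ℝ → V → V} (hm : Measurable fun z : ℝ × V => v z.1 z.2)
    (h4 : InL4 T v) (i j : Fin 3) :
    Integrable (fun z : ℝ × V => (v z.1 z.2 j * v z.1 z.2 i) ^ 2) ((mT T).prod mQ) := by
  have hmu : (mT T).prod mQ = volume.restrict (Icc 0 T ×ˢ Q) := by
    rw [Measure.prod_restrict]
    rfl
  have h : ∀ i, Integrable (fun z : ℝ × V => ‖v z.1 z.2 i‖ ^ 4) ((mT T).prod mQ) := by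
    intro i
    rw [hmu]
    exact MemLp.integrable_norm_pow (p := 4) (by exact_mod_cast h4 i) (by norm_num)
  refine Integrable.mono' ((h j).add (h i)) ?_ (Eventually.of_forall fun z => ?_)
  · exact (((meas_ui hm j).mul (meas_ui hm i)).pow_const 2).aestronglyMeasurable
  · simp only [Pi.add_apply, Real.norm_eq_abs]
    rw [abs_of_nonneg (sq_nonneg _)]
    exact ab4 _ _

theorem pair (h1 : P1) {T : ℝ} (hT : 0 ≤ T) {v : ℝ → V → V}
    (hm : Measurable fun z : ℝ × V => v z.1 z.2) (h4 : InL4 T v) (i j : Fin 3) :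
    (∀ k, IntegrableOn (fun s => ‖cf (fun x => v s x j * v s x i) k‖ ^ 2) (Icc 0 T)) ∧
    Summable fun k => ∫ s in (0 : ℝ)..T, ‖cf (fun x => v s x j * v s x i) k‖ ^ 2 := by
  have := fin_mT T
  have := fin_mQ
  have hw := sq_prod hm h4 i j
  have hF : Integrable (fun z : ℝ × V => v z.1 z.2 j * v z.1 z.2 i) ((mT T).prod mQ) := by
    refine Integrable.mono' (hw.add (integrable_const (1 : ℝ)))
      ((meas_ui hm j).mul (meas_ui hm i)).aestronglyMeasurable (Eventually.of_forall fun z => ?_)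
    simp only [Pi.add_apply, Real.norm_eq_abs]
    rw [abs_le]
    constructor <;> nlinarith [sq_nonneg (v z.1 z.2 j * v z.1 z.2 i + 1),
      sq_nonneg (v z.1 z.2 j * v z.1 z.2 i - 1), sq_nonneg (v z.1 z.2 j * v z.1 z.2 i)]
  have hc : ∀ k, AEStronglyMeasurable (fun s => cf (fun x => v s x j * v s x i) k) (mT T) :=
    fun k => (cf_int (fun z : ℝ × V => v z.1 z.2 j * v z.1 z.2 i) hF k).1
  have hG : Integrable (fun s => ∫ x in Q, (v s x j * v s x i) ^ 2) (mT T) :=
    hw.integral_prod_left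
  have hae : ∀ᵐ s ∂(mT T), HasSum (fun k => ‖cf (fun x => v s x j * v s x i) k‖ ^ 2)
      (∫ x in Q, (v s x j * v s x i) ^ 2) := by
    filter_upwards [hw.prod_right_ae] with s hs
    have hms : Measurable fun x : V => v s x j * v s x i :=
      ((meas_ui hm j).mul (meas_ui hm i)).comp measurable_prodMk_left
    exact h1 _ ((memLp_two_iff_integrable_sq hms.aestronglyMeasurable).2 hs)
  have hle : ∀ S : Finset K, ∀ᵐ s ∂(mT T),
      ∑ k ∈ S, ‖cf (fun x => v s x j * v s x i) k‖ ^ 2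
        ≤ ∫ x in Q, (v s x j * v s x i) ^ 2 := by
    intro S
    filter_upwards [hae] with s hs
    exact sum_le_hasSum S (fun _ _ => sq_nonneg _) hs
  have hint : ∀ k, IntegrableOn (fun s => ‖cf (fun x => v s x j * v s x i) k‖ ^ 2)
      (Icc 0 T) := by
    intro k
    refine Integrable.mono' hG ((hc k).norm.pow 2) ?_
    filter_upwards [hle {k}] with s hs
    rw [Finset.sum_singleton] at hs
    rw [Real.norm_of_nonneg (sq_nonneg _)]
    exact hs
  have e : ∀ f : ℝ → ℝ, ∫ s in (0 : ℝ)..T, f s = ∫ s in Icc 0 T, f s := fun f => by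
    rw [intervalIntegral.integral_of_le hT, integral_Icc_eq_integral_Ioc]
  refine ⟨hint, summable_of_sum_le (c := ∫ s in Icc 0 T, ∫ x in Q, (v s x j * v s x i) ^ 2)
    (fun k => intervalIntegral.integral_nonneg hT fun s _ => sq_nonneg _) fun S => ?_⟩
  simp only [e]
  rw [← integral_finsetSum S fun k _ => hint k]
  exact integral_mono_ae (integrable_finsetSum S fun k _ => hint k) hG (hle S)

theorem Bn_cf (h2 : P2) (k : K) (u : V → V) (hu : ∀ i, MemLp (fun x => u x i) 2 mQ)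
    (l : Fin 3) :
    Bn (U u) k l = 2 * Real.pi * I * dt k (fun j => cf (fun x => u x j * u x l) k) := by
  rw [Bn_eq h2 k u hu l]
  congr 1
  unfold dt
  have h : (fun x => ku k u x * u x l) = fun x => ∑ j, (k j : ℝ) * (u x j * u x l) := by
    funext x
    unfold ku
    rw [Finset.sum_mul]
    exact Finset.sum_congr rfl fun j _ => by ring
  have hi : ∀ j ∈ (Finset.univ : Finset (Fin 3)),
      Integrable (fun x => (k j : ℝ) * (u x j * u x l)) mQ := fun j _ =>
    ((hu j).integrable_mul (hu l)).const_mul _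
  rw [h, cf_sum Finset.univ (fun (j : Fin 3) (x : V) => (k j : ℝ) * (u x j * u x l)) hi k]
  refine Finset.sum_congr rfl fun j _ => ?_
  rw [cf_mul]
  push_cast
  rfl

theorem bound (h2 : P2) (k : K) (u : V → V) (hu : ∀ i, MemLp (fun x => u x i) 2 mQ) :
    nm (Nl (U u) k) ≤ kn k * (4 * Real.pi *
      √(∑ i, ∑ j, ‖cf (fun x => u x j * u x i) k‖ ^ 2)) := by
  have h1 := FH4.nm_Pr_le k (Bn (U u) k)
  have hk := FH4.kn_nonneg k
  have hpi := Real.pi_pos
  have hS : 0 ≤ ∑ i, ∑ j, ‖cf (fun x => u x j * u x i) k‖ ^ 2 :=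
    Finset.sum_nonneg fun i _ => Finset.sum_nonneg fun j _ => sq_nonneg _
  have h3 : nm (Bn (U u) k) ≤ 2 * Real.pi * kn k *
      √(∑ i, ∑ j, ‖cf (fun x => u x j * u x i) k‖ ^ 2) := by
    unfold nm
    refine Real.sqrt_le_iff.2 ⟨by positivity, ?_⟩
    rw [mul_pow, Real.sq_sqrt hS, Finset.mul_sum]
    refine Finset.sum_le_sum fun i _ => ?_
    have h5 := FH4.norm_dt_le k (fun j => cf (fun x => u x j * u x i) k)
    have h6 : nm (fun j => cf (fun x => u x j * u x i) k) ^ 2
        = ∑ j, ‖cf (fun x => u x j * u x i) k‖ ^ 2 :=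
      Real.sq_sqrt (Finset.sum_nonneg fun _ _ => sq_nonneg _)
    have h7 : ‖(2 * Real.pi * I : ℂ)‖ = 2 * Real.pi := by
      simp [abs_of_nonneg Real.pi_nonneg]
    rw [Bn_cf h2 k u hu i, norm_mul, h7, mul_pow, ← h6]
    have h8 := pow_le_pow_left₀ (norm_nonneg _) h5 2
    calc (2 * Real.pi) ^ 2 * ‖dt k (fun j => cf (fun x => u x j * u x i) k)‖ ^ 2
        ≤ (2 * Real.pi) ^ 2 * (kn k * nm (fun j => cf (fun x => u x j * u x i) k)) ^ 2 :=
          mul_le_mul_of_nonneg_left h8 (sq_nonneg _)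
      _ = _ := by ring
  calc nm (Nl (U u) k) ≤ 2 * nm (Bn (U u) k) := h1
    _ ≤ 2 * (2 * Real.pi * kn k * √(∑ i, ∑ j, ‖cf (fun x => u x j * u x i) k‖ ^ 2)) := by
        linarith
    _ = _ := by ring

end K3bL

open K3bL TP5 in
theorem k3b (h1 : P1) (h2 : P2) : K3b := by
  intro T v hT hm hl2 h4
  have e : ∀ (s : ℝ) (k : K), (4 * Real.pi *
      √(∑ i, ∑ j, ‖cf (fun x => v s x j * v s x i) k‖ ^ 2)) ^ 2
      = ∑ i, ∑ j, (4 * Real.pi) ^ 2 * ‖cf (fun x => v s x j * v s x i) k‖ ^ 2 := by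
    intro s k
    rw [mul_pow, Real.sq_sqrt (Finset.sum_nonneg fun i _ => Finset.sum_nonneg fun j _ =>
      sq_nonneg _), Finset.mul_sum]
    exact Finset.sum_congr rfl fun i _ => Finset.mul_sum _ _ _
  refine ⟨fun s k => 4 * Real.pi *
    √(∑ i, ∑ j, ‖cf (fun x => v s x j * v s x i) k‖ ^ 2), ?_, ?_, ?_⟩
  · intro k
    refine ae_restrict_of_forall_mem measurableSet_Icc fun s hs => ⟨?_, ?_⟩
    · have := Real.pi_pos
      positivity
    · exact bound h2 k (v s) (hl2 s hs)
  · intro k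
    simp only [e]
    exact integrable_finsetSum _ fun i _ => integrable_finsetSum _ fun j _ =>
      ((pair h1 hT hm h4 i j).1 k).const_mul _
  · have e2 : ∀ k : K, ∫ s in (0 : ℝ)..T, (4 * Real.pi *
        √(∑ i, ∑ j, ‖cf (fun x => v s x j * v s x i) k‖ ^ 2)) ^ 2
        = ∑ i, ∑ j, (4 * Real.pi) ^ 2 *
          ∫ s in (0 : ℝ)..T, ‖cf (fun x => v s x j * v s x i) k‖ ^ 2 := by
      intro k
      simp only [e]
      have hi : ∀ i j : Fin 3, IntervalIntegrable (fun s => (4 * Real.pi) ^ 2 *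
          ‖cf (fun x => v s x j * v s x i) k‖ ^ 2) volume 0 T := fun i j =>
        ((intervalIntegrable_iff_integrableOn_Icc_of_le hT).2
          ((pair h1 hT hm h4 i j).1 k)).const_mul _
      have hi2 : ∀ i : Fin 3, IntervalIntegrable (fun s => ∑ j, (4 * Real.pi) ^ 2 *
          ‖cf (fun x => v s x j * v s x i) k‖ ^ 2) volume 0 T := fun i =>
        (intervalIntegrable_iff_integrableOn_Icc_of_le hT).2
          (integrable_finsetSum _ fun j _ =>
            (intervalIntegrable_iff_integrableOn_Icc_of_le hT).1 (hi i j))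
      rw [intervalIntegral.integral_finsetSum fun i _ => hi2 i]
      refine Finset.sum_congr rfl fun i _ => ?_
      rw [intervalIntegral.integral_finsetSum fun j _ => hi i j]
      exact Finset.sum_congr rfl fun j _ => intervalIntegral.integral_const_mul _ _
    simp only [e2]
    exact summable_sum fun i _ => summable_sum fun j _ =>
      ((pair h1 hT hm h4 i j).2).mul_left _

end Pool.Agent.H303.DEE.F
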