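import Pool.Agent.H303.DEE.Stm8
import Pool.Agent.H303.DEE.FP7
import Pool.Agent.H303.DEE.J13

/-!
DEK-K45 (helper412 for helper303): the coefficients of a weak solution, uniqueness.
-/

set_option autoImplicit false

open MeasureTheory Set Filter Topology Complex
open scoped ContDiff ENNReal

namespace Pool.Agent.H303.DEE.F

namespace H412K45

open H684P7

/-- the coefficients of the values are bounded in `ℓ²` -/
theorem bdd_cfs (h1 : P1) (k1a : K1a) {n : ℕ} {ν : ℝ} {α : Fin 3 → ℝ} {T : ℝ} {v : ℝ → V → V}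
    (hv : IsWeakC n ν α T v) :
    ∃ E : ℝ, ∀ t ∈ Icc 0 T, Summable (fun k => nm (cfs v t k) ^ 2) ∧ ∑' k, nm (cfs v t k) ^ 2 ≤ E := by
  obtain ⟨E, hE⟩ := k1a n ν α T v hv
  refine ⟨E, fun t ht => ?_⟩
  have hs : HasSum (fun k : K => nm (fun i => cf (fun x => v t x i) k) ^ 2)
      (∑ i : Fin 3, ∫ x in Q, (v t x i) ^ 2) := by
    have h := hasSum_sum (s := (Finset.univ : Finset (Fin 3)))
      (f := fun (i : Fin 3) (k : K) => ‖cf (fun x => v t x i) k‖ ^ 2)
      (a := fun i => ∫ x in Q, (v t x i) ^ 2) fun i _ => h1 _ (hv.l2 t ht i)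
    refine h.congr_fun ?_
    intro k
    exact (nm_sq _)
  have hint : ∫ x in Q, ∑ i : Fin 3, (v t x i) ^ 2 = ∑ i : Fin 3, ∫ x in Q, (v t x i) ^ 2 := by
    rw [integral_finsetSum]
    intro i _
    exact (hv.l2 t ht i).integrable_sq
  refine ⟨hs.summable, ?_⟩
  have h7 : ∑' k : K, nm (fun i => cf (fun x => v t x i) k) ^ 2 =
      ∫ x in Q, ∑ i : Fin 3, (v t x i) ^ 2 := by
    rw [hs.tsum_eq, hint]
  change ∑' k : K, nm (fun i => cf (fun x => v t x i) k) ^ 2 ≤ _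
  rw [h7]
  exact hE t ht

end H412K45

open H412K45 H684P7 in
theorem k4 (h1 : P1) (h4 : P4) (k1a : K1a) (k1 : K1) (k2 : K2) (k3a : K3a) (k3b : K3b) : K4 := by
  intro n ν α T v hν hn hT hv hL
  obtain ⟨hN, hcont, hode⟩ := k2 n ν α T v hn hT hv (k1 n ν α T v hv)
  obtain ⟨F, hF1, hF2, hF3⟩ := k3b T v hT hv.meas hv.l2 hL
  have hb := bdd_cfs h1 k1a hv
  have hd := k3a (gg n α) ν T (cfs v) F hν hT hb hcont hN hode hF1 hF2 hF3
  exact ⟨fun t _ k i => cf_neg (fun x => v t x i) k,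
    fun t ht k => h4 (v t) (fun i => hv.l2 t ht i) (hv.divfree t ht) k, hb, hcont, hd, hN, hode⟩

open J13x in
theorem k5 (j12 : J12) (p1 : P1) (h4 : K4) : K5 := by
  intro n ν α C hν hn hC hFew T v v' hv hv' hL hL' h0 t ht
  have hT : 0 ≤ T := ht.1.trans ht.2
  have hF := h4 n ν α T v hν hn hT hv hL
  have hF' := h4 n ν α T v' hν hn hT hv' hL'
  have h5 : cfs v' 0 = cfs v 0 := by
    funext k i
    show cf (fun x => v' 0 x i) k = cf (fun x => v 0 x i) k
    unfold cf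
    refine integral_congr_ae ?_
    filter_upwards [h0] with x hx
    rw [hx]
  have h6 := j12 (gg n α) ν T C (cfs v') (cfs v) hν (gg_neg n hn α) hC hFew hF' hF h5 t ht
  exact eq_of_cf p1 (hv'.l2 t ht) (hv.l2 t ht) fun i k => congrFun (congrFun h6 k) i

end Pool.Agent.H303.DEE.F
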