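import Pool.Agent.H303.DEE.Stm9

/-! K6 (written by helper799): interpolation between `L^∞ L²` and `L^p L^q`. -/

open MeasureTheory Set Filter Topology Complex
open scoped ENNReal

namespace Pool.Agent.H303.DEE.F

namespace K6L

theorem pw (y : ℝ≥0∞) (q : ℝ) (hq : 4 ≤ q) :
    y ^ (4 : ℝ) = (y ^ (2 : ℝ)) ^ ((q - 4) / (q - 2)) * (y ^ q) ^ (2 / (q - 2)) := by
  have h2 : 0 < q - 2 := by linarith
  rw [← ENNReal.rpow_mul, ← ENNReal.rpow_mul, ← ENNReal.rpow_add_of_nonneg]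
  · congr 1
    field_simp
    ring
  · exact mul_nonneg (by norm_num) (div_nonneg (by linarith) h2.le)
  · exact mul_nonneg (by linarith) (div_nonneg (by norm_num) h2.le)

theorem le_one_add (y : ℝ≥0∞) (b c : ℝ) (hb : 0 ≤ b) (hbc : b ≤ c) : y ^ b ≤ 1 + y ^ c := by
  rcases le_total y 1 with h | h
  · exact (ENNReal.rpow_le_one h hb).trans le_self_add
  · exact (ENNReal.rpow_le_rpow_of_exponent_le h hbc).trans le_add_self

theorem exps (p q : ℝ) (hq : 4 ≤ q) (hp : 2 < p) (hpq : 2 / p + 2 / q ≤ 1) : 2 / (q - 2) ≤ p / q := by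
  have h2 : 0 < q - 2 := by linarith
  have hp0 : 0 < p := by linarith
  have hq0 : 0 < q := by linarith
  rw [div_add_div _ _ hp0.ne' hq0.ne', div_le_one (by positivity)] at hpq
  rw [div_le_div_iff₀ h2 hq0]
  linarith

theorem sq_bound (E : ℝ) (f : V → V) (hf : ∀ i, MemLp (fun x => f x i) 2 (volume.restrict Q))
    (hE : ∫ x in Q, ∑ i, f x i ^ 2 ≤ E) (i : Fin 3) :
    ∫⁻ x in Q, ‖f x i‖ₑ ^ (2 : ℝ) ≤ ENNReal.ofReal E := by
  have hint : ∀ i, Integrable (fun x => f x i ^ 2) (volume.restrict Q) := fun i => (hf i).integrable_sq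
  have e1 : ∀ x, ‖f x i‖ₑ ^ (2 : ℝ) = ENNReal.ofReal (f x i ^ 2) := by
    intro x
    rw [← ofReal_norm, ENNReal.ofReal_rpow_of_nonneg (norm_nonneg _) (by norm_num)]
    congr 1
    rw [Real.norm_eq_abs, Real.rpow_two, sq_abs]
  simp only [e1]
  rw [← ofReal_integral_eq_lintegral_ofReal (hint i) (ae_of_all _ fun x => sq_nonneg _)]
  refine ENNReal.ofReal_le_ofReal (le_trans ?_ hE)
  refine integral_mono (hint i) (integrable_finsetSum _ fun j _ => hint j) fun x => ?_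
  exact Finset.single_le_sum (f := fun j => f x j ^ 2) (fun j _ => sq_nonneg _) (Finset.mem_univ i)

end K6L

open K6L in
theorem k6 : K6 := by
  intro p q T E v hq hp hpq hm hL2 hE hv i
  have h2 : 0 < q - 2 := by linarith
  have hmi : Measurable (fun z : ℝ × V => v z.1 z.2 i) := (measurable_pi_apply i).comp hm
  have hmF : Measurable (fun z : ℝ × V => ‖v z.1 z.2 i‖ₑ) := hmi.enorm
  refine ⟨hmi.aestronglyMeasurable, ?_⟩
  rw [eLpNorm_lt_top_iff_lintegral_rpow_enorm_lt_top (by norm_num) (by norm_num)]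
  have e4 : (4 : ℝ≥0∞).toReal = 4 := by norm_num
  rw [e4, Measure.volume_eq_prod, ← Measure.prod_restrict,
    lintegral_prod _ (hmF.pow_const (4 : ℝ)).aemeasurable]
  set a : ℝ := (q - 4) / (q - 2) with ha
  set b : ℝ := 2 / (q - 2) with hb
  have ha0 : 0 ≤ a := div_nonneg (by linarith) h2.le
  have hb0 : 0 ≤ b := div_nonneg (by norm_num) h2.le
  have hab : a + b = 1 := by
    rw [ha, hb]
    field_simp
    ring
  have hMtop : ENNReal.ofReal E ^ a ≠ ∞ := (ENNReal.rpow_lt_top_of_nonneg ha0 ENNReal.ofReal_ne_top).ne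
  have hpt : ∀ t ∈ Icc 0 T, ∫⁻ x in Q, ‖v t x i‖ₑ ^ (4 : ℝ) ≤
      ENNReal.ofReal E ^ a * (1 + (∫⁻ x in Q, ‖v t x i‖ₑ ^ q) ^ (p / q)) := by
    intro t ht
    have hmt : Measurable (fun x : V => ‖v t x i‖ₑ) := hmF.comp (measurable_const.prodMk measurable_id)
    calc ∫⁻ x in Q, ‖v t x i‖ₑ ^ (4 : ℝ)
        = ∫⁻ x in Q, (‖v t x i‖ₑ ^ (2 : ℝ)) ^ a * (‖v t x i‖ₑ ^ q) ^ b :=
          lintegral_congr fun x => pw _ q hq
      _ ≤ (∫⁻ x in Q, ‖v t x i‖ₑ ^ (2 : ℝ)) ^ a * (∫⁻ x in Q, ‖v t x i‖ₑ ^ q) ^ b :=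
          ENNReal.lintegral_mul_norm_pow_le (hmt.pow_const _).aemeasurable
            (hmt.pow_const _).aemeasurable ha0 hb0 hab
      _ ≤ ENNReal.ofReal E ^ a * (1 + (∫⁻ x in Q, ‖v t x i‖ₑ ^ q) ^ (p / q)) :=
          mul_le_mul' (ENNReal.rpow_le_rpow (sq_bound E (v t) (hL2 t ht) (hE t ht) i) ha0)
            (le_one_add _ b (p / q) hb0 (exps p q hq hp hpq))
  refine lt_of_le_of_lt (setLIntegral_mono' measurableSet_Icc hpt) ?_
  rw [lintegral_const_mul' _ _ hMtop, lintegral_add_left measurable_const]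
  refine ENNReal.mul_lt_top hMtop.lt_top (ENNReal.add_lt_top.mpr ⟨?_, hv i⟩)
  rw [lintegral_const, one_mul, Measure.restrict_apply_univ, Real.volume_Icc]
  exact ENNReal.ofReal_lt_top

end Pool.Agent.H303.DEE.F
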