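import Pool.Agent.H303.DEE.Stm
import Pool.Graph.R_seed8.H459R3.NS.Evo

/-!
The energy equality of smooth solutions (`A4`).
-/

set_option autoImplicit false

open MeasureTheory Set Filter Topology
open scoped ContDiff

namespace Pool.Agent.H303.DEE

namespace T4

open H459R3.NS (SP Per pd cube lap conv)

lemma partialD_zero (j : Fin 3) (f : V → ℝ) : partialD 0 j f = f := by
  funext x
  unfold partialD
  rw [iteratedFDeriv_zero_apply]

lemma partialD_succ (n : ℕ) (j : Fin 3) {f : V → ℝ} (hf : ContDiff ℝ ∞ f) :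
    partialD (n + 1) j f = pd j (partialD n j f) := by
  funext x
  unfold partialD
  rw [iteratedFDeriv_succ_apply_left]
  unfold pd
  have hd : DifferentiableAt ℝ (iteratedFDeriv ℝ n f) x :=
    (hf.differentiable_iteratedFDeriv (by exact_mod_cast WithTop.coe_lt_top n)) x
  have h1 : HasFDerivAt (fun y => iteratedFDeriv ℝ n f y
      (fun _ => Pi.single j (1 : ℝ)))
      ((ContinuousMultilinearMap.apply ℝ (fun _ : Fin n => V) ℝ
        (fun _ => Pi.single j (1 : ℝ))).comp
          (fderiv ℝ (iteratedFDeriv ℝ n f) x)) x :=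
    (ContinuousMultilinearMap.apply ℝ (fun _ : Fin n => V) ℝ
        (fun _ => Pi.single j (1 : ℝ))).hasFDerivAt.comp x hd.hasFDerivAt
  rw [h1.fderiv]
  rfl

lemma partialD_iter (n : ℕ) (j : Fin 3) {f : V → ℝ} (hf : ContDiff ℝ ∞ f) :
    partialD n j f = (pd j)^[n] f := by
  induction n with
  | zero => exact partialD_zero j f
  | succ n ih => rw [partialD_succ n j hf, ih, Function.iterate_succ_apply']

lemma ibpn {f : V → ℝ} (hf : SP f) (j : Fin 3) (m : ℕ) : ∀ {g : V → ℝ}, SP g →
    ∫ x in cube, (pd j)^[m] f x * g x = (-1) ^ m * ∫ x in cube, f x * (pd j)^[m] g x := by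
  induction m with
  | zero => intro g _; simp
  | succ m ih =>
    intro g hg
    rw [Function.iterate_succ_apply', Function.iterate_succ_apply,
      H459R3.NS.ibp (hf.iter j m) hg j, ih (hg.pd j)]
    ring

lemma odd0 {f : V → ℝ} (hf : SP f) (j : Fin 3) {n : ℕ} (hn : Odd n) :
    ∫ x in cube, f x * (pd j)^[n] f x = 0 := by
  have h1 := ibpn hf j n hf
  rw [hn.neg_one_pow] at h1
  have h2 : ∫ x in cube, (pd j)^[n] f x * f x = ∫ x in cube, f x * (pd j)^[n] f x := by
    congr 1
    funext x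
    ring
  rw [h2] at h1
  linarith

/-- the identity in space -/
lemma space {n : ℕ} (hn : Odd n) (ν : ℝ) (α : Fin 3 → ℝ) {w : Fin 3 → V → ℝ}
    (hw : ∀ i, SP (w i)) (hdiv : ∀ x, ∑ i, pd i (w i) x = 0) {q : V → ℝ} (hq : SP q)
    {d : Fin 3 → V → ℝ} (hd : ∀ x i, d i x + conv w i x =
      ν * lap (w i) x + ∑ j, α j * (pd j)^[n] (w i) x - pd i q x) :
    ∑ i, ∫ x in cube, w i x * d i x = -(ν * ∑ i, ∑ j, ∫ x in cube, pd j (w i) x ^ 2) := by
  have e : ∀ i, ∫ x in cube, w i x * d i x = ν * (∫ x in cube, lap (w i) x * w i x) +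
      (∑ j, α j * ∫ x in cube, w i x * (pd j)^[n] (w i) x) - (∫ x in cube, w i x * pd i q x) -
      ∫ x in cube, w i x * conv w i x := by
    intro i
    have e1 : ∀ x, w i x * d i x = ν * (lap (w i) x * w i x) +
        (∑ j, α j * (w i x * (pd j)^[n] (w i) x)) - w i x * pd i q x - w i x * conv w i x := by
      intro x
      have h1 : d i x = ν * lap (w i) x + ∑ j, α j * (pd j)^[n] (w i) x - pd i q x -
          conv w i x := by
        linarith [hd x i]
      have h2 : ∑ j, α j * (w i x * (pd j)^[n] (w i) x) =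
          w i x * ∑ j, α j * (pd j)^[n] (w i) x := by
        rw [Finset.mul_sum]
        exact Finset.sum_congr rfl fun j _ => by ring
      rw [h1, h2]
      ring
    have i1 : IntegrableOn (fun x => ν * (lap (w i) x * w i x)) cube :=
      ((hw i).lap.mul (hw i)).int.const_mul ν
    have i2' : ∀ j : Fin 3, IntegrableOn (fun x => α j * (w i x * (pd j)^[n] (w i) x)) cube :=
      fun j => ((hw i).mul ((hw i).iter j n)).int.const_mul (α j)
    have i2 : IntegrableOn (fun x => ∑ j, α j * (w i x * (pd j)^[n] (w i) x)) cube :=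
      integrable_finsetSum _ fun j _ => i2' j
    have i3 : IntegrableOn (fun x => w i x * pd i q x) cube := ((hw i).mul (hq.pd i)).int
    have i4 : IntegrableOn (fun x => w i x * conv w i x) cube :=
      ((hw i).mul (H459R3.NS.sp_conv hw i)).int
    simp_rw [e1]
    have h3 := integral_sub (μ := volume.restrict cube) ((i1.add i2).sub i3) i4
    have h4 := integral_sub (μ := volume.restrict cube) (i1.add i2) i3
    have h5 := integral_add (μ := volume.restrict cube) i1 i2
    simp only [Pi.add_apply, Pi.sub_apply] at h3 h4 h5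
    rw [h3, h4, h5, integral_const_mul, integral_finsetSum _ fun j _ => i2' j]
    simp_rw [integral_const_mul]
  simp_rw [e]
  rw [Finset.sum_sub_distrib, Finset.sum_sub_distrib, Finset.sum_add_distrib,
    H459R3.NS.int_press hw hdiv hq, H459R3.NS.int_conv hw hdiv, ← Finset.mul_sum]
  simp_rw [odd0 (hw _) _ hn, H459R3.NS.int_lap_mul (hw _) (hw _)]
  rw [Finset.sum_neg_distrib]
  simp only [mul_zero, Finset.sum_const_zero, sq]
  ring

end T4

open T4 in
/-- the energy equality of smooth solutions -/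
theorem t4 (h0 : A0) : A4 := by
  intro n ν α v p hn hs t ht
  obtain ⟨hc, hg, -⟩ := h0 v hs.smooth_u
  obtain ⟨T, hT⟩ : ∃ T, T = t + 1 := ⟨_, rfl⟩
  have hsub : Ico 0 T ×ˢ (univ : Set V) ⊆ Ici 0 ×ˢ univ :=
    prod_mono (fun s hs => hs.1) subset_rfl
  have hv : ∀ i, ContDiffOn ℝ ∞ (fun z : ℝ × V => v z.1 z.2 i) (Ico 0 T ×ˢ univ) := fun i =>
    (contDiffOn_pi.1 (hs.smooth_u.mono hsub)) i
  have hci : ∀ s, 0 ≤ s → ∀ i, ContDiff ℝ ∞ (fun y => v s y i) := fun s hs0 i =>
    (contDiff_pi.1 (hc s hs0)) i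
  have hgr : ∀ s, 0 ≤ s → ∀ x i j, grd v s x i j = H459R3.NS.pd j (fun y => v s y i) x := by
    intro s hs0 x i j
    unfold grd
    rw [partialD_iter 1 j (hci s hs0 i)]
    rfl
  have hcp : ∀ s, 0 ≤ s → ContDiff ℝ ∞ (p s) := by
    intro s hs0
    rw [← contDiffOn_univ]
    exact hs.smooth_p.comp (contDiff_const.prodMk contDiff_id).contDiffOn
      (fun x _ => ⟨hs0, mem_univ _⟩)
  -- the energy
  have hE : ContDiffOn ℝ ∞ (fun z : ℝ × V => ∑ i, v z.1 z.2 i ^ 2) (Ico 0 T ×ˢ univ) :=
    ContDiffOn.sum fun i _ => (hv i).pow 2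
  have hEc : ContinuousOn (fun s => ∫ x in H459R3.NS.cube, ∑ i, v s x i ^ 2) (Ico 0 T) :=
    H459R3.NS.continuousOn_int (F := fun s x => ∑ i, v s x i ^ 2) hE.continuousOn
  have hGc : ContinuousOn (fun s => ∫ x in H459R3.NS.cube, ∑ i, ∑ j, grd v s x i j ^ 2)
      (Ico 0 T) := by
    refine H459R3.NS.continuousOn_int (F := fun s x => ∑ i, ∑ j, grd v s x i j ^ 2) ?_
    exact continuousOn_finsetSum _ fun i _ => continuousOn_finsetSum _ fun j _ =>
      ((hg i j).mono hsub).pow 2
  have hder : ∀ s ∈ Ioo 0 t, HasDerivAt (fun s => ∫ x in H459R3.NS.cube, ∑ i, v s x i ^ 2)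
      (-2 * ν * ∫ x in H459R3.NS.cube, ∑ i, ∑ j, grd v s x i j ^ 2) s := by
    intro s hst
    have hsT : s ∈ Ioo 0 T := ⟨hst.1, by rw [hT]; linarith [hst.2]⟩
    have h1 := H459R3.NS.hasDerivAt_int (F := fun s x => ∑ i, v s x i ^ 2)
      ((hE.of_le (by norm_cast)).mono (prod_mono Ioo_subset_Ico_self subset_rfl)) hsT
    refine h1.congr_deriv ?_
    have hs0 : 0 ≤ s := hst.1.le
    have hw : ∀ i, H459R3.NS.SP (fun y => v s y i) := fun i =>
      ⟨hci s hs0 i, fun j x => congrFun (hs.per_u s hs0 j x) i⟩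
    have hdiv : ∀ x, ∑ i, H459R3.NS.pd i (fun y => v s y i) x = 0 := by
      intro x
      rw [← hs.divfree s hs0 x]
      refine Finset.sum_congr rfl fun i _ => ?_
      exact (hgr s hs0 x i i).symm
    have hq : H459R3.NS.SP (p s) := ⟨hcp s hs0, hs.per_p s hs0⟩
    have hslice : ∀ x i, HasDerivAt (fun r => v r x i) (deriv (fun r => v r x i) s) s := by
      intro x i
      have h2 := H459R3.NS.hasDerivAt_slice (F := fun s x => v s x i)
        (((hv i).of_le (by norm_cast)).mono (prod_mono Ioo_subset_Ico_self subset_rfl)) hsT x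
      exact h2.differentiableAt.hasDerivAt
    have hd : ∀ x i, deriv (fun r => v r x i) s +
        H459R3.NS.conv (fun i y => v s y i) i x = ν * H459R3.NS.lap (fun y => v s y i) x +
        ∑ j, α j * (H459R3.NS.pd j)^[n] (fun y => v s y i) x - H459R3.NS.pd i (p s) x := by
      intro x i
      have h2 := hs.momentum s hs0 hst.1 x i
      simp only [partialD_iter _ _ (hci s hs0 i), partialD_iter _ _ (hcp s hs0)] at h2
      exact h2
    have h3 := space hn ν α hw hdiv hq (d := fun i x => deriv (fun r => v r x i) s) hd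
    have h4 : ∀ x, deriv (fun r => ∑ i, v r x i ^ 2) s =
        ∑ i, 2 * (v s x i * deriv (fun r => v r x i) s) := by
      intro x
      have h5 : HasDerivAt (fun r => ∑ i, v r x i ^ 2)
          (∑ i, 2 * (v s x i * deriv (fun r => v r x i) s)) s := by
        refine HasDerivAt.fun_sum fun i _ => ?_
        refine ((hslice x i).pow 2).congr_deriv ?_
        norm_num
        ring
      exact h5.deriv
    simp_rw [h4]
    have i1 : ∀ i : Fin 3, IntegrableOn (fun x => 2 * (v s x i * deriv (fun r => v r x i) s))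
        H459R3.NS.cube := by
      intro i
      have h5 : ContDiff ℝ ∞ (fun x => deriv (fun r => v r x i) s) :=
        H459R3.NS.contDiff_dt (hv i) hsT
      exact (H459R3.NS.integrableOn_cube
        ((hci s hs0 i).continuous.mul h5.continuous)).const_mul 2
    have i2 : ∀ i j : Fin 3, IntegrableOn (fun x => grd v s x i j ^ 2) H459R3.NS.cube := by
      intro i j
      simp_rw [hgr s hs0]
      exact H459R3.NS.integrableOn_cube (((hw i).pd j).cont.pow 2)
    rw [integral_finsetSum _ fun i _ => i1 i,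
      integral_finsetSum _ fun i _ => integrable_finsetSum _ fun j _ => i2 i j]
    simp_rw [integral_const_mul]
    rw [← Finset.mul_sum, h3]
    have h6 : ∀ i, ∫ x in H459R3.NS.cube, ∑ j, grd v s x i j ^ 2 =
        ∑ j, ∫ x in H459R3.NS.cube, H459R3.NS.pd j (fun y => v s y i) x ^ 2 := by
      intro i
      rw [integral_finsetSum _ fun j _ => i2 i j]
      simp_rw [hgr s hs0]
    simp_rw [h6]
    ring
  have hIcc : Icc 0 t ⊆ Ico 0 T := fun s hs => ⟨hs.1, by rw [hT]; linarith [hs.2]⟩
  have hftc := intervalIntegral.integral_eq_sub_of_hasDerivAt_of_le ht (hEc.mono hIcc) hder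
    (by
      refine ContinuousOn.intervalIntegrable ?_
      rw [uIcc_of_le ht]
      exact continuousOn_const.mul (hGc.mono hIcc))
  rw [intervalIntegral.integral_const_mul] at hftc
  show (1 / 2) * (∫ x in H459R3.NS.cube, ∑ i, v t x i ^ 2) +
    ν * (∫ s in (0 : ℝ)..t, ∫ x in H459R3.NS.cube, ∑ i, ∑ j, grd v s x i j ^ 2)
      = (1 / 2) * ∫ x in H459R3.NS.cube, ∑ i, v 0 x i ^ 2
  linarith

end Pool.Agent.H303.DEE
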