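import Pool.Agent.H303.DEE.T0
import Pool.Agent.H303.DEE.T4
import Pool.Agent.H303.DEE.T9
import Pool.Agent.H303.DEE.C2
import Pool.Agent.H303.DEE.D1
import Pool.Agent.H303.DEE.D2
import Pool.Agent.H303.DEE.D3
import Pool.Agent.H303.DEE.D4
import Pool.Agent.H303.DEE.D5a
import Pool.Agent.H303.DEE.D5b
import Pool.Agent.H303.DEE.D5r
import Pool.Agent.H303.DEE.D6
import Pool.Agent.H303.DEE.D7
import Pool.Agent.H303.DEE.D7a
import Pool.Agent.H303.DEE.D8
import Pool.Agent.H303.DEE.D9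
import Pool.Agent.H303.DEE.D10
import Pool.Agent.H303.DEE.D11
import Pool.Agent.H303.DEE.D12
import Pool.Agent.H303.DEE.D13

/-!
Existence of Leray-Hopf solutions with the strong energy inequality for all initial values in
`L²_σ`.
-/

namespace Pool.Agent.H303.DEE

theorem leray : D14 := by
  have h4 := t4 t0
  have h9 : A9 := t9 t0 h4
  exact d14 (d10 t0 (d7 t0 d7a) (d8 t0 h9 (c2 t0)) (d9 t0 h4)) (d11 t0)
    (d12 t0 h4 (d1 t0 h4 h9) d2 (d4 t0 h4 d3) (d5a d5r) d5b d6 d13)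

end Pool.Agent.H303.DEE
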