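import Pool.Agent.H303.DEE.Stm6
import Pool.Graph.R_seed8.H459R3.NS.Ibp

/-!
Energy inequality for a larger initial value: adding a gradient to the initial value does not change
the weak formulation (subtask DER-R1, helper44).
-/

set_option autoImplicit false

open MeasureTheory Set Filter Topology
open scoped ContDiff ENNReal

namespace Pool.Agent.H303.DEE

namespace R1X

open H459R3.NS (SP Per pd cube)

/-! ### partial derivatives -/

theorem pD_zero (j : Fin 3) (f : V → ℝ) : partialD 0 j f = f := by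
  funext x
  unfold partialD
  rw [iteratedFDeriv_zero_apply]

theorem pD_succ {f : V → ℝ} (hf : ContDiff ℝ ∞ f) (n : ℕ) (j : Fin 3) :
    partialD (n + 1) j f = pd j (partialD n j f) := by
  funext x
  unfold partialD
  rw [iteratedFDeriv_succ_apply_left]
  unfold H459R3.NS.pd
  have hd : DifferentiableAt ℝ (iteratedFDeriv ℝ n f) x :=
    (hf.differentiable_iteratedFDeriv (by exact_mod_cast WithTop.coe_lt_top n)) x
  have h1 : HasFDerivAt (fun y => iteratedFDeriv ℝ n f y
      (fun _ => Pi.single j (1 : ℝ)))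
      ((ContinuousMultilinearMap.apply ℝ (fun _ : Fin n => V) ℝ
        (fun _ => Pi.single j (1 : ℝ))).comp
          (fderiv ℝ (iteratedFDeriv ℝ n f) x)) x :=
    (ContinuousMultilinearMap.apply ℝ (fun _ : Fin n => V) ℝ
        (fun _ => Pi.single j (1 : ℝ))).hasFDerivAt.comp x hd.hasFDerivAt
  rw [h1.fderiv]
  rfl

theorem pD_one {f : V → ℝ} (hf : ContDiff ℝ ∞ f) (j : Fin 3) : partialD 1 j f = pd j f := by
  rw [pD_succ hf, pD_zero]

/-! ### the gradient -/

noncomputable def q1 (x : V) : ℝ := -Real.cos (2 * Real.pi * x 0) / (2 * Real.pi)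

noncomputable def g1 (x : V) : ℝ := Real.sin (2 * Real.pi * x 0)

theorem g1_cont : Continuous g1 := by
  unfold g1
  fun_prop

theorem sp_q1 : SP q1 := by
  refine ⟨by unfold q1; fun_prop, fun j x => ?_⟩
  unfold q1
  by_cases hj : j = 0
  · subst hj
    have e : 2 * Real.pi * (x + Pi.single 0 1 : V) 0 = 2 * Real.pi * x 0 + 2 * Real.pi := by
      rw [Pi.add_apply, Pi.single_eq_same]
      ring
    rw [e, Real.cos_add_two_pi]
  · have e : (x + Pi.single j 1 : V) 0 = x 0 := by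
      rw [Pi.add_apply, Pi.single_eq_of_ne (Ne.symm hj), add_zero]
    rw [e]

theorem pd_q1 (i : Fin 3) (x : V) : pd i q1 x = g1 x * (Pi.single i (1 : ℝ) : V) 0 := by
  have hp : (2 * Real.pi) ≠ 0 := by positivity
  have h1 : HasDerivAt (fun s : ℝ => -Real.cos (2 * Real.pi * s) / (2 * Real.pi))
      (Real.sin (2 * Real.pi * x 0)) (x 0) := by
    have h2 : HasDerivAt (fun s : ℝ => 2 * Real.pi * s) (2 * Real.pi) (x 0) := by
      have := (hasDerivAt_id (x 0)).const_mul (2 * Real.pi)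
      rwa [mul_one] at this
    have h3 := (h2.cos.neg).div_const (2 * Real.pi)
    have e : -(-Real.sin (2 * Real.pi * x 0) * (2 * Real.pi)) / (2 * Real.pi) =
        Real.sin (2 * Real.pi * x 0) := by
      field_simp
      try ring
    rw [e] at h3
    exact h3
  have h4 : HasFDerivAt (fun y : V => y 0) (ContinuousLinearMap.proj (R := ℝ) 0 : V →L[ℝ] ℝ) x :=
    (ContinuousLinearMap.proj (R := ℝ) (φ := fun _ : Fin 3 => ℝ) 0).hasFDerivAt
  have h5 := h1.comp_hasFDerivAt x h4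
  have h6 : pd i q1 x = (Real.sin (2 * Real.pi * x 0) •
      (ContinuousLinearMap.proj (R := ℝ) 0 : V →L[ℝ] ℝ)) (Pi.single i 1) := by
    unfold H459R3.NS.pd
    rw [← h5.fderiv]
    rfl
  rw [h6]
  rfl

theorem g1_pos : 0 < ∫ x in Q, g1 x ^ 2 := by
  have hc : Continuous fun x : V => g1 x ^ 2 := g1_cont.pow 2
  have hcpt : IsCompact Q := isCompact_Icc
  have hi : IntegrableOn (fun x : V => g1 x ^ 2) Q := hc.continuousOn.integrableOn_compact hcpt
  rw [setIntegral_pos_iff_support_of_nonneg_ae (Eventually.of_forall fun x => sq_nonneg _) hi]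
  set U : Set V := Set.pi univ (fun _ : Fin 3 => Ioo (0 : ℝ) 1) with hU
  have hUo : IsOpen U := isOpen_set_pi finite_univ fun _ _ => isOpen_Ioo
  have hUQ : U ⊆ Q := by
    intro x hx
    exact ⟨fun i => (hx i (mem_univ i)).1.le, fun i => (hx i (mem_univ i)).2.le⟩
  set W : Set V := {x | g1 x ^ 2 ≠ 0} ∩ U with hW
  have hWo : IsOpen W := (isOpen_ne_fun hc continuous_const).inter hUo
  have hWn : W.Nonempty := by
    refine ⟨fun _ => 1 / 4, ?_, fun i _ => ⟨by norm_num, by norm_num⟩⟩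
    show g1 (fun _ => 1 / 4) ^ 2 ≠ 0
    unfold g1
    have e : 2 * Real.pi * (1 / 4) = Real.pi / 2 := by ring
    rw [e, Real.sin_pi_div_two]
    norm_num
  exact lt_of_lt_of_le (hWo.measure_pos volume hWn)
    (measure_mono fun x hx => ⟨hx.1, hUQ hx.2⟩)

theorem memLp_cont {f : V → ℝ} (hf : Continuous f) : MemLp f 2 mQ := by
  have hK : IsCompact Q := isCompact_Icc
  obtain ⟨C, hC⟩ := hK.exists_bound_of_continuousOn hf.continuousOn
  have : IsFiniteMeasure mQ := ⟨by
    rw [Measure.restrict_apply_univ]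
    exact hK.measure_lt_top⟩
  refine MemLp.of_bound hf.aestronglyMeasurable C ?_
  exact (ae_restrict_iff' hK.measurableSet).2 (Filter.Eventually.of_forall fun x hx => hC x hx)

theorem memLp_comp (f : Lp V 2 mQ) (i : Fin 3) : MemLp (fun x => f x i) 2 mQ := by
  have h := Lp.memLp f
  refine h.mono ((continuous_apply i).comp_aestronglyMeasurable h.aestronglyMeasurable) ?_
  exact Eventually.of_forall fun x => norm_le_pi_norm (f x) i

theorem slice {w : ℝ → V → V}
    (hw : ContDiffOn ℝ ∞ (fun z : ℝ × V => w z.1 z.2) (Ici 0 ×ˢ univ)) {t : ℝ}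
    (ht : 0 ≤ t) : ContDiff ℝ ∞ (w t) := by
  rw [← contDiffOn_univ]
  exact hw.comp (contDiff_const.prodMk contDiff_id).contDiffOn (fun x _ => ⟨ht, mem_univ _⟩)

theorem sp_test {φ : ℝ → V → V} (hφ : Test φ) (i : Fin 3) : SP (fun y => φ 0 y i) :=
  ⟨(contDiff_pi.1 (slice hφ.smooth le_rfl)) i, fun j x => congrFun (hφ.per 0 le_rfl j x) i⟩

theorem orth {φ : ℝ → V → V} (hφ : Test φ) : ∫ x in Q, g1 x * φ 0 x 0 = 0 := by
  have hdiv : ∀ x, ∑ i, pd i (fun y => φ 0 y i) x = 0 := by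
    intro x
    refine Eq.trans ?_ (hφ.divfree 0 le_rfl x)
    exact Finset.sum_congr rfl fun i _ => (congrFun (pD_one (sp_test hφ i).smooth i) x).symm
  have h := H459R3.NS.int_press (v := fun i y => φ 0 y i) (sp_test hφ) hdiv sp_q1
  rw [Fin.sum_univ_three] at h
  simp_rw [pd_q1] at h
  have e1 : (Pi.single 1 (1 : ℝ) : V) 0 = 0 := Pi.single_eq_of_ne (by decide) _
  have e2 : (Pi.single 2 (1 : ℝ) : V) 0 = 0 := Pi.single_eq_of_ne (by decide) _
  have e0 : (Pi.single 0 (1 : ℝ) : V) 0 = 1 := Pi.single_eq_same _ _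
  simp only [e0, e1, e2, mul_zero, mul_one, integral_zero, add_zero] at h
  calc ∫ x in Q, g1 x * φ 0 x 0 = ∫ x in cube, φ 0 x 0 * g1 x := by
        congr 1
        funext x
        ring
    _ = 0 := h

/-- the new initial value -/
noncomputable def u1 (c : ℝ) (f : V → V) (x : V) (i : Fin 3) : ℝ :=
  f x i + c * (g1 x * (if i = 0 then 1 else 0))

theorem weak_eq (f : Lp V 2 mQ) (c : ℝ) {φ : ℝ → V → V} (hφ : Test φ) :
    ∫ x in Q, ∑ i, u1 c f x i * φ 0 x i = ∫ x in Q, ∑ i, f x i * φ 0 x i := by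
  have h1 : ∀ i, MemLp (fun x => φ 0 x i) 2 mQ := fun i => memLp_cont (sp_test hφ i).smooth.continuous
  have h2 : Integrable (fun x => ∑ i, f x i * φ 0 x i) mQ :=
    integrable_finsetSum _ fun i _ => (memLp_comp f i).integrable_mul (h1 i)
  have h3 : Integrable (fun x => g1 x * φ 0 x 0) mQ := (memLp_cont g1_cont).integrable_mul (h1 0)
  have e : ∀ x, ∑ i, u1 c f x i * φ 0 x i = (∑ i, f x i * φ 0 x i) + c * (g1 x * φ 0 x 0) := by
    intro x
    unfold u1
    rw [Fin.sum_univ_three, Fin.sum_univ_three]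
    simp only [Fin.isValue, if_true, one_ne_zero, if_false, mul_one, mul_zero, add_zero,
      show ((2 : Fin 3) = 0) = False from by decide]
    ring
  simp_rw [e]
  rw [integral_add h2 (h3.const_mul c), integral_const_mul, orth hφ, mul_zero, add_zero]

theorem energy_lb (f : Lp V 2 mQ) (c : ℝ) :
    c ^ 2 / 2 * (∫ x in Q, g1 x ^ 2) - (∫ x in Q, f x 0 ^ 2) ≤ ∫ x in Q, ∑ i, u1 c f x i ^ 2 := by
  have hg : Integrable (fun x => g1 x ^ 2) mQ := (memLp_cont g1_cont).integrable_sq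
  have hf0 : Integrable (fun x => f x 0 ^ 2) mQ := (memLp_comp f 0).integrable_sq
  have hu : ∀ i, MemLp (fun x => u1 c f x i) 2 mQ := by
    intro i
    refine (memLp_comp f i).add ?_
    refine memLp_cont ?_
    exact continuous_const.mul (g1_cont.mul continuous_const)
  have hs : Integrable (fun x => ∑ i, u1 c f x i ^ 2) mQ :=
    integrable_finsetSum _ fun i _ => (hu i).integrable_sq
  calc c ^ 2 / 2 * (∫ x in Q, g1 x ^ 2) - (∫ x in Q, f x 0 ^ 2)
      = ∫ x in Q, (c ^ 2 / 2 * g1 x ^ 2 - f x 0 ^ 2) := by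
        rw [integral_sub (hg.const_mul _) hf0, integral_const_mul]
    _ ≤ ∫ x in Q, ∑ i, u1 c f x i ^ 2 := by
        refine integral_mono ((hg.const_mul _).sub hf0) hs fun x => ?_
        show c ^ 2 / 2 * g1 x ^ 2 - f x 0 ^ 2 ≤ ∑ i, u1 c f x i ^ 2
        rw [Fin.sum_univ_three]
        have e0 : u1 c f x 0 = f x 0 + c * g1 x := by
          unfold u1
          rw [if_pos rfl, mul_one]
        rw [e0]
        nlinarith [sq_nonneg (u1 c f x 1), sq_nonneg (u1 c f x 2),
          sq_nonneg (f x 0 + c * g1 x / 2)]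

theorem diss_int {T : ℝ} {G : ℝ → V → Fin 3 → Fin 3 → ℝ}
    (h : ∀ i j, MemLp (fun z : ℝ × V => G z.1 z.2 i j) 2 (volume.restrict (Icc 0 T ×ˢ Q)))
    {t : ℝ} (ht : t ∈ Icc 0 T) :
    ∫ s in (0 : ℝ)..t, ∫ x in Q, ∑ i, ∑ j, G s x i j ^ 2 ≤
      ∫ s in (0 : ℝ)..T, ∫ x in Q, ∑ i, ∑ j, G s x i j ^ 2 := by
  have hT : 0 ≤ T := ht.1.trans ht.2
  have h1 : Integrable (fun z : ℝ × V => ∑ i, ∑ j, G z.1 z.2 i j ^ 2)
      (volume.restrict (Icc 0 T ×ˢ Q)) :=
    integrable_finsetSum _ fun i _ => integrable_finsetSum _ fun j _ => (h i j).integrable_sq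
  rw [Measure.volume_eq_prod, ← Measure.prod_restrict] at h1
  have h2 := h1.integral_prod_left
  refine intervalIntegral.integral_mono_interval le_rfl ht.1 ht.2
    (Eventually.of_forall fun s => ?_) ?_
  · exact integral_nonneg fun x => Finset.sum_nonneg fun i _ => Finset.sum_nonneg fun j _ =>
      sq_nonneg _
  · rw [intervalIntegrable_iff_integrableOn_Icc_of_le hT]
    exact h2

end R1X

open R1X in
theorem r1 : R1 := by
  intro n ν α T f u G hν h
  obtain ⟨E, hE⟩ := h.bdd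
  set D : ℝ := ∫ x in Q, g1 x ^ 2 with hD
  have hD0 : 0 < D := g1_pos
  set H : ℝ := ∫ s in (0 : ℝ)..T, ∫ x in Q, ∑ i, ∑ j, G s x i j ^ 2 with hH
  set F0 : ℝ := ∫ x in Q, (f.1 : V → V) x 0 ^ 2 with hF0
  set S : ℝ := E + 2 * (ν * H) + F0 with hS
  set c : ℝ := Real.sqrt (2 * |S| / D) with hc
  have hc2 : c ^ 2 / 2 * D = |S| := by
    rw [hc, Real.sq_sqrt (by positivity)]
    field_simp
  refine ⟨fun x i => u1 c f.1 x i, h.meas_u, h.meas_G, h.l2_u, h.l2_G, h.divfree, h.grad, ?_, ?_⟩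
  · intro φ hφ t ht
    rw [weak_eq f.1 c hφ]
    exact h.weak φ hφ t ht
  · intro t ht
    have h1 := energy_lb f.1 c
    rw [← hD, ← hF0, hc2] at h1
    have h2 := hE t ht
    have h3 := mul_le_mul_of_nonneg_left (diss_int h.l2_G ht) hν
    rw [← hH] at h3
    have h4 := le_abs_self S
    have h5 : (1 / 2) * (|S| - F0) ≤ (1 / 2) * ∫ x in Q, ∑ i, u1 c f.1 x i ^ 2 :=
      mul_le_mul_of_nonneg_left h1 (by norm_num)
    refine le_trans ?_ h5
    rw [hS] at h4 ⊢
    linarith

end Pool.Agent.H303.DEE
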