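import Pool.Agent.H303.DEE.Stm6
import Pool.Agent.H303.DEE.S8

/-!
Smooth fields with divergence zero are dense in `L²_σ` (`R2`), by truncation of the Fourier series
(helper346, for helper303; the lemmas are those of `S8`).
-/

open MeasureTheory Set Filter Topology
open scoped ContDiff ENNReal

namespace Pool.Agent.H303.DEE

namespace TR2

open H459R3.NS (K3 ee cov fc ph)
open TS8

theorem cf_div2 {u : V → V} (hl2 : ∀ i, MemLp (fun x => u x i) 2 mQ)
    (hdiv : ∀ ψ : V → ℝ, ContDiff ℝ ∞ ψ → Periodic ψ →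
      ∫ x in Q, ∑ j, u x j * partialD 1 j ψ x = 0) (k : K3) :
    ∑ j, cf (fun x => u x j) k * dk k j = 0 := by
  apply eq_zero_of_re
  intro c
  have h2 := hdiv (fun x => (c * ee (-k) x).re)
    (by
      have := smooth_re {-k} (fun _ => c)
      simpa only [Finset.sum_singleton] using this)
    (by
      have := per_re {-k} (fun _ => c)
      simpa only [Finset.sum_singleton] using this)
  simp only [pD1] at h2
  rw [integral_finsetSum _ (fun j _ => int_re _ (hl2 j) (-k) (c * dk (-k) j))] at h2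
  have h3 : ∀ j, ∫ x in Q, u x j * (c * dk (-k) j * ee (-k) x).re =
      -(c * (cf (fun x => u x j) k * dk k j)).re := by
    intro j
    rw [← re_cf _ (hl2 j) k (c * dk (-k) j), dk_neg, ← Complex.neg_re]
    exact congrArg Complex.re (by ring)
  rw [Finset.sum_congr rfl (fun j _ => h3 j), Finset.sum_neg_distrib, neg_eq_zero] at h2
  rw [Finset.mul_sum, Complex.re_sum]
  exact h2

theorem main (f : V → V) (hl2 : ∀ i, MemLp (fun x => f x i) 2 mQ)
    (hdiv : ∀ ψ : V → ℝ, ContDiff ℝ ∞ ψ → Periodic ψ →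
      ∫ x in Q, ∑ j, f x j * partialD 1 j ψ x = 0) (ε : ℝ) (hε : 0 < ε) :
    ∃ v : V → V, Smooth v ∧ ∫ x in Q, ∑ i, (f x i - v x i) ^ 2 ≤ ε := by
  classical
  have hA : ∀ i, ∃ S₀ : Finset K3, ∀ S : Finset K3, S₀ ⊆ S →
      ∫ x in Q, ‖(f x i : ℂ) - ∑ k ∈ S, cf (fun x => f x i) k * ee k x‖ ^ 2 ≤ ε / 3 := fun i =>
    trunc (fun x => (f x i : ℂ)) (hl2 i).ofReal (ε / 3) (by positivity)
  choose SA hSA using hA
  obtain ⟨S, hS⟩ : ∃ S : Finset K3, S = Finset.univ.biUnion SA := ⟨_, rfl⟩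
  have hS1 : ∀ i, SA i ⊆ S := by
    intro i k hk
    rw [hS]
    exact Finset.mem_biUnion.mpr ⟨i, Finset.mem_univ _, hk⟩
  refine ⟨fun x i => (∑ k ∈ S, cf (fun x => f x i) k * ee k x).re, ⟨?_, ?_, ?_⟩, ?_⟩
  · exact contDiff_pi.mpr fun i => smooth_re S _
  · intro j x
    funext i
    exact per_re S (cf (fun x => f x i)) j x
  · intro x
    have h1 : ∀ j, partialD 1 j (fun y => (∑ k ∈ S, cf (fun x => f x j) k * ee k y).re) x =
        (∑ k ∈ S, cf (fun x => f x j) k * (dk k j * ee k x)).re := fun j => pD S _ j x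
    show ∑ j, partialD 1 j (fun y => (∑ k ∈ S, cf (fun x => f x j) k * ee k y).re) x = 0
    rw [Finset.sum_congr rfl (fun j _ => h1 j), ← Complex.re_sum, Finset.sum_comm]
    have h2 : ∀ k ∈ S, ∑ j, cf (fun x => f x j) k * (dk k j * ee k x) = 0 := by
      intro k _
      have h3 := cf_div2 hl2 hdiv k
      have h4 : ∑ j, cf (fun x => f x j) k * (dk k j * ee k x) =
          (∑ j, cf (fun x => f x j) k * dk k j) * ee k x := by
        rw [Finset.sum_mul]
        exact Finset.sum_congr rfl (fun j _ => by ring)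
      rw [h4, h3, zero_mul]
    rw [Finset.sum_eq_zero h2, Complex.zero_re]
  · have h1 := fun i => est (fun x => f x i) (hl2 i) S (cf (fun x => f x i))
    rw [integral_finsetSum _ (fun i _ => (h1 i).1)]
    have h2 : ∀ i ∈ Finset.univ,
        ∫ x in Q, (f x i - (∑ k ∈ S, cf (fun x => f x i) k * ee k x).re) ^ 2 ≤ ε / 3 :=
      fun i _ => (h1 i).2.trans (hSA i S (hS1 i))
    refine (Finset.sum_le_sum h2).trans ?_
    simp only [Finset.sum_const, Finset.card_univ, Fintype.card_fin, nsmul_eq_mul]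
    push_cast
    linarith

end TR2

theorem r2 : R2 := fun u h1 h2 ε hε => TR2.main u h1 h2 ε hε

end Pool.Agent.H303.DEE
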