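import Pool.Agent.H303.DEE.Stm6

/-!
All weak solutions in the energy class satisfy the energy equality (project DEE, step R4).
-/

set_option autoImplicit false

open MeasureTheory Set Filter Topology Complex
open scoped ContDiff ENNReal

namespace Pool.Agent.H303.DEE

namespace R4x

open F

lemma gg_neg (n : ℕ) (hn : Odd n) (α : Fin 3 → ℝ) (k : F.K) : gg n α (-k) = -gg n α k := by
  unfold gg
  rw [← mul_neg, ← Finset.sum_neg_distrib]
  congr 1
  refine Finset.sum_congr rfl fun j _ => ?_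
  have h1 : 2 * Real.pi * (((-k) j : ℤ) : ℝ) = -(2 * Real.pi * (k j : ℝ)) := by
    rw [Pi.neg_apply]
    push_cast
    ring
  rw [h1, hn.neg_pow]
  ring

lemma nm_sq (v : F.C3) : nm v ^ 2 = ∑ i, ‖v i‖ ^ 2 :=
  Real.sq_sqrt (Finset.sum_nonneg fun _ _ => sq_nonneg _)

lemma parseval (p1 : F.P1) (v : V → V) (hv : ∀ i, MemLp (fun x => v x i) 2 mQ) :
    ∑' k, nm (fun i => cf (fun x => v x i) k) ^ 2 = ∫ x in Q, ∑ i, v x i ^ 2 := by
  have h1 : HasSum (fun k => ∑ i, ‖cf (fun x => v x i) k‖ ^ 2) (∑ i, ∫ x in Q, v x i ^ 2) :=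
    hasSum_sum fun i _ => p1 (fun x => v x i) (hv i)
  have h2 : ∫ x in Q, ∑ i, v x i ^ 2 = ∑ i, ∫ x in Q, v x i ^ 2 :=
    integral_finsetSum _ fun i _ => (hv i).integrable_sq
  rw [h2, ← h1.tsum_eq]
  refine tsum_congr fun k => ?_
  rw [nm_sq]

end R4x

open F R4x in
theorem r4 (h1 : R1) (h3 : R3) (h10 : F.H10) (p1 : F.P1) (p5 : F.P5) (p6 : F.P6) (p7 : F.P7) :
    R4 := by
  intro n ν α C hν hn hC hFew T f u G hW t ht
  have hT : 0 ≤ T := ht.1.trans ht.2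
  have h0 : (0 : ℝ) ∈ Icc 0 T := ⟨le_rfl, hT⟩
  obtain ⟨u₁, hLH⟩ := h1 n ν α T f u G hν.le hW
  have h := h10 (gg n α) ν T C (fun t k i => cf (fun x => u t x i) k) hν (gg_neg n hn α) hC hFew
    (p7 n ν α T u₁ u G hν hn hT hLH) t ht
  have h6 := p6 n ν α T u₁ u G hν hLH (p5 n ν α T u₁ u G hν hn hLH).2.1 t ht
  have h6' := h6.tsum_eq
  rw [tsum_mul_left] at h6'
  have h8 := h3 n ν α T f u G hT hW
  have e1 := parseval p1 (u t) (hW.l2_u t ht)
  have e2 := parseval p1 (u 0) (hW.l2_u 0 h0)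
  unfold EnergyEq
  rw [← e1, ← h8, ← e2, ← h, ← h6']
  ring

end Pool.Agent.H303.DEE
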