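import Pool.Agent.H303.DEE.Stm2
import Pool.Graph.R_seed8.H459R3.NS.Phys2

/-!
The supremum norm of smooth periodic fields by Fourier series (B1).
-/

open MeasureTheory Set Filter Topology
open scoped ContDiff

namespace Pool.Agent.H303.DEE

namespace S1

open H459R3.NS (K3 SP fr fc ee cube)

theorem summable_43 : Summable fun n : ℤ => (1 + |(n : ℝ)|) ^ (-(4 / 3) : ℝ) := by
  have h : Summable fun n : ℤ => |(n : ℝ)| ^ (-(4 / 3) : ℝ) :=
    Real.summable_abs_int_rpow (by norm_num)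
  have h2 := h.add (summable_of_hasFiniteSupport (f := fun n : ℤ => if n = 0 then (1 : ℝ) else 0)
    ((Set.finite_singleton (0 : ℤ)).subset fun n hn => by
      by_contra h
      exact hn (if_neg h)))
  refine Summable.of_nonneg_of_le (fun n => by positivity) (fun n => ?_) h2
  by_cases hn : n = 0
  · subst hn
    rw [if_pos rfl, Int.cast_zero, abs_zero, add_zero, Real.one_rpow,
      Real.zero_rpow (by norm_num), zero_add]
  · rw [if_neg hn, add_zero]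
    have hn' : 0 < |(n : ℝ)| := abs_pos.2 (by exact_mod_cast hn)
    exact Real.rpow_le_rpow_of_nonpos hn' (by linarith) (by norm_num)

theorem summable_K : Summable fun k : K3 => (1 + |(k 0 : ℝ)|) ^ (-(4 / 3) : ℝ) *
    ((1 + |(k 1 : ℝ)|) ^ (-(4 / 3) : ℝ) * (1 + |(k 2 : ℝ)|) ^ (-(4 / 3) : ℝ)) := by
  have h1 := summable_43.mul_of_nonneg summable_43 (fun n => by positivity)
    (fun n => by positivity)
  have h2 := summable_43.mul_of_nonneg h1 (fun n => by positivity)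
    (fun p => by positivity)
  have h3 := (H459R3.NS.eqv.summable_iff (f := fun p : ℤ × ℤ × ℤ =>
    (1 + |(p.1 : ℝ)|) ^ (-(4 / 3) : ℝ) *
      ((1 + |(p.2.1 : ℝ)|) ^ (-(4 / 3) : ℝ) * (1 + |(p.2.2 : ℝ)|) ^ (-(4 / 3) : ℝ)))).2 h2
  exact h3

/-- `|k|²` -/
noncomputable def c (k : K3) : ℝ := ∑ j, (k j : ℝ) ^ 2

theorem c_ge (k : K3) (j : Fin 3) : (k j : ℝ) ^ 2 ≤ c k :=
  Finset.single_le_sum (f := fun j => (k j : ℝ) ^ 2) (fun _ _ => by positivity) (Finset.mem_univ j)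

theorem one_le_c {k : K3} (hk : k ≠ 0) : 1 ≤ c k := by
  obtain ⟨j, hj⟩ : ∃ j, k j ≠ 0 := by
    by_contra h
    push Not at h
    exact hk (funext h)
  refine le_trans ?_ (c_ge k j)
  have h1 : (1 : ℤ) ≤ (k j) ^ 2 := by
    have := sq_nonneg (k j)
    have h2 : (k j) ^ 2 ≠ 0 := pow_ne_zero 2 hj
    omega
  exact_mod_cast h1

theorem inv_le {k : K3} (hk : k ≠ 0) : 1 / (c k) ^ 2 ≤ 16 * ((1 + |(k 0 : ℝ)|) ^ (-(4 / 3) : ℝ) *
    ((1 + |(k 1 : ℝ)|) ^ (-(4 / 3) : ℝ) * (1 + |(k 2 : ℝ)|) ^ (-(4 / 3) : ℝ))) := by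
  have hc := one_le_c hk
  have hs1 : 1 ≤ Real.sqrt (c k) := by
    rw [Real.one_le_sqrt]; exact hc
  set s : ℝ := 2 * Real.sqrt (c k) with hs
  have hs0 : 0 < s := by positivity
  have hj : ∀ j, s ^ (-(4 / 3) : ℝ) ≤ (1 + |(k j : ℝ)|) ^ (-(4 / 3) : ℝ) := by
    intro j
    refine Real.rpow_le_rpow_of_nonpos (by positivity) ?_ (by norm_num)
    have : |(k j : ℝ)| ≤ Real.sqrt (c k) := Real.abs_le_sqrt (c_ge k j)
    linarith
  have h4 : s ^ (-(4 / 3) : ℝ) * (s ^ (-(4 / 3) : ℝ) * s ^ (-(4 / 3) : ℝ)) = 1 / (16 * (c k) ^ 2) := by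
    rw [← Real.rpow_add hs0, ← Real.rpow_add hs0]
    have e : (-(4 / 3) + (-(4 / 3) + -(4 / 3)) : ℝ) = -((4 : ℕ) : ℝ) := by norm_num
    rw [e, Real.rpow_neg hs0.le, Real.rpow_natCast, hs, mul_pow]
    have e2 : Real.sqrt (c k) ^ 4 = (c k) ^ 2 := by
      rw [show (4 : ℕ) = 2 * 2 by norm_num, pow_mul, Real.sq_sqrt (by linarith)]
    rw [e2, one_div]
    norm_num
  have h0 : 0 ≤ s ^ (-(4 / 3) : ℝ) := Real.rpow_nonneg hs0.le _
  have h5 : s ^ (-(4 / 3) : ℝ) * (s ^ (-(4 / 3) : ℝ) * s ^ (-(4 / 3) : ℝ)) ≤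
      (1 + |(k 0 : ℝ)|) ^ (-(4 / 3) : ℝ) *
      ((1 + |(k 1 : ℝ)|) ^ (-(4 / 3) : ℝ) * (1 + |(k 2 : ℝ)|) ^ (-(4 / 3) : ℝ)) := by
    have a0 := hj 0
    have a1 := hj 1
    have a2 := hj 2
    gcongr
  rw [h4] at h5
  have h6 : 1 / (c k) ^ 2 = 16 * (1 / (16 * (c k) ^ 2)) := by
    field_simp
  rw [h6]
  linarith

theorem tail (δ : ℝ) (hδ : 0 < δ) : ∃ F : Finset K3, ∀ t : Finset K3, Disjoint t F →
    (∀ k ∈ t, k ≠ 0) ∧ ∑ k ∈ t, 1 / (c k) ^ 2 ≤ δ := by
  classical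
  obtain ⟨s, hs⟩ := (summable_iff_vanishing_norm.1 (summable_K.mul_left 16)) δ hδ
  refine ⟨insert 0 s, fun t ht => ?_⟩
  have h0 : ∀ k ∈ t, k ≠ 0 := by
    intro k hk h
    subst h
    exact (Finset.disjoint_left.1 ht hk) (Finset.mem_insert_self _ _)
  refine ⟨h0, ?_⟩
  have h1 := hs t (Finset.disjoint_of_subset_right (Finset.subset_insert _ _) ht)
  have h2 := le_trans (Real.le_norm_self _) h1.le
  exact le_trans (Finset.sum_le_sum fun k hk => inv_le (h0 k hk)) h2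

theorem fr_sum (g : Fin 3 → V → ℝ) (hg : ∀ j, SP (g j)) (k : K3) :
    fr (fun x => ∑ j, g j x) k = ∑ j, fr (g j) k := by
  have hi : ∀ j ∈ (Finset.univ : Finset (Fin 3)),
      Integrable (fun x => ee (-k) x * ((g j x : ℝ) : ℂ)) (volume.restrict cube) := fun j _ =>
    H459R3.NS.integrableOn_cube
      ((H459R3.NS.ee_continuous (-k)).mul (H459R3.NS.contDiff_ofReal (hg j).smooth).continuous)
  have h := integral_finsetSum (Finset.univ : Finset (Fin 3)) hi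
  unfold H459R3.NS.fr H459R3.NS.fc
  refine Eq.trans ?_ h
  congr 1
  funext x
  simp only [Complex.ofReal_sum, Finset.mul_sum]

theorem SP_lap {f : V → ℝ} (hf : SP f) : SP (H459R3.NS.lap f) :=
  SP.sum (s := Finset.univ) (f := fun j => H459R3.NS.pd j (H459R3.NS.pd j f))
    (fun j _ => (hf.pd j).pd j)

theorem fr_lap {f : V → ℝ} (hf : SP f) (k : K3) :
    fr (H459R3.NS.lap f) k = -((4 * Real.pi ^ 2 * c k : ℝ) : ℂ) * fr f k := by
  have h1 : fr (H459R3.NS.lap f) k = ∑ j, fr (H459R3.NS.pd j (H459R3.NS.pd j f)) k :=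
    fr_sum (fun j => H459R3.NS.pd j (H459R3.NS.pd j f)) (fun j => (hf.pd j).pd j) k
  have h2 : ∀ j, fr (H459R3.NS.pd j (H459R3.NS.pd j f)) k =
      (2 * Real.pi * Complex.I * (k j : ℂ)) ^ 2 * fr f k := fun j => H459R3.NS.fr_iter hf j 2 k
  rw [h1, Finset.sum_congr rfl fun j _ => h2 j, ← Finset.sum_mul]
  congr 1
  unfold c
  rw [Complex.ofReal_mul, Complex.ofReal_sum, Finset.mul_sum, ← Finset.sum_neg_distrib]
  refine Finset.sum_congr rfl fun j _ => ?_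
  have hI : Complex.I ^ 2 = -1 := Complex.I_sq
  push_cast
  linear_combination (4 * (Real.pi : ℂ) ^ 2 * (k j : ℂ) ^ 2) * hI

theorem norm_fr_lap {f : V → ℝ} (hf : SP f) (k : K3) :
    c k * ‖fr f k‖ ≤ ‖fr (H459R3.NS.lap f) k‖ := by
  have hc : 0 ≤ c k := Finset.sum_nonneg fun _ _ => by positivity
  rw [fr_lap hf, norm_mul, norm_neg, Complex.norm_real, Real.norm_of_nonneg (by positivity)]
  refine mul_le_mul_of_nonneg_right ?_ (norm_nonneg _)
  have h : 1 ≤ 4 * Real.pi ^ 2 := by nlinarith [Real.pi_gt_three]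
  nlinarith

theorem sum_sq_le {f : V → ℝ} (hf : SP f) (t : Finset K3) :
    ∑ k ∈ t, ‖fr f k‖ ^ 2 ≤ ∫ y in cube, f y ^ 2 := by
  rw [← H459R3.NS.n2_fr hf, H459R3.NS.n2_sq]
  exact (H459R3.NS.summable_sq (H459R3.NS.rap_fr hf).summable).sum_le_tsum t
    (fun _ _ => by positivity)

theorem scalar (ε : ℝ) (hε : 0 < ε) : ∃ C : ℝ, 0 ≤ C ∧ ∀ f : V → ℝ, SP f → ∀ x,
    f x ^ 2 ≤ C * (∫ y in cube, f y ^ 2) + ε * ∫ y in cube, (H459R3.NS.lap f y) ^ 2 := by
  classical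
  obtain ⟨F, hF⟩ := tail (ε / 2) (by positivity)
  refine ⟨2 * F.card, by positivity, fun f hf x => ?_⟩
  have hA : 0 ≤ ∫ y in cube, f y ^ 2 := integral_nonneg fun _ => by positivity
  have hB : 0 ≤ ∫ y in cube, (H459R3.NS.lap f y) ^ 2 := integral_nonneg fun _ => by positivity
  set X : ℝ := 2 * F.card * (∫ y in cube, f y ^ 2) + ε * ∫ y in cube, (H459R3.NS.lap f y) ^ 2
    with hX
  have hX0 : 0 ≤ X := by positivity
  have key : ∀ t : Finset K3, ∑ k ∈ t, ‖fr f k‖ ≤ Real.sqrt X := by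
    intro t
    refine Real.le_sqrt_of_sq_le ?_
    have e : ∑ k ∈ t, ‖fr f k‖ = ∑ k ∈ t.filter (· ∈ F), ‖fr f k‖ +
        ∑ k ∈ t.filter (fun k => ¬ k ∈ F), ‖fr f k‖ := (Finset.sum_filter_add_sum_filter_not _ _ _).symm
    have h1 : (∑ k ∈ t.filter (· ∈ F), ‖fr f k‖) ^ 2 ≤ F.card * ∫ y in cube, f y ^ 2 := by
      refine le_trans sq_sum_le_card_mul_sum_sq ?_
      have hc : ((t.filter (· ∈ F)).card : ℝ) ≤ F.card := by
        exact_mod_cast Finset.card_le_card (fun k hk => (Finset.mem_filter.1 hk).2)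
      exact mul_le_mul hc (sum_sq_le hf _) (Finset.sum_nonneg fun _ _ => by positivity)
        (by positivity)
    have hd : Disjoint (t.filter (fun k => ¬ k ∈ F)) F :=
      Finset.disjoint_left.2 fun k hk => (Finset.mem_filter.1 hk).2
    obtain ⟨g1, g2⟩ := hF _ hd
    have h2 : (∑ k ∈ t.filter (fun k => ¬ k ∈ F), ‖fr f k‖) ^ 2 ≤
        (ε / 2) * ∫ y in cube, (H459R3.NS.lap f y) ^ 2 := by
      have h3 : ∑ k ∈ t.filter (fun k => ¬ k ∈ F), ‖fr f k‖ ≤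
          ∑ k ∈ t.filter (fun k => ¬ k ∈ F), (1 / c k) * ‖fr (H459R3.NS.lap f) k‖ := by
        refine Finset.sum_le_sum fun k hk => ?_
        have hc : 0 < c k := lt_of_lt_of_le one_pos (one_le_c (g1 k hk))
        have h4 := norm_fr_lap hf k
        rw [one_div, ← div_eq_inv_mul, le_div_iff₀ hc]
        linarith
      refine le_trans (pow_le_pow_left₀ (Finset.sum_nonneg fun _ _ => norm_nonneg _) h3 2) ?_
      refine le_trans (Finset.sum_mul_sq_le_sq_mul_sq _ _ _) ?_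
      have h5 : ∑ k ∈ t.filter (fun k => ¬ k ∈ F), (1 / c k) ^ 2 ≤ ε / 2 := by
        refine le_trans (le_of_eq (Finset.sum_congr rfl fun k _ => ?_)) g2
        rw [div_pow, one_pow]
      exact mul_le_mul h5 (sum_sq_le (SP_lap hf) _) (Finset.sum_nonneg fun _ _ => by positivity)
        (by positivity)
    rw [e, hX]
    nlinarith [sq_nonneg (∑ k ∈ t.filter (· ∈ F), ‖fr f k‖ -
        ∑ k ∈ t.filter (fun k => ¬ k ∈ F), ‖fr f k‖)]
  have hs := (H459R3.NS.rap_fr hf).summable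
  have h6 : |f x| ≤ Real.sqrt X := by
    have h7 := H459R3.NS.norm_S_le hs x
    rw [H459R3.NS.S_fr hf, Complex.norm_real, Real.norm_eq_abs] at h7
    exact h7.trans (hs.norm.tsum_le_of_sum_le key)
  have h8 : |f x| ^ 2 ≤ (Real.sqrt X) ^ 2 := pow_le_pow_left₀ (abs_nonneg _) h6 2
  rw [sq_abs, Real.sq_sqrt hX0] at h8
  exact h8

theorem partialD_two {f : V → ℝ} (hf : ContDiff ℝ ∞ f) (j : Fin 3) (x : V) :
    partialD 2 j f x = H459R3.NS.pd j (H459R3.NS.pd j f) x := by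
  unfold partialD
  rw [iteratedFDeriv_two_apply]
  unfold H459R3.NS.pd
  have h1 : DifferentiableAt ℝ (fderiv ℝ f) x :=
    ((hf.fderiv_right (m := ∞) (by norm_cast)).differentiable (by norm_cast)) x
  rw [fderiv_clm_apply h1 (differentiableAt_const _)]
  simp

end S1

open S1 in
theorem s1 : B1 := by
  intro ε hε
  obtain ⟨C, hC, h⟩ := S1.scalar ε hε
  refine ⟨C, hC, fun v hv hp x => ?_⟩
  have hsp : ∀ i, H459R3.NS.SP (fun y => v y i) := fun i =>
    ⟨contDiff_pi.1 hv i, fun j y => by simp only [hp j y]⟩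
  have hcube : H459R3.NS.cube = Q := rfl
  have e1 : ∀ i y, ∑ j, partialD 2 j (fun z => v z i) y = H459R3.NS.lap (fun z => v z i) y := by
    intro i y
    unfold H459R3.NS.lap
    exact Finset.sum_congr rfl fun j _ => S1.partialD_two (hsp i).smooth j y
  simp only [e1]
  rw [← hcube]
  have i1 : ∀ i ∈ (Finset.univ : Finset (Fin 3)),
      Integrable (fun y => v y i ^ 2) (volume.restrict H459R3.NS.cube) := fun i _ =>
    H459R3.NS.integrableOn_cube ((hsp i).smooth.continuous.pow 2)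
  have i2 : ∀ i ∈ (Finset.univ : Finset (Fin 3)),
      Integrable (fun y => H459R3.NS.lap (fun z => v z i) y ^ 2)
        (volume.restrict H459R3.NS.cube) := fun i _ =>
    H459R3.NS.integrableOn_cube ((S1.SP_lap (hsp i)).smooth.continuous.pow 2)
  rw [integral_finsetSum _ i1, integral_finsetSum _ i2, Finset.mul_sum, Finset.mul_sum,
    ← Finset.sum_add_distrib]
  exact Finset.sum_le_sum fun i _ => h _ (hsp i) x

end Pool.Agent.H303.DEE
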