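import Pool.Agent.H303.DEE.Stm2

/-!
Task S10 of the project DEE: initial values in `L²_σ`, strong solutions.
-/

set_option autoImplicit false

open MeasureTheory Set Filter Topology
open scoped ContDiff ENNReal

namespace Pool.Agent.H303.DEE

namespace Ts10

/-- the primitive of any function tends to zero at zero -/
theorem tendsto_prim (h : ℝ → ℝ) :
    Tendsto (fun s => ∫ r in (0 : ℝ)..s, h r) (𝓝[>] 0) (𝓝 0) := by
  by_cases H : ∃ s₀ : ℝ, 0 < s₀ ∧ IntervalIntegrable h volume 0 s₀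
  · obtain ⟨s₀, hs₀, hi⟩ := H
    have h1 : ContinuousOn (fun s => ∫ r in (0 : ℝ)..s, h r) (Icc 0 s₀) := by
      have h2 := intervalIntegral.continuousOn_primitive_interval (μ := volume) (f := h)
        (a := 0) (b := s₀) (by
          rw [uIcc_of_le hs₀.le]
          exact (intervalIntegrable_iff_integrableOn_Icc_of_le hs₀.le).1 hi)
      rwa [uIcc_of_le hs₀.le] at h2
    have h2 := h1 0 (left_mem_Icc.2 hs₀.le)
    have h3 : Tendsto (fun s => ∫ r in (0 : ℝ)..s, h r) (𝓝[Icc 0 s₀] 0)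
        (𝓝 (∫ r in (0 : ℝ)..0, h r)) := h2
    rw [intervalIntegral.integral_same] at h3
    refine h3.mono_left ?_
    have h4 : 𝓝[Ioc 0 s₀] (0 : ℝ) = 𝓝[>] 0 := nhdsWithin_Ioc_eq_nhdsGT hs₀
    rw [← h4]
    exact nhdsWithin_mono _ Ioc_subset_Icc_self
  · push Not at H
    refine Tendsto.congr' ?_ tendsto_const_nhds
    filter_upwards [self_mem_nhdsWithin] with s hs
    exact (intervalIntegral.integral_undef (H s hs)).symm

theorem isCompact_Q : IsCompact Q := isCompact_Icc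

/-- a continuous function is square integrable on `Q` -/
theorem memLp_cont {g : V → ℝ} (hg : Continuous g) : MemLp g 2 (volume.restrict Q) := by
  have : IsFiniteMeasure (volume.restrict Q) :=
    ⟨by rw [Measure.restrict_apply_univ]; exact isCompact_Q.measure_lt_top⟩
  obtain ⟨C, hC⟩ := isCompact_Q.exists_bound_of_continuousOn hg.continuousOn
  refine MemLp.of_bound hg.aestronglyMeasurable C ?_
  rw [ae_restrict_iff' isCompact_Q.measurableSet]
  exact Filter.Eventually.of_forall fun x hx => hC x hx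

theorem two_le {a b : V → V} (ha : ∀ i, MemLp (fun x => a x i) 2 (volume.restrict Q))
    (hb : ∀ i, MemLp (fun x => b x i) 2 (volume.restrict Q)) :
    2 * (∫ x in Q, ∑ i, a x i * b x i) ≤ (∫ x in Q, ∑ i, a x i ^ 2) + ∫ x in Q, ∑ i, b x i ^ 2 := by
  have h1 : Integrable (fun x => ∑ i, a x i ^ 2) (volume.restrict Q) :=
    integrable_finsetSum _ fun i _ => (ha i).integrable_sq
  have h2 : Integrable (fun x => ∑ i, b x i ^ 2) (volume.restrict Q) :=
    integrable_finsetSum _ fun i _ => (hb i).integrable_sq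
  have h3 : Integrable (fun x => ∑ i, a x i * b x i) (volume.restrict Q) :=
    integrable_finsetSum _ fun i _ => (ha i).integrable_mul (hb i)
  rw [← integral_add h1 h2, ← integral_const_mul]
  refine integral_mono (h3.const_mul 2) (h1.add h2) fun x => ?_
  rw [← Finset.sum_add_distrib, Finset.mul_sum]
  refine Finset.sum_le_sum fun i _ => ?_
  nlinarith [sq_nonneg (a x i - b x i)]

theorem expand {a b : V → V} (ha : ∀ i, MemLp (fun x => a x i) 2 (volume.restrict Q))
    (hb : ∀ i, MemLp (fun x => b x i) 2 (volume.restrict Q)) :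
    (∫ x in Q, ∑ i, (a x i - b x i) ^ 2) = (∫ x in Q, ∑ i, a x i ^ 2)
      - 2 * (∫ x in Q, ∑ i, a x i * b x i) + ∫ x in Q, ∑ i, b x i ^ 2 := by
  have h1 : Integrable (fun x => ∑ i, a x i ^ 2) (volume.restrict Q) :=
    integrable_finsetSum _ fun i _ => (ha i).integrable_sq
  have h2 : Integrable (fun x => ∑ i, b x i ^ 2) (volume.restrict Q) :=
    integrable_finsetSum _ fun i _ => (hb i).integrable_sq
  have h3 : Integrable (fun x => ∑ i, a x i * b x i) (volume.restrict Q) :=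
    integrable_finsetSum _ fun i _ => (ha i).integrable_mul (hb i)
  have h4 : Integrable (fun x => ∑ i, a x i ^ 2 - 2 * ∑ i, a x i * b x i)
      (volume.restrict Q) := h1.sub (h3.const_mul 2)
  rw [← integral_const_mul, ← integral_sub h1 (h3.const_mul 2), ← integral_add h4 h2]
  refine integral_congr_ae (Filter.Eventually.of_forall fun x => ?_)
  beta_reduce
  rw [Finset.mul_sum, ← Finset.sum_sub_distrib, ← Finset.sum_add_distrib]
  refine Finset.sum_congr rfl fun i _ => ?_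
  ring

/-- the components of an element of `Lp` -/
theorem memLp_comp (f : Lp V 2 mQ) (i : Fin 3) : MemLp (fun x => f x i) 2 (volume.restrict Q) := by
  have h := Lp.memLp f
  refine MemLp.of_le h ?_ (Filter.Eventually.of_forall fun x => norm_le_pi_norm (f x) i)
  exact (continuous_apply i).comp_aestronglyMeasurable h.1

/-- approximation by smooth fields -/
theorem approx {f : Lp V 2 mQ} (hf : f ∈ L2s) {ε : ℝ} (hε : 0 < ε) :
    ∃ v : V → V, Smooth v ∧ (∫ x in Q, ∑ i, (f x i - v x i) ^ 2) ≤ ε := by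
  obtain ⟨b, ⟨v, hv, hbv⟩, hb⟩ := Metric.mem_closure_iff.1 hf (Real.sqrt (ε / 3))
    (Real.sqrt_pos.2 (by positivity))
  refine ⟨v, hv, ?_⟩
  have h1 : ‖f - b‖ ^ 2 ≤ ε / 3 := by
    rw [dist_eq_norm] at hb
    have h2 := Real.sq_sqrt (show (0 : ℝ) ≤ ε / 3 by positivity)
    nlinarith [norm_nonneg (f - b), Real.sqrt_nonneg (ε / 3)]
  have h2 : ‖f - b‖ ^ 2 = ∫ x in Q, ‖(f - b : Lp V 2 mQ) x‖ ^ 2 := by
    rw [Lp.norm_def, (Lp.memLp (f - b)).eLpNorm_eq_integral_rpow_norm (by norm_num) (by norm_num)]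
    have h3 : (2 : ℝ≥0∞).toReal = 2 := by norm_num
    rw [h3]
    have h4 : ∀ x, ‖(f - b : Lp V 2 mQ) x‖ ^ (2 : ℝ) = ‖(f - b : Lp V 2 mQ) x‖ ^ 2 := fun x => by
      exact_mod_cast Real.rpow_natCast ‖(f - b : Lp V 2 mQ) x‖ 2
    simp only [h4]
    have h5 : 0 ≤ ∫ x in Q, ‖(f - b : Lp V 2 mQ) x‖ ^ 2 :=
      integral_nonneg fun x => sq_nonneg _
    rw [ENNReal.toReal_ofReal (Real.rpow_nonneg h5 _), ← Real.rpow_natCast,
      ← Real.rpow_mul h5]
    norm_num
  have h3 : (∫ x in Q, ∑ i, (f x i - v x i) ^ 2) ≤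
      ∫ x in Q, 3 * ‖(f - b : Lp V 2 mQ) x‖ ^ 2 := by
    refine integral_mono_ae ?_ ?_ ?_
    · refine integrable_finsetSum _ fun i _ => ?_
      have h4 : MemLp (fun x => v x i) 2 (volume.restrict Q) :=
        memLp_cont ((continuous_apply i).comp hv.smooth.continuous)
      exact ((memLp_comp f i).sub h4).integrable_sq
    · have h4 : Integrable (fun x => ‖(f - b : Lp V 2 mQ) x‖ ^ 2) (volume.restrict Q) :=
        (Lp.memLp (f - b)).integrable_norm_pow (by norm_num)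
      exact h4.const_mul 3
    · filter_upwards [hbv, Lp.coeFn_sub f b] with x hx1 hx2
      have h4 : ∀ i, (f x i - v x i) ^ 2 ≤ ‖(f - b : Lp V 2 mQ) x‖ ^ 2 := fun i => by
        have h5 : f x i - v x i = (f - b : Lp V 2 mQ) x i := by
          rw [hx2, ← hx1]
          rfl
        rw [h5, ← sq_abs, ← Real.norm_eq_abs]
        exact pow_le_pow_left₀ (norm_nonneg _) (norm_le_pi_norm _ i) 2
      calc ∑ i, (f x i - v x i) ^ 2 ≤ ∑ _i : Fin 3, ‖(f - b : Lp V 2 mQ) x‖ ^ 2 :=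
            Finset.sum_le_sum fun i _ => h4 i
        _ = 3 * ‖(f - b : Lp V 2 mQ) x‖ ^ 2 := by
            rw [Finset.sum_const, Finset.card_univ, Fintype.card_fin, nsmul_eq_mul]
            norm_num
  rw [integral_const_mul, ← h2] at h3
  linarith

/-- a smooth field is a test field -/
theorem test_of_smooth {φ : V → V} (hφ : Smooth φ) : Test fun _ => φ where
  smooth := (hφ.smooth.comp contDiff_snd).contDiffOn
  per := fun _ _ => hφ.per
  divfree := fun _ _ => hφ.divfree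

/-- for almost all times the values are in `H¹_σ` -/
theorem ae_H1s {n : ℕ} {ν : ℝ} {α : Fin 3 → ℝ} {T : ℝ} {u₀ : V → V} {u : ℝ → V → V}
    {G : ℝ → V → Fin 3 → Fin 3 → ℝ} (h : IsLerayHopf n ν α T u₀ u G) :
    ∀ᵐ s ∂(volume.restrict (Icc 0 T)), H1s (u s) (G s) := by
  have h1 : ∀ i j, ∀ᵐ s ∂(volume.restrict (Icc 0 T)),
      Integrable (fun x => G s x i j ^ 2) (volume.restrict Q) := by
    intro i j
    have h2 := (h.l2_G i j).integrable_sq
    rw [Measure.volume_eq_prod, ← Measure.prod_restrict] at h2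
    exact h2.prod_right_ae
  have h2 : ∀ᵐ s ∂(volume.restrict (Icc 0 T)), ∀ i j,
      Integrable (fun x => G s x i j ^ 2) (volume.restrict Q) := by
    rw [ae_all_iff]
    intro i
    rw [ae_all_iff]
    exact h1 i
  have h3 : ∀ᵐ s ∂(volume.restrict (Icc 0 T)), s ∈ Icc 0 T :=
    ae_restrict_mem measurableSet_Icc
  filter_upwards [h2, h3, h.grad] with s hs1 hs2 hs3
  refine ⟨h.l2_u s hs2, fun i j => ?_, h.divfree s hs2, hs3⟩
  have h4 : Measurable fun x : V => G s x i j := by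
    have h5 : Measurable fun x : V => G s x := h.meas_G.comp measurable_prodMk_left
    exact (measurable_pi_apply j).comp ((measurable_pi_apply i).comp h5)
  exact (memLp_two_iff_integrable_sq h4.aestronglyMeasurable).2 (hs1 i j)

/-- the square of the gradient is integrable in time -/
theorem intG {n : ℕ} {ν : ℝ} {α : Fin 3 → ℝ} {T : ℝ} {u₀ : V → V} {u : ℝ → V → V}
    {G : ℝ → V → Fin 3 → Fin 3 → ℝ} (h : IsLerayHopf n ν α T u₀ u G) :
    IntegrableOn (fun s => ∫ x in Q, ∑ i, ∑ j, G s x i j ^ 2) (Icc 0 T) := by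
  have h1 : Integrable (fun z : ℝ × V => ∑ i, ∑ j, G z.1 z.2 i j ^ 2)
      (volume.restrict (Icc 0 T ×ˢ Q)) :=
    integrable_finsetSum _ fun i _ => integrable_finsetSum _ fun j _ => (h.l2_G i j).integrable_sq
  rw [Measure.volume_eq_prod, ← Measure.prod_restrict] at h1
  exact h1.integral_prod_left

/-- the energy at a positive time is at least the energy at the time `t`, plus the dissipation -/
theorem lower {n : ℕ} {ν : ℝ} {α : Fin 3 → ℝ} {T : ℝ} {f : Lp V 2 mQ} (hf : f ∈ L2s)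
    {u : ℝ → V → V} {G : ℝ → V → Fin 3 → Fin 3 → ℝ} (h : IsLerayHopf n ν α T f u G) {A : ℝ}
    (hA : ∀ δ : ℝ, 0 < δ → (∃ s ∈ Icc 0 T, 0 < s ∧ s < δ ∧ (∫ x in Q, ∑ i, u s x i ^ 2) ≤ A) ∨
      (0 ∈ Icc 0 T ∧ (∫ x in Q, ∑ i, u 0 x i ^ 2) ≤ A)) :
    (∫ x in Q, ∑ i, f x i ^ 2) ≤ A := by
  refine le_of_forall_pos_le_add fun ε hε => ?_
  obtain ⟨φ, hφ, hφε⟩ := approx hf (half_pos hε)
  have hφ2 : ∀ i, MemLp (fun x => φ x i) 2 (volume.restrict Q) := fun i =>
    memLp_cont ((continuous_apply i).comp hφ.smooth.continuous)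
  rw [expand (memLp_comp f) hφ2] at hφε
  obtain ⟨w, hw⟩ : ∃ w : ℝ → ℝ, ∀ t ∈ Icc 0 T,
      (∫ x in Q, ∑ i, u t x i * φ x i) - (∫ x in Q, ∑ i, f x i * φ x i)
        = ∫ s in (0 : ℝ)..t, w s := ⟨_, h.weak _ (test_of_smooth hφ)⟩
  have hlim := tendsto_prim w
  have h1 : ∀ᶠ s in 𝓝[>] (0 : ℝ), |∫ r in (0 : ℝ)..s, w r| < ε / 4 := by
    have h2 := hlim.abs
    rw [abs_zero] at h2
    exact h2.eventually (gt_mem_nhds (by positivity))
  obtain ⟨δ, hδ, hδ2⟩ : ∃ δ : ℝ, 0 < δ ∧ ∀ s, 0 < s → s < δ →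
      |∫ r in (0 : ℝ)..s, w r| < ε / 4 := by
    obtain ⟨δ, hδ, h3⟩ := mem_nhdsGT_iff_exists_Ioo_subset.1 h1
    exact ⟨δ, hδ, fun s h4 h5 => h3 ⟨h4, h5⟩⟩
  have h2 : ∃ s ∈ Icc 0 T, |∫ r in (0 : ℝ)..s, w r| < ε / 4 ∧
      (∫ x in Q, ∑ i, u s x i ^ 2) ≤ A := by
    rcases hA δ hδ with ⟨s, hs, hs0, hsδ, hsA⟩ | ⟨h0, h0A⟩
    · exact ⟨s, hs, hδ2 s hs0 hsδ, hsA⟩
    · refine ⟨0, h0, ?_, h0A⟩
      rw [intervalIntegral.integral_same, abs_zero]
      positivity
  obtain ⟨s, hs, hs1, hs2⟩ := h2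
  have h3 := two_le (h.l2_u s hs) hφ2
  have h4 := hw s hs
  have h5 := (abs_lt.1 hs1).1
  linarith

end Ts10

/-- **Initial values in `L²_σ`.** -/
theorem s10 (k9 : B9) : B10 := by
  intro n ν α hν hn hG T f u G hu t ht
  obtain ⟨hLH, hae⟩ := hu
  refine le_antisymm (hLH.energy t ht) ?_
  have hint := Ts10.intG hLH
  have hD0 : ∀ s, 0 ≤ ∫ x in Q, ∑ i, ∑ j, G s x i j ^ 2 := fun s =>
    integral_nonneg fun x => Finset.sum_nonneg fun i _ => Finset.sum_nonneg fun j _ => sq_nonneg _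
  have key : (∫ x in Q, ∑ i, (f.1 : V → V) x i ^ 2) ≤ (∫ x in Q, ∑ i, u t x i ^ 2)
      + 2 * (ν * ∫ s in (0 : ℝ)..t, ∫ x in Q, ∑ i, ∑ j, G s x i j ^ 2) := by
    refine Ts10.lower f.2 hLH fun δ hδ => ?_
    rcases ht.1.eq_or_lt with h0 | h0
    · right
      subst h0
      refine ⟨ht, ?_⟩
      rw [intervalIntegral.integral_same]
      linarith
    · left
      have hm : 0 < min δ t := lt_min hδ h0
      -- a good time
      have h1 : ∃ s ∈ Ioo 0 (min δ t), IsLerayHopf n ν α (T - s) (u s) (fun t => u (s + t))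
          (fun t => G (s + t)) ∧ H1s (u s) (G s) := by
        have h2 := hae.and (Ts10.ae_H1s hLH)
        by_contra h3
        push Not at h3
        have h4 : Ioo 0 (min δ t) ⊆ Icc 0 T := fun s hs =>
          ⟨hs.1.le, (hs.2.le.trans (min_le_right _ _)).trans ht.2⟩
        have h5 := ae_restrict_of_ae_restrict_of_subset h4 h2
        have h6 : ∀ᵐ s ∂(volume.restrict (Ioo 0 (min δ t))), False := by
          filter_upwards [h5, ae_restrict_mem measurableSet_Ioo] with s hs1 hs2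
          exact h3 s hs2 hs1.1 hs1.2
        rw [Filter.eventually_false_iff_eq_bot, ae_eq_bot, Measure.restrict_eq_zero,
          Real.volume_Ioo, ENNReal.ofReal_eq_zero] at h6
        linarith
      obtain ⟨s, hs, hsL, hsH⟩ := h1
      have hst : s ≤ t := (hs.2.le.trans (min_le_right _ _))
      refine ⟨s, ⟨hs.1.le, hst.trans ht.2⟩, hs.1, hs.2.trans_le (min_le_left _ _), ?_⟩
      have h2 := (k9 n ν α hν hn hG (T - s) (u s) (G s) _ _ hsH hsL).1 (t - s)
        ⟨by linarith, by linarith [ht.2]⟩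
      unfold EnergyEq at h2
      beta_reduce at h2
      rw [intervalIntegral.integral_comp_add_left
        (fun s => ∫ x in Q, ∑ i, ∑ j, G s x i j ^ 2) s, add_zero, add_sub_cancel] at h2
      have h3 : (∫ r in (0 : ℝ)..t, ∫ x in Q, ∑ i, ∑ j, G r x i j ^ 2) =
          (∫ r in (0 : ℝ)..s, ∫ x in Q, ∑ i, ∑ j, G r x i j ^ 2) +
            ∫ r in s..t, ∫ x in Q, ∑ i, ∑ j, G r x i j ^ 2 := by
        rw [intervalIntegral.integral_add_adjacent_intervals]
        · rw [intervalIntegrable_iff_integrableOn_Icc_of_le hs.1.le]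
          exact hint.mono_set (Icc_subset_Icc_right (hst.trans ht.2))
        · rw [intervalIntegrable_iff_integrableOn_Icc_of_le hst]
          exact hint.mono_set (Icc_subset_Icc hs.1.le ht.2)
      have h4 : 0 ≤ ∫ r in (0 : ℝ)..s, ∫ x in Q, ∑ i, ∑ j, G r x i j ^ 2 :=
        intervalIntegral.integral_nonneg hs.1.le fun r _ => hD0 r
      rw [h3]
      nlinarith [mul_nonneg hν.le h4]
  linarith

end Pool.Agent.H303.DEE
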