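import Pool.Agent.H303.DEE.Stm2
import Pool.Graph.R_seed8.H459R3.NS.Evo

/-!
DEE S2: the balance of the enstrophy of smooth solutions (helper289).
-/

open MeasureTheory Set Filter Topology
open scoped ContDiff

namespace Pool.Agent.H303.DEE.S2

open H459R3.NS hiding V IsSol

lemma pD_zero (j : Fin 3) (f : V → ℝ) : partialD 0 j f = f := by
  funext x
  unfold partialD
  rw [iteratedFDeriv_zero_apply]

lemma pD_succ {n : ℕ} {f : V → ℝ} (hf : ContDiff ℝ ∞ f) (j : Fin 3) :
    partialD (n + 1) j f = pd j (partialD n j f) := by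
  funext x
  unfold partialD
  rw [iteratedFDeriv_succ_apply_left]
  unfold pd
  have hd : DifferentiableAt ℝ (iteratedFDeriv ℝ n f) x :=
    (hf.differentiable_iteratedFDeriv (by exact_mod_cast WithTop.coe_lt_top n)) x
  have h1 : HasFDerivAt (fun y => iteratedFDeriv ℝ n f y
      (fun _ => Pi.single j (1 : ℝ)))
      ((ContinuousMultilinearMap.apply ℝ (fun _ : Fin n => V) ℝ
        (fun _ => Pi.single j (1 : ℝ))).comp
          (fderiv ℝ (iteratedFDeriv ℝ n f) x)) x :=
    (ContinuousMultilinearMap.apply ℝ (fun _ : Fin n => V) ℝ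
        (fun _ => Pi.single j (1 : ℝ))).hasFDerivAt.comp x hd.hasFDerivAt
  rw [h1.fderiv]
  rfl

lemma pD_one {f : V → ℝ} (hf : ContDiff ℝ ∞ f) (j : Fin 3) : partialD 1 j f = pd j f := by
  rw [pD_succ hf, pD_zero]

lemma pD_two {f : V → ℝ} (hf : ContDiff ℝ ∞ f) (j : Fin 3) :
    partialD 2 j f = pd j (pd j f) := by
  rw [pD_succ hf, pD_succ hf, pD_zero]

lemma sp_pD {n : ℕ} (j : Fin 3) {f : V → ℝ} (hf : SP f) : SP (partialD n j f) := by
  induction n with
  | zero => rw [pD_zero]; exact hf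
  | succ n ih => rw [pD_succ hf.smooth]; exact ih.pd j

lemma pD_pd {n : ℕ} (j : Fin 3) {f : V → ℝ} (hf : SP f) :
    partialD n j (pd j f) = partialD (n + 1) j f := by
  induction n with
  | zero => rw [pD_zero, pD_one hf.smooth]
  | succ n ih => rw [pD_succ (hf.pd j).smooth, ih, ← pD_succ hf.smooth]

lemma ibp_n {n : ℕ} (j : Fin 3) {f : V → ℝ} (hf : SP f) : ∀ {g : V → ℝ}, SP g →
    ∫ x in cube, g x * partialD n j f x = (-1) ^ n * ∫ x in cube, partialD n j g x * f x := by
  induction n with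
  | zero => intro g _; rw [pD_zero, pD_zero, pow_zero, one_mul]
  | succ n ih =>
    intro g hg
    have h1 := ibp (sp_pD (n := n) j hf) hg j
    have h2 := ih (hg.pd j)
    rw [pD_pd j hg] at h2
    have h3 : ∫ x in cube, g x * partialD (n + 1) j f x =
        ∫ x in cube, pd j (partialD n j f) x * g x := by
      rw [pD_succ hf.smooth]
      simp_rw [mul_comm]
    have h4 : ∫ x in cube, partialD n j f x * pd j g x =
        ∫ x in cube, pd j g x * partialD n j f x := by
      simp_rw [mul_comm]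
    rw [h3, h1, h4, h2, pow_succ]
    ring

lemma lap_pd {f : V → ℝ} (hf : SP f) (j : Fin 3) : lap (pd j f) = pd j (lap f) := by
  funext x
  unfold lap
  rw [pd_sum (fun k _ => (hf.pd k).pd k) j x]
  refine Finset.sum_congr rfl fun k _ => ?_
  rw [pd_comm (hf.pd k) j k, pd_comm hf j k]

lemma lap_pD {n : ℕ} (j : Fin 3) {f : V → ℝ} (hf : SP f) :
    lap (partialD n j f) = partialD n j (lap f) := by
  induction n with
  | zero => rw [pD_zero, pD_zero]
  | succ n ih =>
    rw [pD_succ hf.smooth, pD_succ hf.lap.smooth, lap_pd (sp_pD j hf), ih]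

lemma lap_symm {f g : V → ℝ} (hf : SP f) (hg : SP g) :
    ∫ x in cube, lap f x * g x = ∫ x in cube, lap g x * f x := by
  rw [int_lap_mul hf hg, int_lap_mul hg hf]
  congr 1
  refine Finset.sum_congr rfl fun j _ => ?_
  simp_rw [mul_comm]

lemma int4 {a b c d : V → ℝ} (ha : IntegrableOn a cube) (hb : IntegrableOn b cube)
    (hc : IntegrableOn c cube) (hd : IntegrableOn d cube) :
    ∫ x in cube, (a x + b x - c x - d x) =
      (∫ x in cube, a x) + (∫ x in cube, b x) - (∫ x in cube, c x) - ∫ x in cube, d x := by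
  rw [integral_sub (f := fun x => a x + b x - c x) ((ha.add hb).sub hc) hd,
    integral_sub (f := fun x => a x + b x) (ha.add hb) hc, integral_add ha hb]

lemma int_lap_pD {n : ℕ} (hn : Odd n) (j : Fin 3) {f : V → ℝ} (hf : SP f) :
    ∫ x in cube, lap f x * partialD n j f x = 0 := by
  have h1 := ibp_n (n := n) j hf hf.lap
  rw [hn.neg_one_pow, ← lap_pD j hf, lap_symm (sp_pD j hf) hf] at h1
  linarith

section sol

variable {n : ℕ} {ν : ℝ} {α : Fin 3 → ℝ} {v : ℝ → V → V} {p : ℝ → V → ℝ}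

/-- the components -/
def w (v : ℝ → V → V) (i : Fin 3) (s : ℝ) (x : V) : ℝ := v s x i

lemma w_smooth (h : IsSol n ν α (Ici 0) v p) (T : ℝ) (i : Fin 3) :
    ContDiffOn ℝ ∞ (fun z : ℝ × V => w v i z.1 z.2) (Ico 0 T ×ˢ univ) := by
  have h0 : Ico 0 T ×ˢ (univ : Set V) ⊆ Ici 0 ×ˢ univ := fun z hz => ⟨hz.1.1, hz.2⟩
  exact (contDiffOn_pi.1 (h.smooth_u.mono h0)) i

lemma p_smooth (h : IsSol n ν α (Ici 0) v p) (T : ℝ) :
    ContDiffOn ℝ ∞ (fun z : ℝ × V => p z.1 z.2) (Ico 0 T ×ˢ univ) :=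
  h.smooth_p.mono fun _ hz => ⟨hz.1.1, hz.2⟩

lemma sp_w (h : IsSol n ν α (Ici 0) v p) (i : Fin 3) {s : ℝ} (hs : 0 ≤ s) : SP (w v i s) where
  smooth := contDiff_slice (w_smooth h (s + 1) i) ⟨hs, by linarith⟩
  per := fun j x => congrFun (h.per_u s hs j x) i

lemma sp_p (h : IsSol n ν α (Ici 0) v p) {s : ℝ} (hs : 0 ≤ s) : SP (p s) where
  smooth := contDiff_slice (p_smooth h (s + 1)) ⟨hs, by linarith⟩
  per := fun j x => h.per_p s hs j x

lemma sp_dt (h : IsSol n ν α (Ici 0) v p) (i : Fin 3) {s : ℝ} (hs : 0 < s) :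
    SP (dt (w v i) s) where
  smooth := contDiff_dt (w_smooth h (s + 1) i) ⟨hs, by linarith⟩
  per := fun j x => by
    unfold dt
    apply Filter.EventuallyEq.deriv_eq
    filter_upwards [Ioi_mem_nhds hs] with r hr
    exact congrFun (h.per_u r (show (0 : ℝ) ≤ r from le_of_lt hr) j x) i

lemma hdiv (h : IsSol n ν α (Ici 0) v p) {s : ℝ} (hs : 0 ≤ s) (x : V) :
    ∑ i, pd i (w v i s) x = 0 := by
  rw [← h.divfree s hs x]
  refine Finset.sum_congr rfl fun j _ => ?_
  exact (congrFun (pD_one (sp_w h j hs).smooth j) x).symm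

lemma grd_eq (h : IsSol n ν α (Ici 0) v p) {s : ℝ} (hs : 0 ≤ s) (x : V) (i j : Fin 3) :
    grd v s x i j = pd j (w v i s) x := congrFun (pD_one (sp_w h i hs).smooth j) x

lemma lap_eq (h : IsSol n ν α (Ici 0) v p) {s : ℝ} (hs : 0 ≤ s) (x : V) (i : Fin 3) :
    ∑ j, partialD 2 j (fun y => v s y i) x = lap (w v i s) x := by
  unfold lap
  refine Finset.sum_congr rfl fun j _ => ?_
  exact congrFun (pD_two (sp_w h i hs).smooth j) x

lemma dt_w (h : IsSol n ν α (Ici 0) v p) {s : ℝ} (hs : 0 < s) (x : V) (i : Fin 3) :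
    dt (w v i) s x = ν * lap (w v i s) x + ∑ j, α j * partialD n j (w v i s) x
      - pd i (p s) x - conv (fun i => w v i s) i x := by
  have h1 := h.momentum s hs.le hs x i
  rw [lap_eq h hs.le x i] at h1
  have h2 : partialD 1 i (p s) x = pd i (p s) x := congrFun (pD_one (sp_p h hs.le).smooth i) x
  rw [h2] at h1
  have h3 : ∑ j, v s x j * partialD 1 j (fun y => v s y i) x = conv (fun i => w v i s) i x := by
    unfold conv
    refine Finset.sum_congr rfl fun j _ => ?_
    have h4 := grd_eq h hs.le x i j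
    unfold grd at h4
    rw [h4]
    rfl
  rw [h3] at h1
  have h5 : deriv (fun r => v r x i) s = dt (w v i) s x := rfl
  rw [h5] at h1
  have h6 : ∑ j, α j * partialD n j (fun y => v s y i) x =
      ∑ j, α j * partialD n j (w v i s) x := rfl
  rw [h6] at h1
  linarith

/-- the square of the gradient -/
noncomputable def EN (v : ℝ → V → V) (s : ℝ) : ℝ := ∑ i, ∑ j, ∫ x in cube, pd j (w v i s) x ^ 2

/-- the square of the Laplacian -/
noncomputable def PA (v : ℝ → V → V) (s : ℝ) : ℝ := ∑ i, ∫ x in cube, lap (w v i s) x ^ 2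

/-- the cubic term -/
noncomputable def CU (v : ℝ → V → V) (s : ℝ) : ℝ :=
  ∑ i, ∫ x in cube, lap (w v i s) x * conv (fun i => w v i s) i x

lemma sp_sq {f : V → ℝ} (hf : SP f) : SP fun x => f x ^ 2 := by
  have := hf.mul hf
  simp_rw [← pow_two] at this
  exact this

lemma EN_eq (h : IsSol n ν α (Ici 0) v p) {s : ℝ} (hs : 0 ≤ s) :
    ∫ x in Q, ∑ i, ∑ j, grd v s x i j ^ 2 = EN v s := by
  unfold EN
  have h1 : ∀ x, ∑ i, ∑ j, grd v s x i j ^ 2 = ∑ i, ∑ j, pd j (w v i s) x ^ 2 := by
    intro x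
    refine Finset.sum_congr rfl fun i _ => Finset.sum_congr rfl fun j _ => ?_
    rw [grd_eq h hs x i j]
  simp_rw [h1]
  show ∫ x in cube, ∑ i, ∑ j, pd j (w v i s) x ^ 2 = _
  rw [integral_finsetSum _ fun i _ => (SP.sum fun j _ => sp_sq ((sp_w h i hs).pd j)).int]
  refine Finset.sum_congr rfl fun i _ => ?_
  rw [integral_finsetSum _ fun j _ => (sp_sq ((sp_w h i hs).pd j)).int]

lemma PA_eq (h : IsSol n ν α (Ici 0) v p) {s : ℝ} (hs : 0 ≤ s) :
    ∫ x in Q, ∑ i, (∑ j, partialD 2 j (fun y => v s y i) x) ^ 2 = PA v s := by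
  unfold PA
  simp_rw [lap_eq h hs]
  show ∫ x in cube, ∑ i, lap (w v i s) x ^ 2 = _
  rw [integral_finsetSum _ fun i _ => (sp_sq (sp_w h i hs).lap).int]

lemma CU_eq (h : IsSol n ν α (Ici 0) v p) {s : ℝ} (hs : 0 ≤ s) :
    ∫ x in Q, ∑ i, (∑ j, partialD 2 j (fun y => v s y i) x) * ∑ j, v s x j * grd v s x i j
      = CU v s := by
  unfold CU
  simp_rw [lap_eq h hs, grd_eq h hs]
  show ∫ x in cube, ∑ i, lap (w v i s) x * conv (fun i => w v i s) i x = _
  rw [integral_finsetSum _ fun i _ =>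
    ((sp_w h i hs).lap.mul (sp_conv (fun i => sp_w h i hs) i)).int]

lemma EN_cont (h : IsSol n ν α (Ici 0) v p) (T : ℝ) : ContinuousOn (EN v) (Ico 0 T) := by
  unfold EN
  refine continuousOn_finsetSum _ fun i _ => continuousOn_finsetSum _ fun j _ => ?_
  refine continuousOn_int (F := fun s x => pd j (w v i s) x ^ 2) ?_
  exact ((contDiffOn_pd (w_smooth h T i) j).continuousOn).pow 2

lemma lap_smooth (h : IsSol n ν α (Ici 0) v p) (T : ℝ) (i : Fin 3) :
    ContinuousOn (fun z : ℝ × V => lap (w v i z.1) z.2) (Ico 0 T ×ˢ univ) := by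
  unfold lap
  refine continuousOn_finsetSum _ fun j _ => ?_
  exact (contDiffOn_pd (f := fun s => pd j (w v i s))
    (contDiffOn_pd (w_smooth h T i) j) j).continuousOn

lemma PA_cont (h : IsSol n ν α (Ici 0) v p) (T : ℝ) : ContinuousOn (PA v) (Ico 0 T) := by
  unfold PA
  refine continuousOn_finsetSum _ fun i _ => ?_
  refine continuousOn_int (F := fun s x => lap (w v i s) x ^ 2) ?_
  exact (lap_smooth h T i).pow 2

lemma CU_cont (h : IsSol n ν α (Ici 0) v p) (T : ℝ) : ContinuousOn (CU v) (Ico 0 T) := by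
  unfold CU
  refine continuousOn_finsetSum _ fun i _ => ?_
  refine continuousOn_int (F := fun s x => lap (w v i s) x * conv (fun i => w v i s) i x) ?_
  refine (lap_smooth h T i).mul ?_
  unfold conv
  refine continuousOn_finsetSum _ fun j _ => ?_
  exact (w_smooth h T j).continuousOn.mul (contDiffOn_pd (w_smooth h T i) j).continuousOn

lemma EN_deriv (hn : Odd n) (h : IsSol n ν α (Ici 0) v p) {s : ℝ} (hs : 0 < s) :
    HasDerivAt (EN v) (2 * (-(ν * PA v s) + CU v s)) s := by
  have hmem : s ∈ Ioo 0 (s + 1) := ⟨hs, by linarith⟩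
  have h1 : ∀ i j, HasDerivAt (fun r => ∫ x in cube, pd j (w v i r) x ^ 2)
      (2 * ∫ x in cube, pd j (w v i s) x * pd j (dt (w v i) s) x) s := by
    intro i j
    have hF : ContDiffOn ℝ ∞ (fun z : ℝ × V => pd j (w v i z.1) z.2) (Ico 0 (s + 1) ×ˢ univ) :=
      contDiffOn_pd (w_smooth h (s + 1) i) j
    have hF2 : ContDiffOn ℝ 1 (fun z : ℝ × V => (fun r x => pd j (w v i r) x ^ 2) z.1 z.2)
        (Ioo 0 (s + 1) ×ˢ univ) :=
      mono_Ioo (f := fun r x => pd j (w v i r) x ^ 2) (hF.pow 2) (by norm_cast)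
    have h2 := hasDerivAt_int (F := fun r x => pd j (w v i r) x ^ 2) hF2 hmem
    have h3 : ∫ x in cube, deriv (fun r => pd j (w v i r) x ^ 2) s =
        2 * ∫ x in cube, pd j (w v i s) x * pd j (dt (w v i) s) x := by
      rw [← integral_const_mul]
      congr 1
      funext x
      have hF1 : ContDiffOn ℝ 1 (fun z : ℝ × V => pd j (w v i z.1) z.2)
          (Ioo 0 (s + 1) ×ˢ univ) :=
        mono_Ioo (f := fun r x => pd j (w v i r) x) hF (by norm_cast)
      have h4 := hasDerivAt_slice (F := fun r x => pd j (w v i r) x) hF1 hmem x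
      have h5 : HasDerivAt (fun r => pd j (w v i r) x)
          (dt (fun r => pd j (w v i r)) s x) s := by
        have h6 := h4.differentiableAt.hasDerivAt
        exact h6
      have h7 := (h5.pow 2).deriv
      rw [dt_pd (w_smooth h (s + 1) i) hmem j x] at h7
      rw [show (fun r => pd j (w v i r) x ^ 2) = (fun r => pd j (w v i r) x) ^ 2 from rfl, h7]
      simp
      ring
    rw [← h3]
    exact h2
  have h2 : HasDerivAt (EN v)
      (∑ i, ∑ j, 2 * ∫ x in cube, pd j (w v i s) x * pd j (dt (w v i) s) x) s := by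
    unfold EN
    exact HasDerivAt.fun_sum fun i _ => HasDerivAt.fun_sum fun j _ => h1 i j
  have hw := fun i => sp_w h i hs.le
  have hP := sp_p h hs.le
  have h3 : ∀ i, ∑ j, 2 * ∫ x in cube, pd j (w v i s) x * pd j (dt (w v i) s) x =
      2 * (-(ν * ∫ x in cube, lap (w v i s) x ^ 2)
        + (∫ x in cube, lap (w v i s) x * pd i (p s) x)
        + ∫ x in cube, lap (w v i s) x * conv (fun i => w v i s) i x) := by
    intro i
    rw [← Finset.mul_sum]
    congr 1
    have h4 := int_lap_mul (hw i) (sp_dt h i hs)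
    have h5 : ∑ j, ∫ x in cube, pd j (w v i s) x * pd j (dt (w v i) s) x =
        -∫ x in cube, lap (w v i s) x * dt (w v i) s x := by
      rw [h4, neg_neg]
    rw [h5]
    have h6 : ∀ x, lap (w v i s) x * dt (w v i) s x =
        ν * lap (w v i s) x ^ 2 + ∑ j, α j * (lap (w v i s) x * partialD n j (w v i s) x)
          - lap (w v i s) x * pd i (p s) x
          - lap (w v i s) x * conv (fun i => w v i s) i x := by
      intro x
      rw [dt_w h hs x i]
      have : ∑ j, α j * (lap (w v i s) x * partialD n j (w v i s) x) =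
          lap (w v i s) x * ∑ j, α j * partialD n j (w v i s) x := by
        rw [Finset.mul_sum]
        exact Finset.sum_congr rfl fun j _ => by ring
      rw [this]
      ring
    simp_rw [h6]
    have i1 : IntegrableOn (fun x => ν * lap (w v i s) x ^ 2) cube :=
      (sp_sq (hw i).lap).int.const_mul ν
    have i2 : ∀ j, IntegrableOn (fun x => α j * (lap (w v i s) x * partialD n j (w v i s) x))
        cube := fun j => ((hw i).lap.mul (sp_pD j (hw i))).int.const_mul (α j)
    have i2' : IntegrableOn (fun x => ∑ j, α j * (lap (w v i s) x * partialD n j (w v i s) x))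
        cube := integrable_finsetSum _ fun j _ => i2 j
    have i3 : IntegrableOn (fun x => lap (w v i s) x * pd i (p s) x) cube :=
      ((hw i).lap.mul (hP.pd i)).int
    have i4 : IntegrableOn (fun x => lap (w v i s) x * conv (fun i => w v i s) i x) cube :=
      ((hw i).lap.mul (sp_conv hw i)).int
    rw [int4 i1 i2' i3 i4, integral_const_mul, integral_finsetSum _ fun j _ => i2 j]
    have h7 : ∑ j, ∫ x in cube, α j * (lap (w v i s) x * partialD n j (w v i s) x) = 0 := by
      refine Finset.sum_eq_zero fun j _ => ?_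
      rw [integral_const_mul, int_lap_pD hn j (hw i), mul_zero]
    rw [h7]
    ring
  have h4 : ∑ i, ∑ j, 2 * ∫ x in cube, pd j (w v i s) x * pd j (dt (w v i) s) x =
      2 * (-(ν * PA v s) + CU v s) := by
    simp_rw [h3]
    rw [← Finset.mul_sum, Finset.sum_add_distrib, Finset.sum_add_distrib,
      int_lap_press hw (hdiv h hs.le) hP, Finset.sum_neg_distrib, ← Finset.mul_sum, add_zero]
    rfl
  rw [← h4]
  exact h2

end sol

end Pool.Agent.H303.DEE.S2

namespace Pool.Agent.H303.DEE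

open S2

theorem s2 (_h0 : A0) : B2 := by
  intro n ν α v p hn h t ht
  rw [EN_eq h ht, EN_eq h le_rfl]
  have hu : uIcc 0 t = Icc 0 t := uIcc_of_le ht
  have e1 : ∫ s in (0 : ℝ)..t, ∫ x in Q, ∑ i, (∑ j, partialD 2 j (fun y => v s y i) x) ^ 2
      = ∫ s in (0 : ℝ)..t, PA v s := by
    refine intervalIntegral.integral_congr fun s hs => ?_
    rw [hu] at hs
    exact PA_eq h hs.1
  have e2 : ∫ s in (0 : ℝ)..t, ∫ x in Q, ∑ i, (∑ j, partialD 2 j (fun y => v s y i) x)
            * ∑ j, v s x j * grd v s x i j = ∫ s in (0 : ℝ)..t, CU v s := by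
    refine intervalIntegral.integral_congr fun s hs => ?_
    rw [hu] at hs
    exact CU_eq h hs.1
  rw [e1, e2]
  have hsub : Icc 0 t ⊆ Ico 0 (t + 1) := fun s hs => ⟨hs.1, by linarith [hs.2]⟩
  have iP : IntervalIntegrable (PA v) volume 0 t :=
    ((PA_cont h (t + 1)).mono (by rw [hu]; exact hsub)).intervalIntegrable
  have iC : IntervalIntegrable (CU v) volume 0 t :=
    ((CU_cont h (t + 1)).mono (by rw [hu]; exact hsub)).intervalIntegrable
  have key := intervalIntegral.integral_eq_sub_of_hasDerivAt_of_le ht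
    ((EN_cont h (t + 1)).mono hsub) (f' := fun s => 2 * (-(ν * PA v s) + CU v s))
    (fun s hs => EN_deriv hn h hs.1) (((iP.const_mul ν).neg.add iC).const_mul 2)
  have e3 : ∫ s in (0 : ℝ)..t, 2 * (-(ν * PA v s) + CU v s) =
      2 * (-(ν * ∫ s in (0 : ℝ)..t, PA v s) + ∫ s in (0 : ℝ)..t, CU v s) := by
    rw [intervalIntegral.integral_const_mul, intervalIntegral.integral_add
      (f := fun s => -(ν * PA v s)) (iP.const_mul ν).neg iC,
      intervalIntegral.integral_neg, intervalIntegral.integral_const_mul]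
  rw [e3] at key
  linarith

end Pool.Agent.H303.DEE
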