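import Pool.Agent.H303.DEE.Stm2

/-!
Project DEE (helper303), task S3 (helper176): the bound of the second derivatives.
-/

set_option autoImplicit false

open MeasureTheory Set Filter Topology
open scoped ContDiff ENNReal

namespace Pool.Agent.H303.DEE

namespace S3

theorem compQ : IsCompact Q := isCompact_Icc

/-- continuity of parameter integrals for the times `≥ 0` -/
theorem cont_int {F : ℝ → V → ℝ} (hF : ContinuousOn (fun z : ℝ × V => F z.1 z.2) (Ici 0 ×ˢ univ)) :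
    ContinuousOn (fun s => ∫ x in Q, F s x) (Ici 0) := by
  have hc : Continuous (fun z : ℝ × V => F (max z.1 0) z.2) :=
    hF.comp_continuous (f := fun z : ℝ × V => (max z.1 0, z.2)) (by fun_prop)
      (fun z => ⟨mem_Ici.2 (le_max_right _ _), mem_univ _⟩)
  have h : Continuous (fun s => ∫ x in Q, F (max s 0) x) :=
    continuous_parametric_integral_of_continuous (μ := volume) (f := fun s x => F (max s 0) x) hc compQ
  refine h.continuousOn.congr fun s hs => ?_
  simp only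
  rw [max_eq_left (mem_Ici.1 hs)]

theorem ii {f : ℝ → ℝ} (hf : ContinuousOn f (Ici 0)) {t : ℝ} (ht : 0 ≤ t) :
    IntervalIntegrable f volume 0 t := by
  refine (hf.mono ?_).intervalIntegrable
  rw [uIcc_of_le ht]
  exact Icc_subset_Ici_self

theorem intQ {F : ℝ → V → ℝ} (hF : ContinuousOn (fun z : ℝ × V => F z.1 z.2) (Ici 0 ×ˢ univ))
    {s : ℝ} (hs : 0 ≤ s) : IntegrableOn (F s) Q := by
  refine ContinuousOn.integrableOn_compact compQ ?_
  have hc : Continuous (F s) :=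
    hF.comp_continuous (f := fun x : V => (s, x)) (by fun_prop) (fun z => ⟨mem_Ici.2 hs, mem_univ _⟩)
  exact hc.continuousOn

theorem point (ν S : ℝ) (hν : 0 < ν) (l v : Fin 3 → ℝ) (g : Fin 3 → Fin 3 → ℝ)
    (hS : ∑ i, v i ^ 2 ≤ S) :
    ∑ i, l i * ∑ j, v j * g i j ≤ ν / 4 * (∑ i, l i ^ 2) + 1 / ν * S * ∑ i, ∑ j, g i j ^ 2 := by
  rw [Finset.mul_sum, Finset.mul_sum, ← Finset.sum_add_distrib]
  refine Finset.sum_le_sum fun i _ => ?_
  have h1 : (∑ j, v j * g i j) ^ 2 ≤ (∑ j, v j ^ 2) * ∑ j, g i j ^ 2 :=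
    Finset.sum_mul_sq_le_sq_mul_sq _ _ _
  have h2 : (∑ j, v j ^ 2) * ∑ j, g i j ^ 2 ≤ S * ∑ j, g i j ^ 2 :=
    mul_le_mul_of_nonneg_right hS (Finset.sum_nonneg fun j _ => sq_nonneg _)
  set w := ∑ j, v j * g i j with hw
  have h3 : l i * w ≤ ν / 4 * l i ^ 2 + 1 / ν * w ^ 2 := by
    have h4 : 0 ≤ (ν / 2 * l i - w) ^ 2 / ν := by positivity
    have h5 : (ν / 2 * l i - w) ^ 2 / ν = ν / 4 * l i ^ 2 + 1 / ν * w ^ 2 - l i * w := by
      field_simp
      ring
    linarith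
  have h6 : 1 / ν * w ^ 2 ≤ 1 / ν * (S * ∑ j, g i j ^ 2) :=
    mul_le_mul_of_nonneg_left (h1.trans h2) (by positivity)
  calc l i * w ≤ ν / 4 * l i ^ 2 + 1 / ν * w ^ 2 := h3
    _ ≤ ν / 4 * l i ^ 2 + 1 / ν * (S * ∑ j, g i j ^ 2) := by linarith
    _ = _ := by ring

end S3

open S3 in
/-- **S3**: the bound of the second derivatives -/
theorem s3 (h0 : A0) (h4 : A4) (h1 : B1) (h2 : B2) : B3 := by
  intro ν E M T hν
  have hε : 0 < ν ^ 2 / (4 * (|M| + 1)) := by positivity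
  obtain ⟨C, hC0, hC⟩ := h1 (ν ^ 2 / (4 * (|M| + 1))) hε
  refine ⟨2 / ν * (|M| / 2 + |T| * (1 / ν * (C * |E|) * |M|)), ?_⟩
  intro n α v p hn hsol hE hM t ht
  obtain ⟨c1, c2, c3⟩ := h0 v hsol.smooth_u
  have ht0 : 0 ≤ t := ht.1
  -- continuity
  have cl : ∀ i, ContinuousOn (fun z : ℝ × V => ∑ j, partialD 2 j (fun y => v z.1 y i) z.2)
      (Ici 0 ×ˢ univ) := fun i => continuousOn_finsetSum _ fun j _ => c3 i j 2
  have cv : ∀ i, ContinuousOn (fun z : ℝ × V => v z.1 z.2 i) (Ici 0 ×ˢ univ) := fun i =>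
    (continuous_apply i).comp_continuousOn hsol.smooth_u.continuousOn
  have F1 : ContinuousOn (fun z : ℝ × V => ∑ i, (∑ j, partialD 2 j (fun y => v z.1 y i) z.2) ^ 2)
      (Ici 0 ×ˢ univ) := continuousOn_finsetSum _ fun i _ => (cl i).pow 2
  have F2 : ContinuousOn (fun z : ℝ × V => ∑ i, ∑ j, grd v z.1 z.2 i j ^ 2) (Ici 0 ×ˢ univ) :=
    continuousOn_finsetSum _ fun i _ => continuousOn_finsetSum _ fun j _ => (c2 i j).pow 2
  have F3 : ContinuousOn (fun z : ℝ × V => ∑ i, (∑ j, partialD 2 j (fun y => v z.1 y i) z.2) *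
      ∑ j, v z.1 z.2 j * grd v z.1 z.2 i j) (Ici 0 ×ˢ univ) :=
    continuousOn_finsetSum _ fun i _ => (cl i).mul
      (continuousOn_finsetSum _ fun j _ => (cv j).mul (c2 i j))
  have hL := cont_int (F := fun s x => ∑ i, (∑ j, partialD 2 j (fun y => v s y i) x) ^ 2) F1
  have hN := cont_int (F := fun s x => ∑ i, (∑ j, partialD 2 j (fun y => v s y i) x) *
      ∑ j, v s x j * grd v s x i j) F3
  -- energy
  have hen : ∀ s, 0 ≤ s → (∫ x in Q, ∑ i, v s x i ^ 2) ≤ |E| := by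
    intro s hs
    have h5 := h4 n ν α v p hn hsol s hs
    unfold EnergyEq at h5
    have h6 : 0 ≤ ∫ r in (0 : ℝ)..s, ∫ x in Q, ∑ i, ∑ j, grd v r x i j ^ 2 :=
      intervalIntegral.integral_nonneg hs fun r _ => integral_nonneg fun x =>
        Finset.sum_nonneg fun i _ => Finset.sum_nonneg fun j _ => sq_nonneg _
    have h7 : 0 ≤ ν * ∫ r in (0 : ℝ)..s, ∫ x in Q, ∑ i, ∑ j, grd v r x i j ^ 2 := mul_nonneg hν.le h6
    have h8 := le_abs_self E
    linarith
  -- the inequality at one time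
  have hkey : ∀ s ∈ Icc (0 : ℝ) t, (∫ x in Q, ∑ i, (∑ j, partialD 2 j (fun y => v s y i) x) *
      ∑ j, v s x j * grd v s x i j) ≤
      ν / 2 * (∫ x in Q, ∑ i, (∑ j, partialD 2 j (fun y => v s y i) x) ^ 2) +
        1 / ν * (C * |E|) * |M| := by
    intro s hs
    have hsM := hM s ⟨hs.1, hs.2.trans ht.2⟩
    set L := ∫ x in Q, ∑ i, (∑ j, partialD 2 j (fun y => v s y i) x) ^ 2 with hLd
    have hL0 : 0 ≤ L := integral_nonneg fun x => Finset.sum_nonneg fun i _ => sq_nonneg _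
    set ε := ν ^ 2 / (4 * (|M| + 1)) with hεd
    have hS : ∀ x, ∑ i, v s x i ^ 2 ≤ C * |E| + ε * L := by
      intro x
      have h5 := hC (v s) (c1 s hs.1) (hsol.per_u s hs.1) x
      have h6 := mul_le_mul_of_nonneg_left (hen s hs.1) hC0
      linarith
    have hS0 : 0 ≤ C * |E| + ε * L := by positivity
    have i1 := intQ (F := fun s x => ∑ i, (∑ j, partialD 2 j (fun y => v s y i) x) ^ 2) F1 hs.1
    have i2 := intQ (F := fun s x => ∑ i, ∑ j, grd v s x i j ^ 2) F2 hs.1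
    have i3 := intQ (F := fun s x => ∑ i, (∑ j, partialD 2 j (fun y => v s y i) x) *
      ∑ j, v s x j * grd v s x i j) F3 hs.1
    have h5 : (∫ x in Q, ∑ i, (∑ j, partialD 2 j (fun y => v s y i) x) *
        ∑ j, v s x j * grd v s x i j) ≤ ∫ x in Q, (ν / 4 *
          (∑ i, (∑ j, partialD 2 j (fun y => v s y i) x) ^ 2) +
          1 / ν * (C * |E| + ε * L) * ∑ i, ∑ j, grd v s x i j ^ 2) := by
      refine integral_mono i3 ((i1.const_mul _).add (i2.const_mul _)) fun x => ?_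
      exact point ν _ hν (fun i => ∑ j, partialD 2 j (fun y => v s y i) x) (v s x)
        (fun i j => grd v s x i j) (hS x)
    rw [integral_add (i1.const_mul _) (i2.const_mul _), integral_const_mul, integral_const_mul] at h5
    have h6 : 1 / ν * (C * |E| + ε * L) * (∫ x in Q, ∑ i, ∑ j, grd v s x i j ^ 2) ≤
        1 / ν * (C * |E| + ε * L) * |M| :=
      mul_le_mul_of_nonneg_left (hsM.trans (le_abs_self M)) (by positivity)
    have h7 : 1 / ν * (ε * L) * |M| ≤ ν / 4 * L := by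
      have h8 : 1 / ν * ε * |M| ≤ ν / 4 := by
        rw [hεd]
        have h9 : 1 / ν * (ν ^ 2 / (4 * (|M| + 1))) * |M| = ν / 4 * (|M| / (|M| + 1)) := by
          field_simp
        rw [h9]
        have h10 : |M| / (|M| + 1) ≤ 1 := by
          rw [div_le_one (by positivity)]
          linarith
        calc ν / 4 * (|M| / (|M| + 1)) ≤ ν / 4 * 1 := mul_le_mul_of_nonneg_left h10 (by positivity)
          _ = ν / 4 := mul_one _
      calc 1 / ν * (ε * L) * |M| = (1 / ν * ε * |M|) * L := by ring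
        _ ≤ ν / 4 * L := mul_le_mul_of_nonneg_right h8 hL0
    have h11 : 1 / ν * (C * |E| + ε * L) * |M| = 1 / ν * (C * |E|) * |M| + 1 / ν * (ε * L) * |M| := by
      ring
    linarith
  -- integration in time
  have hint : (∫ s in (0 : ℝ)..t, ∫ x in Q, ∑ i, (∑ j, partialD 2 j (fun y => v s y i) x) *
      ∑ j, v s x j * grd v s x i j) ≤
      ν / 2 * (∫ s in (0 : ℝ)..t, ∫ x in Q, ∑ i, (∑ j, partialD 2 j (fun y => v s y i) x) ^ 2) +
        t * (1 / ν * (C * |E|) * |M|) := by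
    have h5 := intervalIntegral.integral_mono_on ht0 (ii hN ht0)
      (((ii hL ht0).const_mul (ν / 2)).add intervalIntegrable_const) hkey
    rw [intervalIntegral.integral_add ((ii hL ht0).const_mul (ν / 2)) intervalIntegrable_const,
      intervalIntegral.integral_const_mul, intervalIntegral.integral_const, sub_zero, smul_eq_mul] at h5
    exact h5
  have hbal := h2 n ν α v p hn hsol t ht0
  have hG0 := hM 0 ⟨le_rfl, ht0.trans ht.2⟩
  have hGt : 0 ≤ ∫ x in Q, ∑ i, ∑ j, grd v t x i j ^ 2 := integral_nonneg fun x =>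
    Finset.sum_nonneg fun i _ => Finset.sum_nonneg fun j _ => sq_nonneg _
  have hMa := le_abs_self M
  have htT : t * (1 / ν * (C * |E|) * |M|) ≤ |T| * (1 / ν * (C * |E|) * |M|) :=
    mul_le_mul_of_nonneg_right (ht.2.trans (le_abs_self T)) (by positivity)
  set LL := ∫ s in (0 : ℝ)..t, ∫ x in Q, ∑ i, (∑ j, partialD 2 j (fun y => v s y i) x) ^ 2 with hLL
  have hfin : ν / 2 * LL ≤ |M| / 2 + |T| * (1 / ν * (C * |E|) * |M|) := by linarith
  have h12 : LL = 2 / ν * (ν / 2 * LL) := by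
    field_simp
  rw [h12]
  exact mul_le_mul_of_nonneg_left hfin (by positivity)

end Pool.Agent.H303.DEE
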