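import Pool.Agent.H303.DEE.Stm2
import Pool.Graph.R_seed8.H459R3.NS.Ibp

/-!
helper213: integration by parts in the trilinear term (`B5` from `B8`).
-/

open MeasureTheory Set Filter Topology
open scoped ContDiff ENNReal

namespace Pool.Agent.H303.DEE

namespace S5

open H459R3.NS (SP pd)

lemma p1 (j : Fin 3) (f : V → ℝ) (x : V) : partialD 1 j f x = pd j f x :=
  iteratedFDeriv_one_apply _

lemma sp_comp {v : V → V} (hv : Smooth v) (i : Fin 3) : SP (fun y => v y i) :=
  ⟨contDiff_pi.1 hv.smooth i, fun j x => congrFun (hv.per j x) i⟩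

lemma sp_sub {f g : V → ℝ} (hf : SP f) (hg : SP g) : SP (fun x => f x - g x) :=
  ⟨hf.smooth.sub hg.smooth, fun i x => by simp only [hf.per i x, hg.per i x]⟩

lemma pd_sub {f g : V → ℝ} (hf : SP f) (hg : SP g) (j : Fin 3) (x : V) :
    pd j (fun y => f y - g y) x = pd j f x - pd j g x := by
  unfold pd
  have h : HasFDerivAt (fun y => f y - g y) _ x :=
    (hf.diff x).hasFDerivAt.sub (hg.diff x).hasFDerivAt
  rw [h.fderiv]
  rfl

/-- the identity for smooth fields -/
lemma smooth_case {v0 v : V → V} (h0 : Smooth v0) (hv : Smooth v) :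
    ∑ i, ∑ j, ((∫ x in Q, (v0 x i - v x i) * (v0 x j - v x j) * pd j (fun y => v y i) x) +
      ∫ x in Q, (v0 x j - v x j) * (pd j (fun y => v0 y i) x - pd j (fun y => v y i) x) *
        v x i) = 0 := by
  have s0 := sp_comp h0
  have s1 := sp_comp hv
  have hw : ∀ i, SP (fun x => v0 x i - v x i) := fun i => sp_sub (s0 i) (s1 i)
  have hdiv : ∀ x, ∑ i, pd i (fun x => v0 x i - v x i) x = 0 := by
    intro x
    have e0 := h0.divfree x
    have e1 := hv.divfree x
    simp only [p1] at e0 e1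
    rw [Finset.sum_congr rfl fun i _ => pd_sub (s0 i) (s1 i) i x, Finset.sum_sub_distrib, e0, e1,
      sub_zero]
  refine Finset.sum_eq_zero fun i _ => ?_
  have h := H459R3.NS.int_press (v := fun i x => v0 x i - v x i) hw hdiv ((hw i).mul (s1 i))
  rw [← h]
  refine Finset.sum_congr rfl fun j _ => ?_
  have i1 : IntegrableOn (fun x => (v0 x i - v x i) * (v0 x j - v x j) *
      pd j (fun y => v y i) x) Q := (((hw i).mul (hw j)).mul ((s1 i).pd j)).int
  have i2 : IntegrableOn (fun x => (v0 x j - v x j) * (pd j (fun y => v0 y i) x -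
      pd j (fun y => v y i) x) * v x i) Q :=
    (((hw j).mul (sp_sub ((s0 i).pd j) ((s1 i).pd j))).mul (s1 i)).int
  rw [← integral_add i1 i2]
  change ∫ x in Q, _ = ∫ x in Q, _
  refine integral_congr_ae (Eventually.of_forall fun x => ?_)
  have e1 := H459R3.NS.pd_mul (hw i) (s1 i) j x
  have e2 := pd_sub (s0 i) (s1 i) j x
  simp only [e1, e2]
  ring

instance : IsFiniteMeasure mQ :=
  ⟨by
    rw [Measure.restrict_apply_univ]
    exact isCompact_Icc.measure_lt_top⟩

lemma mem_cont {f : V → ℝ} (hf : Continuous f) : MemLp f 2 mQ := by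
  obtain ⟨K, hK⟩ := (isCompact_Icc (a := (0 : V)) (b := 1)).exists_bound_of_continuousOn
    hf.continuousOn
  refine MemLp.of_bound hf.aestronglyMeasurable K ?_
  exact (ae_restrict_iff' measurableSet_Icc).2 (Eventually.of_forall fun x hx => hK x hx)

lemma pt (a b x y δ : ℝ) (hδ : 0 < δ) :
    |(a - x) * (b - y) - a * b| ≤
      (1 / 2) * (δ * a ^ 2 + δ * b ^ 2 + (1 / δ + 1) * (x ^ 2 + y ^ 2)) := by
  have h1 : ∀ c z : ℝ, |c * z| ≤ (1 / 2) * (δ * c ^ 2 + 1 / δ * z ^ 2) := by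
    intro c z
    have e1 : 0 ≤ 1 / δ * (δ * c - z) ^ 2 := by positivity
    have e2 : 0 ≤ 1 / δ * (δ * c + z) ^ 2 := by positivity
    have e3 : 1 / δ * (δ * c - z) ^ 2 = δ * c ^ 2 - 2 * (c * z) + 1 / δ * z ^ 2 := by
      field_simp
      ring
    have e4 : 1 / δ * (δ * c + z) ^ 2 = δ * c ^ 2 + 2 * (c * z) + 1 / δ * z ^ 2 := by
      field_simp
      ring
    rw [abs_le]
    constructor <;> linarith
  have h2 := h1 a y
  have h3 := h1 b x
  have h4 : |x * y| ≤ (1 / 2) * (x ^ 2 + y ^ 2) := by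
    rw [abs_le]
    constructor <;> nlinarith [sq_nonneg (x - y), sq_nonneg (x + y)]
  have h5 : (a - x) * (b - y) - a * b = -(a * y) - b * x + x * y := by ring
  rw [h5]
  rw [abs_le] at h2 h3 h4 ⊢
  constructor <;> linarith [h2.1, h2.2, h3.1, h3.2, h4.1, h4.2]

lemma prod_int {a b φ : V → ℝ} (ha : MemLp a 2 mQ) (hb : MemLp b 2 mQ) (hφ : Continuous φ) :
    Integrable (fun x => a x * b x * φ x) mQ := by
  obtain ⟨K, hK⟩ := (isCompact_Icc (a := (0 : V)) (b := 1)).exists_bound_of_continuousOn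
    hφ.continuousOn
  have h1 : Integrable (fun x => a x * b x) mQ := ha.integrable_mul hb
  exact h1.mul_bdd (c := K) hφ.aestronglyMeasurable
    ((ae_restrict_iff' measurableSet_Icc).2 (Eventually.of_forall fun x hx => hK x hx))

lemma est {a b a' b' φ : V → ℝ} {K δ : ℝ} (ha : MemLp a 2 mQ) (hb : MemLp b 2 mQ)
    (ha' : MemLp a' 2 mQ) (hb' : MemLp b' 2 mQ) (hφ : Continuous φ) (hK0 : 0 ≤ K)
    (hK : ∀ x ∈ Q, |φ x| ≤ K) (hδ : 0 < δ) (hδ1 : δ ≤ 1)
    (h1 : ∫ x in Q, (a x - a' x) ^ 2 ≤ δ ^ 2) (h2 : ∫ x in Q, (b x - b' x) ^ 2 ≤ δ ^ 2) :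
    |(∫ x in Q, a' x * b' x * φ x) - ∫ x in Q, a x * b x * φ x| ≤
      K * ((∫ x in Q, a x ^ 2) + (∫ x in Q, b x ^ 2) + 2) * δ := by
  have i1 : Integrable (fun x => a x ^ 2) mQ := ha.integrable_sq
  have i2 : Integrable (fun x => b x ^ 2) mQ := hb.integrable_sq
  have i3 : Integrable (fun x => (a x - a' x) ^ 2) mQ := (ha.sub ha').integrable_sq
  have i4 : Integrable (fun x => (b x - b' x) ^ 2) mQ := (hb.sub hb').integrable_sq
  have n1 : 0 ≤ ∫ x in Q, a x ^ 2 := integral_nonneg fun x => sq_nonneg _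
  have n2 : 0 ≤ ∫ x in Q, b x ^ 2 := integral_nonneg fun x => sq_nonneg _
  rw [← integral_sub (prod_int ha' hb' hφ) (prod_int ha hb hφ)]
  have hmono : ∫ x in Q, ‖a' x * b' x * φ x - a x * b x * φ x‖ ≤
      ∫ x in Q, K * ((1 / 2) * (δ * a x ^ 2 + δ * b x ^ 2 +
        (1 / δ + 1) * ((a x - a' x) ^ 2 + (b x - b' x) ^ 2))) := by
    refine integral_mono_ae ((prod_int ha' hb' hφ).sub (prod_int ha hb hφ)).norm ?_ ?_
    · exact ((((i1.const_mul δ).add (i2.const_mul δ)).add
        ((i3.add i4).const_mul (1 / δ + 1))).const_mul (1 / 2)).const_mul K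
    · refine (ae_restrict_iff' measurableSet_Icc).2 (Eventually.of_forall fun x hx => ?_)
      have e1 : a' x * b' x * φ x - a x * b x * φ x =
          φ x * ((a x - (a x - a' x)) * (b x - (b x - b' x)) - a x * b x) := by ring
      change ‖a' x * b' x * φ x - a x * b x * φ x‖ ≤ _
      rw [e1, norm_mul]
      exact mul_le_mul (hK x hx) (pt (a x) (b x) (a x - a' x) (b x - b' x) δ hδ)
        (norm_nonneg _) hK0
  have hval : ∫ x in Q, K * ((1 / 2) * (δ * a x ^ 2 + δ * b x ^ 2 +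
        (1 / δ + 1) * ((a x - a' x) ^ 2 + (b x - b' x) ^ 2))) =
      K * ((1 / 2) * (δ * (∫ x in Q, a x ^ 2) + δ * (∫ x in Q, b x ^ 2) +
        (1 / δ + 1) * ((∫ x in Q, (a x - a' x) ^ 2) + ∫ x in Q, (b x - b' x) ^ 2))) := by
    rw [integral_const_mul, integral_const_mul, integral_add, integral_add, integral_const_mul,
      integral_const_mul, integral_const_mul, integral_add i3 i4]
    · exact i1.const_mul δ
    · exact i2.const_mul δ
    · exact (i1.const_mul δ).add (i2.const_mul δ)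
    · exact (i3.add i4).const_mul (1 / δ + 1)
  refine (norm_integral_le_integral_norm _).trans (hmono.trans ?_)
  rw [hval, mul_assoc K]
  refine mul_le_mul_of_nonneg_left ?_ hK0
  have e1 : (1 / δ + 1) * ((∫ x in Q, (a x - a' x) ^ 2) + ∫ x in Q, (b x - b' x) ^ 2) ≤
      (1 / δ + 1) * (δ ^ 2 + δ ^ 2) :=
    mul_le_mul_of_nonneg_left (add_le_add h1 h2) (by positivity)
  have e2 : (1 / δ + 1) * (δ ^ 2 + δ ^ 2) = 2 * δ + 2 * δ ^ 2 := by
    field_simp
    ring
  nlinarith [mul_nonneg n1 hδ.le, mul_nonneg n2 hδ.le]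

/-- passage to the limit in one term -/
lemma lim {a b φ : V → ℝ} {a' b' : ℕ → V → ℝ} (ha : MemLp a 2 mQ) (hb : MemLp b 2 mQ)
    (ha' : ∀ m, MemLp (a' m) 2 mQ) (hb' : ∀ m, MemLp (b' m) 2 mQ) (hφ : Continuous φ)
    (h1 : ∀ m : ℕ, ∫ x in Q, (a x - a' m x) ^ 2 ≤ (1 / ((m : ℝ) + 1)) ^ 2)
    (h2 : ∀ m : ℕ, ∫ x in Q, (b x - b' m x) ^ 2 ≤ (1 / ((m : ℝ) + 1)) ^ 2) :
    Tendsto (fun m => ∫ x in Q, a' m x * b' m x * φ x) atTop
      (𝓝 (∫ x in Q, a x * b x * φ x)) := by
  obtain ⟨K, hK⟩ := (isCompact_Icc (a := (0 : V)) (b := 1)).exists_bound_of_continuousOn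
    hφ.continuousOn
  have hK0 : 0 ≤ K := (norm_nonneg (φ 0)).trans (hK 0 ⟨le_refl _, zero_le_one⟩)
  rw [tendsto_iff_norm_sub_tendsto_zero]
  refine squeeze_zero (fun m => norm_nonneg _) (fun m => est ha hb (ha' m) (hb' m) hφ hK0 hK
    (by positivity) ?_ (h1 m) (h2 m)) ?_
  · rw [div_le_one (by positivity)]
    have : (0 : ℝ) ≤ m := Nat.cast_nonneg m
    linarith
  · have h := (tendsto_one_div_add_atTop_nhds_zero_nat (𝕜 := ℝ)).const_mul
      (K * ((∫ x in Q, a x ^ 2) + (∫ x in Q, b x ^ 2) + 2))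
    rw [mul_zero] at h
    exact h

end S5

open S5 in
open H459R3.NS (pd) in
theorem s5 (h8 : B8) : B5 := by
  intro u G v hu hv
  have hδ : ∀ m : ℕ, 0 < (1 / ((m : ℝ) + 1)) ^ 2 := fun m => by positivity
  choose w hw hw1 hw2 using fun m : ℕ => h8 u G hu _ (hδ m)
  have s1 := sp_comp hv
  have sw := fun m => sp_comp (hw m)
  simp only [p1] at hw2 ⊢
  -- membership
  have mv : ∀ i, MemLp (fun x => v x i) 2 mQ := fun i => mem_cont (s1 i).cont
  have mdv : ∀ i j, MemLp (fun x => pd j (fun y => v y i) x) 2 mQ :=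
    fun i j => mem_cont ((s1 i).pd j).cont
  have mw : ∀ m i, MemLp (fun x => w m x i) 2 mQ := fun m i => mem_cont (sw m i).cont
  have mdw : ∀ m i j, MemLp (fun x => pd j (fun y => w m y i) x) 2 mQ :=
    fun m i j => mem_cont ((sw m i).pd j).cont
  have a1 : ∀ i, MemLp (fun x => u x i - v x i) 2 mQ := fun i => (hu.l2 i).sub (mv i)
  have a2 : ∀ i j, MemLp (fun x => G x i j - pd j (fun y => v y i) x) 2 mQ :=
    fun i j => (hu.l2g i j).sub (mdv i j)
  have b1 : ∀ m i, MemLp (fun x => w m x i - v x i) 2 mQ := fun m i => (mw m i).sub (mv i)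
  have b2 : ∀ m i j, MemLp (fun x => pd j (fun y => w m y i) x - pd j (fun y => v y i) x) 2 mQ :=
    fun m i j => (mdw m i j).sub (mdv i j)
  -- the single terms
  have c1 : ∀ (m : ℕ) (i : Fin 3), ∫ x in Q, ((u x i - v x i) - (w m x i - v x i)) ^ 2 ≤
      (1 / ((m : ℝ) + 1)) ^ 2 := by
    intro m i
    refine le_trans (integral_mono_ae ((a1 i).sub (b1 m i)).integrable_sq
      (integrable_finsetSum _ fun l _ => ((hu.l2 l).sub (mw m l)).integrable_sq)
      (Eventually.of_forall fun x => ?_)) (hw1 m)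
    have e : ((u x i - v x i) - (w m x i - v x i)) ^ 2 = (u x i - w m x i) ^ 2 := by ring
    change ((u x i - v x i) - (w m x i - v x i)) ^ 2 ≤ ∑ l, (u x l - w m x l) ^ 2
    rw [e]
    exact Finset.single_le_sum (f := fun l => (u x l - w m x l) ^ 2) (fun l _ => sq_nonneg _)
      (Finset.mem_univ i)
  have c2 : ∀ (m : ℕ) (i j : Fin 3), ∫ x in Q, ((G x i j - pd j (fun y => v y i) x) -
      (pd j (fun y => w m y i) x - pd j (fun y => v y i) x)) ^ 2 ≤ (1 / ((m : ℝ) + 1)) ^ 2 := by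
    intro m i j
    refine le_trans (integral_mono_ae ((a2 i j).sub (b2 m i j)).integrable_sq
      (integrable_finsetSum _ fun l _ => integrable_finsetSum _ fun l' _ =>
        ((hu.l2g l l').sub (mdw m l l')).integrable_sq)
      (Eventually.of_forall fun x => ?_)) (hw2 m)
    have e : ((G x i j - pd j (fun y => v y i) x) -
      (pd j (fun y => w m y i) x - pd j (fun y => v y i) x)) ^ 2 =
        (G x i j - pd j (fun y => w m y i) x) ^ 2 := by ring
    change ((G x i j - pd j (fun y => v y i) x) -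
      (pd j (fun y => w m y i) x - pd j (fun y => v y i) x)) ^ 2 ≤
        ∑ l, ∑ l', (G x l l' - pd l' (fun y => w m y l) x) ^ 2
    rw [e]
    refine le_trans ?_ (Finset.single_le_sum
      (f := fun l => ∑ l', (G x l l' - pd l' (fun y => w m y l) x) ^ 2)
      (fun l _ => Finset.sum_nonneg fun l' _ => sq_nonneg _) (Finset.mem_univ i))
    exact Finset.single_le_sum (f := fun l' => (G x i l' - pd l' (fun y => w m y i) x) ^ 2)
      (fun l' _ => sq_nonneg _) (Finset.mem_univ j)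
  -- the limit
  have hlim : Tendsto (fun m : ℕ => ∑ i, ∑ j, ((∫ x in Q, (w m x i - v x i) *
      (w m x j - v x j) * pd j (fun y => v y i) x) + ∫ x in Q, (w m x j - v x j) *
        (pd j (fun y => w m y i) x - pd j (fun y => v y i) x) * v x i)) atTop
      (𝓝 (∑ i, ∑ j, ((∫ x in Q, (u x i - v x i) * (u x j - v x j) *
        pd j (fun y => v y i) x) + ∫ x in Q, (u x j - v x j) *
          (G x i j - pd j (fun y => v y i) x) * v x i))) := by
    refine tendsto_finsetSum _ fun i _ => tendsto_finsetSum _ fun j _ => Tendsto.add ?_ ?_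
    · exact lim (a1 i) (a1 j) (fun m => b1 m i) (fun m => b1 m j) ((s1 i).pd j).cont
        (fun m => c1 m i) (fun m => c1 m j)
    · exact lim (a1 j) (a2 i j) (fun m => b1 m j) (fun m => b2 m i j) (s1 i).cont
        (fun m => c1 m j) (fun m => c2 m i j)
  have hzero : ∑ i, ∑ j, ((∫ x in Q, (u x i - v x i) * (u x j - v x j) *
        pd j (fun y => v y i) x) + ∫ x in Q, (u x j - v x j) *
          (G x i j - pd j (fun y => v y i) x) * v x i) = 0 := by
    refine tendsto_nhds_unique hlim ?_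
    rw [show (fun m : ℕ => ∑ i, ∑ j, ((∫ x in Q, (w m x i - v x i) *
      (w m x j - v x j) * pd j (fun y => v y i) x) + ∫ x in Q, (w m x j - v x j) *
        (pd j (fun y => w m y i) x - pd j (fun y => v y i) x) * v x i)) = fun _ => 0 from
      funext fun m => smooth_case (hw m) hv]
    exact tendsto_const_nhds
  have d1 : ∀ i j, Integrable (fun x => (u x i - v x i) * (u x j - v x j) *
      pd j (fun y => v y i) x) mQ := fun i j => prod_int (a1 i) (a1 j) ((s1 i).pd j).cont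
  have d2 : ∀ i j, Integrable (fun x => (u x j - v x j) * (G x i j - pd j (fun y => v y i) x) *
      v x i) mQ := fun i j => prod_int (a1 j) (a2 i j) (s1 i).cont
  have f1 : ∫ x in Q, ∑ i, ∑ j, (u x i - v x i) * (u x j - v x j) * pd j (fun y => v y i) x =
      ∑ i, ∑ j, ∫ x in Q, (u x i - v x i) * (u x j - v x j) * pd j (fun y => v y i) x := by
    rw [integral_finsetSum _ fun i _ => integrable_finsetSum _ fun j _ => d1 i j]
    exact Finset.sum_congr rfl fun i _ => integral_finsetSum _ fun j _ => d1 i j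
  have f2 : ∫ x in Q, ∑ i, ∑ j, (u x j - v x j) * (G x i j - pd j (fun y => v y i) x) * v x i =
      ∑ i, ∑ j, ∫ x in Q, (u x j - v x j) * (G x i j - pd j (fun y => v y i) x) * v x i := by
    rw [integral_finsetSum _ fun i _ => integrable_finsetSum _ fun j _ => d2 i j]
    exact Finset.sum_congr rfl fun i _ => integral_finsetSum _ fun j _ => d2 i j
  rw [f1, f2]
  simp only [Finset.sum_add_distrib] at hzero
  linarith

end Pool.Agent.H303.DEE
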