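import Pool.Agent.H303.DEE.Stm2

/-!
# DEE, task S6: Gronwall's inequality with a continuous coefficient
-/

open MeasureTheory Set Filter Topology

namespace Pool.Agent.H303.DEE

theorem s6 : B6 := by
  intro T g₀ g D k hg₀ hgi hk hk0 hg0 hD0 hmain t ht
  have hT : 0 ≤ T := ht.1.trans ht.2
  have hproj : ∀ s ∈ Icc 0 T, ((projIcc 0 T hT s : Icc (0 : ℝ) T) : ℝ) = s := by
    intro s hs
    rw [projIcc_of_mem hT hs]
  -- the continuous extension of `k`
  let kt : ℝ → ℝ := fun s => k (projIcc 0 T hT s : Icc (0 : ℝ) T)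
  have hktc : Continuous kt :=
    (continuousOn_iff_continuous_domRestrict.1 hk).comp continuous_projIcc
  have hkteq : ∀ s ∈ Icc 0 T, kt s = k s := by
    intro s hs
    show k (projIcc 0 T hT s : Icc (0 : ℝ) T) = k s
    rw [hproj s hs]
  have hkt0 : ∀ s, 0 ≤ kt s := fun s => hk0 _ (projIcc 0 T hT s).2
  have hwi : IntegrableOn (fun s => k s * g s) (Icc 0 T) :=
    hgi.continuousOn_mul hk isCompact_Icc
  let H : ℝ → ℝ := fun t => g₀ + ∫ s in (0 : ℝ)..t, k s * g s
  have hHc : ContinuousOn H (Icc 0 T) := by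
    have h1 := intervalIntegral.continuousOn_primitive_interval (μ := volume)
      (a := (0 : ℝ)) (b := T) (f := fun s => k s * g s) (by rw [uIcc_of_le hT]; exact hwi)
    rw [uIcc_of_le hT] at h1
    exact continuousOn_const.add h1
  let Ht : ℝ → ℝ := fun s => H (projIcc 0 T hT s : Icc (0 : ℝ) T)
  have hHtc : Continuous Ht :=
    (continuousOn_iff_continuous_domRestrict.1 hHc).comp continuous_projIcc
  have hHteq : ∀ s ∈ Icc 0 T, Ht s = H s := by
    intro s hs
    show H (projIcc 0 T hT s : Icc (0 : ℝ) T) = H s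
    rw [hproj s hs]
  have hgH : ∀ s ∈ Icc 0 T, g s + D s ≤ H s := hmain
  let R : ℝ → ℝ := fun t => g₀ + ∫ s in (0 : ℝ)..t, kt s * Ht s
  have hcont : Continuous fun s => kt s * Ht s := hktc.mul hHtc
  have hHR : ∀ s ∈ Icc 0 T, H s ≤ R s := by
    intro s hs
    have hsub : Icc 0 s ⊆ Icc 0 T := Icc_subset_Icc le_rfl hs.2
    have h1 : ∫ r in (0 : ℝ)..s, k r * g r ≤ ∫ r in (0 : ℝ)..s, kt r * Ht r := by
      apply intervalIntegral.integral_mono_on hs.1
      · rw [intervalIntegrable_iff_integrableOn_Icc_of_le hs.1]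
        exact hwi.mono_set hsub
      · exact hcont.intervalIntegrable _ _
      · intro r hr
        have hr' := hsub hr
        rw [hkteq r hr', hHteq r hr']
        exact mul_le_mul_of_nonneg_left (by linarith [hgH r hr', hD0 r hr']) (hk0 r hr')
    show g₀ + _ ≤ g₀ + _
    linarith
  let K : ℝ → ℝ := fun t => ∫ s in (0 : ℝ)..t, kt s
  have hKd : ∀ s, HasDerivAt K (kt s) s := fun s =>
    intervalIntegral.integral_hasDerivAt_right (hktc.intervalIntegrable _ _)
      (hktc.stronglyMeasurableAtFilter _ _) hktc.continuousAt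
  have hRd : ∀ s, HasDerivAt R (kt s * Ht s) s := fun s =>
    (intervalIntegral.integral_hasDerivAt_right (hcont.intervalIntegrable _ _)
      (hcont.stronglyMeasurableAtFilter _ _) hcont.continuousAt).const_add g₀
  let P : ℝ → ℝ := fun s => R s * Real.exp (-K s)
  have hPd : ∀ s, HasDerivAt P (kt s * Ht s * Real.exp (-K s)
      + R s * (Real.exp (-K s) * (-kt s))) s := fun s =>
    (hRd s).mul ((hKd s).neg.exp)
  have hanti : AntitoneOn P (Icc 0 T) := by
    apply antitoneOn_of_deriv_nonpos (convex_Icc 0 T)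
    · exact fun s _ => (hPd s).continuousAt.continuousWithinAt
    · exact fun s _ => (hPd s).differentiableAt.differentiableWithinAt
    · intro s hs
      rw [interior_Icc] at hs
      have hs' : s ∈ Icc 0 T := Ioo_subset_Icc_self hs
      rw [(hPd s).deriv, hHteq s hs']
      have h1 := hHR s hs'
      have h2 : kt s * H s * Real.exp (-K s) + R s * (Real.exp (-K s) * (-kt s))
          = -(kt s * Real.exp (-K s) * (R s - H s)) := by ring
      rw [h2]
      have h3 : 0 ≤ kt s * Real.exp (-K s) * (R s - H s) :=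
        mul_nonneg (mul_nonneg (hkt0 s) (Real.exp_pos _).le) (by linarith)
      linarith
  have h0 : P 0 = g₀ := by
    show (g₀ + ∫ s in (0 : ℝ)..0, kt s * Ht s) * Real.exp (-∫ s in (0 : ℝ)..0, kt s) = g₀
    simp
  have h1 : P t ≤ g₀ := by
    rw [← h0]
    exact hanti ⟨le_rfl, hT⟩ ht ht.1
  have h2 : R t ≤ g₀ * Real.exp (K t) := by
    have h3 : R t * Real.exp (-K t) ≤ g₀ := h1
    rw [Real.exp_neg] at h3
    have h4 := mul_le_mul_of_nonneg_right h3 (Real.exp_pos (K t)).le
    rwa [mul_assoc, inv_mul_cancel₀ (Real.exp_pos (K t)).ne', mul_one] at h4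
  have h5 : K t ≤ K T := by
    have h6 : K t + ∫ s in t..T, kt s = K T :=
      intervalIntegral.integral_add_adjacent_intervals (hktc.intervalIntegrable _ _)
        (hktc.intervalIntegrable _ _)
    have h7 : 0 ≤ ∫ s in t..T, kt s :=
      intervalIntegral.integral_nonneg ht.2 fun s _ => hkt0 s
    linarith
  have h8 : K T = ∫ s in (0 : ℝ)..T, k s := by
    apply intervalIntegral.integral_congr
    intro s hs
    rw [uIcc_of_le hT] at hs
    exact hkteq s hs
  calc g t + D t ≤ H t := hgH t ht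
    _ ≤ R t := hHR t ht
    _ ≤ g₀ * Real.exp (K t) := h2
    _ ≤ g₀ * Real.exp (K T) :=
        mul_le_mul_of_nonneg_left (Real.exp_le_exp.2 h5) hg₀
    _ = _ := by rw [h8]

end Pool.Agent.H303.DEE
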