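import Pool.Agent.H303.DEE.Stm2

/-!
Step `B7` of project DEE: uniform stability.
-/

open MeasureTheory Set Filter Topology
open scoped ContDiff ENNReal

namespace Pool.Agent.H303.DEE.S7

open Pool.Agent.H303.DEE

/-- the spatial integral of a continuous function is continuous in time -/
theorem cont_int {F : ℝ × V → ℝ} (hF : ContinuousOn F (Ici 0 ×ˢ univ)) :
    ContinuousOn (fun s => ∫ x in Q, F (s, x)) (Ici 0) := by
  have h1 : Continuous fun z : ℝ × V => F (max z.1 0, z.2) := by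
    refine hF.comp_continuous (by fun_prop) ?_
    intro z
    exact ⟨mem_Ici.2 (le_max_right z.1 0), mem_univ _⟩
  have h2 : Continuous fun s : ℝ => ∫ x in Q, F (max s 0, x) := by
    have h3 : Continuous (Function.uncurry fun (s : ℝ) (x : V) => F (max s 0, x)) := h1
    exact continuous_parametric_integral_of_continuous h3 isCompact_Icc
  refine h2.continuousOn.congr ?_
  intro s hs
  have h4 : max s 0 = s := max_eq_left hs
  simp only [h4]

theorem prod_eq (T : ℝ) : (volume.restrict (Icc 0 T ×ˢ Q) : Measure (ℝ × V)) =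
    (volume.restrict (Icc 0 T)).prod (volume.restrict Q) := by
  rw [Measure.volume_eq_prod, Measure.prod_restrict]

theorem memLp_cont {F : ℝ × V → ℝ} (hF : ContinuousOn F (Ici 0 ×ˢ univ)) (T : ℝ) :
    MemLp F 2 (volume.restrict (Icc 0 T ×ˢ Q)) := by
  have hc : IsCompact (Icc (0 : ℝ) T ×ˢ Q) := isCompact_Icc.prod isCompact_Icc
  have hF' : ContinuousOn F (Icc 0 T ×ˢ Q) :=
    hF.mono (prod_mono (fun s hs => hs.1) (subset_univ _))
  obtain ⟨C, hC⟩ := hc.exists_bound_of_continuousOn hF'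
  have : IsFiniteMeasure (volume.restrict (Icc (0 : ℝ) T ×ˢ Q) : Measure (ℝ × V)) :=
    ⟨by rw [Measure.restrict_apply_univ]; exact hc.measure_lt_top⟩
  refine MemLp.of_bound (hF'.aestronglyMeasurable hc.measurableSet) C ?_
  exact (ae_restrict_iff' hc.measurableSet).2 (Eventually.of_forall hC)

theorem memLp_cont_Q {F : V → ℝ} (hF : Continuous F) : MemLp F 2 (volume.restrict Q) := by
  have hc : IsCompact Q := isCompact_Icc
  obtain ⟨C, hC⟩ := hc.exists_bound_of_continuousOn hF.continuousOn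
  have : IsFiniteMeasure (volume.restrict Q : Measure V) :=
    ⟨by rw [Measure.restrict_apply_univ]; exact hc.measure_lt_top⟩
  refine MemLp.of_bound (hF.continuousOn.aestronglyMeasurable hc.measurableSet) C ?_
  exact (ae_restrict_iff' hc.measurableSet).2 (Eventually.of_forall hC)

/-- Fubini for squares -/
theorem sq_int {F : ℝ × V → ℝ} {T : ℝ} (hF : MemLp F 2 (volume.restrict (Icc 0 T ×ˢ Q))) :
    Integrable (fun z => F z ^ 2) ((volume.restrict (Icc 0 T)).prod (volume.restrict Q)) := by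
  rw [← prod_eq]
  exact hF.integrable_sq

theorem partialD_cont (n : ℕ) (j : Fin 3) {f : V → ℝ} (hf : ContDiff ℝ ∞ f) :
    Continuous (partialD n j f) := by
  have h1 : Continuous (iteratedFDeriv ℝ n f) :=
    hf.continuous_iteratedFDeriv (by exact_mod_cast le_top)
  exact (ContinuousMultilinearMap.apply ℝ (fun _ : Fin n => V) ℝ
    (fun _ => Pi.single j 1)).continuous.comp h1

theorem ptw {ν k : ℝ} (hν : 0 < ν) (w v : Fin 3 → ℝ) (H : Fin 3 → Fin 3 → ℝ)
    (hk : ∑ i, v i ^ 2 ≤ ν * k) :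
    ∑ i, ∑ j, w j * H i j * v i
      ≤ (ν / 2) * (∑ i, ∑ j, H i j ^ 2) + k * ((1 / 2) * ∑ i, w i ^ 2) := by
  have h1 : ∀ i j, w j * H i j * v i
      ≤ (ν / 2) * H i j ^ 2 + (1 / (2 * ν)) * (w j ^ 2 * v i ^ 2) := by
    intro i j
    have h2 : 0 ≤ (1 / (2 * ν)) * (ν * H i j - w j * v i) ^ 2 := by positivity
    have h3 : (1 / (2 * ν)) * (ν * H i j - w j * v i) ^ 2
        = (ν / 2) * H i j ^ 2 + (1 / (2 * ν)) * (w j ^ 2 * v i ^ 2) - w j * H i j * v i := by
      field_simp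
      ring
    linarith
  have h4 : ∑ i, ∑ j, w j * H i j * v i
      ≤ ∑ i, ∑ j, ((ν / 2) * H i j ^ 2 + (1 / (2 * ν)) * (w j ^ 2 * v i ^ 2)) :=
    Finset.sum_le_sum fun i _ => Finset.sum_le_sum fun j _ => h1 i j
  have h5 : ∑ i, ∑ j, ((ν / 2) * H i j ^ 2 + (1 / (2 * ν)) * (w j ^ 2 * v i ^ 2))
      = (ν / 2) * (∑ i, ∑ j, H i j ^ 2)
        + (1 / (2 * ν)) * ((∑ j, w j ^ 2) * ∑ i, v i ^ 2) := by
    simp only [Fin.sum_univ_three]
    ring
  have h6 : (1 / (2 * ν)) * ((∑ j, w j ^ 2) * ∑ i, v i ^ 2)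
      ≤ (1 / (2 * ν)) * ((∑ j, w j ^ 2) * (ν * k)) := by
    have : 0 ≤ ∑ j, w j ^ 2 := Finset.sum_nonneg fun j _ => sq_nonneg _
    gcongr
  have h7 : (1 / (2 * ν)) * ((∑ j, w j ^ 2) * (ν * k)) = k * ((1 / 2) * ∑ i, w i ^ 2) := by
    field_simp
  linarith

theorem slice (k5 : B5) {ν k : ℝ} (hν : 0 < ν) (hk0 : 0 ≤ k) {u v : V → V}
    {G : V → Fin 3 → Fin 3 → ℝ} (hH : H1s u G) (hv : Smooth v)
    (hk : ∀ x, ∑ i, v x i ^ 2 ≤ ν * k) :
    -(∫ x in Q, ∑ i, ∑ j, (u x i - v x i) * (u x j - v x j) * partialD 1 j (fun y => v y i) x)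
      ≤ (ν / 2) * (∫ x in Q, ∑ i, ∑ j, (G x i j - partialD 1 j (fun y => v y i) x) ^ 2)
        + k * ((1 / 2) * ∫ x in Q, ∑ i, (u x i - v x i) ^ 2) := by
  rw [k5 u G v hH hv, neg_neg]
  have hvi : ∀ i, ContDiff ℝ ∞ fun y => v y i := fun i => contDiff_pi.1 hv.smooth i
  have w2 : ∀ i, MemLp (fun x => u x i - v x i) 2 (volume.restrict Q) := fun i =>
    (hH.l2 i).sub (memLp_cont_Q (hvi i).continuous)
  have H2 : ∀ i j, MemLp (fun x => G x i j - partialD 1 j (fun y => v y i) x) 2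
      (volume.restrict Q) := fun i j =>
    (hH.l2g i j).sub (memLp_cont_Q (partialD_cont 1 j (hvi i)))
  have iw : Integrable (fun x => ∑ i, (u x i - v x i) ^ 2) (volume.restrict Q) :=
    integrable_finsetSum _ fun i _ => (w2 i).integrable_sq
  have iH : Integrable (fun x => ∑ i, ∑ j, (G x i j - partialD 1 j (fun y => v y i) x) ^ 2)
      (volume.restrict Q) :=
    integrable_finsetSum _ fun i _ => integrable_finsetSum _ fun j _ => (H2 i j).integrable_sq
  have hR : (ν / 2) * (∫ x in Q, ∑ i, ∑ j, (G x i j - partialD 1 j (fun y => v y i) x) ^ 2)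
        + k * ((1 / 2) * ∫ x in Q, ∑ i, (u x i - v x i) ^ 2)
      = ∫ x in Q, ((ν / 2) * (∑ i, ∑ j, (G x i j - partialD 1 j (fun y => v y i) x) ^ 2)
        + k * ((1 / 2) * ∑ i, (u x i - v x i) ^ 2)) := by
    rw [integral_add (iH.const_mul _) ((iw.const_mul _).const_mul _), integral_const_mul,
      integral_const_mul, integral_const_mul]
  have hR0 : 0 ≤ (ν / 2) * (∫ x in Q, ∑ i, ∑ j, (G x i j - partialD 1 j (fun y => v y i) x) ^ 2)
        + k * ((1 / 2) * ∫ x in Q, ∑ i, (u x i - v x i) ^ 2) := by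
    have h1 : 0 ≤ ∫ x in Q, ∑ i, ∑ j, (G x i j - partialD 1 j (fun y => v y i) x) ^ 2 :=
      integral_nonneg fun x => Finset.sum_nonneg fun i _ => Finset.sum_nonneg fun j _ =>
        sq_nonneg _
    have h2 : 0 ≤ ∫ x in Q, ∑ i, (u x i - v x i) ^ 2 :=
      integral_nonneg fun x => Finset.sum_nonneg fun i _ => sq_nonneg _
    positivity
  by_cases hI : Integrable (fun x => ∑ i, ∑ j, (u x j - v x j) *
      (G x i j - partialD 1 j (fun y => v y i) x) * v x i) (volume.restrict Q)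
  · rw [hR]
    refine integral_mono hI ((iH.const_mul _).add ((iw.const_mul _).const_mul _)) fun x => ?_
    exact ptw hν (fun j => u x j - v x j) (v x)
      (fun i j => G x i j - partialD 1 j (fun y => v y i) x) (hk x)
  · rw [integral_undef hI]
    exact hR0


/-- almost every time slice is in `H¹_σ` -/
theorem ae_H1s {n : ℕ} {ν : ℝ} {α : Fin 3 → ℝ} {T : ℝ} {u₀ : V → V} {u : ℝ → V → V}
    {G : ℝ → V → Fin 3 → Fin 3 → ℝ} (hu : IsLerayHopf n ν α T u₀ u G) :
    ∀ᵐ s ∂(volume.restrict (Icc 0 T)), H1s (u s) (G s) := by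
  have h1 : ∀ i j, ∀ᵐ s ∂(volume.restrict (Icc 0 T)),
      Integrable (fun x => G s x i j ^ 2) (volume.restrict Q) := fun i j =>
    (sq_int (hu.l2_G i j)).prod_right_ae
  have h2 : ∀ᵐ s ∂(volume.restrict (Icc 0 T)), ∀ i j,
      Integrable (fun x => G s x i j ^ 2) (volume.restrict Q) :=
    ae_all_iff.2 fun i => ae_all_iff.2 fun j => h1 i j
  have h3 : ∀ᵐ s ∂(volume.restrict (Icc 0 T)), s ∈ Icc 0 T := ae_restrict_mem measurableSet_Icc
  filter_upwards [h2, h3, hu.grad] with s hs hsT hg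
  refine ⟨hu.l2_u s hsT, fun i j => ?_, hu.divfree s hsT, hg⟩
  have hm : Measurable fun x : V => G s x i j := by
    have h4 : Measurable fun x : V => G s x :=
      hu.meas_G.comp (measurable_const.prodMk measurable_id)
    exact (measurable_pi_apply j).comp ((measurable_pi_apply i).comp h4)
  exact (memLp_two_iff_integrable_sq hm.aestronglyMeasurable).2 (hs i j)

theorem main (h0 : A0) (h1 : A1) (h4 : A4) (h5 : A5) (k1 : B1) (k3 : B3) (k5 : B5) (k6 : B6) :
    B7 := by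
  intro n ν α E M T hν hn
  obtain ⟨K, hK⟩ := k3 ν E M T hν
  obtain ⟨C1, hC1, hB1⟩ := k1 1 one_pos
  refine ⟨(1 + 1 / ν) * Real.exp ((1 / ν) * (C1 * (T * E) + K)), by positivity, ?_⟩
  intro v p hv hE hM u₀ u G hu0 hu t ht
  have hT : 0 ≤ T := ht.1.trans ht.2
  obtain ⟨a1, a2, a3⟩ := h0 v hv.smooth_u
  have vc : ∀ i, ContinuousOn (fun z : ℝ × V => v z.1 z.2 i) (Ici 0 ×ˢ univ) := fun i =>
    (continuous_apply i).comp_continuousOn hv.smooth_u.continuousOn
  -- the energy and the second derivatives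
  let e : ℝ → ℝ := fun s => ∫ x in Q, ∑ i, v s x i ^ 2
  let l : ℝ → ℝ := fun s => ∫ x in Q, ∑ i, (∑ j, partialD 2 j (fun y => v s y i) x) ^ 2
  let k : ℝ → ℝ := fun s => (1 / ν) * (C1 * e s + l s)
  have ec : ContinuousOn e (Ici 0) :=
    cont_int (F := fun z => ∑ i, v z.1 z.2 i ^ 2)
      (continuousOn_finsetSum _ fun i _ => (vc i).pow 2)
  have lc : ContinuousOn l (Ici 0) :=
    cont_int (F := fun z => ∑ i, (∑ j, partialD 2 j (fun y => v z.1 y i) z.2) ^ 2)
      (continuousOn_finsetSum _ fun i _ => (continuousOn_finsetSum _ fun j _ => a3 i j 2).pow 2)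
  have kc : ContinuousOn k (Ici 0) :=
    continuousOn_const.mul ((continuousOn_const.mul ec).add lc)
  have e0 : ∀ s, 0 ≤ e s := fun s =>
    integral_nonneg fun x => Finset.sum_nonneg fun i _ => sq_nonneg _
  have l0 : ∀ s, 0 ≤ l s := fun s =>
    integral_nonneg fun x => Finset.sum_nonneg fun i _ => sq_nonneg _
  have k0 : ∀ s, 0 ≤ k s := fun s => by
    have := e0 s
    have := l0 s
    positivity
  have hsub : Icc 0 T ⊆ Ici (0 : ℝ) := fun s hs => hs.1
  -- the energy is at most `E`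
  have hgrd0 : ∀ s, 0 ≤ ∫ x in Q, ∑ i, ∑ j, grd v s x i j ^ 2 := fun s =>
    integral_nonneg fun x => Finset.sum_nonneg fun i _ => Finset.sum_nonneg fun j _ => sq_nonneg _
  have eE : ∀ s, 0 ≤ s → e s ≤ E := by
    intro s hs
    have h6 := h4 n ν α v p hn hv s hs
    unfold EnergyEq at h6
    have h7 : 0 ≤ ∫ r in (0 : ℝ)..s, ∫ x in Q, ∑ i, ∑ j, grd v r x i j ^ 2 :=
      intervalIntegral.integral_nonneg hs fun r _ => hgrd0 r
    have h8 : 0 ≤ ν * ∫ r in (0 : ℝ)..s, ∫ x in Q, ∑ i, ∑ j, grd v r x i j ^ 2 :=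
      mul_nonneg hν.le h7
    change (∫ x in Q, ∑ i, v s x i ^ 2) ≤ E
    linarith
  -- the differences
  let g : ℝ → ℝ := fun s => (1 / 2) * ∫ x in Q, ∑ i, (u s x i - v s x i) ^ 2
  let h : ℝ → ℝ := fun s => ∫ x in Q, ∑ i, ∑ j, (G s x i j - grd v s x i j) ^ 2
  have g0 : ∀ s, 0 ≤ g s := fun s => by
    have : 0 ≤ ∫ x in Q, ∑ i, (u s x i - v s x i) ^ 2 :=
      integral_nonneg fun x => Finset.sum_nonneg fun i _ => sq_nonneg _
    positivity
  have hh0 : ∀ s, 0 ≤ h s := fun s =>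
    integral_nonneg fun x => Finset.sum_nonneg fun i _ => Finset.sum_nonneg fun j _ => sq_nonneg _
  have uL := (h1 n ν α T u₀ u G hν hu).2
  have gi : IntegrableOn g (Icc 0 T) := by
    have h6 : Integrable (fun z : ℝ × V => ∑ i, (u z.1 z.2 i - v z.1 z.2 i) ^ 2)
        ((volume.restrict (Icc 0 T)).prod (volume.restrict Q)) :=
      integrable_finsetSum _ fun i _ => sq_int ((uL i).sub (memLp_cont (vc i) T))
    exact h6.integral_prod_left.const_mul _
  have hi : IntegrableOn h (Icc 0 T) := by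
    have h6 : Integrable (fun z : ℝ × V => ∑ i, ∑ j, (G z.1 z.2 i j - grd v z.1 z.2 i j) ^ 2)
        ((volume.restrict (Icc 0 T)).prod (volume.restrict Q)) :=
      integrable_finsetSum _ fun i _ => integrable_finsetSum _ fun j _ =>
        sq_int ((hu.l2_G i j).sub (memLp_cont (a2 i j) T))
    exact h6.integral_prod_left
  have kgi : IntegrableOn (fun s => k s * g s) (Icc 0 T) :=
    gi.continuousOn_mul (kc.mono hsub) isCompact_Icc
  have toInt : ∀ {f : ℝ → ℝ}, IntegrableOn f (Icc 0 T) → ∀ r ∈ Icc 0 T,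
      IntervalIntegrable f volume 0 r := by
    intro f hf r hr
    rw [intervalIntegrable_iff_integrableOn_Icc_of_le hr.1]
    exact hf.mono_set (Icc_subset_Icc le_rfl hr.2)
  -- the trilinear term
  let I : ℝ → ℝ := fun s => ∫ x in Q, ∑ i, ∑ j, (u s x i - v s x i) * (u s x j - v s x j)
    * grd v s x i j
  have hI : ∀ᵐ s ∂(volume.restrict (Icc 0 T)), -I s ≤ (ν / 2) * h s + k s * g s := by
    have h3 : ∀ᵐ s ∂(volume.restrict (Icc 0 T)), s ∈ Icc 0 T := ae_restrict_mem measurableSet_Icc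
    filter_upwards [ae_H1s hu, h3] with s hs hsT
    have hvs : Smooth (v s) := ⟨a1 s hsT.1, hv.per_u s hsT.1, hv.divfree s hsT.1⟩
    refine slice k5 hν (k0 s) hs hvs fun x => ?_
    have h6 := hB1 (v s) (a1 s hsT.1) (hv.per_u s hsT.1) x
    have h7 : ν * k s = C1 * e s + l s := by
      change ν * ((1 / ν) * (C1 * e s + l s)) = _
      field_simp
    rw [h7]
    simpa only [one_mul] using h6
  have key : ∀ r ∈ Icc 0 T, g r + (ν / 2) * (∫ s in (0 : ℝ)..r, h s)
      ≤ (1 / 2) * (∫ x in Q, ∑ i, (u₀ x i - v 0 x i) ^ 2) + ∫ s in (0 : ℝ)..r, k s * g s := by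
    intro r hr
    have h6 := h5 n ν α T u₀ u G v p hν hn hu0 hu hv r hr
    have h7 : -(∫ s in (0 : ℝ)..r, I s)
        ≤ (ν / 2) * (∫ s in (0 : ℝ)..r, h s) + ∫ s in (0 : ℝ)..r, k s * g s := by
      have h8 : (ν / 2) * (∫ s in (0 : ℝ)..r, h s) + (∫ s in (0 : ℝ)..r, k s * g s)
          = ∫ s in (0 : ℝ)..r, ((ν / 2) * h s + k s * g s) := by
        rw [intervalIntegral.integral_add ((toInt hi r hr).const_mul _) (toInt kgi r hr),
          intervalIntegral.integral_const_mul]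
      have h9 : -(∫ s in (0 : ℝ)..r, I s) = ∫ s in (0 : ℝ)..r, -I s :=
        intervalIntegral.integral_neg.symm
      rw [h8, h9]
      by_cases hII : IntervalIntegrable (fun s => -I s) volume 0 r
      · refine intervalIntegral.integral_mono_ae_restrict hr.1 hII
          (((toInt hi r hr).const_mul _).add (toInt kgi r hr)) ?_
        exact ae_restrict_of_ae_restrict_of_subset (Icc_subset_Icc le_rfl hr.2) hI
      · rw [intervalIntegral.integral_undef hII]
        refine intervalIntegral.integral_nonneg hr.1 fun s _ => ?_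
        have := hh0 s
        have := k0 s
        have := g0 s
        positivity
    change g r + ν * (∫ s in (0 : ℝ)..r, h s)
      ≤ (1 / 2) * (∫ x in Q, ∑ i, (u₀ x i - v 0 x i) ^ 2) - ∫ s in (0 : ℝ)..r, I s at h6
    linarith
  have J0 : ∀ r ∈ Icc 0 T, 0 ≤ (ν / 2) * (∫ s in (0 : ℝ)..r, h s) := fun r hr =>
    mul_nonneg (by positivity) (intervalIntegral.integral_nonneg hr.1 fun s _ => hh0 s)
  have w0 : 0 ≤ ∫ x in Q, ∑ i, (u₀ x i - v 0 x i) ^ 2 :=
    integral_nonneg fun x => Finset.sum_nonneg fun i _ => sq_nonneg _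
  have hG := k6 T ((1 / 2) * (∫ x in Q, ∑ i, (u₀ x i - v 0 x i) ^ 2)) g
    (fun r => (ν / 2) * (∫ s in (0 : ℝ)..r, h s)) k (by positivity) gi (kc.mono hsub)
    (fun s _ => k0 s) (fun s _ => g0 s) J0 key t ht
  -- the integral of `k`
  have kint : (∫ s in (0 : ℝ)..T, k s) ≤ (1 / ν) * (C1 * (T * E) + K) := by
    have ei : IntervalIntegrable e volume 0 T :=
      (ec.mono (by rw [uIcc_of_le hT]; exact hsub)).intervalIntegrable
    have li : IntervalIntegrable l volume 0 T :=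
      (lc.mono (by rw [uIcc_of_le hT]; exact hsub)).intervalIntegrable
    have h6 : (∫ s in (0 : ℝ)..T, k s)
        = (1 / ν) * (C1 * (∫ s in (0 : ℝ)..T, e s) + ∫ s in (0 : ℝ)..T, l s) := by
      change (∫ s in (0 : ℝ)..T, (1 / ν) * (C1 * e s + l s)) = _
      rw [intervalIntegral.integral_const_mul,
        intervalIntegral.integral_add (ei.const_mul _) li, intervalIntegral.integral_const_mul]
    have h7 : (∫ s in (0 : ℝ)..T, l s) ≤ K :=
      hK n α v p hn hv hE hM T (right_mem_Icc.2 hT)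
    have h8 : (∫ s in (0 : ℝ)..T, e s) ≤ T * E := by
      have h9 : (∫ s in (0 : ℝ)..T, e s) ≤ ∫ _s in (0 : ℝ)..T, E :=
        intervalIntegral.integral_mono_on hT ei intervalIntegrable_const
          fun s hs => eE s hs.1
      rw [intervalIntegral.integral_const, smul_eq_mul, sub_zero] at h9
      exact h9
    rw [h6]
    have h10 : C1 * (∫ s in (0 : ℝ)..T, e s) ≤ C1 * (T * E) :=
      mul_le_mul_of_nonneg_left h8 hC1
    have h11 : 0 ≤ 1 / ν := by positivity
    exact mul_le_mul_of_nonneg_left (add_le_add h10 h7) h11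
  have hexp : Real.exp (∫ s in (0 : ℝ)..T, k s)
      ≤ Real.exp ((1 / ν) * (C1 * (T * E) + K)) := Real.exp_le_exp.2 kint
  set X := Real.exp ((1 / ν) * (C1 * (T * E) + K)) with hX
  set W := ∫ x in Q, ∑ i, (u₀ x i - v 0 x i) ^ 2 with hW
  have hfin : g t + (ν / 2) * (∫ s in (0 : ℝ)..t, h s) ≤ (1 / 2) * W * X :=
    hG.trans (mul_le_mul_of_nonneg_left hexp (by positivity))
  have hJ : 0 ≤ ∫ s in (0 : ℝ)..t, h s :=
    intervalIntegral.integral_nonneg ht.1 fun s _ => hh0 s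
  set a := ∫ x in Q, ∑ i, (u t x i - v t x i) ^ 2 with ha
  have ha0 : 0 ≤ a := integral_nonneg fun x => Finset.sum_nonneg fun i _ => sq_nonneg _
  have hga : g t = (1 / 2) * a := rfl
  rw [hga] at hfin
  change a + (∫ s in (0 : ℝ)..t, h s) ≤ (1 + 1 / ν) * X * W
  set J := ∫ s in (0 : ℝ)..t, h s
  have h20 : 0 ≤ ν * J := mul_nonneg hν.le hJ
  have h21 : a ≤ W * X := by linarith
  have h22 : ν * J ≤ W * X := by linarith
  have h23 : J ≤ (1 / ν) * (W * X) := by
    rw [one_div, inv_mul_eq_div, le_div_iff₀ hν]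
    linarith
  calc a + J ≤ W * X + (1 / ν) * (W * X) := add_le_add h21 h23
    _ = (1 + 1 / ν) * X * W := by ring

end Pool.Agent.H303.DEE.S7

namespace Pool.Agent.H303.DEE

/-- Step `B7`: uniform stability. -/
theorem s7 (h0 : A0) (h1 : A1) (h4 : A4) (h5 : A5) (k1 : B1) (k3 : B3) (k5 : B5) (k6 : B6) : B7 :=
  S7.main h0 h1 h4 h5 k1 k3 k5 k6

end Pool.Agent.H303.DEE
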