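import Pool.Agent.H303.DEE.Defs

/-!
Statements of the steps of the proof (project DEE).
-/

open MeasureTheory Set Filter Topology
open scoped ContDiff ENNReal

namespace Pool.Agent.H303.DEE

/-- Lebesgue measure on the cell. -/
noncomputable abbrev mQ : Measure V := volume.restrict Q

/-- The gradient of a smooth field: `grd v t x i j = ∂_j v_i (t, x)`. -/
noncomputable def grd (v : ℝ → V → V) (t : ℝ) (x : V) (i j : Fin 3) : ℝ :=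
  partialD 1 j (fun y => v t y i) x

/-- continuity of derivatives up to the time `0` -/
def A0 : Prop := ∀ (v : ℝ → V → V),
  ContDiffOn ℝ ∞ (fun z : ℝ × V => v z.1 z.2) (Ici 0 ×ˢ univ) →
  (∀ t, 0 ≤ t → ContDiff ℝ ∞ (v t)) ∧
  (∀ i j, ContinuousOn (fun z : ℝ × V => grd v z.1 z.2 i j) (Ici 0 ×ˢ univ)) ∧
  (∀ (i j : Fin 3) (n : ℕ),
    ContinuousOn (fun z : ℝ × V => partialD n j (fun y => v z.1 y i) z.2) (Ici 0 ×ˢ univ))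

/-- the velocity is square integrable in space-time -/
def A1 : Prop := ∀ (n : ℕ) (ν : ℝ) (α : Fin 3 → ℝ) (T : ℝ) (u₀ : V → V) (u : ℝ → V → V)
  (G : ℝ → V → Fin 3 → Fin 3 → ℝ), 0 < ν → IsLerayHopf n ν α T u₀ u G →
  (∀ t ∈ Icc 0 T, ∫ x in Q, ∑ i, u t x i ^ 2 ≤ ∫ x in Q, ∑ i, u₀ x i ^ 2) ∧
  ∀ i, MemLp (fun z : ℝ × V => u z.1 z.2 i) 2 (volume.restrict (Icc 0 T ×ˢ Q))

/-- Gronwall's inequality for integrable functions -/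
def A2 : Prop := ∀ (T K g₀ : ℝ) (g D : ℝ → ℝ), 0 ≤ K → 0 ≤ g₀ → IntegrableOn g (Icc 0 T) →
  (∀ t ∈ Icc 0 T, 0 ≤ g t) → (∀ t ∈ Icc 0 T, 0 ≤ D t) →
  (∀ t ∈ Icc 0 T, g t + D t ≤ g₀ + K * ∫ s in (0 : ℝ)..t, g s) →
  ∀ t ∈ Icc 0 T, g t + D t ≤ g₀ * Real.exp (K * T)

/-- the identity in space, at one time -/
def A3 : Prop := ∀ (n : ℕ) (ν : ℝ) (α : Fin 3 → ℝ) (u : V → V) (G : V → Fin 3 → Fin 3 → ℝ)
  (v dv : V → V) (p : V → ℝ),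
  (∀ i, MemLp (fun x => u x i) 2 mQ) → (∀ i j, MemLp (fun x => G x i j) 2 mQ) →
  (∀ ψ : V → ℝ, ContDiff ℝ ∞ ψ → Periodic ψ → ∫ x in Q, ∑ j, u x j * partialD 1 j ψ x = 0) →
  (∀ ψ : V → ℝ, ContDiff ℝ ∞ ψ → Periodic ψ → ∀ i j,
    ∫ x in Q, u x i * partialD 1 j ψ x = -∫ x in Q, G x i j * ψ x) →
  Smooth v → ContDiff ℝ ∞ p → Periodic p →
  (∀ x i, dv x i + ∑ j, v x j * partialD 1 j (fun y => v y i) x
      = ν * ∑ j, partialD 2 j (fun y => v y i) x + ∑ j, α j * partialD n j (fun y => v y i) x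
        - partialD 1 i p x) →
  ∫ x in Q, ((∑ i, u x i * dv x i)
          + (∑ i, ∑ j, u x i * u x j * partialD 1 j (fun y => v y i) x)
          - ν * (∑ i, ∑ j, G x i j * partialD 1 j (fun y => v y i) x)
          - ∑ i, ∑ j, α j * (u x i * partialD n j (fun y => v y i) x))
    = (∫ x in Q, ∑ i, ∑ j, (u x i - v x i) * (u x j - v x j) * partialD 1 j (fun y => v y i) x)
      - 2 * ν * ∫ x in Q, ∑ i, ∑ j, G x i j * partialD 1 j (fun y => v y i) x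

/-- the energy equality of smooth solutions -/
def A4 : Prop := ∀ (n : ℕ) (ν : ℝ) (α : Fin 3 → ℝ) (v : ℝ → V → V) (p : ℝ → V → ℝ), Odd n →
  IsSol n ν α (Ici 0) v p → ∀ t, 0 ≤ t → EnergyEq ν (v 0) v (grd v) t

/-- the energy of the difference -/
def A5 : Prop := ∀ (n : ℕ) (ν : ℝ) (α : Fin 3 → ℝ) (T : ℝ) (u₀ : V → V) (u : ℝ → V → V)
  (G : ℝ → V → Fin 3 → Fin 3 → ℝ) (v : ℝ → V → V) (p : ℝ → V → ℝ), 0 < ν → Odd n →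
  (∀ i, MemLp (fun x => u₀ x i) 2 mQ) → IsLerayHopf n ν α T u₀ u G → IsSol n ν α (Ici 0) v p →
  ∀ t ∈ Icc 0 T,
    (1 / 2) * (∫ x in Q, ∑ i, (u t x i - v t x i) ^ 2)
        + ν * (∫ s in (0 : ℝ)..t, ∫ x in Q, ∑ i, ∑ j, (G s x i j - grd v s x i j) ^ 2)
      ≤ (1 / 2) * (∫ x in Q, ∑ i, (u₀ x i - v 0 x i) ^ 2)
        - ∫ s in (0 : ℝ)..t, ∫ x in Q, ∑ i, ∑ j, (u s x i - v s x i) * (u s x j - v s x j)
            * grd v s x i j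

/-- stability -/
def A6 : Prop := ∀ (n : ℕ) (ν : ℝ) (α : Fin 3 → ℝ) (v : ℝ → V → V) (p : ℝ → V → ℝ) (T : ℝ),
  0 < ν → Odd n → IsSol n ν α (Ici 0) v p → ∃ C : ℝ, 1 ≤ C ∧ ∀ T' ≤ T, ∀ (u₀ : V → V)
  (u : ℝ → V → V) (G : ℝ → V → Fin 3 → Fin 3 → ℝ),
  (∀ i, MemLp (fun x => u₀ x i) 2 mQ) → IsLerayHopf n ν α T' u₀ u G →
  ∀ t ∈ Icc 0 T',
    (∫ x in Q, ∑ i, (u t x i - v t x i) ^ 2)
        + (∫ s in (0 : ℝ)..t, ∫ x in Q, ∑ i, ∑ j, (G s x i j - grd v s x i j) ^ 2)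
      ≤ C * ∫ x in Q, ∑ i, (u₀ x i - v 0 x i) ^ 2

/-- smooth solutions for all times exist for all smooth data -/
def Glob (n : ℕ) (ν : ℝ) (α : Fin 3 → ℝ) : Prop := ∀ u₀ : V → V, Smooth u₀ →
  ∃ (v : ℝ → V → V) (p : ℝ → V → ℝ), IsSol n ν α (Ici 0) v p ∧ v 0 = u₀

/-- smooth data -/
def A7 : Prop := ∀ (n : ℕ) (ν : ℝ) (α : Fin 3 → ℝ) (v : ℝ → V → V) (p : ℝ → V → ℝ),
  0 < ν → Odd n → IsSol n ν α (Ici 0) v p → ∀ (T : ℝ) (u : ℝ → V → V)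
  (G : ℝ → V → Fin 3 → Fin 3 → ℝ), IsLerayHopf n ν α T (v 0) u G →
  (∀ t ∈ Icc 0 T, u t =ᵐ[mQ] v t) ∧
  (∀ᵐ z ∂(volume.restrict (Icc 0 T ×ˢ Q)), ∀ i j, G z.1 z.2 i j = grd v z.1 z.2 i j) ∧
  ∀ t ∈ Icc 0 T, EnergyEq ν (v 0) u G t

/-- The space `L²_σ`: the closure in `L²(Q)³` of the smooth periodic fields with divergence
zero. -/
def L2s : Set (Lp V 2 mQ) := closure {f | ∃ v : V → V, Smooth v ∧ f =ᵐ[mQ] v}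

/-- generic data -/
def A8 : Prop := ∀ (n : ℕ) (ν : ℝ) (α : Fin 3 → ℝ), 0 < ν → Odd n → Glob n ν α →
  ∃ 𝒢 : Set L2s, IsGδ 𝒢 ∧ Dense 𝒢 ∧ (∀ f : L2s, (∃ v : V → V, Smooth v ∧ f.1 =ᵐ[mQ] v) → f ∈ 𝒢) ∧
    ∀ f ∈ 𝒢, ∀ (T : ℝ) (u : ℝ → V → V) (G : ℝ → V → Fin 3 → Fin 3 → ℝ),
      IsLerayHopf n ν α T f.1 u G → (∀ t ∈ Icc 0 T, EnergyEq ν f.1 u G t) ∧
        ∀ (u' : ℝ → V → V) (G' : ℝ → V → Fin 3 → Fin 3 → ℝ), IsLerayHopf n ν α T f.1 u' G' →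
          ∀ t ∈ Icc 0 T, u' t =ᵐ[mQ] u t

/-- a smooth solution is a Leray-Hopf solution -/
def A9 : Prop := ∀ (n : ℕ) (ν : ℝ) (α : Fin 3 → ℝ) (v : ℝ → V → V) (p : ℝ → V → ℝ) (T : ℝ),
  Odd n → IsSol n ν α (Ici 0) v p →
  IsLerayHopf n ν α T (v 0) (fun t => v (max t 0)) (fun t => grd v (max t 0))

end Pool.Agent.H303.DEE
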