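import Pool.Agent.H303.DEE.Stm9

/-!
Statements of the steps of the proof (project DEE), tenth part: the energy equality with a force,
for `n ≥ 5`.
-/

open MeasureTheory Set Filter Topology Complex
open scoped ContDiff ENNReal

namespace Pool.Agent.H303.DEE.F

/-- Fourier coefficients of a weak solution `a` with the (projected) force `c` -/
structure GSol (g : K → ℝ) (ν T : ℝ) (c a : ℝ → K → C3) : Prop where
  real : ∀ t ∈ Icc 0 T, ∀ k i, a t (-k) i = (starRingEnd ℂ) (a t k i)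
  div : ∀ t ∈ Icc 0 T, ∀ k, dt k (a t k) = 0
  bdd : ∃ E : ℝ, ∀ t ∈ Icc 0 T, Summable (fun k => nm (a t k) ^ 2) ∧ ∑' k, nm (a t k) ^ 2 ≤ E
  cont : ∀ k i, ContinuousOn (fun t => a t k i) (Icc 0 T)
  diss : Summable fun k => ∫ s in (0 : ℝ)..T, kn k ^ 2 * nm (a s k) ^ 2
  intN : ∀ k i, IntegrableOn (fun s => Nl (a s) k i) (Icc 0 T)
  cdiv : ∀ s k, dt k (c s k) = 0
  cint : ∀ k i, IntegrableOn (fun s => c s k i) (Icc 0 T)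
  csum : ∀ᵐ s ∂(volume.restrict (Icc 0 T)), Summable fun k => nm (c s k) ^ 2
  cL2 : IntegrableOn (fun s => ∑' k, nm (c s k) ^ 2) (Icc 0 T)
  ode : ∀ k i, ∀ t ∈ Icc 0 T, a t k i = a 0 k i + ∫ s in (0 : ℝ)..t,
    ((-((4 * Real.pi ^ 2 * ν * kn k ^ 2 : ℝ) : ℂ) + I * (g k : ℂ)) * a s k i - Nl (a s) k i
      + c s k i)

/-- the terms with the force -/
noncomputable def Qf (c U : K → C3) (z : K × K) : ℂ :=
  Xt z.1 (c z.2) (U (z.1 - z.2)) (U z.1) + Xt z.1 (U z.2) (c (z.1 - z.2)) (U z.1)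
    + Xt z.1 (U z.2) (U (z.1 - z.2)) (c z.1)

/-- the weighted energy balance -/
def G2 : Prop := ∀ (g : K → ℝ) (ν T : ℝ) (c a : ℝ → K → C3), GSol g ν T c a → ∀ (w : K → ℝ)
  (S : Finset K), ∀ t ∈ Icc 0 T,
    (1 / 2) * (∑ k ∈ S, w k * nm (a t k) ^ 2)
        + 4 * Real.pi ^ 2 * ν * (∑ k ∈ S, w k * ∫ s in (0 : ℝ)..t, kn k ^ 2 * nm (a s k) ^ 2)
      = (1 / 2) * (∑ k ∈ S, w k * nm (a 0 k) ^ 2)
        - (∫ s in (0 : ℝ)..t,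
            ∑ k ∈ S, w k * (∑ i, Nl (a s) k i * (starRingEnd ℂ) (a s k i)).re)
        + ∑ k ∈ S, w k * ∫ s in (0 : ℝ)..t, (∑ i, c s k i * (starRingEnd ℂ) (a s k i)).re

/-- the product rule for a triad -/
def G3 : Prop := ∀ (g : K → ℝ) (ν T : ℝ) (c a : ℝ → K → C3), GSol g ν T c a → ∀ z : K × K,
  IntegrableOn (fun s => Qz (a s) z) (Icc 0 T) ∧ IntegrableOn (fun s => Qf (c s) (a s) z) (Icc 0 T) ∧
  ∀ t ∈ Icc 0 T, X (a t) z - X (a 0) z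
    = ∫ s in (0 : ℝ)..t, (-(Zd g ν z) * X (a s) z - Qz (a s) z + Qf (c s) (a s) z)

/-- the time integrals, for finitely many triads -/
def G9a : Prop := ∀ (g : K → ℝ) (ν T C : ℝ) (c a : ℝ → K → C3), 0 < ν → (∀ k, g (-k) = -g k) →
  1 ≤ C → Few (fun L m => |g L - g m - g (L - m)| ≤ 8 * kn L ^ 3) C → GSol g ν T c a →
  ∃ B : ℝ, 0 ≤ B ∧ ∀ M : ℝ, 1 ≤ M → ∀ t ∈ Icc 0 T, ∀ S : Finset (K × K),
    ‖∑ z ∈ S, ((wt M z.1 - wt M (z.1 - z.2) : ℝ) : ℂ) * ∫ s in (0 : ℝ)..t, X (a s) z‖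
      ≤ B * (√(∑' k, tl M k * dd a T k) + M ^ (-(1 / 4) : ℝ))

/-- the flux tends to zero -/
def G9 : Prop := ∀ (g : K → ℝ) (ν T C : ℝ) (c a : ℝ → K → C3), 0 < ν → (∀ k, g (-k) = -g k) →
  1 ≤ C → Few (fun L m => |g L - g m - g (L - m)| ≤ 8 * kn L ^ 3) C → GSol g ν T c a →
  ∀ t ∈ Icc 0 T, Tendsto (fun m : ℕ => ∫ s in (0 : ℝ)..t, flux ((m : ℝ) + 1) (a s)) atTop (𝓝 0)

/-- the energy equality in Fourier variables -/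
def G10 : Prop := ∀ (g : K → ℝ) (ν T C : ℝ) (c a : ℝ → K → C3), 0 < ν → (∀ k, g (-k) = -g k) →
  1 ≤ C → Few (fun L m => |g L - g m - g (L - m)| ≤ 8 * kn L ^ 3) C → GSol g ν T c a →
  ∀ t ∈ Icc 0 T,
    HasSum (fun k => ∫ s in (0 : ℝ)..t, (∑ i, c s k i * (starRingEnd ℂ) (a s k i)).re)
      ((1 / 2) * (∑' k, nm (a t k) ^ 2)
        + 4 * Real.pi ^ 2 * ν * (∑' k, ∫ s in (0 : ℝ)..t, kn k ^ 2 * nm (a s k) ^ 2)
        - (1 / 2) * ∑' k, nm (a 0 k) ^ 2)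

/-- Weak solutions of the energy class with the force `f`. -/
structure IsWeakF (n : ℕ) (ν : ℝ) (α : Fin 3 → ℝ) (T : ℝ) (f : ℝ → V → V) (u₀ : V → V)
    (u : ℝ → V → V) (G : ℝ → V → Fin 3 → Fin 3 → ℝ) : Prop where
  meas_u : Measurable fun z : ℝ × V => u z.1 z.2
  meas_G : Measurable fun z : ℝ × V => G z.1 z.2
  l2_u : ∀ t ∈ Icc 0 T, ∀ i, MemLp (fun x => u t x i) 2 (volume.restrict Q)
  bdd : ∃ E : ℝ, ∀ t ∈ Icc 0 T, ∫ x in Q, ∑ i, u t x i ^ 2 ≤ E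
  l2_G : ∀ i j, MemLp (fun z : ℝ × V => G z.1 z.2 i j) 2 (volume.restrict (Icc 0 T ×ˢ Q))
  divfree : ∀ t ∈ Icc 0 T, ∀ ψ : V → ℝ, ContDiff ℝ ∞ ψ → Periodic ψ →
    ∫ x in Q, ∑ j, u t x j * partialD 1 j ψ x = 0
  grad : ∀ᵐ t ∂(volume.restrict (Icc 0 T)), ∀ ψ : V → ℝ, ContDiff ℝ ∞ ψ → Periodic ψ → ∀ i j,
    ∫ x in Q, u t x i * partialD 1 j ψ x = -∫ x in Q, G t x i j * ψ x
  weak : ∀ φ, Test φ → ∀ t ∈ Icc 0 T,
    (∫ x in Q, ∑ i, u t x i * φ t x i) - (∫ x in Q, ∑ i, u₀ x i * φ 0 x i)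
      = (∫ s in (0 : ℝ)..t, ∫ x in Q, ((∑ i, u s x i * deriv (fun r => φ r x i) s)
          + (∑ i, ∑ j, u s x i * u s x j * partialD 1 j (fun y => φ s y i) x)
          - ν * (∑ i, ∑ j, G s x i j * partialD 1 j (fun y => φ s y i) x)
          - ∑ i, ∑ j, α j * (u s x i * partialD n j (fun y => φ s y i) x)))
        + ∫ s in (0 : ℝ)..t, ∫ x in Q, ∑ i, f s x i * φ s x i

/-- forces in `L²(0, T; L²)` -/
structure Force (T : ℝ) (f : ℝ → V → V) : Prop where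
  meas : Measurable fun z : ℝ × V => f z.1 z.2
  l2 : ∀ i, MemLp (fun z : ℝ × V => f z.1 z.2 i) 2 (volume.restrict (Icc 0 T ×ˢ Q))

/-- the coefficients of the projected force -/
noncomputable abbrev cfc (f : ℝ → V → V) : ℝ → K → C3 := fun s k => Pr k (cfs f s k)

/-- the equation for the Fourier coefficients -/
def G5 : Prop := ∀ (n : ℕ) (ν : ℝ) (α : Fin 3 → ℝ) (T : ℝ) (f : ℝ → V → V) (u₀ : V → V)
  (u : ℝ → V → V) (G : ℝ → V → Fin 3 → Fin 3 → ℝ), 0 < ν → Odd n → 0 ≤ T → Force T f →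
  IsWeakF n ν α T f u₀ u G →
  (∀ k i, IntegrableOn (fun s => Nl (cfs u s) k i) (Icc 0 T)) ∧
  (∀ k i, ContinuousOn (fun t => cfs u t k i) (Icc 0 T)) ∧
  (∀ k i, IntegrableOn (fun s => cfc f s k i) (Icc 0 T)) ∧
  ∀ k i, ∀ t ∈ Icc 0 T, cfs u t k i = cfs u 0 k i + ∫ s in (0 : ℝ)..t,
    ((-((4 * Real.pi ^ 2 * ν * kn k ^ 2 : ℝ) : ℂ) + I * (gg n α k : ℂ)) * cfs u s k i
      - Nl (cfs u s) k i + cfc f s k i)

/-- the dissipation -/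
def G6 : Prop := ∀ (T : ℝ) (u : ℝ → V → V) (G : ℝ → V → Fin 3 → Fin 3 → ℝ),
  Measurable (fun z : ℝ × V => u z.1 z.2) → Measurable (fun z : ℝ × V => G z.1 z.2) →
  (∀ t ∈ Icc 0 T, ∀ i, MemLp (fun x => u t x i) 2 (volume.restrict Q)) →
  (∀ i j, MemLp (fun z : ℝ × V => G z.1 z.2 i j) 2 (volume.restrict (Icc 0 T ×ˢ Q))) →
  (∀ᵐ t ∂(volume.restrict (Icc 0 T)), ∀ ψ : V → ℝ, ContDiff ℝ ∞ ψ → Periodic ψ → ∀ i j,
    ∫ x in Q, u t x i * partialD 1 j ψ x = -∫ x in Q, G t x i j * ψ x) →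
  (∀ k i, ContinuousOn (fun t => cfs u t k i) (Icc 0 T)) → ∀ t ∈ Icc 0 T,
  HasSum (fun k => 4 * Real.pi ^ 2 * ∫ s in (0 : ℝ)..t, kn k ^ 2 * nm (cfs u s k) ^ 2)
    (∫ s in (0 : ℝ)..t, ∫ x in Q, ∑ i, ∑ j, G s x i j ^ 2)

/-- the coefficients of a force -/
def G7a : Prop := ∀ (T : ℝ) (f : ℝ → V → V), 0 ≤ T → Force T f →
  (∀ s k, dt k (cfc f s k) = 0) ∧
  (∀ᵐ s ∂(volume.restrict (Icc 0 T)), Summable fun k => nm (cfc f s k) ^ 2) ∧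
  IntegrableOn (fun s => ∑' k, nm (cfc f s k) ^ 2) (Icc 0 T)

/-- the coefficients of a weak solution -/
def G7 : Prop := ∀ (n : ℕ) (ν : ℝ) (α : Fin 3 → ℝ) (T : ℝ) (f : ℝ → V → V) (u₀ : V → V)
  (u : ℝ → V → V) (G : ℝ → V → Fin 3 → Fin 3 → ℝ), 0 < ν → Odd n → 0 ≤ T → Force T f →
  IsWeakF n ν α T f u₀ u G → GSol (gg n α) ν T (cfc f) (cfs u)

/-- the work of the force -/
def G8 : Prop := ∀ (T : ℝ) (f u : ℝ → V → V), 0 ≤ T → Force T f →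
  Measurable (fun z : ℝ × V => u z.1 z.2) →
  (∀ t ∈ Icc 0 T, ∀ i, MemLp (fun x => u t x i) 2 (volume.restrict Q)) →
  (∃ E : ℝ, ∀ t ∈ Icc 0 T, ∫ x in Q, ∑ i, u t x i ^ 2 ≤ E) →
  (∀ t ∈ Icc 0 T, ∀ k, dt k (cfs u t k) = 0) → ∀ t ∈ Icc 0 T,
  HasSum (fun k => ∫ s in (0 : ℝ)..t, (∑ i, cfc f s k i * (starRingEnd ℂ) (cfs u s k i)).re)
    (∫ s in (0 : ℝ)..t, ∫ x in Q, ∑ i, f s x i * u s x i)

/-- all weak solutions in the energy class satisfy the energy equality, with a force -/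
def G11 : Prop := ∀ (n : ℕ) (ν : ℝ) (α : Fin 3 → ℝ) (C : ℝ), 0 < ν → Odd n → 1 ≤ C →
  Few (fun L m => |gg n α L - gg n α m - gg n α (L - m)| ≤ 8 * kn L ^ 3) C →
  ∀ (T : ℝ) (f : ℝ → V → V) (h : L2s) (u : ℝ → V → V) (G : ℝ → V → Fin 3 → Fin 3 → ℝ),
    Force T f → IsWeakF n ν α T f h.1 u G → ∀ t ∈ Icc 0 T,
    (1 / 2) * (∫ x in Q, ∑ i, u t x i ^ 2)
        + ν * (∫ s in (0 : ℝ)..t, ∫ x in Q, ∑ i, ∑ j, G s x i j ^ 2)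
      = (1 / 2) * (∫ x in Q, ∑ i, (h.1 : V → V) x i ^ 2)
        + ∫ s in (0 : ℝ)..t, ∫ x in Q, ∑ i, f s x i * u s x i

end Pool.Agent.H303.DEE.F
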