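import Pool.Agent.H303.DEE.Stm

/-!
Statements of the steps of the proof (project DEE), second part: initial values in `H¹_σ` and in
`L²_σ`.
-/

open MeasureTheory Set Filter Topology
open scoped ContDiff ENNReal

namespace Pool.Agent.H303.DEE

/-- `f` is in `H¹_σ` on the torus, with the gradient `g i j = ∂_j f_i`: `f` and `g` are square
integrable in `Q`, the divergence of `f` is zero and `g` is the weak gradient of `f`. -/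
structure H1s (f : V → V) (g : V → Fin 3 → Fin 3 → ℝ) : Prop where
  l2 : ∀ i, MemLp (fun x => f x i) 2 (volume.restrict Q)
  l2g : ∀ i j, MemLp (fun x => g x i j) 2 (volume.restrict Q)
  div : ∀ ψ : V → ℝ, ContDiff ℝ ∞ ψ → Periodic ψ → ∫ x in Q, ∑ j, f x j * partialD 1 j ψ x = 0
  grad : ∀ ψ : V → ℝ, ContDiff ℝ ∞ ψ → Periodic ψ → ∀ i j,
    ∫ x in Q, f x i * partialD 1 j ψ x = -∫ x in Q, g x i j * ψ x

/-- A Leray-Hopf solution which can be restarted at almost every time: for almost every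
`s ∈ (0, T)` also `t ↦ u (s + t)` is a Leray-Hopf solution on `[0, T - s]`, with the initial value
`u(s)`; that is, `u` satisfies the strong energy inequality. -/
def IsStrong (n : ℕ) (ν : ℝ) (α : Fin 3 → ℝ) (T : ℝ) (u₀ : V → V) (u : ℝ → V → V)
    (G : ℝ → V → Fin 3 → Fin 3 → ℝ) : Prop :=
  IsLerayHopf n ν α T u₀ u G ∧ ∀ᵐ s ∂(volume.restrict (Icc 0 T)),
    IsLerayHopf n ν α (T - s) (u s) (fun t => u (s + t)) (fun t => G (s + t))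

/-- the supremum norm -/
def B1 : Prop := ∀ ε : ℝ, 0 < ε → ∃ C : ℝ, 0 ≤ C ∧ ∀ v : V → V, ContDiff ℝ ∞ v → Periodic v →
  ∀ x, ∑ i, v x i ^ 2 ≤ C * (∫ y in Q, ∑ i, v y i ^ 2)
    + ε * ∫ y in Q, ∑ i, (∑ j, partialD 2 j (fun z => v z i) y) ^ 2

/-- the balance of the enstrophy of smooth solutions -/
def B2 : Prop := ∀ (n : ℕ) (ν : ℝ) (α : Fin 3 → ℝ) (v : ℝ → V → V) (p : ℝ → V → ℝ), Odd n →
  IsSol n ν α (Ici 0) v p → ∀ t, 0 ≤ t →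
    (1 / 2) * (∫ x in Q, ∑ i, ∑ j, grd v t x i j ^ 2)
        + ν * (∫ s in (0 : ℝ)..t, ∫ x in Q, ∑ i, (∑ j, partialD 2 j (fun y => v s y i) x) ^ 2)
      = (1 / 2) * (∫ x in Q, ∑ i, ∑ j, grd v 0 x i j ^ 2)
        + ∫ s in (0 : ℝ)..t, ∫ x in Q, ∑ i, (∑ j, partialD 2 j (fun y => v s y i) x)
            * ∑ j, v s x j * grd v s x i j

/-- a bound of the second derivatives -/
def B3 : Prop := ∀ (ν E M T : ℝ), 0 < ν → ∃ K : ℝ, ∀ (n : ℕ) (α : Fin 3 → ℝ) (v : ℝ → V → V)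
  (p : ℝ → V → ℝ), Odd n → IsSol n ν α (Ici 0) v p → (∫ x in Q, ∑ i, v 0 x i ^ 2) ≤ E →
  (∀ t ∈ Icc 0 T, (∫ x in Q, ∑ i, ∑ j, grd v t x i j ^ 2) ≤ M) →
  ∀ t ∈ Icc 0 T,
    (∫ s in (0 : ℝ)..t, ∫ x in Q, ∑ i, (∑ j, partialD 2 j (fun y => v s y i) x) ^ 2) ≤ K

/-- global smooth solutions with a bound of the enstrophy -/
def GlobB (n : ℕ) (ν : ℝ) (α : Fin 3 → ℝ) : Prop := ∀ (R T : ℝ), ∃ M : ℝ, ∀ u₀ : V → V,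
  Smooth u₀ → (∫ x in Q, ∑ i, u₀ x i ^ 2)
    + (∫ x in Q, ∑ i, ∑ j, partialD 1 j (fun y => u₀ y i) x ^ 2) ≤ R →
  ∃ (v : ℝ → V → V) (p : ℝ → V → ℝ), IsSol n ν α (Ici 0) v p ∧ v 0 = u₀ ∧
    ∀ t ∈ Icc 0 T, (∫ x in Q, ∑ i, ∑ j, grd v t x i j ^ 2) ≤ M

/-- integration by parts in the trilinear term -/
def B5 : Prop := ∀ (u : V → V) (G : V → Fin 3 → Fin 3 → ℝ) (v : V → V), H1s u G → Smooth v →
  ∫ x in Q, ∑ i, ∑ j, (u x i - v x i) * (u x j - v x j) * partialD 1 j (fun y => v y i) x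
    = -∫ x in Q, ∑ i, ∑ j, (u x j - v x j) * (G x i j - partialD 1 j (fun y => v y i) x) * v x i

/-- Gronwall's inequality with a continuous coefficient -/
def B6 : Prop := ∀ (T g₀ : ℝ) (g D k : ℝ → ℝ), 0 ≤ g₀ → IntegrableOn g (Icc 0 T) →
  ContinuousOn k (Icc 0 T) → (∀ t ∈ Icc 0 T, 0 ≤ k t) →
  (∀ t ∈ Icc 0 T, 0 ≤ g t) → (∀ t ∈ Icc 0 T, 0 ≤ D t) →
  (∀ t ∈ Icc 0 T, g t + D t ≤ g₀ + ∫ s in (0 : ℝ)..t, k s * g s) →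
  ∀ t ∈ Icc 0 T, g t + D t ≤ g₀ * Real.exp (∫ s in (0 : ℝ)..T, k s)

/-- stability, with a uniform constant -/
def B7 : Prop := ∀ (n : ℕ) (ν : ℝ) (α : Fin 3 → ℝ) (E M T : ℝ), 0 < ν → Odd n → ∃ C : ℝ, 0 ≤ C ∧
  ∀ (v : ℝ → V → V) (p : ℝ → V → ℝ), IsSol n ν α (Ici 0) v p → (∫ x in Q, ∑ i, v 0 x i ^ 2) ≤ E →
  (∀ t ∈ Icc 0 T, (∫ x in Q, ∑ i, ∑ j, grd v t x i j ^ 2) ≤ M) →
  ∀ (u₀ : V → V) (u : ℝ → V → V) (G : ℝ → V → Fin 3 → Fin 3 → ℝ),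
  (∀ i, MemLp (fun x => u₀ x i) 2 mQ) → IsLerayHopf n ν α T u₀ u G →
  ∀ t ∈ Icc 0 T,
    (∫ x in Q, ∑ i, (u t x i - v t x i) ^ 2)
        + (∫ s in (0 : ℝ)..t, ∫ x in Q, ∑ i, ∑ j, (G s x i j - grd v s x i j) ^ 2)
      ≤ C * ∫ x in Q, ∑ i, (u₀ x i - v 0 x i) ^ 2

/-- smooth fields are dense in `H¹_σ` -/
def B8 : Prop := ∀ (f : V → V) (g : V → Fin 3 → Fin 3 → ℝ), H1s f g → ∀ ε : ℝ, 0 < ε →
  ∃ v : V → V, Smooth v ∧ (∫ x in Q, ∑ i, (f x i - v x i) ^ 2) ≤ ε ∧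
    (∫ x in Q, ∑ i, ∑ j, (g x i j - partialD 1 j (fun y => v y i) x) ^ 2) ≤ ε

/-- initial values in `H¹_σ` -/
def B9 : Prop := ∀ (n : ℕ) (ν : ℝ) (α : Fin 3 → ℝ), 0 < ν → Odd n → GlobB n ν α →
  ∀ (T : ℝ) (u₀ : V → V) (g₀ : V → Fin 3 → Fin 3 → ℝ) (u : ℝ → V → V)
    (G : ℝ → V → Fin 3 → Fin 3 → ℝ), H1s u₀ g₀ → IsLerayHopf n ν α T u₀ u G →
  (∀ t ∈ Icc 0 T, EnergyEq ν u₀ u G t) ∧
    ∀ (u' : ℝ → V → V) (G' : ℝ → V → Fin 3 → Fin 3 → ℝ), IsLerayHopf n ν α T u₀ u' G' →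
      ∀ t ∈ Icc 0 T, u' t =ᵐ[mQ] u t

/-- initial values in `L²_σ` -/
def B10 : Prop := ∀ (n : ℕ) (ν : ℝ) (α : Fin 3 → ℝ), 0 < ν → Odd n → GlobB n ν α →
  ∀ (T : ℝ) (f : L2s) (u : ℝ → V → V) (G : ℝ → V → Fin 3 → Fin 3 → ℝ),
    IsStrong n ν α T f.1 u G → ∀ t ∈ Icc 0 T, EnergyEq ν f.1 u G t

end Pool.Agent.H303.DEE
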