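import Pool.Agent.H303.DEE.Stm2
import Pool.Agent.H303.DEE.T8

/-!
Statements of the steps of the proof (project DEE), third part: existence of Leray-Hopf solutions
for initial values in `H¹_σ` and for generic initial values in `L²_σ`.
-/

open MeasureTheory Set Filter Topology
open scoped ContDiff ENNReal

namespace Pool.Agent.H303.DEE

/-- limits of Cauchy sequences in `L²` -/
def C1 : Prop := ∀ (X : Type) [MeasurableSpace X] (μ : Measure X) (w : ℕ → X → ℝ),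
  (∀ k, Measurable (w k)) → (∀ k, MemLp (w k) 2 μ) →
  (∀ k l, k ≤ l → ∫ x, (w l x - w k x) ^ 2 ∂μ ≤ (1 / 4) ^ k) →
  MemLp (fun x => limsup (fun k => w k x) atTop) 2 μ ∧
    ∀ k, ∫ x, (limsup (fun k => w k x) atTop - w k x) ^ 2 ∂μ ≤ (1 / 4) ^ k

/-- bounds of test fields -/
def C2 : Prop := ∀ (n : ℕ) (T : ℝ) (φ : ℝ → V → V), Test φ → ∃ M : ℝ, 0 ≤ M ∧
  (∀ s ∈ Ioc 0 T, ∀ x ∈ Q, ∀ i j, |deriv (fun r => φ r x i) s| ≤ M ∧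
    |partialD 1 j (fun y => φ s y i) x| ≤ M ∧ |partialD n j (fun y => φ s y i) x| ≤ M) ∧
  ∀ i j,
    AEStronglyMeasurable (fun z : ℝ × V => deriv (fun r => φ r z.2 i) z.1)
      (volume.restrict (Ioc 0 T ×ˢ Q)) ∧
    AEStronglyMeasurable (fun z : ℝ × V => partialD 1 j (fun y => φ z.1 y i) z.2)
      (volume.restrict (Ioc 0 T ×ˢ Q)) ∧
    AEStronglyMeasurable (fun z : ℝ × V => partialD n j (fun y => φ z.1 y i) z.2)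
      (volume.restrict (Ioc 0 T ×ˢ Q))

/-- passage to the limit in the weak formulation -/
def C3 : Prop := ∀ (n : ℕ) (ν : ℝ) (α : Fin 3 → ℝ) (T : ℝ) (U : ℕ → ℝ → V → V)
  (H : ℕ → ℝ → V → Fin 3 → Fin 3 → ℝ) (u : ℝ → V → V) (G : ℝ → V → Fin 3 → Fin 3 → ℝ),
  (∀ k i, MemLp (fun z : ℝ × V => U k z.1 z.2 i) 2 (volume.restrict (Icc 0 T ×ˢ Q))) →
  (∀ k i j, MemLp (fun z : ℝ × V => H k z.1 z.2 i j) 2 (volume.restrict (Icc 0 T ×ˢ Q))) →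
  (∀ i, MemLp (fun z : ℝ × V => u z.1 z.2 i) 2 (volume.restrict (Icc 0 T ×ˢ Q))) →
  (∀ i j, MemLp (fun z : ℝ × V => G z.1 z.2 i j) 2 (volume.restrict (Icc 0 T ×ˢ Q))) →
  (∀ i, Tendsto (fun k => ∫ z in Icc 0 T ×ˢ Q, (u z.1 z.2 i - U k z.1 z.2 i) ^ 2)
    atTop (𝓝 0)) →
  (∀ i j, Tendsto (fun k => ∫ z in Icc 0 T ×ˢ Q, (G z.1 z.2 i j - H k z.1 z.2 i j) ^ 2)
    atTop (𝓝 0)) →
  ∀ φ, Test φ → ∀ t ∈ Icc 0 T,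
    Tendsto (fun k => ∫ s in (0 : ℝ)..t, ∫ x in Q, ((∑ i, U k s x i * deriv (fun r => φ r x i) s)
          + (∑ i, ∑ j, U k s x i * U k s x j * partialD 1 j (fun y => φ s y i) x)
          - ν * (∑ i, ∑ j, H k s x i j * partialD 1 j (fun y => φ s y i) x)
          - ∑ i, ∑ j, α j * (U k s x i * partialD n j (fun y => φ s y i) x))) atTop
      (𝓝 (∫ s in (0 : ℝ)..t, ∫ x in Q, ((∑ i, u s x i * deriv (fun r => φ r x i) s)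
          + (∑ i, ∑ j, u s x i * u s x j * partialD 1 j (fun y => φ s y i) x)
          - ν * (∑ i, ∑ j, G s x i j * partialD 1 j (fun y => φ s y i) x)
          - ∑ i, ∑ j, α j * (u s x i * partialD n j (fun y => φ s y i) x))))

/-- convergence for each time implies convergence in space-time -/
def C4a : Prop := ∀ (T : ℝ) (a b : ℝ × V → ℝ), Measurable a → Measurable b →
  MemLp b 2 (volume.restrict (Icc 0 T ×ˢ Q)) → ∀ ε : ℝ,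
  (∀ t ∈ Icc 0 T, MemLp (fun x => a (t, x)) 2 mQ) → (∀ t ∈ Icc 0 T, MemLp (fun x => b (t, x)) 2 mQ) →
  (∀ t ∈ Icc 0 T, ∫ x in Q, (a (t, x) - b (t, x)) ^ 2 ≤ ε) →
  MemLp a 2 (volume.restrict (Icc 0 T ×ˢ Q)) ∧
    ∫ z in Icc 0 T ×ˢ Q, (a z - b z) ^ 2 ≤ max T 0 * ε

/-- limits of weak gradients -/
def C4g : Prop := ∀ (T : ℝ) (U : ℕ → ℝ → V → V)
  (H : ℕ → ℝ → V → Fin 3 → Fin 3 → ℝ) (u : ℝ → V → V) (G : ℝ → V → Fin 3 → Fin 3 → ℝ),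
  (∀ k i j, MemLp (fun z : ℝ × V => H k z.1 z.2 i j) 2 (volume.restrict (Icc 0 T ×ˢ Q))) →
  (∀ i j, MemLp (fun z : ℝ × V => G z.1 z.2 i j) 2 (volume.restrict (Icc 0 T ×ˢ Q))) →
  (∀ k, ∀ t ∈ Icc 0 T, ∀ i, MemLp (fun x => U k t x i) 2 mQ) →
  (∀ t ∈ Icc 0 T, ∀ i, MemLp (fun x => u t x i) 2 mQ) →
  (∀ k, ∀ t ∈ Icc 0 T, ∀ i, ∫ x in Q, (u t x i - U k t x i) ^ 2 ≤ (1 / 4) ^ k) →
  (∀ k i j, ∫ z in Icc 0 T ×ˢ Q, (G z.1 z.2 i j - H k z.1 z.2 i j) ^ 2 ≤ (1 / 4) ^ k) →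
  (∀ k, ∀ᵐ t ∂(volume.restrict (Icc 0 T)), ∀ ψ : V → ℝ, ContDiff ℝ ∞ ψ → Periodic ψ → ∀ i j,
    ∫ x in Q, U k t x i * partialD 1 j ψ x = -∫ x in Q, H k t x i j * ψ x) →
  ∀ᵐ t ∂(volume.restrict (Icc 0 T)), ∀ ψ : V → ℝ, ContDiff ℝ ∞ ψ → Periodic ψ → ∀ i j,
    ∫ x in Q, u t x i * partialD 1 j ψ x = -∫ x in Q, G t x i j * ψ x

/-- the Leray-Hopf solutions are closed under strong limits -/
def C4 : Prop := ∀ (n : ℕ) (ν : ℝ) (α : Fin 3 → ℝ) (T : ℝ) (f : ℕ → V → V) (U : ℕ → ℝ → V → V)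
  (H : ℕ → ℝ → V → Fin 3 → Fin 3 → ℝ) (u₀ : V → V) (u : ℝ → V → V)
  (G : ℝ → V → Fin 3 → Fin 3 → ℝ), 0 < ν →
  (∀ k, IsLerayHopf n ν α T (f k) (U k) (H k)) →
  (∀ i, MemLp (fun x => u₀ x i) 2 mQ) → (∀ k i, MemLp (fun x => f k x i) 2 mQ) →
  Tendsto (fun k => ∫ x in Q, ∑ i, (u₀ x i - f k x i) ^ 2) atTop (𝓝 0) →
  (Measurable fun z : ℝ × V => u z.1 z.2) → (Measurable fun z : ℝ × V => G z.1 z.2) →
  (∀ t ∈ Icc 0 T, ∀ i, MemLp (fun x => u t x i) 2 mQ) →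
  (∀ i j, MemLp (fun z : ℝ × V => G z.1 z.2 i j) 2 (volume.restrict (Icc 0 T ×ˢ Q))) →
  (∀ k, ∀ t ∈ Icc 0 T, ∀ i, ∫ x in Q, (u t x i - U k t x i) ^ 2 ≤ (1 / 4) ^ k) →
  (∀ k i j, ∫ z in Icc 0 T ×ˢ Q, (G z.1 z.2 i j - H k z.1 z.2 i j) ^ 2 ≤ (1 / 4) ^ k) →
  IsLerayHopf n ν α T u₀ u G

/-- existence from Cauchy sequences of solutions -/
def C5 : Prop := ∀ (n : ℕ) (ν : ℝ) (α : Fin 3 → ℝ) (T : ℝ) (f : ℕ → V → V) (U : ℕ → ℝ → V → V)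
  (H : ℕ → ℝ → V → Fin 3 → Fin 3 → ℝ) (u₀ : V → V), 0 < ν →
  (∀ k, IsLerayHopf n ν α T (f k) (U k) (H k)) →
  (∀ i, MemLp (fun x => u₀ x i) 2 mQ) → (∀ k i, MemLp (fun x => f k x i) 2 mQ) →
  Tendsto (fun k => ∫ x in Q, ∑ i, (u₀ x i - f k x i) ^ 2) atTop (𝓝 0) →
  (∀ k l, k ≤ l → ∀ t ∈ Icc 0 T, (∫ x in Q, ∑ i, (U l t x i - U k t x i) ^ 2)
    + (∫ s in (0 : ℝ)..t, ∫ x in Q, ∑ i, ∑ j, (H l s x i j - H k s x i j) ^ 2)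
      ≤ (1 / 4) ^ k) →
  ∃ (u : ℝ → V → V) (G : ℝ → V → Fin 3 → Fin 3 → ℝ), IsLerayHopf n ν α T u₀ u G

/-- existence for initial values in `H¹_σ` -/
def C6 : Prop := ∀ (n : ℕ) (ν : ℝ) (α : Fin 3 → ℝ), 0 < ν → Odd n → GlobB n ν α →
  ∀ (T : ℝ) (u₀ : V → V) (g₀ : V → Fin 3 → Fin 3 → ℝ), H1s u₀ g₀ →
    ∃ (u : ℝ → V → V) (G : ℝ → V → Fin 3 → Fin 3 → ℝ), IsLerayHopf n ν α T u₀ u G

/-- existence for generic initial values -/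
def C7 : Prop := ∀ (n : ℕ) (ν : ℝ) (α : Fin 3 → ℝ), 0 < ν → Odd n →
  ∀ f ∈ ⋂ m, T8.UU n ν α m, ∀ T : ℝ,
    ∃ (u : ℝ → V → V) (G : ℝ → V → Fin 3 → Fin 3 → ℝ), IsLerayHopf n ν α T f.1 u G

/-- generic data, with the open sets -/
def C8 : Prop := ∀ (n : ℕ) (ν : ℝ) (α : Fin 3 → ℝ), 0 < ν → Odd n →
  ∀ f ∈ ⋂ m, T8.UU n ν α m, ∀ (T : ℝ) (u : ℝ → V → V) (G : ℝ → V → Fin 3 → Fin 3 → ℝ),
    IsLerayHopf n ν α T f.1 u G → (∀ t ∈ Icc 0 T, EnergyEq ν f.1 u G t) ∧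
      ∀ (u' : ℝ → V → V) (G' : ℝ → V → Fin 3 → Fin 3 → ℝ), IsLerayHopf n ν α T f.1 u' G' →
        ∀ t ∈ Icc 0 T, u' t =ᵐ[mQ] u t

end Pool.Agent.H303.DEE
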