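import Pool.Agent.H303.DEE.Stm3

/-!
Statements of the steps of the proof (project DEE), fourth part: existence of Leray-Hopf solutions
with the strong energy inequality for all initial values in `L²_σ`.
-/

open MeasureTheory Set Filter Topology
open scoped ContDiff ENNReal

namespace Pool.Agent.H303.DEE

/-- `cos (2 π k · x)` and `sin (2 π k · x)` -/
noncomputable def trg (b : Bool) (k : Fin 3 → ℤ) (x : V) : ℝ :=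
  if b then Real.cos (2 * Real.pi * ∑ j, (k j : ℝ) * x j)
  else Real.sin (2 * Real.pi * ∑ j, (k j : ℝ) * x j)

/-- Fourier coefficients of solutions are Lipschitz in time -/
def D1 : Prop := ∀ (n : ℕ) (ν : ℝ) (α : Fin 3 → ℝ) (E : ℝ) (b : Bool) (k : Fin 3 → ℤ) (i : Fin 3),
  0 < ν → Odd n → ∃ L : ℝ, 0 ≤ L ∧ ∀ (v : ℝ → V → V) (p : ℝ → V → ℝ), IsSol n ν α (Ici 0) v p →
    (∫ x in Q, ∑ i, v 0 x i ^ 2) ≤ E → ∀ s t, 0 ≤ s → s ≤ t →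
      |(∫ x in Q, v t x i * trg b k x) - ∫ x in Q, v s x i * trg b k x| ≤ L * (t - s)

/-- extraction of a subsequence -/
def D2 : Prop := ∀ (T : ℝ) (ι : Type) [Countable ι] (a : ℕ → ι → ℝ → ℝ),
  (∀ i, ∃ L : ℝ, ∀ k, ∀ s ∈ Icc 0 T, ∀ t ∈ Icc 0 T, |a k i t - a k i s| ≤ L * |t - s|) →
  (∀ i, ∃ B : ℝ, ∀ k, ∀ t ∈ Icc 0 T, |a k i t| ≤ B) →
  ∃ φ : ℕ → ℕ, StrictMono φ ∧ ∀ i, ∀ ε : ℝ, 0 < ε → ∃ K : ℕ, ∀ k l, K ≤ k → K ≤ l →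
    ∀ t ∈ Icc 0 T, |a (φ k) i t - a (φ l) i t| ≤ ε

/-- the inequality of Friedrichs -/
def D3 : Prop := ∀ δ : ℝ, 0 < δ → ∃ F : Finset (Fin 3 → ℤ), ∀ h : V → ℝ, ContDiff ℝ ∞ h →
  Periodic h → ∫ x in Q, h x ^ 2 ≤
    (∑ k ∈ F, ((∫ x in Q, h x * trg true k x) ^ 2 + (∫ x in Q, h x * trg false k x) ^ 2))
      + δ * ∫ x in Q, ∑ j, partialD 1 j h x ^ 2

/-- strong convergence in space-time -/
def D4 : Prop := ∀ (n : ℕ) (ν : ℝ) (α : Fin 3 → ℝ) (T E : ℝ) (v : ℕ → ℝ → V → V)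
  (p : ℕ → ℝ → V → ℝ), 0 < ν → Odd n → (∀ k, IsSol n ν α (Ici 0) (v k) (p k)) →
  (∀ k, (∫ x in Q, ∑ i, v k 0 x i ^ 2) ≤ E) →
  (∀ (b : Bool) (m : Fin 3 → ℤ) (i : Fin 3), ∀ ε : ℝ, 0 < ε → ∃ K : ℕ, ∀ k l, K ≤ k → K ≤ l →
    ∀ t ∈ Icc 0 T,
      |(∫ x in Q, v k t x i * trg b m x) - ∫ x in Q, v l t x i * trg b m x| ≤ ε) →
  ∀ ε : ℝ, 0 < ε → ∃ K : ℕ, ∀ k l, K ≤ k → K ≤ l → ∀ i,
    ∫ z in Icc 0 T ×ˢ Q, (v l z.1 z.2 i - v k z.1 z.2 i) ^ 2 ≤ ε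

/-- from trigonometric functions to all square integrable functions -/
def D5b : Prop := ∀ (E : ℝ) (w : ℕ → V → ℝ), (∀ k, MemLp (w k) 2 mQ) →
  (∀ k, ∫ x in Q, w k x ^ 2 ≤ E) → (∀ b m, CauchySeq fun k => ∫ x in Q, w k x * trg b m x) →
  ∀ g : V → ℝ, MemLp g 2 mQ → CauchySeq fun k => ∫ x in Q, w k x * g x

/-- a measurable representative, for every time -/
def D5r : Prop := ∀ U : ℝ → Lp ℝ 2 mQ, StronglyMeasurable U →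
  ∃ u : ℝ → V → ℝ, (Measurable fun z : ℝ × V => u z.1 z.2) ∧ ∀ t, u t =ᵐ[mQ] U t

/-- weak limits, for every time -/
def D5a : Prop := ∀ (T E : ℝ) (w : ℕ → ℝ → V → ℝ), (∀ k, Measurable fun z : ℝ × V => w k z.1 z.2) →
  (∀ k, ∀ t ∈ Icc 0 T, MemLp (w k t) 2 mQ) → (∀ k, ∀ t ∈ Icc 0 T, ∫ x in Q, w k t x ^ 2 ≤ E) →
  (∀ t ∈ Icc 0 T, ∀ g : V → ℝ, MemLp g 2 mQ → CauchySeq fun k => ∫ x in Q, w k t x * g x) →
  ∃ u : ℝ → V → ℝ, (Measurable fun z : ℝ × V => u z.1 z.2) ∧ ∀ t ∈ Icc 0 T, MemLp (u t) 2 mQ ∧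
    ∀ g : V → ℝ, MemLp g 2 mQ →
      Tendsto (fun k => ∫ x in Q, w k t x * g x) atTop (𝓝 (∫ x in Q, u t x * g x))

/-- weak compactness in space-time -/
def D6 : Prop := ∀ (T E : ℝ) (H : ℕ → Fin 3 → Fin 3 → ℝ × V → ℝ),
  (∀ k i j, MemLp (H k i j) 2 (volume.restrict (Icc 0 T ×ˢ Q))) →
  (∀ k i j, ∫ z in Icc 0 T ×ˢ Q, H k i j z ^ 2 ≤ E) →
  ∃ (φ : ℕ → ℕ) (G : Fin 3 → Fin 3 → ℝ × V → ℝ), StrictMono φ ∧ (∀ i j, Measurable (G i j)) ∧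
    (∀ i j, MemLp (G i j) 2 (volume.restrict (Icc 0 T ×ˢ Q))) ∧
    ∀ i j, ∀ g : ℝ × V → ℝ, MemLp g 2 (volume.restrict (Icc 0 T ×ˢ Q)) →
      Tendsto (fun k => ∫ z in Icc 0 T ×ˢ Q, H (φ k) i j z * g z) atTop
        (𝓝 (∫ z in Icc 0 T ×ˢ Q, G i j z * g z))

/-- weak derivatives, tested with trigonometric functions -/
def D7a : Prop := ∀ (f g : V → ℝ) (j : Fin 3), MemLp f 2 mQ → MemLp g 2 mQ →
  (∀ b m, ∫ x in Q, f x * partialD 1 j (trg b m) x = -∫ x in Q, g x * trg b m x) →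
  ∀ ψ : V → ℝ, ContDiff ℝ ∞ ψ → Periodic ψ →
    ∫ x in Q, f x * partialD 1 j ψ x = -∫ x in Q, g x * ψ x

/-- The smooth solutions `v k` converge to `(u, G)`: the initial values in `L²`, for every time
weakly in `L²`, in space-time strongly in `L²`, and the gradients weakly in `L²` of space-time. -/
structure Conv (n : ℕ) (ν : ℝ) (α : Fin 3 → ℝ) (T : ℝ) (f : V → V) (v : ℕ → ℝ → V → V)
    (p : ℕ → ℝ → V → ℝ) (u : ℝ → V → V) (G : ℝ → V → Fin 3 → Fin 3 → ℝ) : Prop where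
  sol : ∀ k, IsSol n ν α (Ici 0) (v k) (p k)
  data_l2 : ∀ i, MemLp (fun x => f x i) 2 mQ
  data : Tendsto (fun k => ∫ x in Q, ∑ i, (f x i - v k 0 x i) ^ 2) atTop (𝓝 0)
  meas_u : Measurable fun z : ℝ × V => u z.1 z.2
  meas_G : Measurable fun z : ℝ × V => G z.1 z.2
  l2_u : ∀ t ∈ Icc 0 T, ∀ i, MemLp (fun x => u t x i) 2 mQ
  l2_us : ∀ i, MemLp (fun z : ℝ × V => u z.1 z.2 i) 2 (volume.restrict (Icc 0 T ×ˢ Q))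
  l2_G : ∀ i j, MemLp (fun z : ℝ × V => G z.1 z.2 i j) 2 (volume.restrict (Icc 0 T ×ˢ Q))
  wk : ∀ t ∈ Icc 0 T, ∀ i, ∀ g : V → ℝ, MemLp g 2 mQ →
    Tendsto (fun k => ∫ x in Q, v k t x i * g x) atTop (𝓝 (∫ x in Q, u t x i * g x))
  st : ∀ i, Tendsto (fun k => ∫ z in Icc 0 T ×ˢ Q, (u z.1 z.2 i - v k z.1 z.2 i) ^ 2) atTop (𝓝 0)
  wg : ∀ i j, ∀ g : ℝ × V → ℝ, MemLp g 2 (volume.restrict (Icc 0 T ×ˢ Q)) →
    Tendsto (fun k => ∫ z in Icc 0 T ×ˢ Q, grd (v k) z.1 z.2 i j * g z) atTop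
      (𝓝 (∫ z in Icc 0 T ×ˢ Q, G z.1 z.2 i j * g z))

/-- the limit of the gradients is the gradient -/
def D7 : Prop := ∀ (n : ℕ) (ν : ℝ) (α : Fin 3 → ℝ) (T : ℝ) (f : V → V) (v : ℕ → ℝ → V → V)
  (p : ℕ → ℝ → V → ℝ) (u : ℝ → V → V) (G : ℝ → V → Fin 3 → Fin 3 → ℝ),
  Conv n ν α T f v p u G →
  ∀ᵐ t ∂(volume.restrict (Icc 0 T)), ∀ ψ : V → ℝ, ContDiff ℝ ∞ ψ → Periodic ψ → ∀ i j,
    ∫ x in Q, u t x i * partialD 1 j ψ x = -∫ x in Q, G t x i j * ψ x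

/-- the weak formulation for the limit -/
def D8 : Prop := ∀ (n : ℕ) (ν : ℝ) (α : Fin 3 → ℝ) (T : ℝ) (f : V → V) (v : ℕ → ℝ → V → V)
  (p : ℕ → ℝ → V → ℝ) (u : ℝ → V → V) (G : ℝ → V → Fin 3 → Fin 3 → ℝ), Odd n →
  Conv n ν α T f v p u G → ∀ φ, Test φ → ∀ t ∈ Icc 0 T,
    (∫ x in Q, ∑ i, u t x i * φ t x i) - (∫ x in Q, ∑ i, f x i * φ 0 x i)
      = ∫ s in (0 : ℝ)..t, ∫ x in Q, ((∑ i, u s x i * deriv (fun r => φ r x i) s)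
          + (∑ i, ∑ j, u s x i * u s x j * partialD 1 j (fun y => φ s y i) x)
          - ν * (∑ i, ∑ j, G s x i j * partialD 1 j (fun y => φ s y i) x)
          - ∑ i, ∑ j, α j * (u s x i * partialD n j (fun y => φ s y i) x))

/-- the energy inequality for the limit -/
def D9 : Prop := ∀ (n : ℕ) (ν : ℝ) (α : Fin 3 → ℝ) (T : ℝ) (f : V → V) (v : ℕ → ℝ → V → V)
  (p : ℕ → ℝ → V → ℝ) (u : ℝ → V → V) (G : ℝ → V → Fin 3 → Fin 3 → ℝ), 0 < ν → Odd n →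
  Conv n ν α T f v p u G → ∀ t ∈ Icc 0 T,
    (1 / 2) * (∫ x in Q, ∑ i, u t x i ^ 2)
        + ν * (∫ s in (0 : ℝ)..t, ∫ x in Q, ∑ i, ∑ j, G s x i j ^ 2)
      ≤ (1 / 2) * ∫ x in Q, ∑ i, f x i ^ 2

/-- the limit is a Leray-Hopf solution -/
def D10 : Prop := ∀ (n : ℕ) (ν : ℝ) (α : Fin 3 → ℝ) (T : ℝ) (f : V → V) (v : ℕ → ℝ → V → V)
  (p : ℕ → ℝ → V → ℝ) (u : ℝ → V → V) (G : ℝ → V → Fin 3 → Fin 3 → ℝ), 0 < ν → Odd n →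
  Conv n ν α T f v p u G → IsLerayHopf n ν α T f u G

/-- restart of the limit at almost every time -/
def D11 : Prop := ∀ (n : ℕ) (ν : ℝ) (α : Fin 3 → ℝ) (T : ℝ) (f : V → V) (v : ℕ → ℝ → V → V)
  (p : ℕ → ℝ → V → ℝ) (u : ℝ → V → V) (G : ℝ → V → Fin 3 → Fin 3 → ℝ),
  Conv n ν α T f v p u G → ∀ᵐ s ∂(volume.restrict (Icc 0 T)), ∃ φ : ℕ → ℕ, StrictMono φ ∧
    Conv n ν α (T - s) (u s) (fun k t => v (φ k) (s + t)) (fun k t => p (φ k) (s + t))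
      (fun t => u (s + t)) (fun t => G (s + t))

/-- strong convergence to the weak limits -/
def D13 : Prop := ∀ (T : ℝ) (w : ℕ → ℝ → V → ℝ) (u : ℝ → V → ℝ),
  (∀ k, Measurable fun z : ℝ × V => w k z.1 z.2) → (Measurable fun z : ℝ × V => u z.1 z.2) →
  (∀ k, MemLp (fun z : ℝ × V => w k z.1 z.2) 2 (volume.restrict (Icc 0 T ×ˢ Q))) →
  (∀ k, ∀ t ∈ Icc 0 T, MemLp (w k t) 2 mQ) → (∀ t ∈ Icc 0 T, MemLp (u t) 2 mQ) →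
  (∀ t ∈ Icc 0 T, ∀ g : V → ℝ, MemLp g 2 mQ →
    Tendsto (fun k => ∫ x in Q, w k t x * g x) atTop (𝓝 (∫ x in Q, u t x * g x))) →
  (∀ ε : ℝ, 0 < ε → ∃ K : ℕ, ∀ k l, K ≤ k → K ≤ l →
    ∫ z in Icc 0 T ×ˢ Q, (w l z.1 z.2 - w k z.1 z.2) ^ 2 ≤ ε) →
  MemLp (fun z : ℝ × V => u z.1 z.2) 2 (volume.restrict (Icc 0 T ×ˢ Q)) ∧
    Tendsto (fun k => ∫ z in Icc 0 T ×ˢ Q, (u z.1 z.2 - w k z.1 z.2) ^ 2) atTop (𝓝 0)

/-- convergence of a subsequence of smooth solutions -/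
def D12 : Prop := ∀ (n : ℕ) (ν : ℝ) (α : Fin 3 → ℝ), 0 < ν → Odd n → Glob n ν α →
  ∀ (T : ℝ) (f : L2s), ∃ (v : ℕ → ℝ → V → V) (p : ℕ → ℝ → V → ℝ) (u : ℝ → V → V)
    (G : ℝ → V → Fin 3 → Fin 3 → ℝ), Conv n ν α T f.1 v p u G

/-- existence for initial values in `L²_σ` -/
def D14 : Prop := ∀ (n : ℕ) (ν : ℝ) (α : Fin 3 → ℝ), 0 < ν → Odd n → Glob n ν α →
  ∀ (T : ℝ) (f : L2s), ∃ (u : ℝ → V → V) (G : ℝ → V → Fin 3 → Fin 3 → ℝ),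
    IsStrong n ν α T f.1 u G

theorem d14 (h10 : D10) (h11 : D11) (h12 : D12) : D14 := by
  intro n ν α hν hn hG T f
  obtain ⟨v, p, u, G, h⟩ := h12 n ν α hν hn hG T f
  refine ⟨u, G, h10 n ν α T f.1 v p u G hν hn h, ?_⟩
  filter_upwards [h11 n ν α T f.1 v p u G h] with s hs
  obtain ⟨φ, -, h'⟩ := hs
  exact h10 n ν α _ _ _ _ _ _ hν hn h'

end Pool.Agent.H303.DEE
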