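import Pool.Agent.H303.DEE.Stm4

/-!
Statements of the steps of the proof (project DEE), fifth part: for `n ≥ 5` all Leray-Hopf
solutions satisfy the energy equality (no strong energy inequality is assumed). Fourier variables.
-/

open MeasureTheory Set Filter Topology Complex
open scoped ContDiff ENNReal

namespace Pool.Agent.H303.DEE.F

/-- frequencies -/
abbrev K := Fin 3 → ℤ

/-- complex vectors -/
abbrev C3 := Fin 3 → ℂ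

/-- the length of a frequency -/
noncomputable def kn (k : K) : ℝ := Real.sqrt (∑ j, (k j : ℝ) ^ 2)

/-- the length of a vector -/
noncomputable def nm (v : C3) : ℝ := Real.sqrt (∑ i, ‖v i‖ ^ 2)

/-- `k · v` -/
noncomputable def dt (k : K) (v : C3) : ℂ := ∑ j, (k j : ℂ) * v j

/-- at most `C M ^ 2` frequencies of length at most `M` are related to a given one -/
def Few (NR : K → K → Prop) (C : ℝ) : Prop := ∀ (F : Finset K) (L : K), L ≠ 0 → ∀ M : ℝ,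
  1 ≤ M → (∀ m ∈ F, kn m ≤ M ∧ NR L m) → (F.card : ℝ) ≤ C * M ^ 2

/-- the convective term, before the projection -/
noncomputable def Bn (U : K → C3) (k : K) (i : Fin 3) : ℂ :=
  2 * Real.pi * I * ∑' p : K, dt k (U p) * U (k - p) i

/-- the projection on vectors orthogonal to `k` -/
noncomputable def Pr (k : K) (w : C3) (i : Fin 3) : ℂ :=
  w i - (k i : ℂ) * dt k w / (∑ j, (k j : ℂ) ^ 2)

/-- the nonlinear term -/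
noncomputable def Nl (U : K → C3) (k : K) : C3 := Pr k (Bn U k)

/-- Fourier coefficients of a Leray-Hopf solution, `g` is the dispersion relation -/
structure FSol (g : K → ℝ) (ν T : ℝ) (a : ℝ → K → C3) : Prop where
  real : ∀ t ∈ Icc 0 T, ∀ k i, a t (-k) i = (starRingEnd ℂ) (a t k i)
  div : ∀ t ∈ Icc 0 T, ∀ k, dt k (a t k) = 0
  bdd : ∃ E : ℝ, ∀ t ∈ Icc 0 T, Summable (fun k => nm (a t k) ^ 2) ∧ ∑' k, nm (a t k) ^ 2 ≤ E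
  cont : ∀ k i, ContinuousOn (fun t => a t k i) (Icc 0 T)
  diss : Summable fun k => ∫ s in (0 : ℝ)..T, kn k ^ 2 * nm (a s k) ^ 2
  intN : ∀ k i, IntegrableOn (fun s => Nl (a s) k i) (Icc 0 T)
  ode : ∀ k i, ∀ t ∈ Icc 0 T, a t k i = a 0 k i + ∫ s in (0 : ℝ)..t,
    ((-((4 * Real.pi ^ 2 * ν * kn k ^ 2 : ℝ) : ℂ) + I * (g k : ℂ)) * a s k i - Nl (a s) k i)

/-- the weights: `1` for `|k| ≤ M`, `0` for `|k| ≥ 2 M` -/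
noncomputable def wt (M : ℝ) (k : K) : ℝ := max 0 (min 1 (2 - kn k / M))

/-- the trilinear expression -/
noncomputable def Xt (k : K) (P Q R : C3) : ℂ := dt k P * ∑ i, Q i * (starRingEnd ℂ) (R i)

/-- the trilinear expression for the triad `(k, p)`, `q = k - p` -/
noncomputable def X (U : K → C3) (z : K × K) : ℂ := Xt z.1 (U z.2) (U (z.1 - z.2)) (U z.1)

/-- the quartic expression -/
noncomputable def Qz (U : K → C3) (z : K × K) : ℂ :=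
  Xt z.1 (Nl U z.2) (U (z.1 - z.2)) (U z.1) + Xt z.1 (U z.2) (Nl U (z.1 - z.2)) (U z.1)
    + Xt z.1 (U z.2) (U (z.1 - z.2)) (Nl U z.1)

noncomputable def mx (z : K × K) : ℝ := max (kn z.1) (max (kn z.2) (kn (z.1 - z.2)))

noncomputable def mn (z : K × K) : ℝ := min (kn z.1) (min (kn z.2) (kn (z.1 - z.2)))

/-- the detuning -/
def om (g : K → ℝ) (z : K × K) : ℝ := g z.1 - g z.2 - g (z.1 - z.2)

/-- the denominator -/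
noncomputable def Zd (g : K → ℝ) (ν : ℝ) (z : K × K) : ℂ :=
  ((4 * Real.pi ^ 2 * ν * (kn z.1 ^ 2 + kn z.2 ^ 2 + kn (z.1 - z.2) ^ 2) : ℝ) : ℂ)
    + I * ((om g z : ℝ) : ℂ)

/-- the dissipation of one coefficient -/
noncomputable def dd (a : ℝ → K → C3) (T : ℝ) (k : K) : ℝ :=
  ∫ s in (0 : ℝ)..T, kn k ^ 2 * nm (a s k) ^ 2

open Classical in
/-- `1` for `|k| ≥ M / 2` -/
noncomputable def tl (M : ℝ) (k : K) : ℝ := if M / 2 ≤ kn k then 1 else 0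

/-- the flux -/
noncomputable def flux (M : ℝ) (U : K → C3) : ℝ :=
  (Real.pi * I * ∑' z : K × K, ((wt M z.1 - wt M (z.1 - z.2) : ℝ) : ℂ) * X U z).re

/-- the flux identity -/
def H1 : Prop := ∀ (M : ℝ) (U : K → C3) (S : Finset K), 1 ≤ M → (∀ k ∉ S, wt M k = 0) →
  (∀ k i, U (-k) i = (starRingEnd ℂ) (U k i)) → (∀ k, dt k (U k) = 0) →
  (Summable fun k => nm (U k) ^ 2) →
  (Summable fun z : K × K => ((wt M z.1 - wt M (z.1 - z.2) : ℝ) : ℂ) * X U z) ∧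
  ∑ k ∈ S, wt M k * (∑ i, Nl U k i * (starRingEnd ℂ) (U k i)).re = flux M U

/-- the weighted energy balance -/
def H2 : Prop := ∀ (g : K → ℝ) (ν T : ℝ) (a : ℝ → K → C3), FSol g ν T a → ∀ (w : K → ℝ)
  (S : Finset K), ∀ t ∈ Icc 0 T,
    (1 / 2) * (∑ k ∈ S, w k * nm (a t k) ^ 2)
        + 4 * Real.pi ^ 2 * ν * (∑ k ∈ S, w k * ∫ s in (0 : ℝ)..t, kn k ^ 2 * nm (a s k) ^ 2)
      = (1 / 2) * (∑ k ∈ S, w k * nm (a 0 k) ^ 2)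
        - ∫ s in (0 : ℝ)..t,
            ∑ k ∈ S, w k * (∑ i, Nl (a s) k i * (starRingEnd ℂ) (a s k i)).re

/-- the product rule for a triad -/
def H3 : Prop := ∀ (g : K → ℝ) (ν T : ℝ) (a : ℝ → K → C3), FSol g ν T a → ∀ z : K × K,
  IntegrableOn (fun s => Qz (a s) z) (Icc 0 T) ∧ ∀ t ∈ Icc 0 T,
    X (a t) z - X (a 0) z = ∫ s in (0 : ℝ)..t, (-(Zd g ν z) * X (a s) z - Qz (a s) z)

/-- the nonlinear term is bounded and orthogonal to `k` -/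
def H4 : Prop := ∀ (U : K → C3) (E : ℝ), (Summable fun k => nm (U k) ^ 2) →
  ∑' k, nm (U k) ^ 2 ≤ E → ∀ k, nm (Nl U k) ≤ 20 * kn k * E ∧ dt k (Nl U k) = 0

/-- the multiplier -/
def H5 : Prop := ∀ (M : ℝ) (z : K × K) (P Q R : C3), 1 ≤ M → dt z.2 P = 0 →
  |wt M z.1 - wt M (z.1 - z.2)| * ‖Xt z.1 P Q R‖ ≤ 2 * mn z * (nm P * nm Q * nm R) ∧
  (mx z ≤ M → wt M z.1 - wt M (z.1 - z.2) = 0)

/-- a sum over the related frequencies -/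
def H6a : Prop := ∀ (NR : K → K → Prop) (C : ℝ), 1 ≤ C → Few NR C → ∀ (F : Finset K) (L : K),
  (∀ m ∈ F, 1 ≤ kn m ∧ kn m ≤ kn L ∧ NR L m) → ∑ m ∈ F, (kn m)⁻¹ ≤ 8 * C * kn L

/-- the sum over near resonant pairs -/
def H6b : Prop := ∀ (NR : K → K → Prop) (C : ℝ), 1 ≤ C → Few NR C → ∀ (x : K → ℝ) (M E G γ : ℝ),
  (∀ k, 0 ≤ x k) → (∀ F : Finset K, ∑ k ∈ F, x k ^ 2 ≤ E) →
  (∀ F : Finset K, ∑ k ∈ F, kn k ^ 2 * x k ^ 2 ≤ G) →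
  (∀ F : Finset K, (∀ k ∈ F, M / 2 ≤ kn k) → ∑ k ∈ F, kn k ^ 2 * x k ^ 2 ≤ γ) →
  ∀ S : Finset (K × K), (∀ z ∈ S, M / 2 ≤ kn z.1 ∧ 1 ≤ kn z.2 ∧ kn z.2 ≤ kn z.1 ∧
    kn z.2 ≤ kn (z.1 - z.2) ∧ NR z.1 z.2) →
  ∑ z ∈ S, kn z.2 * (x z.1 * x z.2 * x (z.1 - z.2)) ≤ 8 * C * (√E * √G * √γ)

/-- the sum over near resonant triads -/
def H6 : Prop := ∀ (g : K → ℝ) (C : ℝ), (∀ k, g (-k) = -g k) → 1 ≤ C →
  Few (fun L m => |g L - g m - g (L - m)| ≤ 8 * kn L ^ 3) C → ∀ (x : K → ℝ) (M E G γ : ℝ),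
  1 ≤ M → (∀ k, 0 ≤ x k) → (∀ k, x (-k) = x k) → (∀ F : Finset K, ∑ k ∈ F, x k ^ 2 ≤ E) →
  (∀ F : Finset K, ∑ k ∈ F, kn k ^ 2 * x k ^ 2 ≤ G) →
  (∀ F : Finset K, (∀ k ∈ F, M / 2 ≤ kn k) → ∑ k ∈ F, kn k ^ 2 * x k ^ 2 ≤ γ) →
  ∀ S : Finset (K × K), (∀ z ∈ S, M ≤ mx z ∧ 0 < mn z ∧ |om g z| ≤ mx z ^ 3) →
  ∑ z ∈ S, mn z * (x z.1 * x z.2 * x (z.1 - z.2)) ≤ 100 * C * (√E * √G * √γ)

/-- the boundary terms -/
def H7 : Prop := ∃ C : ℝ, 0 ≤ C ∧ ∀ (x : K → ℝ) (M E : ℝ), 1 ≤ M → (∀ k, 0 ≤ x k) →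
  (∀ F : Finset K, ∑ k ∈ F, x k ^ 2 ≤ E) →
  ∀ S : Finset (K × K), (∀ z ∈ S, M ≤ mx z ∧ 0 < mn z) →
  ∑ z ∈ S, mn z / mx z ^ 3 * (x z.1 * x z.2 * x (z.1 - z.2)) ≤
    C * (E * √E) * M ^ (-(1 / 4) : ℝ)

/-- the quartic terms: a weighted Hilbert inequality -/
def H8a : Prop := ∃ C : ℝ, 0 ≤ C ∧ ∀ (x : K → ℝ) (M G γ : ℝ), (∀ k, 0 ≤ x k) →
  (∀ F : Finset K, ∑ k ∈ F, kn k ^ 2 * x k ^ 2 ≤ G) →
  (∀ F : Finset K, (∀ k ∈ F, M / 2 ≤ kn k) → ∑ k ∈ F, kn k ^ 2 * x k ^ 2 ≤ γ) →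
  ∀ S : Finset (K × K), (∀ z ∈ S, M / 2 ≤ kn z.1 ∧ 1 ≤ kn z.2 ∧ kn z.2 ≤ kn z.1) →
  ∑ z ∈ S, (kn z.1)⁻¹ * (x z.1 * x z.2) ≤ C * (√G * √γ)

/-- the quartic terms -/
def H8 : Prop := ∃ C : ℝ, 0 ≤ C ∧ ∀ (x : K → ℝ) (M G γ : ℝ), 1 ≤ M → (∀ k, 0 ≤ x k) →
  (∀ F : Finset K, ∑ k ∈ F, kn k ^ 2 * x k ^ 2 ≤ G) →
  (∀ F : Finset K, (∀ k ∈ F, M / 2 ≤ kn k) → ∑ k ∈ F, kn k ^ 2 * x k ^ 2 ≤ γ) →
  ∀ S : Finset (K × K), (∀ z ∈ S, M ≤ mx z ∧ 0 < mn z) →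
  ∑ z ∈ S, mn z / mx z ^ 3 * (kn z.2 * (x (z.1 - z.2) * x z.1)
    + kn (z.1 - z.2) * (x z.2 * x z.1) + kn z.1 * (x z.2 * x (z.1 - z.2))) ≤ C * (√G * √γ)

/-- the time integrals, for finitely many triads -/
def H9a : Prop := ∀ (g : K → ℝ) (ν T C : ℝ) (a : ℝ → K → C3), 0 < ν → (∀ k, g (-k) = -g k) →
  1 ≤ C → Few (fun L m => |g L - g m - g (L - m)| ≤ 8 * kn L ^ 3) C → FSol g ν T a →
  ∃ B : ℝ, 0 ≤ B ∧ ∀ M : ℝ, 1 ≤ M → ∀ t ∈ Icc 0 T, ∀ S : Finset (K × K),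
    ‖∑ z ∈ S, ((wt M z.1 - wt M (z.1 - z.2) : ℝ) : ℂ) * ∫ s in (0 : ℝ)..t, X (a s) z‖
      ≤ B * (√(∑' k, tl M k * dd a T k) + M ^ (-(1 / 4) : ℝ))

/-- the flux tends to zero -/
def H9 : Prop := ∀ (g : K → ℝ) (ν T C : ℝ) (a : ℝ → K → C3), 0 < ν → (∀ k, g (-k) = -g k) →
  1 ≤ C → Few (fun L m => |g L - g m - g (L - m)| ≤ 8 * kn L ^ 3) C → FSol g ν T a →
  ∀ t ∈ Icc 0 T, Tendsto (fun m : ℕ => ∫ s in (0 : ℝ)..t, flux ((m : ℝ) + 1) (a s)) atTop (𝓝 0)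

/-- the energy equality in Fourier variables -/
def H10 : Prop := ∀ (g : K → ℝ) (ν T C : ℝ) (a : ℝ → K → C3), 0 < ν → (∀ k, g (-k) = -g k) →
  1 ≤ C → Few (fun L m => |g L - g m - g (L - m)| ≤ 8 * kn L ^ 3) C → FSol g ν T a →
  ∀ t ∈ Icc 0 T,
    (1 / 2) * (∑' k, nm (a t k) ^ 2)
        + 4 * Real.pi ^ 2 * ν * (∑' k, ∫ s in (0 : ℝ)..t, kn k ^ 2 * nm (a s k) ^ 2)
      = (1 / 2) * ∑' k, nm (a 0 k) ^ 2

/-- the Fourier coefficients -/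
noncomputable def cf (f : V → ℝ) (k : K) : ℂ :=
  ∫ x in Q, (f x : ℂ) * Complex.exp (-(2 * Real.pi * I * ∑ j, (k j : ℂ) * (x j : ℂ)))

/-- Parseval -/
def P1 : Prop := ∀ f : V → ℝ, MemLp f 2 mQ → HasSum (fun k => ‖cf f k‖ ^ 2) (∫ x in Q, f x ^ 2)

/-- Fourier coefficients of a product -/
def P2 : Prop := ∀ f h : V → ℝ, MemLp f 2 mQ → MemLp h 2 mQ → ∀ k : K,
  cf (fun x => f x * h x) k = ∑' p : K, cf f p * cf h (k - p)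

/-- Fourier coefficients of weak derivatives -/
def P3 : Prop := ∀ (f g : V → ℝ) (j : Fin 3), MemLp f 2 mQ → MemLp g 2 mQ →
  (∀ ψ : V → ℝ, ContDiff ℝ ∞ ψ → Periodic ψ →
    ∫ x in Q, f x * partialD 1 j ψ x = -∫ x in Q, g x * ψ x) →
  ∀ k : K, cf g k = 2 * Real.pi * I * (k j : ℂ) * cf f k

/-- fields with divergence zero -/
def P4 : Prop := ∀ u : V → V, (∀ i, MemLp (fun x => u x i) 2 mQ) →
  (∀ ψ : V → ℝ, ContDiff ℝ ∞ ψ → Periodic ψ → ∫ x in Q, ∑ j, u x j * partialD 1 j ψ x = 0) →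
  ∀ k : K, dt k (fun i => cf (fun x => u x i) k) = 0

/-- the dispersion relation -/
noncomputable def gg (n : ℕ) (α : Fin 3 → ℝ) (k : K) : ℝ :=
  (-1) ^ ((n - 1) / 2) * ∑ j, α j * (2 * Real.pi * (k j : ℝ)) ^ n

/-- the equation for the Fourier coefficients -/
def P5 : Prop := ∀ (n : ℕ) (ν : ℝ) (α : Fin 3 → ℝ) (T : ℝ) (u₀ : V → V) (u : ℝ → V → V)
  (G : ℝ → V → Fin 3 → Fin 3 → ℝ), 0 < ν → Odd n → IsLerayHopf n ν α T u₀ u G →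
  (∀ k i, IntegrableOn (fun s => Nl (fun k i => cf (fun x => u s x i) k) k i) (Icc 0 T)) ∧
  (∀ k i, ContinuousOn (fun t => cf (fun x => u t x i) k) (Icc 0 T)) ∧
  ∀ k i, ∀ t ∈ Icc 0 T, cf (fun x => u t x i) k = cf (fun x => u 0 x i) k + ∫ s in (0 : ℝ)..t,
    ((-((4 * Real.pi ^ 2 * ν * kn k ^ 2 : ℝ) : ℂ) + I * (gg n α k : ℂ)) * cf (fun x => u s x i) k
      - Nl (fun k i => cf (fun x => u s x i) k) k i)

/-- the dissipation -/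
def P6 : Prop := ∀ (n : ℕ) (ν : ℝ) (α : Fin 3 → ℝ) (T : ℝ) (u₀ : V → V) (u : ℝ → V → V)
  (G : ℝ → V → Fin 3 → Fin 3 → ℝ), 0 < ν → IsLerayHopf n ν α T u₀ u G →
  (∀ k i, ContinuousOn (fun t => cf (fun x => u t x i) k) (Icc 0 T)) → ∀ t ∈ Icc 0 T,
  HasSum (fun k => 4 * Real.pi ^ 2 *
      ∫ s in (0 : ℝ)..t, kn k ^ 2 * nm (fun i => cf (fun x => u s x i) k) ^ 2)
    (∫ s in (0 : ℝ)..t, ∫ x in Q, ∑ i, ∑ j, G s x i j ^ 2)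

/-- the coefficients of a Leray-Hopf solution -/
def P7 : Prop := ∀ (n : ℕ) (ν : ℝ) (α : Fin 3 → ℝ) (T : ℝ) (u₀ : V → V) (u : ℝ → V → V)
  (G : ℝ → V → Fin 3 → Fin 3 → ℝ), 0 < ν → Odd n → 0 ≤ T → IsLerayHopf n ν α T u₀ u G →
  FSol (gg n α) ν T (fun t k i => cf (fun x => u t x i) k)

/-- the initial value -/
def P8 : Prop := ∀ (n : ℕ) (ν : ℝ) (α : Fin 3 → ℝ) (T : ℝ) (f : L2s) (u : ℝ → V → V)
  (G : ℝ → V → Fin 3 → Fin 3 → ℝ), 0 ≤ T → IsLerayHopf n ν α T f.1 u G →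
  ∫ x in Q, ∑ i, u 0 x i ^ 2 = ∫ x in Q, ∑ i, (f.1 : V → V) x i ^ 2

/-- all Leray-Hopf solutions satisfy the energy equality -/
def P9 : Prop := ∀ (n : ℕ) (ν : ℝ) (α : Fin 3 → ℝ) (C : ℝ), 0 < ν → Odd n → 1 ≤ C →
  Few (fun L m => |gg n α L - gg n α m - gg n α (L - m)| ≤ 8 * kn L ^ 3) C →
  ∀ (T : ℝ) (f : L2s) (u : ℝ → V → V) (G : ℝ → V → Fin 3 → Fin 3 → ℝ),
    IsLerayHopf n ν α T f.1 u G → ∀ t ∈ Icc 0 T, EnergyEq ν f.1 u G t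

end Pool.Agent.H303.DEE.F
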