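import Pool.Agent.H303.DEE.Stm5

/-!
Statements of the steps of the proof (project DEE), sixth part: weak solutions in the energy class.
-/

open MeasureTheory Set Filter Topology Complex
open scoped ContDiff ENNReal

namespace Pool.Agent.H303.DEE

/-- Weak solutions of the energy class `L^∞(0,T; L²) ∩ L²(0,T; H¹)`: as `IsLerayHopf`, without the
energy inequality. -/
structure IsWeak (n : ℕ) (ν : ℝ) (α : Fin 3 → ℝ) (T : ℝ) (u₀ : V → V) (u : ℝ → V → V)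
    (G : ℝ → V → Fin 3 → Fin 3 → ℝ) : Prop where
  meas_u : Measurable fun z : ℝ × V => u z.1 z.2
  meas_G : Measurable fun z : ℝ × V => G z.1 z.2
  l2_u : ∀ t ∈ Icc 0 T, ∀ i, MemLp (fun x => u t x i) 2 (volume.restrict Q)
  bdd : ∃ E : ℝ, ∀ t ∈ Icc 0 T, ∫ x in Q, ∑ i, u t x i ^ 2 ≤ E
  l2_G : ∀ i j, MemLp (fun z : ℝ × V => G z.1 z.2 i j) 2 (volume.restrict (Icc 0 T ×ˢ Q))
  divfree : ∀ t ∈ Icc 0 T, ∀ ψ : V → ℝ, ContDiff ℝ ∞ ψ → Periodic ψ →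
    ∫ x in Q, ∑ j, u t x j * partialD 1 j ψ x = 0
  grad : ∀ᵐ t ∂(volume.restrict (Icc 0 T)), ∀ ψ : V → ℝ, ContDiff ℝ ∞ ψ → Periodic ψ → ∀ i j,
    ∫ x in Q, u t x i * partialD 1 j ψ x = -∫ x in Q, G t x i j * ψ x
  weak : ∀ φ, Test φ → ∀ t ∈ Icc 0 T,
    (∫ x in Q, ∑ i, u t x i * φ t x i) - (∫ x in Q, ∑ i, u₀ x i * φ 0 x i)
      = ∫ s in (0 : ℝ)..t, ∫ x in Q, ((∑ i, u s x i * deriv (fun r => φ r x i) s)
          + (∑ i, ∑ j, u s x i * u s x j * partialD 1 j (fun y => φ s y i) x)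
          - ν * (∑ i, ∑ j, G s x i j * partialD 1 j (fun y => φ s y i) x)
          - ∑ i, ∑ j, α j * (u s x i * partialD n j (fun y => φ s y i) x))

/-- a weak solution satisfies the energy inequality for a larger initial value -/
def R1 : Prop := ∀ (n : ℕ) (ν : ℝ) (α : Fin 3 → ℝ) (T : ℝ) (f : L2s) (u : ℝ → V → V)
  (G : ℝ → V → Fin 3 → Fin 3 → ℝ), 0 ≤ ν → IsWeak n ν α T f.1 u G →
  ∃ u₁ : V → V, IsLerayHopf n ν α T u₁ u G

/-- square integrable fields with weak divergence zero are limits of smooth ones -/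
def R2 : Prop := ∀ u : V → V, (∀ i, MemLp (fun x => u x i) 2 mQ) →
  (∀ ψ : V → ℝ, ContDiff ℝ ∞ ψ → Periodic ψ → ∫ x in Q, ∑ j, u x j * partialD 1 j ψ x = 0) →
  ∀ ε : ℝ, 0 < ε → ∃ w : V → V, Smooth w ∧ ∫ x in Q, ∑ i, (u x i - w x i) ^ 2 ≤ ε

/-- the initial value of a weak solution -/
def R3 : Prop := ∀ (n : ℕ) (ν : ℝ) (α : Fin 3 → ℝ) (T : ℝ) (f : L2s) (u : ℝ → V → V)
  (G : ℝ → V → Fin 3 → Fin 3 → ℝ), 0 ≤ T → IsWeak n ν α T f.1 u G →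
  ∫ x in Q, ∑ i, u 0 x i ^ 2 = ∫ x in Q, ∑ i, (f.1 : V → V) x i ^ 2

/-- all weak solutions in the energy class satisfy the energy equality -/
def R4 : Prop := ∀ (n : ℕ) (ν : ℝ) (α : Fin 3 → ℝ) (C : ℝ), 0 < ν → Odd n → 1 ≤ C →
  F.Few (fun L m => |F.gg n α L - F.gg n α m - F.gg n α (L - m)| ≤ 8 * F.kn L ^ 3) C →
  ∀ (T : ℝ) (f : L2s) (u : ℝ → V → V) (G : ℝ → V → Fin 3 → Fin 3 → ℝ),
    IsWeak n ν α T f.1 u G → ∀ t ∈ Icc 0 T, EnergyEq ν f.1 u G t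

end Pool.Agent.H303.DEE
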