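import Pool.Agent.H303.DEE.Stm6

/-!
Statements of the steps of the proof (project DEE), seventh part: uniqueness of weak solutions in
the energy class for `n ≥ 5`.
-/

open MeasureTheory Set Filter Topology Complex
open scoped ContDiff ENNReal

namespace Pool.Agent.H303.DEE.F

/-- the trilinear expression for three fields -/
noncomputable def X3 (P Q R : K → C3) (z : K × K) : ℂ := Xt z.1 (P z.2) (Q (z.1 - z.2)) (R z.1)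

/-- the quartic expression for three fields -/
noncomputable def Q3 (P Q R : K → C3) (z : K × K) : ℂ :=
  Xt z.1 (Nl P z.2) (Q (z.1 - z.2)) (R z.1) + Xt z.1 (P z.2) (Nl Q (z.1 - z.2)) (R z.1)
    + Xt z.1 (P z.2) (Q (z.1 - z.2)) (Nl R z.1)

/-- the quartic expression for a difference -/
noncomputable def Qd (a b : K → C3) (z : K × K) : ℂ :=
  Xt z.1 (Nl a z.2 - Nl b z.2) (b (z.1 - z.2)) (a z.1 - b z.1)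
    + Xt z.1 (a z.2 - b z.2) (Nl b (z.1 - z.2)) (a z.1 - b z.1)
    + Xt z.1 (a z.2 - b z.2) (b (z.1 - z.2)) (Nl a z.1 - Nl b z.1)

/-- the nonlinear terms in the energy of a difference -/
def J1 : Prop := ∀ (M : ℝ) (a b : K → C3) (S : Finset K), 1 ≤ M → (∀ k ∉ S, wt M k = 0) →
  (∀ k i, a (-k) i = (starRingEnd ℂ) (a k i)) → (∀ k, dt k (a k) = 0) →
  (Summable fun k => nm (a k) ^ 2) →
  (∀ k i, b (-k) i = (starRingEnd ℂ) (b k i)) → (∀ k, dt k (b k) = 0) →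
  (Summable fun k => nm (b k) ^ 2) →
  (Summable fun z : K × K =>
    ((wt M z.1 - wt M (z.1 - z.2) : ℝ) : ℂ) * X3 a (a - b) (a - b) z) ∧
  (Summable fun z : K × K => ((wt M z.1 : ℝ) : ℂ) * X3 (a - b) b (a - b) z) ∧
  ∑ k ∈ S, wt M k * (∑ i, (Nl a k i - Nl b k i) * (starRingEnd ℂ) (a k i - b k i)).re
    = (Real.pi * I * ∑' z : K × K,
        ((wt M z.1 - wt M (z.1 - z.2) : ℝ) : ℂ) * X3 a (a - b) (a - b) z).re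
      + (2 * Real.pi * I * ∑' z : K × K, ((wt M z.1 : ℝ) : ℂ) * X3 (a - b) b (a - b) z).re

/-- the energy of the difference -/
def J2 : Prop := ∀ (g : K → ℝ) (ν T : ℝ) (a b : ℝ → K → C3), FSol g ν T a → FSol g ν T b →
  a 0 = b 0 → ∀ (w : K → ℝ) (S : Finset K), ∀ t ∈ Icc 0 T,
    (1 / 2) * (∑ k ∈ S, w k * nm (a t k - b t k) ^ 2)
        + 4 * Real.pi ^ 2 * ν *
          (∑ k ∈ S, w k * ∫ s in (0 : ℝ)..t, kn k ^ 2 * nm (a s k - b s k) ^ 2)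
      = -∫ s in (0 : ℝ)..t, ∑ k ∈ S,
          w k * (∑ i, (Nl (a s) k i - Nl (b s) k i) * (starRingEnd ℂ) (a s k i - b s k i)).re

/-- the product rule for three solutions -/
def J3 : Prop := ∀ (g : K → ℝ) (ν T : ℝ) (a b c : ℝ → K → C3), FSol g ν T a → FSol g ν T b →
  FSol g ν T c → ∀ z : K × K,
  IntegrableOn (fun s => Q3 (a s) (b s) (c s) z) (Icc 0 T) ∧ ∀ t ∈ Icc 0 T,
    X3 (a t) (b t) (c t) z - X3 (a 0) (b 0) (c 0) z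
      = ∫ s in (0 : ℝ)..t, (-(Zd g ν z) * X3 (a s) (b s) (c s) z - Q3 (a s) (b s) (c s) z)

/-- the product rule for differences -/
def J3d : Prop := ∀ (g : K → ℝ) (ν T : ℝ) (a b : ℝ → K → C3), FSol g ν T a → FSol g ν T b →
  ∀ z : K × K,
  IntegrableOn (fun s => Qd (a s) (b s) z) (Icc 0 T) ∧ ∀ t ∈ Icc 0 T,
    X3 (a t - b t) (b t) (a t - b t) z - X3 (a 0 - b 0) (b 0) (a 0 - b 0) z
      = ∫ s in (0 : ℝ)..t, (-(Zd g ν z) * X3 (a s - b s) (b s) (a s - b s) z - Qd (a s) (b s) z)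

/-- the time integrals for three solutions -/
def J4a : Prop := ∀ (g : K → ℝ) (ν T C : ℝ) (a b c : ℝ → K → C3), 0 < ν →
  (∀ k, g (-k) = -g k) → 1 ≤ C → Few (fun L m => |g L - g m - g (L - m)| ≤ 8 * kn L ^ 3) C →
  FSol g ν T a → FSol g ν T b → FSol g ν T c →
  ∃ B : ℝ, 0 ≤ B ∧ ∀ M : ℝ, 1 ≤ M → ∀ t ∈ Icc 0 T, ∀ S : Finset (K × K),
    ‖∑ z ∈ S, ((wt M z.1 - wt M (z.1 - z.2) : ℝ) : ℂ)
        * ∫ s in (0 : ℝ)..t, X3 (a s) (b s) (c s) z‖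
      ≤ B * (√(∑' k, tl M k * (dd a T k + dd b T k + dd c T k)) + M ^ (-(1 / 4) : ℝ))

/-- the flux term of the difference tends to zero -/
def J4 : Prop := ∀ (g : K → ℝ) (ν T C : ℝ) (a b : ℝ → K → C3), 0 < ν →
  (∀ k, g (-k) = -g k) → 1 ≤ C → Few (fun L m => |g L - g m - g (L - m)| ≤ 8 * kn L ^ 3) C →
  FSol g ν T a → FSol g ν T b → ∀ t ∈ Icc 0 T,
  Tendsto (fun m : ℕ => ∫ s in (0 : ℝ)..t, (Real.pi * I * ∑' z : K × K,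
    ((wt ((m : ℝ) + 1) z.1 - wt ((m : ℝ) + 1) (z.1 - z.2) : ℝ) : ℂ)
      * X3 (a s) (a s - b s) (a s - b s) z).re) atTop (𝓝 0)

/-- near resonant triads, two sequences -/
def J5 : Prop := ∀ (g : K → ℝ) (C : ℝ), (∀ k, g (-k) = -g k) → 1 ≤ C →
  Few (fun L m => |g L - g m - g (L - m)| ≤ 8 * kn L ^ 3) C → ∀ (x y : K → ℝ) (X0 X1 Y1 : ℝ),
  (∀ k, 0 ≤ x k) → (∀ k, x (-k) = x k) → (∀ k, 0 ≤ y k) → (∀ k, y (-k) = y k) →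
  (∀ F : Finset K, ∑ k ∈ F, x k ^ 2 ≤ X0) → (∀ F : Finset K, ∑ k ∈ F, kn k ^ 2 * x k ^ 2 ≤ X1) →
  (∀ F : Finset K, ∑ k ∈ F, kn k ^ 2 * y k ^ 2 ≤ Y1) →
  ∀ S : Finset (K × K), (∀ z ∈ S, 0 < mn z ∧ |om g z| ≤ mx z ^ 3) →
  ∑ z ∈ S, min (kn z.1) (kn (z.1 - z.2)) * (x z.2 * y (z.1 - z.2) * x z.1)
    ≤ 100 * C * (√X0 * √X1 * √Y1)

/-- the boundary terms, two sequences -/
def J6 : Prop := ∃ C : ℝ, 0 ≤ C ∧ ∀ (x y : K → ℝ) (M X0 Y0 : ℝ), 1 ≤ M → (∀ k, 0 ≤ x k) →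
  (∀ k, 0 ≤ y k) → (∀ F : Finset K, ∑ k ∈ F, x k ^ 2 ≤ X0) →
  (∀ F : Finset K, ∑ k ∈ F, y k ^ 2 ≤ Y0) →
  ∀ S : Finset (K × K), (∀ z ∈ S, M ≤ mx z ∧ 0 < mn z) →
  ∑ z ∈ S, min (kn z.1) (kn (z.1 - z.2)) / mx z ^ 3 * (x z.2 * y (z.1 - z.2) * x z.1) ≤
    C * (X0 * √Y0) * M ^ (-(1 / 4) : ℝ)

/-- a Hilbert inequality, two sequences -/
def J7a : Prop := ∃ C : ℝ, 0 ≤ C ∧ ∀ (x y : K → ℝ) (X1 Y1 : ℝ), (∀ k, 0 ≤ x k) →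
  (∀ k, 0 ≤ y k) → (∀ F : Finset K, ∑ k ∈ F, kn k ^ 2 * x k ^ 2 ≤ X1) →
  (∀ F : Finset K, ∑ k ∈ F, kn k ^ 2 * y k ^ 2 ≤ Y1) →
  ∀ S : Finset (K × K), (∀ z ∈ S, 1 ≤ kn z.1 ∧ 1 ≤ kn z.2) →
  ∑ z ∈ S, (max (kn z.1) (kn z.2))⁻¹ * (x z.1 * y z.2) ≤ C * (√X1 * √Y1)

/-- a Hilbert inequality, lower order -/
def J7b : Prop := ∃ C : ℝ, 0 ≤ C ∧ ∀ (x : K → ℝ) (X0 X1 : ℝ), (∀ k, 0 ≤ x k) →
  (∀ F : Finset K, ∑ k ∈ F, x k ^ 2 ≤ X0) → (∀ F : Finset K, ∑ k ∈ F, kn k ^ 2 * x k ^ 2 ≤ X1) →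
  ∀ S : Finset (K × K), (∀ z ∈ S, 1 ≤ kn z.1 ∧ 1 ≤ kn z.2) →
  ∑ z ∈ S, (max (kn z.1) (kn z.2) ^ 2)⁻¹ * (x z.1 * x z.2) ≤ C * (√X0 * √X1)

/-- the difference of the nonlinear terms -/
def J8a : Prop := ∀ (a b : K → C3) (E D : ℝ), (Summable fun k => nm (a k) ^ 2) →
  (Summable fun k => nm (b k) ^ 2) → ∑' k, nm (a k) ^ 2 ≤ E → ∑' k, nm (b k) ^ 2 ≤ E →
  ∑' k, nm (a k - b k) ^ 2 ≤ D → ∀ k, nm (Nl a k - Nl b k) ≤ 100 * kn k * (√E * √D) ∧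
    dt k (Nl a k - Nl b k) = 0

/-- the nonlinear term, with one derivative -/
def J8b : Prop := ∀ (b : K → C3) (E G : ℝ), (Summable fun k => nm (b k) ^ 2) →
  (Summable fun k => kn k ^ 2 * nm (b k) ^ 2) → ∑' k, nm (b k) ^ 2 ≤ E →
  ∑' k, kn k ^ 2 * nm (b k) ^ 2 ≤ G → ∀ k, nm (Nl b k) ≤ 100 * (√E * √G)

/-- near resonant triads, the energy of the difference -/
def J9a : Prop := ∀ (g : K → ℝ) (C : ℝ), (∀ k, g (-k) = -g k) → 1 ≤ C →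
  Few (fun L m => |g L - g m - g (L - m)| ≤ 8 * kn L ^ 3) C → ∀ d b : K → C3,
  (∀ k, dt k (d k) = 0) → (∀ k, nm (d (-k)) = nm (d k)) → (∀ k, nm (b (-k)) = nm (b k)) →
  (Summable fun k => nm (d k) ^ 2) → (Summable fun k => kn k ^ 2 * nm (d k) ^ 2) →
  (Summable fun k => kn k ^ 2 * nm (b k) ^ 2) → ∀ S : Finset (K × K),
  (∀ z ∈ S, 0 < mn z ∧ |om g z| ≤ mx z ^ 3) →
  ∑ z ∈ S, ‖X3 d b d z‖ ≤ 100 * C * (√(∑' k, nm (d k) ^ 2) * √(∑' k, kn k ^ 2 * nm (d k) ^ 2)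
    * √(∑' k, kn k ^ 2 * nm (b k) ^ 2))

/-- low frequencies -/
def J9b : Prop := ∀ M : ℝ, ∃ B : ℝ, 0 ≤ B ∧ ∀ (d b : K → C3) (E : ℝ),
  (Summable fun k => nm (d k) ^ 2) → (Summable fun k => nm (b k) ^ 2) → ∑' k, nm (b k) ^ 2 ≤ E →
  ∀ S : Finset (K × K), (∀ z ∈ S, mx z ≤ M) →
  ∑ z ∈ S, ‖X3 d b d z‖ ≤ B * √E * ∑' k, nm (d k) ^ 2

/-- the boundary terms, the energy of the difference -/
def J9c : Prop := ∃ B : ℝ, 0 ≤ B ∧ ∀ (d b : K → C3) (E M : ℝ), 1 ≤ M → (∀ k, dt k (d k) = 0) →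
  (Summable fun k => nm (d k) ^ 2) → (Summable fun k => nm (b k) ^ 2) → ∑' k, nm (b k) ^ 2 ≤ E →
  ∀ S : Finset (K × K), (∀ z ∈ S, M ≤ mx z ∧ 0 < mn z) →
  ∑ z ∈ S, ‖X3 d b d z‖ / mx z ^ 3 ≤ B * √E * M ^ (-(1 / 4) : ℝ) * ∑' k, nm (d k) ^ 2

/-- the quartic terms, the energy of the difference -/
def J9d : Prop := ∃ B : ℝ, 0 ≤ B ∧ ∀ (a b : K → C3) (E : ℝ), (∀ k, dt k (a k) = 0) →
  (∀ k, dt k (b k) = 0) → (Summable fun k => nm (a k) ^ 2) → (Summable fun k => nm (b k) ^ 2) →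
  ∑' k, nm (a k) ^ 2 ≤ E → ∑' k, nm (b k) ^ 2 ≤ E →
  (Summable fun k => kn k ^ 2 * nm (a k - b k) ^ 2) →
  (Summable fun k => kn k ^ 2 * nm (b k) ^ 2) → ∀ S : Finset (K × K), (∀ z ∈ S, 0 < mn z) →
  ∑ z ∈ S, ‖Qd a b z‖ / mx z ^ 3 ≤ B * √E * (√(∑' k, nm (a k - b k) ^ 2)
    * √(∑' k, kn k ^ 2 * nm (a k - b k) ^ 2) * √(∑' k, kn k ^ 2 * nm (b k) ^ 2))

/-- the time integrals for the difference, finitely many triads -/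
def J9 : Prop := ∀ (g : K → ℝ) (ν T C : ℝ) (a b : ℝ → K → C3), 0 < ν → (∀ k, g (-k) = -g k) →
  1 ≤ C → Few (fun L m => |g L - g m - g (L - m)| ≤ 8 * kn L ^ 3) C → FSol g ν T a →
  FSol g ν T b → a 0 = b 0 →
  ∃ B : ℝ, 0 ≤ B ∧ ∀ w : K → ℝ, (∀ k, 0 ≤ w k ∧ w k ≤ 1) → ∀ t ∈ Icc 0 T,
    ∀ S : Finset (K × K),
    2 * Real.pi * ‖∑ z ∈ S, ((w z.1 : ℝ) : ℂ)
        * ∫ s in (0 : ℝ)..t, X3 (a s - b s) (b s) (a s - b s) z‖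
      ≤ (1 / 4) * (∑' k, nm (a t k - b t k) ^ 2)
        + 2 * Real.pi ^ 2 * ν * (∑' k, ∫ s in (0 : ℝ)..t, kn k ^ 2 * nm (a s k - b s k) ^ 2)
        + B * ∫ s in (0 : ℝ)..t,
            (1 + ∑' k, kn k ^ 2 * nm (b s k) ^ 2) * ∑' k, nm (a s k - b s k) ^ 2

/-- measurability and integrability -/
def J9m : Prop := ∀ (g : K → ℝ) (ν T : ℝ) (a b : ℝ → K → C3), 0 ≤ T → FSol g ν T a →
  FSol g ν T b →
  (∀ᵐ s ∂(volume.restrict (Icc 0 T)), Summable fun k => kn k ^ 2 * nm (b s k) ^ 2) ∧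
  IntegrableOn (fun s => 1 + ∑' k, kn k ^ 2 * nm (b s k) ^ 2) (Icc 0 T) ∧
  IntegrableOn (fun s => ∑' k, nm (a s k - b s k) ^ 2) (Icc 0 T) ∧
  (∃ D : ℝ, ∀ t ∈ Icc 0 T, (Summable fun k => nm (a t k - b t k) ^ 2) ∧
    ∑' k, nm (a t k - b t k) ^ 2 ≤ D) ∧
  IntegrableOn (fun s => (1 + ∑' k, kn k ^ 2 * nm (b s k) ^ 2)
    * ∑' k, nm (a s k - b s k) ^ 2) (Icc 0 T) ∧
  Summable fun k => ∫ s in (0 : ℝ)..T, kn k ^ 2 * nm (a s k - b s k) ^ 2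

/-- the inequality for the difference -/
def J10 : Prop := ∀ (g : K → ℝ) (ν T C : ℝ) (a b : ℝ → K → C3), 0 < ν → (∀ k, g (-k) = -g k) →
  1 ≤ C → Few (fun L m => |g L - g m - g (L - m)| ≤ 8 * kn L ^ 3) C → FSol g ν T a →
  FSol g ν T b → a 0 = b 0 →
  ∃ B : ℝ, 0 ≤ B ∧ ∀ t ∈ Icc 0 T, ∑' k, nm (a t k - b t k) ^ 2 ≤
    B * ∫ s in (0 : ℝ)..t, (1 + ∑' k, kn k ^ 2 * nm (b s k) ^ 2) * ∑' k, nm (a s k - b s k) ^ 2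

/-- Gronwall's inequality with an integrable coefficient -/
def J11 : Prop := ∀ (T B D : ℝ) (κ y : ℝ → ℝ), 0 ≤ B → IntegrableOn κ (Icc 0 T) →
  IntegrableOn (fun s => κ s * y s) (Icc 0 T) → (∀ s ∈ Icc 0 T, 0 ≤ κ s) →
  (∀ s ∈ Icc 0 T, 0 ≤ y s ∧ y s ≤ D) →
  (∀ t ∈ Icc 0 T, y t ≤ B * ∫ s in (0 : ℝ)..t, κ s * y s) → ∀ t ∈ Icc 0 T, y t = 0

/-- uniqueness in Fourier variables -/
def J12 : Prop := ∀ (g : K → ℝ) (ν T C : ℝ) (a b : ℝ → K → C3), 0 < ν → (∀ k, g (-k) = -g k) →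
  1 ≤ C → Few (fun L m => |g L - g m - g (L - m)| ≤ 8 * kn L ^ 3) C → FSol g ν T a →
  FSol g ν T b → a 0 = b 0 → ∀ t ∈ Icc 0 T, a t = b t

/-- the initial value is attained -/
def J13a : Prop := ∀ (n : ℕ) (ν : ℝ) (α : Fin 3 → ℝ) (T : ℝ) (f : L2s) (u : ℝ → V → V)
  (G : ℝ → V → Fin 3 → Fin 3 → ℝ), 0 ≤ T → IsWeak n ν α T f.1 u G → u 0 =ᵐ[mQ] f.1

/-- uniqueness of weak solutions in the energy class -/
def J13 : Prop := ∀ (n : ℕ) (ν : ℝ) (α : Fin 3 → ℝ) (C : ℝ), 0 < ν → Odd n → 1 ≤ C →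
  Few (fun L m => |gg n α L - gg n α m - gg n α (L - m)| ≤ 8 * kn L ^ 3) C →
  ∀ (T : ℝ) (f : L2s) (u u' : ℝ → V → V) (G G' : ℝ → V → Fin 3 → Fin 3 → ℝ),
    IsWeak n ν α T f.1 u G → IsWeak n ν α T f.1 u' G' → ∀ t ∈ Icc 0 T, u' t =ᵐ[mQ] u t

end Pool.Agent.H303.DEE.F
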