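import Pool.Agent.H303.DEE.Stm7

/-!
Statements of the steps of the proof (project DEE), eighth part: uniqueness of weak solutions in
`C([0, T]; L²) ∩ L⁴([0, T] × Q)` for `n ≥ 5`.
-/

open MeasureTheory Set Filter Topology Complex
open scoped ContDiff ENNReal

namespace Pool.Agent.H303.DEE.F

/-- Smooth test fields, periodic in `x`, with divergence zero and with compact support in
`(0, T) × 𝕋³`. -/
structure TestC (T : ℝ) (φ : ℝ → V → V) : Prop where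
  smooth : ContDiff ℝ ∞ fun z : ℝ × V => φ z.1 z.2
  per : ∀ t, Periodic (φ t)
  divfree : ∀ t x, ∑ j, partialD 1 j (fun y => φ t y j) x = 0
  supp : ∃ a b : ℝ, 0 < a ∧ b < T ∧ ∀ t, t ∉ Icc a b → φ t = 0

/-- Weak solutions in `C([0, T]; L²)`. -/
structure IsWeakC (n : ℕ) (ν : ℝ) (α : Fin 3 → ℝ) (T : ℝ) (v : ℝ → V → V) : Prop where
  meas : Measurable fun z : ℝ × V => v z.1 z.2
  l2 : ∀ t ∈ Icc 0 T, ∀ i, MemLp (fun x => v t x i) 2 (volume.restrict Q)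
  cont : ∀ t ∈ Icc 0 T, Tendsto (fun s => ∫ x in Q, ∑ i, (v s x i - v t x i) ^ 2)
    (𝓝[Icc 0 T] t) (𝓝 0)
  divfree : ∀ t ∈ Icc 0 T, ∀ ψ : V → ℝ, ContDiff ℝ ∞ ψ → Periodic ψ →
    ∫ x in Q, ∑ j, v t x j * partialD 1 j ψ x = 0
  weak : ∀ φ, TestC T φ → ∫ s in (0 : ℝ)..T, ∫ x in Q,
    ((∑ i, v s x i * deriv (fun r => φ r x i) s)
      + (∑ i, ∑ j, v s x i * v s x j * partialD 1 j (fun y => φ s y i) x)
      + ν * (∑ i, ∑ j, v s x i * partialD 2 j (fun y => φ s y i) x)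
      - ∑ i, ∑ j, α j * (v s x i * partialD n j (fun y => φ s y i) x)) = 0

/-- The equation between the times `0` and `t`, for test fields which do not depend on time. -/
def IntEq (n : ℕ) (ν : ℝ) (α : Fin 3 → ℝ) (T : ℝ) (v : ℝ → V → V) : Prop :=
  ∀ w : V → V, Smooth w → ∀ t ∈ Icc 0 T,
    (∫ x in Q, ∑ i, v t x i * w x i) - (∫ x in Q, ∑ i, v 0 x i * w x i)
      = ∫ s in (0 : ℝ)..t, ∫ x in Q,
        ((∑ i, ∑ j, v s x i * v s x j * partialD 1 j (fun y => w y i) x)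
          + ν * (∑ i, ∑ j, v s x i * partialD 2 j (fun y => w y i) x)
          - ∑ i, ∑ j, α j * (v s x i * partialD n j (fun y => w y i) x))

/-- du Bois-Reymond -/
def K0 : Prop := ∀ (T : ℝ) (A F : ℝ → ℝ), 0 < T → ContinuousOn A (Icc 0 T) →
  IntegrableOn F (Icc 0 T) → (∀ θ : ℝ → ℝ, ContDiff ℝ ∞ θ →
    (∃ a b : ℝ, 0 < a ∧ b < T ∧ ∀ t, t ∉ Icc a b → θ t = 0) →
    ∫ s in (0 : ℝ)..T, (A s * deriv θ s + F s * θ s) = 0) →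
  ∀ t ∈ Icc 0 T, A t - A 0 = ∫ s in (0 : ℝ)..t, F s

/-- the energy is bounded -/
def K1a : Prop := ∀ (n : ℕ) (ν : ℝ) (α : Fin 3 → ℝ) (T : ℝ) (v : ℝ → V → V),
  IsWeakC n ν α T v → ∃ E : ℝ, ∀ t ∈ Icc 0 T, ∫ x in Q, ∑ i, v t x i ^ 2 ≤ E

/-- the equation between the times `0` and `t` -/
def K1 : Prop := ∀ (n : ℕ) (ν : ℝ) (α : Fin 3 → ℝ) (T : ℝ) (v : ℝ → V → V),
  IsWeakC n ν α T v → IntEq n ν α T v

/-- the Fourier coefficients -/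
noncomputable abbrev cfs (v : ℝ → V → V) : ℝ → K → C3 := fun t k i => cf (fun x => v t x i) k

/-- the equation for the Fourier coefficients -/
def K2 : Prop := ∀ (n : ℕ) (ν : ℝ) (α : Fin 3 → ℝ) (T : ℝ) (v : ℝ → V → V), Odd n → 0 ≤ T →
  IsWeakC n ν α T v → IntEq n ν α T v →
  (∀ k i, IntegrableOn (fun s => Nl (cfs v s) k i) (Icc 0 T)) ∧
  (∀ k i, ContinuousOn (fun t => cfs v t k i) (Icc 0 T)) ∧
  ∀ k i, ∀ t ∈ Icc 0 T, cfs v t k i = cfs v 0 k i + ∫ s in (0 : ℝ)..t,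
    ((-((4 * Real.pi ^ 2 * ν * kn k ^ 2 : ℝ) : ℂ) + I * (gg n α k : ℂ)) * cfs v s k i
      - Nl (cfs v s) k i)

/-- the dissipation is finite -/
def K3a : Prop := ∀ (g : K → ℝ) (ν T : ℝ) (a : ℝ → K → C3) (F : ℝ → K → ℝ), 0 < ν → 0 ≤ T →
  (∃ E : ℝ, ∀ t ∈ Icc 0 T, Summable (fun k => nm (a t k) ^ 2) ∧ ∑' k, nm (a t k) ^ 2 ≤ E) →
  (∀ k i, ContinuousOn (fun t => a t k i) (Icc 0 T)) →
  (∀ k i, IntegrableOn (fun s => Nl (a s) k i) (Icc 0 T)) →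
  (∀ k i, ∀ t ∈ Icc 0 T, a t k i = a 0 k i + ∫ s in (0 : ℝ)..t,
    ((-((4 * Real.pi ^ 2 * ν * kn k ^ 2 : ℝ) : ℂ) + I * (g k : ℂ)) * a s k i - Nl (a s) k i)) →
  (∀ k, ∀ᵐ s ∂(volume.restrict (Icc 0 T)), 0 ≤ F s k ∧ nm (Nl (a s) k) ≤ kn k * F s k) →
  (∀ k, IntegrableOn (fun s => F s k ^ 2) (Icc 0 T)) →
  (Summable fun k => ∫ s in (0 : ℝ)..T, F s k ^ 2) →
  Summable fun k => ∫ s in (0 : ℝ)..T, kn k ^ 2 * nm (a s k) ^ 2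

/-- `v ∈ L⁴([0, T] × Q)` -/
def InL4 (T : ℝ) (v : ℝ → V → V) : Prop :=
  ∀ i, MemLp (fun z : ℝ × V => v z.1 z.2 i) 4 (volume.restrict (Icc 0 T ×ˢ Q))

/-- the nonlinear term for fields in `L⁴` -/
def K3b : Prop := ∀ (T : ℝ) (v : ℝ → V → V), 0 ≤ T → Measurable (fun z : ℝ × V => v z.1 z.2) →
  (∀ t ∈ Icc 0 T, ∀ i, MemLp (fun x => v t x i) 2 (volume.restrict Q)) → InL4 T v →
  ∃ F : ℝ → K → ℝ,
    (∀ k, ∀ᵐ s ∂(volume.restrict (Icc 0 T)),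
      0 ≤ F s k ∧ nm (Nl (cfs v s) k) ≤ kn k * F s k) ∧
    (∀ k, IntegrableOn (fun s => F s k ^ 2) (Icc 0 T)) ∧
    (Summable fun k => ∫ s in (0 : ℝ)..T, F s k ^ 2)

/-- the coefficients of a weak solution -/
def K4 : Prop := ∀ (n : ℕ) (ν : ℝ) (α : Fin 3 → ℝ) (T : ℝ) (v : ℝ → V → V), 0 < ν → Odd n →
  0 ≤ T → IsWeakC n ν α T v → InL4 T v → FSol (gg n α) ν T (cfs v)

/-- uniqueness in `C([0, T]; L²) ∩ L⁴([0, T] × Q)` -/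
def K5 : Prop := ∀ (n : ℕ) (ν : ℝ) (α : Fin 3 → ℝ) (C : ℝ), 0 < ν → Odd n → 1 ≤ C →
  Few (fun L m => |gg n α L - gg n α m - gg n α (L - m)| ≤ 8 * kn L ^ 3) C →
  ∀ (T : ℝ) (v v' : ℝ → V → V), IsWeakC n ν α T v → IsWeakC n ν α T v' → InL4 T v → InL4 T v' →
    v' 0 =ᵐ[mQ] v 0 → ∀ t ∈ Icc 0 T, v' t =ᵐ[mQ] v t

end Pool.Agent.H303.DEE.F
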