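import Pool.Agent.H303.DEE.Stm8

/-!
Statements of the steps of the proof (project DEE), ninth part: interpolation.
-/

open MeasureTheory Set Filter Topology Complex
open scoped ContDiff ENNReal

namespace Pool.Agent.H303.DEE.F

/-- `v ∈ L^p(0, T; L^q(Q))` -/
def InLpq (p q T : ℝ) (v : ℝ → V → V) : Prop :=
  ∀ i, ∫⁻ t in Icc 0 T, (∫⁻ x in Q, ‖v t x i‖ₑ ^ q) ^ (p / q) < ⊤

/-- interpolation -/
def K6 : Prop := ∀ (p q T E : ℝ) (v : ℝ → V → V), 4 ≤ q → 2 < p → 2 / p + 2 / q ≤ 1 →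
  Measurable (fun z : ℝ × V => v z.1 z.2) →
  (∀ t ∈ Icc 0 T, ∀ i, MemLp (fun x => v t x i) 2 (volume.restrict Q)) →
  (∀ t ∈ Icc 0 T, ∫ x in Q, ∑ i, v t x i ^ 2 ≤ E) → InLpq p q T v → InL4 T v

end Pool.Agent.H303.DEE.F
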