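import Pool.Agent.H303.DEE.Stm

/-!
`t0 : A0`: continuity of the spatial derivatives up to `t = 0`.
-/

open MeasureTheory Set Filter Topology
open scoped ContDiff ENNReal

namespace Pool.Agent.H303.DEE

namespace T0k

/-- the domain -/
def S0 : Set (ℝ × V) := Ici 0 ×ˢ univ

lemma ud : UniqueDiffOn ℝ S0 := (uniqueDiffOn_Ici (0 : ℝ)).prod uniqueDiffOn_univ

variable {F : Type*} [NormedAddCommGroup F] [NormedSpace ℝ F]

lemma slice {f : ℝ → V → F} (hf : ContDiffOn ℝ ∞ (fun z : ℝ × V => f z.1 z.2) S0) {t : ℝ}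
    (ht : 0 ≤ t) : ContDiff ℝ ∞ (f t) := by
  rw [← contDiffOn_univ]
  have h1 : ContDiffOn ℝ ∞ (fun x : V => ((t, x) : ℝ × V)) univ :=
    (contDiff_const.prodMk contDiff_id).contDiffOn
  exact hf.comp h1 fun x _ => ⟨ht, mem_univ _⟩

lemma fd_eq {f : ℝ → V → F} (hf : ContDiffOn ℝ ∞ (fun z : ℝ × V => f z.1 z.2) S0) {z : ℝ × V}
    (hz : z ∈ S0) (v : V) : fderiv ℝ (f z.1) z.2 v =
      fderivWithin ℝ (fun z : ℝ × V => f z.1 z.2) S0 z (0, v) := by
  obtain ⟨t, x⟩ := z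
  have h1 : HasFDerivWithinAt (fun z : ℝ × V => f z.1 z.2)
      (fderivWithin ℝ (fun z : ℝ × V => f z.1 z.2) S0 (t, x)) S0 (t, x) :=
    (hf.differentiableOn (by simp) _ hz).hasFDerivWithinAt
  have h2 : HasFDerivAt (fun y : V => ((t, y) : ℝ × V)) (ContinuousLinearMap.inr ℝ ℝ V) x :=
    hasFDerivAt_prodMk_right t x
  have h3 : HasFDerivWithinAt (f t)
      ((fderivWithin ℝ (fun z : ℝ × V => f z.1 z.2) S0 (t, x)).comp
        (ContinuousLinearMap.inr ℝ ℝ V)) univ x :=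
    HasFDerivWithinAt.comp (f := fun y : V => ((t, y) : ℝ × V))
      (g := fun z : ℝ × V => f z.1 z.2) x h1 h2.hasFDerivWithinAt fun y _ => ⟨hz.1, mem_univ _⟩
  rw [hasFDerivWithinAt_univ] at h3
  simp only
  rw [h3.fderiv]
  simp

lemma cd_fd {f : ℝ → V → F} (hf : ContDiffOn ℝ ∞ (fun z : ℝ × V => f z.1 z.2) S0) (v : V) :
    ContDiffOn ℝ ∞ (fun z : ℝ × V => fderiv ℝ (f z.1) z.2 v) S0 := by
  have h1 : ContDiffOn ℝ ∞ (fun z : ℝ × V =>
      fderivWithin ℝ (fun z : ℝ × V => f z.1 z.2) S0 z (0, v)) S0 :=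
    (hf.fderivWithin ud (m := ∞) (by simp)).clm_apply contDiffOn_const
  exact h1.congr fun z hz => fd_eq hf hz v

lemma pD_succ (n : ℕ) (j : Fin 3) {f : V → ℝ} (hf : ContDiff ℝ ∞ f) (x : V) :
    partialD (n + 1) j f x = fderiv ℝ (partialD n j f) x (Pi.single j 1) := by
  have h1 : DifferentiableAt ℝ (iteratedFDeriv ℝ n f) x :=
    (hf.differentiable_iteratedFDeriv (m := n) (by exact_mod_cast WithTop.coe_lt_top _)) x
  have h2 : HasFDerivAt (partialD n j f)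
      ((ContinuousMultilinearMap.apply ℝ (fun _ : Fin n => V) ℝ (fun _ => Pi.single j 1)).comp
        (fderiv ℝ (iteratedFDeriv ℝ n f) x)) x :=
    (ContinuousMultilinearMap.apply ℝ (fun _ : Fin n => V) ℝ
      (fun _ => Pi.single j 1)).hasFDerivAt.comp x h1.hasFDerivAt
  rw [h2.fderiv]
  unfold partialD
  rw [iteratedFDeriv_succ_apply_left]
  rfl

lemma pD_zero (j : Fin 3) (f : V → ℝ) (x : V) : partialD 0 j f x = f x := by
  unfold partialD
  rw [iteratedFDeriv_zero_apply]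

lemma cd_pD (n : ℕ) (j : Fin 3) {f : ℝ → V → ℝ}
    (hf : ContDiffOn ℝ ∞ (fun z : ℝ × V => f z.1 z.2) S0) :
    ContDiffOn ℝ ∞ (fun z : ℝ × V => partialD n j (f z.1) z.2) S0 := by
  induction n with
  | zero =>
    have e : (fun z : ℝ × V => partialD 0 j (f z.1) z.2) = fun z : ℝ × V => f z.1 z.2 :=
      funext fun z => pD_zero j (f z.1) z.2
    rw [e]
    exact hf
  | succ n ih =>
    have h1 := cd_fd (f := fun t => partialD n j (f t)) ih (Pi.single j 1)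
    exact h1.congr fun z hz => pD_succ n j (slice hf hz.1) z.2

end T0k

theorem t0 : A0 := by
  intro v hv
  have hv' : ContDiffOn ℝ ∞ (fun z : ℝ × V => v z.1 z.2) T0k.S0 := hv
  have hc : ∀ i, ContDiffOn ℝ ∞ (fun z : ℝ × V => v z.1 z.2 i) T0k.S0 :=
    fun i => contDiffOn_pi.1 hv' i
  have h1 : ∀ (i j : Fin 3) (n : ℕ), ContinuousOn
      (fun z : ℝ × V => partialD n j (fun y => v z.1 y i) z.2) T0k.S0 := fun i j n =>
    (T0k.cd_pD n j (f := fun t y => v t y i) (hc i)).continuousOn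
  exact ⟨fun t ht => T0k.slice hv' ht, fun i j => h1 i j 1, fun i j n => h1 i j n⟩

end Pool.Agent.H303.DEE
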