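import Pool.Agent.H303.DEE.Stm

/-!
# DEE-T1: the velocity is square integrable in space-time (A1)
-/

set_option autoImplicit false

open MeasureTheory Set Filter Topology
open scoped ContDiff ENNReal

namespace Pool.Agent.H303.DEE

namespace T1

theorem bound {n : ℕ} {ν : ℝ} {α : Fin 3 → ℝ} {T : ℝ} {u₀ : V → V} {u : ℝ → V → V}
    {G : ℝ → V → Fin 3 → Fin 3 → ℝ} (hν : 0 < ν) (h : IsLerayHopf n ν α T u₀ u G) (t : ℝ)
    (ht : t ∈ Icc 0 T) : ∫ x in Q, ∑ i, u t x i ^ 2 ≤ ∫ x in Q, ∑ i, u₀ x i ^ 2 := by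
  have h1 := h.energy t ht
  have h2 : 0 ≤ ∫ s in (0 : ℝ)..t, ∫ x in Q, ∑ i, ∑ j, G s x i j ^ 2 :=
    intervalIntegral.integral_nonneg ht.1 fun s _ =>
      integral_nonneg fun x => Finset.sum_nonneg fun i _ => Finset.sum_nonneg fun j _ => sq_nonneg _
  have h3 := mul_nonneg hν.le h2
  linarith

theorem bound_i {n : ℕ} {ν : ℝ} {α : Fin 3 → ℝ} {T : ℝ} {u₀ : V → V} {u : ℝ → V → V}
    {G : ℝ → V → Fin 3 → Fin 3 → ℝ} (hν : 0 < ν) (h : IsLerayHopf n ν α T u₀ u G) (t : ℝ)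
    (ht : t ∈ Icc 0 T) (i : Fin 3) : ∫ x in Q, u t x i ^ 2 ≤ ∫ x in Q, ∑ i, u₀ x i ^ 2 := by
  refine le_trans ?_ (bound hν h t ht)
  refine integral_mono (h.l2_u t ht i).integrable_sq
    (integrable_finsetSum _ fun j _ => (h.l2_u t ht j).integrable_sq) fun x => ?_
  exact Finset.single_le_sum (f := fun j => u t x j ^ 2) (fun j _ => sq_nonneg _)
    (Finset.mem_univ i)

theorem bound_l {n : ℕ} {ν : ℝ} {α : Fin 3 → ℝ} {T : ℝ} {u₀ : V → V} {u : ℝ → V → V}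
    {G : ℝ → V → Fin 3 → Fin 3 → ℝ} (hν : 0 < ν) (h : IsLerayHopf n ν α T u₀ u G) (t : ℝ)
    (ht : t ∈ Icc 0 T) (i : Fin 3) :
    ∫⁻ x in Q, ‖u t x i ^ 2‖ₑ ≤ ENNReal.ofReal (∫ x in Q, ∑ i, u₀ x i ^ 2) := by
  have h1 := ofReal_integral_eq_lintegral_ofReal (h.l2_u t ht i).integrable_sq
    (Eventually.of_forall fun x => sq_nonneg (u t x i))
  have h2 : ∫⁻ x in Q, ‖u t x i ^ 2‖ₑ = ∫⁻ x in Q, ENNReal.ofReal (u t x i ^ 2) :=
    lintegral_congr fun x => Real.enorm_of_nonneg (sq_nonneg _)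
  rw [h2, ← h1]
  exact ENNReal.ofReal_le_ofReal (bound_i hν h t ht i)

theorem memLp {n : ℕ} {ν : ℝ} {α : Fin 3 → ℝ} {T : ℝ} {u₀ : V → V} {u : ℝ → V → V}
    {G : ℝ → V → Fin 3 → Fin 3 → ℝ} (hν : 0 < ν) (h : IsLerayHopf n ν α T u₀ u G) (i : Fin 3) :
    MemLp (fun z : ℝ × V => u z.1 z.2 i) 2 (volume.restrict (Icc 0 T ×ˢ Q)) := by
  have hm : Measurable fun z : ℝ × V => u z.1 z.2 i := (measurable_pi_apply i).comp h.meas_u
  rw [memLp_two_iff_integrable_sq hm.aestronglyMeasurable]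
  refine ⟨(hm.pow_const 2).aestronglyMeasurable, ?_⟩
  rw [HasFiniteIntegral, Measure.volume_eq_prod, ← Measure.prod_restrict,
    lintegral_prod _ ((hm.pow_const 2).enorm.aemeasurable)]
  calc ∫⁻ t in Icc 0 T, ∫⁻ x in Q, ‖u (t, x).1 (t, x).2 i ^ 2‖ₑ
      ≤ ∫⁻ _ in Icc 0 T, ENNReal.ofReal (∫ x in Q, ∑ i, u₀ x i ^ 2) :=
        setLIntegral_mono measurable_const fun t ht => bound_l hν h t ht i
    _ = ENNReal.ofReal (∫ x in Q, ∑ i, u₀ x i ^ 2) * volume (Icc (0 : ℝ) T) := by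
        rw [lintegral_const, Measure.restrict_apply_univ]
    _ < ⊤ := by
        refine ENNReal.mul_lt_top ENNReal.ofReal_lt_top ?_
        rw [Real.volume_Icc]
        exact ENNReal.ofReal_lt_top

end T1

/-- **A1** -/
theorem t1 : A1 := fun _ _ _ _ _ _ _ hν h =>
  ⟨fun t ht => T1.bound hν h t ht, fun i => T1.memLp hν h i⟩

end Pool.Agent.H303.DEE
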