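import Pool.Agent.H303.DEE.Stm

/-! DEE-T2: Gronwall's inequality for integrable functions (A2). -/

open MeasureTheory Set Filter Topology
open scoped ContDiff ENNReal

namespace Pool.Agent.H303.DEE

theorem t2 : A2 := by
  intro T K g₀ g D hK hg₀ hint hg hD hle t ht
  have hg' : Integrable ((Icc 0 T).indicator g) := hint.integrable_indicator measurableSet_Icc
  have hint' : ∀ a b, IntervalIntegrable ((Icc 0 T).indicator g) volume a b :=
    fun a b => hg'.intervalIntegrable
  obtain ⟨H, hHdef⟩ : ∃ H : ℝ → ℝ, H = fun t => g₀ + K * ∫ s in (0 : ℝ)..t,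
    (Icc 0 T).indicator g s := ⟨_, rfl⟩
  have hH : Continuous H := by
    rw [hHdef]
    exact continuous_const.add (continuous_const.mul
      (intervalIntegral.continuous_primitive hint' 0))
  have hcongr : ∀ t ∈ Icc 0 T, ∫ s in (0 : ℝ)..t, (Icc 0 T).indicator g s =
      ∫ s in (0 : ℝ)..t, g s := by
    intro t ht
    apply intervalIntegral.integral_congr
    intro s hs
    rw [uIcc_of_le ht.1] at hs
    exact indicator_of_mem (show s ∈ Icc 0 T from ⟨hs.1, hs.2.trans ht.2⟩) g
  have hgH : ∀ t ∈ Icc 0 T, g t + D t ≤ H t := by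
    intro t ht
    have h1 := hle t ht
    rw [← hcongr t ht] at h1
    rw [hHdef]
    exact h1
  obtain ⟨R, hRdef⟩ : ∃ R : ℝ → ℝ, R = fun t => g₀ + K * ∫ s in (0 : ℝ)..t, H s := ⟨_, rfl⟩
  have hR : ∀ t, HasDerivAt R (K * H t) t := by
    intro t
    rw [hRdef]
    exact ((intervalIntegral.integral_hasDerivAt_right (hH.intervalIntegrable _ _)
      (hH.stronglyMeasurableAtFilter _ _) hH.continuousAt).const_mul K).const_add g₀
  have hHR : ∀ t ∈ Icc 0 T, H t ≤ R t := by
    intro t ht
    have h1 : ∫ s in (0 : ℝ)..t, (Icc 0 T).indicator g s ≤ ∫ s in (0 : ℝ)..t, H s := by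
      apply intervalIntegral.integral_mono_on ht.1 (hint' _ _) (hH.intervalIntegrable _ _)
      intro s hs
      have hs' : s ∈ Icc 0 T := ⟨hs.1, hs.2.trans ht.2⟩
      rw [indicator_of_mem hs' g]
      have h2 := hgH s hs'
      have h3 := hD s hs'
      linarith
    have h4 := mul_le_mul_of_nonneg_left h1 hK
    rw [hRdef]
    rw [hHdef] at h4 ⊢
    show g₀ + K * _ ≤ g₀ + K * _
    linarith
  have hΦ : ∀ s, HasDerivAt (fun s => R s * Real.exp (-(K * s)))
      ((K * H s) * Real.exp (-(K * s)) + R s * (Real.exp (-(K * s)) * (-(K * 1)))) s := by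
    intro s
    exact (hR s).mul (((hasDerivAt_id s).const_mul K).neg.exp)
  have hanti : AntitoneOn (fun s => R s * Real.exp (-(K * s))) (Icc 0 T) := by
    apply antitoneOn_of_deriv_nonpos (convex_Icc 0 T)
    · exact fun s _ => (hΦ s).continuousAt.continuousWithinAt
    · exact fun s _ => (hΦ s).differentiableAt.differentiableWithinAt
    · intro s hs
      rw [interior_Icc] at hs
      rw [(hΦ s).deriv]
      have h1 := hHR s ⟨hs.1.le, hs.2.le⟩
      have h2 := Real.exp_pos (-(K * s))
      have h3 : (K * H s) * Real.exp (-(K * s)) + R s * (Real.exp (-(K * s)) * (-(K * 1))) =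
          -(K * (R s - H s) * Real.exp (-(K * s))) := by ring
      rw [h3]
      have h4 : 0 ≤ K * (R s - H s) * Real.exp (-(K * s)) :=
        mul_nonneg (mul_nonneg hK (by linarith)) h2.le
      linarith
  have h0 : R 0 = g₀ := by
    rw [hRdef]
    simp
  have h1 := hanti (left_mem_Icc.2 (ht.1.trans ht.2)) ht ht.1
  simp only [h0, mul_zero, neg_zero, Real.exp_zero, mul_one] at h1
  have h2 : R t ≤ g₀ * Real.exp (K * t) := by
    have h3 := mul_le_mul_of_nonneg_right h1 (Real.exp_pos (K * t)).le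
    rwa [mul_assoc, ← Real.exp_add, neg_add_cancel, Real.exp_zero, mul_one] at h3
  have h3 : g₀ * Real.exp (K * t) ≤ g₀ * Real.exp (K * T) :=
    mul_le_mul_of_nonneg_left (Real.exp_le_exp.2 (mul_le_mul_of_nonneg_left ht.2 hK)) hg₀
  exact (hgH t ht).trans ((hHR t ht).trans (h2.trans h3))

end Pool.Agent.H303.DEE
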