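import Pool.Agent.H303.DEE.Stm
import Pool.Graph.R_seed8.H459R3.NS.Ibp

/-!
# DEE/T3: the identity in space, at one time (helper230)
-/

open MeasureTheory Set Filter Topology
open scoped ContDiff ENNReal

namespace Pool.Agent.H303.DEE

namespace T3

open H459R3.NS (SP Per pd cube pd_mul pd_sum int_press)

theorem partialD_one (j : Fin 3) (f : V → ℝ) (x : V) : partialD 1 j f x = pd j f x := by
  unfold partialD pd
  rw [iteratedFDeriv_one_apply]

theorem partialD_two {f : V → ℝ} (hf : SP f) (j : Fin 3) (x : V) :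
    partialD 2 j f x = pd j (pd j f) x := by
  have h2 : ContDiff ℝ 2 f := hf.smooth.of_le (by norm_cast)
  have hd : DifferentiableAt ℝ (fderiv ℝ f) x :=
    ((h2.fderiv_right (m := 1) (by norm_num)).differentiable one_ne_zero) x
  have e : pd j (pd j f) x = fderiv ℝ (fderiv ℝ f) x (Pi.single j 1) (Pi.single j 1) := by
    unfold pd
    have h3 : HasFDerivAt (fun y => fderiv ℝ f y (Pi.single j 1)) _ x :=
      hd.hasFDerivAt.clm_apply (hasFDerivAt_const (Pi.single j (1 : ℝ) : V) x)
    rw [h3.fderiv]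
    simp
  rw [e]
  unfold partialD
  rw [iteratedFDeriv_two_apply]

theorem bd {f : V → ℝ} (hf : Continuous f) : ∃ C : ℝ, ∀ᵐ x ∂mQ, ‖f x‖ ≤ C := by
  obtain ⟨C, hC⟩ := (isCompact_Icc (a := (0 : V)) (b := 1)).exists_bound_of_continuousOn
    hf.continuousOn
  refine ⟨C, ?_⟩
  have h1 : ∀ᵐ x ∂mQ, x ∈ Q := ae_restrict_mem measurableSet_Icc
  filter_upwards [h1] with x hx
  exact hC x hx

instance : IsFiniteMeasure mQ := ⟨by
  rw [Measure.restrict_apply_univ]
  exact (isCompact_Icc (a := (0 : V)) (b := 1)).measure_lt_top⟩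

theorem memLp_cont {f : V → ℝ} (hf : Continuous f) : MemLp f 2 mQ := by
  obtain ⟨C, hC⟩ := bd hf
  exact MemLp.of_bound hf.aestronglyMeasurable C hC

theorem int_mul {f g : V → ℝ} (hf : MemLp f 2 mQ) (hg : Continuous g) :
    Integrable (fun x => f x * g x) mQ := hf.integrable_mul (memLp_cont hg)

theorem int_mul3 {f g h : V → ℝ} (hf : MemLp f 2 mQ) (hg : MemLp g 2 mQ) (hh : Continuous h) :
    Integrable (fun x => f x * g x * h x) mQ := by
  obtain ⟨C, hC⟩ := bd hh
  exact (hf.integrable_mul hg).mul_bdd hh.aestronglyMeasurable hC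

theorem iadd {f g : V → ℝ} (hf : Integrable f mQ) (hg : Integrable g mQ) :
    Integrable (fun x => f x + g x) mQ := hf.add hg

theorem split {f1 f2 f3 f4 f5 f6 : V → ℝ} (k1 : Integrable f1 mQ) (k2 : Integrable f2 mQ)
    (k3 : Integrable f3 mQ) (k4 : Integrable f4 mQ) (k5 : Integrable f5 mQ)
    (k6 : Integrable f6 mQ) (c1 c2 c3 c5 c6 : ℝ) :
    ∫ x in Q, (f4 x + (c5 * f5 x + (c6 * f6 x + (c2 * f2 x + (c3 * f3 x + c1 * f1 x))))) =
      (∫ x in Q, f4 x) + (c5 * (∫ x in Q, f5 x) + (c6 * (∫ x in Q, f6 x) +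
        (c2 * (∫ x in Q, f2 x) + (c3 * (∫ x in Q, f3 x) + c1 * ∫ x in Q, f1 x)))) := by
  have a1 := k1.const_mul c1
  have a2 := k2.const_mul c2
  have a3 := k3.const_mul c3
  have a5 := k5.const_mul c5
  have a6 := k6.const_mul c6
  rw [integral_add k4 (iadd a5 (iadd a6 (iadd a2 (iadd a3 a1)))),
    integral_add a5 (iadd a6 (iadd a2 (iadd a3 a1))),
    integral_add a6 (iadd a2 (iadd a3 a1)), integral_add a2 (iadd a3 a1), integral_add a3 a1,
    integral_const_mul, integral_const_mul, integral_const_mul, integral_const_mul,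
    integral_const_mul]

end T3

open T3 in
open H459R3.NS (SP Per pd cube pd_mul pd_sum int_press) in
theorem t3 : A3 := by
  intro n ν α u G v dv p hu hG hdivu hgrad hs hp hpp hdv
  have hv : ∀ i, SP (fun y => v y i) := fun i =>
    ⟨(contDiff_pi.1 hs.smooth) i, fun j x => congrFun (hs.per j x) i⟩
  have hpS : SP p := ⟨hp, hpp⟩
  obtain ⟨D, hDe⟩ : ∃ D : Fin 3 → Fin 3 → V → ℝ, D = fun i j => pd j (fun y => v y i) := ⟨_, rfl⟩
  have hD : ∀ i j, SP (D i j) := fun i j => by
    rw [hDe]
    exact (hv i).pd j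
  have hDc : ∀ i j, Continuous (D i j) := fun i j => (hD i j).cont
  have e1 : ∀ i j x, partialD 1 j (fun y => v y i) x = D i j x := fun i j x => by
    rw [hDe]
    exact partialD_one j _ x
  have e2 : ∀ i j x, partialD 2 j (fun y => v y i) x = pd j (D i j) x := fun i j x => by
    rw [hDe]
    exact partialD_two (hv i) j x
  have e3 : ∀ i x, partialD 1 i p x = pd i p x := fun i x => partialD_one i p x
  simp only [e1, e2, e3] at hdv ⊢
  have hdiv : ∀ x, ∑ j, pd j (fun y => v y j) x = 0 := fun x => by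
    rw [← hs.divfree x]
    exact Finset.sum_congr rfl fun j _ => (partialD_one j _ x).symm
  -- the square of `v`
  obtain ⟨ψ, hψe⟩ : ∃ ψ : V → ℝ, ψ = fun y => ∑ i, v y i * v y i := ⟨_, rfl⟩
  have hψ : SP ψ := by
    rw [hψe]
    exact SP.sum fun i _ => (hv i).mul (hv i)
  have hψd : ∀ j x, pd j ψ x = 2 * ∑ i, v x i * D i j x := by
    intro j x
    rw [hψe, pd_sum (fun i _ => (hv i).mul (hv i)) j x, Finset.mul_sum]
    refine Finset.sum_congr rfl fun i _ => ?_
    rw [pd_mul (hv i) (hv i), hDe]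
    ring
  -- the integrals which vanish
  have i1 : ∫ x in Q, ∑ j, u x j * pd j p x = 0 := by
    have h := hdivu p hp hpp
    simp only [e3] at h
    exact h
  have i5 : ∫ x in Q, ∑ j, u x j * pd j ψ x = 0 := by
    have h := hdivu ψ hψ.smooth hψ.per
    simp only [partialD_one] at h
    exact h
  have i6 : ∫ x in Q, ∑ j, v x j * pd j ψ x = 0 := by
    have h := int_press hv hdiv hψ
    rw [← h]
    exact integral_finsetSum _ fun j _ => ((hv j).mul (hψ.pd j)).int
  -- integrability
  have k1 : Integrable (fun x => ∑ j, u x j * pd j p x) mQ :=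
    integrable_finsetSum _ fun j _ => int_mul (hu j) (hpS.pd j).cont
  have k5 : Integrable (fun x => ∑ j, u x j * pd j ψ x) mQ :=
    integrable_finsetSum _ fun j _ => int_mul (hu j) (hψ.pd j).cont
  have k6 : Integrable (fun x => ∑ j, v x j * pd j ψ x) mQ :=
    integrable_finsetSum _ fun j _ => ((hv j).mul (hψ.pd j)).int
  have k2 : Integrable (fun x => ∑ i, ∑ j, u x i * pd j (D i j) x) mQ :=
    integrable_finsetSum _ fun i _ => integrable_finsetSum _ fun j _ =>
      int_mul (hu i) ((hD i j).pd j).cont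
  have k3 : Integrable (fun x => ∑ i, ∑ j, G x i j * D i j x) mQ :=
    integrable_finsetSum _ fun i _ => integrable_finsetSum _ fun j _ =>
      int_mul (hG i j) (hDc i j)
  have k4 : Integrable (fun x => ∑ i, ∑ j, (u x i - v x i) * (u x j - v x j) * D i j x) mQ :=
    integrable_finsetSum _ fun i _ => integrable_finsetSum _ fun j _ =>
      int_mul3 ((hu i).sub (memLp_cont (hv i).cont)) ((hu j).sub (memLp_cont (hv j).cont))
        (hDc i j)
  -- the gradient
  have i2 : ∫ x in Q, ∑ i, ∑ j, u x i * pd j (D i j) x = -∫ x in Q, ∑ i, ∑ j, G x i j * D i j x := by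
    rw [integral_finsetSum _ fun i _ => integrable_finsetSum _ fun j _ =>
      int_mul (hu i) ((hD i j).pd j).cont, integral_finsetSum _ fun i _ =>
      integrable_finsetSum _ fun j _ => int_mul (hG i j) (hDc i j), ← Finset.sum_neg_distrib]
    refine Finset.sum_congr rfl fun i _ => ?_
    rw [integral_finsetSum _ fun j _ => int_mul (hu i) ((hD i j).pd j).cont,
      integral_finsetSum _ fun j _ => int_mul (hG i j) (hDc i j), ← Finset.sum_neg_distrib]
    refine Finset.sum_congr rfl fun j _ => ?_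
    have h := hgrad (D i j) (hD i j).smooth (hD i j).per i j
    simp only [partialD_one] at h
    exact h
  -- the pointwise identity
  have hpt : ∀ x, ((∑ i, u x i * dv x i) + (∑ i, ∑ j, u x i * u x j * D i j x)
      - ν * (∑ i, ∑ j, G x i j * D i j x)
      - ∑ i, ∑ j, α j * (u x i * partialD n j (fun y => v y i) x)) =
      (∑ i, ∑ j, (u x i - v x i) * (u x j - v x j) * D i j x)
      + ((1 / 2) * (∑ j, u x j * pd j ψ x) + (-(1 / 2) * (∑ j, v x j * pd j ψ x)
      + (ν * (∑ i, ∑ j, u x i * pd j (D i j) x) + ((-ν) * (∑ i, ∑ j, G x i j * D i j x)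
      + (-1) * (∑ j, u x j * pd j p x))))) := by
    intro x
    have h0 := hdv x 0
    have h1 := hdv x 1
    have h2 := hdv x 2
    simp only [hψd, Fin.sum_univ_three] at h0 h1 h2 ⊢
    linear_combination (u x 0) * h0 + (u x 1) * h1 + (u x 2) * h2
  simp only [hpt]
  rw [split k1 k2 k3 k4 k5 k6, i1, i5, i6, i2]
  ring

end Pool.Agent.H303.DEE
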