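import Pool.Agent.H303.DEE.Stm

/-!
helper34: the energy of the difference (A5).
-/

set_option autoImplicit false

open MeasureTheory Set Filter Topology
open scoped ContDiff ENNReal

namespace Pool.Agent.H303.DEE

namespace T5k

theorem isCompact_Q : IsCompact Q := isCompact_Icc

theorem meas_Q : MeasurableSet Q := measurableSet_Icc

instance fin_mQ : IsFiniteMeasure mQ := ⟨by
  rw [Measure.restrict_apply_univ]
  exact isCompact_Q.measure_lt_top⟩

section gen

variable {X ι : Type} [MeasurableSpace X] [Fintype ι] {μ : Measure X} {f h : X → ι → ℝ}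

theorem int_mul (hf : ∀ i, MemLp (fun x => f x i) 2 μ) (hh : ∀ i, MemLp (fun x => h x i) 2 μ) :
    Integrable (fun x => ∑ i, f x i * h x i) μ :=
  integrable_finsetSum _ fun i _ => (hf i).integrable_mul (hh i)

theorem int_sq (hf : ∀ i, MemLp (fun x => f x i) 2 μ) :
    Integrable (fun x => ∑ i, f x i ^ 2) μ :=
  integrable_finsetSum _ fun i _ => (hf i).integrable_sq

/-- expansion of the square -/
theorem expand (hf : ∀ i, MemLp (fun x => f x i) 2 μ) (hh : ∀ i, MemLp (fun x => h x i) 2 μ) :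
    ∫ x, ∑ i, (f x i - h x i) ^ 2 ∂μ =
      (∫ x, ∑ i, f x i ^ 2 ∂μ) + (∫ x, ∑ i, h x i ^ 2 ∂μ) - 2 * ∫ x, ∑ i, f x i * h x i ∂μ := by
  have h1 := int_sq hf
  have h2 := int_sq hh
  have h3 := (int_mul hf hh).const_mul 2
  have h4 : (fun x => ∑ i, (f x i - h x i) ^ 2) = fun x =>
      ((∑ i, f x i ^ 2) + (∑ i, h x i ^ 2)) - 2 * ∑ i, f x i * h x i := by
    funext x
    rw [Finset.mul_sum, ← Finset.sum_add_distrib, ← Finset.sum_sub_distrib]
    exact Finset.sum_congr rfl fun i _ => by ring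
  have h12 : Integrable (fun x => (∑ i, f x i ^ 2) + ∑ i, h x i ^ 2) μ := h1.add h2
  rw [h4, integral_sub h12 h3, integral_add h1 h2, integral_const_mul]

end gen

theorem iter {F : ℝ × V → ℝ} {t : ℝ} (ht : 0 ≤ t)
    (hF : Integrable F ((volume.restrict (Ioc 0 t)).prod mQ)) :
    ∫ s in (0 : ℝ)..t, ∫ x in Q, F (s, x) = ∫ z, F z ∂((volume.restrict (Ioc 0 t)).prod mQ) := by
  rw [intervalIntegral.integral_of_le ht, integral_prod _ hF]

theorem mt_eq (t : ℝ) :
    (volume.restrict (Ioc (0 : ℝ) t)).prod mQ = volume.restrict (Ioc 0 t ×ˢ Q) := by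
  rw [Measure.prod_restrict]
  rfl

/-- continuous functions on the slab -/
theorem bdd_slab {f : ℝ × V → ℝ} (hf : ContinuousOn f (Ici 0 ×ˢ univ)) (t : ℝ) :
    AEStronglyMeasurable f ((volume.restrict (Ioc (0 : ℝ) t)).prod mQ) ∧
    ∃ C : ℝ, ∀ᵐ z ∂((volume.restrict (Ioc (0 : ℝ) t)).prod mQ), ‖f z‖ ≤ C := by
  have hK : IsCompact (Icc 0 t ×ˢ Q) := isCompact_Icc.prod isCompact_Q
  have hsub : (Icc 0 t ×ˢ Q : Set (ℝ × V)) ⊆ Ici 0 ×ˢ univ := fun z hz => ⟨hz.1.1, mem_univ _⟩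
  have hfK := hf.mono hsub
  have hle : (Ioc 0 t ×ˢ Q : Set (ℝ × V)) ⊆ Icc 0 t ×ˢ Q := prod_mono Ioc_subset_Icc_self le_rfl
  have hms : MeasurableSet (Ioc 0 t ×ˢ Q : Set (ℝ × V)) := measurableSet_Ioc.prod meas_Q
  obtain ⟨C, hC⟩ := hK.exists_bound_of_continuousOn hfK
  rw [mt_eq]
  refine ⟨(hfK.mono hle).aestronglyMeasurable hms, C, ?_⟩
  exact (ae_restrict_iff' hms).2 (Eventually.of_forall fun z hz => hC z (hle hz))

theorem fin_mt (t : ℝ) : IsFiniteMeasure ((volume.restrict (Ioc (0 : ℝ) t)).prod mQ) :=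
  inferInstance

theorem memLp_slab {f : ℝ × V → ℝ} (hf : ContinuousOn f (Ici 0 ×ˢ univ)) (t : ℝ) :
    MemLp f 2 ((volume.restrict (Ioc (0 : ℝ) t)).prod mQ) := by
  obtain ⟨h1, C, h2⟩ := bdd_slab hf t
  exact MemLp.of_bound h1 C h2

theorem memLp_Q {f : V → ℝ} (hf : Continuous f) : MemLp f 2 mQ := by
  obtain ⟨C, hC⟩ := isCompact_Q.exists_bound_of_continuousOn hf.continuousOn
  exact MemLp.of_bound hf.aestronglyMeasurable C
    ((ae_restrict_iff' meas_Q).2 (Eventually.of_forall fun z hz => hC z hz))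

theorem memLp_mono {f : ℝ × V → ℝ} {t T : ℝ} (htT : t ≤ T)
    (hf : MemLp f 2 (volume.restrict (Icc 0 T ×ˢ Q))) :
    MemLp f 2 ((volume.restrict (Ioc (0 : ℝ) t)).prod mQ) := by
  rw [mt_eq]
  refine hf.mono_measure (Measure.restrict_mono ?_ le_rfl)
  exact prod_mono (Ioc_subset_Icc_self.trans (Icc_subset_Icc le_rfl htT)) le_rfl

end T5k

open T5k in
theorem t5 (h0 : A0) (h1 : A1) (h3 : A3) (h4 : A4) : A5 := by
  intro n ν α T u₀ u G v p hν hn hu₀ hu hv t ht
  obtain ⟨ht0, htT⟩ := ht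
  obtain ⟨hvs, hgc, -⟩ := h0 v hv.smooth_u
  obtain ⟨-, hU⟩ := h1 n ν α T u₀ u G hν hu
  set mt : Measure (ℝ × V) := (volume.restrict (Ioc (0 : ℝ) t)).prod mQ with hmt
  -- smooth fields
  have hps : ∀ s, 0 ≤ s → ContDiff ℝ ∞ (p s) := by
    intro s hs
    rw [← contDiffOn_univ]
    exact hv.smooth_p.comp (contDiff_const.prodMk contDiff_id).contDiffOn
      (fun x _ => ⟨hs, mem_univ _⟩)
  have htest : Test v := ⟨hv.smooth_u, fun s hs => hv.per_u s hs, fun s hs => hv.divfree s hs⟩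
  have hsm : ∀ s, 0 ≤ s → Smooth (v s) := fun s hs => ⟨hvs s hs, hv.per_u s hs, hv.divfree s hs⟩
  -- continuity of the components
  have hvc : ∀ i, ContinuousOn (fun z : ℝ × V => v z.1 z.2 i) (Ici 0 ×ˢ univ) := fun i =>
    (continuous_apply i).comp_continuousOn hv.smooth_u.continuousOn
  have hvL : ∀ s, 0 ≤ s → ∀ i, MemLp (fun x => v s x i) 2 mQ := fun s hs i =>
    memLp_Q ((continuous_apply i).comp (hvs s hs).continuous)
  -- square integrable functions on the slab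
  have hUt : ∀ i, MemLp (fun z : ℝ × V => u z.1 z.2 i) 2 mt := fun i => memLp_mono htT (hU i)
  have hGt : ∀ i j, MemLp (fun z : ℝ × V => G z.1 z.2 i j) 2 mt := fun i j =>
    memLp_mono htT (hu.l2_G i j)
  have hVt : ∀ i, MemLp (fun z : ℝ × V => v z.1 z.2 i) 2 mt := fun i => memLp_slab (hvc i) t
  have hgt : ∀ i j, MemLp (fun z : ℝ × V => grd v z.1 z.2 i j) 2 mt := fun i j =>
    memLp_slab (hgc i j) t
  -- the integrals over the slab
  set FA : ℝ × V → ℝ := fun z => ∑ i, ∑ j, (u z.1 z.2 i - v z.1 z.2 i) *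
    (u z.1 z.2 j - v z.1 z.2 j) * grd v z.1 z.2 i j with hFA
  set FB : ℝ × V → ℝ := fun z => ∑ i, ∑ j, G z.1 z.2 i j * grd v z.1 z.2 i j with hFB
  have hAi : Integrable FA mt := by
    refine integrable_finsetSum _ fun i _ => integrable_finsetSum _ fun j _ => ?_
    obtain ⟨hm, C, hC⟩ := bdd_slab (hgc i j) t
    exact (((hUt i).sub (hVt i)).integrable_mul ((hUt j).sub (hVt j))).mul_bdd hm hC
  have hBi : Integrable FB mt :=
    integrable_finsetSum _ fun i _ => integrable_finsetSum _ fun j _ =>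
      (hGt i j).integrable_mul (hgt i j)
  have hG2i : Integrable (fun z : ℝ × V => ∑ i, ∑ j, G z.1 z.2 i j ^ 2) mt :=
    integrable_finsetSum _ fun i _ => integrable_finsetSum _ fun j _ => (hGt i j).integrable_sq
  have hg2i : Integrable (fun z : ℝ × V => ∑ i, ∑ j, grd v z.1 z.2 i j ^ 2) mt :=
    integrable_finsetSum _ fun i _ => integrable_finsetSum _ fun j _ => (hgt i j).integrable_sq
  have hDi : Integrable (fun z : ℝ × V => ∑ i, ∑ j, (G z.1 z.2 i j - grd v z.1 z.2 i j) ^ 2) mt :=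
    integrable_finsetSum _ fun i _ => integrable_finsetSum _ fun j _ =>
      ((hGt i j).sub (hgt i j)).integrable_sq
  have eA := iter ht0 hAi
  have eG := iter ht0 hG2i
  have eg := iter ht0 hg2i
  have eD := iter ht0 hDi
  simp only at eA eG eg eD
  -- the gradients
  have hD : ∫ z, ∑ i, ∑ j, (G z.1 z.2 i j - grd v z.1 z.2 i j) ^ 2 ∂mt =
      (∫ z, ∑ i, ∑ j, G z.1 z.2 i j ^ 2 ∂mt) + (∫ z, ∑ i, ∑ j, grd v z.1 z.2 i j ^ 2 ∂mt) -
        2 * ∫ z, FB z ∂mt := by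
    have h5 := expand (ι := Fin 3 × Fin 3) (μ := mt) (f := fun z q => G z.1 z.2 q.1 q.2)
      (h := fun z q => grd v z.1 z.2 q.1 q.2) (fun q => hGt q.1 q.2) (fun q => hgt q.1 q.2)
    simp only [Fintype.sum_prod_type] at h5
    exact h5
  -- the velocities at the times `t` and `0`
  have hWt := expand (ι := Fin 3) (μ := mQ) (f := u t) (h := v t)
    (fun i => hu.l2_u t ⟨ht0, htT⟩ i) (hvL t ht0)
  have hW0 := expand (ι := Fin 3) (μ := mQ) (f := u₀) (h := v 0) hu₀ (hvL 0 le_rfl)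
  -- the weak formulation
  have hweak := hu.weak v htest t ⟨ht0, htT⟩
  have hGs : ∀ᵐ s ∂(volume.restrict (Ioc (0 : ℝ) t)), ∀ i j,
      MemLp (fun x => G s x i j) 2 mQ := by
    have h5 : ∀ i j, ∀ᵐ s ∂(volume.restrict (Ioc (0 : ℝ) t)),
        Integrable (fun x => G s x i j ^ 2) mQ := fun i j =>
      (hGt i j).integrable_sq.prod_right_ae
    have h6 : ∀ᵐ s ∂(volume.restrict (Ioc (0 : ℝ) t)), ∀ i j,
        Integrable (fun x => G s x i j ^ 2) mQ :=
      ae_all_iff.2 fun i => ae_all_iff.2 fun j => h5 i j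
    filter_upwards [h6] with s hs i j
    have hm : Measurable (fun x => G s x i j) := by
      have h7 : Measurable (fun x : V => G s x) :=
        hu.meas_G.comp (measurable_const.prodMk measurable_id)
      exact (measurable_pi_apply j).comp ((measurable_pi_apply i).comp h7)
    exact (memLp_two_iff_integrable_sq hm.aestronglyMeasurable).2 (hs i j)
  have hgrad : ∀ᵐ s ∂(volume.restrict (Ioc (0 : ℝ) t)), ∀ ψ : V → ℝ, ContDiff ℝ ∞ ψ →
      Periodic ψ → ∀ i j, ∫ x in Q, u s x i * partialD 1 j ψ x = -∫ x in Q, G s x i j * ψ x :=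
    ae_restrict_of_ae_restrict_of_subset
      (Ioc_subset_Icc_self.trans (Icc_subset_Icc le_rfl htT)) hu.grad
  have hin : (∫ s in (0 : ℝ)..t, ∫ x in Q, ((∑ i, u s x i * deriv (fun r => v r x i) s)
          + (∑ i, ∑ j, u s x i * u s x j * partialD 1 j (fun y => v s y i) x)
          - ν * (∑ i, ∑ j, G s x i j * partialD 1 j (fun y => v s y i) x)
          - ∑ i, ∑ j, α j * (u s x i * partialD n j (fun y => v s y i) x))) =
      (∫ z, FA z ∂mt) - 2 * ν * ∫ z, FB z ∂mt := by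
    have h5 : (∫ z, FA z ∂mt) - 2 * ν * ∫ z, FB z ∂mt =
        ∫ s in Ioc (0 : ℝ) t, ((∫ x in Q, FA (s, x)) - 2 * ν * ∫ x in Q, FB (s, x)) := by
      rw [integral_sub hAi.integral_prod_left (hBi.integral_prod_left.const_mul _),
        integral_const_mul, ← integral_prod _ hAi, ← integral_prod _ hBi]
    rw [h5, intervalIntegral.integral_of_le ht0]
    refine integral_congr_ae ?_
    filter_upwards [hGs, hgrad, ae_restrict_mem measurableSet_Ioc] with s hs1 hs2 hs3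
    have hsT : s ∈ Icc 0 T := ⟨hs3.1.le, hs3.2.trans htT⟩
    exact h3 n ν α (u s) (G s) (v s) (fun x i => deriv (fun r => v r x i) s) (p s)
      (fun i => hu.l2_u s hsT i) hs1 (fun ψ h6 h7 => hu.divfree s hsT ψ h6 h7) hs2
      (hsm s hs3.1.le) (hps s hs3.1.le) (hv.per_p s hs3.1.le)
      (fun x i => hv.momentum s hs3.1.le hs3.1 x i)
  rw [hin] at hweak
  have hen := hu.energy t ⟨ht0, htT⟩
  have hev := h4 n ν α v p hn hv t ht0
  unfold EnergyEq at hev
  rw [eG] at hen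
  rw [eg] at hev
  rw [eD, hD, eA, hWt, hW0]
  have e1 : ν * ((∫ z, ∑ i, ∑ j, G z.1 z.2 i j ^ 2 ∂mt) +
      (∫ z, ∑ i, ∑ j, grd v z.1 z.2 i j ^ 2 ∂mt) - 2 * ∫ z, FB z ∂mt) =
      ν * (∫ z, ∑ i, ∑ j, G z.1 z.2 i j ^ 2 ∂mt) +
      ν * (∫ z, ∑ i, ∑ j, grd v z.1 z.2 i j ^ 2 ∂mt) - 2 * ν * ∫ z, FB z ∂mt := by ring
  rw [e1]
  linarith

end Pool.Agent.H303.DEE
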