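import Pool.Agent.H303.DEE.Stm

/-!
# Project DEE, part T6 (helper685): stability (A6)
-/

open MeasureTheory Set Filter Topology
open scoped ContDiff ENNReal

namespace Pool.Agent.H303.DEE

namespace T6

theorem compact_Q : IsCompact Q := isCompact_Icc

theorem measurable_Q : MeasurableSet Q := measurableSet_Icc

instance : IsFiniteMeasure (volume.restrict Q : Measure V) :=
  ⟨by rw [Measure.restrict_apply_univ]; exact compact_Q.measure_lt_top⟩

/-- a bound for finitely many continuous functions on a compact set -/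
theorem exists_bound {f : Fin 3 → Fin 3 → ℝ × V → ℝ} {T : ℝ}
    (hf : ∀ i j, ContinuousOn (f i j) (Ici 0 ×ˢ univ)) :
    ∃ K : ℝ, 0 ≤ K ∧ ∀ t ∈ Icc 0 T, ∀ x ∈ Q, ∀ i j, |f i j (t, x)| ≤ K := by
  have hc : IsCompact (Icc (0 : ℝ) T ×ˢ Q) := isCompact_Icc.prod compact_Q
  have hsub : Icc (0 : ℝ) T ×ˢ Q ⊆ Ici 0 ×ˢ univ :=
    prod_mono (fun t ht => ht.1) (subset_univ _)
  have h1 : ∀ i j, ∃ C : ℝ, ∀ z ∈ Icc (0 : ℝ) T ×ˢ Q, ‖f i j z‖ ≤ C := fun i j =>
    hc.exists_bound_of_continuousOn ((hf i j).mono hsub)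
  choose C hC using h1
  refine ⟨∑ i, ∑ j, |C i j|, Finset.sum_nonneg fun i _ => Finset.sum_nonneg fun j _ =>
    abs_nonneg _, fun t ht x hx i j => ?_⟩
  have h2 := hC i j (t, x) ⟨ht, hx⟩
  rw [Real.norm_eq_abs] at h2
  calc |f i j (t, x)| ≤ |C i j| := h2.trans (le_abs_self _)
    _ ≤ ∑ j, |C i j| := Finset.single_le_sum (f := fun j => |C i j|)
        (fun j _ => abs_nonneg _) (Finset.mem_univ j)
    _ ≤ ∑ i, ∑ j, |C i j| := Finset.single_le_sum (f := fun i => ∑ j, |C i j|)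
        (fun i _ => Finset.sum_nonneg fun j _ => abs_nonneg _) (Finset.mem_univ i)

/-- the pointwise estimate -/
theorem abs_sum_le {K : ℝ} (w : Fin 3 → ℝ) (a : Fin 3 → Fin 3 → ℝ) (hK : 0 ≤ K)
    (ha : ∀ i j, |a i j| ≤ K) :
    |∑ i, ∑ j, w i * w j * a i j| ≤ 3 * K * ∑ i, w i ^ 2 := by
  have h1 : |∑ i, ∑ j, w i * w j * a i j| ≤ ∑ i, ∑ j, K * ((w i ^ 2 + w j ^ 2) / 2) := by
    refine (Finset.abs_sum_le_sum_abs _ _).trans (Finset.sum_le_sum fun i _ =>
      (Finset.abs_sum_le_sum_abs _ _).trans (Finset.sum_le_sum fun j _ => ?_))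
    rw [abs_mul, abs_mul, mul_comm]
    refine mul_le_mul (ha i j) ?_ (mul_nonneg (abs_nonneg _) (abs_nonneg _)) hK
    have h2 := sq_nonneg (|w i| - |w j|)
    have h3 := sq_abs (w i)
    have h4 := sq_abs (w j)
    nlinarith
  refine h1.trans (le_of_eq ?_)
  simp only [Fin.sum_univ_three]
  ring

end T6

open T6 in
theorem t6 (h0 : A0) (h1 : A1) (h2 : A2) (h5 : A5) : A6 := by
  intro n ν α v p T hν hn hv
  obtain ⟨hv1, hv2, -⟩ := h0 v hv.smooth_u
  obtain ⟨K, hK0, hK⟩ := exists_bound (T := T) (f := fun i j z => grd v z.1 z.2 i j) hv2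
  refine ⟨max 1 ((2 + 1 / ν) * Real.exp (6 * K * |T|)), le_max_left _ _,
    fun T' hT' u₀ u G hu₀ hu t ht => ?_⟩
  have hvc : ContinuousOn (fun z : ℝ × V => v z.1 z.2) (Ici 0 ×ˢ univ) :=
    hv.smooth_u.continuousOn
  -- the differences at one time
  have hvL : ∀ s, 0 ≤ s → ∀ i, MemLp (fun x => v s x i) 2 mQ := by
    intro s hs i
    have h3 : Continuous fun x => v s x i :=
      (continuous_apply i).comp (hv1 s hs).continuous
    obtain ⟨B, hB⟩ := compact_Q.exists_bound_of_continuousOn h3.continuousOn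
    exact MemLp.of_bound h3.aestronglyMeasurable B
      ((ae_restrict_iff' measurable_Q).2 (Eventually.of_forall hB))
  have hwI : ∀ s ∈ Icc 0 T', Integrable (fun x => ∑ i, (u s x i - v s x i) ^ 2) mQ := by
    intro s hs
    exact integrable_finsetSum _ fun i _ => ((hu.l2_u s hs i).sub (hvL s hs.1 i)).integrable_sq
  -- the square integrability in space-time
  have hprod : (volume.restrict (Icc 0 T' ×ˢ Q) : Measure (ℝ × V)) =
      (volume.restrict (Icc 0 T')).prod (volume.restrict Q) := by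
    rw [Measure.prod_restrict]
    rfl
  have hvST : ∀ i, MemLp (fun z : ℝ × V => v z.1 z.2 i) 2
      (volume.restrict (Icc 0 T' ×ˢ Q)) := by
    intro i
    have h3 : ContinuousOn (fun z : ℝ × V => v z.1 z.2 i) (Icc 0 T' ×ˢ Q) :=
      ((continuous_apply i).comp_continuousOn hvc).mono
        (prod_mono (fun t ht => ht.1) (subset_univ _))
    have hcomp : IsCompact (Icc (0 : ℝ) T' ×ˢ Q) := isCompact_Icc.prod compact_Q
    obtain ⟨B, hB⟩ := hcomp.exists_bound_of_continuousOn h3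
    have hms : MeasurableSet (Icc (0 : ℝ) T' ×ˢ Q) := measurableSet_Icc.prod measurable_Q
    have : IsFiniteMeasure (volume.restrict (Icc 0 T' ×ˢ Q) : Measure (ℝ × V)) :=
      ⟨by rw [Measure.restrict_apply_univ]; exact hcomp.measure_lt_top⟩
    exact MemLp.of_bound (h3.aestronglyMeasurable hms) B
      ((ae_restrict_iff' hms).2 (Eventually.of_forall hB))
  have hgI : IntegrableOn (fun s => (1 / 2) * ∫ x in Q, ∑ i, (u s x i - v s x i) ^ 2)
      (Icc 0 T') := by
    have h3 : Integrable (fun z : ℝ × V => ∑ i, (u z.1 z.2 i - v z.1 z.2 i) ^ 2)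
        (volume.restrict (Icc 0 T' ×ˢ Q)) :=
      integrable_finsetSum _ fun i _ =>
        (((h1 n ν α T' u₀ u G hν hu).2 i).sub (hvST i)).integrable_sq
    rw [hprod] at h3
    exact (h3.integral_prod_left).const_mul (1 / 2)
  -- the energy
  have hg0 : ∀ s ∈ Icc 0 T', 0 ≤ (1 / 2) * ∫ x in Q, ∑ i, (u s x i - v s x i) ^ 2 := by
    intro s _
    exact mul_nonneg (by norm_num) (integral_nonneg fun x => Finset.sum_nonneg fun i _ =>
      sq_nonneg _)
  have hD0' : ∀ s ∈ Icc 0 T', 0 ≤ ∫ r in (0 : ℝ)..s, ∫ x in Q, ∑ i, ∑ j,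
      (G r x i j - grd v r x i j) ^ 2 := by
    intro s hs
    exact intervalIntegral.integral_nonneg hs.1 fun r _ => integral_nonneg fun x =>
      Finset.sum_nonneg fun i _ => Finset.sum_nonneg fun j _ => sq_nonneg _
  have hI0 : 0 ≤ ∫ x in Q, ∑ i, (u₀ x i - v 0 x i) ^ 2 :=
    integral_nonneg fun x => Finset.sum_nonneg fun i _ => sq_nonneg _
  have key := h2 T' (6 * K) ((1 / 2) * ∫ x in Q, ∑ i, (u₀ x i - v 0 x i) ^ 2)
    (fun s => (1 / 2) * ∫ x in Q, ∑ i, (u s x i - v s x i) ^ 2)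
    (fun s => ν * ∫ r in (0 : ℝ)..s, ∫ x in Q, ∑ i, ∑ j, (G r x i j - grd v r x i j) ^ 2)
    (by positivity) (by positivity) hgI hg0 (fun s hs => mul_nonneg hν.le (hD0' s hs))
    (by
      intro s hs
      have h3 := h5 n ν α T' u₀ u G v p hν hn hu₀ hu hv s hs
      have h4 : ‖∫ r in (0 : ℝ)..s, ∫ x in Q, ∑ i, ∑ j, (u r x i - v r x i) *
          (u r x j - v r x j) * grd v r x i j‖ ≤
          ∫ r in (0 : ℝ)..s, 6 * K * ((1 / 2) * ∫ x in Q, ∑ i, (u r x i - v r x i) ^ 2) := by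
        refine intervalIntegral.norm_integral_le_of_norm_le hs.1 ?_ ?_
        · refine Eventually.of_forall fun r hr => ?_
          have hr' : r ∈ Icc 0 T' := ⟨hr.1.le, hr.2.trans hs.2⟩
          have h6 : ‖∫ x in Q, ∑ i, ∑ j, (u r x i - v r x i) * (u r x j - v r x j) *
              grd v r x i j‖ ≤ ∫ x in Q, 3 * K * ∑ i, (u r x i - v r x i) ^ 2 := by
            refine norm_integral_le_of_norm_le ((hwI r hr').const_mul (3 * K)) ?_
            refine (ae_restrict_iff' measurable_Q).2 (Eventually.of_forall fun x hx => ?_)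
            rw [Real.norm_eq_abs]
            exact abs_sum_le (fun i => u r x i - v r x i) (fun i j => grd v r x i j) hK0
              (fun i j => hK r ⟨hr'.1, hr'.2.trans hT'⟩ x hx i j)
          refine h6.trans (le_of_eq ?_)
          rw [integral_const_mul]
          ring
        · have h7 : IntervalIntegrable
              (fun r => (1 / 2) * ∫ x in Q, ∑ i, (u r x i - v r x i) ^ 2) volume 0 s := by
            rw [intervalIntegrable_iff_integrableOn_Ioc_of_le hs.1]
            exact hgI.mono_set fun r hr => ⟨hr.1.le, hr.2.trans hs.2⟩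
          exact h7.const_mul (6 * K)
      rw [intervalIntegral.integral_const_mul, Real.norm_eq_abs] at h4
      have h5' := neg_abs_le (∫ r in (0 : ℝ)..s, ∫ x in Q, ∑ i, ∑ j, (u r x i - v r x i) *
          (u r x j - v r x j) * grd v r x i j)
      linarith) t ht
  -- the end
  have hexp : Real.exp (6 * K * T') ≤ Real.exp (6 * K * |T|) := by
    apply Real.exp_le_exp.2
    exact mul_le_mul_of_nonneg_left (hT'.trans (le_abs_self T)) (by positivity)
  set A := ∫ x in Q, ∑ i, (u t x i - v t x i) ^ 2 with hA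
  set B := ∫ r in (0 : ℝ)..t, ∫ x in Q, ∑ i, ∑ j, (G r x i j - grd v r x i j) ^ 2 with hB
  set I := ∫ x in Q, ∑ i, (u₀ x i - v 0 x i) ^ 2 with hI
  have hA0 : 0 ≤ A := by
    rw [hA]
    exact integral_nonneg fun x => Finset.sum_nonneg fun i _ => sq_nonneg _
  have hB0 : 0 ≤ B := hD0' t ht
  have hE := Real.exp_pos (6 * K * |T|)
  have hνi : 0 < 1 / ν := by positivity
  have h8 : 1 / 2 * A + ν * B ≤ 1 / 2 * I * Real.exp (6 * K * |T|) :=
    key.trans (mul_le_mul_of_nonneg_left hexp (by positivity))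
  have h9 : A + B ≤ (2 + 1 / ν) * (1 / 2 * A + ν * B) := by
    have h10 : (2 + 1 / ν) * (1 / 2 * A + ν * B) =
        A + B + 2 * (ν * B) + 1 / ν * (1 / 2 * A) := by
      field_simp
      ring
    rw [h10]
    have h11 : 0 ≤ 2 * (ν * B) := by positivity
    have h12 : 0 ≤ 1 / ν * (1 / 2 * A) := by positivity
    linarith
  calc A + B ≤ (2 + 1 / ν) * (1 / 2 * A + ν * B) := h9
    _ ≤ (2 + 1 / ν) * (1 / 2 * I * Real.exp (6 * K * |T|)) :=
        mul_le_mul_of_nonneg_left h8 (by positivity)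
    _ = (2 + 1 / ν) * Real.exp (6 * K * |T|) * (1 / 2 * I) := by ring
    _ ≤ (2 + 1 / ν) * Real.exp (6 * K * |T|) * I :=
        mul_le_mul_of_nonneg_left (by linarith) (by positivity)
    _ ≤ max 1 ((2 + 1 / ν) * Real.exp (6 * K * |T|)) * I :=
        mul_le_mul_of_nonneg_right (le_max_right _ _) hI0

end Pool.Agent.H303.DEE
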