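import Pool.Agent.H303.DEE.Stm

/-!
T7: smooth data (helper790).
-/

open MeasureTheory Set Filter Topology
open scoped ContDiff ENNReal

namespace Pool.Agent.H303.DEE

namespace T7

theorem isCompact_Q : IsCompact Q := isCompact_Icc

theorem measurableSet_Q : MeasurableSet Q := measurableSet_Icc

/-- continuous functions on compact sets are square integrable -/
theorem memLp_of_cont {X : Type*} [TopologicalSpace X] [MeasurableSpace X] [OpensMeasurableSpace X]
    {μ : Measure X} [IsFiniteMeasureOnCompacts μ] {K : Set X} (hK : IsCompact K)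
    (hKm : MeasurableSet K) {f : X → ℝ} (hf : ContinuousOn f K) :
    MemLp f 2 (μ.restrict K) := by
  have : IsFiniteMeasure (μ.restrict K) := ⟨by
    rw [Measure.restrict_apply_univ]
    exact hK.measure_lt_top⟩
  obtain ⟨C, hC⟩ := hK.exists_bound_of_continuousOn hf
  exact MemLp.of_bound (hf.aestronglyMeasurable_of_isCompact hK hKm) C
    ((ae_restrict_iff' hKm).2 (Eventually.of_forall fun x hx => hC x hx))

end T7

open T7

theorem t7 (h0 : A0) (h4 : A4) (h6 : A6) : A7 := by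
  intro n ν α v p hν hn hsol T u G hLH
  obtain ⟨hv1, hv2, -⟩ := h0 v hsol.smooth_u
  have hvc : ∀ t, 0 ≤ t → ∀ i, Continuous fun x => v t x i := fun t ht i =>
    (continuous_apply i).comp (hv1 t ht).continuous
  have hvL : ∀ t, 0 ≤ t → ∀ i, MemLp (fun x => v t x i) 2 mQ := fun t ht i =>
    memLp_of_cont isCompact_Q measurableSet_Q (hvc t ht i).continuousOn
  obtain ⟨C, hC, hst⟩ := h6 n ν α v p T hν hn hsol
  have hst' := hst T le_rfl (v 0) u G (hvL 0 le_rfl) hLH
  have hzero : ∫ x in Q, ∑ i, (v 0 x i - v 0 x i) ^ 2 = 0 := by simp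
  rw [hzero, mul_zero] at hst'
  have hn1 : ∀ t, 0 ≤ ∫ x in Q, ∑ i, (u t x i - v t x i) ^ 2 := fun t =>
    integral_nonneg fun x => Finset.sum_nonneg fun i _ => sq_nonneg _
  have hn2 : ∀ t, 0 ≤ t → 0 ≤ ∫ s in (0 : ℝ)..t, ∫ x in Q, ∑ i, ∑ j,
      (G s x i j - grd v s x i j) ^ 2 := fun t ht =>
    intervalIntegral.integral_nonneg ht fun s _ => integral_nonneg fun x =>
      Finset.sum_nonneg fun i _ => Finset.sum_nonneg fun j _ => sq_nonneg _
  -- the velocity
  have hu : ∀ t ∈ Icc 0 T, u t =ᵐ[mQ] v t := by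
    intro t ht
    have h1 : ∫ x in Q, ∑ i, (u t x i - v t x i) ^ 2 = 0 :=
      le_antisymm (by linarith [hst' t ht, hn2 t ht.1]) (hn1 t)
    have h2 : Integrable (fun x => ∑ i, (u t x i - v t x i) ^ 2) mQ :=
      integrable_finsetSum _ fun i _ => ((hLH.l2_u t ht i).sub (hvL t ht.1 i)).integrable_sq
    rw [integral_eq_zero_iff_of_nonneg (fun x => Finset.sum_nonneg fun i _ => sq_nonneg _) h2] at h1
    filter_upwards [h1] with x hx
    have hx' : ∑ i, (u t x i - v t x i) ^ 2 = 0 := hx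
    rw [Finset.sum_eq_zero_iff_of_nonneg fun i _ => sq_nonneg _] at hx'
    funext i
    have h3 := hx' i (Finset.mem_univ i)
    have h4 := pow_eq_zero_iff (two_ne_zero) |>.1 h3
    linarith
  -- the gradient
  have hprod : (volume : Measure (ℝ × V)).restrict (Icc 0 T ×ˢ Q) =
      ((volume : Measure ℝ).restrict (Icc 0 T)).prod mQ := by
    rw [Measure.volume_eq_prod, Measure.prod_restrict]
  have hG : ∀ᵐ z ∂(volume.restrict (Icc 0 T ×ˢ Q)), ∀ i j,
      G z.1 z.2 i j = grd v z.1 z.2 i j := by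
    rcases lt_or_ge T 0 with hT | hT
    · rw [Icc_eq_empty (not_le.2 hT), empty_prod, Measure.restrict_empty]
      exact ae_zero.symm ▸ eventually_bot
    have hK : IsCompact (Icc (0 : ℝ) T ×ˢ Q) := isCompact_Icc.prod isCompact_Q
    have hKm : MeasurableSet (Icc (0 : ℝ) T ×ˢ Q) := measurableSet_Icc.prod measurableSet_Q
    have hgL : ∀ i j, MemLp (fun z : ℝ × V => grd v z.1 z.2 i j) 2
        (volume.restrict (Icc 0 T ×ˢ Q)) := fun i j =>
      memLp_of_cont hK hKm ((hv2 i j).mono fun z hz => ⟨hz.1.1, mem_univ _⟩)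
    have hInt : Integrable (fun z : ℝ × V => ∑ i, ∑ j, (G z.1 z.2 i j - grd v z.1 z.2 i j) ^ 2)
        (volume.restrict (Icc 0 T ×ˢ Q)) :=
      integrable_finsetSum _ fun i _ => integrable_finsetSum _ fun j _ =>
        ((hLH.l2_G i j).sub (hgL i j)).integrable_sq
    have hI0 : ∫ s in (0 : ℝ)..T, ∫ x in Q, ∑ i, ∑ j, (G s x i j - grd v s x i j) ^ 2 = 0 :=
      le_antisymm (by linarith [hst' T ⟨hT, le_rfl⟩, hn1 T]) (hn2 T hT)
    have hI1 : ∫ z, ∑ i, ∑ j, (G z.1 z.2 i j - grd v z.1 z.2 i j) ^ 2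
        ∂((volume : Measure (ℝ × V)).restrict (Icc 0 T ×ˢ Q)) = 0 := by
      rw [hprod] at hInt ⊢
      refine Eq.trans ?_ hI0
      rw [integral_prod _ hInt, intervalIntegral.integral_of_le hT, integral_Icc_eq_integral_Ioc]
    rw [integral_eq_zero_iff_of_nonneg (fun z => Finset.sum_nonneg fun i _ =>
      Finset.sum_nonneg fun j _ => sq_nonneg _) hInt] at hI1
    filter_upwards [hI1] with z hz i j
    have hz' : ∑ i, ∑ j, (G z.1 z.2 i j - grd v z.1 z.2 i j) ^ 2 = 0 := hz
    rw [Finset.sum_eq_zero_iff_of_nonneg fun i _ => Finset.sum_nonneg fun j _ => sq_nonneg _] at hz'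
    have h3 := hz' i (Finset.mem_univ i)
    rw [Finset.sum_eq_zero_iff_of_nonneg fun j _ => sq_nonneg _] at h3
    have h4 := pow_eq_zero_iff (two_ne_zero) |>.1 (h3 j (Finset.mem_univ j))
    linarith
  refine ⟨hu, hG, fun t ht => ?_⟩
  -- the energy equality
  have hE := h4 n ν α v p hn hsol t ht.1
  rw [EnergyEq] at hE ⊢
  have e1 : ∫ x in Q, ∑ i, u t x i ^ 2 = ∫ x in Q, ∑ i, v t x i ^ 2 := by
    refine integral_congr_ae ?_
    filter_upwards [hu t ht] with x hx
    simp only [hx]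
  have e2 : ∫ s in (0 : ℝ)..t, ∫ x in Q, ∑ i, ∑ j, G s x i j ^ 2 =
      ∫ s in (0 : ℝ)..t, ∫ x in Q, ∑ i, ∑ j, grd v s x i j ^ 2 := by
    have h5 : ∀ᵐ s ∂((volume : Measure ℝ).restrict (Icc 0 T)), ∀ᵐ x ∂mQ, ∀ i j,
        G s x i j = grd v s x i j := by
      rw [hprod] at hG
      exact Measure.ae_ae_of_ae_prod hG
    rw [ae_restrict_iff' measurableSet_Icc] at h5
    apply intervalIntegral.integral_congr_ae
    filter_upwards [h5] with s hs hst
    rw [uIoc_of_le ht.1] at hst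
    refine integral_congr_ae ?_
    filter_upwards [hs ⟨hst.1.le, hst.2.trans ht.2⟩] with x hx
    simp only [hx]
  rw [e1, e2]
  exact hE

end Pool.Agent.H303.DEE
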